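import Pool.Agent.H897.TM
import Pool.Graph.R_seed8.Y191.LcCan

set_option autoImplicit false

open FF Pool.Agent.W602.GT Pool.Agent.Y172 Pool.Agent.NH31 Pool.Agent.H897 Pool.Agent.Y191

namespace Pool.Agent.H897

section

variable {K : Type} [Field K] [Algebra ℂ K] {N n : ℕ} {y : Fin (N + 1) → K}

/-- the growth of the sections of `m D + A` is at most that of `m ^ κ`, if `K_X - D` is
pseudo-effective -/
theorem cp_num {E : Fin n → Derivation ℂ K K} (hE : IsFrame E) {κ : ℕ}
    (hup : ∀ A, FinSup y A → ∃ C : ℕ, ∀ m : ℕ, 1 ≤ m → ∀ (r : ℕ) (f : Fin r → K),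
      LinearIndependent ℂ f → (∀ i, ∃ ω, IsSection y n m (m • 0 + A) ω ∧ ω E = f i) →
        r ≤ C * m ^ κ) {D : Place ℂ K → ℚ} (hD : Effective y D) (hps : PsefSub y n 0 D)
    {A : Place ℂ K → ℚ} (hA : Effective y A) :
    ∃ C : ℕ, ∀ m : ℕ, 1 ≤ m → ∀ (r : ℕ) (f : Fin r → K), LinearIndependent ℂ f →
      (∀ i, Fn y (m • D + A) (f i)) → r ≤ C * m ^ κ := by
  classical
  obtain ⟨H, hH, m1, hm1, hs⟩ := hps
  have hHA : FinSup y (H + A) := by
    refine (hH.2.union hA.2).subset ?_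
    rintro P ⟨hP, h0⟩
    by_contra hcon
    rw [Set.mem_union] at hcon
    push Not at hcon
    have h1 : H P = 0 := by
      by_contra h
      exact hcon.1 ⟨hP, h⟩
    have h2 : A P = 0 := by
      by_contra h
      exact hcon.2 ⟨hP, h⟩
    exact h0 (by rw [Pi.add_apply, h1, h2, add_zero])
  obtain ⟨C, hC⟩ := hup (H + A) hHA
  refine ⟨C * (m1 ^ κ), fun m hm r f hf hfD => ?_⟩
  obtain ⟨ω, hω0, hω⟩ := hs m hm
  have hωE : ω E ≠ 0 := fun h0 => hω0 (pluri_zero hE hω.1 h0)
  have h1 := hC (m * m1) (Nat.mul_pos hm hm1) r (fun i => ω E * f i)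
    (hf.map' (LinearMap.mulLeft ℂ (ω E)) (LinearMap.ker_eq_bot.2
      (mul_right_injective₀ hωE))) fun i => ⟨fun D => ω D * f i, ?_, rfl⟩
  · rw [mul_pow] at h1
    calc r ≤ C * (m ^ κ * m1 ^ κ) := h1
      _ = C * m1 ^ κ * m ^ κ := by ring
  · have h2 := mul_function (D' := (m * m1) • D + A) hω (f := f i) (fun P hP => by
      rcases hfD i P hP with h | h
      · exact Or.inl h
      · right
        refine le_trans ?_ h
        rw [Pi.add_apply, Pi.add_apply, Pi.smul_apply, Pi.smul_apply, nsmul_eq_mul, nsmul_eq_mul]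
        have h3 := hD.1 P hP
        have h4 : (m : ℚ) ≤ ((m * m1 : ℕ) : ℚ) := by
          exact_mod_cast Nat.le_mul_of_pos_right m hm1
        have h5 := mul_le_mul_of_nonneg_right h4 h3
        linarith)
    have h3 : (m * m1) • ((0 : Place ℂ K → ℚ) - D) + H + ((m * m1) • D + A) =
        (m * m1) • 0 + (H + A) := by
      funext P
      simp only [Pi.add_apply, smul_ap, Pi.sub_apply, Pi.zero_apply]
      ring
    rw [h3] at h2
    exact h2

end

end Pool.Agent.H897
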