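import Pool.Agent.H897.VF
import Pool.Graph.R_pool_sql_team_seeded_63374d34.N133.TB.Rel3

/-!
Towers of distributions inside of the relative tangent sheaf of a fibration.
-/

set_option autoImplicit false
set_option linter.overlappingInstances false
set_option linter.unusedSectionVars false

open MvPolynomial FF Pool.Agent.W602.GT Pool.Agent.Y172 Pool.Agent.NH31 Pool.Agent.W603.LV
open Pool.Agent.N133.TB Pool.Agent.Y174 Pool.Agent.TH466.QG Pool.Agent.W619.PQ
open Pool.Agent.N133.OB Pool.Agent.Y191

namespace Pool.Agent.H897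

section

variable {K : Type} [Field K] [Algebra ℂ K] {N n : ℕ} {y : Fin (N + 1) → K}

/-- **Towers**, for any top. -/
theorem tower_eff (hy : NormalModel y) (hn : Algebra.trdeg ℂ K = n) {Δ : Place ℂ K → ℚ}
    (hΔ : Boundary y Δ) {k : ℕ} {V : ℕ → Submodule K (Derivation ℂ K K)} (hV0 : V 0 = ⊥)
    (m : ℕ → ℕ) (hm : ∀ i, i < k → 1 ≤ m i) (L : ℕ → Place ℂ K → ℚ)
    (hV : ∀ i, i < k → PieceEff y n Δ (m i) (L i) (V i) (V (i + 1))) {t : ℕ}
    {D : Fin t → Derivation ℂ K K} (hDli : LinearIndependent K D)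
    (hDs : Submodule.span K (Set.range D) = V k) :
    ∃ (M : ℕ) (G : K), 1 ≤ M ∧ G ≠ 0 ∧ ∀ P, IsPrimeDivisor y P → ∀ e : ℝ,
      WedgeOrd n (Δ P) P D e → M * (e - ∑ i ∈ Finset.range k,
        ((Module.finrank K (V (i + 1)) : ℝ) - Module.finrank K (V i)) / m i * L i P) ≤
          P.ord G := by
  classical
  choose B hB1 hB2 using fun i => exists_bas hy hn (V i)
  have hpiece : ∀ i, ∃ (N0 : ℕ) (g : K), i < k → (1 ≤ N0 ∧ g ≠ 0 ∧ ∀ P, IsPrimeDivisor y P →
      ∀ eW eV : ℝ, WedgeOrd n (Δ P) P (B i) eW → WedgeOrd n (Δ P) P (B (i + 1)) eV →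
        N0 * (m i * (eV - eW) - ((Module.finrank K (V (i + 1)) : ℝ) -
          Module.finrank K (V i)) * L i P) ≤ P.ord g) := by
    intro i
    by_cases hi : i < k
    · obtain ⟨N0, g, h⟩ := (hV i hi).basis hy hn hΔ (hB1 i) (hB1 (i + 1)) (hB2 i) (hB2 (i + 1))
      exact ⟨N0, g, fun _ => h⟩
    · exact ⟨0, 0, fun h => absurd h hi⟩
  choose N0 g hNg using hpiece
  -- the common multiple
  obtain ⟨M, hM⟩ : ∃ M : ℕ, M = ∏ i ∈ Finset.range k, (N0 i * m i) := ⟨_, rfl⟩
  have hNm : ∀ i ∈ Finset.range k, 1 ≤ N0 i * m i := fun i hi =>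
    Nat.mul_pos (hNg i (Finset.mem_range.1 hi)).1 (hm i (Finset.mem_range.1 hi))
  have hM1 : 1 ≤ M := by
    rw [hM]
    have h1 : 0 < ∏ i ∈ Finset.range k, (N0 i * m i) :=
      Finset.prod_pos fun i hi => Nat.lt_of_lt_of_le Nat.zero_lt_one (hNm i hi)
    exact h1
  have hc : ∀ i, ∃ c : ℕ, i < k → M = c * (N0 i * m i) := by
    intro i
    by_cases hi : i < k
    · obtain ⟨c, hc⟩ := Finset.dvd_prod_of_mem (fun i => N0 i * m i) (Finset.mem_range.2 hi)
      exact ⟨c, fun _ => by rw [hM, hc]; ring⟩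
    · exact ⟨0, fun h => absurd h hi⟩
  choose c hc using hc
  obtain ⟨G, hG⟩ : ∃ G : K, G = ∏ i ∈ Finset.range k, g i ^ c i := ⟨_, rfl⟩
  have hG0 : G ≠ 0 := by
    rw [hG]
    exact Finset.prod_ne_zero_iff.2 fun i hi => pow_ne_zero _ (hNg i (Finset.mem_range.1 hi)).2.1
  have hGord : ∀ P : Place ℂ K, (P.ord G : ℝ) =
      ∑ i ∈ Finset.range k, (c i : ℝ) * P.ord (g i) := by
    intro P
    have h1 : ∀ s : Finset ℕ, s ⊆ Finset.range k →
        (P.ord (∏ i ∈ s, g i ^ c i) : ℝ) = ∑ i ∈ s, (c i : ℝ) * P.ord (g i) := by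
      intro s
      induction s using Finset.induction_on with
      | empty => intro _; simp [P.ord_one]
      | insert a s ha ih =>
        intro hs
        have h2 := ih fun x hx => hs (Finset.mem_insert_of_mem hx)
        have h3 : ∏ i ∈ s, g i ^ c i ≠ 0 := Finset.prod_ne_zero_iff.2 fun i hi => pow_ne_zero _
          (hNg i (Finset.mem_range.1 (hs (Finset.mem_insert_of_mem hi)))).2.1
        have h4 : g a ≠ 0 := (hNg a (Finset.mem_range.1 (hs (Finset.mem_insert_self a s)))).2.1
        rw [Finset.prod_insert ha, Finset.sum_insert ha, P.ord_mul (pow_ne_zero _ h4) h3,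
          P.ord_pow]
        push_cast
        rw [h2]
    rw [hG]
    exact h1 _ (Finset.Subset.refl _)
  -- the top
  have hcard : Module.finrank K (V k) = t := card_of_span hDli hDs
  obtain ⟨A, hA, hDA⟩ := basis_change (B := fun i => D (Fin.cast hcard i)) (hB1 k) (by
    refine (hB2 k).trans ?_
    have h1 : Set.range (fun i => D (Fin.cast hcard i)) = Set.range D := by
      refine Set.Subset.antisymm ?_ ?_
      · rintro _ ⟨i, rfl⟩
        exact ⟨_, rfl⟩
      · rintro _ ⟨i, rfl⟩
        exact ⟨Fin.cast hcard.symm i, rfl⟩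
    rw [h1, hDs])
  have hw0 : ∀ P, IsPrimeDivisor y P → ∀ e : ℝ, WedgeOrd n (Δ P) P (B 0) e → e = 0 := by
    intro P hP e he
    have h0 : Module.finrank K (V 0) = 0 := by
      rw [hV0]
      exact finrank_bot K _
    obtain ⟨E, i0, C, h1, h2, h3, I, h4, h5⟩ := he
    have h6 : IsEmpty (Fin (Module.finrank K (V 0))) := by
      rw [h0]
      infer_instance
    rw [h5, Matrix.det_isEmpty, P.ord_one]
    simp
  refine ⟨M, G * (A.det ^ M)⁻¹, hM1, mul_ne_zero hG0 (inv_ne_zero (pow_ne_zero _ hA)),
    fun P hP eD heD => ?_⟩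
  have he : ∀ i, ∃ e : ℝ, WedgeOrd n (Δ P) P (B i) e := fun i => wedge_exists hy hn Δ (hB1 i) hP
  choose e he using he
  have h1 : ∀ i ∈ Finset.range k, (M : ℝ) * ((e (i + 1) - e i) -
      ((Module.finrank K (V (i + 1)) : ℝ) - Module.finrank K (V i)) / m i * L i P) ≤
        c i * P.ord (g i) := by
    intro i hi
    have hi' := Finset.mem_range.1 hi
    have h2 := (hNg i hi').2.2 P hP (e i) (e (i + 1)) (he i) (he (i + 1))
    have h3 : (M : ℝ) = c i * (N0 i * m i) := by exact_mod_cast hc i hi'
    have h4 : (m i : ℝ) ≠ 0 := by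
      have := hm i hi'
      have h5 : m i ≠ 0 := by omega
      exact_mod_cast h5
    have h5 := mul_le_mul_of_nonneg_left h2 (Nat.cast_nonneg (c i) : (0 : ℝ) ≤ c i)
    refine le_trans (le_of_eq ?_) h5
    rw [h3]
    field_simp
  have h2 := Finset.sum_le_sum h1
  have hek : e k = eD + P.ord A.det :=
    wedge_unique hy hn hP (hΔ.1 P hP).1 (hΔ.1 P hP).2 (he k)
      (wedge_change hA hDA (wedge_cast hcard heD))
  rw [← hGord, ← Finset.mul_sum, Finset.sum_sub_distrib, Finset.sum_range_sub, hek,
    hw0 P hP _ (he 0)] at h2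
  have h3 : (P.ord (G * (A.det ^ M)⁻¹) : ℝ) = P.ord G - M * P.ord A.det := by
    rw [P.ord_mul hG0 (inv_ne_zero (pow_ne_zero _ hA)), P.ord_inv, P.ord_pow]
    push_cast
    ring
  rw [h3]
  linarith

/-- the frame along a prime divisor is independent -/
theorem frame_li (hy : NormalModel y) (hn : Algebra.trdeg ℂ K = n) {P : Place ℂ K}
    (hP : IsPrimeDivisor y P) {E : Fin n → Derivation ℂ K K} (hE : FrameAt P E) :
    LinearIndependent K E := by
  classical
  have hess := hy.ess
  obtain ⟨x', EL, l0, hL⟩ := exists_loc hn (hP.divisorial hy hn)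
  obtain ⟨hd1, -, -⟩ := det_loc hL hE
  rw [Fintype.linearIndependent_iff]
  intro g hg i
  by_contra hne
  apply hd1
  apply Matrix.exists_vecMul_eq_zero_iff.1
  refine ⟨g, fun h0 => hne (congrFun h0 i), ?_⟩
  funext k
  rw [Matrix.vecMul, dotProduct, Pi.zero_apply]
  have h4 : (∑ i, g i • E i) (x' k) = (0 : Derivation ℂ K K) (x' k) :=
    congrArg (fun D : Derivation ℂ K K => D (x' k)) hg
  rw [sum_smul_apply] at h4
  exact h4

/-- the coefficient of a field which is tangent to `P` -/
theorem log_coef (hy : NormalModel y) (hn : Algebra.trdeg ℂ K = n) {P : Place ℂ K}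
    (hP : IsPrimeDivisor y P) {δ : ℚ} (hδ : δ ≠ 0) {E : Fin n → Derivation ℂ K K} {i0 : Fin n}
    (hA : Adapted δ P E i0) {D : Derivation ℂ K K} (hD : DerLog P D) {c : Fin n → K}
    (hc : ∀ i, P.Reg (c i)) (hcE : D = ∑ i, c i • E i) : GeR P 1 (c i0) := by
  classical
  have hess := hy.ess
  obtain ⟨x', EL, l0, hL⟩ := exists_loc hn (hP.divisorial hy hn)
  have hlog : ∀ D : Derivation ℂ K K, DerLog P D → GeR P 1 (D (x' l0)) := by
    intro D hD
    have h1 := hD (x' l0)
    by_cases h0 : D (x' l0) = 0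
    · exact Or.inl h0
    · right
      have hx0 : x' l0 ≠ 0 := by
        intro h
        have := hL.unif
        rw [h, P.ord_zero] at this
        exact absurd this (by norm_num)
      have h2 := (P.reg_iff (div_ne_zero h0 hx0)).1 h1
      rw [P.ord_div h0 hx0, hL.unif] at h2
      have h3 : (1 : ℤ) ≤ P.ord (D (x' l0)) := by omega
      exact_mod_cast h3
  have hne1 : ¬ GeR P 1 (1 : K) := by
    rintro (h | h)
    · exact one_ne_zero h
    · rw [P.ord_one] at h
      norm_num at h
  have hunit : ¬ GeR P 1 (E i0 (x' l0)) := by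
    intro hcon
    apply hne1
    obtain ⟨d, hd, hdE⟩ := hA.1.2 (EL l0) (hL.pres l0)
    have h1 : (1 : K) = ∑ i, d i * E i (x' l0) := by
      have h2 : EL l0 (x' l0) = (∑ i, d i • E i) (x' l0) :=
        congrArg (fun D : Derivation ℂ K K => D (x' l0)) hdE
      rw [hL.dual, if_pos rfl, sum_smul_apply] at h2
      exact h2
    rw [h1]
    refine Pool.Agent.Y174.OB.geR_sum _ _ _ fun i _ => ?_
    have h3 : GeR P 1 (E i (x' l0)) := by
      by_cases hi' : i = i0
      · rw [hi']
        exact hcon
      · exact hlog _ (hA.2 hδ i hi')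
    exact ((reg_geR (hd i)).mul h3).mono (by norm_num)
  have hE0 : E i0 (x' l0) ≠ 0 := fun h => hunit (Or.inl h)
  have hord : P.ord (E i0 (x' l0)) ≤ 0 := by
    by_contra hcon
    push Not at hcon
    apply hunit
    right
    have : (1 : ℤ) ≤ P.ord (E i0 (x' l0)) := by omega
    exact_mod_cast this
  have h1 : c i0 * E i0 (x' l0) = D (x' l0) +
      ∑ i ∈ Finset.univ.erase i0, -(c i * E i (x' l0)) := by
    have h2 : D (x' l0) = (∑ i, c i • E i) (x' l0) :=
      congrArg (fun D : Derivation ℂ K K => D (x' l0)) hcE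
    rw [sum_smul_apply, ← Finset.add_sum_erase _ _ (Finset.mem_univ i0)] at h2
    rw [h2, Finset.sum_neg_distrib]
    ring
  have h2 : GeR P 1 (c i0 * E i0 (x' l0)) := by
    rw [h1]
    have h3 : GeR P 1 (D (x' l0)) := hlog _ hD
    have h4 : GeR P 1 (∑ i ∈ Finset.univ.erase i0, -(c i * E i (x' l0))) := by
      refine Pool.Agent.Y174.OB.geR_sum _ _ _ fun i hi' => ?_
      have h5 : GeR P 1 (c i * E i (x' l0)) :=
        ((reg_geR (hc i)).mul (hlog _ (hA.2 hδ i (Finset.ne_of_mem_erase hi')))).mono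
          (by norm_num)
      rcases h5 with h5 | h5
      · left
        rw [h5, neg_zero]
      · right
        rwa [P.ord_neg]
    have h5 := Pool.Agent.Y174.OB.geR_sum (w := P) (Finset.univ : Finset (Fin 2)) 1
      ![D (x' l0), ∑ i ∈ Finset.univ.erase i0, -(c i * E i (x' l0))]
      (fun i _ => by
        fin_cases i
        · exact h3
        · exact h4)
    rw [Fin.sum_univ_two] at h5
    exact h5
  by_cases h0 : c i0 = 0
  · exact Or.inl h0
  · right
    have h3 := h2.resolve_left (mul_ne_zero h0 hE0)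
    rw [P.ord_mul h0 hE0] at h3
    push_cast at h3
    have h4 : (P.ord (E i0 (x' l0)) : ℝ) ≤ 0 := by exact_mod_cast hord
    linarith

/-- the order of the exterior product of regular vector fields -/
theorem wedge_reg (hy : NormalModel y) (hn : Algebra.trdeg ℂ K = n) {P : Place ℂ K}
    (hP : IsPrimeDivisor y P) {δ : ℚ} (hδ0 : 0 ≤ δ) (hδ1 : δ ≤ 1) {r : ℕ}
    {D : Fin r → Derivation ℂ K K} (hD : ∀ k, DerReg P (D k)) {e : ℝ}
    (he : WedgeOrd n δ P D e) : -(δ : ℝ) ≤ e ∧ ((∀ k, DerLog P (D k)) → 0 ≤ e) := by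
  classical
  obtain ⟨E, i0, c, hA, hDc, h1, I, h2, h3⟩ := he
  have hli := frame_li hy hn hP hA.1
  have hδ0R : (0 : ℝ) ≤ δ := by exact_mod_cast hδ0
  have hδ1R : (δ : ℝ) ≤ 1 := by exact_mod_cast hδ1
  have hreg : ∀ k j, P.Reg (c k j) := by
    intro k j
    obtain ⟨c', hc', hcE⟩ := hA.1.2 (D k) (hD k)
    have h4 : ∑ j, (c k j - c' j) • E j = 0 := by
      simp only [sub_smul, Finset.sum_sub_distrib]
      rw [← hDc k, ← hcE, sub_self]
    have h5 := sub_eq_zero.1 (Fintype.linearIndependent_iff.1 hli _ h4 j)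
    rw [h5]
    exact hc' j
  have hinj : Function.Injective I := by
    intro a b hab
    by_contra hne
    exact h2 (Matrix.det_zero_of_column_eq hne fun k => by
      rw [Matrix.submatrix_apply, Matrix.submatrix_apply, hab])
  have hsum : ∑ s, (if I s = i0 then (1 : ℝ) else 0) ≤ 1 := by
    rw [← Finset.sum_filter, Finset.sum_const, nsmul_eq_mul, mul_one]
    have h4 : (Finset.univ.filter fun s => I s = i0).card ≤ 1 :=
      Finset.card_le_one.2 fun a ha b hb => hinj
        ((Finset.mem_filter.1 ha).2.trans (Finset.mem_filter.1 hb).2.symm)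
    exact_mod_cast h4
  have hsum0 : 0 ≤ ∑ s, (if I s = i0 then (1 : ℝ) else 0) :=
    Finset.sum_nonneg fun s _ => by split_ifs <;> norm_num
  have hδs : ∑ s, (if I s = i0 then (δ : ℝ) else 0) =
      δ * ∑ s, (if I s = i0 then (1 : ℝ) else 0) := by
    rw [Finset.mul_sum]
    exact Finset.sum_congr rfl fun s _ => by split_ifs <;> simp
  constructor
  · have h4 : GeR P 0 (c.submatrix id I).det := by
      have h5 := geR_det (P := P) (A := c.submatrix id I) (a := fun _ => 0) (b := fun _ => 0)
        (fun k s => by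
          rw [sub_zero]
          exact reg_geR (hreg k (I s)))
      simpa using h5
    have h5 := h4.resolve_left h2
    rw [h3, hδs]
    nlinarith
  · intro hlog
    by_cases hδ : δ = 0
    · have h4 : GeR P 0 (c.submatrix id I).det := by
        have h5 := geR_det (P := P) (A := c.submatrix id I) (a := fun _ => 0) (b := fun _ => 0)
          (fun k s => by
            rw [sub_zero]
            exact reg_geR (hreg k (I s)))
        simpa using h5
      have h5 := h4.resolve_left h2
      rw [h3, hδs, hδ]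
      push_cast
      linarith
    · have h4 := geR_det (P := P) (A := c.submatrix id I) (a := fun _ => 0)
        (b := fun s => -(if I s = i0 then (1 : ℝ) else 0)) (fun k s => by
          rw [zero_sub, neg_neg, Matrix.submatrix_apply]
          by_cases hs : I s = i0
          · rw [if_pos hs, hs]
            exact log_coef hy hn hP hδ hA (hlog k) (hreg k) (hDc k)
          · rw [if_neg hs]
            exact reg_geR (hreg k (I s)))
      have h5 := h4.resolve_left h2
      rw [Finset.sum_const_zero, zero_sub, Finset.sum_neg_distrib, neg_neg] at h5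
      rw [h3, hδs]
      nlinarith

end

section

variable {L K : Type} [Field L] [Field K] [Algebra ℂ L] [Algebra ℂ K] [Algebra L K]
  [IsScalarTower ℂ L K] {N : ℕ} {y : Fin (N + 1) → K} {d r : ℕ}

/-- **The relative tangent sheaf** of the fibration with the function field `L` of the base: the
vector fields which vanish on `L`. -/
def relTan (L K : Type) [Field L] [Field K] [Algebra ℂ L] [Algebra ℂ K] [Algebra L K]
    [IsScalarTower ℂ L K] : Submodule K (Derivation ℂ K K) where
  carrier := {D | ∀ l : L, D (algebraMap L K l) = 0}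
  add_mem' := fun {D D'} h h' l => by rw [Derivation.add_apply, h l, h' l, add_zero]
  zero_mem' := fun l => rfl
  smul_mem' := fun c D h l => by rw [Derivation.smul_apply, h l, smul_zero]

theorem relTan_span {x : Fin r → K} (hx : IsTranscendenceBasis L x)
    [CharZero L] {E : Fin r → Derivation L K K}
    (hE : ∀ i j, E i (x j) = if i = j then 1 else 0) :
    Submodule.span K (Set.range fun i => (E i).restrictScalars ℂ) = relTan L K := by
  classical
  refine le_antisymm ?_ fun D hD => ?_
  · rw [Submodule.span_le]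
    rintro _ ⟨i, rfl⟩ l
    change E i (algebraMap L K l) = 0
    exact (E i).map_algebraMap l
  · -- lift the derivation
    let D' : Derivation L K K :=
      { toFun := D
        map_add' := map_add D
        map_smul' := fun l f => by
          rw [RingHom.id_apply, Algebra.smul_def, Derivation.leibniz, hD l, smul_zero, add_zero]
          exact algebraMap_smul K l (D f)
        map_one_eq_zero' := D.map_one_eq_zero
        leibniz' := D.leibniz }
    have h1 := Pool.Agent.W73.PG.PULL.expand x hx E hE D'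
    have h2 : D = ∑ j, D' (x j) • (E j).restrictScalars ℂ := by
      ext f
      have h3 := congrArg (fun D : Derivation L K K => D f) h1
      have h4 : (∑ j, D' (x j) • (E j).restrictScalars ℂ) f = ∑ j, D' (x j) * E j f := by
        rw [Pool.Agent.W721.PG.EFF2.der_sum]
        rfl
      have h5 : (∑ j, D' (x j) • E j) f = ∑ j, D' (x j) * E j f := by
        rw [Pool.Agent.W721.PG.EFF2.der_sum]
      rw [h4, ← h5]
      exact h3.symm
    rw [h2]
    exact Submodule.sum_mem _ fun j _ => Submodule.smul_mem _ _ (Submodule.subset_span ⟨j, rfl⟩)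

end

end Pool.Agent.H897
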