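import Pool.Agent.H897.QH
import Pool.Agent.H897.VG

/-!
The distribution of the Iitaka fibration and its degree.
-/

set_option autoImplicit false
set_option linter.overlappingInstances false
set_option linter.unusedSectionVars false

open MvPolynomial FF Pool.Agent.W602.GT Pool.Agent.Y172 Pool.Agent.NH31 Pool.Agent.W603.LV
open Pool.Agent.N133.TB Pool.Agent.Y174 Pool.Agent.TH466.QG Pool.Agent.W619.PQ
open Pool.Agent.N133.OB Pool.Agent.Y191

namespace Pool.Agent.H897

section

variable {K : Type} [Field K] [Algebra ℂ K] {N n : ℕ} {y : Fin (N + 1) → K}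

/-- the pull-back of pluricanonical forms under a birational automorphism -/
noncomputable def pullPl (φ : K ≃ₐ[ℂ] K) (ω : (Fin n → Derivation ℂ K K) → K) :
    (Fin n → Derivation ℂ K K) → K :=
  fun E => φ.symm (ω fun i => pushD φ (E i))

/-- The birational automorphism preserves the sections of the multiples of `K_X + Δ`. -/
def PresPluri (y : Fin (N + 1) → K) (n : ℕ) (Δ : Place ℂ K → ℚ) (φ : K ≃ₐ[ℂ] K) : Prop :=
  ∀ (d : ℕ) (ω : (Fin n → Derivation ℂ K K) → K), IsSection y n d (d • Δ) ω →
    IsSection y n d (d • Δ) (pullPl φ ω)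

/-- **The distribution of the Iitaka fibration**: the vector fields which annihilate the ratios of
the sections of the multiples of `K_X + Δ`. -/
def iitDist (y : Fin (N + 1) → K) (n : ℕ) (Δ : Place ℂ K → ℚ) :
    Submodule K (Derivation ℂ K K) where
  carrier := {D | ∀ f ∈ Ratio y n Δ, D f = 0}
  add_mem' := fun {D D'} h h' f hf => by rw [Derivation.add_apply, h f hf, h' f hf, add_zero]
  zero_mem' := fun f _ => rfl
  smul_mem' := fun c D h f hf => by rw [Derivation.smul_apply, h f hf, smul_zero]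

/-- the distribution is invariant -/
theorem iitDist_inv {Δ : Place ℂ K → ℚ} {φ : K ≃ₐ[ℂ] K} (hφ : PresPluri y n Δ φ)
    {D : Derivation ℂ K K} (hD : D ∈ iitDist y n Δ) : pushD φ D ∈ iitDist y n Δ := by
  intro f hf
  obtain ⟨m, hm, η, h1, h2, h3⟩ := hf
  rw [pushD_apply, hD (φ.symm f), map_zero]
  refine ⟨m, hm, pullPl φ η, hφ m η h1, ?_, ?_⟩
  · intro h0
    apply h2
    funext E
    have h4 := congrFun h0 fun i => pushD φ.symm (E i)
    have h5 : φ.symm (η fun i => pushD φ (pushD φ.symm (E i))) = 0 := h4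
    have h6 := (map_eq_zero _).1 h5
    have h7 : (fun i => pushD φ (pushD φ.symm (E i))) = E := funext fun i => pushD_symm' φ (E i)
    rw [h7] at h6
    exact h6
  · have h4 := hφ m _ h3
    have h5 : pullPl φ (fun E => f * η E) = fun E => φ.symm f * pullPl φ η E := by
      funext E
      change φ.symm (f * _) = _
      rw [map_mul]
      rfl
    rw [← h5]
    exact h4

/-- the order function of an exterior product -/
theorem wedge_fun (hy : NormalModel y) (hn : Algebra.trdeg ℂ K = n) {Δ : Place ℂ K → ℚ}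
    (hΔ : FinSup y Δ) {t : ℕ} {B : Fin t → Derivation ℂ K K} (hB : LinearIndependent K B) :
    ∃ e : Place ℂ K → ℝ, (∀ P, IsPrimeDivisor y P → WedgeOrd n (Δ P) P B (e P)) ∧
      {P | IsPrimeDivisor y P ∧ e P ≠ 0}.Finite := by
  classical
  have hess := hy.ess
  obtain ⟨x, E0, hx, hE0⟩ := exists_crd hn
  obtain ⟨w, hwf, hw⟩ := exists_canon hy hn hx hE0
  have hfr : IsFrame E0 := frame_of_dual hx hE0
  obtain ⟨B0, hB0⟩ := exists_coords hfr B
  have hlocd : ∀ P : Place ℂ K, ∃ e : ℝ, IsPrimeDivisor y P → (WedgeOrd n (Δ P) P B e ∧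
      (FrameAt P E0 → Δ P = 0 → (∀ (s : ℕ) (hs : s ≤ t) (I : Fin s → Fin n),
        (B0.submatrix (Fin.castLE hs) I).det ≠ 0 →
          P.ord (B0.submatrix (Fin.castLE hs) I).det = 0) → e = 0)) := by
    intro P
    by_cases hP : IsPrimeDivisor y P
    · obtain ⟨U, nk, h1, h2, h3, h4, h5, -⟩ := loc_rect hy hn hx hE0 hw hB hB0 Δ hP
      exact ⟨_, fun _ => ⟨h3 t le_rfl, fun h6 h7 h8 => h5 h6 h7 h8 t le_rfl⟩⟩
    · exact ⟨0, fun h => absurd h hP⟩
  choose e he using hlocd
  refine ⟨e, fun P hP => (he P hP).1, ?_⟩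
  have hI : ∀ (s : Fin (t + 1)) (I : Fin s → Fin n), {P | IsPrimeDivisor y P ∧
      (B0.submatrix (Fin.castLE (Nat.lt_succ_iff.1 s.2)) I).det ≠ 0 ∧
      P.ord (B0.submatrix (Fin.castLE (Nat.lt_succ_iff.1 s.2)) I).det ≠ 0}.Finite := by
    intro s I
    by_cases h0 : (B0.submatrix (Fin.castLE (Nat.lt_succ_iff.1 s.2)) I).det = 0
    · exact Set.finite_empty.subset (by rintro P ⟨-, h, -⟩; exact h h0)
    · exact (finite_ord hy h0).subset (by rintro P ⟨h1, -, h2⟩; exact ⟨h1, h2⟩)
  refine ((frame_ae hy hn hx hE0).union (hΔ.union (Set.finite_iUnion fun s =>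
    Set.finite_iUnion (hI s)))).subset ?_
  rintro P ⟨hP, hne⟩
  by_contra hcon2
  rw [Set.mem_union, Set.mem_union] at hcon2
  push Not at hcon2
  have h1 : FrameAt P E0 := by
    by_contra h
    exact hcon2.1 ⟨hP, h⟩
  have h2 : Δ P = 0 := by
    by_contra h
    exact hcon2.2.1 ⟨hP, h⟩
  apply hne
  refine (he P hP).2 h1 h2 fun s hs I h3 => ?_
  by_contra h4
  exact hcon2.2.2 (Set.mem_iUnion.2 ⟨⟨s, Nat.lt_succ_iff.2 hs⟩, Set.mem_iUnion.2
    ⟨I, hP, h3, h4⟩⟩)

/-- a basis which is adapted to the distribution of the Iitaka fibration -/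
theorem iit_basis (hy : NormalModel y) (hn : Algebra.trdeg ℂ K = n) (Δ : Place ℂ K → ℚ) :
    ∃ (r q : ℕ) (b : Fin (r + q) → Derivation ℂ K K) (h : Fin q → K), r + q = n ∧
      LinearIndependent K b ∧
      Submodule.span K (Set.range fun i : Fin r => b (Fin.castAdd q i)) = iitDist y n Δ ∧
      (∀ j, h j ∈ Ratio y n Δ) ∧ (∀ k j, b (Fin.castAdd q k) (h j) = 0) ∧
      (Matrix.of fun k j => b (Fin.natAdd r k) (h j)).det ≠ 0 := by
  classical
  have hess := hy.ess
  obtain ⟨x, E0, hx, hE0⟩ := exists_crd hn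
  have hfr : IsFrame E0 := frame_of_dual hx hE0
  have hli : LinearIndependent K E0 := li_of_dual hE0
  have hsp := span_of_frame hfr
  have hfin0 : Module.Finite K (Derivation ℂ K K) :=
    ⟨⟨Finset.univ.image E0, by rw [Finset.coe_image, Finset.coe_univ, Set.image_univ, hsp]⟩⟩
  have hrank : Module.finrank K (Derivation ℂ K K) = n := by
    have h1 := card_of_span hli hsp
    rwa [finrank_top] at h1
  -- the maximal number of independent ratios
  obtain ⟨p, hp⟩ : ∃ p : ℕ → Prop, p = fun q => ∃ (h : Fin q → K) (D : Fin q → Derivation ℂ K K),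
    (∀ j, h j ∈ Ratio y n Δ) ∧ (Matrix.of fun k j => D k (h j)).det ≠ 0 := ⟨_, rfl⟩
  have hindep : ∀ {q : ℕ} {h : Fin q → K} {D : Fin q → Derivation ℂ K K} {c : Fin q → K},
      (Matrix.of fun k j => D k (h j)).det ≠ 0 → (∀ j, (∑ k, c k • D k) (h j) = 0) → c = 0 := by
    intro q h D c hdet hc
    by_contra hne
    apply hdet
    apply Matrix.exists_vecMul_eq_zero_iff.1
    refine ⟨c, hne, ?_⟩
    funext j
    rw [Matrix.vecMul, dotProduct, Pi.zero_apply, ← hc j, sum_smul_apply]
    rfl
  have hp0 : p 0 := by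
    rw [hp]
    refine ⟨Fin.elim0, Fin.elim0, fun j => j.elim0, ?_⟩
    rw [Matrix.det_isEmpty]
    exact one_ne_zero
  have hple : ∀ q, p q → q ≤ n := by
    intro q hq
    rw [hp] at hq
    obtain ⟨h, D, -, hdet⟩ := hq
    have hD : LinearIndependent K D := by
      rw [Fintype.linearIndependent_iff]
      intro c hc i
      have h1 := hindep hdet (c := c) (fun j => by rw [hc]; rfl)
      rw [h1]
      rfl
    have h1 := hD.fintype_card_le_finrank
    rw [Fintype.card_fin, hrank] at h1
    exact h1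
  obtain ⟨q, hqd⟩ : ∃ q, q = Nat.findGreatest p n := ⟨_, rfl⟩
  have hq : p q := by
    rw [hqd]
    exact Nat.findGreatest_spec (Nat.zero_le n) hp0
  have hq1 : ¬ p (q + 1) := by
    intro h
    have h1 := Nat.le_findGreatest (hple _ h) h
    omega
  rw [hp] at hq hq1
  obtain ⟨h, D, hR, hdet⟩ := hq
  -- the distribution
  have hmem : ∀ G : Derivation ℂ K K, (∀ j, G (h j) = 0) → G ∈ iitDist y n Δ := by
    intro G hG f hf
    by_contra hne
    apply hq1
    refine ⟨Fin.cons f h, Fin.cons G D, fun j => ?_, ?_⟩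
    · refine Fin.cases ?_ (fun j => ?_) j
      · exact hf
      · exact hR j
    · rw [Matrix.det_succ_row_zero, Finset.sum_eq_single 0]
      · have h1 : ((Matrix.of fun k j => (Fin.cons G D : Fin (q + 1) → Derivation ℂ K K) k
            ((Fin.cons f h : Fin (q + 1) → K) j)).submatrix Fin.succ
              (Fin.succAbove (0 : Fin (q + 1)))).det = (Matrix.of fun k j => D k (h j)).det := by
          congr 1
        rw [h1]
        refine mul_ne_zero (mul_ne_zero (by simp) ?_) hdet
        exact hne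
      · intro j _ hj
        obtain ⟨j', rfl⟩ := Fin.exists_succ_eq.2 hj
        have h1 : (Matrix.of fun k j => (Fin.cons G D : Fin (q + 1) → Derivation ℂ K K) k
            ((Fin.cons f h : Fin (q + 1) → K) j)) 0 j'.succ = 0 := hG j'
        rw [h1, mul_zero, zero_mul]
      · intro h0
        exact absurd (Finset.mem_univ _) h0
  obtain ⟨D', hD'li, hD's⟩ := exists_bas hy hn (iitDist y n Δ)
  have hD'h : ∀ k j, D' k (h j) = 0 := by
    intro k j
    have h1 : D' k ∈ iitDist y n Δ := by
      rw [← hD's]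
      exact Submodule.subset_span ⟨k, rfl⟩
    exact h1 _ (hR j)
  have hbli : LinearIndependent K (Fin.append D' D) := by
    rw [Fintype.linearIndependent_iff]
    intro c hc
    rw [Fin.sum_univ_add] at hc
    simp only [Fin.append_left, Fin.append_right] at hc
    have h1 : (fun k => c (Fin.natAdd _ k)) = 0 := by
      refine hindep hdet fun j => ?_
      have h2 := congrArg (fun G : Derivation ℂ K K => G (h j)) hc
      have h3 : (∑ i, c (Fin.castAdd q i) • D' i) (h j) +
          (∑ i, c (Fin.natAdd _ i) • D i) (h j) = 0 := h2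
      rw [sum_smul_apply, Finset.sum_eq_zero (fun i _ => by rw [hD'h, mul_zero]), zero_add] at h3
      exact h3
    have h2 : ∀ k, c (Fin.natAdd _ k) = 0 := fun k => congrFun h1 k
    simp only [h2, zero_smul, Finset.sum_const_zero, add_zero] at hc
    have h3 := Fintype.linearIndependent_iff.1 hD'li _ hc
    intro i
    exact Fin.addCases h3 h2 i
  have hcard : Module.finrank K (iitDist y n Δ) + q = n := by
    apply le_antisymm
    · have h1 := hbli.fintype_card_le_finrank
      rw [Fintype.card_fin, hrank] at h1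
      exact h1
    · let ev : Derivation ℂ K K →ₗ[K] (Fin q → K) :=
        { toFun := fun G j => G (h j)
          map_add' := fun G G' => rfl
          map_smul' := fun c G => rfl }
      have h1 := ev.finrank_range_add_finrank_ker
      have h2 : LinearMap.ker ev ≤ iitDist y n Δ := by
        intro G hG
        exact hmem G fun j => congrFun (LinearMap.mem_ker.1 hG) j
      have h3 := Submodule.finrank_mono h2
      have h4 := Submodule.finrank_le (LinearMap.range ev)
      rw [Module.finrank_fin_fun] at h4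
      rw [hrank] at h1
      omega
  refine ⟨_, q, Fin.append D' D, h, hcard, hbli, ?_, hR, fun k j => ?_, ?_⟩
  · simp only [Fin.append_left]
    exact hD's
  · rw [Fin.append_left]
    exact hD'h k j
  · simp only [Fin.append_right]
    exact hdet

/-- the place is trivial on the ratios if the degree is not positive -/
theorem iit_bot (hy : NormalModel y) (hn : Algebra.trdeg ℂ K = n) {Δ : Place ℂ K → ℚ}
    {α : Place ℂ K → ℝ} (hα : MovableClass y α) {c : ℝ} (hc : LogDegree y n Δ α c) (hc0 : c ≤ 0)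
    {P : Place ℂ K} (hP : IsPrimeDivisor y P) (hαP : 0 < α P) {f0 : K}
    (hf0 : f0 ∈ Ratio y n Δ) : iitDist y n Δ ≠ ⊥ := by
  classical
  intro hbot
  have halg : Algebra.IsAlgebraic (IntermediateField.adjoin ℂ (Ratio y n Δ)) K := by
    by_contra hcon
    obtain ⟨D, hD0, hD⟩ := exists_der_over (k := ℂ) (Ratio y n Δ) hcon
    have h1 : D ∈ iitDist y n Δ := hD
    rw [hbot, Submodule.mem_bot] at h1
    exact hD0 h1
  obtain ⟨f, hf1, hf2⟩ := P.surj
  obtain ⟨m, hm, s, h1, h2, h3⟩ := exists_vanishing hn hf0 hP (halg.isAlgebraic f)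
    (by rw [hf2]; exact one_ne_zero)
  obtain ⟨B, hB⟩ : ∃ B : Place ℂ K → ℚ, B = fun Q => m * Δ Q - if Q = P then 1 else 0 := ⟨_, rfl⟩
  have hsec : IsSection y n m B s := by
    refine ⟨h1.1, fun Q hQ => ?_⟩
    rw [hB]
    by_cases hQP : Q = P
    · subst hQP
      simp only [if_true]
      have h4 : -((m : ℚ) * Δ Q - 1) = -(m * Δ Q) + 1 := by ring
      rw [h4]
      exact h3
    · simp only [if_neg hQP, sub_zero]
      have h4 := h1.2 Q hQ
      rw [smul_ap] at h4
      exact h4
  have hdeg : HasDeg y α (fun Q => (B Q : ℝ) - m * Δ Q) (-α P) := by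
    refine ⟨{P}, fun Q hQ => ?_, fun Q _ hQ => ?_, ?_⟩
    · rw [Finset.mem_singleton.1 hQ]
      exact hP
    · rw [hB]
      simp only
      rw [if_neg (fun h => hQ (Finset.mem_singleton.2 h))]
      push_cast
      ring
    · rw [Finset.sum_singleton, hB]
      simp only [if_true]
      push_cast
      ring
  have h4 := sec_deg hy hn hα hc hsec h2 hdeg
  have h5 : (m : ℝ) * c ≤ 0 := mul_nonpos_of_nonneg_of_nonpos (Nat.cast_nonneg m) hc0
  linarith

end

end Pool.Agent.H897
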