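import Pool.Agent.H897.GA

/-!
The degree of the distribution of the Iitaka fibration; equivariantly stable tangent sheaves.
-/

set_option autoImplicit false
set_option linter.overlappingInstances false
set_option linter.unusedSectionVars false

open MvPolynomial FF Pool.Agent.W602.GT Pool.Agent.Y172 Pool.Agent.NH31 Pool.Agent.W603.LV
open Pool.Agent.N133.TB Pool.Agent.Y174 Pool.Agent.TH466.QG Pool.Agent.W619.PQ
open Pool.Agent.N133.OB Pool.Agent.Y191

namespace Pool.Agent.H897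

section

variable {K : Type} [Field K] [Algebra ℂ K] {N n : ℕ} {y : Fin (N + 1) → K}

theorem logdeg_w {x : Fin n → K} {E0 : Fin n → Derivation ℂ K K} (hfr : IsFrame E0)
    {w : Place ℂ K → ℚ}
    (hw : ∀ P : Place ℂ K, IsPrimeDivisor y P → ∀ (m : ℕ)
      (ω : (Fin n → Derivation ℂ K K) → K) (c : ℚ), IsPluri m ω →
      (OrdGe P ω c ↔ ω E0 = 0 ∨ c - m * w P ≤ (P.ord (ω E0) : ℚ)))
    {Δ : Place ℂ K → ℚ} {α : Place ℂ K → ℝ} (hα : MovableClass y α) {c : ℝ}
    (hc : LogDegree y n Δ α c) : HasDeg y α (fun P => (w P : ℝ) + Δ P) c := by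
  obtain ⟨ω1, w', hω1, hω10, hωw, hωd⟩ := hc
  have hωE : ω1 E0 ≠ 0 := fun h => hω10 (pluri_zero hfr hω1 h)
  have hw' : ∀ P, IsPrimeDivisor y P → (w' P : ℝ) = w P + P.ord (ω1 E0) := by
    intro P hP
    obtain ⟨h1, F, h2, h3, h4⟩ := hωw P hP
    have h5 := ((hw P hP 1 ω1 (w' P) hω1).1 h1).resolve_left hωE
    have h6 : OrdGe P ω1 (w P + P.ord (ω1 E0)) := (hw P hP 1 ω1 _ hω1).2 (Or.inr (by
      push_cast
      linarith))
    have h7 := (h6 F h2).resolve_left h3
    rw [h4] at h7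
    have h8 : (w' P : ℚ) = w P + P.ord (ω1 E0) := by
      push_cast at h5
      linarith
    exact_mod_cast h8
  have h1 := hωd.add ((hα.prin _ hωE).smul (-1))
  rw [mul_zero, add_zero] at h1
  refine h1.congr fun P hP => ?_
  rw [hw' P hP]
  ring

/-- **The degree of the distribution of the Iitaka fibration.** -/
theorem iit_deg (hy : NormalModel y) (hn : Algebra.trdeg ℂ K = n) {Δ : Place ℂ K → ℚ}
    (hΔ : Boundary y Δ) {α : Place ℂ K → ℝ} (hα : MovableClass y α) {c : ℝ}
    (hc : LogDegree y n Δ α c) {f0 : K} (hf0 : f0 ∈ Ratio y n Δ) :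
    ∃ (t : ℕ) (s : ℝ), SubDeg y n Δ α (iitDist y n Δ) s ∧ -((1 + t) * c) ≤ s := by
  classical
  obtain ⟨r, q, b, h, hrq, hb, hbs, hR, hb0, hdet⟩ := iit_basis hy hn Δ
  subst hrq
  have hess := hy.ess
  obtain ⟨x, E0, hx, hE0⟩ := exists_crd hn
  obtain ⟨w, hwf, hw⟩ := exists_canon hy hn hx hE0
  have hfr : IsFrame E0 := frame_of_dual hx hE0
  obtain ⟨C0, hC0⟩ := exists_coords hfr b
  have hC0d : C0.det ≠ 0 := by
    have h1 := rows_li hb hC0
    have h2 : IsUnit C0 := Matrix.linearIndependent_rows_iff_isUnit.1 h1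
    exact ((Matrix.isUnit_iff_isUnit_det C0).1 h2).ne_zero
  obtain ⟨m, hm, η, hη, hη0, hhη⟩ := ratio_common hn hf0 hR
  have hηE : η E0 ≠ 0 := fun h => hη0 (pluri_zero hfr hη.1 h)
  -- the tensors
  obtain ⟨T, hTd⟩ : ∃ T : Fin q → (Fin (r + q) → Derivation ℂ K K) →
      MultilinearMap K (fun _ : Fin 1 => Derivation ℂ K K) K,
      T = fun j => jac (fun E => h j * η E) η := ⟨_, rfl⟩
  have hTval : ∀ j (D : Derivation ℂ K K), T j E0 (fun _ => D) = -(η E0 ^ 2) * D (h j) := by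
    intro j D
    rw [hTd]
    change jac (fun E => h j * η E) η E0 (fun _ => D) = _
    rw [jac_apply, Derivation.leibniz]
    simp only [smul_eq_mul]
    ring
  have hTtw : ∀ j, Twisted (2 * m : ℤ) (T j) := by
    intro j
    rw [hTd]
    exact jac_twisted (hhη j).1 hη.1
  have hTorb : ∀ j P, IsPrimeDivisor y P → OrbAtL (Δ P) 0 P (2 * m : ℤ) (T j) := by
    intro j P hP
    rw [hTd]
    refine jac_orb (hΔ.1 P hP).1 ?_ ?_
    · have h1 := (hhη j).2 P hP
      rw [smul_ap] at h1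
      exact h1
    · have h1 := hη.2 P hP
      rw [smul_ap] at h1
      exact h1
  obtain ⟨Θ, hΘ⟩ : ∃ Θ : Matrix (Fin q) (Fin q) K,
    Θ = Matrix.of fun k j => T j E0 (fun _ => b (Fin.natAdd r k)) := ⟨_, rfl⟩
  have hΘ0 : Θ.det ≠ 0 := by
    have h1 : Θ = -(η E0 ^ 2) • Matrix.of fun k j => b (Fin.natAdd r k) (h j) := by
      ext k j
      rw [hΘ, Matrix.of_apply, hTval, Matrix.smul_apply, Matrix.of_apply, smul_eq_mul]
    rw [h1, Matrix.det_smul]
    exact mul_ne_zero (pow_ne_zero _ (neg_ne_zero.2 (pow_ne_zero _ hηE))) hdet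
  -- the degree
  have hbr : LinearIndependent K fun i : Fin r => b (Fin.castAdd q i) :=
    hb.comp _ (Fin.castAdd_injective r q)
  obtain ⟨e, he, hef⟩ := wedge_fun hy hn hΔ.2 hbr
  obtain ⟨s, hs⟩ := hasDeg_of_fin α hef
  refine ⟨2 * m * q, s, ⟨r, _, e, hbr, hbs, he, hs⟩, ?_⟩
  have hwd := logdeg_w (x := x) hfr hw hα hc
  have h1 := ((hs.add (hα.prin _ hΘ0)).add ((hα.prin _ hC0d).smul (-1))).add
    (hwd.smul (1 + (2 * m * q : ℕ)))
  have h2 := h1.nonneg hα.nonneg fun P hP => by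
    obtain ⟨E, i0, M, C, U, nk, hAd, hEM, hM0, hMw, hbE, hC, hU1, hU2, hU3, hsum, -⟩ :=
      loc_data hy hn hx hE0 hw hC0d hC0 Δ hP
    -- the orthogonalised vectors
    have hvec : ∀ k, ∑ l, U k l • b l = ∑ j, (U * C) k j • E j := by
      intro k
      simp only [hbE, Finset.smul_sum, smul_smul]
      rw [Finset.sum_comm]
      refine Finset.sum_congr rfl fun j _ => ?_
      rw [← Finset.sum_smul, Matrix.mul_apply]
    have hTk : ∀ j k, GeR P (nk k - 2 * m * (Δ P + w P))
        (T j E0 (fun _ => ∑ l, U k l • b l)) := by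
      intro j k
      have h3 := geR_lin (P := P) (t := T j E0) (E := E) (nu := nuf (Δ P) i0) (nk := nk)
        (fun I => orb_coef (hTtw j) (hTorb j P hP) hAd hEM hM0 hMw I) hU3 (fun _ => k)
      have h4 : (fun _ : Fin 1 => ∑ j, (U * C) k j • E j) = fun _ => ∑ l, U k l • b l := by
        funext _
        exact (hvec k).symm
      rw [h4] at h3
      refine h3.mono (le_of_eq ?_)
      rw [Fin.sum_univ_one]
      push_cast
      ring
    obtain ⟨U', hU'⟩ : ∃ U' : Matrix (Fin q) (Fin q) K,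
      U' = Matrix.of fun k l => U (Fin.natAdd r k) (Fin.natAdd r l) := ⟨_, rfl⟩
    have hU'det : U'.det = 1 := by
      rw [hU']
      exact det_block hU1 hU2 (f := Fin.natAdd r) (Fin.natAdd_injective q r)
    have hΘ' : (Matrix.of fun k j => T j E0 (fun _ => ∑ l, U (Fin.natAdd r k) l • b l)) =
        U' * Θ := by
      ext k j
      rw [Matrix.of_apply, Matrix.mul_apply, hTval, Fin.sum_univ_add]
      have h3 : (∑ i, U (Fin.natAdd r k) (Fin.castAdd q i) • b (Fin.castAdd q i) +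
          ∑ i, U (Fin.natAdd r k) (Fin.natAdd r i) • b (Fin.natAdd r i)) (h j) =
          ∑ i, U (Fin.natAdd r k) (Fin.natAdd r i) * b (Fin.natAdd r i) (h j) := by
        rw [Derivation.add_apply, sum_smul_apply, sum_smul_apply,
          Finset.sum_eq_zero (fun i _ => by rw [hb0, mul_zero]), zero_add]
      rw [h3, Finset.mul_sum]
      refine Finset.sum_congr rfl fun i _ => ?_
      rw [hU', hΘ, Matrix.of_apply, Matrix.of_apply, hTval]
      ring
    have h3 := geR_det (P := P)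
      (A := Matrix.of fun k j => T j E0 (fun _ => ∑ l, U (Fin.natAdd r k) l • b l))
      (a := fun k => nk (Fin.natAdd r k)) (b := fun _ => 2 * m * (Δ P + w P : ℝ))
      (fun k j => hTk j (Fin.natAdd r k))
    rw [hΘ', Matrix.det_mul, hU'det, one_mul] at h3
    have h4 := h3.resolve_left hΘ0
    -- the order of the exterior product
    have hr : r ≤ r + q := Nat.le_add_right _ _
    obtain ⟨I0, hI0⟩ := exists_minor hC hr
    obtain ⟨e', h5, I, h6, h7⟩ := exists_minOrd P (nuf (Δ P) i0)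
      (C.submatrix (Fin.castLE hr) id) ⟨I0, hI0⟩
    have hwo : WedgeOrd (r + q) (Δ P) P (fun k : Fin r => b (Fin.castAdd q k)) e' := by
      refine ⟨E, i0, C.submatrix (Fin.castLE hr) id, hAd, fun k => hbE _, fun J => ?_, I, h6, ?_⟩
      · have h8 := h5 J
        rw [sum_nuf, ← sub_eq_add_neg] at h8
        exact h8
      · rw [h7, sum_nuf, ← sub_eq_add_neg]
    have h8 : e P = e' := wedge_unique hy hn hP (hΔ.1 P hP).1 (hΔ.1 P hP).2 (he P hP) hwo
    have h9 : ∑ k : Fin r, nk (Fin.castLE hr k) ≤ e' := by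
      rw [h7]
      exact qr_minor hU1 hU2 hU3 hr h6
    have h10 : ∑ k : Fin r, nk (Fin.castAdd q k) + ∑ k : Fin q, nk (Fin.natAdd r k) =
        P.ord C0.det - w P - Δ P := by
      rw [← Fin.sum_univ_add]
      exact hsum
    have h11 : ∑ k : Fin r, nk (Fin.castLE hr k) = ∑ k : Fin r, nk (Fin.castAdd q k) := rfl
    rw [h11] at h9
    rw [Finset.sum_const, Finset.card_univ, Fintype.card_fin, nsmul_eq_mul] at h4
    rw [h8]
    push_cast
    nlinarith
  rw [mul_zero, add_zero, add_zero] at h2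
  linarith

end

end Pool.Agent.H897
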