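import Pool.Agent.H897.GB

/-!
Pairs whose orbifold tangent sheaf is equivariantly stable.
-/

set_option autoImplicit false
set_option linter.overlappingInstances false
set_option linter.unusedSectionVars false

open MvPolynomial FF Pool.Agent.W602.GT Pool.Agent.Y172 Pool.Agent.NH31 Pool.Agent.W603.LV
open Pool.Agent.N133.TB Pool.Agent.Y174 Pool.Agent.TH466.QG Pool.Agent.W619.PQ
open Pool.Agent.N133.OB Pool.Agent.Y191

namespace Pool.Agent.H897

section

variable {K : Type} [Field K] [Algebra ℂ K] {N n m : ℕ} {y : Fin (N + 1) → K}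

/-- The distribution `F` is invariant under all birational automorphisms `φ` of `X` which preserve
the sections of the multiples of `K_X + Δ` and the set `S` of tensors. -/
def InvDist (y : Fin (N + 1) → K) (n : ℕ) (Δ : Place ℂ K → ℚ)
    (S : Set ((Fin n → Derivation ℂ K K) →
      MultilinearMap K (fun _ : Fin m => Derivation ℂ K K) K))
    (F : Submodule K (Derivation ℂ K K)) : Prop :=
  ∀ φ : K ≃ₐ[ℂ] K, PresPluri y n Δ φ → (∀ T ∈ S, pullTw φ T ∈ S) → ∀ D ∈ F, pushD φ D ∈ F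

/-- **Equivariant stability** of the orbifold tangent sheaf with respect to `α`, if the degree of
`K_X + Δ` is `c`: only invariant distributions are tested. -/
def EquivStable (y : Fin (N + 1) → K) (n : ℕ) (Δ : Place ℂ K → ℚ) (α : Place ℂ K → ℝ) (c : ℝ)
    (S : Set ((Fin n → Derivation ℂ K K) →
      MultilinearMap K (fun _ : Fin m => Derivation ℂ K K) K)) : Prop :=
  ∀ (F : Submodule K (Derivation ℂ K K)) (s : ℝ), F ≠ ⊥ → F ≠ ⊤ → InvDist y n Δ S F →
    SubDeg y n Δ α F s → n * s < -(Module.finrank K F * c)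

/-- the ratios are constant -/
theorem equiv_ratio (hy : NormalModel y) (hn : Algebra.trdeg ℂ K = n)
    {Δ : Place ℂ K → ℚ} (hΔ : Boundary y Δ) {α : Place ℂ K → ℝ} (hα : MovableClass y α)
    (hα0 : ∃ P, IsPrimeDivisor y P ∧ 0 < α P) {c : ℝ} (hc : LogDegree y n Δ α c) (hc0 : c ≤ 0)
    {S : Set ((Fin n → Derivation ℂ K K) →
      MultilinearMap K (fun _ : Fin m => Derivation ℂ K K) K)}
    (hst : EquivStable y n Δ α c S) {f : K} (hf : f ∈ Ratio y n Δ) :
    ∃ z : ℂ, f = algebraMap ℂ K z := by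
  classical
  by_contra hcon
  have hess := hy.ess
  obtain ⟨x, E0, hx, hE0⟩ := exists_crd hn
  have hli : LinearIndependent K E0 := li_of_dual hE0
  have hsp := span_of_frame (frame_of_dual hx hE0)
  have htop : iitDist y n Δ ≠ ⊤ := by
    intro h0
    apply hcon
    refine const_of_all_der fun D => ?_
    have h1 : D ∈ iitDist y n Δ := by
      rw [h0]
      exact Submodule.mem_top
    exact h1 f hf
  obtain ⟨P, hP, hαP⟩ := hα0
  have hbot := iit_bot hy hn hα hc hc0 hP hαP hf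
  obtain ⟨t, s, hs, hts⟩ := iit_deg hy hn hΔ hα hc hf
  have h1 := hst _ s hbot htop (fun φ hφ _ D hD => iitDist_inv hφ hD) hs
  have hfin0 : Module.Finite K (Derivation ℂ K K) :=
    ⟨⟨Finset.univ.image E0, by rw [Finset.coe_image, Finset.coe_univ, Set.image_univ, hsp]⟩⟩
  have hrank : Module.finrank K (Derivation ℂ K K) = n := by
    have h1 := card_of_span hli hsp
    rwa [finrank_top] at h1
  have h2 : Module.finrank K (iitDist y n Δ) ≤ n := by
    rw [← hrank]
    exact Submodule.finrank_le _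
  have h2R : (Module.finrank K (iitDist y n Δ) : ℝ) ≤ n := by exact_mod_cast h2
  have hn0 : (0 : ℝ) ≤ n := Nat.cast_nonneg _
  have ht0 : (0 : ℝ) ≤ t := Nat.cast_nonneg _
  have h3 := mul_le_mul_of_nonneg_left hts hn0
  have h4 : (n : ℝ) * (-((1 + t) * c)) = n * (-c) + n * t * (-c) := by ring
  rw [h4] at h3
  have h5 : (Module.finrank K (iitDist y n Δ) : ℝ) * (-c) ≤ n * (-c) :=
    mul_le_mul_of_nonneg_right h2R (by linarith)
  have h6 : 0 ≤ (n : ℝ) * t * (-c) := mul_nonneg (mul_nonneg hn0 ht0) (by linarith)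
  linarith

/-- **The Kodaira dimension** is at most `0`. -/
theorem equiv_kod (hy : NormalModel y) (hn : Algebra.trdeg ℂ K = n)
    {Δ : Place ℂ K → ℚ} (hΔ : Boundary y Δ) {α : Place ℂ K → ℝ} (hα : MovableClass y α)
    (hα0 : ∃ P, IsPrimeDivisor y P ∧ 0 < α P) {c : ℝ} (hc : LogDegree y n Δ α c) (hc0 : c ≤ 0)
    {S : Set ((Fin n → Derivation ℂ K K) →
      MultilinearMap K (fun _ : Fin m => Derivation ℂ K K) K)}
    (hst : EquivStable y n Δ α c S) :
    kodairaDim y n Δ ≤ 0 ∧ ∀ (k : ℕ) (ω : (Fin n → Derivation ℂ K K) → K), 1 ≤ k → ω ≠ 0 →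
      IsSection y n k (k • Δ) ω → kodairaDim y n Δ = 0 := by
  classical
  have hess := hy.ess
  obtain ⟨x, E0, hx, hE0⟩ := exists_crd hn
  have hfr : IsFrame E0 := frame_of_dual hx hE0
  have hΔe : Effective y Δ := ⟨fun P hP => (hΔ.1 P hP).1, hΔ.2⟩
  by_cases hex : ∃ (k : ℕ) (ω : (Fin n → Derivation ℂ K K) → K), 1 ≤ k ∧ ω ≠ 0 ∧
      IsSection y n k (k • Δ) ω
  · obtain ⟨k, η1, hk, hη10, hη1⟩ := hex
    refine kod_le hΔe hfr fun d ω η hω hη hη0 => ?_
    have hηE : η E0 ≠ 0 := fun h => hη0 (pluri_zero hfr hη.1 h)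
    have hratio : ω E0 / η E0 ∈ Ratio y n Δ := by
      refine ⟨d + k, by omega, fun E => η E * η1 E, sec_mul hη hη1,
        mul_ne_zero_form hn hη.1 hη1.1 hη0 hη10, ?_⟩
      have h1 := sec_mul hω hη1
      have h2 : (fun E => ω E0 / η E0 * (η E * η1 E)) = fun E => ω E * η1 E := by
        have h3 : ω = fun E => ω E0 / η E0 * η E := by
          have hpl : IsPluri d (fun E => ω E - ω E0 / η E0 * η E) := by
            intro A D
            change ω _ - ω E0 / η E0 * η _ = A.det ^ d * (ω D - ω E0 / η E0 * η D)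
            rw [hω.1 A D, hη.1 A D]
            ring
          have h4 := pluri_zero hfr hpl (by
            rw [div_mul_cancel₀ _ hηE, sub_self])
          funext E
          exact sub_eq_zero.1 (congrFun h4 E)
        funext E
        rw [← mul_assoc]
        congr 1
        exact (congrFun h3 E).symm
      rw [h2]
      exact h1
    obtain ⟨z, hz⟩ := equiv_ratio hy hn hΔ hα hα0 hc hc0 hst hratio
    refine ⟨z, ?_⟩
    have hpl : IsPluri d (ω - z • η) := by
      intro A D
      change ω _ - z • η _ = _ * (ω D - z • η D)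
      rw [hω.1 A D, hη.1 A D, mul_sub, mul_smul_comm]
    have h2 : (ω - z • η) E0 = 0 := by
      change ω E0 - z • η E0 = 0
      rw [Algebra.smul_def, ← hz, div_mul_cancel₀ _ hηE, sub_self]
    exact sub_eq_zero.1 (pluri_zero hfr hpl h2)
  · push Not at hex
    have h1 : kodairaDim y n Δ = ⊥ := by
      unfold kodairaDim
      rw [if_pos]
      intro m hm _
      refine h0_zero fun ω hω => ?_
      by_contra h0
      exact hex m ω hm h0 hω
    rw [h1]
    exact ⟨bot_le, fun k ω hk hω0 hω => absurd hω (hex k ω hk hω0)⟩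

/-- **Nonvanishing** for equivariantly stable tangent sheaves. -/
theorem equiv_sec (hy : NormalModel y) (hn : Algebra.trdeg ℂ K = n) (hn1 : 1 ≤ n)
    {Δ : Place ℂ K → ℚ} (hΔ : Boundary y Δ) {α : Place ℂ K → ℝ} (hα : MovableClass y α)
    {c : ℝ} (hc : LogDegree y n Δ α c) (hm : 1 ≤ m) {p : ℕ} {a : ℤ}
    (hp : (p : ℤ) = m + n * a) {L : Place ℂ K → ℚ} {lam : ℝ}
    (hL : HasDeg y α (fun P => L P) lam) (hdeg : n * lam ≤ -(p * c))
    {S : Set ((Fin n → Derivation ℂ K K) →
      MultilinearMap K (fun _ : Fin m => Derivation ℂ K K) K)}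
    (hst : EquivStable y n Δ α c S) (hT : ∀ T ∈ S, Twisted a T)
    (hTO : ∀ T ∈ S, ∀ P, IsPrimeDivisor y P → OrbAtL (Δ P) (L P) P a T)
    (hT0 : ∃ T ∈ S, ∃ E, IsFrame E ∧ T E ≠ 0) :
    ∃ (M : ℕ) (ω : (Fin n → Derivation ℂ K K) → K), 1 ≤ M ∧ ω ≠ 0 ∧
      IsSection y n (M * p) ((M * p) • Δ + (n * M) • L) ω := by
  classical
  have hess := hy.ess
  obtain ⟨T0, hT0S, E, hE, hTE⟩ := hT0
  obtain ⟨x, E0, hx, hE0⟩ := exists_crd hn
  have hli0 : LinearIndependent K E0 := li_of_dual hE0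
  have hsp0 := span_of_frame (frame_of_dual hx hE0)
  obtain ⟨M, A, b, e, ω, h1, h2, h3, h4, h5, h6, h7⟩ :=
    eff_flag hy hn hn1 hΔ.2 hm hp S hT hTO hE ⟨T0, hT0S, hTE⟩
  have hdeg2 : ∀ k, ∃ s : ℝ, 1 ≤ k → k < n → HasDeg y α (fun P => e k P) s := by
    intro k
    by_cases hk : 1 ≤ k ∧ k < n
    · have h8 : {P | IsPrimeDivisor y P ∧ (e k P : ℝ) ≠ 0}.Finite := by
        refine (h3 k hk.2 hk.1).1.subset ?_
        rintro P ⟨hP, h0⟩
        refine ⟨hP, fun h => h0 ?_⟩
        rw [h, Rat.cast_zero]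
      obtain ⟨s, hs⟩ := hasDeg_of_fin α h8
      exact ⟨s, fun _ _ => hs⟩
    · exact ⟨0, fun h1 h2 => absurd ⟨h1, h2⟩ hk⟩
  choose s hs using hdeg2
  have h8 := flag_num hy hn h4 h5 hα hc hL fun k hk hk' _ => hs k hk hk'
  have hlt : ∀ k, 1 ≤ k → k < n → A k ≠ 0 → n * s k + k * c < 0 := by
    intro k hk1 hkn hA
    have hli : LinearIndependent K fun i : Fin k => b (Fin.castLE hkn.le i) := li_castLE _ h2
    have hflag : Submodule.span K (Set.range fun i : Fin k => b (Fin.castLE hkn.le i)) =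
        flagSp K b k := by
      unfold flagSp
      congr 1
      ext v
      constructor
      · rintro ⟨i, rfl⟩
        exact ⟨_, i.2, rfl⟩
      · rintro ⟨j, hj, rfl⟩
        exact ⟨⟨j, hj⟩, rfl⟩
    have hfr : Module.finrank K (flagSp K b k) = k := card_of_span hli hflag
    have hb0 : flagSp K b k ≠ ⊥ := by
      intro h0
      have h10 : Module.finrank K (⊥ : Submodule K (Derivation ℂ K K)) = 0 := finrank_bot K _
      rw [h0, h10] at hfr
      exact (Nat.lt_of_lt_of_le Nat.zero_lt_one hk1).ne hfr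
    have ht0 : flagSp K b k ≠ ⊤ := by
      intro h0
      have h10 : Module.finrank K (flagSp K b k) = n := card_of_span hli0 (hsp0.trans h0.symm)
      exact hkn.ne (hfr.symm.trans h10)
    have h9 := hst (flagSp K b k) (s k) hb0 ht0 (fun φ _ hφ => h7 φ hφ k hk1 hkn hA)
      ⟨k, _, fun P => (e k P : ℝ), hli, hflag, (h3 k hkn hk1).2, hs k hk1 hkn⟩
    rw [hfr] at h9
    linarith
  have hA0 : ∀ k ∈ Finset.Ico 1 n, A k = 0 := by
    by_contra hcon
    push Not at hcon
    obtain ⟨k, hk, hAk⟩ := hcon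
    have hk' := Finset.mem_Ico.1 hk
    have h9 : ∀ j ∈ Finset.Ico 1 n, (0 : ℝ) ≤ -((A j : ℝ) * (n * s j + j * c)) := by
      intro j hj
      by_cases h0 : A j = 0
      · rw [h0, Nat.cast_zero, zero_mul, neg_zero]
      · have hj' := Finset.mem_Ico.1 hj
        have h11 := mul_nonneg (Nat.cast_nonneg (α := ℝ) (A j))
          (neg_nonneg.2 (hlt j hj'.1 hj'.2 h0).le)
        linarith
    have h11 := Finset.single_le_sum h9 hk
    rw [Finset.sum_neg_distrib] at h11
    have h12 : (0 : ℝ) < A k := by exact_mod_cast Nat.pos_of_ne_zero hAk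
    have h13 := mul_pos h12 (neg_pos.2 (hlt k hk'.1 hk'.2 hAk))
    have h10 : (M : ℝ) * (p * c + n * lam) ≤ 0 :=
      mul_nonpos_of_nonneg_of_nonpos (Nat.cast_nonneg _) (by linarith)
    linarith
  refine ⟨M, ω, h1, h4, ?_⟩
  have h9 : M * p + ∑ k ∈ Finset.Ico 1 n, k * A k = M * p := by
    rw [Finset.sum_eq_zero fun k hk => by rw [hA0 k hk, mul_zero], add_zero]
  have h10 : ∑ k ∈ Finset.Ico 1 n, (n * A k) • e k = 0 :=
    Finset.sum_eq_zero fun k hk => by rw [hA0 k hk, mul_zero, zero_smul]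
  rw [h9, h10, add_zero] at h5
  exact h5

end

end Pool.Agent.H897
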