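import Pool.Agent.H897.RI

/-!
The Kodaira dimension of pairs with stable tangent bundle.
-/

set_option autoImplicit false
set_option linter.overlappingInstances false
set_option linter.unusedSectionVars false

open MvPolynomial FF Pool.Agent.W602.GT Pool.Agent.Y172 Pool.Agent.NH31 Pool.Agent.W603.LV
open Pool.Agent.N133.TB Pool.Agent.Y174 Filter

namespace Pool.Agent.H897

section

variable {K : Type} [Field K] [Algebra ℂ K] {N n : ℕ} {y : Fin (N + 1) → K}

/-- the tensor `ω d η - η d ω` -/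
noncomputable def jac (ω η : (Fin n → Derivation ℂ K K) → K) (E : Fin n → Derivation ℂ K K) :
    MultilinearMap K (fun _ : Fin 1 => Derivation ℂ K K) K :=
  MultilinearMap.ofSubsingleton K (Derivation ℂ K K) K (0 : Fin 1)
    { toFun := fun D => ω E * D (η E) - η E * D (ω E)
      map_add' := fun D D' => by
        rw [Derivation.add_apply, Derivation.add_apply]
        ring
      map_smul' := fun c D => by
        rw [Derivation.smul_apply, Derivation.smul_apply]
        simp only [smul_eq_mul, RingHom.id_apply]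
        ring }

theorem jac_apply (ω η : (Fin n → Derivation ℂ K K) → K) (E : Fin n → Derivation ℂ K K)
    (D : Fin 1 → Derivation ℂ K K) :
    jac ω η E D = ω E * D 0 (η E) - η E * D 0 (ω E) := rfl

theorem jac_twisted {ω η : (Fin n → Derivation ℂ K K) → K} {d : ℕ} (hω : IsPluri d ω)
    (hη : IsPluri d η) : Twisted (2 * d : ℤ) (jac ω η) := by
  intro A E hA
  ext D
  change jac ω η _ D = A.det ^ (2 * d : ℤ) * jac ω η E D
  rw [jac_apply, jac_apply, hω A E, hη A E]
  have h1 : A.det ^ (2 * d : ℤ) = A.det ^ d * A.det ^ d := by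
    have h2 : (2 * d : ℤ) = ((d + d : ℕ) : ℤ) := by
      push_cast
      ring
    rw [h2, zpow_natCast, pow_add]
  rw [h1, Derivation.leibniz, Derivation.leibniz]
  simp only [smul_eq_mul]
  ring

/-- the order of the tensor -/
theorem jac_orb {ω η : (Fin n → Derivation ℂ K K) → K} {d : ℕ} {P : Place ℂ K} {δ : ℚ}
    (hδ : 0 ≤ δ) (hω : OrdGe P ω (-(d * δ))) (hη : OrdGe P η (-(d * δ))) :
    OrbAtL δ 0 P (2 * d : ℤ) (jac ω η) := by
  intro E D S hE hD _
  by_cases h0 : jac ω η E D = 0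
  · exact Or.inl h0
  right
  rw [jac_apply] at h0 ⊢
  have h1 : ω E ≠ 0 := by
    intro h
    apply h0
    rw [h, map_zero, zero_mul, mul_zero, sub_zero]
  have h2 : η E ≠ 0 := by
    intro h
    apply h0
    rw [h, map_zero, zero_mul, mul_zero, sub_zero]
  have h3 := (hω E hE.1).resolve_left h1
  have h4 := (hη E hE.1).resolve_left h2
  have h5 : (0 : ℚ) ≤ δ * S.card := mul_nonneg hδ (Nat.cast_nonneg _)
  have key : ∀ f g : K, f ≠ 0 → g ≠ 0 → P.ord f ≤ P.ord g → -(d * δ) ≤ (P.ord f : ℚ) →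
      f * D 0 g - g * D 0 f ≠ 0 →
      -(δ * (S.card + ((2 * d : ℤ) : ℚ)) + 0) ≤ (P.ord (f * D 0 g - g * D 0 f) : ℚ) := by
    intro f g hf hg hle hfo hne
    have h6 : P.Reg (g / f) := by
      right
      rw [P.ord_div hg hf]
      omega
    have h7 : f * D 0 g - g * D 0 f = f ^ 2 * D 0 (g / f) := by
      have h8 : D 0 g = f * D 0 (g / f) + (g / f) * D 0 f := by
        conv_lhs => rw [← mul_div_cancel₀ g hf]
        rw [Derivation.leibniz]
        rfl
      rw [h8]
      field_simp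
      ring
    rw [h7] at hne ⊢
    have h8 := right_ne_zero_of_mul hne
    have h9 := (P.reg_iff h8).1 (hD 0 _ h6)
    rw [P.ord_mul (pow_ne_zero 2 hf) h8, P.ord_pow]
    have h10 : (0 : ℚ) ≤ P.ord (D 0 (g / f)) := by exact_mod_cast h9
    push_cast
    linarith
  rcases le_total (P.ord (ω E)) (P.ord (η E)) with hle | hle
  · exact key _ _ h1 h2 hle h3 h0
  · have h6 : ω E * D 0 (η E) - η E * D 0 (ω E) =
        -(η E * D 0 (ω E) - ω E * D 0 (η E)) := by ring
    have h7 : η E * D 0 (ω E) - ω E * D 0 (η E) ≠ 0 := by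
      intro h
      apply h0
      rw [h6, h, neg_zero]
    rw [h6, P.ord_neg]
    exact key _ _ h2 h1 hle h4 h7

/-- **Two sections are proportional.** -/
theorem two_sections (hy : NormalModel y) (hn : Algebra.trdeg ℂ K = n) (hn2 : 2 ≤ n)
    {Δ : Place ℂ K → ℚ} (hΔ : Effective y Δ) {α : Place ℂ K → ℝ} (hα : MovableClass y α) {c : ℝ}
    (hc : LogDegree y n Δ α c) (hc0 : c ≤ 0) (hst : StableTangent y n Δ α c) {d : ℕ}
    {ω η : (Fin n → Derivation ℂ K K) → K} (hω : IsSection y n d (d • Δ) ω)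
    (hη : IsSection y n d (d • Δ) η) (hη0 : η ≠ 0) : ∃ z : ℂ, ω = z • η := by
  classical
  have hess := hy.ess
  obtain ⟨x, E0, hx, hE0⟩ := exists_crd hn
  have hfr : IsFrame E0 := frame_of_dual hx hE0
  have hηE : η E0 ≠ 0 := fun h => hη0 (pluri_zero hfr hη.1 h)
  have hsm : ∀ P, -((d • Δ) P) = -(d * Δ P) := fun P => by rw [smul_ap]
  have h0 : jac ω η E0 = 0 := by
    by_contra h0
    obtain ⟨W, Q, hW, hQ, hQ0⟩ := stable_inv hy hn (by omega) hΔ.2 hα hc hst (m := 1) le_rfl
      (a := 2 * d) (ℓ := fun _ => 0) (lam := 0)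
      ⟨∅, fun P hP => absurd hP (Finset.notMem_empty P), fun P _ _ => by simp, by simp⟩ (by
        rw [mul_zero]
        have h1 : (0 : ℝ) ≤ ((1 : ℕ) : ℝ) + n * ((2 * d : ℤ) : ℝ) := by
          push_cast
          positivity
        nlinarith) (jac_twisted hω.1 hη.1) (fun P hP => jac_orb (hΔ.1 P hP)
          (by rw [← hsm P]; exact hω.2 P hP) (by rw [← hsm P]; exact hη.2 P hP)) hx hE0 h0
    exact hQ0 (lin_null hn2 hW hQ _)
  have h1 : ∀ D : Derivation ℂ K K, D (ω E0 / η E0) = 0 := by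
    intro D
    have h2 : jac ω η E0 (fun _ => D) = 0 := by rw [h0]; rfl
    rw [jac_apply] at h2
    have h3 : D (ω E0) = η E0 * D (ω E0 / η E0) + (ω E0 / η E0) * D (η E0) := by
      conv_lhs => rw [← mul_div_cancel₀ (ω E0) hηE]
      rw [Derivation.leibniz]
      rfl
    rw [h3] at h2
    have h4 : η E0 ^ 2 * D (ω E0 / η E0) = 0 := by
      have h5 : ω E0 * D (η E0) - η E0 * (η E0 * D (ω E0 / η E0) + ω E0 / η E0 * D (η E0)) =
          -(η E0 ^ 2 * D (ω E0 / η E0)) := by
        field_simp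
        ring
      rw [h5] at h2
      exact neg_eq_zero.1 h2
    exact (mul_eq_zero.1 h4).resolve_left (pow_ne_zero 2 hηE)
  obtain ⟨z, hz⟩ := const_of_all_der h1
  refine ⟨z, ?_⟩
  have hpl : IsPluri d (ω - z • η) := by
    intro A D
    change ω _ - z • η _ = _ * (ω D - z • η D)
    rw [hω.1 A D, hη.1 A D, mul_sub, mul_smul_comm]
  have h2 : (ω - z • η) E0 = 0 := by
    change ω E0 - z • η E0 = 0
    rw [Algebra.smul_def, ← hz, div_mul_cancel₀ _ hηE, sub_self]
  exact sub_eq_zero.1 (pluri_zero hfr hpl h2)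

/-- the dimension of the space of the sections -/
theorem h0_le_one {m : ℕ} {D : Place ℂ K → ℚ} {E : Fin n → Derivation ℂ K K} (hE : IsFrame E)
    (h : ∀ ω η, IsSection y n m D ω → IsSection y n m D η → η ≠ 0 → ∃ z : ℂ, ω = z • η) :
    Module.Finite ℂ (secSub y n m D) ∧ h0 y n m D ≤ 1 := by
  refine finite_h0 hE fun r f hf hs => ?_
  by_contra hcon
  push Not at hcon
  obtain ⟨i0, hi0⟩ : ∃ i0 : Fin r, i0 = ⟨0, by omega⟩ := ⟨_, rfl⟩
  obtain ⟨i1, hi1⟩ : ∃ i1 : Fin r, i1 = ⟨1, by omega⟩ := ⟨_, rfl⟩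
  have hne : i0 ≠ i1 := by
    rw [hi0, hi1]
    intro h
    have := congrArg Fin.val h
    simp at this
  obtain ⟨ω, hω, hω1⟩ := hs i0
  obtain ⟨η, hη, hη1⟩ := hs i1
  have hη0 : η ≠ 0 := by
    intro h0
    apply hf.ne_zero i1
    rw [← hη1, h0]
    rfl
  obtain ⟨z, hz⟩ := h ω η hω hη hη0
  have h1 : f i0 = z • f i1 := by
    rw [← hω1, ← hη1, hz]
    rfl
  have h2 := Fintype.linearIndependent_iff.1 hf (Pi.single i0 1 - z • Pi.single i1 1) (by
    simp only [Pi.sub_apply, Pi.smul_apply, sub_smul, Finset.sum_sub_distrib, smul_assoc,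
      ← Finset.smul_sum]
    rw [Finset.sum_eq_single i0, Finset.sum_eq_single i1]
    · rw [Pi.single_eq_same, Pi.single_eq_same, one_smul, one_smul, h1, sub_self]
    · intro j _ hj
      rw [Pi.single_eq_of_ne hj, zero_smul]
    · intro h
      exact absurd (Finset.mem_univ _) h
    · intro j _ hj
      rw [Pi.single_eq_of_ne hj, zero_smul]
    · intro h
      exact absurd (Finset.mem_univ _) h) i0
  rw [Pi.sub_apply, Pi.smul_apply, Pi.single_eq_same, Pi.single_eq_of_ne hne, smul_zero,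
    sub_zero] at h2
  exact one_ne_zero h2

/-- the Kodaira dimension, if the sections are proportional -/
theorem kod_le {Δ : Place ℂ K → ℚ} (hΔ : Effective y Δ) {E : Fin n → Derivation ℂ K K}
    (hE : IsFrame E)
    (h : ∀ (d : ℕ) (ω η : (Fin n → Derivation ℂ K K) → K), IsSection y n d (d • Δ) ω →
      IsSection y n d (d • Δ) η → η ≠ 0 → ∃ z : ℂ, ω = z • η) :
    kodairaDim y n Δ ≤ 0 ∧ ∀ (k : ℕ) (ω : (Fin n → Derivation ℂ K K) → K), 1 ≤ k → ω ≠ 0 →
      IsSection y n k (k • Δ) ω → kodairaDim y n Δ = 0 := by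
  classical
  have key : ∀ (k : ℕ) (ω : (Fin n → Derivation ℂ K K) → K), 1 ≤ k → ω ≠ 0 →
      IsSection y n k (k • Δ) ω → kodairaDim y n Δ = 0 := by
    intro k ω hk hω0 hω
    have hωE : ω E ≠ 0 := fun h => hω0 (pluri_zero hE hω.1 h)
    obtain ⟨D1, hD1, hint⟩ := exists_den hΔ.2
    obtain ⟨M, hM⟩ : ∃ M, M = k * D1 := ⟨_, rfl⟩
    have hM1 : 1 ≤ M := by
      rw [hM]
      exact Nat.mul_pos hk hD1
    have hIM : ∀ t : ℕ, Integral y ((t * M) • Δ) := by
      intro t P hP
      obtain ⟨z, hz⟩ := hint P hP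
      refine ⟨t * k * z, ?_⟩
      rw [smul_ap, hM]
      push_cast
      rw [← hz]
      ring
    have hlow : ∀ t, 1 ≤ t → t ^ 0 ≤ h0 y n (t * M) ((t * M) • Δ) := by
      intro t ht
      obtain ⟨hfin, -⟩ := h0_le_one hE (h (t * M))
      have h1 := section_pow hω (t * D1)
      have h2 : k * (t * D1) = t * M := by
        rw [hM]
        ring
      rw [h2] at h1
      have h3 := le_h0 (ι := Unit) hfin (v := fun _ D => ω D ^ (t * D1)) (by
        rw [linearIndependent_unique_iff]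
        intro h0
        have h4 := congrFun h0 E
        exact hωE (pow_eq_zero_iff (by
          have := Nat.mul_pos ht hD1
          omega) |>.1 h4)) (fun _ => h1)
      rw [pow_zero]
      exact h3
    unfold kodairaDim
    rw [if_neg]
    · have h5 := kappa_eq (I := {m : ℕ | 1 ≤ m ∧ Integral y (m • Δ)})
        (h := fun m => h0 y n m (m • Δ)) (C := 1) (k := 0) hM1
        (fun t ht => ⟨Nat.mul_pos ht hM1, hIM t⟩) hlow
        (fun m _ _ => by
          rw [pow_zero, mul_one]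
          exact (h0_le_one hE (h m)).2)
      rw [h5]
      rfl
    · intro hcon
      have h1 := hcon (1 * M) (by omega) (hIM 1)
      have h2 := hlow 1 le_rfl
      rw [h1] at h2
      simp at h2
  refine ⟨?_, key⟩
  by_cases hex : ∃ (k : ℕ) (ω : (Fin n → Derivation ℂ K K) → K), 1 ≤ k ∧ ω ≠ 0 ∧
      IsSection y n k (k • Δ) ω
  · obtain ⟨k, ω, h1, h2, h3⟩ := hex
    rw [key k ω h1 h2 h3]
  · push Not at hex
    have h1 : kodairaDim y n Δ = ⊥ := by
      unfold kodairaDim
      rw [if_pos]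
      intro m hm _
      refine h0_zero fun ω hω => ?_
      by_contra h0
      exact hex m ω hm h0 hω
    rw [h1]
    exact bot_le

/-- the orbifold condition without a twist -/
theorem orbL_of_orb {δ : ℚ} {P : Place ℂ K} {a : ℤ} {m : ℕ}
    {T : (Fin n → Derivation ℂ K K) → MultilinearMap K (fun _ : Fin m => Derivation ℂ K K) K}
    (h : OrbAt δ P a T) : OrbAtL δ 0 P a T := by
  intro E D S h1 h2 h3
  rw [add_zero]
  exact h E D S h1 h2 h3

/-- **The Kodaira dimension of pairs with stable tangent bundle.** -/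
theorem stable_kod (hy : NormalModel y) (hn : Algebra.trdeg ℂ K = n) (hn2 : 2 ≤ n)
    {Δ : Place ℂ K → ℚ} (hΔ : Effective y Δ) {α : Place ℂ K → ℝ} (hα : MovableClass y α) {c : ℝ}
    (hc : LogDegree y n Δ α c) (hc0 : c ≤ 0) (hst : StableTangent y n Δ α c) :
    kodairaDim y n Δ ≤ 0 ∧ ∀ (m : ℕ) (a : ℤ), 1 ≤ m → 1 ≤ m + n * a →
      ∀ T : (Fin n → Derivation ℂ K K) → MultilinearMap K (fun _ : Fin m => Derivation ℂ K K) K,
        Twisted a T → (∃ E, IsFrame E ∧ T E ≠ 0) →
          (∀ P, IsPrimeDivisor y P → OrbAt (Δ P) P a T) → kodairaDim y n Δ = 0 := by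
  classical
  have hess := hy.ess
  obtain ⟨x, E0, hx, hE0⟩ := exists_crd hn
  have hfr : IsFrame E0 := frame_of_dual hx hE0
  obtain ⟨h1, h2⟩ := kod_le hΔ hfr (fun d ω η hω hη hη0 =>
    two_sections hy hn hn2 hΔ hα hc hc0 hst hω hη hη0)
  refine ⟨h1, fun m a hm ha T hT hT0 hTO => ?_⟩
  obtain ⟨E, hE, hTE⟩ := hT0
  obtain ⟨p, hp⟩ := Int.eq_ofNat_of_zero_le (by omega : 0 ≤ (m : ℤ) + n * a)
  have hp1 : 1 ≤ p := by omega
  obtain ⟨k, ω, hk, hω0, hω⟩ := stable_sec hy hn (by omega) hΔ.2 hα hc hst hm (p := p) hp.symm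
    (ℓ := fun _ => 0) (lam := 0)
    ⟨∅, fun P hP => absurd hP (Finset.notMem_empty P), fun P _ _ => by simp, by simp⟩ (by
      rw [mul_zero]
      have h1 : (0 : ℝ) ≤ p := Nat.cast_nonneg p
      nlinarith) hT (fun P hP => orbL_of_orb (hTO P hP)) hE hTE
  refine h2 (k * p) ω (Nat.mul_pos hk hp1) hω0 ?_
  have h3 : (k * p) • Δ + (k * n) • (fun _ : Place ℂ K => (0 : ℚ)) = (k * p) • Δ := by
    funext P
    simp only [Pi.add_apply, smul_ap, mul_zero, add_zero]
  rw [h3] at hω
  exact hω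

end

end Pool.Agent.H897
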