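import Pool.Agent.H897.OM
import Pool.Agent.H897.RJ

/-!
Semistability from invariants, residue maps, and the common unstable locus of the tensors.
-/

set_option autoImplicit false
set_option linter.overlappingInstances false
set_option linter.unusedSectionVars false

open MvPolynomial FF Pool.Agent.W602.GT Pool.Agent.Y172 Pool.Agent.NH31 Pool.Agent.W603.LV
open Pool.Agent.N133.TB Pool.Agent.Y174

namespace Pool.Agent.H897

section

variable {ι : Type} {n : ℕ} {m : ι → ℕ}

theorem sum_cnt_int [Finite ι] (w : Fin n → ℤ) (x : Ix m n) :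
    ∑ s, w (x.2 s) = ∑ i, w i * Sec.cnt i x := by
  classical
  have h1 : ∀ s, w (x.2 s) = ∑ i, if x.2 s = i then w i else 0 := by
    intro s
    rw [Finset.sum_ite_eq]
    simp
  rw [Finset.sum_congr rfl fun s _ => h1 s, Finset.sum_comm]
  refine Finset.sum_congr rfl fun i _ => ?_
  rw [← Finset.sum_filter, Finset.sum_const, nsmul_eq_mul, mul_comm]
  rfl

/-- tensors with a nonvanishing twisted invariant are semistable -/
theorem ss_of_twinv [Finite ι] (hn1 : 1 ≤ n) {a : ι → ℤ} {d : ℕ} (hd : 1 ≤ d)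
    {Q : MvPolynomial (Ix m n) ℂ} (hQ : TwInv m n a d Q) {L : Type} [Field L] [Algebra ℂ L]
    {t : Fam m n L} (h0 : aeval (pt t) Q ≠ 0) : SemistableFam t := by
  classical
  have : Fintype ι := Fintype.ofFinite ι
  have : Fintype (Ix m n) := Fintype.ofFinite _
  intro A hA w hw
  by_contra hcon
  push Not at hcon
  have h1 : aeval (pt (twact a A t)) Q ≠ 0 := by
    rw [hQ L A t hA]
    exact mul_ne_zero (pow_ne_zero _ hA) h0
  apply h1
  rw [aeval_def, eval₂_eq']
  refine Finset.sum_eq_zero fun μ hμ => ?_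
  have hwt : ∀ i0 : Fin n, ∑ x, (μ x : ℤ) * (Sec.cnt i0 x + a x.1) = d := fun i0 =>
    hQ.weight i0 hμ
  have hx : ∃ x : Ix m n, μ x ≠ 0 ∧ ∑ s, w (x.2 s) ≤ 0 := by
    by_contra hc
    push Not at hc
    have h2 : ∑ x : Ix m n, (μ x : ℤ) * ∑ s, w (x.2 s) = 0 := by
      have h3 : ∀ x : Ix m n, (μ x : ℤ) * ∑ s, w (x.2 s) =
          ∑ i, w i * ((μ x : ℤ) * (Sec.cnt i x + a x.1)) := by
        intro x
        rw [sum_cnt_int]
        have h4 : ∑ i, w i * ((μ x : ℤ) * (Sec.cnt i x + a x.1)) =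
            μ x * ∑ i, w i * (Sec.cnt i x : ℤ) + μ x * a x.1 * ∑ i, w i := by
          rw [Finset.mul_sum, Finset.mul_sum, ← Finset.sum_add_distrib]
          exact Finset.sum_congr rfl fun i _ => by ring
        rw [h4, hw, mul_zero, add_zero]
      rw [Finset.sum_congr rfl fun x _ => h3 x, Finset.sum_comm]
      have h5 : ∀ i, ∑ x, w i * ((μ x : ℤ) * (Sec.cnt i x + a x.1)) = w i * d := by
        intro i
        rw [← Finset.mul_sum, hwt i]
      rw [Finset.sum_congr rfl fun i _ => h5 i, ← Finset.sum_mul, hw, zero_mul]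
    have h3 : ∀ x : Ix m n, 0 ≤ (μ x : ℤ) * ∑ s, w (x.2 s) := by
      intro x
      by_cases h : μ x = 0
      · rw [h]
        simp
      · exact mul_nonneg (Int.natCast_nonneg _) (hc x h).le
    have h4 : ∀ x : Ix m n, μ x = 0 := by
      intro x
      by_contra h
      have h5 := (Finset.sum_eq_zero_iff_of_nonneg fun x _ => h3 x).1 h2 x (Finset.mem_univ x)
      have h6 : 0 < (μ x : ℤ) * ∑ s, w (x.2 s) :=
        mul_pos (by exact_mod_cast Nat.pos_of_ne_zero h) (hc x h)
      omega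
    have h5 := hwt ⟨0, hn1⟩
    rw [Finset.sum_eq_zero (fun x _ => by rw [h4 x]; simp)] at h5
    omega
  obtain ⟨x, hx1, hx2⟩ := hx
  rw [Finset.prod_eq_zero (Finset.mem_univ x), mul_zero]
  have h2 : pt (twact a A t) x = 0 := by
    change A.det ^ a x.1 * act A t x.1 x.2 = 0
    rw [hcon x.1 x.2 hx2, mul_zero]
  rw [h2, zero_pow hx1]

end

section

variable {K : Type} [Field K] [Algebra ℂ K] {N n : ℕ} {y : Fin (N + 1) → K}

/-- residue maps exist -/
theorem exists_resMap (P : Place ℂ K) : ∃ (L : Type) (_ : Field L) (_ : Algebra ℂ L)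
    (_ : IsAlgClosed L) (ρ : K → L), ResMap P ρ := by
  classical
  obtain ⟨O, hO⟩ : ∃ O : ValuationSubring K, ∀ f, f ∈ O ↔ P.Reg f :=
    ⟨{ carrier := {f | P.Reg f}
       mul_mem' := fun ha hb => P.reg_mul ha hb
       one_mem' := P.reg_one
       add_mem' := fun ha hb => P.reg_add ha hb
       zero_mem' := P.reg_zero
       neg_mem' := fun ha => P.reg_neg ha
       mem_or_inv_mem' := fun f => by
        change P.Reg f ∨ P.Reg f⁻¹
        by_cases h0 : f = 0
        · left
          rw [h0]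
          exact P.reg_zero
        rcases le_total 0 (P.ord f) with h | h
        · exact Or.inl ((P.reg_iff h0).2 h)
        · right
          rw [P.reg_iff (inv_ne_zero h0), P.ord_inv]
          omega }, fun f => Iff.rfl⟩
  obtain ⟨c, hc⟩ : ∃ c : ℂ →+* O, ∀ z, (c z : K) = algebraMap ℂ K z :=
    ⟨(algebraMap ℂ K).codRestrict O.toSubring fun z => (hO _).2 (P.reg_const z), fun z => rfl⟩
  obtain ⟨r, hr⟩ : ∃ r : O →+* AlgebraicClosure (IsLocalRing.ResidueField O),
    r = (algebraMap (IsLocalRing.ResidueField O) (AlgebraicClosure _)).comp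
      (IsLocalRing.residue O) := ⟨_, rfl⟩
  obtain ⟨ρ, hρ⟩ : ∃ ρ : K → AlgebraicClosure (IsLocalRing.ResidueField O),
    ρ = fun f => if h : f ∈ O then r ⟨f, h⟩ else 0 := ⟨_, rfl⟩
  have hρr : ∀ f (h : f ∈ O), ρ f = r ⟨f, h⟩ := by
    intro f h
    rw [hρ]
    exact dif_pos h
  refine ⟨AlgebraicClosure (IsLocalRing.ResidueField O), inferInstance, (r.comp c).toAlgebra,
    inferInstance, ρ, ?_⟩
  let _ : Algebra ℂ (AlgebraicClosure (IsLocalRing.ResidueField O)) := (r.comp c).toAlgebra
  refine ⟨fun z => ?_, fun f g hf hg => ?_, fun f g hf hg => ?_, fun f hf => ?_⟩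
  · rw [hρr _ ((hO _).2 (P.reg_const z))]
    change r _ = r (c z)
    congr 1
    exact Subtype.ext (hc z).symm
  · rw [hρr _ ((hO _).2 (P.reg_add hf hg)), hρr _ ((hO _).2 hf), hρr _ ((hO _).2 hg), ← map_add]
    rfl
  · rw [hρr _ ((hO _).2 (P.reg_mul hf hg)), hρr _ ((hO _).2 hf), hρr _ ((hO _).2 hg), ← map_mul]
    rfl
  · rw [hρr _ ((hO _).2 hf), hr]
    change algebraMap (IsLocalRing.ResidueField O) _ (IsLocalRing.residue O ⟨f, (hO f).2 hf⟩) = 0 ↔ _
    rw [map_eq_zero_iff _ (algebraMap (IsLocalRing.ResidueField O) _).injective,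
      IsLocalRing.residue_eq_zero_iff, IsLocalRing.mem_maximalIdeal, mem_nonunits_iff]
    constructor
    · intro h
      by_contra hcon
      push Not at hcon
      apply h
      have h1 : f⁻¹ ∈ O := by
        rw [hO, P.reg_iff (inv_ne_zero hcon.1), P.ord_inv]
        have := hcon.2
        omega
      refine IsUnit.of_mul_eq_one (⟨f⁻¹, h1⟩ : O) ?_
      exact Subtype.ext (mul_inv_cancel₀ hcon.1)
    · intro h hu
      obtain ⟨g, hg⟩ := hu.exists_right_inv
      have h2 : f * (g : K) = 1 := congrArg Subtype.val hg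
      have hf0 : f ≠ 0 := left_ne_zero_of_mul_eq_one h2
      have hg0 : (g : K) ≠ 0 := right_ne_zero_of_mul_eq_one h2
      have h3 := congrArg P.ord h2
      rw [P.ord_mul hf0 hg0, P.ord_one] at h3
      have h4 := (P.reg_iff hg0).1 ((hO _).1 g.2)
      rcases h with h | h
      · exact hf0 h
      · omega

end

end Pool.Agent.H897
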