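import Pool.Agent.H897.QF

/-!
Degrees of sections, and products of sections with functions.
-/

set_option autoImplicit false
set_option linter.overlappingInstances false
set_option linter.unusedSectionVars false

open MvPolynomial FF Pool.Agent.W602.GT Pool.Agent.Y172 Pool.Agent.NH31 Pool.Agent.W603.LV
open Pool.Agent.N133.TB Pool.Agent.Y174 Pool.Agent.TH466.QG

namespace Pool.Agent.H897

section

variable {K : Type} [Field K] [Algebra ℂ K] {N n : ℕ} {y : Fin (N + 1) → K}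

theorem HasDeg.add {α e e' : Place ℂ K → ℝ} {s s' : ℝ} (h : HasDeg y α e s)
    (h' : HasDeg y α e' s') : HasDeg y α (fun P => e P + e' P) (s + s') := by
  classical
  have hf := h.fin.union h'.fin
  refine ⟨hf.toFinset, fun P hP => ?_, fun P hP hPS => ?_, ?_⟩
  · rcases (Set.Finite.mem_toFinset hf).1 hP with h1 | h1 <;> exact h1.1
  · rw [Set.Finite.mem_toFinset, Set.mem_union] at hPS
    push Not at hPS
    have h1 : e P = 0 := by
      by_contra h0
      exact hPS.1 ⟨hP, h0⟩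
    have h2 : e' P = 0 := by
      by_contra h0
      exact hPS.2 ⟨hP, h0⟩
    simp only [h1, h2, add_zero]
  · have hp : ∀ P ∈ hf.toFinset, IsPrimeDivisor y P := fun P hP => by
      rcases (Set.Finite.mem_toFinset hf).1 hP with h1 | h1 <;> exact h1.1
    rw [← h.sum_eq hp fun P hP h0 => (Set.Finite.mem_toFinset hf).2 (Or.inl ⟨hP, h0⟩),
      ← h'.sum_eq hp fun P hP h0 => (Set.Finite.mem_toFinset hf).2 (Or.inr ⟨hP, h0⟩),
      ← Finset.sum_add_distrib]
    exact Finset.sum_congr rfl fun P _ => by ring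

theorem HasDeg.smul {α e : Place ℂ K → ℝ} {s : ℝ} (c : ℝ) (h : HasDeg y α e s) :
    HasDeg y α (fun P => c * e P) (c * s) := by
  obtain ⟨S, h1, h2, h3⟩ := h
  refine ⟨S, h1, fun P hP hPS => by simp only [h2 P hP hPS, mul_zero], ?_⟩
  rw [← h3, Finset.mul_sum]
  exact Finset.sum_congr rfl fun P _ => by ring

theorem HasDeg.congr {α e e' : Place ℂ K → ℝ} {s : ℝ} (h : HasDeg y α e s)
    (he : ∀ P, IsPrimeDivisor y P → e P = e' P) : HasDeg y α e' s := by
  obtain ⟨S, h1, h2, h3⟩ := h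
  refine ⟨S, h1, fun P hP hPS => by rw [← he P hP, h2 P hP hPS], ?_⟩
  rw [← h3]
  exact Finset.sum_congr rfl fun P hP => by rw [he P (h1 P hP)]

theorem hasDeg_zero (α : Place ℂ K → ℝ) : HasDeg y α (fun _ => 0) 0 :=
  ⟨∅, fun P hP => absurd hP (Finset.notMem_empty P), fun _ _ _ => rfl, by simp⟩

theorem hasDeg_sum {α : Place ℂ K → ℝ} (S : Finset ℕ) {e : ℕ → Place ℂ K → ℝ} {s : ℕ → ℝ}
    (h : ∀ k ∈ S, HasDeg y α (e k) (s k)) :
    HasDeg y α (fun P => ∑ k ∈ S, e k P) (∑ k ∈ S, s k) := by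
  classical
  induction S using Finset.induction_on with
  | empty => simpa using hasDeg_zero α
  | insert k S hk ih =>
    simp only [Finset.sum_insert hk]
    exact (h k (Finset.mem_insert_self _ _)).add
      (ih fun j hj => h j (Finset.mem_insert_of_mem hj))

theorem HasDeg.nonneg {α e : Place ℂ K → ℝ} {s : ℝ} (h : HasDeg y α e s)
    (hα : ∀ P, IsPrimeDivisor y P → 0 ≤ α P) (he : ∀ P, IsPrimeDivisor y P → 0 ≤ e P) :
    0 ≤ s := by
  obtain ⟨S, h1, h2, h3⟩ := h
  rw [← h3]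
  exact Finset.sum_nonneg fun P hP => mul_nonneg (hα P (h1 P hP)) (he P (h1 P hP))

/-- the degree of a section is not negative -/
theorem sec_deg (hy : NormalModel y) (hn : Algebra.trdeg ℂ K = n) {Δ : Place ℂ K → ℚ}
    {α : Place ℂ K → ℝ} (hα : MovableClass y α) {c : ℝ} (hc : LogDegree y n Δ α c) {q : ℕ}
    {B : Place ℂ K → ℚ} {ω : (Fin n → Derivation ℂ K K) → K} (hω : IsSection y n q B ω)
    (hω0 : ω ≠ 0) {s : ℝ} (hs : HasDeg y α (fun P => B P - q * Δ P) s) : 0 ≤ q * c + s := by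
  classical
  have hess := hy.ess
  obtain ⟨x, E0, hx, hE0⟩ := exists_crd hn
  obtain ⟨w, hwf, hw⟩ := exists_canon hy hn hx hE0
  have hfr : IsFrame E0 := frame_of_dual hx hE0
  obtain ⟨ω1, w', hω1, hω10, hωw, hωd⟩ := hc
  have hωE : ω1 E0 ≠ 0 := fun h => hω10 (pluri_zero hfr hω1 h)
  have hωE' : ω E0 ≠ 0 := fun h => hω0 (pluri_zero hfr hω.1 h)
  have hw' : ∀ P, IsPrimeDivisor y P → (w' P : ℝ) = w P + P.ord (ω1 E0) := by
    intro P hP
    obtain ⟨h1, F, h2, h3, h4⟩ := hωw P hP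
    have h5 := ((hw P hP 1 ω1 (w' P) hω1).1 h1).resolve_left hωE
    have h6 : OrdGe P ω1 (w P + P.ord (ω1 E0)) := (hw P hP 1 ω1 _ hω1).2 (Or.inr (by
      push_cast
      linarith))
    have h7 := (h6 F h2).resolve_left h3
    rw [h4] at h7
    have h8 : (w' P : ℚ) = w P + P.ord (ω1 E0) := by
      push_cast at h5
      linarith
    exact_mod_cast h8
  have h1 : HasDeg y α (fun P => ((P.ord (ω E0) : ℝ) + (-(q : ℝ)) * (P.ord (ω1 E0) : ℝ)) +
      (q * (w' P + Δ P : ℝ) + (B P - q * Δ P : ℝ))) ((0 + (-(q : ℝ)) * 0) + (q * c + s)) :=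
    ((hα.prin _ hωE').add ((hα.prin _ hωE).smul _)).add ((hωd.smul _).add hs)
  have h2 := h1.nonneg hα.nonneg fun P hP => by
    rw [hw' P hP]
    have h3 := ((hw P hP q ω _ hω.1).1 (hω.2 P hP)).resolve_left hωE'
    have h4 : (-(B P) - q * w P : ℝ) ≤ P.ord (ω E0) := by exact_mod_cast h3
    linarith
  linarith

/-- powers of a section times a function -/
theorem sec_pow_mul (hn : Algebra.trdeg ℂ K = n) (hy : NormalModel y) {q r : ℕ}
    {B B' : Place ℂ K → ℚ} {ω : (Fin n → Derivation ℂ K K) → K} (hω : IsSection y n q B ω)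
    (hω0 : ω ≠ 0) {g : K} (hg : g ≠ 0)
    (h : ∀ P, IsPrimeDivisor y P → r * B P - P.ord g ≤ B' P) :
    IsSection y n (r * q) B' (fun E => g * ω E ^ r) ∧ (fun E => g * ω E ^ r) ≠ 0 := by
  have hess := hy.ess
  obtain ⟨x, E0, hx, hE0⟩ := exists_crd hn
  have hfr : IsFrame E0 := frame_of_dual hx hE0
  have hωE' : ω E0 ≠ 0 := fun h => hω0 (pluri_zero hfr hω.1 h)
  refine ⟨⟨fun A D => ?_, fun P hP E hE => ?_⟩, fun h0 => ?_⟩
  · change g * ω _ ^ r = A.det ^ (r * q) * (g * ω D ^ r)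
    rw [hω.1 A D, mul_pow, ← pow_mul, mul_comm r q]
    ring
  · by_cases h0 : ω E = 0
    · by_cases hr : r = 0
      · subst hr
        right
        have h1 := h P hP
        simp only [pow_zero, mul_one, Nat.cast_zero, zero_mul, zero_sub] at h1 ⊢
        linarith
      · left
        change g * ω E ^ r = 0
        rw [h0, zero_pow hr, mul_zero]
    · right
      change -B' P ≤ (P.ord (g * ω E ^ r) : ℚ)
      have h1 := (hω.2 P hP E hE).resolve_left h0
      rw [P.ord_mul hg (pow_ne_zero _ h0), P.ord_pow]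
      have h2 := h P hP
      have h3 := mul_le_mul_of_nonneg_left h1 (Nat.cast_nonneg (α := ℚ) r)
      push_cast
      linarith
  · have h1 := congrFun h0 E0
    exact mul_ne_zero hg (pow_ne_zero _ hωE') h1

end

end Pool.Agent.H897
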