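import Pool.Agent.H897.IA
import Pool.Agent.H897.QG

/-!
The canonical divisor of a stable pair, and the unstable locus of its tensors.
-/

set_option autoImplicit false
set_option linter.overlappingInstances false
set_option linter.unusedSectionVars false

open MvPolynomial FF Pool.Agent.W602.GT Pool.Agent.Y172 Pool.Agent.NH31 Pool.Agent.W603.LV
open Pool.Agent.N133.TB Pool.Agent.Y174

namespace Pool.Agent.H897

section

variable {K : Type} [Field K] [Algebra ℂ K] {N n : ℕ} {y : Fin (N + 1) → K}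

/-- the order of a pluricanonical form, in global coordinates -/
theorem ordEq_iff {x : Fin n → K} {E0 : Fin n → Derivation ℂ K K} (hx : IsTranscendenceBasis ℂ x)
    (hE0 : ∀ i j, E0 i (x j) = if i = j then 1 else 0) {P : Place ℂ K} {w : ℚ}
    (hw : ∀ (m : ℕ) (ω : (Fin n → Derivation ℂ K K) → K) (c : ℚ), IsPluri m ω →
      (OrdGe P ω c ↔ ω E0 = 0 ∨ c - m * w ≤ (P.ord (ω E0) : ℚ)))
    {x' : Fin n → K} {E' : Fin n → Derivation ℂ K K} {i0 : Fin n} (hL : Loc P x' E' i0) {k : ℕ}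
    {ω : (Fin n → Derivation ℂ K K) → K} (hω : IsPluri k ω) {c : ℚ} :
    OrdEq P ω c ↔ ω E0 ≠ 0 ∧ (P.ord (ω E0) : ℚ) = c - k * w := by
  classical
  obtain ⟨h4, h5⟩ := ord_canon hE0 hw hL
  have h6 : E' = fun i => ∑ j, (Matrix.of fun i j => E' i (x j)) i j • E0 j := by
    funext i
    exact (Pool.Agent.W73.PG.PULL.expand x hx E0 hE0 (E' i)).symm
  have h7 : ω E' = (Matrix.of fun i j => E' i (x j)).det ^ k * ω E0 := by
    conv_lhs => rw [h6]
    exact hω _ _
  constructor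
  · rintro ⟨h1, F, h2, h3, h8⟩
    have hωE : ω E0 ≠ 0 := by
      intro h
      apply h3
      have h9 := pluri_zero (frame_of_dual hx hE0) hω h
      rw [h9]
      rfl
    refine ⟨hωE, le_antisymm ?_ ?_⟩
    · have h9 : OrdGe P ω (k * w + P.ord (ω E0)) := (hw k ω _ hω).2 (Or.inr (by linarith))
      have h10 := (h9 F h2).resolve_left h3
      rw [h8] at h10
      linarith
    · exact ((hw k ω c hω).1 h1).resolve_left hωE
  · rintro ⟨h1, h2⟩
    refine ⟨(hw k ω c hω).2 (Or.inr h2.ge), E', hL.pres, ?_, ?_⟩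
    · rw [h7]
      exact mul_ne_zero (pow_ne_zero _ h4) h1
    · rw [h7, P.ord_mul (pow_ne_zero _ h4) h1, P.ord_pow]
      push_cast
      rw [h5, h2]
      ring

/-- the sections given by the twisted semi-invariants -/
theorem inv_sec (hy : NormalModel y) (hn : Algebra.trdeg ℂ K = n) {ι : Type} [Finite ι] {m : ι → ℕ}
    {a : ι → ℤ} {T : (i : ι) → (Fin n → Derivation ℂ K K) →
      MultilinearMap K (fun _ : Fin (m i) => Derivation ℂ K K) K}
    (hT : ∀ i, Twisted (a i) (T i)) {Δ : Place ℂ K → ℚ}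
    (hh : ∀ P, IsPrimeDivisor y P → ∀ i, OrbAt (Δ P) P (a i) (T i)) {x : Fin n → K}
    {E0 : Fin n → Derivation ℂ K K} (hx : IsTranscendenceBasis ℂ x)
    (hE0 : ∀ i j, E0 i (x j) = if i = j then 1 else 0) {w : Place ℂ K → ℚ}
    (hw : ∀ P : Place ℂ K, IsPrimeDivisor y P → ∀ (m : ℕ)
      (ω : (Fin n → Derivation ℂ K K) → K) (c : ℚ), IsPluri m ω →
      (OrdGe P ω c ↔ ω E0 = 0 ∨ c - m * w P ≤ (P.ord (ω E0) : ℚ)))
    {d : ℕ} {R : MvPolynomial (Ix m n) ℂ} (hR : TwInv m n a d R) :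
    IsSection y n d (d • Δ) (frm x d (val T R E0)) := by
  classical
  have hess := hy.ess
  have hpl := frm_pluri x d (val T R E0)
  refine ⟨hpl, fun P hP => (hw P hP _ _ _ hpl).2 ?_⟩
  rw [frm_eval hE0]
  by_cases h0 : val T R E0 = 0
  · exact Or.inl h0
  right
  obtain ⟨x', E', i0, hL⟩ := exists_loc hn (hP.divisorial hy hn)
  obtain ⟨h1, h2⟩ := ord_val hT hx hE0 (hw P hP) hL (frameAt_of_loc hL) hR
  have h3 := (orb_sec (hh P hP) hL hR).resolve_left (h1.2 h0)
  rw [h2 h0] at h3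
  rw [smul_ap]
  linarith

/-- **Nonzero tensors on stable pairs have a nonvanishing invariant.** -/
theorem stable_val (hy : NormalModel y) (hn : Algebra.trdeg ℂ K = n) (hn1 : 1 ≤ n)
    {Δ : Place ℂ K → ℚ} (hΔ : FinSup y Δ) {α : Place ℂ K → ℝ} (hα : MovableClass y α) {c : ℝ}
    (hc : LogDegree y n Δ α c) (hc0 : c ≤ 0) (hst : StableTangent y n Δ α c) {m : ℕ} (hm : 1 ≤ m)
    {a : ℤ} (ha : 1 ≤ (m : ℤ) + n * a) {s : Finset (MvPolynomial (Ix (fun _ : Unit => m) n) ℂ)}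
    (hss : ∀ (L : Type) [Field L] [Algebra ℂ L] [IsAlgClosed L] (t : Fam (fun _ : Unit => m) n L),
      SemistableFam t → ∃ Q ∈ s, aeval (pt t) Q ≠ 0)
    {T : (Fin n → Derivation ℂ K K) → MultilinearMap K (fun _ : Fin m => Derivation ℂ K K) K}
    (hT : Twisted a T) (hTO : ∀ P, IsPrimeDivisor y P → OrbAt (Δ P) P a T)
    {x : Fin n → K} {E0 : Fin n → Derivation ℂ K K} (hx : IsTranscendenceBasis ℂ x)
    (hE0 : ∀ i j, E0 i (x j) = if i = j then 1 else 0) (hT0 : T E0 ≠ 0) :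
    ∃ R ∈ s, val (m := fun _ : Unit => m) (fun _ => T) R E0 ≠ 0 := by
  classical
  obtain ⟨W, Q, hW, hQ, hQ0⟩ := stable_inv hy hn hn1 hΔ hα hc hst hm (a := a) (ℓ := fun _ => 0)
    (lam := 0) ⟨∅, fun P hP => absurd hP (Finset.notMem_empty P), fun P _ _ => by simp, by simp⟩
    (by
      rw [mul_zero]
      have h1 : (0 : ℝ) ≤ (m : ℝ) + n * (a : ℝ) := by
        have h2 : (0 : ℤ) ≤ m + n * a := by omega
        exact_mod_cast h2
      nlinarith) hT (fun P hP => orbL_of_orb (hTO P hP)) hx hE0 hT0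
  have hQ' : TwInv (fun _ : Unit => m) n (fun _ => 0) W Q := by
    intro L _ _ A t hA
    have h1 : twact (fun _ : Unit => (0 : ℤ)) A t = act A t := by
      funext i J
      unfold twact
      rw [zpow_zero, one_mul]
    rw [h1]
    exact hQ L A t
  obtain ⟨t, ht⟩ : ∃ t : Fam (fun _ : Unit => m) n (AlgebraicClosure K),
    t = fun i J => algebraMap K (AlgebraicClosure K) (co (fun _ : Unit => T E0) E0 i J) :=
    ⟨_, rfl⟩
  have hev : ∀ R : MvPolynomial (Ix (fun _ : Unit => m) n) ℂ,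
      aeval (pt t) R = algebraMap K (AlgebraicClosure K)
        (val (m := fun _ : Unit => m) (fun _ => T) R E0) := by
    intro R
    unfold val
    rw [ht, MvPolynomial.aeval_def, MvPolynomial.aeval_def, MvPolynomial.eval₂_eq',
      MvPolynomial.eval₂_eq', map_sum]
    refine Finset.sum_congr rfl fun μ _ => ?_
    rw [map_mul, map_prod, ← IsScalarTower.algebraMap_apply ℂ K (AlgebraicClosure K)]
    congr 1
    refine Finset.prod_congr rfl fun x _ => ?_
    rw [map_pow]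
    rfl
  have hst' : SemistableFam t := by
    refine ss_of_twinv hn1 hW hQ' ?_
    rw [hev]
    exact (map_ne_zero_iff _ (algebraMap K (AlgebraicClosure K)).injective).2 hQ0
  obtain ⟨R, hR, hR0⟩ := hss (AlgebraicClosure K) t hst'
  refine ⟨R, hR, fun h => hR0 ?_⟩
  rw [hev, h, map_zero]

/-- **The unique divisor of a stable pair.** -/
theorem stable_div (hy : NormalModel y) (hn : Algebra.trdeg ℂ K = n) (hn2 : 2 ≤ n)
    {Δ : Place ℂ K → ℚ} (hΔ : Effective y Δ) {α : Place ℂ K → ℝ} (hα : MovableClass y α) {c : ℝ}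
    (hc : LogDegree y n Δ α c) (hc0 : c ≤ 0) (hst : StableTangent y n Δ α c)
    {x : Fin n → K} {E0 : Fin n → Derivation ℂ K K} (hx : IsTranscendenceBasis ℂ x)
    (hE0 : ∀ i j, E0 i (x j) = if i = j then 1 else 0) {w : Place ℂ K → ℚ}
    (hw : ∀ P : Place ℂ K, IsPrimeDivisor y P → ∀ (m : ℕ)
      (ω : (Fin n → Derivation ℂ K K) → K) (c : ℚ), IsPluri m ω →
      (OrdGe P ω c ↔ ω E0 = 0 ∨ c - m * w P ≤ (P.ord (ω E0) : ℚ))) :
    ∃ B : Set (Place ℂ K), B.Finite ∧ (∀ P ∈ B, IsPrimeDivisor y P ∧ α P = 0) ∧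
      ∀ (k : ℕ) (ω : (Fin n → Derivation ℂ K K) → K), 1 ≤ k → ω ≠ 0 → IsSection y n k (k • Δ) ω →
        c = 0 ∧ ∀ P, IsPrimeDivisor y P →
          ((P.ord (ω E0) : ℚ) = -(k * (w + Δ) P) ↔ P ∉ B) := by
  classical
  have hess := hy.ess
  have hfr : IsFrame E0 := frame_of_dual hx hE0
  by_cases hex : ∃ (k : ℕ) (ω : (Fin n → Derivation ℂ K K) → K), 1 ≤ k ∧ ω ≠ 0 ∧
    IsSection y n k (k • Δ) ω
  swap
  · push Not at hex
    exact ⟨∅, Set.finite_empty, fun P hP => absurd hP (Set.notMem_empty P),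
      fun k ω hk hω0 hω => absurd hω (hex k ω hk hω0)⟩
  obtain ⟨k0, ω0, hk0, hω00, hω0⟩ := hex
  have hE : ∀ {k : ℕ} {ω : (Fin n → Derivation ℂ K K) → K}, ω ≠ 0 → IsSection y n k (k • Δ) ω →
      ω E0 ≠ 0 := fun h0 h h1 => h0 (pluri_zero hfr h.1 h1)
  have hge : ∀ {k : ℕ} {ω : (Fin n → Derivation ℂ K K) → K}, ω ≠ 0 →
      IsSection y n k (k • Δ) ω → ∀ P, IsPrimeDivisor y P →
        0 ≤ (P.ord (ω E0) : ℚ) + k * (w + Δ) P := by
    intro k ω h0 h P hP
    have h1 := ((hw P hP k ω _ h.1).1 (h.2 P hP)).resolve_left (hE h0 h)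
    rw [smul_ap] at h1
    rw [Pi.add_apply]
    linarith
  have hωE0 := hE hω00 hω0
  -- the degree
  obtain ⟨η, w', hη, hη0, hηw, hηd⟩ := hc
  have hηE : η E0 ≠ 0 := fun h => hη0 (pluri_zero hfr hη h)
  have hw' : ∀ P, IsPrimeDivisor y P → (w' P : ℝ) = w P + P.ord (η E0) := by
    intro P hP
    obtain ⟨x', E', i0, hL⟩ := exists_loc hn (hP.divisorial hy hn)
    have h1 := ((ordEq_iff hx hE0 (hw P hP) hL hη).1 (hηw P hP)).2
    have h2 : (w' P : ℚ) = w P + P.ord (η E0) := by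
      push_cast at h1
      linarith
    exact_mod_cast h2
  have hquot : ω0 E0 / η E0 ^ k0 ≠ 0 := div_ne_zero hωE0 (pow_ne_zero _ hηE)
  have hdeg : HasDeg y α (fun P => ((P.ord (ω0 E0) : ℚ) + k0 * (w + Δ) P : ℚ)) (k0 * c) := by
    have h1 := (hηd.smul (k0 : ℝ)).add (hα.prin _ hquot)
    rw [add_zero] at h1
    refine h1.congr fun P hP => ?_
    rw [hw' P hP, P.ord_div hωE0 (pow_ne_zero _ hηE), P.ord_pow]
    simp only [Pi.add_apply]
    push_cast
    ring
  obtain ⟨S, hS1, hS2, hS3⟩ := hdeg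
  have hterm : ∀ P ∈ S, 0 ≤ α P * (((P.ord (ω0 E0) : ℚ) + k0 * (w + Δ) P : ℚ) : ℝ) := by
    intro P hP
    refine mul_nonneg (hα.nonneg P (hS1 P hP)) ?_
    exact_mod_cast hge hω00 hω0 P (hS1 P hP)
  have hk0R : (0 : ℝ) < k0 := by exact_mod_cast hk0
  have hsum0 : 0 ≤ (k0 : ℝ) * c := by
    rw [← hS3]
    exact Finset.sum_nonneg hterm
  have hc1 : c = 0 := by nlinarith
  rw [hc1, mul_zero] at hS3
  have hzero := (Finset.sum_eq_zero_iff_of_nonneg hterm).1 hS3
  refine ⟨{P | IsPrimeDivisor y P ∧ (P.ord (ω0 E0) : ℚ) + k0 * (w + Δ) P ≠ 0}, ?_, ?_, ?_⟩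
  · refine S.finite_toSet.subset ?_
    rintro P ⟨hP, h0⟩
    by_contra hcon
    have h1 : (((P.ord (ω0 E0) : ℚ) + k0 * (w + Δ) P : ℚ) : ℝ) = 0 := hS2 P hP hcon
    exact h0 (by exact_mod_cast h1)
  · rintro P ⟨hP, h0⟩
    refine ⟨hP, ?_⟩
    have hPS : P ∈ S := by
      by_contra hcon
      have h1 : (((P.ord (ω0 E0) : ℚ) + k0 * (w + Δ) P : ℚ) : ℝ) = 0 := hS2 P hP hcon
      exact h0 (by exact_mod_cast h1)
    have h1 := hzero P hPS
    refine (mul_eq_zero.1 h1).resolve_right fun h2 => h0 ?_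
    exact_mod_cast h2
  · intro k ω hk hω0' hω
    refine ⟨hc1, fun P hP => ?_⟩
    have hωE := hE hω0' hω
    have h1 := section_pow hω k0
    have h2 := section_pow hω0 k
    rw [mul_comm k0 k] at h2
    have h20 : (fun D => ω0 D ^ k : (Fin n → Derivation ℂ K K) → K) ≠ 0 := by
      intro h
      have h3 := congrFun h E0
      exact pow_ne_zero k hωE0 h3
    obtain ⟨z, hz⟩ := two_sections hy hn hn2 hΔ hα ⟨η, w', hη, hη0, hηw, hηd⟩ hc0 hst h1 h2 h20
    have h3 : ω E0 ^ k0 = algebraMap ℂ K z * ω0 E0 ^ k := by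
      have h4 := congrFun hz E0
      change ω E0 ^ k0 = z • ω0 E0 ^ k at h4
      rw [h4, Algebra.smul_def]
    have hz0 : z ≠ 0 := by
      intro h
      rw [h, map_zero, zero_mul] at h3
      exact pow_ne_zero _ hωE h3
    have h4 := congrArg P.ord h3
    rw [P.ord_pow, P.ord_mul ((map_ne_zero_iff _ (algebraMap ℂ K).injective).2 hz0)
      (pow_ne_zero _ hωE0), P.ord_const hz0, P.ord_pow, zero_add] at h4
    have h5 : (k0 : ℚ) * P.ord (ω E0) = k * P.ord (ω0 E0) := by exact_mod_cast h4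
    have hkQ : (k : ℚ) ≠ 0 := by
      have : k ≠ 0 := by omega
      exact_mod_cast this
    have hk0Q : (k0 : ℚ) ≠ 0 := by
      have : k0 ≠ 0 := by omega
      exact_mod_cast this
    constructor
    · intro h6 h7
      apply h7.2
      have h8 : (k : ℚ) * (P.ord (ω0 E0) + k0 * (w + Δ) P) = 0 := by
        rw [mul_add, ← h5, h6]
        ring
      exact (mul_eq_zero.1 h8).resolve_left hkQ
    · intro h6
      have h7 : (P.ord (ω0 E0) : ℚ) + k0 * (w + Δ) P = 0 := by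
        by_contra h8
        exact h6 ⟨hP, h8⟩
      have h8 : (k0 : ℚ) * (P.ord (ω E0) + k * (w + Δ) P) = 0 := by
        have h9 : (k0 : ℚ) * (P.ord (ω E0) + k * (w + Δ) P) =
            k * (P.ord (ω0 E0) + k0 * (w + Δ) P) := by
          rw [mul_add, h5]
          ring
        rw [h9, h7, mul_zero]
      have h9 := (mul_eq_zero.1 h8).resolve_left hk0Q
      linarith

end

end Pool.Agent.H897
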