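import Pool.Agent.H897.IB

/-!
The points at which the tensors are semistable.
-/

set_option autoImplicit false
set_option linter.overlappingInstances false
set_option linter.unusedSectionVars false

open MvPolynomial FF Pool.Agent.W602.GT Pool.Agent.Y172 Pool.Agent.NH31 Pool.Agent.W603.LV
open Pool.Agent.N133.TB Pool.Agent.Y174

namespace Pool.Agent.H897

section

variable {K : Type} [Field K] [Algebra ℂ K] {N n : ℕ} {y : Fin (N + 1) → K}
variable {ι : Type} {m : ι → ℕ}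

theorem crd_frame (hn : Algebra.trdeg ℂ K = n) (hy : NormalModel y) {Q : Place ℂ K}
    {x : Fin n → K} {E : Fin n → Derivation ℂ K K} (h : Coordinates y Q x E) : IsFrame E := by
  have hess := hy.ess
  refine frame_of_indep hn (Fintype.linearIndependent_iff.2 fun g hg k => ?_)
  have h5 : (∑ i, g i • E i) (x k) = g k := by
    rw [← Derivation.coeFnAddMonoidHom_apply, map_sum, Finset.sum_apply]
    change ∑ i, g i * E i (x k) = g k
    rw [Finset.sum_eq_single k]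
    · rw [h.dual, if_pos rfl, mul_one]
    · intro b _ hb
      rw [h.dual, if_neg hb, mul_zero]
    · intro h
      exact absurd (Finset.mem_univ k) h
  rw [← h5, hg]
  rfl

/-- the converse of `orb_gen`: an invariant which generates at a point does not vanish on the
leading coefficients -/
theorem orb_unit (hy : NormalModel y) (hn : Algebra.trdeg ℂ K = n) [Finite ι] {a : ι → ℤ}
    {T : (i : ι) → (Fin n → Derivation ℂ K K) →
      MultilinearMap K (fun _ : Fin (m i) => Derivation ℂ K K) K}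
    (hT : ∀ i, Twisted (a i) (T i)) {Δ : Place ℂ K → ℚ}
    (hh : ∀ P, IsPrimeDivisor y P → ∀ i, OrbAt (Δ P) P (a i) (T i))
    {x0 : Fin n → K} {E0 : Fin n → Derivation ℂ K K}
    (hx : IsTranscendenceBasis ℂ x0) (hE : ∀ i j, E0 i (x0 j) = if i = j then 1 else 0)
    {w : Place ℂ K → ℚ}
    (hw : ∀ P : Place ℂ K, IsPrimeDivisor y P → ∀ (m : ℕ)
      (ω : (Fin n → Derivation ℂ K K) → K) (c : ℚ), IsPluri m ω →
      (OrdGe P ω c ↔ ω E0 = 0 ∨ c - m * w P ≤ (P.ord (ω E0) : ℚ)))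
    {D1 : ℕ} (hint : ∀ P, IsPrimeDivisor y P → ∃ z : ℤ, (D1 : ℚ) * Δ P = z)
    {d : ℕ} {R : MvPolynomial (Ix m n) ℂ} (hR' : TwInv m n a (D1 * d) R) {Q : Place ℂ K}
    {x : Fin n → K} {E : Fin n → Derivation ℂ K K} {δ : Fin n → ℚ} (h : SncAt y Δ Q x E δ)
    {L : Type} [Field L] [Algebra ℂ L] {ρ : K → L} (hρ : ResMap Q ρ)
    (hg : GenAt y (w + Δ) Q (D1 * d) (val T R E0)) :
    aeval (pt (lead δ x ρ a (coefs T E))) R ≠ 0 := by
  classical
  have : Fintype (Ix m n) := Fintype.ofFinite _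
  have hess := hy.ess
  have hx0 := h.crd.ne
  -- the exponents
  have hz : ∀ l, ∃ z : ℤ, (z : ℚ) = ((D1 * d : ℕ) : ℚ) * δ l := by
    intro l
    by_cases hδ : δ l = 0
    · exact ⟨0, by rw [hδ]; simp⟩
    · obtain ⟨P, hP, hPQ, hl⟩ := exists_van hy (hx0 l) (h.van l hδ)
      obtain ⟨h1, h2, -⟩ := crd_facts hy hn h.crd hP hPQ hl
      have h3 : Δ P = δ l := by
        rw [h.eq P hP hPQ, Finset.sum_eq_single l]
        · rw [h1]
          simp
        · intro j _ hj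
          rw [h2 j hj]
          simp
        · intro hl
          exact absurd (Finset.mem_univ l) hl
      obtain ⟨z, hz⟩ := hint P hP
      refine ⟨d * z, ?_⟩
      rw [h3] at hz
      push_cast
      rw [← hz]
      ring
  choose zl hzl using hz
  obtain ⟨G, hG1, hG2⟩ := orb_res (δ := δ) (t := coefs T E) hx0 hR' hzl
  obtain ⟨g, hgd⟩ : ∃ g, g = aeval (Sum.elim (breg δ x a (coefs T E)) x) G := ⟨_, rfl⟩
  rw [← hgd] at hG1 hG2
  have hregP : ∀ P, IsPrimeDivisor y P → Through y P Q →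
      ∀ z, P.Reg (Sum.elim (breg δ x a (coefs T E)) x z) := by
    rintro P hP hPQ (z | l)
    · exact breg_mem hy hn hh h z hP hPQ
    · exact hPQ _ (h.crd.reg l)
  have hgl : g ∈ localRing y Q := mem_localRing_of_reg hy fun P hP hPQ => by
    rw [hgd]
    exact reg_aeval P (hregP P hP hPQ) G
  have hbl : ∀ z, breg δ x a (coefs T E) z ∈ localRing y Q := fun z =>
    mem_localRing_of_reg hy fun P hP hPQ => breg_mem hy hn hh h z hP hPQ
  have hρg := hG2 Q L ρ hρ (fun z => localRing_reg (hbl z)) (fun l => localRing_reg (h.crd.reg l))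
    h.van
  rw [← hρg]
  have hp0 : ∏ l, x l ^ zl l ≠ 0 := Finset.prod_ne_zero_iff.2 fun l _ => zpow_ne_zero _ (hx0 l)
  have hv0 : val T R E ≠ 0 := by
    obtain ⟨M, hM, hME⟩ := frame_change hx hE (crd_frame hn hy h.crd)
    rw [hME, val_act hT hM E0 hR']
    exact mul_ne_zero (pow_ne_zero _ hM) hg.1
  have hG1' : g = val T R E * ∏ l, x l ^ zl l := hG1
  have hg0 : g ≠ 0 := by
    rw [hG1']
    exact mul_ne_zero hv0 hp0
  have hord : ∀ P, IsPrimeDivisor y P → Through y P Q → P.ord g = 0 := by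
    intro P hP hPQ
    obtain ⟨x', E', i0, hL⟩ := exists_loc hn (hP.divisorial hy hn)
    obtain ⟨-, h7⟩ := ord_val hT hx hE (hw P hP) hL (h.crd.frameAt hn hP hPQ hy) hR'
    have h8 := h7 hg.1
    have h9 := hg.2 P hP hPQ
    rw [Pi.add_apply] at h9
    rw [hG1', P.ord_mul hv0 hp0, prod_ord _ hx0]
    have h14 : ∑ l, (zl l : ℚ) * P.ord (x l) = ((D1 * d : ℕ) : ℚ) * Δ P := by
      rw [h.eq P hP hPQ, Finset.mul_sum]
      refine Finset.sum_congr rfl fun l _ => ?_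
      rw [hzl]
      ring
    have h15 : ((P.ord (val T R E) + ∑ l, zl l * P.ord (x l) : ℤ) : ℚ) = 0 := by
      push_cast
      push_cast at h14 h8 h9
      rw [h14, h8, h9]
      ring
    exact_mod_cast h15
  have hgi : g⁻¹ ∈ localRing y Q := mem_localRing_of_reg hy fun P hP hPQ => by
    rw [P.reg_iff (inv_ne_zero hg0), P.ord_inv, hord P hP hPQ]
    simp
  have h1 := (Q.reg_iff hg0).1 (localRing_reg hgl)
  have h2 := (Q.reg_iff (inv_ne_zero hg0)).1 (localRing_reg hgi)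
  rw [Q.ord_inv] at h2
  intro h3
  rcases (hρ.ker _ (localRing_reg hgl)).1 h3 with h4 | h4
  · exact hg0 h4
  · omega

/-- a discrete valuation ring is maximal -/
theorem place_eq {P P' : Place ℂ K} (h : ∀ f, P.Reg f → P'.Reg f) : P' = P := by
  obtain ⟨t, ht0, ht⟩ := P.surj
  have hge : ∀ f, f ≠ 0 → 0 ≤ P.ord f → 0 ≤ P'.ord f := fun f hf h0 =>
    (P'.reg_iff hf).1 (h f ((P.reg_iff hf).2 h0))
  have hun : ∀ f, f ≠ 0 → P.ord f = 0 → P'.ord f = 0 := by
    intro f hf h0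
    have h1 := hge f hf h0.ge
    have h2 := hge f⁻¹ (inv_ne_zero hf) (by rw [P.ord_inv, h0]; simp)
    rw [P'.ord_inv] at h2
    omega
  have hform : ∀ f, f ≠ 0 → P'.ord f = P.ord f * P'.ord t := by
    intro f hf
    have h1 : f * t ^ (-P.ord f) ≠ 0 := mul_ne_zero hf (zpow_ne_zero _ ht0)
    have h2 := hun _ h1 (by
      rw [P.ord_mul hf (zpow_ne_zero _ ht0), P.ord_zpow, ht]
      ring)
    rw [P'.ord_mul hf (zpow_ne_zero _ ht0), P'.ord_zpow] at h2
    linarith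
  obtain ⟨t', ht'0, ht'⟩ := P'.surj
  have h1 := hform t' ht'0
  rw [ht'] at h1
  have h2 : 0 ≤ P'.ord t := hge t ht0 (by rw [ht]; norm_num)
  have h3 : P'.ord t = 1 := by
    have h4 : P'.ord t ∣ 1 := ⟨P.ord t', by rw [h1]; ring⟩
    rcases Int.isUnit_iff.1 (isUnit_of_dvd_one h4) with h5 | h5
    · exact h5
    · omega
  ext f
  by_cases hf : f = 0
  · rw [hf, P.ord_zero, P'.ord_zero]
  · rw [hform f hf, h3, mul_one]

/-- prime divisors have simple normal crossings -/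
theorem snc_prime (hy : NormalModel y) (hn : Algebra.trdeg ℂ K = n) (Δ : Place ℂ K → ℚ)
    {P : Place ℂ K} (hP : IsPrimeDivisor y P) :
    ∃ (x : Fin n → K) (E : Fin n → Derivation ℂ K K) (δ : Fin n → ℚ), SncAt y Δ P x E δ := by
  classical
  have hess := hy.ess
  obtain ⟨x', E', i0, hL⟩ := exists_loc hn (hP.divisorial hy hn)
  refine ⟨x', E', fun l => if l = i0 then Δ P else 0,
    ⟨fun j => hP _ (hL.reg j), fun i f hf => hP _ (hL.pres i f (localRing_reg hf)), hL.dual⟩,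
    fun l hl => ?_, fun P' hP' hPP => ?_⟩
  · by_cases h : l = i0
    · rw [h, hL.unif]
      norm_num
    · simp [h] at hl
  · have hreg : ∀ f, P.Reg f → P'.Reg f := fun f hf => hPP f (hP f hf)
    have heq : P' = P := place_eq hreg
    rw [heq, Finset.sum_eq_single i0]
    · rw [if_pos rfl, hL.unif]
      simp
    · intro j _ hj
      rw [if_neg hj, zero_mul]
    · intro h
      exact absurd (Finset.mem_univ _) h

/-- **The unstable locus.** -/
theorem stable_locus (hy : NormalModel y) (hn : Algebra.trdeg ℂ K = n) (hn2 : 2 ≤ n)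
    {Δ : Place ℂ K → ℚ} (hΔ : Effective y Δ) {α : Place ℂ K → ℝ} (hα : MovableClass y α) {c : ℝ}
    (hc : LogDegree y n Δ α c) (hc0 : c ≤ 0) (hst : StableTangent y n Δ α c)
    {x : Fin n → K} {E0 : Fin n → Derivation ℂ K K} (hx : IsTranscendenceBasis ℂ x)
    (hE0 : ∀ i j, E0 i (x j) = if i = j then 1 else 0) {w : Place ℂ K → ℚ}
    (hw : ∀ P : Place ℂ K, IsPrimeDivisor y P → ∀ (m : ℕ)
      (ω : (Fin n → Derivation ℂ K K) → K) (c : ℚ), IsPluri m ω →
      (OrdGe P ω c ↔ ω E0 = 0 ∨ c - m * w P ≤ (P.ord (ω E0) : ℚ)))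
    {B : Set (Place ℂ K)} (hB : ∀ (k : ℕ) (ω : (Fin n → Derivation ℂ K K) → K), 1 ≤ k → ω ≠ 0 →
      IsSection y n k (k • Δ) ω → c = 0 ∧ ∀ P, IsPrimeDivisor y P →
          ((P.ord (ω E0) : ℚ) = -(k * (w + Δ) P) ↔ P ∉ B))
    (hBp : ∀ P ∈ B, IsPrimeDivisor y P)
    {m : ℕ} (hm : 1 ≤ m) {a : ℤ} (ha : 1 ≤ (m : ℤ) + n * a) {d : ℕ} (hd : 1 ≤ d)
    {s : Finset (MvPolynomial (Ix (fun _ : Unit => m) n) ℂ)}
    (hs : ∀ Q ∈ s, TwInv (fun _ : Unit => m) n (fun _ => a) d Q)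
    (hss : ∀ (L : Type) [Field L] [Algebra ℂ L] [IsAlgClosed L] (t : Fam (fun _ : Unit => m) n L),
      SemistableFam t → ∃ Q ∈ s, aeval (pt t) Q ≠ 0)
    {T : (Fin n → Derivation ℂ K K) → MultilinearMap K (fun _ : Fin m => Derivation ℂ K K) K}
    (hT : Twisted a T) (hTO : ∀ P, IsPrimeDivisor y P → OrbAt (Δ P) P a T) (hT0 : T E0 ≠ 0) :
    c = 0 ∧ (∃ ω, ω ≠ 0 ∧ IsSection y n d (d • Δ) ω) ∧
      ∀ Q : Place ℂ K, (∃ (x : Fin n → K) (E : Fin n → Derivation ℂ K K) (δ : Fin n → ℚ),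
        SncAt y Δ Q x E δ) →
        (SemistableOrb (m := fun _ : Unit => m) y Δ (fun _ => a) (fun _ => T) Q ↔
          ∀ P ∈ B, ¬ Through y P Q) := by
  classical
  obtain ⟨R, hR, hR0⟩ := stable_val hy hn (by omega) hΔ.2 hα hc hc0 hst hm ha hss hT hTO hx hE0 hT0
  have hsec : ∀ {k : ℕ} {R : MvPolynomial (Ix (fun _ : Unit => m) n) ℂ},
      TwInv (fun _ : Unit => m) n (fun _ => a) k R →
      val (m := fun _ : Unit => m) (fun _ => T) R E0 ≠ 0 →
      frm x k (val (m := fun _ : Unit => m) (fun _ => T) R E0) ≠ 0 ∧ IsSection y n k (k • Δ)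
        (frm x k (val (m := fun _ : Unit => m) (fun _ => T) R E0)) := by
    intro k R hR hR0
    refine ⟨fun h => hR0 ?_, inv_sec hy hn (m := fun _ : Unit => m) (fun _ => hT)
      (fun P hP _ => hTO P hP) hx hE0 hw hR⟩
    rw [← frm_eval hE0 k (val (m := fun _ : Unit => m) (fun _ => T) R E0), h]
    rfl
  obtain ⟨h1, h2⟩ := hsec (hs R hR) hR0
  obtain ⟨hc1, -⟩ := hB d _ hd h1 h2
  refine ⟨hc1, ⟨_, h1, h2⟩, fun Q hQ => ?_⟩
  obtain ⟨D1, hD1, hint⟩ := exists_den hΔ.2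
  have hD1d : 1 ≤ D1 * d := Nat.mul_pos hD1 hd
  constructor
  · intro h P hP hPQ
    obtain ⟨R', hR', hg⟩ := orb_gen hy hn (m := fun _ : Unit => m) (fun _ => hT)
      (fun P hP _ => hTO P hP) hx hE0 hw hD1 hint hs hss h
    have hR'' : TwInv (fun _ : Unit => m) n (fun _ => a) (D1 * d) (R' ^ D1) := (hs R' hR').pow D1
    obtain ⟨h3, h4⟩ := hsec hR'' hg.1
    obtain ⟨-, h5⟩ := hB (D1 * d) _ hD1d h3 h4
    refine (h5 P (hBp P hP)).1 ?_ hP
    rw [frm_eval hE0]
    exact hg.2 P (hBp P hP) hPQ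
  · intro h
    obtain ⟨x1, E1, δ, hsnc⟩ := hQ
    obtain ⟨L, i1, i2, i3, ρ, hρ⟩ := exists_resMap Q
    refine ⟨x1, E1, δ, hsnc, L, i1, i2, i3, ρ, hρ, ?_⟩
    have hR'' : TwInv (fun _ : Unit => m) n (fun _ => a) (D1 * d) (R ^ D1) := (hs R hR).pow D1
    have hR0' : val (m := fun _ : Unit => m) (fun _ => T) (R ^ D1) E0 ≠ 0 := by
      unfold val
      rw [map_pow]
      exact pow_ne_zero _ hR0
    obtain ⟨h3, h4⟩ := hsec hR'' hR0'
    obtain ⟨-, h5⟩ := hB (D1 * d) _ hD1d h3 h4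
    refine ss_of_twinv (by omega) hD1d hR'' ?_
    refine orb_unit hy hn (m := fun _ : Unit => m) (fun _ => hT)
      (fun P hP _ => hTO P hP) hx hE0 hw hint hR'' hsnc hρ ⟨hR0', fun P hP hPQ => ?_⟩
    have h6 := (h5 P hP).2 (fun hPB => h P hPB hPQ)
    rw [frm_eval hE0] at h6
    exact h6

end

end Pool.Agent.H897
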