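import Pool.Agent.H897.VF

/-!
Products of multilinear forms on the blocks of a direct sum.
-/

set_option autoImplicit false
set_option linter.overlappingInstances false
set_option linter.unusedSectionVars false

open MvPolynomial FF Pool.Agent.N133.TB Pool.Agent.Y174 Pool.Agent.W603.LV

namespace Pool.Agent.H897

/-- two functions with the same distribution have the same sum -/
theorem sum_eq_of_card {n : ℕ} {f g : Fin n → ℚ}
    (h : ∀ a, (Finset.univ.filter fun j => f j ≤ a).card =
      (Finset.univ.filter fun j => g j ≤ a).card) : ∑ j, f j = ∑ j, g j := by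
  classical
  have key : ∀ {f g : Fin n → ℚ}, Monotone f → Monotone g →
      (∀ a, (Finset.univ.filter fun j => f j ≤ a).card =
      (Finset.univ.filter fun j => g j ≤ a).card) → ∀ j, f j ≤ g j := by
    intro f g hf hg h j
    by_contra hcon
    push Not at hcon
    have h1 : (Finset.univ.filter fun i => f i ≤ g j) ⊆ Finset.univ.filter fun i => i < j := by
      intro i hi
      rw [Finset.mem_filter] at hi ⊢
      refine ⟨Finset.mem_univ _, ?_⟩
      by_contra hij
      push Not at hij
      exact absurd (lt_of_lt_of_le hcon (hf hij)) (not_lt.2 hi.2)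
    have h2 : (Finset.univ.filter fun i => i ≤ j) ⊆ Finset.univ.filter fun i => g i ≤ g j := by
      intro i hi
      rw [Finset.mem_filter] at hi ⊢
      exact ⟨Finset.mem_univ _, hg hi.2⟩
    have h3 : (Finset.univ.filter fun i : Fin n => i < j).card <
        (Finset.univ.filter fun i : Fin n => i ≤ j).card := by
      apply Finset.card_lt_card
      rw [Finset.ssubset_iff_of_subset]
      · exact ⟨j, by simp, by simp⟩
      · intro i hi
        rw [Finset.mem_filter] at hi ⊢
        exact ⟨Finset.mem_univ _, hi.2.le⟩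
    have h4 := Finset.card_le_card h1
    have h5 := Finset.card_le_card h2
    have h6 := h (g j)
    omega
  have hc : ∀ (σ : Equiv.Perm (Fin n)) (f : Fin n → ℚ) (a : ℚ),
      (Finset.univ.filter fun j => (f ∘ σ) j ≤ a).card =
        (Finset.univ.filter fun j => f j ≤ a).card := by
    intro σ f a
    refine Finset.card_bij (fun j _ => σ j) (fun j hj => ?_) (fun i _ j _ hij => σ.injective hij)
      (fun j hj => ⟨σ.symm j, ?_, σ.apply_symm_apply j⟩)
    · rw [Finset.mem_filter] at hj ⊢
      exact ⟨Finset.mem_univ _, hj.2⟩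
    · rw [Finset.mem_filter] at hj ⊢
      refine ⟨Finset.mem_univ _, ?_⟩
      change f (σ (σ.symm j)) ≤ a
      rw [σ.apply_symm_apply]
      exact hj.2
  have h1 : ∀ j, (f ∘ Tuple.sort f) j = (g ∘ Tuple.sort g) j := by
    intro j
    have h2 : ∀ a, (Finset.univ.filter fun j => (f ∘ Tuple.sort f) j ≤ a).card =
        (Finset.univ.filter fun j => (g ∘ Tuple.sort g) j ≤ a).card := by
      intro a
      rw [hc, hc, h a]
    exact le_antisymm (key (Tuple.monotone_sort f) (Tuple.monotone_sort g) h2 j)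
      (key (Tuple.monotone_sort g) (Tuple.monotone_sort f) (fun a => (h2 a).symm) j)
  rw [← Equiv.sum_comp (Tuple.sort f) f, ← Equiv.sum_comp (Tuple.sort g) g]
  exact Finset.sum_congr rfl fun j _ => h1 j

/-- exponents -/
theorem exists_exps2 {k : ℕ} (r e : Fin k → ℕ) (hr : ∀ i, 1 ≤ r i) :
    ∃ (q lam : ℕ) (N : Fin k → ℕ), 1 ≤ q ∧ ∀ i, q * e i + r i * N i = lam * r i := by
  classical
  obtain ⟨R, hR⟩ : ∃ R, R = ∏ i, r i := ⟨_, rfl⟩
  obtain ⟨E, hE⟩ : ∃ E, E = ∑ i, e i := ⟨_, rfl⟩
  have hR1 : 1 ≤ R := by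
    rw [hR]
    exact Finset.one_le_prod' fun i _ => hr i
  have hdiv : ∀ i, ∃ c, R = r i * c := fun i => by
    rw [hR]
    exact Finset.dvd_prod_of_mem r (Finset.mem_univ i)
  choose c hc using hdiv
  have hle : ∀ i, c i * e i ≤ R * E := by
    intro i
    have h1 : c i ≤ R := by
      rw [hc i]
      exact Nat.le_mul_of_pos_left _ (hr i)
    have h2 : e i ≤ E := by
      rw [hE]
      exact Finset.single_le_sum (fun i _ => Nat.zero_le _) (Finset.mem_univ i)
    exact Nat.mul_le_mul h1 h2
  refine ⟨R, R * E, fun i => R * E - c i * e i, hR1, fun i => ?_⟩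
  have h1 : r i * (c i * e i) = R * e i := by
    conv_rhs => rw [hc i]
    ring
  have h2 : r i * (R * E - c i * e i) = r i * (R * E) - r i * (c i * e i) := Nat.mul_sub _ _ _
  have h3 : r i * (c i * e i) ≤ r i * (R * E) := Nat.mul_le_mul le_rfl (hle i)
  rw [h2, ← h1]
  have h4 : R * E * r i = r i * (R * E) := by ring
  omega

section

variable {K : Type} [Field K]

/-- the determinant of a block diagonal matrix -/
theorem det_bd {k : ℕ} {s : Fin k → ℕ} (d : ∀ i, Matrix (Fin (s i)) (Fin (s i)) K) :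
    (Matrix.blockDiagonal' d).det = ∏ i, (d i).det := by
  classical
  rw [Matrix.BlockTriangular.det_fintype (Matrix.blockTriangular_blockDiagonal' d)]
  refine Finset.prod_congr rfl fun i _ => ?_
  rw [← Matrix.det_submatrix_equiv_self (Equiv.sigmaSubtype (β := fun i => Fin (s i)) i).symm]
  congr 1
  ext a b
  rw [Matrix.submatrix_apply]
  exact Matrix.blockDiagonal'_apply_eq d i a b

variable {k m : ℕ} {r : Fin k → ℕ}

/-- the component of a vector in a block -/
def prj (K : Type) [Field K] {k : ℕ} (r : Fin k → ℕ) (i : Fin k) :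
    (((i : Fin k) × Fin (r i)) → K) →ₗ[K] (Fin (r i) → K) :=
  LinearMap.pi fun l => LinearMap.proj ⟨i, l⟩

theorem prj_apply (i : Fin k) (v : ((i : Fin k) × Fin (r i)) → K) (l : Fin (r i)) :
    prj K r i v l = v ⟨i, l⟩ := rfl

/-- the inclusion of a block -/
noncomputable def inc (K : Type) [Field K] {k : ℕ} (r : Fin k → ℕ) (i : Fin k) :
    (Fin (r i) → K) →ₗ[K] (((i : Fin k) × Fin (r i)) → K) :=
  ∑ l, (LinearMap.proj l).smulRight (Pi.single (M := fun _ => K) ⟨i, l⟩ 1)

theorem inc_apply (i : Fin k) (v : Fin (r i) → K) :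
    inc K r i v = ∑ l, v l • Pi.single (M := fun _ => K) ⟨i, l⟩ 1 := by
  unfold inc
  rw [LinearMap.sum_apply]
  rfl

theorem inc_self (i : Fin k) (v : Fin (r i) → K) (l : Fin (r i)) : inc K r i v ⟨i, l⟩ = v l := by
  classical
  rw [inc_apply, Finset.sum_apply, Finset.sum_eq_single l]
  · rw [Pi.smul_apply, Pi.single_eq_same, smul_eq_mul, mul_one]
  · intro l' _ hl'
    rw [Pi.smul_apply, Pi.single_eq_of_ne, smul_zero]
    intro h
    exact hl' (eq_of_heq (Sigma.mk.inj h).2).symm
  · intro h
    exact absurd (Finset.mem_univ _) h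

theorem inc_ne {i j : Fin k} (h : j ≠ i) (v : Fin (r i) → K) (l : Fin (r j)) :
    inc K r i v ⟨j, l⟩ = 0 := by
  classical
  rw [inc_apply, Finset.sum_apply]
  refine Finset.sum_eq_zero fun l' _ => ?_
  rw [Pi.smul_apply, Pi.single_eq_of_ne, smul_zero]
  intro h'
  exact h (Sigma.mk.inj h').1

theorem prj_inc (i : Fin k) (v : Fin (r i) → K) : prj K r i (inc K r i v) = v := by
  funext l
  rw [prj_apply, inc_self]

theorem prj_inc_ne {i j : Fin k} (h : j ≠ i) (v : Fin (r i) → K) :
    prj K r j (inc K r i v) = 0 := by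
  funext l
  rw [prj_apply, inc_ne h]
  rfl

theorem sum_inc (v : ((i : Fin k) × Fin (r i)) → K) : ∑ i, inc K r i (prj K r i v) = v := by
  classical
  funext x
  obtain ⟨i, l⟩ := x
  rw [Finset.sum_apply, Finset.sum_eq_single i]
  · rw [inc_self, prj_apply]
  · intro j _ hj
    exact inc_ne (Ne.symm hj) _ _
  · intro h
    exact absurd (Finset.mem_univ _) h

/-- scaling of the blocks -/
def scl (K : Type) [Field K] {k : ℕ} (r : Fin k → ℕ) (z : Fin k → K) :
    (((i : Fin k) × Fin (r i)) → K) →ₗ[K] (((i : Fin k) × Fin (r i)) → K) :=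
  LinearMap.pi fun x => z x.1 • LinearMap.proj x

theorem scl_apply (z : Fin k → K) (v : ((i : Fin k) × Fin (r i)) → K) (x : (i : Fin k) × Fin (r i)) :
    scl K r z v x = z x.1 * v x := rfl

theorem prj_scl (z : Fin k → K) (v : ((i : Fin k) × Fin (r i)) → K) (i : Fin k) :
    prj K r i (scl K r z v) = z i • prj K r i v := rfl

/-- the degrees of the factors -/
def degB (m q : ℕ) (r N : Fin k → ℕ) : Fin q ⊕ ((i : Fin k) × Fin (N i)) → ℕ :=
  Sum.elim (fun _ => m) fun z => r z.1

/-- the blocks of the arguments -/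
def blB {J : Fin m → Fin k} {q : ℕ} {N : Fin k → ℕ} :
    ((β : Fin q ⊕ ((i : Fin k) × Fin (N i))) × Fin (degB m q r N β)) → Fin k
  | ⟨.inl _, s⟩ => J s
  | ⟨.inr z, _⟩ => z.1

/-- the factors: copies of `T`, and the volume forms of the blocks -/
noncomputable def gB {J : Fin m → Fin k}
    (T : MultilinearMap K (fun s : Fin m => (Fin (r (J s)) → K)) K) (q : ℕ) (N : Fin k → ℕ) :
    (β : Fin q ⊕ ((i : Fin k) × Fin (N i))) →
      MultilinearMap K (fun _ : Fin (degB m q r N β) => (((i : Fin k) × Fin (r i)) → K)) K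
  | .inl _ => T.compLinearMap fun s => prj K r (J s)
  | .inr z => (Matrix.detRowAlternating (n := Fin (r z.1)) (R := K)).toMultilinearMap.compLinearMap
      fun _ => prj K r z.1

/-- the product only depends on the components in the blocks -/
theorem gB_congr {J : Fin m → Fin k}
    (T : MultilinearMap K (fun s : Fin m => (Fin (r (J s)) → K)) K) (q : ℕ) (N : Fin k → ℕ)
    {x x' : ((β : Fin q ⊕ ((i : Fin k) × Fin (N i))) × Fin (degB m q r N β)) →
      (((i : Fin k) × Fin (r i)) → K)}
    (h : ∀ z, prj K r (blB (J := J) z) (x z) = prj K r (blB (J := J) z) (x' z)) :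
    prodML (gB T q N) x = prodML (gB T q N) x' := by
  rw [prodML_apply, prodML_apply]
  refine Finset.prod_congr rfl fun β _ => ?_
  rcases β with a | z
  · change T (fun s => prj K r (J s) (x ⟨.inl a, s⟩)) = T (fun s => prj K r (J s) (x' ⟨.inl a, s⟩))
    congr 1
    funext s
    exact h ⟨.inl a, s⟩
  · change Matrix.det (fun s => prj K r z.1 (x ⟨.inr z, s⟩)) =
      Matrix.det (fun s => prj K r z.1 (x' ⟨.inr z, s⟩))
    congr 1
    funext s
    exact h ⟨.inr z, s⟩

/-- the product is a semi-invariant for the scaling of the blocks -/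
theorem gB_scl {J : Fin m → Fin k}
    (T : MultilinearMap K (fun s : Fin m => (Fin (r (J s)) → K)) K) (q : ℕ) (N : Fin k → ℕ)
    (z : Fin k → K) : ∃ χ : K, ∀ x : ((β : Fin q ⊕ ((i : Fin k) × Fin (N i))) ×
      Fin (degB m q r N β)) → (((i : Fin k) × Fin (r i)) → K),
      prodML (gB T q N) (fun s => scl K r z (x s)) = χ * prodML (gB T q N) x := by
  classical
  refine ⟨∏ β : Fin q ⊕ ((i : Fin k) × Fin (N i)), Sum.elim (fun _ => ∏ s, z (J s))
    (fun w => z w.1 ^ r w.1) β, fun x => ?_⟩
  rw [prodML_apply, prodML_apply, ← Finset.prod_mul_distrib]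
  refine Finset.prod_congr rfl fun β _ => ?_
  rcases β with a | w
  · change T (fun s => z (J s) • prj K r (J s) (x ⟨.inl a, s⟩)) = (∏ s, z (J s)) *
      T (fun s => prj K r (J s) (x ⟨.inl a, s⟩))
    rw [MultilinearMap.map_smul_univ, smul_eq_mul]
  · have h1 := (Matrix.detRowAlternating (n := Fin (r w.1)) (R := K)).toMultilinearMap.map_smul_univ
      (fun _ => z w.1) (fun s => prj K r w.1 (x ⟨.inr w, s⟩))
    rw [Finset.prod_const, Finset.card_univ, Fintype.card_fin, smul_eq_mul] at h1
    exact h1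

end

end Pool.Agent.H897
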