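import Pool.Agent.H897.JA

/-!
The canonical flag of a product of forms on blocks is the sum of flags of the blocks.
-/

set_option autoImplicit false
set_option linter.overlappingInstances false
set_option linter.unusedSectionVars false

open MvPolynomial FF Pool.Agent.N133.TB Pool.Agent.Y174 Pool.Agent.W603.LV

namespace Pool.Agent.H897

section

variable {K : Type} [Field K] {k m : ℕ} {r : Fin k → ℕ}

/-- the product does not vanish -/
theorem gB_ne {J : Fin m → Fin k}
    {T : MultilinearMap K (fun s : Fin m => (Fin (r (J s)) → K)) K} (hT : T ≠ 0) (q : ℕ)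
    (N : Fin k → ℕ) : prodML (gB T q N) ≠ 0 := by
  classical
  obtain ⟨x, hx⟩ : ∃ x, T x ≠ 0 := by
    by_contra hcon
    push Not at hcon
    exact hT (MultilinearMap.ext hcon)
  obtain ⟨X, hX⟩ : ∃ X : ((β : Fin q ⊕ ((i : Fin k) × Fin (N i))) ×
      Fin (degB m q r N β)) → (((i : Fin k) × Fin (r i)) → K),
      X = fun z => match z with
        | ⟨.inl _, s⟩ => inc K r (J s) (x s)
        | ⟨.inr w, s⟩ => inc K r w.1 (Pi.single s 1) := ⟨_, rfl⟩
  intro h0
  have h1 : prodML (gB T q N) X ≠ 0 := by
    rw [prodML_apply, Finset.prod_ne_zero_iff]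
    intro β _
    rcases β with a | w
    · have h2 : gB T q N (.inl a) (fun s => X ⟨.inl a, s⟩) = T x := by
        change T (fun s => prj K r (J s) (X ⟨.inl a, s⟩)) = T x
        congr 1
        funext s
        rw [hX]
        exact prj_inc _ _
      rw [h2]
      exact hx
    · have h2 : gB T q N (.inr w) (fun s => X ⟨.inr w, s⟩) = 1 := by
        have h3 : (fun s : Fin (r w.1) => prj K r w.1 (X ⟨.inr w, s⟩)) =
            (1 : Matrix (Fin (r w.1)) (Fin (r w.1)) K) := by
          have h4 : ∀ s : Fin (r w.1), prj K r w.1 (X ⟨.inr w, s⟩) = Pi.single s 1 := by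
            intro s
            rw [hX]
            exact prj_inc _ _
          funext s l
          rw [h4, Matrix.one_apply, Pi.single_apply]
          by_cases hsl : s = l
          · rw [if_pos hsl.symm, if_pos hsl]
          · rw [if_neg (Ne.symm hsl), if_neg hsl]
        exact (congrArg Matrix.det h3).trans Matrix.det_one
      rw [h2]
      exact one_ne_zero
  apply h1
  rw [h0]
  rfl

/-- the coordinates of the vectors of a flag -/
theorem coord_of_mem {V : Type} [AddCommGroup V] [Module K V] {n : ℕ}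
    (b : Module.Basis (Fin n) K V) {γ : Fin n → ℚ} {a : ℚ} {v : V}
    (hv : v ∈ Submodule.span K {v | ∃ j, γ j ≤ a ∧ v = b j}) {j : Fin n}
    (hj : b.coord j v ≠ 0) : γ j ≤ a := by
  classical
  induction hv using Submodule.span_induction with
  | mem x hx =>
    obtain ⟨i, hi, rfl⟩ := hx
    rw [Module.Basis.coord_apply, Module.Basis.repr_self] at hj
    by_cases hij : i = j
    · rw [← hij]
      exact hi
    · exact absurd (Finsupp.single_eq_of_ne (Ne.symm hij)) hj
  | zero => exact absurd (map_zero _) hj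
  | add x y _ _ hx hy =>
    rw [map_add] at hj
    by_cases h0 : b.coord j x = 0
    · rw [h0, zero_add] at hj
      exact hy hj
    · exact hx h0
  | smul c x _ hx =>
    rw [map_smul, smul_eq_mul] at hj
    exact hx (right_ne_zero_of_mul hj)

/-- the flag is not a sum of blocks -/
theorem gB_contra {J : Fin m → Fin k}
    {T : MultilinearMap K (fun s : Fin m => (Fin (r (J s)) → K)) K} {q : ℕ}
    {N : Fin k → ℕ} {n : ℕ} (b : Module.Basis (Fin n) K (((i : Fin k) × Fin (r i)) → K))
    {γ : Fin n → ℚ} (hvan : ∀ I : ((β : Fin q ⊕ ((i : Fin k) × Fin (N i))) ×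
      Fin (degB m q r N β)) → Fin n, ∑ z, γ (I z) < 1 → prodML (gB T q N) (fun z => b (I z)) = 0)
    {u : Fin k → ℚ} (hu : ∀ i v, inc K r i v ∈ Submodule.span K {v | ∃ j, γ j ≤ u i ∧ v = b j})
    (hu1 : ∑ z : ((β : Fin q ⊕ ((i : Fin k) × Fin (N i))) × Fin (degB m q r N β)),
      u (blB (J := J) z) < 1) : prodML (gB T q N) = 0 := by
  classical
  refine MultilinearMap.ext fun x => ?_
  rw [gB_congr T q N (x' := fun z => inc K r (blB (J := J) z) (prj K r (blB (J := J) z) (x z)))
    (fun z => by rw [prj_inc])]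
  have h1 : (fun z => inc K r (blB (J := J) z) (prj K r (blB (J := J) z) (x z))) =
      fun z => ∑ j, b.coord j (inc K r (blB (J := J) z) (prj K r (blB (J := J) z) (x z))) • b j :=
    funext fun z => (b.sum_repr _).symm
  rw [h1, MultilinearMap.map_sum]
  change _ = (0 : K)
  refine Finset.sum_eq_zero fun I _ => ?_
  rw [MultilinearMap.map_smul_univ]
  by_cases h0 : ∃ z, b.coord (I z)
      (inc K r (blB (J := J) z) (prj K r (blB (J := J) z) (x z))) = 0
  · obtain ⟨z, hz⟩ := h0
    rw [Finset.prod_eq_zero (Finset.mem_univ z) hz, zero_smul]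
  · push Not at h0
    rw [hvan I, smul_zero]
    refine lt_of_le_of_lt (Finset.sum_le_sum fun z _ => ?_) hu1
    exact coord_of_mem b (hu _ _) (h0 z)

/-- the sum of the weights of the arguments -/
theorem sum_blB {J : Fin m → Fin k} {q : ℕ} {N : Fin k → ℕ} {lam : ℕ}
    (hN : ∀ i, q * (Finset.univ.filter fun s => J s = i).card + r i * N i = lam * r i)
    {R : Type} [CommRing R] (u : Fin k → R) :
    ∑ z : ((β : Fin q ⊕ ((i : Fin k) × Fin (N i))) × Fin (degB m q r N β)),
      u (blB (J := J) z) = lam * ∑ i, r i * u i := by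
  classical
  rw [Fintype.sum_sigma, Fintype.sum_sum_type]
  have h1 : ∀ a : Fin q, ∑ s : Fin (degB m q r N (.inl a)), u (blB (J := J) ⟨.inl a, s⟩) =
      ∑ i, ((Finset.univ.filter fun s => J s = i).card : R) * u i := by
    intro a
    change ∑ s : Fin m, u (J s) = _
    rw [← Finset.sum_fiberwise Finset.univ J fun s => u (J s)]
    refine Finset.sum_congr rfl fun i _ => ?_
    rw [Finset.sum_congr rfl (g := fun _ => u i) (fun s hs => by
      rw [(Finset.mem_filter.1 hs).2]), Finset.sum_const, nsmul_eq_mul]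
  have h2 : ∀ w : (i : Fin k) × Fin (N i), ∑ s : Fin (degB m q r N (.inr w)),
      u (blB (J := J) ⟨.inr w, s⟩) = r w.1 * u w.1 := by
    intro w
    change ∑ _s : Fin (r w.1), u w.1 = _
    rw [Finset.sum_const, Finset.card_univ, Fintype.card_fin, nsmul_eq_mul]
  rw [Finset.sum_congr rfl fun a _ => h1 a, Finset.sum_congr rfl fun w _ => h2 w, Finset.sum_const,
    Finset.card_univ, Fintype.card_fin, nsmul_eq_mul, Fintype.sum_sigma, Finset.mul_sum,
    Finset.mul_sum, ← Finset.sum_add_distrib]
  refine Finset.sum_congr rfl fun i _ => ?_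
  have h4 : ∑ y : Fin (N i), ((r (⟨i, y⟩ : (i : Fin k) × Fin (N i)).1 : R) *
      u (⟨i, y⟩ : (i : Fin k) × Fin (N i)).1) = N i * (r i * u i) := by
    change ∑ _y : Fin (N i), ((r i : R) * u i) = _
    rw [Finset.sum_const, Finset.card_univ, Fintype.card_fin, nsmul_eq_mul]
  rw [h4]
  have h3 := congrArg (fun t : ℕ => (t : R)) (hN i)
  push_cast at h3
  linear_combination u i * h3

/-- a subspace which is invariant under the scaling is the sum of its components -/
theorem split_of_scl [CharZero K] {F : Submodule K (((i : Fin k) × Fin (r i)) → K)}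
    (h : ∀ z : Fin k → K, (∀ i, z i ≠ 0) → ∀ v ∈ F, scl K r z v ∈ F) {v} (hv : v ∈ F) (i : Fin k) :
    inc K r i (prj K r i v) ∈ F := by
  classical
  have h1 := h (fun j => if j = i then 2 else 1) (fun j => by
    split_ifs
    · exact two_ne_zero
    · exact one_ne_zero) v hv
  have h2 : inc K r i (prj K r i v) = scl K r (fun j => if j = i then 2 else 1) v - v := by
    funext x
    obtain ⟨j, l⟩ := x
    rw [Pi.sub_apply, scl_apply]
    change _ = (if j = i then (2 : K) else 1) * v ⟨j, l⟩ - v ⟨j, l⟩
    by_cases hj : j = i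
    · subst hj
      rw [inc_self, prj_apply, if_pos rfl]
      ring
    · rw [inc_ne hj, if_neg hj]
      ring
  rw [h2]
  exact F.sub_mem h1 hv

/-- **A basis adapted to the blocks.** -/
theorem split_basis {F : Submodule K (((i : Fin k) × Fin (r i)) → K)}
    (hF : ∀ v ∈ F, ∀ i, inc K r i (prj K r i v) ∈ F) {s : ℕ}
    {b : Fin s → (((i : Fin k) × Fin (r i)) → K)} (hb : LinearIndependent K b)
    (hbF : Submodule.span K (Set.range b) = F) {sd : Fin k → ℕ}
    {c : (i : Fin k) → Matrix (Fin (sd i)) (Fin (r i)) K}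
    (hc : ∀ i, LinearIndependent K fun l => c i l)
    (hcF : ∀ i, Submodule.span K (Set.range fun l => c i l) = F.map (prj K r i)) :
    ∃ (es : Fin s ≃ ((i : Fin k) × Fin (sd i))) (g : Matrix (Fin s) (Fin s) K), g.det ≠ 0 ∧
      ∀ a, b a = ∑ a', g a a' • inc K r (es a').1 (c (es a').1 (es a').2) := by
  classical
  obtain ⟨w, hw⟩ : ∃ w : ((i : Fin k) × Fin (sd i)) → (((i : Fin k) × Fin (r i)) → K),
      w = fun x => inc K r x.1 (c x.1 x.2) := ⟨_, rfl⟩
  have hwli : LinearIndependent K w := by
    rw [Fintype.linearIndependent_iff]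
    intro a ha x
    obtain ⟨i, l⟩ := x
    refine Fintype.linearIndependent_iff.1 (hc i) (fun l => a ⟨i, l⟩) ?_ l
    have h1 := congrArg (prj K r i) ha
    rw [map_sum, map_zero, Fintype.sum_sigma, Finset.sum_eq_single i] at h1
    · rw [← h1]
      refine Finset.sum_congr rfl fun l _ => ?_
      rw [map_smul, hw]
      change _ = a ⟨i, l⟩ • prj K r i (inc K r i (c i l))
      rw [prj_inc]
    · intro j _ hj
      refine Finset.sum_eq_zero fun l _ => ?_
      rw [map_smul, hw]
      change a ⟨j, l⟩ • prj K r i (inc K r j (c j l)) = 0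
      rw [prj_inc_ne (Ne.symm hj), smul_zero]
    · intro h
      exact absurd (Finset.mem_univ _) h
  have hwF : Submodule.span K (Set.range w) = F := by
    apply le_antisymm
    · rw [Submodule.span_le]
      rintro _ ⟨⟨i, l⟩, rfl⟩
      have h1 : c i l ∈ F.map (prj K r i) := by
        rw [← hcF i]
        exact Submodule.subset_span ⟨l, rfl⟩
      obtain ⟨v, hv, hvc⟩ := h1
      have h2 := hF v hv i
      rw [hvc] at h2
      rw [hw]
      exact h2
    · intro v hv
      rw [← sum_inc v]
      refine Submodule.sum_mem _ fun i _ => ?_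
      have h1 : prj K r i v ∈ Submodule.span K (Set.range fun l => c i l) := by
        rw [hcF i]
        exact Submodule.mem_map_of_mem hv
      obtain ⟨a, ha⟩ := (Submodule.mem_span_range_iff_exists_fun K).1 h1
      rw [← ha, map_sum]
      refine Submodule.sum_mem _ fun l _ => ?_
      rw [map_smul]
      refine Submodule.smul_mem _ _ (Submodule.subset_span ⟨⟨i, l⟩, ?_⟩)
      rw [hw]
  have hcard : s = Fintype.card ((i : Fin k) × Fin (sd i)) := by
    have h1 : Module.finrank K F = s := card_of_span hb hbF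
    have h2 : Module.finrank K F = Fintype.card ((i : Fin k) × Fin (sd i)) := by
      rw [← hwF, finrank_span_eq_card hwli]
    rw [← h1, h2]
  obtain ⟨es⟩ : Nonempty (Fin s ≃ ((i : Fin k) × Fin (sd i))) :=
    Fintype.card_eq.1 (by rw [Fintype.card_fin]; exact hcard)
  obtain ⟨g, hg, hbg⟩ := basis_change (B := w ∘ es) hb (by
    rw [hbF, ← hwF, Set.range_comp, es.surjective.range_eq, Set.image_univ])
  refine ⟨es, g, hg, fun a => ?_⟩
  rw [hbg a]
  refine Finset.sum_congr rfl fun a' _ => ?_
  rw [hw]
  rfl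

/-- the rows of a block diagonal matrix -/
theorem bd_row {sd : Fin k → ℕ} (c : (i : Fin k) → Matrix (Fin (sd i)) (Fin (r i)) K)
    (i : Fin k) (l : Fin (sd i)) : Matrix.blockDiagonal' c ⟨i, l⟩ = inc K r i (c i l) := by
  classical
  funext x
  obtain ⟨j, l'⟩ := x
  by_cases hj : i = j
  · subst hj
    rw [inc_self]
    exact Matrix.blockDiagonal'_apply_eq c i l l'
  · rw [inc_ne (Ne.symm hj)]
    exact Matrix.blockDiagonal'_apply_ne c l l' hj

/-- **The minors of a flag.** -/
theorem bd_minor {s : ℕ} {sd : Fin k → ℕ} {c : (i : Fin k) → Matrix (Fin (sd i)) (Fin (r i)) K}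
    {b : Fin s → (((i : Fin k) × Fin (r i)) → K)} (es : Fin s ≃ ((i : Fin k) × Fin (sd i)))
    {g : Matrix (Fin s) (Fin s) K}
    (hb : ∀ a, b a = ∑ a', g a a' • inc K r (es a').1 (c (es a').1 (es a').2))
    (U : (i : Fin k) → Matrix (Fin (r i)) (Fin (r i)) K) (I : (i : Fin k) → Fin (sd i) → Fin (r i)) :
    (Matrix.of fun a a' => ∑ x, b a x *
      Matrix.blockDiagonal' U x ⟨(es a').1, I (es a').1 (es a').2⟩).det =
      g.det * ∏ i, ((c i * U i).submatrix id (I i)).det := by
  classical
  have h1 : (Matrix.of fun a a' => ∑ x, b a x *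
      Matrix.blockDiagonal' U x ⟨(es a').1, I (es a').1 (es a').2⟩) =
      g * ((Matrix.blockDiagonal' fun i => (c i * U i).submatrix id (I i)).submatrix es es) := by
    ext a a'
    rw [Matrix.of_apply, Matrix.mul_apply]
    have h2 : ∀ x, b a x = ∑ a'', g a a'' * Matrix.blockDiagonal' c (es a'') x := by
      intro x
      rw [hb a, Finset.sum_apply]
      refine Finset.sum_congr rfl fun a'' _ => ?_
      rw [Pi.smul_apply, smul_eq_mul, ← bd_row]
    simp only [h2, Finset.sum_mul]
    rw [Finset.sum_comm]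
    refine Finset.sum_congr rfl fun a'' _ => ?_
    simp only [mul_assoc]
    rw [← Finset.mul_sum]
    congr 1
    have h3 := congrFun (congrFun (Matrix.blockDiagonal'_mul c U) (es a''))
      ⟨(es a').1, I (es a').1 (es a').2⟩
    rw [Matrix.mul_apply] at h3
    rw [← h3]
    have key : ∀ x y : (i : Fin k) × Fin (sd i), Matrix.blockDiagonal' (fun i => c i * U i) x
        ⟨y.1, I y.1 y.2⟩ =
        Matrix.blockDiagonal' (fun i => (c i * U i).submatrix id (I i)) x y := by
      rintro ⟨i, l⟩ ⟨j, l'⟩
      by_cases hij : i = j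
      · subst hij
        rw [Matrix.blockDiagonal'_apply_eq, Matrix.blockDiagonal'_apply_eq]
        rfl
      · rw [Matrix.blockDiagonal'_apply_ne _ _ _ hij, Matrix.blockDiagonal'_apply_ne _ _ _ hij]
    exact key _ _
  rw [h1, Matrix.det_mul, Matrix.det_submatrix_equiv_self, det_bd]

end

end Pool.Agent.H897
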