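import Pool.Agent.H897.JB

/-!
The degrees of the members of a flag which is a sum of flags of stable blocks.
-/

set_option autoImplicit false
set_option linter.overlappingInstances false
set_option linter.unusedSectionVars false

open MvPolynomial FF Pool.Agent.W602.GT Pool.Agent.Y172 Pool.Agent.NH31 Pool.Agent.W603.LV
open Pool.Agent.N133.TB Pool.Agent.Y174 Pool.Agent.TH466.QG

namespace Pool.Agent.H897

section

variable {K : Type} [Field K] [Algebra ℂ K] {N : ℕ} {y : Fin (N + 1) → K}

theorem hasDeg_sum' {α : Place ℂ K → ℝ} {ι : Type} (S : Finset ι) {e : ι → Place ℂ K → ℝ}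
    {s : ι → ℝ} (h : ∀ k ∈ S, HasDeg y α (e k) (s k)) :
    HasDeg y α (fun P => ∑ k ∈ S, e k P) (∑ k ∈ S, s k) := by
  classical
  induction S using Finset.induction_on with
  | empty => simpa using hasDeg_zero α
  | insert k S hk ih =>
    have h1 := (h k (Finset.mem_insert_self _ _)).add
      (ih fun k hk => h k (Finset.mem_insert_of_mem hk))
    rw [Finset.sum_insert hk]
    exact h1.congr fun P _ => by rw [Finset.sum_insert hk]

/-- stability of the blocks: the subspaces with the matrices `c` have small degree -/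
def BlkStable (y : Fin (N + 1) → K) (α : Place ℂ K → ℝ) {k : ℕ} {r : Fin k → ℕ}
    (U : Place ℂ K → (i : Fin k) → Matrix (Fin (r i)) (Fin (r i)) K)
    (nu : Place ℂ K → (i : Fin k) → Fin (r i) → ℝ) (dg : Fin k → ℝ) : Prop :=
  ∀ (i : Fin k) (s : ℕ) (c : Matrix (Fin s) (Fin (r i)) K), 1 ≤ s → s < r i →
    LinearIndependent K (fun j => c j) → ∃ (e : Place ℂ K → ℝ) (d : ℝ), HasDeg y α e d ∧
      r i * d < s * dg i ∧ ∀ P, IsPrimeDivisor y P → ∃ I : Fin s → Fin (r i),
        ((c * (U P i)⁻¹).submatrix id I).det ≠ 0 ∧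
        P.ord ((c * (U P i)⁻¹).submatrix id I).det + ∑ j, nu P i (I j) ≤ e P

/-- all subspaces of a stable block -/
theorem blk_all {α : Place ℂ K → ℝ} (hα : MovableClass y α) {k : ℕ} {r : Fin k → ℕ}
    {U : Place ℂ K → (i : Fin k) → Matrix (Fin (r i)) (Fin (r i)) K}
    (hU : ∀ P, IsPrimeDivisor y P → ∀ i, (U P i).det = 1)
    {nu : Place ℂ K → (i : Fin k) → Fin (r i) → ℝ} {dg : Fin k → ℝ}
    (hdg : ∀ i, HasDeg y α (fun P => ∑ l, nu P i l) (dg i)) (hst : BlkStable y α U nu dg)
    (i : Fin k) {s : ℕ} {c : Matrix (Fin s) (Fin (r i)) K}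
    (hc : LinearIndependent K fun j => c j) :
    ∃ (e : Place ℂ K → ℝ) (d : ℝ), HasDeg y α e d ∧
      r i * d ≤ s * dg i ∧ (r i * d = s * dg i → s = 0 ∨ s = r i) ∧
      ∀ P, IsPrimeDivisor y P → ∃ I : Fin s → Fin (r i),
        ((c * (U P i)⁻¹).submatrix id I).det ≠ 0 ∧
        P.ord ((c * (U P i)⁻¹).submatrix id I).det + ∑ j, nu P i (I j) ≤ e P := by
  classical
  have hsr : s ≤ r i := by
    have h1 := hc.fintype_card_le_finrank
    rw [Fintype.card_fin, Module.finrank_fin_fun] at h1
    exact h1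
  rcases Nat.eq_zero_or_pos s with rfl | hs
  · refine ⟨fun _ => 0, 0, hasDeg_zero α, by simp, fun _ => Or.inl rfl,
      fun P hP => ⟨fun j => j.elim0, ?_, ?_⟩⟩
    · rw [Matrix.det_isEmpty]
      exact one_ne_zero
    · rw [Matrix.det_isEmpty, P.ord_one]
      simp
  rcases eq_or_lt_of_le hsr with h | h
  · obtain ⟨ri, hri⟩ : ∃ ri, ri = r i := ⟨_, rfl⟩
    obtain ⟨c', hc'⟩ : ∃ c' : Matrix (Fin (r i)) (Fin (r i)) K,
        c' = c.submatrix (Fin.cast h.symm) id := ⟨_, rfl⟩
    have hc'0 : c'.det ≠ 0 := by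
      intro h0
      obtain ⟨v, hv0, hv⟩ := Matrix.exists_vecMul_eq_zero_iff.2 h0
      apply hv0
      funext j
      have h1 := Fintype.linearIndependent_iff.1 hc (fun j => v (Fin.cast h j)) (by
        funext l
        rw [Finset.sum_apply, Pi.zero_apply]
        simp only [Pi.smul_apply, smul_eq_mul]
        have h2 := congrFun hv l
        rw [Matrix.vecMul, dotProduct, Pi.zero_apply] at h2
        rw [← h2, ← Equiv.sum_comp (finCongr h)]
        refine Finset.sum_congr rfl fun j _ => ?_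
        rw [hc']
        rfl) (Fin.cast h.symm j)
      exact h1
    refine ⟨fun P => (P.ord c'.det : ℝ) + ∑ l, nu P i l, 0 + dg i, (hα.prin _ hc'0).add (hdg i), ?_,
      fun _ => Or.inr h, fun P hP => ⟨Fin.cast h, ?_⟩⟩
    · rw [h, zero_add]
    · have h1 : ((c * (U P i)⁻¹).submatrix id (Fin.cast h)).det = c'.det := by
        have h2 : (c * (U P i)⁻¹).submatrix id (Fin.cast h) =
            (c' * (U P i)⁻¹).submatrix (finCongr h) (finCongr h) := by
          ext a b
          rw [Matrix.submatrix_apply, Matrix.submatrix_apply, Matrix.mul_apply, Matrix.mul_apply,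
            hc']
          rfl
        rw [h2, Matrix.det_submatrix_equiv_self, Matrix.det_mul, Matrix.det_nonsing_inv, hU P hP i,
          Ring.inverse_one, mul_one]
      rw [h1]
      refine ⟨hc'0, le_of_eq ?_⟩
      congr 1
      exact Equiv.sum_comp (finCongr h) (nu P i)
  · obtain ⟨e, d, h1, h2, h3⟩ := hst i s c hs h hc
    exact ⟨e, d, h1, h2.le, fun h4 => absurd h4 h2.ne, h3⟩

/-- the normalised norms -/
noncomputable def nrm {k : ℕ} {r : Fin k → ℕ} (nu : Place ℂ K → (i : Fin k) → Fin (r i) → ℝ)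
    (P : Place ℂ K) (x : (i : Fin k) × Fin (r i)) : ℝ := nu P x.1 x.2 - (∑ l, nu P x.1 l) / r x.1

/-- **The degree of a sum of subspaces of stable blocks.** -/
theorem level_bound {α : Place ℂ K → ℝ} (hα : MovableClass y α) {k : ℕ} {r : Fin k → ℕ}
    (hr : ∀ i, 1 ≤ r i)
    {U : Place ℂ K → (i : Fin k) → Matrix (Fin (r i)) (Fin (r i)) K}
    (hU : ∀ P, IsPrimeDivisor y P → ∀ i, (U P i).det = 1)
    {nu : Place ℂ K → (i : Fin k) → Fin (r i) → ℝ} {dg : Fin k → ℝ}
    (hdg : ∀ i, HasDeg y α (fun P => ∑ l, nu P i l) (dg i)) (hst : BlkStable y α U nu dg)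
    {F : Submodule K (((i : Fin k) × Fin (r i)) → K)}
    (hF : ∀ v ∈ F, ∀ i, inc K r i (prj K r i v) ∈ F) {s : ℕ}
    {b : Fin s → (((i : Fin k) × Fin (r i)) → K)} (hb : LinearIndependent K b)
    (hbF : Submodule.span K (Set.range b) = F) :
    ∃ (e : Place ℂ K → ℝ) (d : ℝ), HasDeg y α e d ∧ d ≤ 0 ∧
      (d = 0 → ∀ i, F.map (prj K r i) = ⊥ ∨ F.map (prj K r i) = ⊤) ∧
      ∀ P, IsPrimeDivisor y P → ∃ x : Fin s → ((i : Fin k) × Fin (r i)),
        (Matrix.of fun a a' => ∑ z, b a z *
          Matrix.blockDiagonal' (fun i => (U P i)⁻¹) z (x a')).det ≠ 0 ∧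
        P.ord (Matrix.of fun a a' => ∑ z, b a z *
          Matrix.blockDiagonal' (fun i => (U P i)⁻¹) z (x a')).det + ∑ a, nrm nu P (x a) ≤ e P := by
  classical
  have hbase : ∀ i, ∃ (sd : ℕ) (c : Matrix (Fin sd) (Fin (r i)) K),
      (LinearIndependent K fun l => c l) ∧
      Submodule.span K (Set.range fun l => c l) = F.map (prj K r i) := by
    intro i
    refine ⟨Module.finrank K (F.map (prj K r i)), Matrix.of fun l =>
      ((Module.finBasis K (F.map (prj K r i)) l : F.map (prj K r i)) : Fin (r i) → K), ?_, ?_⟩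
    · exact (Module.finBasis K (F.map (prj K r i))).linearIndependent.map'
        (F.map (prj K r i)).subtype (Submodule.ker_subtype _)
    · have h1 := congrArg (Submodule.map (F.map (prj K r i)).subtype)
        (Module.finBasis K (F.map (prj K r i))).span_eq
      rw [Submodule.map_span, Submodule.map_subtype_top, ← Set.range_comp] at h1
      exact h1
  choose sd c hc hcF using hbase
  obtain ⟨es, g, hg, hbg⟩ := split_basis hF hb hbF hc hcF
  choose e d he hd hd0 hI using fun i => blk_all hα hU hdg hst i (hc i)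
  have hrR : ∀ i, (0 : ℝ) < r i := fun i => by exact_mod_cast hr i
  have hterm : ∀ i, d i + (-sd i) * (((r i : ℝ)⁻¹) * dg i) ≤ 0 := by
    intro i
    have h1 : d i + (-sd i) * (((r i : ℝ)⁻¹) * dg i) = (r i * d i - sd i * dg i) / r i := by
      have := (hrR i).ne'
      field_simp
      ring
    rw [h1]
    exact div_nonpos_of_nonpos_of_nonneg (by linarith [hd i]) (hrR i).le
  refine ⟨fun P => (P.ord g.det : ℝ) + ∑ i, (e i P + (-sd i) * (((r i : ℝ)⁻¹) * ∑ l, nu P i l)),
    0 + ∑ i, (d i + (-sd i) * (((r i : ℝ)⁻¹) * dg i)),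
    (hα.prin _ hg).add (hasDeg_sum' Finset.univ
      (e := fun i P => e i P + (-sd i) * (((r i : ℝ)⁻¹) * ∑ l, nu P i l))
      (s := fun i => d i + (-sd i) * (((r i : ℝ)⁻¹) * dg i)) fun i _ =>
      (he i).add (((hdg i).smul _).smul _)), ?_, fun h0 i => ?_, fun P hP => ?_⟩
  · rw [zero_add]
    exact Finset.sum_nonpos fun i _ => hterm i
  · rw [zero_add] at h0
    have h1 := (Finset.sum_eq_zero_iff_of_nonpos fun i _ => hterm i).1 h0 i (Finset.mem_univ i)
    have h2 : r i * d i = sd i * dg i := by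
      have h3 : d i + (-sd i) * (((r i : ℝ)⁻¹) * dg i) = (r i * d i - sd i * dg i) / r i := by
        have := (hrR i).ne'
        field_simp
        ring
      rw [h3, div_eq_zero_iff] at h1
      rcases h1 with h1 | h1
      · linarith
      · exact absurd h1 (hrR i).ne'
    have h3 : Module.finrank K (F.map (prj K r i)) = sd i := card_of_span (hc i) (hcF i)
    rcases hd0 i h2 with h4 | h4
    · left
      rw [h4] at h3
      exact Submodule.finrank_eq_zero.1 h3
    · right
      apply Submodule.eq_top_of_finrank_eq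
      rw [h3, h4, Module.finrank_fin_fun]
  · choose I hI1 hI2 using fun i => hI i P hP
    have hdet := bd_minor es hbg (fun i => (U P i)⁻¹) I
    refine ⟨fun a => ⟨(es a).1, I (es a).1 (es a).2⟩, ?_, ?_⟩
    · rw [hdet]
      exact mul_ne_zero hg (Finset.prod_ne_zero_iff.2 fun i _ => hI1 i)
    · rw [hdet, P.ord_mul hg (Finset.prod_ne_zero_iff.2 fun i _ => hI1 i)]
      have h1 : (P.ord (∏ i, ((c i * (U P i)⁻¹).submatrix id (I i)).det) : ℝ) =
          ∑ i, (P.ord ((c i * (U P i)⁻¹).submatrix id (I i)).det : ℝ) := by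
        have key : ∀ S : Finset (Fin k),
            P.ord (∏ i ∈ S, ((c i * (U P i)⁻¹).submatrix id (I i)).det) =
            ∑ i ∈ S, P.ord ((c i * (U P i)⁻¹).submatrix id (I i)).det := by
          intro S
          induction S using Finset.induction_on with
          | empty => simp [P.ord_one]
          | insert i S hi ih =>
            rw [Finset.prod_insert hi, Finset.sum_insert hi, P.ord_mul (hI1 i)
              (Finset.prod_ne_zero_iff.2 fun i _ => hI1 i), ih]
        rw [key]
        push_cast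
        rfl
      have h2 : ∑ a, nrm nu P ((fun a => ⟨(es a).1, I (es a).1 (es a).2⟩ :
          Fin s → ((i : Fin k) × Fin (r i))) a) =
          ∑ i, (∑ l, nu P i (I i l) + (-sd i) * (((r i : ℝ)⁻¹) * ∑ l, nu P i l)) := by
        have h3 := Equiv.sum_comp es
          (fun z : (i : Fin k) × Fin (sd i) => nrm nu P ⟨z.1, I z.1 z.2⟩)
        refine Eq.trans h3 ?_
        rw [Fintype.sum_sigma]
        refine Finset.sum_congr rfl fun i _ => ?_
        change ∑ x : Fin (sd i), (nu P i (I i x) - (∑ l, nu P i l) / r i) = _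
        rw [Finset.sum_sub_distrib, Finset.sum_const, Finset.card_univ, Fintype.card_fin,
          nsmul_eq_mul]
        ring
      rw [h2]
      push_cast
      rw [h1]
      have h3 : ∑ i, ((P.ord ((c i * (U P i)⁻¹).submatrix id (I i)).det : ℝ) +
          (∑ l, nu P i (I i l) + (-sd i) * (((r i : ℝ)⁻¹) * ∑ l, nu P i l))) ≤
          ∑ i, (e i P + (-sd i) * (((r i : ℝ)⁻¹) * ∑ l, nu P i l)) :=
        Finset.sum_le_sum fun i _ => by linarith [hI2 i]
      rw [Finset.sum_add_distrib] at h3
      linarith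

end

end Pool.Agent.H897
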