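import Pool.Agent.H897.JC

/-!
Local estimates for products of forms on blocks; flags which are sums of blocks.
-/

set_option autoImplicit false
set_option linter.overlappingInstances false
set_option linter.unusedSectionVars false

open MvPolynomial FF Pool.Agent.W602.GT Pool.Agent.Y172 Pool.Agent.NH31 Pool.Agent.W603.LV
open Pool.Agent.N133.TB Pool.Agent.Y174 Pool.Agent.TH466.QG

namespace Pool.Agent.H897

section

variable {K : Type} [Field K] [Algebra ℂ K]

theorem blk_of_eq {k : ℕ} {r : Fin k → ℕ} {i : Fin k} {x : (i : Fin k) × Fin (r i)} (h : x.1 = i) :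
    ∃ l : Fin (r i), x = ⟨i, l⟩ := by
  obtain ⟨j, l⟩ := x
  change j = i at h
  subst h
  exact ⟨l, rfl⟩

/-- the order of the volume form of a block -/
theorem vol_local {P : Place ℂ K} {k : ℕ} {r : Fin k → ℕ} (hr : ∀ i, 1 ≤ r i)
    {U : (i : Fin k) → Matrix (Fin (r i)) (Fin (r i)) K} (hU : ∀ i, (U i).det = 1)
    (nu : Place ℂ K → (i : Fin k) → Fin (r i) → ℝ) (i : Fin k)
    (x : Fin (r i) → ((i : Fin k) × Fin (r i))) :
    GeR P (∑ s, nrm nu P (x s))
      (Matrix.det fun s => prj K r i (Matrix.blockDiagonal' U (x s))) := by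
  classical
  by_cases h : ∃ s, (x s).1 ≠ i
  · obtain ⟨s, hs⟩ := h
    left
    refine Matrix.det_eq_zero_of_row_eq_zero s fun l => ?_
    have h1 : prj K r i (Matrix.blockDiagonal' U (x s)) = 0 := by
      have h2 : Matrix.blockDiagonal' U (x s) = inc K r (x s).1 (U (x s).1 (x s).2) :=
        bd_row U (x s).1 (x s).2
      rw [h2, prj_inc_ne (Ne.symm hs)]
    rw [h1]
    rfl
  · push Not at h
    choose I hI using fun s => blk_of_eq (h s)
    have h1 : (fun s => prj K r i (Matrix.blockDiagonal' U (x s))) = fun s => U i (I s) := by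
      funext s
      rw [hI s]
      have h2 : Matrix.blockDiagonal' U ⟨i, I s⟩ = inc K r i (U i (I s)) := bd_row U i (I s)
      rw [h2, prj_inc]
    have h2 : Matrix.det (fun s => prj K r i (Matrix.blockDiagonal' U (x s))) =
        ((U i).submatrix I id).det := by
      rw [h1]
      rfl
    rw [h2]
    by_cases hinj : Function.Injective I
    · obtain ⟨σ, hσ⟩ : ∃ σ : Equiv.Perm (Fin (r i)), ⇑σ = I :=
        ⟨Equiv.ofBijective I (Finite.injective_iff_bijective.1 hinj), rfl⟩
      right
      rw [← hσ, Matrix.det_permute, hU i, mul_one]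
      have h9 : P.ord (((Equiv.Perm.sign σ : ℤˣ) : ℤ) : K) = 0 := by
        have h10 : (((Equiv.Perm.sign σ : ℤˣ) : ℤ) : K) =
            algebraMap ℂ K (((Equiv.Perm.sign σ : ℤˣ) : ℤ) : ℂ) := by rw [map_intCast]
        rw [h10]
        refine P.ord_const ?_
        rcases Int.units_eq_one_or (Equiv.Perm.sign σ) with h11 | h11
        · rw [h11]
          simp
        · rw [h11]
          simp
      rw [h9]
      have h3 : ∑ s, nrm nu P (x s) = 0 := by
        have h4 : ∑ s, nrm nu P (x s) = ∑ s, nrm nu P ⟨i, σ s⟩ :=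
          Finset.sum_congr rfl fun s _ => by rw [hI s, hσ]
        rw [h4, Equiv.sum_comp σ fun l => nrm nu P ⟨i, l⟩]
        change ∑ l : Fin (r i), (nu P i l - (∑ l, nu P i l) / r i) = 0
        rw [Finset.sum_sub_distrib, Finset.sum_const, Finset.card_univ, Fintype.card_fin,
          nsmul_eq_mul]
        have : (r i : ℝ) ≠ 0 := by
          have := hr i
          have h5 : r i ≠ 0 := by omega
          exact_mod_cast h5
        field_simp
        ring
      rw [h3]
      simp
    · left
      rw [Function.Injective] at hinj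
      push Not at hinj
      obtain ⟨s, s', hss, hne⟩ := hinj
      refine Matrix.det_zero_of_row_eq hne ?_
      funext l
      rw [Matrix.submatrix_apply, Matrix.submatrix_apply, hss]

/-- **The local estimate** of the product. -/
theorem gB_local {P : Place ℂ K} {k m : ℕ} {r : Fin k → ℕ} (hr : ∀ i, 1 ≤ r i)
    {J : Fin m → Fin k} {T : MultilinearMap K (fun s : Fin m => (Fin (r (J s)) → K)) K}
    {U : (i : Fin k) → Matrix (Fin (r i)) (Fin (r i)) K} (hU : ∀ i, (U i).det = 1)
    {nu : Place ℂ K → (i : Fin k) → Fin (r i) → ℝ} {l : ℝ}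
    (hT : ∀ I : (s : Fin m) → Fin (r (J s)), GeR P (∑ s, nu P (J s) (I s) - l)
      (T fun s => U (J s) (I s))) {q : ℕ} {N : Fin k → ℕ}
    (x : ((β : Fin q ⊕ ((i : Fin k) × Fin (N i))) × Fin (degB m q r N β)) →
      ((i : Fin k) × Fin (r i))) :
    GeR P (∑ z, nrm nu P (x z) - q * (l - ∑ s, (∑ l, nu P (J s) l) / r (J s)))
      (prodML (gB T q N) fun z => Matrix.blockDiagonal' U (x z)) := by
  classical
  rw [prodML_apply]
  have h1 := geR_prod' (P := P) (fun β : Fin q ⊕ ((i : Fin k) × Fin (N i)) =>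
    ∑ s, nrm nu P (x ⟨β, s⟩) - Sum.elim (fun _ : Fin q => l - ∑ s, (∑ l, nu P (J s) l) / r (J s))
      (fun _ : (i : Fin k) × Fin (N i) => (0 : ℝ)) β)
    (fun β => gB T q N β fun s => Matrix.blockDiagonal' U (x ⟨β, s⟩)) (by
      intro β
      rcases β with a | w
      · change GeR P (∑ s : Fin m, nrm nu P (x ⟨.inl a, s⟩) -
          (l - ∑ s, (∑ l, nu P (J s) l) / r (J s)))
          (T fun s => prj K r (J s) (Matrix.blockDiagonal' U (x ⟨.inl a, s⟩)))
        by_cases h : ∃ s : Fin m, (x ⟨.inl a, s⟩).1 ≠ J s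
        · obtain ⟨s, hs⟩ := h
          left
          refine MultilinearMap.map_coord_zero _ s ?_
          have h2 : Matrix.blockDiagonal' U (x ⟨.inl a, s⟩) =
              inc K r (x ⟨.inl a, s⟩).1 (U (x ⟨.inl a, s⟩).1 (x ⟨.inl a, s⟩).2) :=
            bd_row U (x ⟨.inl a, s⟩).1 (x ⟨.inl a, s⟩).2
          rw [h2, prj_inc_ne (Ne.symm hs)]
        · push Not at h
          choose I hI using fun s : Fin m => blk_of_eq (h s)
          have h1 : (fun s => prj K r (J s) (Matrix.blockDiagonal' U (x ⟨.inl a, s⟩))) =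
              fun s => U (J s) (I s) := by
            funext s
            rw [hI s]
            have h2 : Matrix.blockDiagonal' U ⟨J s, I s⟩ = inc K r (J s) (U (J s) (I s)) :=
              bd_row U (J s) (I s)
            rw [h2, prj_inc]
          rw [h1]
          refine (hT I).mono (le_of_eq ?_)
          have h3 : ∑ s : Fin m, nrm nu P (x ⟨.inl a, s⟩) =
              ∑ s, (nu P (J s) (I s) - (∑ l, nu P (J s) l) / r (J s)) := by
            refine Finset.sum_congr rfl fun s _ => ?_
            rw [hI s]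
            rfl
          rw [h3, Finset.sum_sub_distrib]
          ring
      · change GeR P (∑ s : Fin (r w.1), nrm nu P (x ⟨.inr w, s⟩) - 0)
          (Matrix.det fun s => prj K r w.1 (Matrix.blockDiagonal' U (x ⟨.inr w, s⟩)))
        rw [sub_zero]
        exact vol_local hr hU nu w.1 fun s => x ⟨.inr w, s⟩)
  refine h1.mono (le_of_eq ?_)
  rw [Finset.sum_sub_distrib, Fintype.sum_sigma]
  congr 1
  rw [Fintype.sum_sum_type]
  simp only [Sum.elim_inl, Sum.elim_inr, Finset.sum_const_zero, add_zero, Finset.sum_const,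
    Finset.card_univ, Fintype.card_fin, nsmul_eq_mul]

end

section

variable {K : Type} [Field K]

/-- the levels of a monotone weight -/
theorem level_lt {n : ℕ} {γ : Fin n → ℚ} (hγ : Monotone γ) (a : ℚ) :
    ∃ s, s ≤ n ∧ (Finset.univ.filter fun j => γ j ≤ a).card = s ∧ ∀ j, γ j ≤ a ↔ (j : ℕ) < s := by
  classical
  refine ⟨(Finset.univ.filter fun j => γ j ≤ a).card, ?_, rfl, fun j => ⟨fun hj => ?_, fun hj => ?_⟩⟩
  · have h1 := Finset.card_filter_le (Finset.univ : Finset (Fin n)) fun j => γ j ≤ a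
    rwa [Finset.card_univ, Fintype.card_fin] at h1
  · have h1 : (Finset.univ.filter fun i => i ≤ j) ⊆ Finset.univ.filter fun i => γ i ≤ a := by
      intro i hi
      rw [Finset.mem_filter] at hi ⊢
      exact ⟨Finset.mem_univ _, (hγ hi.2).trans hj⟩
    have h2 := Finset.card_le_card h1
    have h3 : (Finset.univ.filter fun i : Fin n => i ≤ j).card = j + 1 := by
      have : (Finset.univ.filter fun i : Fin n => i ≤ j) = Finset.Iic j := by
        ext i
        simp
      rw [this, Fin.card_Iic]
    omega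
  · by_contra hcon
    have h1 : (Finset.univ.filter fun i => γ i ≤ a) ⊆ Finset.univ.filter fun i => i < j := by
      intro i hi
      rw [Finset.mem_filter] at hi ⊢
      refine ⟨Finset.mem_univ _, ?_⟩
      by_contra hij
      push Not at hij
      exact hcon ((hγ hij).trans hi.2)
    have h2 := Finset.card_le_card h1
    have h3 : (Finset.univ.filter fun i : Fin n => i < j).card = j := by
      have : (Finset.univ.filter fun i : Fin n => i < j) = Finset.Iio j := by
        ext i
        simp
      rw [this, Fin.card_Iio]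
    omega

/-- **A flag of sums of blocks is trivial.** -/
theorem flag_contra {k m : ℕ} {r : Fin k → ℕ} (hr : ∀ i, 1 ≤ r i) {J : Fin m → Fin k}
    {T : MultilinearMap K (fun s : Fin m => (Fin (r (J s)) → K)) K} (hT : T ≠ 0) {q lam : ℕ}
    {N : Fin k → ℕ}
    (hN : ∀ i, q * (Finset.univ.filter fun s => J s = i).card + r i * N i = lam * r i) {n : ℕ}
    (ne : ((i : Fin k) × Fin (r i)) ≃ Fin n)
    (b : Module.Basis (Fin n) K (((i : Fin k) × Fin (r i)) → K)) {γ : Fin n → ℚ}
    (hγ : Monotone γ) (hγ0 : ∑ j, γ j = 0)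
    (hvan : ∀ I : ((β : Fin q ⊕ ((i : Fin k) × Fin (N i))) ×
      Fin (degB m q r N β)) → Fin n, ∑ z, γ (I z) < 1 → prodML (gB T q N) (fun z => b (I z)) = 0)
    (hsplit : ∀ (a : ℚ), ∀ v ∈ Submodule.span K {v | ∃ j, γ j ≤ a ∧ v = b j}, ∀ i,
      inc K r i (prj K r i v) ∈ Submodule.span K {v | ∃ j, γ j ≤ a ∧ v = b j})
    (hall : ∀ (a : ℚ) i, (Submodule.span K {v | ∃ j, γ j ≤ a ∧ v = b j}).map (prj K r i) = ⊥ ∨
      (Submodule.span K {v | ∃ j, γ j ≤ a ∧ v = b j}).map (prj K r i) = ⊤) : False := by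
  classical
  obtain ⟨F, hF⟩ : ∃ F : ℚ → Submodule K (((i : Fin k) × Fin (r i)) → K),
    F = fun a => Submodule.span K {v | ∃ j, γ j ≤ a ∧ v = b j} := ⟨_, rfl⟩
  have hFa : ∀ a, F a = Submodule.span K {v | ∃ j, γ j ≤ a ∧ v = b j} := fun a => by rw [hF]
  simp only [← hFa] at hsplit hall
  -- the two cases
  have hcase : ∀ a i, (∀ w, inc K r i w ∈ F a) ∨ ∀ v ∈ F a, prj K r i v = 0 := by
    intro a i
    rcases hall a i with h | h
    · right
      intro v hv
      have h1 : prj K r i v ∈ (F a).map (prj K r i) := Submodule.mem_map_of_mem hv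
      rw [h] at h1
      exact (Submodule.mem_bot K).1 h1
    · left
      intro w
      have h1 : w ∈ (F a).map (prj K r i) := by
        rw [h]
        exact Submodule.mem_top
      obtain ⟨v, hv, hvw⟩ := h1
      rw [← hvw]
      exact hsplit a v hv i
  have hmono : ∀ a a', a ≤ a' → F a ≤ F a' := by
    intro a a' h
    rw [hFa, hFa]
    apply Submodule.span_mono
    rintro v ⟨j, hj, rfl⟩
    exact ⟨j, hj.trans h, rfl⟩
  have hn : ∀ i : Fin k, ∃ j : Fin n, ∀ w, inc K r i w ∈ F (γ j) := by
    intro i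
    have hpos : 0 < n := by
      have h1 : Nonempty (Fin n) := ⟨ne ⟨i, ⟨0, hr i⟩⟩⟩
      exact Fin.pos_iff_nonempty.2 h1
    refine ⟨⟨n - 1, by omega⟩, fun w => ?_⟩
    have h1 : F (γ ⟨n - 1, by omega⟩) = ⊤ := by
      rw [hFa, eq_top_iff, ← b.span_eq]
      apply Submodule.span_mono
      rintro _ ⟨j, rfl⟩
      refine ⟨j, hγ ?_, rfl⟩
      rw [Fin.le_def]
      have := j.2
      simp only
      omega
    rw [h1]
    exact Submodule.mem_top
  have hmin : ∀ i : Fin k, ∃ j : Fin n, (∀ w, inc K r i w ∈ F (γ j)) ∧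
      ∀ j', (∀ w, inc K r i w ∈ F (γ j')) → γ j ≤ γ j' := by
    intro i
    obtain ⟨j0, hj0⟩ := hn i
    obtain ⟨j, hj, hm⟩ := Finset.exists_min_image
      (Finset.univ.filter fun j => ∀ w, inc K r i w ∈ F (γ j)) γ ⟨j0, by simpa using hj0⟩
    exact ⟨j, (Finset.mem_filter.1 hj).2, fun j' hj' => hm j' (by simpa using hj')⟩
  choose ju hju hjum using hmin
  obtain ⟨u, hu⟩ : ∃ u : Fin k → ℚ, u = fun i => γ (ju i) := ⟨_, rfl⟩
  -- the level of a block
  have hlev : ∀ a i, (∀ w, inc K r i w ∈ F a) ↔ u i ≤ a := by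
    intro a i
    constructor
    · intro h
      obtain ⟨s, hsn, -, hs⟩ := level_lt hγ a
      have hs0 : s ≠ 0 := by
        rintro rfl
        have h1 : F a = ⊥ := by
          rw [hFa, eq_bot_iff, Submodule.span_le]
          rintro v ⟨j, hj, rfl⟩
          exact absurd ((hs j).1 hj) (Nat.not_lt_zero _)
        have h2 := h (fun _ => 1)
        rw [h1, Submodule.mem_bot] at h2
        have h3 := congrFun h2 ⟨i, ⟨0, hr i⟩⟩
        rw [inc_self] at h3
        exact one_ne_zero h3
      have hj1 : γ ⟨s - 1, by omega⟩ ≤ a := (hs _).2 (by simp only; omega)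
      have h1 : F a ≤ F (γ ⟨s - 1, by omega⟩) := by
        rw [hFa, hFa]
        apply Submodule.span_mono
        rintro v ⟨j, hj, rfl⟩
        refine ⟨j, hγ ?_, rfl⟩
        rw [Fin.le_def]
        have := (hs j).1 hj
        simp only
        omega
      rw [hu]
      exact (hjum i _ fun w => h1 (h w)).trans hj1
    · intro h w
      refine hmono _ _ h ?_
      rw [hu]
      exact hju i w
  -- the dimensions
  obtain ⟨E, hE⟩ : ∃ E : Fin n → (((i : Fin k) × Fin (r i)) → K),
      E = fun j => inc K r (ne.symm j).1 (Pi.single (ne.symm j).2 1) := ⟨_, rfl⟩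
  have hEs : ∀ j, E j = Pi.single (ne.symm j) 1 := by
    intro j
    rw [hE]
    change inc K r (ne.symm j).1 (Pi.single (ne.symm j).2 1) = _
    rw [inc_apply, Finset.sum_eq_single (ne.symm j).2]
    · rw [Pi.single_eq_same, one_smul]
    · intro l _ hl
      rw [Pi.single_eq_of_ne hl, zero_smul]
    · intro h
      exact absurd (Finset.mem_univ _) h
  have hEli : LinearIndependent K E := by
    have h1 := (Pi.basisFun K ((i : Fin k) × Fin (r i))).linearIndependent.comp _
      ne.symm.injective
    have h2 : E = ⇑(Pi.basisFun K ((i : Fin k) × Fin (r i))) ∘ ⇑ne.symm := by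
      funext j
      rw [hEs, Function.comp_apply, Pi.basisFun_apply]
    rw [h2]
    exact h1
  have hFE : ∀ a, F a = Submodule.span K
      (Set.range fun j : {j // u (ne.symm j).1 ≤ a} => E j) := by
    intro a
    apply le_antisymm
    · intro v hv
      rw [← sum_inc v]
      refine Submodule.sum_mem _ fun i _ => ?_
      rcases hcase a i with h | h
      · have h1 := (hlev a i).1 h
        rw [inc_apply]
        refine Submodule.sum_mem _ fun l _ => Submodule.smul_mem _ _ (Submodule.subset_span ?_)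
        refine ⟨⟨ne ⟨i, l⟩, by rw [ne.symm_apply_apply]; exact h1⟩, ?_⟩
        change E (ne ⟨i, l⟩) = _
        rw [hEs, ne.symm_apply_apply]
      · rw [h v hv, map_zero]
        exact Submodule.zero_mem _
    · rw [Submodule.span_le]
      rintro _ ⟨⟨j, hj⟩, rfl⟩
      rw [hE]
      exact (hlev a _).2 hj _
  have hFb : ∀ a, F a = Submodule.span K (Set.range fun j : {j // γ j ≤ a} => b j) := by
    intro a
    rw [hFa]
    congr 1
    ext v
    constructor
    · rintro ⟨j, hj, rfl⟩
      exact ⟨⟨j, hj⟩, rfl⟩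
    · rintro ⟨⟨j, hj⟩, rfl⟩
      exact ⟨j, hj, rfl⟩
  have hcard : ∀ a, (Finset.univ.filter fun j => γ j ≤ a).card =
      (Finset.univ.filter fun j => u (ne.symm j).1 ≤ a).card := by
    intro a
    have h1 : Module.finrank K (F a) = Fintype.card {j // γ j ≤ a} := by
      rw [hFb a]
      exact finrank_span_eq_card (b.linearIndependent.comp _ Subtype.val_injective)
    have h2 : Module.finrank K (F a) = Fintype.card {j // u (ne.symm j).1 ≤ a} := by
      rw [hFE a]
      exact finrank_span_eq_card (hEli.comp _ Subtype.val_injective)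
    rw [← Fintype.card_subtype, ← Fintype.card_subtype, ← h1, ← h2]
  have hsum := sum_eq_of_card hcard
  rw [hγ0, Equiv.sum_comp ne.symm fun x => u x.1, Fintype.sum_sigma] at hsum
  have hsum2 : ∑ i, (r i : ℚ) * u i = 0 := by
    rw [hsum]
    refine Finset.sum_congr rfl fun i _ => ?_
    change _ = ∑ _l : Fin (r i), u i
    rw [Finset.sum_const, Finset.card_univ, Fintype.card_fin, nsmul_eq_mul]
  refine gB_ne hT q N (gB_contra b hvan (u := u) (fun i v => ?_) ?_)
  · rw [← hFa]
    exact (hlev (u i) i).2 le_rfl v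
  · have h1 : ∑ z : ((β : Fin q ⊕ ((i : Fin k) × Fin (N i))) × Fin (degB m q r N β)),
        u (blB (J := J) z) = 0 := by
      rw [sum_blB hN u, hsum2, mul_zero]
    rw [h1]
    exact one_pos

end

end Pool.Agent.H897
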