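import Pool.Agent.H897.JD

/-!
Forms on several stable blocks.
-/

set_option autoImplicit false
set_option linter.overlappingInstances false
set_option linter.unusedSectionVars false

open MvPolynomial FF Pool.Agent.W602.GT Pool.Agent.Y172 Pool.Agent.NH31 Pool.Agent.W603.LV
open Pool.Agent.N133.TB Pool.Agent.Y174 Pool.Agent.TH466.QG

namespace Pool.Agent.H897

section

variable {K : Type} [Field K] [Algebra ℂ K] {N : ℕ} {y : Fin (N + 1) → K}

/-- **Forms on several stable blocks.** -/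
theorem block_thm {α : Place ℂ K → ℝ} (hα : MovableClass y α) {k m : ℕ} {r : Fin k → ℕ}
    (hr : ∀ i, 1 ≤ r i) (hm : 1 ≤ m) {J : Fin m → Fin k}
    {T : MultilinearMap K (fun s : Fin m => (Fin (r (J s)) → K)) K} (hT : T ≠ 0)
    {U : Place ℂ K → (i : Fin k) → Matrix (Fin (r i)) (Fin (r i)) K}
    (hU : ∀ P, IsPrimeDivisor y P → ∀ i, (U P i).det = 1)
    {nu : Place ℂ K → (i : Fin k) → Fin (r i) → ℝ} {ℓ : Place ℂ K → ℝ}
    (hTP : ∀ P, IsPrimeDivisor y P → ∀ I : (s : Fin m) → Fin (r (J s)),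
      GeR P (∑ s, nu P (J s) (I s) - ℓ P) (T fun s => U P (J s) (I s)))
    {dg : Fin k → ℝ} (hdg : ∀ i, HasDeg y α (fun P => ∑ l, nu P i l) (dg i)) {lam : ℝ}
    (hℓ : HasDeg y α ℓ lam) (hlam : lam ≤ ∑ s, dg (J s) / r (J s))
    (hst : BlkStable y α U nu dg) :
    ∃ (N0 : ℕ) (g : K), 1 ≤ N0 ∧ g ≠ 0 ∧ ∀ P, IsPrimeDivisor y P →
      N0 * (∑ s, (∑ l, nu P (J s) l) / r (J s) - ℓ P) ≤ P.ord g := by
  classical
  have hcK : CharZero K := charZero_of_injective_algebraMap (algebraMap ℂ K).injective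
  obtain ⟨q, lamN, Nf, hq, hNf⟩ := exists_exps2 r
    (fun i => (Finset.univ.filter fun s => J s = i).card) hr
  obtain ⟨n, hn⟩ : ∃ n, n = Fintype.card ((i : Fin k) × Fin (r i)) := ⟨_, rfl⟩
  obtain ⟨ne⟩ : Nonempty (((i : Fin k) × Fin (r i)) ≃ Fin n) :=
    Fintype.card_eq.1 (by rw [Fintype.card_fin]; exact hn.symm)
  have hn1 : 1 ≤ n := by
    have h1 : Nonempty (Fin n) := ⟨ne ⟨J ⟨0, hm⟩, ⟨0, hr _⟩⟩⟩
    exact Fin.pos_iff_nonempty.2 h1
  obtain ⟨M, hM⟩ : ∃ M, M = Fintype.card ((β : Fin q ⊕ ((i : Fin k) × Fin (Nf i))) ×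
    Fin (degB m q r Nf β)) := ⟨_, rfl⟩
  obtain ⟨me⟩ : Nonempty (((β : Fin q ⊕ ((i : Fin k) × Fin (Nf i))) ×
      Fin (degB m q r Nf β)) ≃ Fin M) :=
    Fintype.card_eq.1 (by rw [Fintype.card_fin]; exact hM.symm)
  have hM1 : 1 ≤ M := by
    have h1 : Nonempty (Fin M) := ⟨me ⟨.inl ⟨0, hq⟩, ⟨0, hm⟩⟩⟩
    exact Fin.pos_iff_nonempty.2 h1
  obtain ⟨t, ht⟩ : ∃ t : MultilinearMap K (fun _ : Fin M => (((i : Fin k) × Fin (r i)) → K)) K,
    t = (prodML (gB T q Nf)).domDomCongr me := ⟨_, rfl⟩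
  have hta : ∀ x, t x = prodML (gB T q Nf) fun z => x (me z) := by
    intro x
    rw [ht]
    rfl
  have htz : ∀ x : ((β : Fin q ⊕ ((i : Fin k) × Fin (Nf i))) ×
      Fin (degB m q r Nf β)) → (((i : Fin k) × Fin (r i)) → K),
      prodML (gB T q Nf) x = t fun j => x (me.symm j) := by
    intro x
    rw [hta]
    congr 1
    funext z
    rw [me.symm_apply_apply]
  have ht0 : t ≠ 0 := by
    intro h0
    apply gB_ne hT q Nf
    refine MultilinearMap.ext fun x => ?_
    rw [htz, h0]
    rfl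
  obtain ⟨b0, -⟩ : ∃ b0 : Module.Basis (Fin n) K (((i : Fin k) × Fin (r i)) → K), True :=
    ⟨(Pi.basisFun K ((i : Fin k) × Fin (r i))).reindex ne, trivial⟩
  obtain ⟨b, γ, rho, N1, f, hγ, hγ0, hrho, hN1, hf, hvan, huniq, hloc⟩ :=
    flag_thm hn1 hM1 b0.linearIndependent b0.span_eq (fun _ : Unit => t) ⟨(), ht0⟩
  obtain ⟨F, hFa⟩ : ∃ F : ℚ → Submodule K (((i : Fin k) × Fin (r i)) → K),
    ∀ a, F a = Submodule.span K {v | ∃ j, γ j ≤ a ∧ v = b j} := ⟨_, fun _ => rfl⟩
  -- the invariance of the flag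
  have hscl : ∀ (a : ℚ) (z : Fin k → K), (∀ i, z i ≠ 0) →
      ∀ v ∈ F a, scl K r z v ∈ F a := by
    intro a z hz v hv
    rw [hFa] at hv ⊢
    have hinj : Function.Injective (scl K r z) := by
      rw [← LinearMap.ker_eq_bot, LinearMap.ker_eq_bot']
      intro v hv
      funext x
      have h1 := congrFun hv x
      rw [scl_apply] at h1
      exact (mul_eq_zero.1 h1).resolve_left (hz x.1)
    have h1 := huniq (fun j => scl K r z (b j))
      (b.linearIndependent.map' _ (LinearMap.ker_eq_bot.2 hinj)) (by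
        rcases hvan with h | h
        · exact Or.inl h
        · right
          intro i I hI
          obtain ⟨χ, hχ⟩ := gB_scl T q Nf z
          change t (fun s => scl K r z (b (I s))) = 0
          rw [hta, hχ fun z => b (I (me z)), ← hta fun s => b (I s), h i I hI, mul_zero]) a
    rw [← h1]
    induction hv using Submodule.span_induction with
    | mem x hx =>
      obtain ⟨j, hj, rfl⟩ := hx
      exact Submodule.subset_span ⟨j, hj, rfl⟩
    | zero =>
      rw [map_zero]
      exact Submodule.zero_mem _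
    | add x y _ _ hx hy =>
      rw [map_add]
      exact Submodule.add_mem _ hx hy
    | smul c x _ hx =>
      rw [map_smul]
      exact Submodule.smul_mem _ _ hx
  have hsplit : ∀ (a : ℚ), ∀ v ∈ F a, ∀ i, inc K r i (prj K r i v) ∈ F a :=
    fun a v hv i => split_of_scl (hscl a) hv i
  -- the levels
  obtain ⟨l, hl⟩ : ∃ l, n = l + 1 := ⟨n - 1, by omega⟩
  have hspan : ∀ (κ : ℕ) (h : κ + 1 < n), γ ⟨κ, by omega⟩ < γ ⟨κ + 1, h⟩ →
      Submodule.span K (Set.range fun i : Fin (κ + 1) => b (Fin.castLE h.le i)) =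
        F (γ ⟨κ, by omega⟩) := by
    intro κ h hlt
    rw [hFa]
    congr 1
    ext v
    constructor
    · rintro ⟨i, rfl⟩
      refine ⟨Fin.castLE h.le i, hγ ?_, rfl⟩
      rw [Fin.le_def]
      have := i.2
      simp only [Fin.val_castLE]
      omega
    · rintro ⟨j, hj, rfl⟩
      have hjk : (j : ℕ) < κ + 1 := by
        by_contra hcon
        push Not at hcon
        have h1 : γ ⟨κ + 1, h⟩ ≤ γ j := hγ (by rw [Fin.le_def]; exact hcon)
        exact absurd (hlt.trans_le h1) (not_lt.2 hj)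
      exact ⟨⟨j, hjk⟩, rfl⟩
  have hlev : ∀ κ : ℕ, ∃ (e : Place ℂ K → ℝ) (d : ℝ), HasDeg y α e d ∧ d ≤ 0 ∧
      ∀ (h : κ + 1 < n), γ ⟨κ, by omega⟩ < γ ⟨κ + 1, h⟩ →
      (d = 0 → ∀ i, (F (γ ⟨κ, by omega⟩)).map (prj K r i) = ⊥ ∨
        (F (γ ⟨κ, by omega⟩)).map (prj K r i) = ⊤) ∧
      ∀ P, IsPrimeDivisor y P → ∃ x : Fin (κ + 1) → ((i : Fin k) × Fin (r i)),
        (Matrix.of fun (a a' : Fin (κ + 1)) => ∑ z, b (Fin.castLE h.le a) z *
          Matrix.blockDiagonal' (fun i => (U P i)⁻¹) z (x a')).det ≠ 0 ∧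
        P.ord (Matrix.of fun (a a' : Fin (κ + 1)) => ∑ z, b (Fin.castLE h.le a) z *
          Matrix.blockDiagonal' (fun i => (U P i)⁻¹) z (x a')).det +
            ∑ a, nrm nu P (x a) ≤ e P := by
    intro κ
    by_cases h : ∃ h : κ + 1 < n, γ ⟨κ, by omega⟩ < γ ⟨κ + 1, h⟩
    · obtain ⟨h, hlt⟩ := h
      obtain ⟨e, d, h1, h2, h3, h4⟩ := level_bound hα hr hU hdg hst
        (F := F (γ ⟨κ, by omega⟩)) (hsplit _)
        (b := fun i : Fin (κ + 1) => b (Fin.castLE h.le i))
        (b.linearIndependent.comp _ (Fin.castLE_injective h.le)) (hspan κ h hlt)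
      exact ⟨e, d, h1, h2, fun _ _ => ⟨h3, h4⟩⟩
    · push Not at h
      exact ⟨fun _ => 0, 0, hasDeg_zero α, le_rfl, fun h' hlt => absurd hlt (not_lt.2 (h h'))⟩
  choose ev d hev hd0 hevb using hlev
  -- the matrix of the basis
  obtain ⟨B, hB⟩ : ∃ B : Matrix (Fin n) (Fin n) K, B = Matrix.of fun j j' => b j (ne.symm j') :=
    ⟨_, rfl⟩
  have hB0 : B.det ≠ 0 := by
    intro h0
    obtain ⟨v, hv0, hv⟩ := Matrix.exists_vecMul_eq_zero_iff.2 h0
    apply hv0
    funext j
    refine Fintype.linearIndependent_iff.1 b.linearIndependent v ?_ j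
    funext x
    have h1 := congrFun hv (ne x)
    rw [Matrix.vecMul, dotProduct, Pi.zero_apply] at h1
    rw [Finset.sum_apply, Pi.zero_apply, ← h1]
    refine Finset.sum_congr rfl fun j _ => ?_
    rw [Pi.smul_apply, smul_eq_mul, hB, Matrix.of_apply, ne.symm_apply_apply]
  -- the local estimate
  obtain ⟨g, hg⟩ : ∃ g : ℕ → ℝ, g = fun k => if h : k < n then (γ ⟨k, h⟩ : ℝ) else 0 :=
    ⟨_, rfl⟩
  have hgi : ∀ i : Fin n, g i = γ i := by
    intro i
    rw [hg]
    exact dif_pos i.2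
  have hmono : ∀ κ, κ < l → g κ ≤ g (κ + 1) := by
    intro κ hk
    have h1 := hgi ⟨κ, by omega⟩
    have h2 := hgi ⟨κ + 1, by omega⟩
    change g κ = _ at h1
    change g (κ + 1) = _ at h2
    rw [h1, h2]
    have h3 : γ ⟨κ, by omega⟩ ≤ γ ⟨κ + 1, by omega⟩ := hγ (by
      rw [Fin.le_def]
      exact Nat.le_succ κ)
    exact_mod_cast h3
  have hrho' : (0 : ℝ) < rho := by exact_mod_cast hrho
  have hN1' : (0 : ℝ) < N1 := by exact_mod_cast hN1
  have hloc2 : ∀ P, IsPrimeDivisor y P → N1 * ((M / n : ℝ) * P.ord B.det -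
      q * (ℓ P - ∑ s, (∑ l, nu P (J s) l) / r (J s)) +
      rho * (g l * P.ord B.det - ∑ κ ∈ Finset.range l, (g (κ + 1) - g κ) * ev κ P)) ≤
        P.ord f := by
    intro P hP
    have hinv : ∀ i, (U P i)⁻¹ * U P i = 1 := fun i =>
      Matrix.nonsing_inv_mul _ (by rw [hU P hP i]; exact isUnit_one)
    obtain ⟨E, hE⟩ : ∃ E : Fin n → (((i : Fin k) × Fin (r i)) → K),
      E = fun j => Matrix.blockDiagonal' (U P) (ne.symm j) := ⟨_, rfl⟩
    obtain ⟨C, hC⟩ : ∃ C : Matrix (Fin n) (Fin n) K, C = Matrix.of fun j j' =>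
      ∑ z, b j z * Matrix.blockDiagonal' (fun i => (U P i)⁻¹) z (ne.symm j') := ⟨_, rfl⟩
    have hCB : C = B * (Matrix.blockDiagonal' fun i => (U P i)⁻¹).submatrix ne.symm ne.symm := by
      ext j j'
      rw [hC, hB, Matrix.of_apply, Matrix.mul_apply, ← Equiv.sum_comp ne.symm]
      rfl
    have hCdet : C.det = B.det := by
      rw [hCB, Matrix.det_mul, Matrix.det_submatrix_equiv_self, det_bd, Finset.prod_eq_one,
        mul_one]
      intro i _
      rw [Matrix.det_nonsing_inv, hU P hP i, Ring.inverse_one]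
    have hbE : ∀ j, b j = ∑ j', C j j' • E j' := by
      intro j
      funext x
      rw [Finset.sum_apply]
      have h1 : ∀ j', (C j j' • E j') x = ∑ z, b j z *
          (Matrix.blockDiagonal' (fun i => (U P i)⁻¹) z (ne.symm j') *
            Matrix.blockDiagonal' (U P) (ne.symm j') x) := by
        intro j'
        rw [Pi.smul_apply, smul_eq_mul, hC, hE, Matrix.of_apply, Finset.sum_mul]
        exact Finset.sum_congr rfl fun z _ => mul_assoc _ _ _
      rw [Finset.sum_congr rfl fun j' _ => h1 j', Finset.sum_comm]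
      have h2 : ∀ z, ∑ j', b j z * (Matrix.blockDiagonal' (fun i => (U P i)⁻¹) z (ne.symm j') *
          Matrix.blockDiagonal' (U P) (ne.symm j') x) = b j z * (if z = x then 1 else 0) := by
        intro z
        rw [← Finset.mul_sum]
        congr 1
        rw [Equiv.sum_comp ne.symm fun w => Matrix.blockDiagonal' (fun i => (U P i)⁻¹) z w *
          Matrix.blockDiagonal' (U P) w x, ← Matrix.mul_apply, ← Matrix.blockDiagonal'_mul]
        simp only [hinv]
        have h3 : (Matrix.blockDiagonal' fun i => (1 : Matrix (Fin (r i)) (Fin (r i)) K)) = 1 :=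
          Matrix.blockDiagonal'_one
        rw [h3, Matrix.one_apply]
      rw [Finset.sum_congr rfl fun z _ => h2 z]
      simp
    obtain ⟨Uq, nk, h1, h2, h3, h4⟩ := qr P n (fun j => nrm nu P (ne.symm j)) C
      (by rw [hCdet]; exact hB0)
    have h5 := hloc P E C Uq (fun j => nrm nu P (ne.symm j)) nk
      (q * (ℓ P - ∑ s, (∑ l, nu P (J s) l) / r (J s))) hbE (fun _ I => by
        have h6 := gB_local (P := P) hr (hU P hP) (hTP P hP) (q := q) (N := Nf)
          fun z => ne.symm (I (me z))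
        have h7 : t (fun s => E (I s)) = prodML (gB T q Nf)
            fun z => Matrix.blockDiagonal' (U P) (ne.symm (I (me z))) := by
          rw [hta, hE]
        change GeR P _ (t fun s => E (I s))
        rw [h7]
        refine h6.mono (le_of_eq ?_)
        congr 1
        exact (Equiv.sum_comp me fun s => nrm nu P (ne.symm (I s))).symm) h1 h2 h3
    have hnuz : ∑ j, nrm nu P (ne.symm j) = 0 := by
      rw [Equiv.sum_comp ne.symm, Fintype.sum_sigma]
      refine Finset.sum_eq_zero fun i _ => ?_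
      change ∑ l : Fin (r i), (nu P i l - (∑ l, nu P i l) / r i) = 0
      rw [Finset.sum_sub_distrib, Finset.sum_const, Finset.card_univ, Fintype.card_fin,
        nsmul_eq_mul]
      have : (r i : ℝ) ≠ 0 := by
        have h6 := hr i
        have h7 : r i ≠ 0 := by omega
        exact_mod_cast h7
      field_simp
      ring
    rw [hnuz, add_zero, hCdet] at h4
    rw [h4] at h5
    refine le_trans ?_ h5
    refine mul_le_mul_of_nonneg_left ?_ hN1'.le
    have h6 : ∑ j, (γ j : ℝ) * nk j = g l * P.ord B.det -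
        ∑ κ ∈ Finset.range l, (g (κ + 1) - g κ) *
          ∑ j ∈ Finset.range (κ + 1), (if h : j < n then nk ⟨j, h⟩ else 0) := by
      obtain ⟨X, hX⟩ : ∃ X : ℕ → ℝ, X = fun j => if h : j < n then nk ⟨j, h⟩ else 0 := ⟨_, rfl⟩
      have hXi : ∀ i : Fin n, X i = nk i := by
        intro i
        rw [hX]
        exact dif_pos i.2
      have h7 := abel_nat g X l
      rw [← hl, Finset.sum_range, Finset.sum_range (fun k => X k)] at h7
      rw [Finset.sum_congr rfl fun (i : Fin n) _ => by rw [hgi i, hXi i],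
        Finset.sum_congr rfl fun (i : Fin n) _ => hXi i, h4] at h7
      rw [h7, hX]
    rw [h6]
    have h7 : ∑ κ ∈ Finset.range l, (g (κ + 1) - g κ) *
          ∑ j ∈ Finset.range (κ + 1), (if h : j < n then nk ⟨j, h⟩ else 0) ≤
        ∑ κ ∈ Finset.range l, (g (κ + 1) - g κ) * ev κ P := by
      refine Finset.sum_le_sum fun κ hk => ?_
      have hk' := Finset.mem_range.1 hk
      have hκn : κ + 1 < n := by omega
      rcases eq_or_lt_of_le (hmono κ hk') with h8 | h8
      · rw [h8, sub_self, zero_mul, zero_mul]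
      · refine mul_le_mul_of_nonneg_left ?_ (sub_nonneg.2 h8.le)
        have h9 : γ ⟨κ, by omega⟩ < γ ⟨κ + 1, hκn⟩ := by
          have h10 := hgi ⟨κ, by omega⟩
          have h11 := hgi ⟨κ + 1, hκn⟩
          change g κ = _ at h10
          change g (κ + 1) = _ at h11
          rw [h10, h11] at h8
          exact_mod_cast h8
        obtain ⟨x, h12, h13⟩ := (hevb κ hκn h9).2 P hP
        have h14 : (Matrix.of fun (a a' : Fin (κ + 1)) => ∑ z, b (Fin.castLE hκn.le a) z *
            Matrix.blockDiagonal' (fun i => (U P i)⁻¹) z (x a')) =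
            C.submatrix (Fin.castLE hκn.le) (fun a => ne (x a)) := by
          ext a a'
          rw [Matrix.of_apply, Matrix.submatrix_apply, hC, Matrix.of_apply, ne.symm_apply_apply]
        rw [h14] at h12 h13
        refine le_trans (le_trans (le_of_eq ?_) (qr_minor h1 h2 h3 hκn.le h12)) (le_trans
          (le_of_eq ?_) h13)
        · rw [Finset.sum_range]
          refine Finset.sum_congr rfl fun j _ => ?_
          rw [dif_pos (lt_trans j.2 hκn)]
          rfl
        · simp only [ne.symm_apply_apply]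
    have h8 := mul_le_mul_of_nonneg_left h7 hrho'.le
    linarith
  -- the degree of the local estimate
  obtain ⟨sd, hsd⟩ : ∃ sd : ℝ, sd = ∑ κ ∈ Finset.range l, (g (κ + 1) - g κ) * d κ := ⟨_, rfl⟩
  have hsd0 : ∀ κ ∈ Finset.range l, (g (κ + 1) - g κ) * d κ ≤ 0 := fun κ hκ =>
    mul_nonpos_of_nonneg_of_nonpos (sub_nonneg.2 (hmono κ (Finset.mem_range.1 hκ))) (hd0 κ)
  have hdegL : HasDeg y α (fun P => ℓ P + (-1) * ∑ s, (((r (J s) : ℝ)⁻¹) * ∑ l, nu P (J s) l))
      (lam + (-1) * ∑ s, (((r (J s) : ℝ)⁻¹) * dg (J s))) :=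
    hℓ.add ((hasDeg_sum' Finset.univ (e := fun s P => ((r (J s) : ℝ)⁻¹) * ∑ l, nu P (J s) l)
      (s := fun s => ((r (J s) : ℝ)⁻¹) * dg (J s)) fun s _ => (hdg (J s)).smul _).smul _)
  have htot : 0 ≤ sd := by
    have h1 : HasDeg y α (fun P => (P.ord f : ℝ) + (-N1) * ((M / n + rho * g l : ℝ) * P.ord B.det +
        ((-q) * (ℓ P + (-1) * ∑ s, (((r (J s) : ℝ)⁻¹) * ∑ l, nu P (J s) l)) +
        (-rho) * ∑ κ ∈ Finset.range l, (g (κ + 1) - g κ) * ev κ P)))
        (0 + (-N1) * ((M / n + rho * g l : ℝ) * 0 +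
        ((-q) * (lam + (-1) * ∑ s, (((r (J s) : ℝ)⁻¹) * dg (J s))) +
        (-rho) * ∑ κ ∈ Finset.range l, (g (κ + 1) - g κ) * d κ))) :=
      (hα.prin f hf).add ((((hα.prin _ hB0).smul _).add ((hdegL.smul _).add
        ((hasDeg_sum' (Finset.range l) (e := fun κ P => (g (κ + 1) - g κ) * ev κ P)
        (s := fun κ => (g (κ + 1) - g κ) * d κ) fun κ _ => (hev κ).smul _).smul _))).smul _)
    have h2 := h1.nonneg hα.nonneg fun P hP => by
      have h3 := hloc2 P hP
      have h4 : ∑ s, (((r (J s) : ℝ)⁻¹) * ∑ l, nu P (J s) l) =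
          ∑ s, (∑ l, nu P (J s) l) / r (J s) :=
        Finset.sum_congr rfl fun s _ => by rw [div_eq_inv_mul]
      rw [h4]
      linarith
    have h4 : ∑ s, (((r (J s) : ℝ)⁻¹) * dg (J s)) = ∑ s, dg (J s) / r (J s) :=
      Finset.sum_congr rfl fun s _ => by rw [div_eq_inv_mul]
    rw [h4, ← hsd] at h2
    have h5 : 0 ≤ N1 * (q * (lam - ∑ s, dg (J s) / r (J s)) + rho * sd) := by linarith
    have h6 : 0 ≤ q * (lam - ∑ s, dg (J s) / r (J s)) + rho * sd :=
      (mul_nonneg_iff_of_pos_left hN1').1 h5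
    have h7 : (0 : ℝ) ≤ q := Nat.cast_nonneg q
    have h8 : q * (lam - ∑ s, dg (J s) / r (J s)) ≤ 0 :=
      mul_nonpos_of_nonneg_of_nonpos h7 (by linarith)
    have h9 : 0 ≤ rho * sd := by linarith
    exact (mul_nonneg_iff_of_pos_left hrho').1 h9
  have hsd1 : sd = 0 := le_antisymm (by rw [hsd]; exact Finset.sum_nonpos hsd0) htot
  have hdz : ∀ κ (h : κ + 1 < n), γ ⟨κ, by omega⟩ < γ ⟨κ + 1, h⟩ → d κ = 0 := by
    intro κ h hlt
    rw [hsd] at hsd1
    have h1 := (Finset.sum_eq_zero_iff_of_nonpos hsd0).1 hsd1 κ (Finset.mem_range.2 (by omega))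
    have h2 : g (κ + 1) - g κ ≠ 0 := by
      have h10 := hgi ⟨κ, by omega⟩
      have h11 := hgi ⟨κ + 1, h⟩
      change g κ = _ at h10
      change g (κ + 1) = _ at h11
      rw [h10, h11, sub_ne_zero]
      intro h12
      have h13 : γ ⟨κ + 1, h⟩ = γ ⟨κ, by omega⟩ := by exact_mod_cast h12
      exact absurd hlt (by rw [h13]; exact lt_irrefl _)
    exact (mul_eq_zero.1 h1).resolve_left h2
  -- the weights vanish
  have hγz : ∀ j, γ j = 0 := by
    rcases hvan with h | h
    · exact h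
    · exfalso
      refine flag_contra hr hT hNf ne b hγ hγ0 (fun I hI => ?_)
        (by simp only [hFa] at hsplit; exact hsplit) ?_
      · rw [htz]
        refine h () (fun j => I (me.symm j)) ?_
        rw [Equiv.sum_comp me.symm fun z => γ (I z)]
        exact hI
      · intro a i
        obtain ⟨s, hsn, -, hs⟩ := level_lt hγ a
        rcases Nat.eq_zero_or_pos s with h0 | h0
        · left
          have h1 : Submodule.span K {v | ∃ j, γ j ≤ a ∧ v = b j} = ⊥ := by
            rw [eq_bot_iff, Submodule.span_le]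
            rintro v ⟨j, hj, rfl⟩
            rw [hs, h0] at hj
            exact absurd hj (Nat.not_lt_zero _)
          rw [h1, Submodule.map_bot]
        · rcases eq_or_lt_of_le hsn with h1 | h1
          · right
            have h2 : Submodule.span K {v | ∃ j, γ j ≤ a ∧ v = b j} = ⊤ := by
              rw [eq_top_iff, ← b.span_eq]
              apply Submodule.span_mono
              rintro _ ⟨j, rfl⟩
              exact ⟨j, (hs j).2 (by rw [h1]; exact j.2), rfl⟩
            rw [h2, Submodule.map_top, LinearMap.range_eq_top]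
            exact fun w => ⟨inc K r i w, prj_inc i w⟩
          · obtain ⟨κ, rfl⟩ : ∃ κ, s = κ + 1 := ⟨s - 1, by omega⟩
            have h2 : γ ⟨κ, by omega⟩ ≤ a := (hs _).2 (by simp only; omega)
            have h3 : a < γ ⟨κ + 1, h1⟩ := by
              by_contra hcon
              push Not at hcon
              have h4 := (hs ⟨κ + 1, h1⟩).1 hcon
              simp only at h4
              omega
            have h4 := (hevb κ h1 (h2.trans_lt h3)).1 (hdz κ h1 (h2.trans_lt h3)) i
            rw [hFa] at h4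
            have h5 : Submodule.span K {v | ∃ j, γ j ≤ a ∧ v = b j} =
                Submodule.span K {v | ∃ j, γ j ≤ γ ⟨κ, by omega⟩ ∧ v = b j} := by
              congr 1
              ext v
              constructor
              · rintro ⟨j, hj, rfl⟩
                refine ⟨j, hγ ?_, rfl⟩
                rw [Fin.le_def]
                have := (hs j).1 hj
                simp only
                omega
              · rintro ⟨j, hj, rfl⟩
                exact ⟨j, hj.trans h2, rfl⟩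
            rw [h5]
            exact h4
  -- the function
  have hgz : ∀ κ, g κ = 0 := by
    intro κ
    rw [hg]
    simp only
    split_ifs with h
    · rw [hγz]
      simp
    · rfl
  have hnR : (0 : ℝ) < n := by exact_mod_cast hn1
  refine ⟨n * N1 * q, f ^ n * (B.det ^ (N1 * M))⁻¹, Nat.mul_pos (Nat.mul_pos hn1 hN1) hq,
    mul_ne_zero (pow_ne_zero _ hf) (inv_ne_zero (pow_ne_zero _ hB0)), fun P hP => ?_⟩
  have h1 := hloc2 P hP
  simp only [hgz, sub_self, zero_mul, Finset.sum_const_zero, mul_zero, add_zero] at h1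
  rw [P.ord_mul (pow_ne_zero _ hf) (inv_ne_zero (pow_ne_zero _ hB0)), P.ord_inv, P.ord_pow,
    P.ord_pow]
  push_cast
  have h2 := mul_le_mul_of_nonneg_left h1 hnR.le
  have h3 : (n : ℝ) * (N1 * ((M / n : ℝ) * P.ord B.det -
      q * (ℓ P - ∑ s, (∑ l, nu P (J s) l) / r (J s)))) =
      N1 * M * P.ord B.det + n * N1 * q * (∑ s, (∑ l, nu P (J s) l) / r (J s) - ℓ P) := by
    field_simp
    ring
  rw [h3] at h2
  linarith

end

end Pool.Agent.H897
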