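import Pool.Agent.H897.JF
import Pool.Agent.H897.VG

/-!
The orders of the distributions between two distributions.
-/

set_option autoImplicit false
set_option linter.overlappingInstances false
set_option linter.unusedSectionVars false

open MvPolynomial FF Pool.Agent.W602.GT Pool.Agent.Y172 Pool.Agent.NH31 Pool.Agent.W603.LV
open Pool.Agent.N133.TB Pool.Agent.Y174 Pool.Agent.TH466.QG

namespace Pool.Agent.H897

section

variable {K : Type} [Field K] [Algebra ℂ K] {N n : ℕ} {y : Fin (N + 1) → K}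

/-- the matrix in block form -/
def bmat {q s q' r : ℕ} (A : Matrix (Fin q) (Fin q') K) (B : Matrix (Fin q) (Fin r) K)
    (C : Matrix (Fin s) (Fin q') K) (D : Matrix (Fin s) (Fin r) K) :
    Matrix (Fin (q + s)) (Fin (q' + r)) K :=
  (Matrix.fromBlocks A B C D).submatrix finSumFinEquiv.symm finSumFinEquiv.symm

theorem bmat_cc {q s q' r : ℕ} (A : Matrix (Fin q) (Fin q') K) (B : Matrix (Fin q) (Fin r) K)
    (C : Matrix (Fin s) (Fin q') K) (D : Matrix (Fin s) (Fin r) K) (i : Fin q) (j : Fin q') :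
    bmat A B C D (Fin.castAdd s i) (Fin.castAdd r j) = A i j := by
  unfold bmat
  rw [Matrix.submatrix_apply, finSumFinEquiv_symm_apply_castAdd,
    finSumFinEquiv_symm_apply_castAdd]
  rfl

theorem bmat_cn {q s q' r : ℕ} (A : Matrix (Fin q) (Fin q') K) (B : Matrix (Fin q) (Fin r) K)
    (C : Matrix (Fin s) (Fin q') K) (D : Matrix (Fin s) (Fin r) K) (i : Fin q) (j : Fin r) :
    bmat A B C D (Fin.castAdd s i) (Fin.natAdd q' j) = B i j := by
  unfold bmat
  rw [Matrix.submatrix_apply, finSumFinEquiv_symm_apply_castAdd,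
    finSumFinEquiv_symm_apply_natAdd]
  rfl

theorem bmat_nc {q s q' r : ℕ} (A : Matrix (Fin q) (Fin q') K) (B : Matrix (Fin q) (Fin r) K)
    (C : Matrix (Fin s) (Fin q') K) (D : Matrix (Fin s) (Fin r) K) (i : Fin s) (j : Fin q') :
    bmat A B C D (Fin.natAdd q i) (Fin.castAdd r j) = C i j := by
  unfold bmat
  rw [Matrix.submatrix_apply, finSumFinEquiv_symm_apply_natAdd,
    finSumFinEquiv_symm_apply_castAdd]
  rfl

theorem bmat_nn {q s q' r : ℕ} (A : Matrix (Fin q) (Fin q') K) (B : Matrix (Fin q) (Fin r) K)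
    (C : Matrix (Fin s) (Fin q') K) (D : Matrix (Fin s) (Fin r) K) (i : Fin s) (j : Fin r) :
    bmat A B C D (Fin.natAdd q i) (Fin.natAdd q' j) = D i j := by
  unfold bmat
  rw [Matrix.submatrix_apply, finSumFinEquiv_symm_apply_natAdd,
    finSumFinEquiv_symm_apply_natAdd]
  rfl

/-- combinations of combinations -/
theorem comb_mul {M : Type} [AddCommGroup M] [Module K M] {s t n : ℕ}
    (A : Matrix (Fin s) (Fin t) K) (R : Matrix (Fin t) (Fin n) K) (E : Fin n → M) (k : Fin s) :
    ∑ l, A k l • (∑ j, R l j • E j) = ∑ j, (A * R) k j • E j := by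
  simp only [Finset.smul_sum, smul_smul]
  rw [Finset.sum_comm]
  refine Finset.sum_congr rfl fun j _ => ?_
  rw [← Finset.sum_smul, Matrix.mul_apply]

/-- **The order of a distribution** between two distributions. -/
theorem piece_minor (hy : NormalModel y) (hn : Algebra.trdeg ℂ K = n) {P : Place ℂ K}
    (hP : IsPrimeDivisor y P) {δ : ℚ} (hδ0 : 0 ≤ δ) (hδ1 : δ ≤ 1) {q r : ℕ}
    {B : Fin (q + r) → Derivation ℂ K K} {E : Fin n → Derivation ℂ K K} {i0 : Fin n}
    {Cp : Matrix (Fin (q + r)) (Fin n) K} (hA : Adapted δ P E i0)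
    (hBE : ∀ k, B k = ∑ j, Cp k j • E j) {U : Matrix (Fin (q + r)) (Fin (q + r)) K}
    {nk : Fin (q + r) → ℝ} (h3 : ∀ k j, GeR P (nk k - nuf δ i0 j) ((U * Cp) k j))
    (h1 : ∀ i, U i i = 1) (h2 : ∀ i j, i < j → U i j = 0) {s : ℕ} {c : Matrix (Fin s) (Fin r) K}
    {e : ℝ} (he : WedgeOrd n δ P (Fin.append (fun i : Fin q => B (Fin.castAdd r i))
      (fun j : Fin s => ∑ l, c j l • B (Fin.natAdd q l))) e) :
    ∃ I : Fin s → Fin r,
      ((c * (Matrix.of fun k l => U (Fin.natAdd q k) (Fin.natAdd q l))⁻¹).submatrix id I).det ≠ 0 ∧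
      P.ord ((c * (Matrix.of fun k l => U (Fin.natAdd q k) (Fin.natAdd q l))⁻¹).submatrix id I).det
        + ∑ j, nk (Fin.natAdd q (I j)) + ∑ k : Fin q, nk (Fin.castAdd r k) ≤ e := by
  classical
  obtain ⟨U', hU'⟩ : ∃ U' : Matrix (Fin r) (Fin r) K,
    U' = Matrix.of fun k l => U (Fin.natAdd q k) (Fin.natAdd q l) := ⟨_, rfl⟩
  rw [← hU']
  obtain ⟨c', hc'⟩ : ∃ c', c' = c * U'⁻¹ := ⟨_, rfl⟩
  rw [← hc']
  have hU'd : U'.det = 1 := by
    rw [hU']
    exact det_block h1 h2 (Fin.natAdd_injective _ q)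
  have hcU : c' * U' = c := by
    rw [hc', Matrix.mul_assoc, Matrix.nonsing_inv_mul _ (by rw [hU'd]; exact isUnit_one),
      Matrix.mul_one]
  obtain ⟨U11, hU11⟩ : ∃ U11 : Matrix (Fin q) (Fin q) K,
    U11 = Matrix.of fun k l => U (Fin.castAdd r k) (Fin.castAdd r l) := ⟨_, rfl⟩
  obtain ⟨U21, hU21⟩ : ∃ U21 : Matrix (Fin r) (Fin q) K,
    U21 = Matrix.of fun k l => U (Fin.natAdd q k) (Fin.castAdd r l) := ⟨_, rfl⟩
  have hU11d : U11.det = 1 := by
    rw [hU11]
    exact det_block h1 h2 (Fin.castAdd_injective q r)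
  obtain ⟨ct, hct⟩ : ∃ ct : Matrix (Fin (q + s)) (Fin (q + r)) K, ct = bmat 1 0 0 c' := ⟨_, rfl⟩
  obtain ⟨M0, hM0⟩ : ∃ M0 : Matrix (Fin (q + s)) (Fin (q + s)) K,
    M0 = bmat U11 0 (c' * U21) 1 := ⟨_, rfl⟩
  have hM0d : M0.det = 1 := by
    rw [hM0]
    unfold bmat
    rw [Matrix.det_submatrix_equiv_self, Matrix.det_fromBlocks_zero₁₂, hU11d, Matrix.det_one,
      mul_one]
  obtain ⟨F, hF⟩ : ∃ F : Fin (q + r) → Derivation ℂ K K, F = fun k => ∑ l, U k l • B l := ⟨_, rfl⟩
  obtain ⟨D'', hD''⟩ : ∃ D'' : Fin (q + s) → Derivation ℂ K K, D'' = fun k => ∑ l, ct k l • F l :=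
    ⟨_, rfl⟩
  obtain ⟨D, hD⟩ : ∃ D : Fin (q + s) → Derivation ℂ K K,
    D = Fin.append (fun i : Fin q => B (Fin.castAdd r i))
      (fun j : Fin s => ∑ l, c j l • B (Fin.natAdd q l)) := ⟨_, rfl⟩
  rw [← hD] at he
  have hDc : ∀ i, D (Fin.castAdd s i) = B (Fin.castAdd r i) := fun i => by
    rw [hD, Fin.append_left]
  have hDn : ∀ j, D (Fin.natAdd q j) = ∑ l, c j l • B (Fin.natAdd q l) := fun j => by
    rw [hD, Fin.append_right]
  have hDM : ∀ k, D'' k = ∑ l, M0 k l • D l := by
    intro k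
    rw [hD'']
    refine Fin.addCases (fun i => ?_) (fun j => ?_) k
    · change ∑ l, ct (Fin.castAdd s i) l • F l = _
      rw [Fin.sum_univ_add, Fin.sum_univ_add]
      have e1 : ∑ l : Fin r, ct (Fin.castAdd s i) (Fin.natAdd q l) • F (Fin.natAdd q l) = 0 :=
        Finset.sum_eq_zero fun l _ => by
          rw [hct, bmat_cn, Matrix.zero_apply, zero_smul]
      have e2 : ∑ l : Fin s, M0 (Fin.castAdd s i) (Fin.natAdd q l) • D (Fin.natAdd q l) = 0 :=
        Finset.sum_eq_zero fun l _ => by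
          rw [hM0, bmat_cn, Matrix.zero_apply, zero_smul]
      have e3 : ∑ l : Fin q, ct (Fin.castAdd s i) (Fin.castAdd r l) • F (Fin.castAdd r l) =
          F (Fin.castAdd r i) := by
        rw [Finset.sum_eq_single i]
        · rw [hct, bmat_cc, Matrix.one_apply_eq, one_smul]
        · intro l _ hl
          rw [hct, bmat_cc, Matrix.one_apply_ne (Ne.symm hl), zero_smul]
        · intro h
          exact absurd (Finset.mem_univ _) h
      rw [e1, e2, e3, add_zero, add_zero, hF]
      change ∑ l, U (Fin.castAdd r i) l • B l = _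
      rw [Fin.sum_univ_add]
      have e4 : ∑ l : Fin r, U (Fin.castAdd r i) (Fin.natAdd q l) • B (Fin.natAdd q l) = 0 :=
        Finset.sum_eq_zero fun l _ => by
          rw [h2 _ _ (by
            rw [Fin.lt_def, Fin.val_castAdd, Fin.val_natAdd]
            have := i.2
            omega), zero_smul]
      rw [e4, add_zero]
      refine Finset.sum_congr rfl fun l _ => ?_
      rw [hM0, bmat_cc, hDc, hU11]
      rfl
    · change ∑ l, ct (Fin.natAdd q j) l • F l = _
      rw [Fin.sum_univ_add, Fin.sum_univ_add]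
      have e1 : ∑ l : Fin q, ct (Fin.natAdd q j) (Fin.castAdd r l) • F (Fin.castAdd r l) = 0 :=
        Finset.sum_eq_zero fun l _ => by
          rw [hct, bmat_nc, Matrix.zero_apply, zero_smul]
      have e2 : ∑ l : Fin s, M0 (Fin.natAdd q j) (Fin.natAdd q l) • D (Fin.natAdd q l) =
          D (Fin.natAdd q j) := by
        rw [Finset.sum_eq_single j]
        · rw [hM0, bmat_nn, Matrix.one_apply_eq, one_smul]
        · intro l _ hl
          rw [hM0, bmat_nn, Matrix.one_apply_ne (Ne.symm hl), zero_smul]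
        · intro h
          exact absurd (Finset.mem_univ _) h
      have e3 : ∀ l : Fin r, ct (Fin.natAdd q j) (Fin.natAdd q l) • F (Fin.natAdd q l) =
          ∑ i : Fin q, (c' j l * U21 l i) • B (Fin.castAdd r i) +
          ∑ i : Fin r, (c' j l * U' l i) • B (Fin.natAdd q i) := by
        intro l
        rw [hct, bmat_nn, hF]
        change c' j l • ∑ i, U (Fin.natAdd q l) i • B i = _
        rw [Fin.sum_univ_add, smul_add, Finset.smul_sum, Finset.smul_sum, hU21, hU']
        simp only [smul_smul]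
        rfl
      rw [e1, e2, zero_add, Finset.sum_congr rfl fun l _ => e3 l, Finset.sum_add_distrib, hDn]
      congr 1
      · rw [Finset.sum_comm]
        refine Finset.sum_congr rfl fun i _ => ?_
        rw [← Finset.sum_smul, hM0, bmat_nc, hDc, Matrix.mul_apply]
      · rw [Finset.sum_comm]
        refine Finset.sum_congr rfl fun i _ => ?_
        rw [← Finset.sum_smul, ← hcU, Matrix.mul_apply]
  have he' := wedge_change (D' := D'') (by rw [hM0d]; exact one_ne_zero) hDM he
  rw [hM0d, P.ord_one, Int.cast_zero, add_zero] at he'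
  obtain ⟨E', i0', c2, hA', hDc2, hmin, I0, hI0, hI0e⟩ := he'
  obtain ⟨A, hAE, hAo⟩ := adapt_trans hy hn hP hδ0 hδ1 hA' hA
  have hE'li := frame_li hy hn hP hA'.1
  have hFE' : ∀ k, F k = ∑ j, (U * Cp * A) k j • E' j := by
    intro k
    have e1 : ∀ l, B l = ∑ j, (Cp * A) l j • E' j := by
      intro l
      rw [hBE l, ← comb_mul]
      exact Finset.sum_congr rfl fun j _ => by rw [hAE]
    rw [hF, Matrix.mul_assoc, ← comb_mul]
    exact Finset.sum_congr rfl fun l _ => by rw [e1]
  have hc2 : c2 = ct * (U * Cp * A) := by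
    ext k j
    have h4 : ∑ j, (c2 k j - (ct * (U * Cp * A)) k j) • E' j = 0 := by
      simp only [sub_smul, Finset.sum_sub_distrib]
      rw [← hDc2 k, ← comb_mul, sub_eq_zero, hD'']
      exact Finset.sum_congr rfl fun l _ => by rw [← hFE']
    exact sub_eq_zero.1 (Fintype.linearIndependent_iff.1 hE'li _ h4 j)
  have hR : ∀ k j, GeR P (nk k - nuf δ i0' j) ((U * Cp * A) k j) := by
    intro k j
    rw [Matrix.mul_apply]
    refine Pool.Agent.Y174.OB.geR_sum _ _ _ fun i _ => ?_
    refine ((h3 k i).mul (hAo i j)).mono (le_of_eq ?_)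
    ring
  -- the smallest order of the minors
  have hex : ∃ J : Fin (q + s) → Fin (q + r), (ct.submatrix id J).det ≠ 0 := by
    by_contra hcon
    push Not at hcon
    apply hI0
    rw [hc2, minor_expand2]
    exact Finset.sum_eq_zero fun J _ => by rw [hcon J, mul_zero]
  obtain ⟨J0, hJ0⟩ := hex
  obtain ⟨J, hJ, hJmin⟩ := Finset.exists_min_image
    (Finset.univ.filter fun J : Fin (q + s) → Fin (q + r) => (ct.submatrix id J).det ≠ 0)
    (fun J => (P.ord (ct.submatrix id J).det : ℝ) + ∑ a, nk (J a)) ⟨J0, by simpa using hJ0⟩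
  have hJn : (ct.submatrix id J).det ≠ 0 := (Finset.mem_filter.1 hJ).2
  have hle : (P.ord (ct.submatrix id J).det : ℝ) + ∑ a, nk (J a) ≤ e := by
    have h4 : GeR P ((P.ord (ct.submatrix id J).det : ℝ) + ∑ a, nk (J a) -
        ∑ a, nuf δ i0' (I0 a)) (c2.submatrix id I0).det := by
      rw [hc2, minor_expand2]
      refine Pool.Agent.Y174.OB.geR_sum _ _ _ fun J' _ => ?_
      by_cases h0 : (ct.submatrix id J').det = 0
      · left
        rw [h0, mul_zero]
      · have h5 := geR_prod' (P := P) (fun a => nk (J' a) - nuf δ i0' (I0 a)) _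
          (fun a => hR (J' a) (I0 a))
        have h6 : GeR P (P.ord (ct.submatrix id J').det : ℝ) (ct.submatrix id J').det :=
          Or.inr le_rfl
        refine (h5.mul h6).mono ?_
        have h7 := hJmin J' (by simpa using h0)
        rw [Finset.sum_sub_distrib]
        linarith
    have h5 := h4.resolve_left hI0
    rw [sum_nuf] at h5
    rw [hI0e]
    linarith
  obtain ⟨I, hI1, hI2, hI3⟩ := minor_red P (q := q) (s := s) (r := r) (c := c')
    (I := fun x => finSumFinEquiv.symm (J (finSumFinEquiv x))) (by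
      have h4 : (Matrix.fromBlocks (1 : Matrix (Fin q) (Fin q) K) 0 0 c').submatrix id
          (fun x => finSumFinEquiv.symm (J (finSumFinEquiv x))) =
          (ct.submatrix id J).submatrix finSumFinEquiv finSumFinEquiv := by
        ext a b
        rw [hct]
        unfold bmat
        rw [Matrix.submatrix_apply, Matrix.submatrix_apply, Matrix.submatrix_apply,
          Matrix.submatrix_apply, id, id, Equiv.symm_apply_apply]
      rw [h4, Matrix.det_submatrix_equiv_self]
      exact hJn) (fun x => nk (finSumFinEquiv x))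
  have h4 : ((Matrix.fromBlocks (1 : Matrix (Fin q) (Fin q) K) 0 0 c').submatrix id
      (fun x => finSumFinEquiv.symm (J (finSumFinEquiv x)))).det = (ct.submatrix id J).det := by
    have h5 : (Matrix.fromBlocks (1 : Matrix (Fin q) (Fin q) K) 0 0 c').submatrix id
        (fun x => finSumFinEquiv.symm (J (finSumFinEquiv x))) =
        (ct.submatrix id J).submatrix finSumFinEquiv finSumFinEquiv := by
      ext a b
      rw [hct]
      unfold bmat
      rw [Matrix.submatrix_apply, Matrix.submatrix_apply, Matrix.submatrix_apply,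
        Matrix.submatrix_apply, id, id, Equiv.symm_apply_apply]
    rw [h5, Matrix.det_submatrix_equiv_self]
  refine ⟨I, hI1, ?_⟩
  rw [h4] at hI2
  rw [hI2]
  have h5 : ∑ a, nk (J a) = ∑ x : Fin q ⊕ Fin s, nk (J (finSumFinEquiv x)) :=
    (Equiv.sum_comp finSumFinEquiv fun a => nk (J a)).symm
  rw [h5] at hle
  have h6 : ∑ x : Fin q ⊕ Fin s, nk (J (finSumFinEquiv x)) =
      ∑ k : Fin q, nk (Fin.castAdd r k) + ∑ j, nk (Fin.natAdd q (I j)) := by
    have h7 : ∑ x : Fin q ⊕ Fin s, nk (finSumFinEquiv (finSumFinEquiv.symm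
        (J (finSumFinEquiv x)))) = ∑ i : Fin q, nk (finSumFinEquiv (Sum.inl i)) +
        ∑ j, nk (finSumFinEquiv (Sum.inr (I j))) := hI3
    simp only [Equiv.apply_symm_apply] at h7
    exact h7
  rw [h6] at hle
  linarith

end

end Pool.Agent.H897
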