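import Pool.Agent.H897.JG
import Pool.Agent.H897.GB

/-!
Tensors on several stable subquotients of the space of the rational vector fields.
-/

set_option autoImplicit false
set_option linter.overlappingInstances false
set_option linter.unusedSectionVars false

open MvPolynomial FF Pool.Agent.W602.GT Pool.Agent.Y172 Pool.Agent.NH31 Pool.Agent.W603.LV
open Pool.Agent.N133.TB Pool.Agent.Y174 Pool.Agent.TH466.QG

namespace Pool.Agent.H897

section

variable {K M : Type} [Field K] [AddCommGroup M] [Module K M] {m : ℕ}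

/-- a multilinear form on the product of the `V s` which vanishes if an argument is in `W s` -/
theorem mul_congr_dep {W V : Fin m → Submodule K M} (T : MultilinearMap K (fun s : Fin m => V s) K)
    (hTW : ∀ D : (s : Fin m) → V s, (∃ s, (D s : M) ∈ W s) → T D = 0)
    {x x' : (s : Fin m) → V s} (h : ∀ s, (x s : M) - (x' s : M) ∈ W s) : T x = T x' := by
  classical
  have key : ∀ S : Finset (Fin m), T (fun s => if s ∈ S then x s else x' s) = T x' := by
    intro S
    induction S using Finset.induction_on with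
    | empty => simp
    | insert a S ha ih =>
      rw [← ih]
      obtain ⟨z, hz⟩ : ∃ z : (s : Fin m) → V s, z = fun s => if s ∈ S then x s else x' s :=
        ⟨_, rfl⟩
      have h1 : (fun s => if s ∈ insert a S then x s else x' s) = Function.update z a (x a) := by
        funext s
        by_cases hs : s = a
        · subst hs
          simp
        · rw [Function.update_of_ne hs, hz]
          simp [hs]
      have h2 : z = Function.update z a (x' a) := by
        funext s
        by_cases hs : s = a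
        · subst hs
          rw [Function.update_self, hz]
          simp [ha]
        · rw [Function.update_of_ne hs]
      have h3 : T (Function.update z a (x a)) - T (Function.update z a (x' a)) = 0 := by
        rw [← MultilinearMap.map_update_sub]
        refine hTW _ ⟨a, ?_⟩
        rw [Function.update_self]
        exact h a
      rw [h1, ← hz]
      conv_rhs => rw [h2]
      exact sub_eq_zero.1 h3
  have h1 := key Finset.univ
  simp only [Finset.mem_univ, if_true] at h1
  exact h1

/-- independence -/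
theorem append_li {q r s : ℕ} {B : Fin (q + r) → M} (hB : LinearIndependent K B)
    {c : Matrix (Fin s) (Fin r) K} (hc : LinearIndependent K fun j => c j) :
    LinearIndependent K (Fin.append (fun i : Fin q => B (Fin.castAdd r i))
      (fun j : Fin s => ∑ l, c j l • B (Fin.natAdd q l))) := by
  rw [Fintype.linearIndependent_iff] at hB hc ⊢
  intro g hg
  have h1 : ∑ x, (Fin.append (fun i : Fin q => g (Fin.castAdd s i))
      (fun l : Fin r => ∑ j, g (Fin.natAdd q j) * c j l)) x • B x = 0 := by
    rw [← hg, Fin.sum_univ_add, Fin.sum_univ_add]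
    congr 1
    · refine Finset.sum_congr rfl fun i _ => ?_
      rw [Fin.append_left, Fin.append_left]
    · simp only [Fin.append_right, Finset.sum_smul, Finset.smul_sum, smul_smul]
      rw [Finset.sum_comm]
  have h2 := hB _ h1
  have h3 : ∀ i, g (Fin.castAdd s i) = 0 := by
    intro i
    have h4 := h2 (Fin.castAdd r i)
    rwa [Fin.append_left] at h4
  have h4 := hc (fun j => g (Fin.natAdd q j)) (by
    funext l
    have h5 := h2 (Fin.natAdd q l)
    rw [Fin.append_right] at h5
    rw [Finset.sum_apply, Pi.zero_apply, ← h5]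
    rfl)
  intro x
  refine Fin.addCases h3 h4 x

end

section

variable {K : Type} [Field K] [Algebra ℂ K] {N n : ℕ} {y : Fin (N + 1) → K}

/-- `T`, a multilinear form on `V 0 × ⋯ × V (m - 1)`, is regular along the prime divisor `P`, with
values in a divisor with the coefficient `ℓ`: the order of `T D` is at least the sum of the orders
of the vector fields `D s`, minus `ℓ`. -/
def MixedTensorAt (n : ℕ) (δ ℓ : ℚ) (P : Place ℂ K) {m : ℕ}
    {V : Fin m → Submodule K (Derivation ℂ K K)} (T : MultilinearMap K (fun s => V s) K) : Prop :=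
  ∀ (D : (s : Fin m) → V s) (e : Fin m → ℝ),
    (∀ s, WedgeOrd n δ P (fun _ : Fin 1 => (D s : Derivation ℂ K K)) (e s)) →
      T D = 0 ∨ ∑ s, e s - ℓ ≤ P.ord (T D)

/-- The divisor class `L - ∑ s, det (V (J s) / W (J s)) / rk (V (J s) / W (J s))` is
`ℚ`-effective: here `DW i`, `DV i` are bases of `W i`, `V i`, and `eV i - eW i` is the order of the
induced section of `det (V i / W i)`. -/
def MixedEff (y : Fin (N + 1) → K) (n : ℕ) (Δ : Place ℂ K → ℚ) {k m : ℕ}
    (W V : Fin k → Submodule K (Derivation ℂ K K)) (J : Fin m → Fin k) (L : Place ℂ K → ℚ) :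
    Prop :=
  ∃ (q t : Fin k → ℕ) (DW : (i : Fin k) → Fin (q i) → Derivation ℂ K K)
    (DV : (i : Fin k) → Fin (t i) → Derivation ℂ K K),
    (∀ i, LinearIndependent K (DW i) ∧ LinearIndependent K (DV i) ∧
      Submodule.span K (Set.range (DW i)) = W i ∧ Submodule.span K (Set.range (DV i)) = V i) ∧
    ∃ (N0 : ℕ) (g : K), 1 ≤ N0 ∧ g ≠ 0 ∧ ∀ P, IsPrimeDivisor y P → ∀ eW eV : Fin k → ℝ,
      (∀ i, WedgeOrd n (Δ P) P (DW i) (eW i)) → (∀ i, WedgeOrd n (Δ P) P (DV i) (eV i)) →
        N0 * (∑ s, (eV (J s) - eW (J s)) / ((t (J s) : ℝ) - q (J s)) - L P) ≤ P.ord g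

/-- an adapted basis -/
theorem piece_basis (hy : NormalModel y) (hn : Algebra.trdeg ℂ K = n)
    {W V : Submodule K (Derivation ℂ K K)} (hWV : W < V) :
    ∃ (q r : ℕ) (B : Fin (q + r) → Derivation ℂ K K), 1 ≤ r ∧ LinearIndependent K B ∧
      Submodule.span K (Set.range fun i : Fin q => B (Fin.castAdd r i)) = W ∧
      Submodule.span K (Set.range B) = V := by
  classical
  have hess := hy.ess
  obtain ⟨x, E0, hx, hE0⟩ := exists_crd hn
  have hsp := span_of_frame (frame_of_dual hx hE0)
  have hfin0 : Module.Finite K (Derivation ℂ K K) :=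
    ⟨⟨Finset.univ.image E0, by rw [Finset.coe_image, Finset.coe_univ, Set.image_univ, hsp]⟩⟩
  obtain ⟨C1, hC1⟩ := Submodule.exists_isCompl W
  obtain ⟨V', hV'⟩ : ∃ V' : Submodule K (Derivation ℂ K K), V' = C1 ⊓ V := ⟨_, rfl⟩
  have hV'V : V' ≤ V := by
    rw [hV']
    exact inf_le_right
  have hsup : W ⊔ V' = V := by
    rw [hV', ← sup_inf_assoc_of_le C1 hWV.le, hC1.sup_eq_top, top_inf_eq]
  have hinf : W ⊓ V' = ⊥ := by
    rw [eq_bot_iff, hV', ← hC1.inf_eq_bot]
    exact inf_le_inf_left _ inf_le_left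
  obtain ⟨q, hq⟩ : ∃ q, q = Module.finrank K W := ⟨_, rfl⟩
  obtain ⟨r, hr⟩ : ∃ r, r = Module.finrank K V' := ⟨_, rfl⟩
  have hqr : Module.finrank K V = q + r := by
    have h1 := Submodule.finrank_sup_add_finrank_inf_eq W V'
    rw [hsup, hinf, finrank_bot, add_zero] at h1
    rw [h1, hq, hr]
  have hr1 : 1 ≤ r := by
    have h1 := Submodule.finrank_lt_finrank_of_lt hWV
    omega
  obtain ⟨DW, hDWs⟩ : ∃ DW : Fin q → Derivation ℂ K K,
      Submodule.span K (Set.range DW) = W := by
    subst hq
    obtain ⟨DW, -, h⟩ := exists_bas hy hn W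
    exact ⟨DW, h⟩
  obtain ⟨D', hD's⟩ : ∃ D' : Fin r → Derivation ℂ K K,
      Submodule.span K (Set.range D') = V' := by
    subst hr
    obtain ⟨D', -, h⟩ := exists_bas hy hn V'
    exact ⟨D', h⟩
  obtain ⟨B, hB⟩ : ∃ B : Fin (q + r) → Derivation ℂ K K, B = Fin.append DW D' := ⟨_, rfl⟩
  have hB1 : ∀ i, B (Fin.castAdd r i) = DW i := fun i => by rw [hB, Fin.append_left]
  have hB2 : ∀ k, B (Fin.natAdd q k) = D' k := fun k => by rw [hB, Fin.append_right]
  have hBspan : Submodule.span K (Set.range B) = V := by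
    apply le_antisymm
    · rw [Submodule.span_le]
      rintro _ ⟨i, rfl⟩
      refine Fin.addCases (fun i => ?_) (fun k => ?_) i
      · rw [hB1, ← hsup]
        refine Submodule.mem_sup_left ?_
        rw [← hDWs]
        exact Submodule.subset_span ⟨i, rfl⟩
      · rw [hB2]
        refine hV'V ?_
        rw [← hD's]
        exact Submodule.subset_span ⟨k, rfl⟩
    · rw [← hsup, sup_le_iff]
      constructor
      · rw [← hDWs, Submodule.span_le]
        rintro _ ⟨i, rfl⟩
        exact Submodule.subset_span ⟨Fin.castAdd r i, hB1 i⟩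
      · rw [← hD's, Submodule.span_le]
        rintro _ ⟨k, rfl⟩
        exact Submodule.subset_span ⟨Fin.natAdd q k, hB2 k⟩
  refine ⟨q, r, B, hr1, ?_, ?_, hBspan⟩
  · rw [linearIndependent_iff_card_eq_finrank_span, Fintype.card_fin]
    unfold Set.finrank
    rw [hBspan, hqr]
  · simp only [hB1]
    exact hDWs

/-- **Tensors on several stable subquotients.** -/
theorem mixed_eff (hy : NormalModel y) (hn : Algebra.trdeg ℂ K = n)
    {Δ : Place ℂ K → ℚ} (hΔ : Boundary y Δ) {α : Place ℂ K → ℝ} (hα : MovableClass y α)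
    {k m : ℕ} {W V : Fin k → Submodule K (Derivation ℂ K K)} (hWV : ∀ i, W i < V i)
    (hst : ∀ i, StablePiece y n Δ α (W i) (V i)) (hm : 1 ≤ m) {J : Fin m → Fin k}
    {T : MultilinearMap K (fun s : Fin m => V (J s)) K} (hT0 : T ≠ 0)
    (hTW : ∀ (D : (s : Fin m) → V (J s)), (∃ s, (D s : Derivation ℂ K K) ∈ W (J s)) → T D = 0)
    {L : Place ℂ K → ℚ} {lam : ℝ} (hL : HasDeg y α (fun P => L P) lam)
    (hdeg : ∀ dW dV : Fin k → ℝ, (∀ i, SubDeg y n Δ α (W i) (dW i)) →
      (∀ i, SubDeg y n Δ α (V i) (dV i)) → lam ≤ ∑ s, (dV (J s) - dW (J s)) /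
        ((Module.finrank K (V (J s)) : ℝ) - Module.finrank K (W (J s))))
    (hTO : ∀ P, IsPrimeDivisor y P → MixedTensorAt n (Δ P) (L P) P T) :
    MixedEff y n Δ W V J L := by
  classical
  have hess := hy.ess
  obtain ⟨x, E0, hx, hE0⟩ := exists_crd hn
  obtain ⟨w, hwf, hw⟩ := exists_canon hy hn hx hE0
  have hfr : IsFrame E0 := frame_of_dual hx hE0
  choose q r B hr hB hBW hBV using fun i => piece_basis hy hn (hWV i)
  have hBW' : ∀ i, LinearIndependent K fun j : Fin (q i) => B i (Fin.castAdd (r i) j) :=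
    fun i => (hB i).comp _ (Fin.castAdd_injective _ _)
  have hfW : ∀ i, Module.finrank K (W i) = q i := fun i => card_of_span (hBW' i) (hBW i)
  have hfV : ∀ i, Module.finrank K (V i) = q i + r i := fun i => card_of_span (hB i) (hBV i)
  -- the orders and the degrees
  choose eV heV heVf using fun i => wedge_fun hy hn hΔ.2 (hB i)
  choose eW heW heWf using fun i => wedge_fun hy hn hΔ.2 (hBW' i)
  choose dV hdV using fun i => hasDeg_of_fin α (heVf i)
  choose dW hdW using fun i => hasDeg_of_fin α (heWf i)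
  have hsW : ∀ i, SubDeg y n Δ α (W i) (dW i) := fun i =>
    ⟨q i, _, eW i, hBW' i, hBW i, heW i, hdW i⟩
  have hsV : ∀ i, SubDeg y n Δ α (V i) (dV i) := fun i =>
    ⟨q i + r i, _, eV i, hB i, hBV i, heV i, hdV i⟩
  -- the local data
  choose B0 hB0 using fun i => exists_coords hfr (B i)
  have hlocd : ∀ (i : Fin k) (P : Place ℂ K),
      ∃ (U : Matrix (Fin (q i + r i)) (Fin (q i + r i)) K) (nk : Fin (q i + r i) → ℝ)
      (E : Fin n → Derivation ℂ K K) (i0 : Fin n) (Cp : Matrix (Fin (q i + r i)) (Fin n) K),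
      IsPrimeDivisor y P → (Adapted (Δ P) P E i0 ∧ (∀ k, B i k = ∑ j, Cp k j • E j) ∧
      (∀ k j, GeR P (nk k - nuf (Δ P) i0 j) ((U * Cp) k j)) ∧
      (∀ i, U i i = 1) ∧ (∀ i j, i < j → U i j = 0) ∧
      (∀ (s : ℕ) (hs : s ≤ q i + r i), WedgeOrd n (Δ P) P
        (fun j : Fin s => B i (Fin.castLE hs j)) (∑ k : Fin s, nk (Fin.castLE hs k))) ∧
      (∀ k, ∃ e : ℝ, nk k ≤ e ∧ WedgeOrd n (Δ P) P (fun _ : Fin 1 => ∑ l, U k l • B i l) e)) := by
    intro i P
    by_cases hP : IsPrimeDivisor y P
    · obtain ⟨U, nk, E, i0, Cp, h1, h2, h3, h4, h5, h6, h7, -, -⟩ :=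
        loc_rect2 hy hn hx hE0 hw (hB i) (hB0 i) Δ hP
      exact ⟨U, nk, E, i0, Cp, fun _ => ⟨h1, h2, h3, h4, h5, h6, h7⟩⟩
    · exact ⟨1, fun _ => 0, E0, ⟨0, by
        have h1 := hr i
        have h2 := hy
        by_contra hcon
        have h3 : n = 0 := by omega
        subst h3
        have h4 := card_of_span (hB i) rfl
        have h5 : Module.finrank K (Submodule.span K (Set.range (B i))) ≤ 0 := by
          have h6 : (⊤ : Submodule K (Derivation ℂ K K)) = ⊥ := by
            rw [← span_of_frame hfr]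
            rw [Set.range_eq_empty]
            exact Submodule.span_empty
          have h7 : Submodule.span K (Set.range (B i)) = ⊥ := by
            rw [eq_bot_iff, ← h6]
            exact le_top
          rw [h7, finrank_bot]
        omega⟩, 0, fun h => absurd h hP⟩
  choose U nk Ef i0f Cp hdat using hlocd
  obtain ⟨UP, hUP⟩ : ∃ UP : Place ℂ K → (i : Fin k) → Matrix (Fin (r i)) (Fin (r i)) K,
    UP = fun P i => Matrix.of fun a b => U i P (Fin.natAdd (q i) a) (Fin.natAdd (q i) b) :=
    ⟨_, rfl⟩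
  obtain ⟨nu, hnu⟩ : ∃ nu : Place ℂ K → (i : Fin k) → Fin (r i) → ℝ,
    nu = fun P i l => nk i P (Fin.natAdd (q i) l) := ⟨_, rfl⟩
  have hUPd : ∀ P, IsPrimeDivisor y P → ∀ i, (UP P i).det = 1 := by
    intro P hP i
    rw [hUP]
    exact det_block (hdat i P hP).2.2.2.1 (hdat i P hP).2.2.2.2.1 (Fin.natAdd_injective _ _)
  have hWnk : ∀ P, IsPrimeDivisor y P → ∀ i, eW i P = ∑ j : Fin (q i), nk i P
      (Fin.castAdd (r i) j) := fun P hP i =>
    wedge_unique hy hn hP (hΔ.1 P hP).1 (hΔ.1 P hP).2 (heW i P hP)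
      ((hdat i P hP).2.2.2.2.2.1 (q i) (Nat.le_add_right _ _))
  have hVnk : ∀ P, IsPrimeDivisor y P → ∀ i, eV i P = ∑ j, nk i P j := fun P hP i =>
    wedge_unique hy hn hP (hΔ.1 P hP).1 (hΔ.1 P hP).2 (heV i P hP)
      ((hdat i P hP).2.2.2.2.2.1 (q i + r i) le_rfl)
  have hnus : ∀ P, IsPrimeDivisor y P → ∀ i, ∑ l, nu P i l = eV i P - eW i P := by
    intro P hP i
    rw [hVnk P hP i, hWnk P hP i, Fin.sum_univ_add, add_sub_cancel_left, hnu]
  -- the form on the blocks
  obtain ⟨φ, hφ⟩ : ∃ φ : (i : Fin k) → (Fin (r i) → K) →ₗ[K] V i, ∀ i v,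
      (φ i v : Derivation ℂ K K) = ∑ l, v l • B i (Fin.natAdd (q i) l) := by
    have hmem : ∀ i (l : Fin (r i)), B i (Fin.natAdd (q i) l) ∈ V i := by
      intro i l
      rw [← hBV i]
      exact Submodule.subset_span ⟨_, rfl⟩
    refine ⟨fun i => Fintype.linearCombination K fun l =>
      (⟨B i (Fin.natAdd (q i) l), hmem i l⟩ : V i), fun i v => ?_⟩
    rw [Fintype.linearCombination_apply, Submodule.coe_sum]
    rfl
  obtain ⟨TJ, hTJ⟩ : ∃ TJ : MultilinearMap K (fun s : Fin m => (Fin (r (J s)) → K)) K,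
    TJ = T.compLinearMap fun s => φ (J s) := ⟨_, rfl⟩
  have hproj : ∀ (i : Fin k) (v : V i), ∃ c : Fin (r i) → K,
      (v : Derivation ℂ K K) - (φ i c : Derivation ℂ K K) ∈ W i := by
    intro i v
    have h1 : (v : Derivation ℂ K K) ∈ Submodule.span K (Set.range (B i)) := by
      rw [hBV i]
      exact v.2
    obtain ⟨a, ha⟩ := (Submodule.mem_span_range_iff_exists_fun K).1 h1
    refine ⟨fun l => a (Fin.natAdd (q i) l), ?_⟩
    rw [← ha, hφ, Fin.sum_univ_add, add_sub_cancel_right, ← hBW i]
    exact Submodule.sum_mem _ fun l _ => Submodule.smul_mem _ _ (Submodule.subset_span ⟨l, rfl⟩)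
  have hTJ0 : TJ ≠ 0 := by
    intro h0
    apply hT0
    refine MultilinearMap.ext fun D => ?_
    choose c hc using fun s => hproj (J s) (D s)
    rw [mul_congr_dep T hTW (x' := fun s => φ (J s) (c s)) hc]
    have h1 := congrArg (fun t : MultilinearMap K (fun s : Fin m => (Fin (r (J s)) → K)) K => t c) h0
    rw [hTJ] at h1
    exact h1
  obtain ⟨N0, g, hN0, hg, hfin⟩ := block_thm (y := y) hα hr hm (T := TJ) hTJ0 (U := UP) hUPd
    (nu := nu) (ℓ := fun P => (L P : ℝ)) (fun P hP I => by
      have hmem : ∀ (i : Fin k) a, ∑ l, U i P a l • B i l ∈ V i := by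
        intro i a
        rw [← hBV i]
        exact Submodule.sum_mem _ fun l _ => Submodule.smul_mem _ _
          (Submodule.subset_span ⟨l, rfl⟩)
      choose e he1 he2 using fun i a => (hdat i P hP).2.2.2.2.2.2 a
      have h6 := hTO P hP (fun s => ⟨_, hmem (J s) (Fin.natAdd (q (J s)) (I s))⟩)
        (fun s => e (J s) (Fin.natAdd (q (J s)) (I s))) (fun s => he2 _ _)
      have h7 := mul_congr_dep T hTW
        (x := fun s => (⟨_, hmem (J s) (Fin.natAdd (q (J s)) (I s))⟩ : V (J s)))
        (x' := fun s => φ (J s) (UP P (J s) (I s))) (fun s => by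
          rw [hφ]
          change ∑ l, U (J s) P (Fin.natAdd (q (J s)) (I s)) l • B (J s) l -
            ∑ l, UP P (J s) (I s) l • B (J s) (Fin.natAdd (q (J s)) l) ∈ W (J s)
          rw [Fin.sum_univ_add]
          have h9 : ∑ l, UP P (J s) (I s) l • B (J s) (Fin.natAdd (q (J s)) l) =
              ∑ l, U (J s) P (Fin.natAdd (q (J s)) (I s)) (Fin.natAdd (q (J s)) l) •
                B (J s) (Fin.natAdd (q (J s)) l) := by
            rw [hUP]
            rfl
          rw [h9, add_sub_cancel_right, ← hBW (J s)]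
          exact Submodule.sum_mem _ fun l _ => Submodule.smul_mem _ _
            (Submodule.subset_span ⟨l, rfl⟩))
      have h8 : TJ (fun s => UP P (J s) (I s)) = T fun s => φ (J s) (UP P (J s) (I s)) := by
        rw [hTJ]
        rfl
      rw [h8, ← h7]
      have h9 : GeR P (∑ s, e (J s) (Fin.natAdd (q (J s)) (I s)) - L P)
          (T fun s => (⟨_, hmem (J s) (Fin.natAdd (q (J s)) (I s))⟩ : V (J s))) := h6
      refine h9.mono ?_
      have h10 : ∑ s, nu P (J s) (I s) ≤ ∑ s, e (J s) (Fin.natAdd (q (J s)) (I s)) :=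
        Finset.sum_le_sum fun s _ => by
          rw [hnu]
          exact he1 _ _
      linarith) (dg := fun i => dV i + (-1) * dW i)
    (fun i => ((hdV i).add ((hdW i).smul (-1))).congr fun P hP => by
      rw [hnus P hP i]
      ring) (lam := lam) hL (by
      have h1 := hdeg dW dV hsW hsV
      refine h1.trans (le_of_eq (Finset.sum_congr rfl fun s _ => ?_))
      rw [hfV, hfW]
      push_cast
      rw [add_sub_cancel_left]
      congr 1
      ring) (fun i s c hs1 hsr hc => by
      obtain ⟨D, hD⟩ : ∃ D : Fin (q i + s) → Derivation ℂ K K,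
        D = Fin.append (fun j : Fin (q i) => B i (Fin.castAdd (r i) j))
          (fun j : Fin s => ∑ l, c j l • B i (Fin.natAdd (q i) l)) := ⟨_, rfl⟩
      have hDli : LinearIndependent K D := by
        rw [hD]
        exact append_li (hB i) hc
      obtain ⟨G, hG⟩ : ∃ G, G = Submodule.span K (Set.range D) := ⟨_, rfl⟩
      have hfG : Module.finrank K G = q i + s := card_of_span hDli hG.symm
      have hWG : W i < G := by
        refine lt_of_le_of_ne ?_ fun h => ?_
        · rw [← hBW i, hG, Submodule.span_le]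
          rintro _ ⟨j, rfl⟩
          refine Submodule.subset_span ⟨Fin.castAdd s j, ?_⟩
          rw [hD, Fin.append_left]
        · have h1 := hfW i
          rw [h, hfG] at h1
          omega
      have hGV : G < V i := by
        refine lt_of_le_of_ne ?_ fun h => ?_
        · rw [hG, Submodule.span_le]
          rintro _ ⟨j, rfl⟩
          change D j ∈ V i
          rw [← hBV i, hD]
          refine Fin.addCases (fun j => ?_) (fun j => ?_) j
          · rw [Fin.append_left]
            exact Submodule.subset_span ⟨_, rfl⟩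
          · rw [Fin.append_right]
            exact Submodule.sum_mem _ fun l _ => Submodule.smul_mem _ _
              (Submodule.subset_span ⟨_, rfl⟩)
        · have h1 := hfV i
          rw [← h, hfG] at h1
          omega
      obtain ⟨eG, heG, heGf⟩ := wedge_fun hy hn hΔ.2 hDli
      obtain ⟨dG, hdG⟩ := hasDeg_of_fin α heGf
      have h1 := hst i G _ _ _ hWG hGV (hsW i) ⟨_, D, eG, hDli, hG.symm, heG, hdG⟩ (hsV i)
      rw [hfV, hfW, hfG] at h1
      push_cast at h1
      rw [add_sub_cancel_left, add_sub_cancel_left] at h1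
      refine ⟨fun P => eG P + (-1) * eW i P, dG + (-1) * dW i, hdG.add ((hdW i).smul (-1)), ?_,
        fun P hP => ?_⟩
      · have h2 : dG + (-1) * dW i = dG - dW i := by ring
        have h3 : dV i + (-1) * dW i = dV i - dW i := by ring
        change (r i : ℝ) * (dG + (-1) * dW i) < s * (dV i + (-1) * dW i)
        rw [h2, h3]
        exact h1
      · have hWD := heG P hP
        rw [hD] at hWD
        obtain ⟨I, hI1, hI2⟩ := piece_minor hy hn hP (hΔ.1 P hP).1 (hΔ.1 P hP).2
          (hdat i P hP).1 (hdat i P hP).2.1 (hdat i P hP).2.2.1 (hdat i P hP).2.2.2.1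
          (hdat i P hP).2.2.2.2.1 hWD
        have h2 : UP P i = Matrix.of fun a b => U i P (Fin.natAdd (q i) a)
            (Fin.natAdd (q i) b) := by rw [hUP]
        rw [← h2] at hI1 hI2
        refine ⟨I, hI1, ?_⟩
        have h3 : ∑ j, nu P i (I j) = ∑ j, nk i P (Fin.natAdd (q i) (I j)) := by rw [hnu]
        change _ ≤ eG P + (-1) * eW i P
        rw [h3, hWnk P hP i]
        linarith)
  refine ⟨q, fun i => q i + r i, fun i j => B i (Fin.castAdd (r i) j), B,
    fun i => ⟨hBW' i, hB i, hBW i, hBV i⟩, N0, g, hN0, hg, fun P hP eW' eV' h1 h2 => ?_⟩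
  have h3 := hfin P hP
  refine le_trans (le_of_eq ?_) h3
  congr 2
  refine Finset.sum_congr rfl fun s _ => ?_
  rw [hnus P hP, wedge_unique hy hn hP (hΔ.1 P hP).1 (hΔ.1 P hP).2 (h1 (J s)) (heW (J s) P hP),
    wedge_unique hy hn hP (hΔ.1 P hP).1 (hΔ.1 P hP).2 (h2 (J s)) (heV (J s) P hP)]
  push_cast
  rw [add_sub_cancel_left]

end

end Pool.Agent.H897
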