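import Pool.Agent.H897.JH

/-!
Jordan-Hölder filtrations of a semistable orbifold tangent sheaf, and the tensors.
-/

set_option autoImplicit false
set_option linter.overlappingInstances false
set_option linter.unusedSectionVars false

open MvPolynomial FF Pool.Agent.W602.GT Pool.Agent.Y172 Pool.Agent.NH31 Pool.Agent.W603.LV
open Pool.Agent.N133.TB Pool.Agent.Y174 Pool.Agent.TH466.QG

namespace Pool.Agent.H897

section

variable {K : Type} [Field K] [Algebra ℂ K] {N n : ℕ} {y : Fin (N + 1) → K}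

theorem ord_prod (P : Place ℂ K) {ι : Type} (S : Finset ι) {f : ι → K} (hf : ∀ i ∈ S, f i ≠ 0) :
    (P.ord (∏ i ∈ S, f i) : ℝ) = ∑ i ∈ S, (P.ord (f i) : ℝ) := by
  classical
  induction S using Finset.induction_on with
  | empty => simp [P.ord_one]
  | insert a S ha ih =>
    have h1 := ih fun i hi => hf i (Finset.mem_insert_of_mem hi)
    rw [Finset.prod_insert ha, Finset.sum_insert ha, P.ord_mul (hf a (Finset.mem_insert_self _ _))
      (Finset.prod_ne_zero_iff.2 fun i hi => hf i (Finset.mem_insert_of_mem hi))]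
    push_cast
    rw [h1]

/-- the definition does not depend on the bases -/
theorem MixedEff.basis (hy : NormalModel y) (hn : Algebra.trdeg ℂ K = n) {Δ : Place ℂ K → ℚ}
    (hΔ : Boundary y Δ) {k m : ℕ} {W V : Fin k → Submodule K (Derivation ℂ K K)}
    (hWV : ∀ i, W i < V i) {J : Fin m → Fin k} {L : Place ℂ K → ℚ} (h : MixedEff y n Δ W V J L)
    {q t : Fin k → ℕ} {DW : (i : Fin k) → Fin (q i) → Derivation ℂ K K}
    {DV : (i : Fin k) → Fin (t i) → Derivation ℂ K K}
    (hD : ∀ i, LinearIndependent K (DW i) ∧ LinearIndependent K (DV i) ∧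
      Submodule.span K (Set.range (DW i)) = W i ∧ Submodule.span K (Set.range (DV i)) = V i) :
    ∃ (N0 : ℕ) (g : K), 1 ≤ N0 ∧ g ≠ 0 ∧ ∀ P, IsPrimeDivisor y P → ∀ eW eV : Fin k → ℝ,
      (∀ i, WedgeOrd n (Δ P) P (DW i) (eW i)) → (∀ i, WedgeOrd n (Δ P) P (DV i) (eV i)) →
        N0 * (∑ s, (eV (J s) - eW (J s)) / ((t (J s) : ℝ) - q (J s)) - L P) ≤ P.ord g := by
  classical
  obtain ⟨q', t', DW', DV', hD', N0, g, hN0, hg, h5⟩ := h
  obtain rfl : q' = q := by
    funext i
    rw [← card_of_span (hD' i).1 (hD' i).2.2.1, ← card_of_span (hD i).1 (hD i).2.2.1]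
  obtain rfl : t' = t := by
    funext i
    rw [← card_of_span (hD' i).2.1 (hD' i).2.2.2, ← card_of_span (hD i).2.1 (hD i).2.2.2]
  choose AV hAV hDA using fun i => basis_change (B := DV' i) (hD i).2.1
    ((hD i).2.2.2.trans (hD' i).2.2.2.symm)
  choose AW hAW hDAW using fun i => basis_change (B := DW' i) (hD i).1
    ((hD i).2.2.1.trans (hD' i).2.2.1.symm)
  have hlt : ∀ i, q' i < t' i := by
    intro i
    have hfinV : Module.Finite K (V i) := by
      have h1 : Module.finrank K (V i) = t' i := card_of_span (hD i).2.1 (hD i).2.2.2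
      rcases Nat.eq_zero_or_pos (t' i) with h0 | h0
      · have h2 : Set.range (DV i) = ∅ := by
          have : IsEmpty (Fin (t' i)) := by
            rw [h0]
            infer_instance
          exact Set.range_eq_empty _
        have h3 := (hD i).2.2.2
        rw [h2, Submodule.span_empty] at h3
        rw [← h3]
        infer_instance
      · exact Module.finite_of_finrank_pos (by rw [h1]; exact h0)
    have h1 := Submodule.finrank_lt_finrank_of_lt (hWV i)
    rw [card_of_span (hD i).1 (hD i).2.2.1, card_of_span (hD i).2.1 (hD i).2.2.2] at h1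
    exact h1
  obtain ⟨r, hr⟩ : ∃ r : Fin k → ℕ, r = fun i => t' i - q' i := ⟨_, rfl⟩
  have hr1 : ∀ i, 1 ≤ r i := fun i => by
    have := hlt i
    rw [hr]
    simp only
    omega
  have hrR : ∀ i, (t' i : ℝ) - q' i = r i := fun i => by
    have h1 := (hlt i).le
    rw [hr]
    simp only
    rw [Nat.cast_sub h1]
  obtain ⟨R, hR⟩ : ∃ R : ℕ, R = ∏ i, r i := ⟨_, rfl⟩
  have hR1 : 1 ≤ R := by
    rw [hR]
    exact Finset.one_le_prod' fun i _ => hr1 i
  have hdiv : ∀ i, ∃ c, R = r i * c := fun i => by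
    rw [hR]
    exact Finset.dvd_prod_of_mem r (Finset.mem_univ i)
  choose c hc using hdiv
  obtain ⟨u, hu⟩ : ∃ u : Fin k → K, u = fun i => (AV i).det * (AW i).det⁻¹ := ⟨_, rfl⟩
  have hu0 : ∀ i, u i ≠ 0 := fun i => by
    rw [hu]
    exact mul_ne_zero (hAV i) (inv_ne_zero (hAW i))
  have huo : ∀ (P : Place ℂ K) i, (P.ord (u i) : ℝ) = P.ord (AV i).det - P.ord (AW i).det := by
    intro P i
    rw [hu]
    simp only
    rw [P.ord_mul (hAV i) (inv_ne_zero (hAW i)), P.ord_inv]
    push_cast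
    ring
  have hp0 : ∏ s, u (J s) ^ (N0 * c (J s)) ≠ 0 :=
    Finset.prod_ne_zero_iff.2 fun s _ => pow_ne_zero _ (hu0 _)
  refine ⟨N0 * R, g ^ R * ∏ s, u (J s) ^ (N0 * c (J s)), Nat.mul_pos hN0 hR1,
    mul_ne_zero (pow_ne_zero _ hg) hp0, fun P hP eW eV heW heV => ?_⟩
  choose eW' heW' using fun i => wedge_exists hy hn Δ (hD' i).1 hP
  choose eV' heV' using fun i => wedge_exists hy hn Δ (hD' i).2.1 hP
  have h6 := h5 P hP eW' eV' heW' heV'
  have h7 : ∀ i, eV i = eV' i + P.ord (AV i).det := fun i =>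
    wedge_unique hy hn hP (hΔ.1 P hP).1 (hΔ.1 P hP).2 (heV i)
      (wedge_change (hAV i) (hDA i) (heV' i))
  have h8 : ∀ i, eW i = eW' i + P.ord (AW i).det := fun i =>
    wedge_unique hy hn hP (hΔ.1 P hP).1 (hΔ.1 P hP).2 (heW i)
      (wedge_change (hAW i) (hDAW i) (heW' i))
  rw [P.ord_mul (pow_ne_zero _ hg) hp0, P.ord_pow]
  push_cast
  rw [ord_prod P Finset.univ fun s _ => pow_ne_zero _ (hu0 _)]
  have h9 : ∑ s, (P.ord (u (J s) ^ (N0 * c (J s))) : ℝ) =
      N0 * R * ∑ s, (P.ord (AV (J s)).det - P.ord (AW (J s)).det : ℝ) /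
        ((t' (J s) : ℝ) - q' (J s)) := by
    rw [Finset.mul_sum]
    refine Finset.sum_congr rfl fun s _ => ?_
    rw [P.ord_pow]
    push_cast
    rw [huo, hrR]
    have h10 : (R : ℝ) = r (J s) * c (J s) := by exact_mod_cast hc (J s)
    have h11 : (r (J s) : ℝ) ≠ 0 := by
      have := hr1 (J s)
      have h12 : r (J s) ≠ 0 := by omega
      exact_mod_cast h12
    rw [h10]
    field_simp
  rw [h9]
  have h10 : ∑ s, (eV (J s) - eW (J s)) / ((t' (J s) : ℝ) - q' (J s)) =
      ∑ s, (eV' (J s) - eW' (J s)) / ((t' (J s) : ℝ) - q' (J s)) +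
      ∑ s, (P.ord (AV (J s)).det - P.ord (AW (J s)).det : ℝ) /
        ((t' (J s) : ℝ) - q' (J s)) := by
    rw [← Finset.sum_add_distrib]
    refine Finset.sum_congr rfl fun s _ => ?_
    rw [h7, h8]
    ring
  rw [h10]
  have h11 := mul_le_mul_of_nonneg_left h6 (Nat.cast_nonneg R : (0 : ℝ) ≤ R)
  linarith

/-- **Semistability** of the orbifold tangent sheaf with respect to `α`, if the degree of
`K_X + Δ` is `c`. -/
def SemistableTangent (y : Fin (N + 1) → K) (n : ℕ) (Δ : Place ℂ K → ℚ) (α : Place ℂ K → ℝ)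
    (c : ℝ) : Prop :=
  ∀ (F : Submodule K (Derivation ℂ K K)) (d : ℝ), SubDeg y n Δ α F d →
    n * d ≤ -(Module.finrank K F * c)

/-- the dimension of a proper subspace -/
theorem fin_der (hy : NormalModel y) (hn : Algebra.trdeg ℂ K = n) :
    Module.Finite K (Derivation ℂ K K) ∧ Module.finrank K (Derivation ℂ K K) = n := by
  classical
  have hess := hy.ess
  obtain ⟨x, E0, hx, hE0⟩ := exists_crd hn
  have hli : LinearIndependent K E0 := li_of_dual hE0
  have hsp := span_of_frame (frame_of_dual hx hE0)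
  refine ⟨⟨⟨Finset.univ.image E0, by
    rw [Finset.coe_image, Finset.coe_univ, Set.image_univ, hsp]⟩⟩, ?_⟩
  rw [← finrank_top, ← hsp, finrank_span_eq_card hli, Fintype.card_fin]

theorem subDeg_exists (hy : NormalModel y) (hn : Algebra.trdeg ℂ K = n)
    {Δ : Place ℂ K → ℚ} (hΔ : Boundary y Δ) (α : Place ℂ K → ℝ)
    (F : Submodule K (Derivation ℂ K K)) : ∃ d, SubDeg y n Δ α F d := by
  obtain ⟨D, h1, h2⟩ := exists_bas hy hn F
  obtain ⟨e, h3, h4⟩ := wedge_fun hy hn hΔ.2 h1
  obtain ⟨d, h5⟩ := hasDeg_of_fin α h4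
  exact ⟨d, _, D, e, h1, h2, h3, h5⟩

/-- the degree of the zero distribution -/
theorem subDeg_bot {Δ : Place ℂ K → ℚ} {α : Place ℂ K → ℝ} {d : ℝ}
    (h : SubDeg y n Δ α (⊥ : Submodule K (Derivation ℂ K K)) d) : d = 0 := by
  obtain ⟨s, D, e, h1, h2, h3, h4⟩ := h
  have hs : s = 0 := by
    rw [← card_of_span h1 h2]
    exact finrank_bot K _
  subst hs
  refine h4.unique ((hasDeg_zero α).congr fun P hP => ?_)
  obtain ⟨E, i0, C, -, -, -, I, h5, h6⟩ := h3 P hP
  rw [h6, Matrix.det_isEmpty, P.ord_one]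
  simp

/-- the degree of the orbifold tangent sheaf -/
theorem subDeg_top (hy : NormalModel y) (hn : Algebra.trdeg ℂ K = n)
    {Δ : Place ℂ K → ℚ} (hΔ : Boundary y Δ) {α : Place ℂ K → ℝ} (hα : MovableClass y α) {c : ℝ}
    (hc : LogDegree y n Δ α c) {d : ℝ}
    (h : SubDeg y n Δ α (⊤ : Submodule K (Derivation ℂ K K)) d) : d = -c := by
  classical
  have hess := hy.ess
  obtain ⟨x, E0, hx, hE0⟩ := exists_crd hn
  obtain ⟨w, hwf, hw⟩ := exists_canon hy hn hx hE0
  have hfr : IsFrame E0 := frame_of_dual hx hE0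
  have hli : LinearIndependent K E0 := li_of_dual hE0
  have hsp := span_of_frame hfr
  have hdw := logdeg_w (x := x) hfr hw hα hc
  have hE1 : ∀ i : Fin n, E0 i = ∑ j, (1 : Matrix (Fin n) (Fin n) K) i j • E0 j := by
    intro i
    rw [Finset.sum_eq_single i]
    · rw [Matrix.one_apply_eq, one_smul]
    · intro j _ hj
      rw [Matrix.one_apply_ne (Ne.symm hj), zero_smul]
    · intro h
      exact absurd (Finset.mem_univ _) h
  have h0 : SubDeg y n Δ α (⊤ : Submodule K (Derivation ℂ K K)) ((-1) * c) := by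
    refine ⟨n, E0, fun P => (-1) * ((w P : ℝ) + Δ P), hli, hsp, fun P hP => ?_, hdw.smul (-1)⟩
    obtain ⟨U, nk, -, -, h3, -, -, h4⟩ := loc_rect hy hn hx hE0 hw hli hE1 Δ hP
    have h5 := h3 n le_rfl
    rw [h4 le_rfl] at h5
    have h6 : ((1 : Matrix (Fin n) (Fin n) K).submatrix (Fin.castLE le_rfl) id).det = 1 := by
      have : ((1 : Matrix (Fin n) (Fin n) K).submatrix (Fin.castLE le_rfl) id) = 1 := by
        ext i j
        rfl
      rw [this, Matrix.det_one]
    rw [h6, P.ord_one] at h5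
    have h7 : ((0 : ℤ) : ℝ) - w P - Δ P = (-1) * ((w P : ℝ) + Δ P) := by
      push_cast
      ring
    rw [h7] at h5
    exact h5
  rw [subDeg_unique hy hn hΔ hα h h0]
  ring

/-- **Jordan-Hölder filtrations.** -/
theorem jh_exists (hy : NormalModel y) (hn : Algebra.trdeg ℂ K = n) (hn1 : 1 ≤ n)
    {Δ : Place ℂ K → ℚ} (hΔ : Boundary y Δ) {α : Place ℂ K → ℝ} (hα : MovableClass y α) {c : ℝ}
    (hc : LogDegree y n Δ α c) (hss : SemistableTangent y n Δ α c) :
    ∃ (k : ℕ) (V : ℕ → Submodule K (Derivation ℂ K K)), V 0 = ⊥ ∧ V k = ⊤ ∧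
      (∀ i, i < k → V i < V (i + 1) ∧ StablePiece y n Δ α (V i) (V (i + 1))) ∧
      ∀ i, i ≤ k → ∀ d, SubDeg y n Δ α (V i) d → n * d = -(Module.finrank K (V i) * c) := by
  classical
  obtain ⟨hfin, hrk⟩ := fin_der hy hn
  obtain ⟨S, hS⟩ : ∃ S : Set (Submodule K (Derivation ℂ K K)),
    S = {F | ∀ d, SubDeg y n Δ α F d → n * d = -(Module.finrank K F * c)} := ⟨_, rfl⟩
  have hbot : (⊥ : Submodule K (Derivation ℂ K K)) ∈ S := by
    rw [hS]
    intro d hd
    rw [subDeg_bot hd, finrank_bot]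
    simp
  have htop : (⊤ : Submodule K (Derivation ℂ K K)) ∈ S := by
    rw [hS]
    intro d hd
    rw [subDeg_top hy hn hΔ hα hc hd, finrank_top, hrk]
    ring
  have hstep : ∀ W : Submodule K (Derivation ℂ K K), ∃ V : Submodule K (Derivation ℂ K K),
      W ∈ S → W ≠ ⊤ → (V ∈ S ∧ W < V ∧ StablePiece y n Δ α W V) := by
    intro W
    by_cases hW : W ∈ S ∧ W ≠ ⊤
    · obtain ⟨hWS, hWt⟩ := hW
      have hex : ∃ r : ℕ, ∃ V : Submodule K (Derivation ℂ K K), V ∈ S ∧ W < V ∧
          Module.finrank K V = r := ⟨_, ⊤, htop, lt_top_iff_ne_top.2 hWt, rfl⟩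
      obtain ⟨V, hVS, hWV, hVr⟩ := Nat.find_spec hex
      refine ⟨V, fun _ _ => ⟨hVS, hWV, ?_⟩⟩
      intro F dW dF dV hWF hFV hdW hdF hdV
      have hFS : F ∉ S := by
        intro hFS
        have h1 := Submodule.finrank_lt_finrank_of_lt hFV
        rw [hVr] at h1
        exact Nat.find_min hex h1 ⟨F, hFS, hWF, rfl⟩
      have hF : n * dF < -(Module.finrank K F * c) := by
        refine lt_of_le_of_ne (hss F dF hdF) fun h => hFS ?_
        rw [hS]
        intro d hd
        rw [subDeg_unique hy hn hΔ hα hd hdF]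
        exact h
      rw [hS] at hWS hVS
      have hWd : n * dW = -(Module.finrank K W * c) := hWS dW hdW
      have hVd : n * dV = -(Module.finrank K V * c) := hVS dV hdV
      have h1 : (Module.finrank K W : ℝ) < Module.finrank K F := by
        exact_mod_cast Submodule.finrank_lt_finrank_of_lt hWF
      have h2 : (Module.finrank K F : ℝ) < Module.finrank K V := by
        exact_mod_cast Submodule.finrank_lt_finrank_of_lt hFV
      have hn0 : (0 : ℝ) < n := by exact_mod_cast hn1
      have h3 : n * (((Module.finrank K V : ℝ) - Module.finrank K W) * (dF - dW)) <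
          n * (((Module.finrank K F : ℝ) - Module.finrank K W) * (dV - dW)) := by
        have e1 : n * (((Module.finrank K V : ℝ) - Module.finrank K W) * (dF - dW)) =
            ((Module.finrank K V : ℝ) - Module.finrank K W) * (n * dF - n * dW) := by ring
        have e2 : n * (((Module.finrank K F : ℝ) - Module.finrank K W) * (dV - dW)) =
            ((Module.finrank K F : ℝ) - Module.finrank K W) * (n * dV - n * dW) := by ring
        rw [e1, e2, hWd, hVd]
        have h4 : ((Module.finrank K V : ℝ) - Module.finrank K W) *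
            (n * dF - -(Module.finrank K W * c)) <
            ((Module.finrank K V : ℝ) - Module.finrank K W) *
            (-(Module.finrank K F * c) - -(Module.finrank K W * c)) :=
          mul_lt_mul_of_pos_left (by linarith) (by linarith)
        refine h4.trans_le (le_of_eq ?_)
        ring
      exact lt_of_mul_lt_mul_left h3 hn0.le
    · exact ⟨⊥, fun h1 h2 => absurd ⟨h1, h2⟩ hW⟩
  choose nx hnx using hstep
  obtain ⟨V, hV0, hVs⟩ : ∃ V : ℕ → Submodule K (Derivation ℂ K K), V 0 = ⊥ ∧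
      ∀ i, V (i + 1) = nx (V i) := ⟨fun i => Nat.rec ⊥ (fun _ W => nx W) i, rfl, fun _ => rfl⟩
  have hex : ∃ k, V k = ⊤ := by
    by_contra hcon
    push Not at hcon
    have h1 : ∀ i, V i ∈ S ∧ i ≤ Module.finrank K (V i) := by
      intro i
      induction i with
      | zero => exact ⟨by rw [hV0]; exact hbot, Nat.zero_le _⟩
      | succ i ih =>
        obtain ⟨h2, h3, -⟩ := hnx (V i) ih.1 (hcon i)
        rw [← hVs i] at h2 h3
        have h4 := Submodule.finrank_lt_finrank_of_lt h3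
        exact ⟨h2, by omega⟩
    have h2 := (h1 (n + 1)).2
    have h3 := Submodule.finrank_le (V (n + 1))
    rw [hrk] at h3
    omega
  obtain ⟨k, hk⟩ : ∃ k, k = Nat.find hex := ⟨_, rfl⟩
  have hVk : V k = ⊤ := by
    rw [hk]
    exact Nat.find_spec hex
  have hmin : ∀ i, i < k → V i ≠ ⊤ := fun i hi => by
    rw [hk] at hi
    exact Nat.find_min hex hi
  have hVS : ∀ i, i ≤ k → V i ∈ S := by
    intro i
    induction i with
    | zero => intro _; rw [hV0]; exact hbot
    | succ i ih =>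
      intro hi
      rw [hVs i]
      exact (hnx (V i) (ih (by omega)) (hmin i (by omega))).1
  refine ⟨k, V, hV0, hVk, fun i hi => ?_, fun i hi => ?_⟩
  · have h1 := hnx (V i) (hVS i hi.le) (hmin i hi)
    rw [← hVs i] at h1
    exact ⟨h1.2.1, h1.2.2⟩
  · have h1 := hVS i hi
    rw [hS] at h1
    exact h1

end

end Pool.Agent.H897
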