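import Pool.Agent.H897.JI

/-!
Tensors on pairs with semistable orbifold tangent sheaf.
-/

set_option autoImplicit false
set_option linter.overlappingInstances false
set_option linter.unusedSectionVars false

open MvPolynomial FF Pool.Agent.W602.GT Pool.Agent.Y172 Pool.Agent.NH31 Pool.Agent.W603.LV
open Pool.Agent.N133.TB Pool.Agent.Y174 Pool.Agent.TH466.QG

namespace Pool.Agent.H897

section

variable {K : Type} [Field K] [Algebra ℂ K] {N n : ℕ} {y : Fin (N + 1) → K}

/-- `T` is a section of the `m`-th tensor power of the dual of the orbifold tangent sheaf, with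
values in a divisor with the coefficient `ℓ`, along the prime divisor `P`: the order of `T D` is at
least the sum of the orders of the vector fields `D s`, minus `ℓ`. -/
def TensorAt (n : ℕ) (δ ℓ : ℚ) (P : Place ℂ K) {m : ℕ}
    (T : MultilinearMap K (fun _ : Fin m => Derivation ℂ K K) K) : Prop :=
  ∀ (D : Fin m → Derivation ℂ K K) (e : Fin m → ℝ),
    (∀ s, WedgeOrd n δ P (fun _ : Fin 1 => D s) (e s)) → T D = 0 ∨ ∑ s, e s - ℓ ≤ P.ord (T D)

/-- `T` induces a nonzero form on `∏ s, V (J s + 1) / V (J s)`. -/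
def HasType (V : ℕ → Submodule K (Derivation ℂ K K)) {k m : ℕ}
    (T : MultilinearMap K (fun _ : Fin m => Derivation ℂ K K) K) (J : Fin m → Fin k) : Prop :=
  (∃ D : Fin m → Derivation ℂ K K, (∀ s, D s ∈ V (J s + 1)) ∧ T D ≠ 0) ∧
    ∀ D : Fin m → Derivation ℂ K K, (∀ s, D s ∈ V (J s + 1)) → (∃ s, D s ∈ V (J s)) → T D = 0

/-- a type exists -/
theorem exists_type {V : ℕ → Submodule K (Derivation ℂ K K)} {k m : ℕ} (hV0 : V 0 = ⊥)
    (hVk : V k = ⊤) (hk : 1 ≤ k) {T : MultilinearMap K (fun _ : Fin m => Derivation ℂ K K) K}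
    (hT : T ≠ 0) : ∃ J : Fin m → Fin k, HasType V T J := by
  classical
  obtain ⟨D0, hD0⟩ : ∃ D, T D ≠ 0 := by
    by_contra hcon
    push Not at hcon
    exact hT (MultilinearMap.ext hcon)
  have hex : ∃ N : ℕ, ∃ J : Fin m → Fin k, (∃ D : Fin m → Derivation ℂ K K,
      (∀ s, D s ∈ V (J s + 1)) ∧ T D ≠ 0) ∧ ∑ s, (J s : ℕ) = N := by
    refine ⟨_, fun _ => ⟨k - 1, by omega⟩, ⟨D0, fun s => ?_, hD0⟩, rfl⟩
    have h1 : k - 1 + 1 = k := by omega
    change D0 s ∈ V (k - 1 + 1)
    rw [h1, hVk]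
    exact Submodule.mem_top
  obtain ⟨J, hJ, hJs⟩ := Nat.find_spec hex
  refine ⟨J, hJ, fun D hD hs => ?_⟩
  obtain ⟨s, hs⟩ := hs
  by_contra hne
  rcases Nat.eq_zero_or_pos (J s : ℕ) with h0 | h0
  · rw [h0, hV0, Submodule.mem_bot] at hs
    exact hne (T.map_coord_zero s hs)
  · obtain ⟨J', hJ'⟩ : ∃ J' : Fin m → Fin k, J' = Function.update J s ⟨J s - 1, by
      have := (J s).2
      omega⟩ := ⟨_, rfl⟩
    have h1 : ∑ a, (J' a : ℕ) < Nat.find hex := by
      rw [← hJs]
      refine Finset.sum_lt_sum (fun a _ => ?_) ⟨s, Finset.mem_univ s, ?_⟩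
      · rw [hJ']
        by_cases ha : a = s
        · subst ha
          rw [Function.update_self]
          simp only
          omega
        · rw [Function.update_of_ne ha]
      · rw [hJ', Function.update_self]
        simp only
        omega
    refine Nat.find_min hex h1 ⟨J', ⟨D, fun a => ?_, hne⟩, rfl⟩
    rw [hJ']
    by_cases ha : a = s
    · subst ha
      rw [Function.update_self]
      have h2 : (J a : ℕ) - 1 + 1 = J a := by omega
      change D a ∈ V ((J a : ℕ) - 1 + 1)
      rw [h2]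
      exact hs
    · rw [Function.update_of_ne ha]
      exact hD a

/-- **The effective divisors of the tensors.** -/
theorem type_eff (hy : NormalModel y) (hn : Algebra.trdeg ℂ K = n) (hn1 : 1 ≤ n)
    {Δ : Place ℂ K → ℚ} (hΔ : Boundary y Δ) {α : Place ℂ K → ℝ} (hα : MovableClass y α) {c : ℝ}
    {k : ℕ} {V : ℕ → Submodule K (Derivation ℂ K K)}
    (hV : ∀ i, i < k → V i < V (i + 1) ∧ StablePiece y n Δ α (V i) (V (i + 1)))
    (hVd : ∀ i, i ≤ k → ∀ d, SubDeg y n Δ α (V i) d → n * d = -(Module.finrank K (V i) * c))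
    {m : ℕ} (hm : 1 ≤ m) {L : Place ℂ K → ℚ} {lam : ℝ} (hL : HasDeg y α (fun P => L P) lam)
    (hlam : n * lam ≤ -(m * c)) {T : MultilinearMap K (fun _ : Fin m => Derivation ℂ K K) K}
    (hTO : ∀ P, IsPrimeDivisor y P → TensorAt n (Δ P) (L P) P T) {J : Fin m → Fin k}
    (hJ : HasType V T J) :
    MixedEff y n Δ (fun i : Fin k => V i) (fun i : Fin k => V (i + 1)) J L := by
  classical
  obtain ⟨hfin, hrk⟩ := fin_der hy hn
  obtain ⟨⟨D0, hD0, hT0⟩, hJW⟩ := hJ
  refine mixed_eff hy hn hΔ hα (fun i => (hV i i.2).1) (fun i => (hV i i.2).2) hm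
    (T := T.compLinearMap fun s => (V (J s + 1)).subtype) (fun h0 => hT0 ?_)
    (fun D hD => hJW (fun s => D s) (fun s => (D s).2) hD) hL (fun dW dV hdW hdV => ?_)
    (fun P hP D e he => hTO P hP (fun s => D s) e he)
  · have h1 := congrArg (fun t : MultilinearMap K (fun s : Fin m => V (J s + 1)) K =>
      t fun s => ⟨D0 s, hD0 s⟩) h0
    exact h1
  · have hn0 : (0 : ℝ) < n := by exact_mod_cast hn1
    have h1 : ∀ s, (dV (J s) - dW (J s)) / ((Module.finrank K (V (J s + 1)) : ℝ) -
        Module.finrank K (V (J s))) = -c / n := by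
      intro s
      have h2 := hVd (J s) (J s).2.le _ (hdW (J s))
      have h3 := hVd (J s + 1) (J s).2 _ (hdV (J s))
      have h4 : (Module.finrank K (V (J s)) : ℝ) < Module.finrank K (V (J s + 1)) := by
        exact_mod_cast Submodule.finrank_lt_finrank_of_lt (hV (J s) (J s).2).1
      have h5 : (Module.finrank K (V (J s + 1)) : ℝ) - Module.finrank K (V (J s)) ≠ 0 := by
        linarith
      rw [div_eq_div_iff h5 hn0.ne']
      linarith
    change lam ≤ ∑ s, (dV (J s) - dW (J s)) / ((Module.finrank K (V (J s + 1)) : ℝ) -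
        Module.finrank K (V (J s)))
    rw [Finset.sum_congr rfl fun s _ => h1 s, Finset.sum_const, Finset.card_univ, Fintype.card_fin,
      nsmul_eq_mul]
    have h2 : (m : ℝ) * (-c / n) = -(m * c) / n := by ring
    rw [h2, le_div_iff₀ hn0]
    linarith

/-- **Combinations of mixed effective divisors.** -/
theorem mixed_sec (hy : NormalModel y) (hn : Algebra.trdeg ℂ K = n) {Δ : Place ℂ K → ℚ}
    (hΔ : Boundary y Δ) {k : ℕ} {V : ℕ → Submodule K (Derivation ℂ K K)} (hV0 : V 0 = ⊥)
    (hVk : V k = ⊤) (hV : ∀ i, i < k → V i < V (i + 1)) {p : ℕ} {m : Fin p → ℕ}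
    {J : (a : Fin p) → Fin (m a) → Fin k} {L : Fin p → Place ℂ K → ℚ}
    (hJ : ∀ a, MixedEff y n Δ (fun i : Fin k => V i) (fun i : Fin k => V (i + 1)) (J a) (L a))
    {A : ℕ} {u : Fin p → ℕ}
    (hA : ∀ i : Fin k, ∑ a, u a * (Finset.univ.filter fun s => J a s = i).card +
      A * Module.finrank K (V i) = A * Module.finrank K (V (i + 1))) :
    ∃ (M : ℕ) (ω : (Fin n → Derivation ℂ K K) → K), 1 ≤ M ∧ ω ≠ 0 ∧
      IsSection y n (M * A) (M • (fun P => A * Δ P + ∑ a, u a * L a P)) ω := by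
  classical
  obtain ⟨hfin, hrk⟩ := fin_der hy hn
  have hess := hy.ess
  obtain ⟨x, E0, hx, hE0⟩ := exists_crd hn
  obtain ⟨w, hwf, hw⟩ := exists_canon hy hn hx hE0
  have hfr : IsFrame E0 := frame_of_dual hx hE0
  have hli : LinearIndependent K E0 := li_of_dual hE0
  have hsp := span_of_frame hfr
  choose D hD1 hD2 using fun i => exists_bas hy hn (V i)
  choose N0 g hN0 hg hNg using fun a => (hJ a).basis hy hn hΔ (fun i => hV i i.2)
    (q := fun i => Module.finrank K (V i)) (t := fun i => Module.finrank K (V (i + 1)))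
    (DW := fun i => D i) (DV := fun i => D (i + 1))
    (fun i => ⟨hD1 i, hD1 (i + 1), hD2 i, hD2 (i + 1)⟩)
  -- the common multiple
  obtain ⟨M, hM⟩ : ∃ M : ℕ, M = ∏ a, N0 a := ⟨_, rfl⟩
  have hM1 : 1 ≤ M := by
    rw [hM]
    exact Finset.one_le_prod' fun a _ => hN0 a
  have hc : ∀ a, ∃ c : ℕ, M = N0 a * c := fun a => by
    rw [hM]
    exact Finset.dvd_prod_of_mem N0 (Finset.mem_univ a)
  choose c hc using hc
  obtain ⟨G, hG⟩ : ∃ G : K, G = ∏ a, g a ^ (c a * u a) := ⟨_, rfl⟩
  have hG0 : G ≠ 0 := by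
    rw [hG]
    exact Finset.prod_ne_zero_iff.2 fun a _ => pow_ne_zero _ (hg a)
  have hGord : ∀ P : Place ℂ K, (P.ord G : ℝ) = ∑ a, (c a * u a : ℝ) * P.ord (g a) := by
    intro P
    rw [hG, ord_prod P Finset.univ fun a _ => pow_ne_zero _ (hg a)]
    refine Finset.sum_congr rfl fun a _ => ?_
    rw [P.ord_pow]
    push_cast
    ring
  -- the top
  have hcard : Module.finrank K (V k) = n := by
    rw [hVk, finrank_top, hrk]
  have hrng : Submodule.span K (Set.range (D k)) =
      Submodule.span K (Set.range fun i => E0 (Fin.cast hcard i)) := by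
    refine ((hD2 k).trans hVk).trans ?_
    have h1 : Set.range (fun i => E0 (Fin.cast hcard i)) = Set.range E0 := by
      refine Set.Subset.antisymm ?_ ?_
      · rintro _ ⟨i, rfl⟩
        exact ⟨_, rfl⟩
      · rintro _ ⟨i, rfl⟩
        exact ⟨Fin.cast hcard.symm i, rfl⟩
    rw [h1, hsp]
  obtain ⟨B, hB, hDB⟩ := basis_change (B := fun i => E0 (Fin.cast hcard i)) (hD1 k) hrng
  have hwE0 : ∀ P, IsPrimeDivisor y P → ∀ e : ℝ, WedgeOrd n (Δ P) P (D k) e →
      e = P.ord B.det - w P - Δ P := by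
    intro P hP e he
    have hE1 : ∀ i : Fin n, E0 i = ∑ j, (1 : Matrix (Fin n) (Fin n) K) i j • E0 j := by
      intro i
      rw [Finset.sum_eq_single i]
      · rw [Matrix.one_apply_eq, one_smul]
      · intro j _ hj
        rw [Matrix.one_apply_ne (Ne.symm hj), zero_smul]
      · intro h
        exact absurd (Finset.mem_univ _) h
    obtain ⟨U, nk, -, -, h3, -, -, h4⟩ := loc_rect hy hn hx hE0 hw hli hE1 Δ hP
    have h5 := h3 n le_rfl
    rw [h4 le_rfl] at h5
    have h6 : ((1 : Matrix (Fin n) (Fin n) K).submatrix (Fin.castLE le_rfl) id).det = 1 := by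
      have : ((1 : Matrix (Fin n) (Fin n) K).submatrix (Fin.castLE le_rfl) id) = 1 := by
        ext i j
        rfl
      rw [this, Matrix.det_one]
    rw [h6, P.ord_one] at h5
    have h7 : WedgeOrd n (Δ P) P (fun i => E0 (Fin.cast hcard i))
        (((0 : ℤ) : ℝ) - w P - Δ P) := wedge_cast hcard h5
    have h8 := wedge_change hB hDB h7
    have h9 := wedge_unique hy hn hP (hΔ.1 P hP).1 (hΔ.1 P hP).2 he h8
    rw [h9]
    push_cast
    ring
  have hw0 : ∀ P, IsPrimeDivisor y P → ∀ e : ℝ, WedgeOrd n (Δ P) P (D 0) e → e = 0 := by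
    intro P hP e he
    have h0 : Module.finrank K (V 0) = 0 := by
      rw [hV0]
      exact finrank_bot K _
    obtain ⟨E, i0, C, h1, h2, h3, I, h4, h5⟩ := he
    have h6 : IsEmpty (Fin (Module.finrank K (V 0))) := by
      rw [h0]
      infer_instance
    rw [h5, Matrix.det_isEmpty, P.ord_one]
    simp
  -- the section
  obtain ⟨G', hG'⟩ : ∃ G' : K, G' = G * (B.det ^ (M * A))⁻¹ := ⟨_, rfl⟩
  have hG'0 : G' ≠ 0 := by
    rw [hG']
    exact mul_ne_zero hG0 (inv_ne_zero (pow_ne_zero _ hB))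
  have hpl := frm_pluri x (M * A) G'
  refine ⟨M, frm x (M * A) G', hM1, ?_, hpl, fun P hP => (hw P hP _ _ _ hpl).2 (Or.inr ?_)⟩
  · intro h0
    have h1 : frm x (M * A) G' E0 = G' := frm_eval hE0 _ _
    rw [h0] at h1
    exact hG'0 h1.symm
  rw [frm_eval hE0]
  choose e he using fun i => wedge_exists hy hn Δ (hD1 i) hP
  have h1 : ∀ a, (M * u a : ℝ) * (∑ s, (e (J a s + 1) - e (J a s)) /
      ((Module.finrank K (V (J a s + 1)) : ℝ) - Module.finrank K (V (J a s))) - L a P) ≤
        (c a * u a : ℝ) * P.ord (g a) := by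
    intro a
    have h2 := hNg a P hP (fun i => e i) (fun i => e (i + 1)) (fun i => he i)
      (fun i => he (i + 1))
    have h3 : (M : ℝ) = N0 a * c a := by exact_mod_cast hc a
    have h4 : (0 : ℝ) ≤ c a * u a := by positivity
    have h5 := mul_le_mul_of_nonneg_left h2 h4
    refine le_trans (le_of_eq ?_) h5
    rw [h3]
    ring
  have h2 := Finset.sum_le_sum fun a (_ : a ∈ Finset.univ) => h1 a
  rw [← hGord] at h2
  -- the telescope
  have h3 : ∑ a, (u a : ℝ) * ∑ s, (e (J a s + 1) - e (J a s)) /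
      ((Module.finrank K (V (J a s + 1)) : ℝ) - Module.finrank K (V (J a s))) =
      A * (P.ord B.det - w P - Δ P) := by
    obtain ⟨f, hf⟩ : ∃ f : ℕ → ℝ, f = fun i => (e (i + 1) - e i) /
      ((Module.finrank K (V (i + 1)) : ℝ) - Module.finrank K (V i)) := ⟨_, rfl⟩
    have h4 : ∀ a, ∑ s, (e (J a s + 1) - e (J a s)) /
        ((Module.finrank K (V (J a s + 1)) : ℝ) - Module.finrank K (V (J a s))) =
        ∑ i : Fin k, ((Finset.univ.filter fun s => J a s = i).card : ℝ) * f i := by
      intro a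
      rw [← Finset.sum_fiberwise Finset.univ (J a)]
      refine Finset.sum_congr rfl fun i _ => ?_
      rw [Finset.sum_congr rfl (g := fun _ => f i) (fun s hs => by
        rw [(Finset.mem_filter.1 hs).2, hf]), Finset.sum_const, nsmul_eq_mul]
    rw [Finset.sum_congr rfl fun a _ => by rw [h4 a]]
    simp only [Finset.mul_sum]
    rw [Finset.sum_comm]
    have h5 : ∀ i : Fin k, ∑ a, (u a : ℝ) * (((Finset.univ.filter fun s => J a s = i).card : ℝ) *
        f i) = A * (e (i + 1) - e i) := by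
      intro i
      have h6 : (∑ a, (u a : ℝ) * ((Finset.univ.filter fun s => J a s = i).card : ℝ)) =
          A * ((Module.finrank K (V (i + 1)) : ℝ) - Module.finrank K (V i)) := by
        have h7 : ((∑ a, u a * (Finset.univ.filter fun s => J a s = i).card +
          A * Module.finrank K (V i) : ℕ) : ℝ) = ((A * Module.finrank K (V (i + 1)) : ℕ) : ℝ) := by
          rw [hA i]
        push_cast at h7
        linarith
      have h7 : (Module.finrank K (V i) : ℝ) < Module.finrank K (V (i + 1)) := by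
        exact_mod_cast Submodule.finrank_lt_finrank_of_lt (hV i i.2)
      have h8 : (Module.finrank K (V (i + 1)) : ℝ) - Module.finrank K (V i) ≠ 0 := by linarith
      have h9 : ∑ a, (u a : ℝ) * (((Finset.univ.filter fun s => J a s = i).card : ℝ) * f i) =
          (∑ a, (u a : ℝ) * ((Finset.univ.filter fun s => J a s = i).card : ℝ)) * f i := by
        rw [Finset.sum_mul]
        exact Finset.sum_congr rfl fun a _ => by ring
      rw [h9, h6, hf]
      field_simp
    rw [Finset.sum_congr rfl fun i _ => h5 i, ← Finset.mul_sum]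
    congr 1
    rw [Fin.sum_univ_eq_sum_range (fun i => e (i + 1) - e i) k, Finset.sum_range_sub,
      hwE0 P hP _ (he k), hw0 P hP _ (he 0), sub_zero]
  have h4 : ∑ a, (M * u a : ℝ) * (∑ s, (e (J a s + 1) - e (J a s)) /
      ((Module.finrank K (V (J a s + 1)) : ℝ) - Module.finrank K (V (J a s))) - L a P) =
      M * (A * (P.ord B.det - w P - Δ P) - ∑ a, (u a : ℝ) * (L a P : ℝ)) := by
    rw [← h3, ← Finset.sum_sub_distrib, Finset.mul_sum]
    exact Finset.sum_congr rfl fun a _ => by ring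
  rw [h4] at h2
  have h5 : (P.ord G' : ℝ) = P.ord G - M * A * P.ord B.det := by
    rw [hG', P.ord_mul hG0 (inv_ne_zero (pow_ne_zero _ hB)), P.ord_inv, P.ord_pow]
    push_cast
    ring
  have h6 : ((-((M • (fun P => A * Δ P + ∑ a, u a * L a P)) P) -
        ((M * A : ℕ) : ℚ) * w P : ℚ) : ℝ) ≤ ((P.ord G' : ℚ) : ℝ) := by
    rw [smul_ap]
    push_cast
    rw [h5]
    linarith
  exact_mod_cast h6

end

end Pool.Agent.H897
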