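import Pool.Agent.H897.VH

/-!
The canonical flag of a family of forms on a graded piece, with a semi-invariant in the semistable
case.
-/

set_option autoImplicit false
set_option linter.overlappingInstances false
set_option linter.unusedSectionVars false

open MvPolynomial FF Pool.Agent.W602.GT Pool.Agent.Y172 Pool.Agent.NH31 Pool.Agent.W603.LV
open Pool.Agent.N133.TB Pool.Agent.Y174 Pool.Agent.TH466.QG Pool.Agent.W619.PQ
open Pool.Agent.N133.OB Pool.Agent.Y191

namespace Pool.Agent.H897

section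

variable {K V : Type} [Field K] [Algebra ℂ K] [AddCommGroup V] [Module K V] {n m : ℕ} {ι : Type}

/-- **The canonical flag.** `b` is a basis of `V` with the rational weights `γ`, adapted to the
canonical flag of the family `t` of multilinear forms, which consists of the spans of the `b j` with
`γ j ≤ a` and does not depend on the choices; the order of the function `f` is bounded below at all
places. -/
theorem flag_thm2 (hn : 1 ≤ n) (hm : 1 ≤ m) [Fintype ι] {E0 : Fin n → V}
    (hli : LinearIndependent K E0) (hsp : Submodule.span K (Set.range E0) = ⊤)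
    (t : ι → MultilinearMap K (fun _ : Fin m => V) K) (ht0 : ∃ i, t i ≠ 0) :
    ∃ (b : Module.Basis (Fin n) K V) (γ : Fin n → ℚ) (rho : ℚ) (N : ℕ) (f : K), Monotone γ ∧
      ∑ i, γ i = 0 ∧ 0 < rho ∧ 1 ≤ N ∧ f ≠ 0 ∧
      ((∀ i, γ i = 0) ∨
        ∀ i (J : Fin m → Fin n), ∑ s, γ (J s) < 1 → t i (fun s => b (J s)) = 0) ∧
      (∀ h : Fin n → V, LinearIndependent K h →
        ((∀ i, γ i = 0) ∨
          ∀ i (J : Fin m → Fin n), ∑ s, γ (J s) < 1 → t i (fun s => h (J s)) = 0) → ∀ a : ℚ,
          Submodule.span K {v | ∃ j, γ j ≤ a ∧ v = h j} =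
            Submodule.span K {v | ∃ j, γ j ≤ a ∧ v = b j}) ∧
      (∀ (P : Place ℂ K) (E : Fin n → V) (C U : Matrix (Fin n) (Fin n) K) (nu nk : Fin n → ℝ)
        (l : ℝ), (∀ k, b k = ∑ j, C k j • E j) →
        (∀ i (I : Fin m → Fin n), GeR P (∑ s, nu (I s) - l) (t i fun s => E (I s))) →
        (∀ i, U i i = 1) → (∀ i j, i < j → U i j = 0) →
        (∀ k j, GeR P (nk k - nu j) ((U * C) k j)) →
        N * ((m / n : ℝ) * ∑ k, nk k - l + rho * ∑ k, (γ k : ℝ) * nk k) ≤ P.ord f) ∧
      ((∀ i, γ i = 0) → ∃ (W : ℕ) (Q : MvPolynomial (Ix (fun _ : ι => m) n) ℂ),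
        1 ≤ W ∧ SemiInv ℂ (fun _ : ι => m) n W Q ∧ aeval (pt (co t E0)) Q ≠ 0) := by
  classical
  have hcK : CharZero K := charZero_of_injective_algebraMap (algebraMap ℂ K).injective
  have hn0 : (n : ℝ) ≠ 0 := by
    have : n ≠ 0 := by omega
    exact_mod_cast this
  by_cases hss : ∃ (W : ℕ) (Q : MvPolynomial (Ix (fun _ : ι => m) n) ℂ), 1 ≤ W ∧
      SemiInv ℂ (fun _ : ι => m) n W Q ∧ aeval (pt (co t E0)) Q ≠ 0
  · obtain ⟨W, Q, hW, hQ, hQ0⟩ := hss
    obtain ⟨b, hb⟩ : ∃ b : Module.Basis (Fin n) K V, ⇑b = E0 :=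
      ⟨Pool.Agent.N133.TB.crd hli hsp, by funext i; simp [Pool.Agent.N133.TB.crd]⟩
    have hQne : Q ≠ 0 := by
      intro h0
      apply hQ0
      rw [h0, map_zero]
    obtain ⟨μ, hμ⟩ := support_nonempty.2 hQne
    obtain ⟨B, hBd⟩ : ∃ B, B = ∑ x, μ x := ⟨_, rfl⟩
    have hB : m * B = n * W := by
      rw [hBd]
      exact inv_degF hQ hμ
    have hB1 : 1 ≤ B := by
      rcases Nat.eq_zero_or_pos B with h | h
      · rw [h, mul_zero] at hB
        have := Nat.mul_pos hn hW
        omega
      · exact h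
    refine ⟨b, fun _ => 0, 1, B, aeval (pt (co t E0)) Q, monotone_const, by simp, one_pos, hB1,
      hQ0, Or.inl fun _ => rfl, fun h hh _ a => ?_, ?_, fun _ => ⟨W, Q, hW, hQ, hQ0⟩⟩
    · obtain ⟨b', hb'⟩ := exists_basis_of_li b hh
      by_cases ha : (0 : ℚ) ≤ a
      · have key : ∀ g : Fin n → V, {v | ∃ j : Fin n, (0 : ℚ) ≤ a ∧ v = g j} = Set.range g := by
          intro g
          ext v
          constructor
          · rintro ⟨j, -, rfl⟩
            exact ⟨j, rfl⟩
          · rintro ⟨j, rfl⟩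
            exact ⟨j, ha, rfl⟩
        rw [key, key, ← hb', b'.span_eq, b.span_eq]
      · have key : ∀ g : Fin n → V, {v | ∃ j : Fin n, (0 : ℚ) ≤ a ∧ v = g j} = ∅ := by
          intro g
          ext v
          simp [ha]
        rw [key, key]
    · intro P E C U nu nk l hbE htE h1 h2 h3
      have hUdet : U.det = 1 := det_block h1 h2 (f := id) Function.injective_id
      have h4 := inv_geF (E := fun k => ∑ j, (U * C) k j • E j) (nu := nk) hm
        (fun z I => geR_lin (htE z) h3 I) hQ hB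
      have h5 : aeval (pt (co t fun k => ∑ j, (U * C) k j • E j)) Q =
          aeval (pt (co t E0)) Q := by
        have h6 := hQ K U (co t E0)
        rw [hUdet, one_pow, one_mul] at h6
        rw [← h6]
        congr 2
        funext x
        have h7 := act_co t E0 U x.1 x.2
        refine Eq.trans ?_ h7.symm
        change t x.1 _ = t x.1 _
        congr 1
        funext s
        rw [← hb]
        simp only [hbE, Finset.smul_sum, smul_smul]
        rw [Finset.sum_comm]
        refine Finset.sum_congr rfl fun j _ => ?_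
        rw [← Finset.sum_smul, Matrix.mul_apply]
      rw [h5] at h4
      refine le_trans (le_of_eq ?_) (h4.resolve_left hQ0)
      have hBR : (m : ℝ) * B = n * W := by exact_mod_cast hB
      simp only [Rat.cast_zero, zero_mul, Finset.sum_const_zero, mul_zero, add_zero]
      have h8 : (W : ℝ) = B * (m / n) := by
        field_simp
        linarith
      rw [h8]
      ring
  · push Not at hss
    have hnull := alg_null (k := ℂ) (L := AlgebraicClosure K)
      (m := fun _ : ι => m) t_sep' t_hm' hn (fun _ => hm)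
      (t := mapF (co t E0)) (fun W Q hW hQ => by
        have h1 := hss W Q hW hQ
        have h2 : aeval (pt (mapF (co t E0) : Fam (fun _ : ι => m) n (AlgebraicClosure K))) Q =
            algebraMap K (AlgebraicClosure K) (aeval (pt (co t E0)) Q) := by
          rw [MvPolynomial.aeval_def, MvPolynomial.aeval_def, MvPolynomial.eval₂_eq',
            MvPolynomial.eval₂_eq', map_sum]
          refine Finset.sum_congr rfl fun μ _ => ?_
          rw [map_mul, map_prod, ← IsScalarTower.algebraMap_apply ℂ K (AlgebraicClosure K)]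
          congr 1
          refine Finset.prod_congr rfl fun x _ => ?_
          rw [map_pow]
          rfl
        rw [h2, h1, map_zero])
    obtain ⟨b, γ, hγ, hγ0, hγ2, hvan, huniq, hopt⟩ := opt_existsF hli hsp t ht0 hnull
    obtain ⟨d, e, C0, hd, he⟩ := exists_exps γ hn hγ2
    obtain ⟨W, Q, hW, hQ, hQ0⟩ := exists_invF hn hm hd (b := b) (γ := γ) (t := t) (e := e)
      (fun h lam ν hh hlam hν => ss_lemmaF hopt he hh hlam hν)
    obtain ⟨M, hM⟩ : ∃ M : ℕ, M = Fintype.card ((β : Fin d ⊕ ((i : Fin n) × Fin (e i))) ×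
        Fin (degF m d γ e β)) := ⟨_, rfl⟩
    have hM1 : 1 ≤ M := by
      rw [hM]
      exact Fintype.card_pos_iff.2 ⟨⟨Sum.inl ⟨0, hd⟩, ⟨0, hm⟩⟩⟩
    refine ⟨b, γ, (∑ i, γ i ^ 2)⁻¹, n * W * d,
      (aeval (pt (co (fun z : ι => prodN b γ (t z) d e) b)) Q) ^ M, hγ, hγ0, inv_pos.2 hγ2,
      Nat.mul_pos (Nat.mul_pos hn hW) hd, pow_ne_zero _ hQ0, Or.inr hvan,
      fun h hh hor a => ?_, ?_, fun h0 => absurd hγ2 (by
        rw [Finset.sum_eq_zero fun i _ => by rw [h0]; simp]
        exact lt_irrefl _)⟩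
    · rcases hor with h0 | h0
      · exfalso
        have : ∑ i, γ i ^ 2 = 0 := Finset.sum_eq_zero fun i _ => by rw [h0]; simp
        linarith
      · exact huniq h hh h0 a
    · intro P E C U nu nk l hbE htE h1 h2 h3
      have h4 := (loc_ineqF (P := P) hn hm hγ hγ0 hvan hbE htE h1 h2 h3 hd he hM hQ).resolve_left
        hQ0
      have hM0 : (0 : ℝ) < M := by exact_mod_cast hM1
      have h5 := mul_le_mul_of_nonneg_left h4 hM0.le
      rw [P.ord_pow]
      push_cast
      refine le_trans (le_of_eq ?_) h5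
      field_simp


end

section

variable {K : Type} [Field K] [Algebra ℂ K] {N n : ℕ} {y : Fin (N + 1) → K}

/-- **The canonical flag of a graded piece.** -/
theorem piece_flag2 (hy : NormalModel y) (hn : Algebra.trdeg ℂ K = n)
    {Δ : Place ℂ K → ℚ} (hΔ : FinSup y Δ) {W V : Submodule K (Derivation ℂ K K)} (hWV : W < V)
    {m : ℕ} (hm : 1 ≤ m) {ι : Type} [Fintype ι]
    (T : ι → MultilinearMap K (fun _ : Fin m => V) K) (hT0 : ∃ i, T i ≠ 0)
    (hTW : ∀ i (D : Fin m → V), (∃ s, (D s : Derivation ℂ K K) ∈ W) → T i D = 0)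
    {ℓ : Place ℂ K → ℝ}
    (hTO : ∀ i P, IsPrimeDivisor y P → ∀ (D : Fin m → V) (e : Fin m → ℝ),
      (∀ s, WedgeOrd n (Δ P) P (fun _ : Fin 1 => (D s : Derivation ℂ K K)) (e s)) →
        GeR P (∑ s, e s - ℓ P) (T i D)) :
    ∃ (q r : ℕ) (B : Fin (q + r) → Derivation ℂ K K) (γ : Fin r → ℚ) (rho : ℚ) (N0 : ℕ) (f : K)
      (ev : ℕ → Place ℂ K → ℝ), 1 ≤ r ∧ LinearIndependent K B ∧
      Submodule.span K (Set.range fun i : Fin q => B (Fin.castAdd r i)) = W ∧
      Submodule.span K (Set.range B) = V ∧ Monotone γ ∧ ∑ k, γ k = 0 ∧ 0 < rho ∧ 1 ≤ N0 ∧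
      f ≠ 0 ∧
      (∀ (s : ℕ) (hs : s ≤ q + r), {P | IsPrimeDivisor y P ∧ ev s P ≠ 0}.Finite ∧
        ∀ P, IsPrimeDivisor y P →
          WedgeOrd n (Δ P) P (fun i : Fin s => B (Fin.castLE hs i)) (ev s P)) ∧
      (∀ P, IsPrimeDivisor y P → N0 * ((m / r : ℝ) * (ev (q + r) P - ev q P) - ℓ P +
        rho * ∑ k : Fin r, (γ k : ℝ) * (ev (q + k + 1) P - ev (q + k) P)) ≤ P.ord f) ∧
      ((∀ k, γ k = 0) → ∃ (b' : Fin r → V) (W' : ℕ)
        (Q : MvPolynomial (Ix (fun _ : ι => m) r) ℂ), 1 ≤ W' ∧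
        SemiInv ℂ (fun _ : ι => m) r W' Q ∧ aeval (pt (co T b')) Q ≠ 0) := by
  classical
  have hess := hy.ess
  obtain ⟨x, E0, hx, hE0⟩ := exists_crd hn
  obtain ⟨w, hwf, hw⟩ := exists_canon hy hn hx hE0
  have hfr : IsFrame E0 := frame_of_dual hx hE0
  have hsp := span_of_frame hfr
  have hfin0 : Module.Finite K (Derivation ℂ K K) :=
    ⟨⟨Finset.univ.image E0, by rw [Finset.coe_image, Finset.coe_univ, Set.image_univ, hsp]⟩⟩
  -- the complement
  obtain ⟨C1, hC1⟩ := Submodule.exists_isCompl W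
  obtain ⟨V', hV'⟩ : ∃ V' : Submodule K (Derivation ℂ K K), V' = C1 ⊓ V := ⟨_, rfl⟩
  have hV'V : V' ≤ V := by
    rw [hV']
    exact inf_le_right
  have hsup : W ⊔ V' = V := by
    rw [hV', ← sup_inf_assoc_of_le C1 hWV.le, hC1.sup_eq_top, top_inf_eq]
  have hinf : W ⊓ V' = ⊥ := by
    rw [eq_bot_iff, hV', ← hC1.inf_eq_bot]
    exact inf_le_inf_left _ inf_le_left
  obtain ⟨q, hq⟩ : ∃ q, q = Module.finrank K W := ⟨_, rfl⟩
  obtain ⟨r, hr⟩ : ∃ r, r = Module.finrank K V' := ⟨_, rfl⟩
  have hqr : Module.finrank K V = q + r := by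
    have h1 := Submodule.finrank_sup_add_finrank_inf_eq W V'
    rw [hsup, hinf, finrank_bot, add_zero] at h1
    rw [h1, hq, hr]
  have hr1 : 1 ≤ r := by
    have h1 := Submodule.finrank_lt_finrank_of_lt hWV
    omega
  obtain ⟨DW, hDWs⟩ : ∃ DW : Fin q → Derivation ℂ K K,
      Submodule.span K (Set.range DW) = W := by
    subst hq
    refine ⟨fun i => (Module.finBasis K W i : Derivation ℂ K K), ?_⟩
    have h1 := congrArg (Submodule.map W.subtype) (Module.finBasis K W).span_eq
    rw [Submodule.map_span, Submodule.map_subtype_top, ← Set.range_comp] at h1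
    exact h1
  obtain ⟨b0, -⟩ : ∃ b0 : Module.Basis (Fin r) K V', True := by
    subst hr
    exact ⟨Module.finBasis K V', trivial⟩
  -- the canonical flag
  have hproj : ∀ v : V, ∃ v' : V', (v : Derivation ℂ K K) - (v' : Derivation ℂ K K) ∈ W := by
    intro v
    have h1 : (v : Derivation ℂ K K) ∈ W ⊔ V' := by
      rw [hsup]
      exact v.2
    obtain ⟨a, ha, c, hc, hac⟩ := Submodule.mem_sup.1 h1
    refine ⟨⟨c, hc⟩, ?_⟩
    rw [← hac, add_sub_cancel_right]
    exact ha
  obtain ⟨b, γ, rho, N0, f, hγ, hγ0, hrho, hN0, hf, -, -, hloc, hsemi⟩ :=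
    flag_thm2 hr1 hm b0.linearIndependent b0.span_eq
      (fun i => (T i).compLinearMap fun _ => Submodule.inclusion hV'V) (by
        obtain ⟨i, hi⟩ := hT0
        refine ⟨i, fun h0 => hi ?_⟩
        ext D
        choose D' hD' using fun s => hproj (D s)
        have h1 := mul_congr_sub (T i) (hTW i) (x := D)
          (x' := fun s => Submodule.inclusion hV'V (D' s)) hD'
        rw [h1]
        have h2 := congrArg (fun t : MultilinearMap K (fun _ : Fin m => V') K => t D') h0
        exact h2)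
  obtain ⟨B, hB⟩ : ∃ B : Fin (q + r) → Derivation ℂ K K,
      B = Fin.append DW fun k => (b k : Derivation ℂ K K) := ⟨_, rfl⟩
  have hB1 : ∀ i, B (Fin.castAdd r i) = DW i := fun i => by rw [hB, Fin.append_left]
  have hB2 : ∀ k, B (Fin.natAdd q k) = b k := fun k => by rw [hB, Fin.append_right]
  have hspV' : Submodule.span K (Set.range fun k => (b k : Derivation ℂ K K)) = V' := by
    have h1 := congrArg (Submodule.map V'.subtype) b.span_eq
    rw [Submodule.map_span, Submodule.map_subtype_top, ← Set.range_comp] at h1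
    exact h1
  have hBspan : Submodule.span K (Set.range B) = V := by
    apply le_antisymm
    · rw [Submodule.span_le]
      rintro _ ⟨i, rfl⟩
      refine Fin.addCases (fun i => ?_) (fun k => ?_) i
      · rw [hB1, ← hsup]
        refine Submodule.mem_sup_left ?_
        rw [← hDWs]
        exact Submodule.subset_span ⟨i, rfl⟩
      · rw [hB2]
        exact hV'V (b k).2
    · rw [← hsup, sup_le_iff]
      constructor
      · rw [← hDWs, Submodule.span_le]
        rintro _ ⟨i, rfl⟩
        exact Submodule.subset_span ⟨Fin.castAdd r i, hB1 i⟩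
      · rw [← hspV', Submodule.span_le]
        rintro _ ⟨k, rfl⟩
        exact Submodule.subset_span ⟨Fin.natAdd q k, hB2 k⟩
  have hBli : LinearIndependent K B := by
    rw [linearIndependent_iff_card_eq_finrank_span, Fintype.card_fin]
    unfold Set.finrank
    rw [hBspan, hqr]
  obtain ⟨B0, hB0⟩ := exists_coords hfr B
  -- the local data
  have hlocd : ∀ P : Place ℂ K, ∃ (U : Matrix (Fin (q + r)) (Fin (q + r)) K)
      (nk : Fin (q + r) → ℝ), IsPrimeDivisor y P →
      ((∀ i, U i i = 1) ∧ (∀ i j, i < j → U i j = 0) ∧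
      (∀ (s : ℕ) (hs : s ≤ q + r), WedgeOrd n (Δ P) P (fun i : Fin s => B (Fin.castLE hs i))
        (∑ k : Fin s, nk (Fin.castLE hs k))) ∧
      (∀ k, ∃ e : ℝ, nk k ≤ e ∧ WedgeOrd n (Δ P) P (fun _ : Fin 1 => ∑ l, U k l • B l) e) ∧
      (FrameAt P E0 → Δ P = 0 → (∀ (s : ℕ) (hs : s ≤ q + r) (I : Fin s → Fin n),
        (B0.submatrix (Fin.castLE hs) I).det ≠ 0 →
          P.ord (B0.submatrix (Fin.castLE hs) I).det = 0) →
        ∀ (s : ℕ) (hs : s ≤ q + r), ∑ k : Fin s, nk (Fin.castLE hs k) = 0)) := by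
    intro P
    by_cases hP : IsPrimeDivisor y P
    · obtain ⟨U, nk, h1, h2, h3, h4, h5, -⟩ := loc_rect hy hn hx hE0 hw hBli hB0 Δ hP
      exact ⟨U, nk, fun _ => ⟨h1, h2, h3, h4, h5⟩⟩
    · exact ⟨1, fun _ => 0, fun h => absurd h hP⟩
  choose U nk hdat using hlocd
  obtain ⟨X, hX⟩ : ∃ X : Place ℂ K → ℕ → ℝ,
      X = fun P k => if h : k < q + r then nk P ⟨k, h⟩ else 0 := ⟨_, rfl⟩
  have hXi : ∀ P (i : Fin (q + r)), X P i = nk P i := by
    intro P i
    rw [hX]
    exact dif_pos i.2
  obtain ⟨ev, hev⟩ : ∃ ev : ℕ → Place ℂ K → ℝ, ev = fun s P => ∑ k ∈ Finset.range s, X P k :=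
    ⟨_, rfl⟩
  have hevs : ∀ (s : ℕ) (hs : s ≤ q + r) P,
      ev s P = ∑ k : Fin s, nk P (Fin.castLE hs k) := by
    intro s hs P
    rw [hev]
    simp only
    rw [Finset.sum_range]
    exact Finset.sum_congr rfl fun k _ => hXi P (Fin.castLE hs k)
  refine ⟨q, r, B, γ, rho, N0, f, ev, hr1, hBli, ?_, hBspan, hγ, hγ0, hrho, hN0, hf,
    fun s hs => ⟨?_, fun P hP => ?_⟩, fun P hP => ?_, fun h0 => ?_⟩
  · simp only [hB1]
    exact hDWs
  · have hI : ∀ (s : Fin (q + r + 1)) (I : Fin s → Fin n), {P | IsPrimeDivisor y P ∧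
        (B0.submatrix (Fin.castLE (Nat.lt_succ_iff.1 s.2)) I).det ≠ 0 ∧
        P.ord (B0.submatrix (Fin.castLE (Nat.lt_succ_iff.1 s.2)) I).det ≠ 0}.Finite := by
      intro s I
      by_cases h0 : (B0.submatrix (Fin.castLE (Nat.lt_succ_iff.1 s.2)) I).det = 0
      · exact Set.finite_empty.subset (by rintro P ⟨-, h, -⟩; exact h h0)
      · exact (finite_ord hy h0).subset (by rintro P ⟨h1, -, h2⟩; exact ⟨h1, h2⟩)
    refine ((frame_ae hy hn hx hE0).union (hΔ.union (Set.finite_iUnion fun s =>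
      Set.finite_iUnion (hI s)))).subset ?_
    rintro P ⟨hP, hne⟩
    by_contra hcon2
    rw [Set.mem_union, Set.mem_union] at hcon2
    push Not at hcon2
    have h1 : FrameAt P E0 := by
      by_contra h
      exact hcon2.1 ⟨hP, h⟩
    have h2 : Δ P = 0 := by
      by_contra h
      exact hcon2.2.1 ⟨hP, h⟩
    apply hne
    rw [hevs s hs P]
    refine (hdat P hP).2.2.2.2 h1 h2 (fun s hs I h3 => ?_) s hs
    by_contra h4
    exact hcon2.2.2 (Set.mem_iUnion.2 ⟨⟨s, Nat.lt_succ_iff.2 hs⟩, Set.mem_iUnion.2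
      ⟨I, hP, h3, h4⟩⟩)
  · rw [hevs s hs P]
    exact (hdat P hP).2.2.1 s hs
  · obtain ⟨h1, h2, -, h4, -⟩ := hdat P hP
    obtain ⟨U', hU'⟩ : ∃ U' : Matrix (Fin r) (Fin r) K,
      U' = Matrix.of fun k l => U P (Fin.natAdd q k) (Fin.natAdd q l) := ⟨_, rfl⟩
    have hU1 : ∀ i, U' i i = 1 := fun i => by
      rw [hU']
      exact h1 _
    have hU2 : ∀ i j, i < j → U' i j = 0 := fun i j hij => by
      rw [hU']
      exact h2 _ _ (by
        rw [Fin.lt_def, Fin.val_natAdd, Fin.val_natAdd]
        have : (i : ℕ) < j := hij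
        omega)
    have hUdet : U'.det = 1 := det_block hU1 hU2 (f := id) Function.injective_id
    have hUu : IsUnit U'.det := by
      rw [hUdet]
      exact isUnit_one
    obtain ⟨F, hF⟩ : ∃ F : Fin r → V', F = fun k => ∑ l, U' k l • b l := ⟨_, rfl⟩
    have h5 := hloc P F U'⁻¹ U' (fun k => nk P (Fin.natAdd q k)) (fun k => nk P (Fin.natAdd q k))
      (ℓ P) (fun k => by
        rw [hF]
        simp only [Finset.smul_sum, smul_smul]
        rw [Finset.sum_comm, Finset.sum_eq_single k]
        · rw [← Finset.sum_smul]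
          have h6 := congrFun (congrFun (Matrix.nonsing_inv_mul U' hUu) k) k
          rw [Matrix.mul_apply, Matrix.one_apply_eq] at h6
          rw [h6, one_smul]
        · intro l _ hl
          rw [← Finset.sum_smul]
          have h6 := congrFun (congrFun (Matrix.nonsing_inv_mul U' hUu) k) l
          rw [Matrix.mul_apply, Matrix.one_apply_ne (Ne.symm hl)] at h6
          rw [h6, zero_smul]
        · intro h
          exact absurd (Finset.mem_univ _) h) (fun i I => by
        have hmem : ∀ k, ∑ l, U P k l • B l ∈ V := by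
          intro k
          rw [← hBspan]
          exact Submodule.sum_mem _ fun l _ => Submodule.smul_mem _ _
            (Submodule.subset_span ⟨l, rfl⟩)
        choose e he1 he2 using h4
        have h6 := hTO i P hP (fun s => ⟨_, hmem (Fin.natAdd q (I s))⟩)
          (fun s => e (Fin.natAdd q (I s))) (fun s => he2 _)
        have h7 := mul_congr_sub (T i) (hTW i)
          (x := fun s => (⟨_, hmem (Fin.natAdd q (I s))⟩ : V))
          (x' := fun s => Submodule.inclusion hV'V (F (I s))) (fun s => by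
            have h8 : ((Submodule.inclusion hV'V (F (I s)) : V) : Derivation ℂ K K) =
                ∑ l, U' (I s) l • (b l : Derivation ℂ K K) := by
              rw [Submodule.coe_inclusion, hF]
              simp only [Submodule.coe_sum, Submodule.coe_smul]
            rw [h8]
            change ∑ l, U P (Fin.natAdd q (I s)) l • B l -
              ∑ l, U' (I s) l • (b l : Derivation ℂ K K) ∈ W
            rw [Fin.sum_univ_add]
            simp only [hB2, hB1]
            have h9 : ∑ l, U' (I s) l • (b l : Derivation ℂ K K) =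
                ∑ l, U P (Fin.natAdd q (I s)) (Fin.natAdd q l) • (b l : Derivation ℂ K K) := by
              rw [hU']
              rfl
            rw [h9, add_sub_cancel_right, ← hDWs]
            exact Submodule.sum_mem _ fun l _ => Submodule.smul_mem _ _
              (Submodule.subset_span ⟨l, rfl⟩))
        rw [h7] at h6
        refine h6.mono ?_
        have h8 : ∑ s, nk P (Fin.natAdd q (I s)) ≤ ∑ s, e (Fin.natAdd q (I s)) :=
          Finset.sum_le_sum fun s _ => he1 _
        linarith) hU1 hU2 (fun k j => by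
        rw [Matrix.mul_nonsing_inv U' hUu]
        by_cases hkj : k = j
        · subst hkj
          right
          rw [Matrix.one_apply_eq, P.ord_one]
          simp
        · left
          exact Matrix.one_apply_ne hkj)
    have h6 : ∑ k : Fin r, nk P (Fin.natAdd q k) = ev (q + r) P - ev q P := by
      rw [hevs (q + r) le_rfl P, hevs q (Nat.le_add_right _ _) P, Fin.sum_univ_add]
      have h7 : ∑ i : Fin q, nk P (Fin.castLE le_rfl (Fin.castAdd r i)) =
          ∑ k : Fin q, nk P (Fin.castLE (Nat.le_add_right _ _) k) := rfl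
      rw [h7, add_sub_cancel_left]
      rfl
    have h7 : ∀ k : Fin r, nk P (Fin.natAdd q k) = ev (q + k + 1) P - ev (q + k) P := by
      intro k
      rw [hev]
      simp only
      rw [Finset.sum_range_succ, add_sub_cancel_left]
      exact (hXi P (Fin.natAdd q k)).symm
    rw [h6] at h5
    simp only [h7] at h5
    exact h5
  · obtain ⟨W', Q, h1, h2, h3⟩ := hsemi h0
    exact ⟨fun k => Submodule.inclusion hV'V (b0 k), W', Q, h1, h2, h3⟩

end

end Pool.Agent.H897
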