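import Pool.Agent.H897.KA

/-!
Families of tensors on stable pieces of the tangent sheaf are semistable.
-/

set_option autoImplicit false
set_option linter.overlappingInstances false
set_option linter.unusedSectionVars false

open MvPolynomial FF Pool.Agent.W602.GT Pool.Agent.Y172 Pool.Agent.NH31 Pool.Agent.W603.LV
open Pool.Agent.N133.TB Pool.Agent.Y174 Pool.Agent.TH466.QG Pool.Agent.W619.PQ
open Pool.Agent.N133.OB Pool.Agent.Y191

namespace Pool.Agent.H897

section

variable {K : Type} [Field K] [Algebra ℂ K] {N n : ℕ} {y : Fin (N + 1) → K}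

/-- **Families of tensors on stable pieces are semistable.** -/
theorem piece_semi (hy : NormalModel y) (hn : Algebra.trdeg ℂ K = n)
    {Δ : Place ℂ K → ℚ} (hΔ : Boundary y Δ) {α : Place ℂ K → ℝ} (hα : MovableClass y α)
    {W V : Submodule K (Derivation ℂ K K)} (hWV : W < V) (hst : StablePiece y n Δ α W V)
    {m : ℕ} (hm : 1 ≤ m) {ι : Type} [Fintype ι]
    {T : ι → MultilinearMap K (fun _ : Fin m => V) K} (hT0 : ∃ i, T i ≠ 0)
    (hTW : ∀ i (D : Fin m → V), (∃ s, (D s : Derivation ℂ K K) ∈ W) → T i D = 0)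
    {ℓ : Place ℂ K → ℝ} {lam : ℝ} (hℓ : HasDeg y α ℓ lam)
    (hdeg : ∀ dW dV, SubDeg y n Δ α W dW → SubDeg y n Δ α V dV →
      ((Module.finrank K V : ℝ) - Module.finrank K W) * lam ≤ m * (dV - dW))
    (hTO : ∀ i P, IsPrimeDivisor y P → ∀ (D : Fin m → V) (e : Fin m → ℝ),
      (∀ s, WedgeOrd n (Δ P) P (fun _ : Fin 1 => (D s : Derivation ℂ K K)) (e s)) →
        GeR P (∑ s, e s - ℓ P) (T i D)) :
    ∃ (r : ℕ) (b' : Fin r → V) (W' : ℕ) (Q : MvPolynomial (Ix (fun _ : ι => m) r) ℂ),
      Module.finrank K V = Module.finrank K W + r ∧ 1 ≤ W' ∧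
      SemiInv ℂ (fun _ : ι => m) r W' Q ∧ aeval (pt (co T b')) Q ≠ 0 := by
  classical
  obtain ⟨q', r, B, γ, rho, N0, f, ev, hr1, hB, hBW, hBV, hγ, hγ0, hrho, hN0, hf, hev, hloc,
    hsemi⟩ := piece_flag2 hy hn hΔ.2 hWV hm T hT0 hTW hTO
  have hdW : Module.finrank K W = q' := by
    have h1 : LinearIndependent K fun i : Fin q' => B (Fin.castAdd r i) :=
      hB.comp _ (Fin.castAdd_injective q' r)
    exact card_of_span h1 hBW
  have hdV : Module.finrank K V = q' + r := card_of_span hB hBV
  -- the degrees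
  have hdg : ∀ s : ℕ, ∃ d : ℝ, s ≤ q' + r → HasDeg y α (ev s) d := by
    intro s
    by_cases hs : s ≤ q' + r
    · obtain ⟨d, hd⟩ := hasDeg_of_fin α (hev s hs).1
      exact ⟨d, fun _ => hd⟩
    · exact ⟨0, fun h => absurd h hs⟩
  choose sd hsd using hdg
  have hsubW : SubDeg y n Δ α W (sd q') := by
    refine ⟨q', fun i => B (Fin.castLE (Nat.le_add_right q' r) i), ev q',
      li_castLE _ hB, ?_, fun P hP => (hev q' (Nat.le_add_right _ _)).2 P hP,
      hsd q' (Nat.le_add_right _ _)⟩
    rw [← hBW]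
    rfl
  have hsubV : SubDeg y n Δ α V (sd (q' + r)) := by
    refine ⟨q' + r, fun i => B (Fin.castLE le_rfl i), ev (q' + r),
      li_castLE _ hB, ?_, fun P hP => (hev (q' + r) le_rfl).2 P hP, hsd (q' + r) le_rfl⟩
    rw [← hBV]
    rfl
  have hrpos : (0 : ℝ) < r := by exact_mod_cast hr1
  have hslope : (r : ℝ) * lam ≤ m * (sd (q' + r) - sd q') := by
    have h1 := hdeg _ _ hsubW hsubV
    rw [hdV, hdW] at h1
    push_cast at h1
    rw [add_sub_cancel_left] at h1
    exact h1
  -- the numbers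
  obtain ⟨l, rfl⟩ : ∃ l, r = l + 1 := ⟨r - 1, by omega⟩
  obtain ⟨g, hg⟩ : ∃ g : ℕ → ℝ, g = fun k => if h : k < l + 1 then (γ ⟨k, h⟩ : ℝ) else 0 :=
    ⟨_, rfl⟩
  have hgi : ∀ i : Fin (l + 1), g i = γ i := by
    intro i
    rw [hg]
    exact dif_pos i.2
  have hmono : ∀ k, k < l → g k ≤ g (k + 1) := by
    intro k hk
    have h1 := hgi ⟨k, by omega⟩
    have h2 := hgi ⟨k + 1, by omega⟩
    change g k = _ at h1
    change g (k + 1) = _ at h2
    rw [h1, h2]
    have h3 : γ ⟨k, by omega⟩ ≤ γ ⟨k + 1, by omega⟩ := hγ (by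
      rw [Fin.le_def]
      exact Nat.le_succ k)
    exact_mod_cast h3
  have hg0 : ∑ k ∈ Finset.range (l + 1), g k = 0 := by
    rw [Finset.sum_range]
    have : ∑ i, (γ i : ℝ) = 0 := by exact_mod_cast hγ0
    rw [← this]
    exact Finset.sum_congr rfl fun i _ => hgi i
  have hN0R : (0 : ℝ) < N0 := by exact_mod_cast hN0
  have hrhoR : (0 : ℝ) < rho := by exact_mod_cast hrho
  -- the degree of the local estimate
  have htot : N0 * ((m / (l + 1 : ℕ) : ℝ) * (sd (q' + (l + 1)) - sd q') - lam +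
      rho * ∑ k : Fin (l + 1), (γ k : ℝ) * (sd (q' + k + 1) - sd (q' + k))) ≤ 0 := by
    have h1 : HasDeg y α (fun P => ∑ k ∈ Finset.range (l + 1),
        g k * (ev (q' + k + 1) P + (-1) * ev (q' + k) P))
        (∑ k ∈ Finset.range (l + 1), g k * (sd (q' + k + 1) + (-1) * sd (q' + k))) :=
      hasDeg_sum (e := fun k P => g k * (ev (q' + k + 1) P + (-1) * ev (q' + k) P))
        (s := fun k => g k * (sd (q' + k + 1) + (-1) * sd (q' + k))) _ fun k hk => by
        have hk' := Finset.mem_range.1 hk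
        exact ((hsd _ (by omega)).add ((hsd _ (by omega)).smul _)).smul _
    have h2 : HasDeg y α (fun P => ((P.ord f : ℝ) + (-1) * (N0 * (((m / (l + 1 : ℕ) : ℝ) *
        (ev (q' + (l + 1)) P + (-1) * ev q' P) + (-1) * (ℓ P : ℝ)) + rho *
          ∑ k ∈ Finset.range (l + 1), g k * (ev (q' + k + 1) P + (-1) * ev (q' + k) P)))))
        (0 + (-1) * (N0 * (((m / (l + 1 : ℕ) : ℝ) *
        (sd (q' + (l + 1)) + (-1) * sd q') + (-1) * lam) + rho *
          ∑ k ∈ Finset.range (l + 1), g k * (sd (q' + k + 1) + (-1) * sd (q' + k))))) :=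
      (hα.prin f hf).add (((((((hsd _ le_rfl).add ((hsd _ (Nat.le_add_right _ _)).smul _)).smul
        _).add (hℓ.smul _)).add (h1.smul _)).smul _).smul _)
    have h3 := h2.nonneg hα.nonneg fun P hP => by
      have h4 := hloc P hP
      have h5 : ∑ k ∈ Finset.range (l + 1), g k * (ev (q' + k + 1) P + (-1) * ev (q' + k) P) =
          ∑ k : Fin (l + 1), (γ k : ℝ) * (ev (q' + k + 1) P - ev (q' + k) P) := by
        rw [Finset.sum_range]
        refine Finset.sum_congr rfl fun k _ => ?_
        rw [hgi]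
        ring
      rw [h5]
      linarith
    have h5 : ∑ k ∈ Finset.range (l + 1), g k * (sd (q' + k + 1) + (-1) * sd (q' + k)) =
        ∑ k : Fin (l + 1), (γ k : ℝ) * (sd (q' + k + 1) - sd (q' + k)) := by
      rw [Finset.sum_range]
      refine Finset.sum_congr rfl fun k _ => ?_
      rw [hgi]
      ring
    rw [h5] at h3
    linarith
  have hγz : ∀ k, γ k = 0 := by
    by_contra hne
    have hg2 : 0 < ∑ k ∈ Finset.range (l + 1), g k ^ 2 := by
      rw [Finset.sum_range]
      have h1 : ∑ k : Fin (l + 1), g k ^ 2 = ∑ k : Fin (l + 1), (γ k : ℝ) ^ 2 :=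
        Finset.sum_congr rfl fun k _ => by rw [hgi]
      rw [h1]
      push Not at hne
      obtain ⟨k, hk⟩ := hne
      have hk' : (γ k : ℝ) ≠ 0 := by exact_mod_cast hk
      exact Finset.sum_pos' (fun i _ => sq_nonneg _) ⟨k, Finset.mem_univ _, by positivity⟩
    have hpos := slopes_pos (l := l) (g := g) (s := fun k => sd (q' + k) - sd q')
      (c := -(sd (q' + (l + 1)) - sd q')) hmono hg0 hg2 (fun k hk => by
        have hle : q' + (k + 1) ≤ q' + (l + 1) := by omega
        obtain ⟨F, hF⟩ : ∃ F : Submodule K (Derivation ℂ K K), F = Submodule.span K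
          (Set.range fun i : Fin (q' + (k + 1)) => B (Fin.castLE hle i)) := ⟨_, rfl⟩
        have hFli := li_castLE hle hB
        have hFd : Module.finrank K F = q' + (k + 1) := card_of_span hFli hF.symm
        have hfinV : Module.Finite K V := Module.finite_of_finrank_pos (by rw [hdV]; omega)
        have hfinF : Module.Finite K F := Module.finite_of_finrank_pos (by rw [hFd]; omega)
        have hWF : W < F := by
          refine lt_of_le_of_ne ?_ fun h => ?_
          · rw [← hBW, hF, Submodule.span_le]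
            rintro _ ⟨i, rfl⟩
            exact Submodule.subset_span ⟨Fin.castLE (Nat.le_add_right _ _) i, rfl⟩
          · rw [h, hFd] at hdW
            omega
        have hFV : F < V := by
          refine lt_of_le_of_ne ?_ fun h => ?_
          · rw [← hBV, hF, Submodule.span_le]
            rintro _ ⟨i, rfl⟩
            exact Submodule.subset_span ⟨_, rfl⟩
          · rw [h, hdV] at hFd
            omega
        have h1 := hst F _ (sd (q' + (k + 1))) _ hWF hFV hsubW
          ⟨q' + (k + 1), _, ev (q' + (k + 1)), hFli, hF.symm,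
            fun P hP => (hev _ hle).2 P hP, hsd _ hle⟩ hsubV
        rw [hdV, hdW, hFd] at h1
        push_cast at h1
        linarith)
    have h1 : ∑ k : Fin (l + 1), (γ k : ℝ) * (sd (q' + k + 1) - sd (q' + k)) =
        g l * (sd (q' + (l + 1)) - sd q') -
          ∑ k ∈ Finset.range l, (g (k + 1) - g k) * (sd (q' + (k + 1)) - sd q') := by
      have h2 := abel_nat g (fun k => sd (q' + k + 1) - sd (q' + k)) l
      have h3 : ∀ j, ∑ k ∈ Finset.range j, (sd (q' + k + 1) - sd (q' + k)) =
          sd (q' + j) - sd q' := by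
        intro j
        have h4 := Finset.sum_range_sub (fun k => sd (q' + k)) j
        simpa [add_assoc] using h4
      simp only [h3] at h2
      rw [← h2, Finset.sum_range]
      exact Finset.sum_congr rfl fun k _ => by rw [hgi]
    rw [neg_neg] at hpos
    rw [h1] at htot
    have h2 : 0 ≤ (m / (l + 1 : ℕ) : ℝ) * (sd (q' + (l + 1)) - sd q') - lam := by
      have h3 : (m / (l + 1 : ℕ) : ℝ) * (sd (q' + (l + 1)) - sd q') - lam =
          (m * (sd (q' + (l + 1)) - sd q') - (l + 1 : ℕ) * lam) / (l + 1 : ℕ) := by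
        field_simp
      rw [h3]
      exact div_nonneg (by linarith) hrpos.le
    have h3 := mul_pos hrhoR hpos
    have h4 := mul_pos hN0R (add_pos_of_nonneg_of_pos h2 h3)
    linarith
  obtain ⟨b', W', Q, h1, h2, h3⟩ := hsemi hγz
  exact ⟨l + 1, b', W', Q, by rw [hdV, hdW], h1, h2, h3⟩

end

end Pool.Agent.H897
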