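import Pool.Agent.H897.KB

/-!
Semi-invariants of families of tensors on a distribution: change of the basis and orders.
-/

set_option autoImplicit false
set_option linter.overlappingInstances false
set_option linter.unusedSectionVars false

open MvPolynomial FF Pool.Agent.W602.GT Pool.Agent.Y172 Pool.Agent.NH31 Pool.Agent.W603.LV
open Pool.Agent.N133.TB Pool.Agent.Y174 Pool.Agent.TH466.QG Pool.Agent.W619.PQ
open Pool.Agent.N133.OB Pool.Agent.Y191

namespace Pool.Agent.H897

section

variable {K V : Type} [Field K] [Algebra ℂ K] [AddCommGroup V] [Module K V] {r m : ℕ} {ι : Type}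

/-- the values of a semi-invariant in two bases -/
theorem inv_change {T : ι → MultilinearMap K (fun _ : Fin m => V) K} {W : ℕ}
    {Q : MvPolynomial (Ix (fun _ : ι => m) r) ℂ} (hQ : SemiInv ℂ (fun _ : ι => m) r W Q)
    (E : Fin r → V) (A : Matrix (Fin r) (Fin r) K) :
    aeval (pt (co T fun k => ∑ j, A k j • E j)) Q = A.det ^ W * aeval (pt (co T E)) Q := by
  have h6 := hQ K A (co T E)
  rw [← h6]
  congr 2
  funext x
  exact (act_co T E A x.1 x.2).symm

theorem inv_ne {T : ι → MultilinearMap K (fun _ : Fin m => V) K} {W : ℕ}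
    {Q : MvPolynomial (Ix (fun _ : ι => m) r) ℂ} (hQ : SemiInv ℂ (fun _ : ι => m) r W Q)
    {E b : Fin r → V} (hE : Submodule.span K (Set.range E) = ⊤)
    (h : aeval (pt (co T b)) Q ≠ 0) : aeval (pt (co T E)) Q ≠ 0 := by
  have h1 : ∀ k, ∃ c : Fin r → K, ∑ j, c j • E j = b k := by
    intro k
    have h2 : b k ∈ Submodule.span K (Set.range E) := by
      rw [hE]
      trivial
    exact (Submodule.mem_span_range_iff_exists_fun K).1 h2
  choose A hA using h1
  have h3 : (fun k => ∑ j, (Matrix.of A) k j • E j) = b := funext hA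
  intro h0
  apply h
  rw [← h3, inv_change hQ, h0, mul_zero]

end

section

variable {K : Type} [Field K] [Algebra ℂ K] {N n : ℕ} {y : Fin (N + 1) → K}

/-- the order of a semi-invariant of tensors on a distribution -/
theorem inv_ord (hy : NormalModel y) (hn : Algebra.trdeg ℂ K = n)
    {Δ : Place ℂ K → ℚ} (hΔ : Boundary y Δ) {V : Submodule K (Derivation ℂ K K)}
    {m : ℕ} (hm : 1 ≤ m) {ι : Type} [Fintype ι]
    {T : ι → MultilinearMap K (fun _ : Fin m => V) K}
    (hTO : ∀ i P, IsPrimeDivisor y P → ∀ (D : Fin m → V) (e : Fin m → ℝ),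
      (∀ s, WedgeOrd n (Δ P) P (fun _ : Fin 1 => (D s : Derivation ℂ K K)) (e s)) →
        GeR P (∑ s, e s) (T i D)) {r : ℕ} {E : Fin r → V} (hr : 1 ≤ r)
    (hE : LinearIndependent K fun i => (E i : Derivation ℂ K K)) {W : ℕ}
    {Q : MvPolynomial (Ix (fun _ : ι => m) r) ℂ} (hQ : SemiInv ℂ (fun _ : ι => m) r W Q)
    {P : Place ℂ K} (hP : IsPrimeDivisor y P) {e : ℝ}
    (he : WedgeOrd n (Δ P) P (fun i => (E i : Derivation ℂ K K)) e) :
    GeR P (W * e) (aeval (pt (co T E)) Q) := by
  classical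
  by_cases hQ0 : Q = 0
  · left
    rw [hQ0, map_zero]
  obtain ⟨μ, hμ⟩ := support_nonempty.2 hQ0
  have hB := inv_degF hQ hμ
  have hess := hy.ess
  obtain ⟨x, E0, hx, hE0⟩ := exists_crd hn
  obtain ⟨w, hwf, hw⟩ := exists_canon hy hn hx hE0
  obtain ⟨B0, hB0⟩ := exists_coords (frame_of_dual hx hE0) (fun i => (E i : Derivation ℂ K K))
  obtain ⟨U, nk, h1, h2, h3, h4, -, -⟩ := loc_rect hy hn hx hE0 hw hE hB0 Δ hP
  have h5 : e = ∑ k, nk k :=
    wedge_unique hy hn hP (hΔ.1 P hP).1 (hΔ.1 P hP).2 he (h3 r le_rfl)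
  have hUdet : U.det = 1 := det_block h1 h2 (f := id) Function.injective_id
  have h6 : ∀ i (I : Fin m → Fin r), GeR P (∑ s, nk (I s) - 0)
      (T i fun s => ∑ j, U (I s) j • E j) := by
    intro i I
    choose e' he1 he2 using h4
    have h7 := hTO i P hP (fun s => ∑ j, U (I s) j • E j) (fun s => e' (I s)) (fun s => by
      have h8 := he2 (I s)
      have h9 : ((∑ j, U (I s) j • E j : V) : Derivation ℂ K K) =
          ∑ j, U (I s) j • (E j : Derivation ℂ K K) := by
        simp only [Submodule.coe_sum, Submodule.coe_smul]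
      rw [h9]
      exact h8)
    refine h7.mono ?_
    rw [sub_zero]
    exact Finset.sum_le_sum fun s _ => he1 _
  have h7 := inv_geF (E := fun k => ∑ j, U k j • E j) (nu := nk) (l := 0) hm h6 hQ hB
  rw [inv_change hQ, hUdet, one_pow, one_mul, mul_zero, sub_zero, ← h5] at h7
  exact h7

end

end Pool.Agent.H897
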