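import Pool.Agent.H897.VG

/-!
The inequality of Iitaka for fibrations with towers of stable distributions.
-/

set_option autoImplicit false
set_option linter.overlappingInstances false
set_option linter.unusedSectionVars false

open MvPolynomial FF Pool.Agent.W602.GT Pool.Agent.Y172 Pool.Agent.NH31 Pool.Agent.W603.LV
open Pool.Agent.N133.TB Pool.Agent.Y174 Pool.Agent.TH466.QG Pool.Agent.W619.PQ
open Pool.Agent.N133.OB Pool.Agent.Y191

namespace Pool.Agent.H897

section

variable {L K : Type} [Field L] [Field K] [Algebra ℂ L] [Algebra ℂ K] [Algebra L K]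
  [IsScalarTower ℂ L K] {N : ℕ} {y : Fin (N + 1) → K} {d r : ℕ}

/-- the sections of the multiples of `K_X + Δ` -/
theorem tower_rel_sec (hy : NormalModel y) (hr : 1 ≤ r) (hL : Algebra.trdeg ℂ L = d)
    (hn : Algebra.trdeg ℂ K = (d + r : ℕ)) {Δ : Place ℂ K → ℚ} (hΔ : Boundary y Δ)
    {b : Place ℂ L → ℝ} (hb : OrbMor L y Δ b) {s M : ℕ}
    {θ : (Fin d → Derivation ℂ L L) → L} (hθ : PairSec ℂ L d b {1} s 0 θ) {t : Fin d → L}
    (ht : IsTranscendenceBasis ℂ t) {x : Fin r → K} (hx : IsTranscendenceBasis L x)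
    {G : Fin d → Derivation ℂ L L} (hG : ∀ i j, G i (t j) = if i = j then 1 else 0)
    {E : Fin r → Derivation L K K} (hE : ∀ i j, E i (x j) = if i = j then 1 else 0) {g : K}
    (hg0 : g ≠ 0)
    (hg : ∀ P, IsPrimeDivisor y P → ∀ e : ℝ, WedgeOrd (d + r) (Δ P) P
      (fun i => (E i).restrictScalars ℂ) e → M * e ≤ P.ord g) :
    IsSection y (d + r) (s * M) ((s * M) • Δ)
      (formOf (Fin.append (algebraMap L K ∘ t) x) (s * M) (g ^ s * algebraMap L K (θ G) ^ M)) := by
  classical
  have hess : Algebra.EssFiniteType ℂ K := hy.ess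
  have hL0 : CharZero L := charZero_of_injective_algebraMap (algebraMap ℂ L).injective
  obtain ⟨ρ, hρd⟩ : ∃ ρ : (Fin r → Derivation L K K) → K,
    ρ = fun F => g * (Matrix.of fun i j => F i (x j)).det ^ M := ⟨_, rfl⟩
  have hρE : ρ E = g := by
    have h1 : (Matrix.of fun i j => E i (x j)) = 1 := by
      ext i j
      rw [Matrix.of_apply, hE, Matrix.one_apply]
    rw [hρd]
    simp only [h1, Matrix.det_one, one_pow, mul_one]
  have hρ : IsPluriForm L K r M ρ := by
    intro A F
    have h1 : (Matrix.of fun i k => (∑ j, A i j • F j) (x k)) =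
        A * Matrix.of fun i k => F i (x k) := by
      ext i k
      rw [Matrix.of_apply, Pool.Agent.W721.PG.EFF2.der_sum, Matrix.mul_apply]
      rfl
    rw [hρd]
    simp only [h1, Matrix.det_mul, mul_pow]
    ring
  -- the basis of the relative tangent sheaf
  obtain ⟨DE, hDE⟩ : ∃ DE : Fin r → Derivation ℂ K K, DE = fun i => (E i).restrictScalars ℂ :=
    ⟨_, rfl⟩
  have hli : LinearIndependent K DE := by
    rw [Fintype.linearIndependent_iff]
    intro c hc i
    have h1 := congrArg (fun D : Derivation ℂ K K => D (x i)) hc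
    have h2 : (∑ j, c j • DE j) (x i) = ∑ j, c j * E j (x i) := by
      rw [Pool.Agent.W721.PG.EFF2.der_sum, hDE]
      rfl
    have h3 : (∑ j, c j • DE j) (x i) = 0 := h1
    rw [h2] at h3
    simp only [hE, mul_ite, mul_one, mul_zero] at h3
    rw [Finset.sum_ite_eq' Finset.univ i, if_pos (Finset.mem_univ _)] at h3
    exact h3
  -- the order of `ρ`
  have key : ∀ P, IsPrimeDivisor y P → ∀ F : Fin r → Derivation L K K,
      (∀ j f, P.Reg f → P.Reg (F j f)) → (ρ F = 0 ∨ -(M * (Δ P : ℝ)) ≤ (P.ord (ρ F) : ℝ)) ∧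
        ((∀ j f, P.Reg (F j f / f)) → ρ F = 0 ∨ 0 ≤ (P.ord (ρ F) : ℝ)) := by
    intro P hP F hF
    obtain ⟨A, hA⟩ : ∃ A : Matrix (Fin r) (Fin r) K, A = Matrix.of fun i j => F i (x j) := ⟨_, rfl⟩
    by_cases h0 : ρ F = 0
    · exact ⟨Or.inl h0, fun _ => Or.inl h0⟩
    have hdet : A.det ^ M ≠ 0 := by
      intro h
      apply h0
      rw [hρd]
      simp only
      rw [← hA, h, mul_zero]
    obtain ⟨e, he⟩ := wedge_exists hy hn Δ hli hP
    have hordρ : (P.ord (ρ F) : ℝ) = P.ord g + M * P.ord A.det := by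
      rw [hρd]
      simp only
      rw [← hA, P.ord_mul hg0 hdet, P.ord_pow]
      push_cast
      ring
    have h1 := hg P hP e (by rw [← hDE]; exact he)
    have hM0 : (0 : ℝ) ≤ M := Nat.cast_nonneg _
    by_cases hA0 : A.det = 0
    · -- then `M = 0`
      have hMz : M = 0 := by
        by_contra hne
        apply hdet
        rw [hA0, zero_pow hne]
      rw [hMz] at h1 hordρ
      simp only [Nat.cast_zero, zero_mul, add_zero] at h1 hordρ
      rw [← hordρ] at h1
      refine ⟨Or.inr ?_, fun _ => Or.inr h1⟩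
      rw [hMz]
      simpa using h1
    have hFE : ∀ i, (F i).restrictScalars ℂ = ∑ j, A i j • DE j := by
      intro i
      have h2 := Pool.Agent.W73.PG.PULL.expand x hx E hE (F i)
      ext f
      have h3 := congrArg (fun D : Derivation L K K => D f) h2
      have h4 : (∑ j, A i j • DE j) f = ∑ j, A i j * E j f := by
        rw [Pool.Agent.W721.PG.EFF2.der_sum, hDE]
        rfl
      have h5 : (∑ j, F i (x j) • E j) f = ∑ j, A i j * E j f := by
        rw [Pool.Agent.W721.PG.EFF2.der_sum, hA]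
        rfl
      rw [h4, ← h5]
      exact h3.symm
    have h2 := wedge_change hA0 hFE he
    have h3 := wedge_reg hy hn hP (hΔ.1 P hP).1 (hΔ.1 P hP).2
      (fun k f hf => hF k f hf) h2
    constructor
    · right
      rw [hordρ]
      have h4 := mul_le_mul_of_nonneg_left h3.1 hM0
      linarith
    · intro hlog
      right
      rw [hordρ]
      have h4 := mul_nonneg hM0 (h3.2 fun k f => hlog k f)
      linarith
  refine ⟨isPluri_formOf _ _ _, fun P hP D hD => ?_⟩
  have hdiv := hP.divisorial hy hn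
  have hkey : formOf (Fin.append (algebraMap L K ∘ t) x) (s * M)
        (g ^ s * algebraMap L K (θ G) ^ M) D = 0 ∨
      -((s * M : ℕ) * (Δ P : ℝ)) ≤ (P.ord (formOf (Fin.append (algebraMap L K ∘ t) x) (s * M)
        (g ^ s * algebraMap L K (θ G) ^ M) D) : ℝ) := by
    rw [← hρE]
    by_cases htriv : ∀ f : L, f ≠ 0 → P.ord (algebraMap L K f) = 0
    · exact t_bd1 L K hess d r hr hL hn t ht x hx G hG E hE M s ρ θ hρ hθ.1 P hdiv
        (Δ P) htriv (fun F hF => (key P hP F hF).1) D hD
    · push Not at htriv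
      obtain ⟨Q', e, hl⟩ := exists_liesOn P htriv
      refine t_bd2 L K hess d r hr hL hn t ht x hx G hG E hE M s ρ θ hρ hθ.1 P hdiv
        (Δ P) (b Q') Q' e hl (hb P hP Q' e hl) ?_ ?_ D hD
      · intro F hF
        exact (key P hP F hF).2 fun j f => t_tan L K P Q' e hl _ (fun f hf => hF _ f hf) f
      · intro hQdiv H hH
        rcases hθ.2 Q' hQdiv H hH with h1 | ⟨s', hs', hs0, h1⟩
        · exact Or.inl h1
        · right
          simp only [Nat.cast_zero, zero_mul, zero_sub] at h1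
          exact h1
  rcases hkey with h | h
  · exact Or.inl h
  · right
    have e : ((s * M) • Δ) P = ((s * M : ℕ) : ℚ) * Δ P := by simp [Pi.smul_apply, nsmul_eq_mul]
    rw [e]
    have h2 : ((-(((s * M : ℕ) : ℚ) * Δ P) : ℚ) : ℝ) ≤
        ((P.ord (formOf (Fin.append (algebraMap L K ∘ t) x) (s * M)
          (g ^ s * algebraMap L K (θ G) ^ M) D) : ℚ) : ℝ) := by
      push_cast
      push_cast at h
      exact h
    exact_mod_cast h2

/-- **The inequality of Iitaka** for a fibration with an effective relative canonical class. -/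
theorem eff_rel_main (hy : NormalModel y) (hr : 1 ≤ r) (hL : Algebra.trdeg ℂ L = d)
    (hn : Algebra.trdeg ℂ K = (d + r : ℕ)) {Δ : Place ℂ K → ℚ} (hΔ : Boundary y Δ)
    (hLC : LogCanonical y (d + r) Δ) {b : Place ℂ L → ℝ} (hb : OrbMor L y Δ b) {h : ℕ}
    (hB : PairKod ℂ L d b h)
    (heff : ∀ {E : Fin r → Derivation L K K} {x : Fin r → K}, IsTranscendenceBasis L x →
      (∀ i j, E i (x j) = if i = j then 1 else 0) → ∃ (M : ℕ) (g : K), 1 ≤ M ∧ g ≠ 0 ∧
        ∀ P, IsPrimeDivisor y P → ∀ e : ℝ, WedgeOrd (d + r) (Δ P) P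
          (fun i => (E i).restrictScalars ℂ) e → M * e ≤ P.ord g) :
    ∃ e : ℕ, kodairaDim y (d + r) Δ = ((h + e : ℕ) : WithBot ℕ) := by
  classical
  have hess : Algebra.EssFiniteType ℂ K := hy.ess
  have hL0 : CharZero L := charZero_of_injective_algebraMap (algebraMap ℂ L).injective
  have hK0 : CharZero K := charZero_of_injective_algebraMap (algebraMap ℂ K).injective
  obtain ⟨t, ht⟩ := Pool.Agent.W636.PG.exists_basis ℂ L d hL
  obtain ⟨G, hG⟩ := Pool.Agent.W636.PG.exists_duals ℂ L d t ht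
  obtain ⟨x, hx⟩ := Pool.Agent.W636.PG.exists_basis L K r (trdeg_LK hL hn)
  obtain ⟨E, hE⟩ := Pool.Agent.W636.PG.exists_duals L K r x hx
  obtain ⟨M, g, hM, hg0, hg⟩ := heff hx hE
  have hZ := basis_append ht hx
  obtain ⟨Z, hZd⟩ : ∃ Z : Fin (d + r) → K, Z = Fin.append (algebraMap L K ∘ t) x := ⟨_, rfl⟩
  rw [← hZd] at hZ
  obtain ⟨DZ, hDZ⟩ := Pool.Agent.W636.PG.exists_duals ℂ K (d + r) Z hZ
  have hform : ∀ (M : ℕ) (a : K), formOf Z M a DZ = a := by
    intro M a
    unfold formOf
    have h1 : (Matrix.of fun i b => DZ i (Z b)) = 1 := by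
      ext i j
      rw [Matrix.of_apply, hDZ, Matrix.one_apply]
    rw [h1, Matrix.det_one, one_pow, mul_one]
  have hformne : ∀ (M : ℕ) {a : K}, a ≠ 0 → formOf Z M a ≠ 0 := by
    intro M a ha h0
    have h1 := hform M a
    rw [h0] at h1
    exact ha h1.symm
  -- the sections of the base
  obtain ⟨s, hs, θ, hθ, G0, hG0, hind⟩ := hB
  have hbase : ∀ l, θ l G0 = (Matrix.of fun i j => G0 i (t j)).det ^ s * θ l G := by
    intro l
    have h1 := (hθ l).1 (Matrix.of fun i j => G0 i (t j)) G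
    have h2 : (fun i => ∑ j, (Matrix.of fun i j => G0 i (t j)) i j • G j) = G0 := by
      funext i
      exact Pool.Agent.W73.PG.PULL.expand t ht G hG (G0 i)
    rw [h2] at h1
    exact h1
  have hθ0 : ∀ l, θ l G ≠ 0 := fun l h => hG0 l (by rw [hbase, h, mul_zero])
  have hdet0 : (Matrix.of fun i j => G0 i (t j)).det ^ s ≠ 0 := by
    intro h
    apply hG0 0
    rw [hbase, h, zero_mul]
  have hratio : ∀ l, θ l G0 / θ 0 G0 = θ l G / θ 0 G := by
    intro l
    rw [hbase l, hbase 0, mul_div_mul_left _ _ hdet0]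
  -- the sections
  have hsec : ∀ (l : Fin (h + 1)), IsSection y (d + r) (s * M) ((s * M) • Δ)
        (formOf Z (s * M) (g ^ s * algebraMap L K (θ l G) ^ M)) := by
    intro l
    rw [hZd]
    exact tower_rel_sec hy hr hL hn hΔ hb (hθ l) ht hx hG hE hg0 hg
  have hLne : ∀ l, algebraMap L K (θ l G) ≠ 0 := fun l => by
    simpa using hθ0 l
  have hsM : 1 ≤ s * M := Nat.mul_pos hs hM
  have hf0 : (1 : K) ∈ Ratio y (d + r) Δ := ratio_one hsM (hsec 0)
    (hformne _ (mul_ne_zero (pow_ne_zero _ hg0) (pow_ne_zero _ (hLne 0))))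
  -- the ratios of the base
  have hgI : ∀ l, algebraMap L K (θ l G0 / θ 0 G0) ∈ iitakaField y (d + r) Δ := by
    intro l
    rw [hratio]
    refine iitaka_closed ?_
    have h1 : (algebraMap L K (θ l G / θ 0 G)) ^ M ∈ iitakaField y (d + r) Δ := by
      refine ratio_mem_iitaka ⟨s * M, hsM, _, hsec 0, hformne _
        (mul_ne_zero (pow_ne_zero _ hg0) (pow_ne_zero _ (hLne 0))), ?_⟩
      have h2 : (fun D => (algebraMap L K (θ l G / θ 0 G)) ^ M *
          formOf Z (s * M) (g ^ s * algebraMap L K (θ 0 G) ^ M) D) =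
          formOf Z (s * M) (g ^ s * algebraMap L K (θ l G) ^ M) := by
        funext D
        unfold formOf
        rw [map_div₀, div_pow]
        have h3 := pow_ne_zero M (hLne 0)
        field_simp
      rw [h2]
      exact hsec l
    have h3 : IsAlgebraic (iitakaField y (d + r) Δ) ((algebraMap L K (θ l G / θ 0 G)) ^ M) :=
      isAlgebraic_algebraMap (R := iitakaField y (d + r) Δ) (A := K)
        (⟨_, h1⟩ : iitakaField y (d + r) Δ)
    exact h3.of_pow hM
  -- the Kodaira dimension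
  have hΔe : Effective y Δ := ⟨fun P hP => (hΔ.1 P hP).1, hΔ.2⟩
  obtain ⟨d0, r0, hd, hnd⟩ := iitaka_dim (y := y) hn Δ
  obtain ⟨β, G', hβ, -, hδ0, hdisc, hG'⟩ := exists_delta hy hn hΔe hLC (δ0 := fun _ => 0)
    (fun v => Or.inr ⟨1, le_rfl, by norm_num⟩)
    (fun P hP => by
      have := (hΔ.1 P hP).1
      exact_mod_cast this) (G := ∅) (by simp) (fun v h => absurd rfl h)
  obtain ⟨hkod, -⟩ := kod_main hy hn hΔe hdisc hG' hf0 hd
  -- the transcendence basis
  let g' : Fin h → iitakaField y (d + r) Δ := fun l => ⟨_, hgI l.succ⟩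
  have hg' : AlgebraicIndependent ℂ g' := by
    have h1 : AlgebraicIndependent ℂ (fun l : Fin h => algebraMap L K (θ l.succ G0 / θ 0 G0)) := by
      have h2 := hind.map' (f := IsScalarTower.toAlgHom ℂ L K) (algebraMap L K).injective
      exact h2
    exact AlgebraicIndependent.of_comp (iitakaField y (d + r) Δ).val h1
  obtain ⟨e, u, hde, -⟩ := ext_basis hd hg'
  exact ⟨e, by rw [hkod, hde]⟩

/-- **The inequality of Iitaka** for towers of stable distributions. -/
theorem tower_rel_main (hy : NormalModel y) (hr : 1 ≤ r) (hL : Algebra.trdeg ℂ L = d)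
    (hn : Algebra.trdeg ℂ K = (d + r : ℕ)) {Δ : Place ℂ K → ℚ} (hΔ : Boundary y Δ)
    (hLC : LogCanonical y (d + r) Δ) {b : Place ℂ L → ℝ} (hb : OrbMor L y Δ b) {h : ℕ}
    (hB : PairKod ℂ L d b h) {k : ℕ} {V : ℕ → Submodule K (Derivation ℂ K K)} (hV0 : V 0 = ⊥)
    (hVk : V k = relTan L K) (m : ℕ → ℕ) (hm : ∀ i, i < k → 1 ≤ m i)
    (hV : ∀ i, i < k → PieceEff y (d + r) Δ (m i) 0 (V i) (V (i + 1))) :
    ∃ e : ℕ, kodairaDim y (d + r) Δ = ((h + e : ℕ) : WithBot ℕ) := by
  classical
  have hL0 : CharZero L := charZero_of_injective_algebraMap (algebraMap ℂ L).injective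
  refine eff_rel_main hy hr hL hn hΔ hLC hb hB fun {E x} hx hE => ?_
  have hspan := relTan_span hx hE
  have hli : LinearIndependent K fun i => (E i).restrictScalars ℂ := by
    rw [Fintype.linearIndependent_iff]
    intro c hc i
    have h1 := congrArg (fun D : Derivation ℂ K K => D (x i)) hc
    have h2 : (∑ j, c j • (E j).restrictScalars ℂ) (x i) = ∑ j, c j * E j (x i) := by
      rw [Pool.Agent.W721.PG.EFF2.der_sum]
      rfl
    have h3 : (∑ j, c j • (E j).restrictScalars ℂ) (x i) = 0 := h1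
    rw [h2] at h3
    simp only [hE, mul_ite, mul_one, mul_zero] at h3
    rw [Finset.sum_ite_eq' Finset.univ i, if_pos (Finset.mem_univ _)] at h3
    exact h3
  obtain ⟨M, g, hM, hg0, hg⟩ := tower_eff hy hn hΔ hV0 m hm (fun _ => 0) hV hli
    (hspan.trans hVk.symm)
  refine ⟨M, g, hM, hg0, fun P hP e he => ?_⟩
  have h1 := hg P hP e he
  simpa using h1

end

end Pool.Agent.H897
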