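import Pool.Agent.H897.KC
import Pool.Agent.H897.VH
import Pool.Agent.H897.JI

/-!
Pencils on fibrations whose relative tangent sheaf is stable.
-/

set_option autoImplicit false
set_option linter.overlappingInstances false
set_option linter.unusedSectionVars false

open MvPolynomial FF Pool.Agent.W602.GT Pool.Agent.Y172 Pool.Agent.NH31 Pool.Agent.W603.LV
open Pool.Agent.N133.TB Pool.Agent.Y174 Pool.Agent.TH466.QG Pool.Agent.W619.PQ
open Pool.Agent.N133.OB Pool.Agent.Y191

namespace Pool.Agent.H897

section

variable {K : Type} [Field K] [Algebra ℂ K] {N n : ℕ} {y : Fin (N + 1) → K}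

/-- the derivatives of regular functions -/
theorem der_ord {δ : ℚ} (hδ : 0 ≤ δ) {P : Place ℂ K} {D : Derivation ℂ K K} {e : ℝ}
    (he : WedgeOrd n δ P (fun _ : Fin 1 => D) e) {u : K} (hu : P.Reg u) : GeR P e (D u) := by
  classical
  obtain ⟨E, i0, c, hA, hc, hle, -⟩ := he
  have h1 : D u = ∑ j, c 0 j * E j u := by
    have h2 := hc 0
    have h3 := congrArg (fun D : Derivation ℂ K K => D u) h2
    simp only [sum_smul_apply] at h3
    exact h3
  rw [h1]
  refine Pool.Agent.Y174.OB.geR_sum _ _ _ fun j _ => ?_
  have h2 : GeR P e (c 0 j) := by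
    have h3 := hle (fun _ => j)
    have h4 : (c.submatrix id (fun _ : Fin 1 => j)).det = c 0 j := by
      rw [Matrix.det_fin_one]
      rfl
    rw [h4, Fin.sum_univ_one] at h3
    rcases h3 with h3 | h3
    · exact Or.inl h3
    · right
      have h5 : (0 : ℝ) ≤ if j = i0 then (δ : ℝ) else 0 := by
        split_ifs
        · exact_mod_cast hδ
        · exact le_rfl
      linarith
  have h3 : GeR P 0 (E j u) := by
    have h4 := hA.1.1 j u hu
    by_cases h0 : E j u = 0
    · exact Or.inl h0
    · right
      have h5 := (P.reg_iff h0).1 h4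
      exact_mod_cast h5
  have h4 := h2.mul h3
  rw [add_zero] at h4
  exact h4

/-- the linear form `D ↦ g' D g - g D g'` on a distribution -/
noncomputable def penc (V : Submodule K (Derivation ℂ K K)) (g g' : K) :
    MultilinearMap K (fun _ : Fin 1 => V) K :=
  MultilinearMap.ofSubsingleton K V K (0 : Fin 1)
    { toFun := fun D => g' * (D : Derivation ℂ K K) g - g * (D : Derivation ℂ K K) g'
      map_add' := fun D D' => by
        rw [Submodule.coe_add, Derivation.add_apply, Derivation.add_apply]
        ring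
      map_smul' := fun c D => by
        rw [Submodule.coe_smul, Derivation.smul_apply, Derivation.smul_apply]
        simp only [smul_eq_mul, RingHom.id_apply]
        ring }

theorem penc_apply (V : Submodule K (Derivation ℂ K K)) (g g' : K) (D : Fin 1 → V) :
    penc V g g' D = g' * (D 0 : Derivation ℂ K K) g - g * (D 0 : Derivation ℂ K K) g' := rfl

theorem penc_eq {D : Derivation ℂ K K} {g g' : K} (hg' : g' ≠ 0) :
    g' * D g - g * D g' = g' ^ 2 * D (g / g') := by
  have h8 : D g = g' * D (g / g') + (g / g') * D g' := by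
    conv_lhs => rw [← mul_div_cancel₀ g hg']
    rw [Derivation.leibniz]
    rfl
  rw [h8]
  field_simp
  ring

/-- **Pencils.** Two sections of a divisor `N` with `2 r deg N ≤ deg V`, if `V` is stable of rank at
least two: the ratio is constant along `V`. -/
theorem pencil_const (hy : NormalModel y) (hn : Algebra.trdeg ℂ K = n)
    {Δ : Place ℂ K → ℚ} (hΔ : Boundary y Δ) {α : Place ℂ K → ℝ} (hα : MovableClass y α)
    {V : Submodule K (Derivation ℂ K K)} (hV2 : 2 ≤ Module.finrank K V)
    (hst : StablePiece y n Δ α ⊥ V) {No : Place ℂ K → ℝ} {ν : ℝ} (hNo : HasDeg y α No ν)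
    (hdeg : ∀ dV, SubDeg y n Δ α V dV → 2 * Module.finrank K V * ν ≤ dV)
    {g g' : K} (hg' : g' ≠ 0)
    (hgo : ∀ P, IsPrimeDivisor y P → GeR P (-No P) g)
    (hgo' : ∀ P, IsPrimeDivisor y P → GeR P (-No P) g') {D : Derivation ℂ K K} (hD : D ∈ V) :
    D (g / g') = 0 := by
  classical
  by_cases hg0 : g = 0
  · rw [hg0, zero_div, map_zero]
  have h0 : penc V g g' = 0 := by
    by_contra h0
    obtain ⟨r, b', W', Q, h1, h2, h3, h4⟩ := piece_semi hy hn hΔ hα (W := ⊥) (V := V)
      (by
        refine bot_lt_iff_ne_bot.2 fun h => ?_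
        rw [h, finrank_bot] at hV2
        omega) hst (m := 1) le_rfl (ι := Unit) (T := fun _ => penc V g g') ⟨(), h0⟩
      (fun _ D' hD' => by
        obtain ⟨s, hs⟩ := hD'
        have h1 : D' 0 = 0 := by
          have h2 : s = 0 := Subsingleton.elim _ _
          rw [h2] at hs
          exact Subtype.ext ((Submodule.mem_bot K).1 hs)
        rw [penc_apply, h1]
        change g' * (0 : Derivation ℂ K K) g - g * (0 : Derivation ℂ K K) g' = 0
        rw [Derivation.zero_apply, Derivation.zero_apply, mul_zero, mul_zero, sub_zero])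
      (ℓ := fun P => 2 * No P) (lam := 2 * ν) (hNo.smul 2) (fun dW dV hdW hdV => by
        have h1 : dW = 0 := subDeg_bot hdW
        have h2 := hdeg dV hdV
        rw [finrank_bot, h1]
        push_cast
        linarith) (fun _ P hP D' e he => by
        have key : ∀ a b : K, a ≠ 0 → b ≠ 0 → GeR P (-No P) a → P.ord a ≤ P.ord b →
            GeR P (e 0 - 2 * No P) (a ^ 2 * (D' 0 : Derivation ℂ K K) (b / a)) := by
          intro a b ha hb hao hle
          have h1 : P.Reg (b / a) := by
            right
            rw [P.ord_div hb ha]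
            omega
          have h2 := der_ord (by exact_mod_cast (hΔ.1 P hP).1) (he 0) h1
          have h3 := (hao.pow 2).mul h2
          refine h3.mono (le_of_eq ?_)
          push_cast
          ring
        rw [Fin.sum_univ_one, penc_apply]
        rcases le_total (P.ord g') (P.ord g) with hle | hle
        · rw [penc_eq hg']
          exact key _ _ hg' hg0 (hgo' P hP) hle
        · have h1 : g' * (D' 0 : Derivation ℂ K K) g - g * (D' 0 : Derivation ℂ K K) g' =
              -(g ^ 2 * (D' 0 : Derivation ℂ K K) (g' / g)) := by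
            rw [← penc_eq hg0]
            ring
          rw [h1]
          have h2 := key _ _ hg0 hg' (hgo P hP) hle
          rcases h2 with h2 | h2
          · left
            rw [h2, neg_zero]
          · right
            rw [P.ord_neg]
            exact h2)
    have h5 : 2 ≤ r := by
      rw [finrank_bot] at h1
      omega
    exact h4 (lin_null h5 h2 h3 _)
  have h1 : penc V g g' (fun _ => ⟨D, hD⟩) = 0 := by rw [h0]; rfl
  rw [penc_apply] at h1
  change g' * D g - g * D g' = 0 at h1
  rw [penc_eq hg'] at h1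
  exact (mul_eq_zero.1 h1).resolve_left (pow_ne_zero 2 hg')

end

section

variable {L K : Type} [Field L] [Field K] [Algebra ℂ L] [Algebra ℂ K] [Algebra L K]
  [IsScalarTower ℂ L K] {N : ℕ} {y : Fin (N + 1) → K} {d r : ℕ}

/-- functions which are constant along the fibres -/
theorem alg_of_relTan {u : K} (h : ∀ D : Derivation ℂ K K, D ∈ relTan L K → D u = 0) :
    IsAlgebraic L u := by
  by_contra hcon
  have hL0 : CharZero L := charZero_of_injective_algebraMap (algebraMap ℂ L).injective
  obtain ⟨D, hD⟩ := Pool.Agent.W619.Y.exists_der (k := L) (L := K) hcon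
  have h1 : D.restrictScalars ℂ ∈ relTan L K := fun l => D.map_algebraMap l
  have h2 := h _ h1
  change D u = 0 at h2
  rw [hD] at h2
  exact one_ne_zero h2

theorem relTan_basis (hL : Algebra.trdeg ℂ L = d) (hn : Algebra.trdeg ℂ K = (d + r : ℕ))
    (_hess : Algebra.EssFiniteType ℂ K) :
    ∃ (x : Fin r → K) (E : Fin r → Derivation L K K), IsTranscendenceBasis L x ∧
      (∀ i j, E i (x j) = if i = j then 1 else 0) ∧
      LinearIndependent K (fun i => (E i).restrictScalars ℂ) ∧
      Submodule.span K (Set.range fun i => (E i).restrictScalars ℂ) = relTan L K ∧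
      Module.finrank K (relTan L K) = r := by
  classical
  have hL0 : CharZero L := charZero_of_injective_algebraMap (algebraMap ℂ L).injective
  have hK0 : CharZero K := charZero_of_injective_algebraMap (algebraMap ℂ K).injective
  obtain ⟨x, hx⟩ := Pool.Agent.W636.PG.exists_basis L K r (trdeg_LK hL hn)
  obtain ⟨E, hE⟩ := Pool.Agent.W636.PG.exists_duals L K r x hx
  have hspan := relTan_span hx hE
  have hli : LinearIndependent K fun i => (E i).restrictScalars ℂ := by
    rw [Fintype.linearIndependent_iff]
    intro c hc i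
    have h1 := congrArg (fun D : Derivation ℂ K K => D (x i)) hc
    have h2 : (∑ j, c j • (E j).restrictScalars ℂ) (x i) = ∑ j, c j * E j (x i) := by
      rw [Pool.Agent.W721.PG.EFF2.der_sum]
      rfl
    have h3 : (∑ j, c j • (E j).restrictScalars ℂ) (x i) = 0 := h1
    rw [h2] at h3
    simp only [hE, mul_ite, mul_one, mul_zero] at h3
    rw [Finset.sum_ite_eq' Finset.univ i, if_pos (Finset.mem_univ _)] at h3
    exact h3
  exact ⟨x, E, hx, hE, hli, hspan, card_of_span hli hspan⟩

/-- **Pencils on fibrations.** -/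
theorem rel_pencil (hy : NormalModel y) (hr : 2 ≤ r) (hL : Algebra.trdeg ℂ L = d)
    (hn : Algebra.trdeg ℂ K = (d + r : ℕ)) {Δ : Place ℂ K → ℚ} (hΔ : Boundary y Δ)
    {α : Place ℂ K → ℝ} (hα : MovableClass y α)
    (hst : StablePiece y (d + r) Δ α ⊥ (relTan L K)) {No : Place ℂ K → ℝ} {ν : ℝ}
    (hNo : HasDeg y α No ν)
    (hdeg : ∀ dV, SubDeg y (d + r) Δ α (relTan L K) dV → 2 * r * ν ≤ dV)
    {g g' : K} (hg' : g' ≠ 0)
    (hgo : ∀ P, IsPrimeDivisor y P → GeR P (-No P) g)
    (hgo' : ∀ P, IsPrimeDivisor y P → GeR P (-No P) g') : IsAlgebraic L (g / g') := by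
  obtain ⟨x, E, -, -, -, -, h1⟩ := relTan_basis (L := L) hL hn hy.ess
  refine alg_of_relTan fun D hD => ?_
  refine pencil_const hy hn hΔ hα (by rw [h1]; exact hr) hst hNo ?_ hg' hgo hgo' hD
  intro dV hdV
  rw [h1]
  exact hdeg dV hdV

end

end Pool.Agent.H897
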