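import Pool.Agent.H897.KD

/-!
Fibrations whose relative tangent sheaf is stable: the Kodaira dimension and the moduli of relative
tensors.
-/

set_option autoImplicit false
set_option linter.overlappingInstances false
set_option linter.unusedSectionVars false

open MvPolynomial FF Pool.Agent.W602.GT Pool.Agent.Y172 Pool.Agent.NH31 Pool.Agent.W603.LV
open Pool.Agent.N133.TB Pool.Agent.Y174 Pool.Agent.TH466.QG Pool.Agent.W619.PQ
open Pool.Agent.N133.OB Pool.Agent.Y191

namespace Pool.Agent.H897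

/-- The quotients of the pluricanonical forms of equal weight of the orbifold base `(B, b)`. -/
def BaseRatio (L : Type) [Field L] [Algebra ℂ L] (d : ℕ) (b : Place ℂ L → ℝ) : Set L :=
  {u | ∃ (s : ℕ) (θ θ' : (Fin d → Derivation ℂ L L) → L) (G : Fin d → Derivation ℂ L L), 1 ≤ s ∧
    PairSec ℂ L d b {1} s 0 θ ∧ PairSec ℂ L d b {1} s 0 θ' ∧ θ' G ≠ 0 ∧ u = θ G / θ' G}

/-- The moduli of a family of tensors: the quotients of the values of two semi-invariants of equal
positive weight, for a basis `E`. -/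
def ModRatio {K V : Type} [Field K] [Algebra ℂ K] [AddCommGroup V] [Module K V] {r m : ℕ}
    {ι : Type} (T : ι → MultilinearMap K (fun _ : Fin m => V) K) (E : Fin r → V) : Set K :=
  {u | ∃ (W : ℕ) (Q Q' : MvPolynomial (Ix (fun _ : ι => m) r) ℂ), 1 ≤ W ∧
    SemiInv ℂ (fun _ : ι => m) r W Q ∧ SemiInv ℂ (fun _ : ι => m) r W Q' ∧
    aeval (pt (co T E)) Q' ≠ 0 ∧ u = aeval (pt (co T E)) Q / aeval (pt (co T E)) Q'}

section

variable {L K : Type} [Field L] [Field K] [Algebra ℂ L] [Algebra ℂ K] [Algebra L K]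
  [IsScalarTower ℂ L K] {N : ℕ} {y : Fin (N + 1) → K} {d r : ℕ}

theorem formOf_ne {Z : Fin (d + r) → K} (hZ : IsTranscendenceBasis ℂ Z) (M : ℕ) {a : K}
    (ha : a ≠ 0) : formOf Z M a ≠ 0 := by
  classical
  have hK0 : CharZero K := charZero_of_injective_algebraMap (algebraMap ℂ K).injective
  obtain ⟨DZ, hDZ⟩ := Pool.Agent.W636.PG.exists_duals ℂ K (d + r) Z hZ
  intro h0
  have h1 : formOf Z M a DZ = a := by
    unfold formOf
    have h1 : (Matrix.of fun i b => DZ i (Z b)) = 1 := by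
      ext i j
      rw [Matrix.of_apply, hDZ, Matrix.one_apply]
    rw [h1, Matrix.det_one, one_pow, mul_one]
  rw [h0] at h1
  exact ha h1.symm

/-- **The main statement.** -/
theorem rel_tensors_main (hy : NormalModel y) (hr : 1 ≤ r) (hL : Algebra.trdeg ℂ L = d)
    (hn : Algebra.trdeg ℂ K = (d + r : ℕ)) {Δ : Place ℂ K → ℚ} (hΔ : Boundary y Δ)
    (hLC : LogCanonical y (d + r) Δ) {b : Place ℂ L → ℝ} (hb : OrbMor L y Δ b) {h : ℕ}
    (hB : PairKod ℂ L d b h) {α : Place ℂ K → ℝ} (hα : MovableClass y α)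
    (hst : StablePiece y (d + r) Δ α ⊥ (relTan L K))
    (hdeg : ∀ dV, SubDeg y (d + r) Δ α (relTan L K) dV → 0 ≤ dV) {m : ℕ} (hm : 1 ≤ m) {ι : Type}
    [Finite ι] {T : ι → MultilinearMap K (fun _ : Fin m => relTan L K) K} (hT0 : ∃ i, T i ≠ 0)
    (hT : ∀ i P, IsPrimeDivisor y P → SubTensorAt (d + r) (Δ P) 0 P (T i))
    {E : Fin r → relTan L K} (hE : LinearIndependent K E) :
    ∃ (κ : ℕ) (u : Fin κ → K), kodairaDim y (d + r) Δ = (κ : WithBot ℕ) ∧
      Algebra.trdeg ℂ (IntermediateField.adjoin ℂ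
        (algebraMap L K '' BaseRatio L d b ∪ ModRatio T E)) ≤ κ ∧
      (∃ (W : ℕ) (Q : MvPolynomial (Ix (fun _ : ι => m) r) ℂ), 1 ≤ W ∧
        SemiInv ℂ (fun _ : ι => m) r W Q ∧ aeval (pt (co T E)) Q ≠ 0) ∧
      (∀ v ∈ algebraMap L K '' BaseRatio L d b ∪ ModRatio T E,
        IsAlgebraic (IntermediateField.adjoin ℂ (Set.range u)) v) ∧
      (StableFam (fun i J => algebraMap K (AlgebraicClosure K) (co T E i J) :
        Fam (fun _ : ι => m) r (AlgebraicClosure K)) →
        ∃ A : Matrix (Fin r) (Fin r) (AlgebraicClosure K), A.det ≠ 0 ∧ ∀ i J,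
          IsAlgebraic (IntermediateField.adjoin ℂ (Set.range u))
            (act A (fun i J => algebraMap K (AlgebraicClosure K) (co T E i J) :
              Fam (fun _ : ι => m) r (AlgebraicClosure K)) i J)) := by
  classical
  have hfin : Fintype ι := Fintype.ofFinite ι
  have hess : Algebra.EssFiniteType ℂ K := hy.ess
  have hL0 : CharZero L := charZero_of_injective_algebraMap (algebraMap ℂ L).injective
  have hK0 : CharZero K := charZero_of_injective_algebraMap (algebraMap ℂ K).injective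
  obtain ⟨x, E1, hx, hE1, hli, hspan, hfr⟩ := relTan_basis (L := L) hL hn hess
  obtain ⟨t, ht⟩ := Pool.Agent.W636.PG.exists_basis ℂ L d hL
  obtain ⟨G, hG⟩ := Pool.Agent.W636.PG.exists_duals ℂ L d t ht
  have hZ := basis_append ht hx
  obtain ⟨Z, hZd⟩ : ∃ Z : Fin (d + r) → K, Z = Fin.append (algebraMap L K ∘ t) x := ⟨_, rfl⟩
  rw [← hZd] at hZ
  -- the basis of the relative tangent sheaf
  have hfinV : Module.Finite K (relTan L K) := Module.finite_of_finrank_pos (by omega)
  have hmemE : ∀ i, (E1 i).restrictScalars ℂ ∈ relTan L K := fun i l => (E1 i).map_algebraMap l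
  obtain ⟨F, hF⟩ : ∃ F : Fin r → relTan L K, F = fun i => ⟨_, hmemE i⟩ := ⟨_, rfl⟩
  have hFli : LinearIndependent K F := by
    have h1 : LinearIndependent K fun i => ((F i : relTan L K) : Derivation ℂ K K) := by
      rw [hF]
      exact hli
    exact LinearIndependent.of_comp (relTan L K).subtype h1
  have hspE : Submodule.span K (Set.range E) = ⊤ :=
    hE.span_eq_top_of_card_eq_finrank' (by rw [Fintype.card_fin, hfr])
  have hspF : Submodule.span K (Set.range F) = ⊤ :=
    hFli.span_eq_top_of_card_eq_finrank' (by rw [Fintype.card_fin, hfr])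
  -- the tensors are semistable
  obtain ⟨r', b', W, Q, hr', hW, hQ, hQb⟩ := piece_semi hy hn hΔ hα (W := ⊥) (V := relTan L K)
    (by
      refine bot_lt_iff_ne_bot.2 fun h => ?_
      rw [h, finrank_bot] at hfr
      omega) hst hm (T := T) hT0
    (fun i D' hD' => by
      obtain ⟨s, hs⟩ := hD'
      have h1 : D' s = 0 := Subtype.ext ((Submodule.mem_bot K).1 hs)
      exact (T i).map_coord_zero s h1)
    (ℓ := fun _ => 0) (lam := 0)
    ⟨∅, fun P hP => absurd hP (Finset.notMem_empty P), fun P _ _ => rfl, by simp⟩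
    (fun dW dV hdW hdV => by
      have h1 : dW = 0 := subDeg_bot hdW
      have h2 := hdeg dV hdV
      rw [h1, mul_zero, sub_zero]
      positivity) (fun i P hP D' e he => by
        rw [sub_zero]
        have h1 := hT i P hP D' e he
        rcases h1 with h1 | h1
        · exact Or.inl h1
        · right
          simpa using h1)
  obtain rfl : r = r' := by
    rw [finrank_bot, hfr] at hr'
    omega
  have hQE : aeval (pt (co T E)) Q ≠ 0 := inv_ne hQ hspE hQb
  have hTO : ∀ i P, IsPrimeDivisor y P → ∀ (D : Fin m → relTan L K) (e : Fin m → ℝ),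
      (∀ s, WedgeOrd (d + r) (Δ P) P (fun _ : Fin 1 => (D s : Derivation ℂ K K)) (e s)) →
        GeR P (∑ s, e s) (T i D) := by
    intro i P hP D e he
    rcases hT i P hP D e he with h1 | h1
    · exact Or.inl h1
    · right
      simpa using h1
  -- the values in the basis `F`
  have hval : ∀ (W' : ℕ) (Q' : MvPolynomial (Ix (fun _ : ι => m) r) ℂ),
      SemiInv ℂ (fun _ : ι => m) r W' Q' → ∀ P, IsPrimeDivisor y P → ∀ e : ℝ,
        WedgeOrd (d + r) (Δ P) P (fun i => (E1 i).restrictScalars ℂ) e →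
          GeR P (W' * e) (aeval (pt (co T F)) Q') := by
    intro W' Q' hQ' P hP e he
    exact inv_ord hy hn hΔ hm hTO hr (E := F) (by rw [hF]; exact hli) hQ' hP (by
      rw [hF]
      exact he)
  -- the forms on the base
  obtain ⟨s, hs, θ, hθ, G0, hG0, hind⟩ := hB
  have hbase : ∀ (s : ℕ) (θ : (Fin d → Derivation ℂ L L) → L), IsPluriForm ℂ L d s θ →
      ∀ G0, θ G0 = (Matrix.of fun i j => G0 i (t j)).det ^ s * θ G := by
    intro s θ hθ G0
    have h1 := hθ (Matrix.of fun i j => G0 i (t j)) G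
    have h2 : (fun i => ∑ j, (Matrix.of fun i j => G0 i (t j)) i j • G j) = G0 := by
      funext i
      exact Pool.Agent.W73.PG.PULL.expand t ht G hG (G0 i)
    rw [h2] at h1
    exact h1
  have hθG : θ 0 G ≠ 0 := fun h => hG0 0 (by rw [hbase s (θ 0) (hθ 0).1, h, mul_zero])
  have hLne : algebraMap L K (θ 0 G) ≠ 0 := by simpa using hθG
  have hQF : aeval (pt (co T F)) Q ≠ 0 := inv_ne hQ hspF hQb
  -- the sections
  have hsec : ∀ (s : ℕ) (θ : (Fin d → Derivation ℂ L L) → L) (_ : PairSec ℂ L d b {1} s 0 θ)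
      (W' : ℕ) (Q' : MvPolynomial (Ix (fun _ : ι => m) r) ℂ),
      SemiInv ℂ (fun _ : ι => m) r W' Q' → aeval (pt (co T F)) Q' ≠ 0 →
      IsSection y (d + r) (s * W') ((s * W') • Δ)
        (formOf Z (s * W') ((aeval (pt (co T F)) Q') ^ s * algebraMap L K (θ G) ^ W')) := by
    intro s θ hθ W' Q' hQ' hQ'0
    rw [hZd]
    refine tower_rel_sec hy hr hL hn hΔ hb hθ ht hx hG hE1 hQ'0 fun P hP e he => ?_
    exact (hval W' Q' hQ' P hP e he).resolve_left hQ'0
  have hsW : 1 ≤ s * W := Nat.mul_pos hs hW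
  have hf0 : (1 : K) ∈ Ratio y (d + r) Δ := ratio_one hsW (hsec s (θ 0) (hθ 0) W Q hQ hQF)
    (formOf_ne hZ _ (mul_ne_zero (pow_ne_zero _ hQF) (pow_ne_zero _ hLne)))
  -- quotients
  have hquot : ∀ (M : ℕ) (a c : K), 1 ≤ M → a ≠ 0 → c ≠ 0 →
      IsSection y (d + r) M (M • Δ) (formOf Z M a) →
      IsSection y (d + r) M (M • Δ) (formOf Z M c) → c / a ∈ iitakaField y (d + r) Δ := by
    intro M a c hM ha hc hsa hsc
    refine ratio_mem_iitaka ⟨M, hM, _, hsa, formOf_ne hZ _ ha, ?_⟩
    have h2 : (fun D => (c / a) * formOf Z M a D) = formOf Z M c := by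
      funext D
      unfold formOf
      field_simp
    rw [h2]
    exact hsc
  have hpow : ∀ (v : K) (M : ℕ), 1 ≤ M → v ^ M ∈ iitakaField y (d + r) Δ →
      v ∈ iitakaField y (d + r) Δ := by
    intro v M hM hv
    refine iitaka_closed ?_
    have h3 : IsAlgebraic (iitakaField y (d + r) Δ) (v ^ M) :=
      isAlgebraic_algebraMap (R := iitakaField y (d + r) Δ) (A := K)
        (⟨_, hv⟩ : iitakaField y (d + r) Δ)
    exact h3.of_pow hM
  have hBI : ∀ v ∈ BaseRatio L d b, algebraMap L K v ∈ iitakaField y (d + r) Δ := by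
    rintro v ⟨s1, θ1, θ2, G1, hs1, h1, h2, h3, rfl⟩
    have h4 := hbase s1 θ1 h1.1 G1
    have h5 := hbase s1 θ2 h2.1 G1
    have hd0 : (Matrix.of fun i j => G1 i (t j)).det ^ s1 ≠ 0 := by
      intro h
      apply h3
      rw [h5, h, zero_mul]
    have h6 : θ2 G ≠ 0 := by
      intro h
      apply h3
      rw [h5, h, mul_zero]
    rw [h4, h5, mul_div_mul_left _ _ hd0]
    by_cases h7 : θ1 G = 0
    · rw [h7, zero_div, map_zero]
      exact zero_mem _
    have h8 : algebraMap L K (θ2 G) ≠ 0 := by simpa using h6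
    have h9 : algebraMap L K (θ1 G) ≠ 0 := by simpa using h7
    refine hpow _ W hW ?_
    have h10 := hquot (s1 * W) _ _ (Nat.mul_pos hs1 hW)
      (mul_ne_zero (pow_ne_zero s1 hQF) (pow_ne_zero W h8))
      (mul_ne_zero (pow_ne_zero s1 hQF) (pow_ne_zero W h9))
      (hsec s1 θ2 h2 W Q hQ hQF) (hsec s1 θ1 h1 W Q hQ hQF)
    rw [mul_div_mul_left _ _ (pow_ne_zero s1 hQF), ← div_pow, ← map_div₀] at h10
    exact h10
  -- change of the basis
  have hEF : ∀ k, ∃ c : Fin r → K, ∑ j, c j • F j = E k := fun k => by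
    have h2 : E k ∈ Submodule.span K (Set.range F) := by
      rw [hspF]
      trivial
    exact (Submodule.mem_span_range_iff_exists_fun K).1 h2
  choose A0 hA0 using hEF
  have hchg : ∀ (W' : ℕ) (Q' : MvPolynomial (Ix (fun _ : ι => m) r) ℂ),
      SemiInv ℂ (fun _ : ι => m) r W' Q' →
      aeval (pt (co T E)) Q' = (Matrix.of A0).det ^ W' * aeval (pt (co T F)) Q' := by
    intro W' Q' hQ'
    have h3 : (fun k => ∑ j, (Matrix.of A0) k j • F j) = E := funext hA0
    rw [← inv_change hQ' F (Matrix.of A0), h3]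
  have hMI : ∀ (W1 : ℕ) (Q1 Q2 : MvPolynomial (Ix (fun _ : ι => m) r) ℂ), 1 ≤ W1 →
      SemiInv ℂ (fun _ : ι => m) r W1 Q1 → SemiInv ℂ (fun _ : ι => m) r W1 Q2 →
      aeval (pt (co T E)) Q2 ≠ 0 →
      aeval (pt (co T E)) Q1 / aeval (pt (co T E)) Q2 ∈ iitakaField y (d + r) Δ := by
    intro W1 Q1 Q2 hW1 h1 h2 h3
    have h4 := hchg W1 Q1 h1
    have h5 := hchg W1 Q2 h2
    have hd0 : (Matrix.of A0).det ^ W1 ≠ 0 := by
      intro h
      apply h3
      rw [h5, h, zero_mul]
    have h6 : aeval (pt (co T F)) Q2 ≠ 0 := by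
      intro h
      apply h3
      rw [h5, h, mul_zero]
    rw [h4, h5, mul_div_mul_left _ _ hd0]
    by_cases h7 : aeval (pt (co T F)) Q1 = 0
    · rw [h7, zero_div]
      exact zero_mem _
    refine hpow _ s hs ?_
    have h10 := hquot (s * W1) _ _ (Nat.mul_pos hs hW1)
      (mul_ne_zero (pow_ne_zero s h6) (pow_ne_zero W1 hLne))
      (mul_ne_zero (pow_ne_zero s h7) (pow_ne_zero W1 hLne))
      (hsec s (θ 0) (hθ 0) W1 Q2 h2 h6) (hsec s (θ 0) (hθ 0) W1 Q1 h1 h7)
    rw [mul_div_mul_right _ _ (pow_ne_zero W1 hLne), ← div_pow] at h10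
    exact h10
  have hSI : ∀ v ∈ algebraMap L K '' BaseRatio L d b ∪ ModRatio T E,
      v ∈ iitakaField y (d + r) Δ := by
    rintro v (⟨v', hv', rfl⟩ | ⟨W1, Q1, Q2, hW1, h1, h2, h3, rfl⟩)
    · exact hBI v' hv'
    · exact hMI W1 Q1 Q2 hW1 h1 h2 h3
  -- the Kodaira dimension
  have hΔe : Effective y Δ := ⟨fun P hP => (hΔ.1 P hP).1, hΔ.2⟩
  obtain ⟨d0, r0, hd, hnd⟩ := iitaka_dim (y := y) hn Δ
  obtain ⟨β, G', hβ, -, hδ0, hdisc, hG'⟩ := exists_delta hy hn hΔe hLC (δ0 := fun _ => 0)
    (fun v => Or.inr ⟨1, le_rfl, by norm_num⟩)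
    (fun P hP => by
      have := (hΔ.1 P hP).1
      exact_mod_cast this) (G := ∅) (by simp) (fun v h => absurd rfl h)
  obtain ⟨hkod, -⟩ := kod_main hy hn hΔe hdisc hG' hf0 hd
  obtain ⟨u0, hu0⟩ := Pool.Agent.W636.PG.exists_basis ℂ (iitakaField y (d + r) Δ) d0 hd
  -- algebraic elements
  have hadj : ∀ v : iitakaField y (d + r) Δ, IsAlgebraic (IntermediateField.adjoin ℂ
      (Set.range fun i => ((u0 i : iitakaField y (d + r) Δ) : K))) (v : K) := by
    intro v
    refine alg_basis (R := IntermediateField.adjoin ℂ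
      (Set.range fun i => ((u0 i : iitakaField y (d + r) Δ) : K)))
      ((iitakaField y (d + r) Δ).val : _ →+* K) hu0.to_subtype_range ?_ ?_ v
    · rintro z ⟨i, rfl⟩
      exact ⟨⟨_, IntermediateField.subset_adjoin _ _ ⟨i, rfl⟩⟩, rfl⟩
    · intro c
      exact ⟨⟨algebraMap ℂ K c, IntermediateField.algebraMap_mem _ c⟩, rfl⟩
  refine ⟨d0, fun i => ((u0 i : iitakaField y (d + r) Δ) : K), hkod, ?_,
    ⟨W, Q, hW, hQ, hQE⟩, fun v hv => hadj ⟨v, hSI v hv⟩, fun hstab => ?_⟩
  · rw [← hd]
    have h1 : IntermediateField.adjoin ℂ (algebraMap L K '' BaseRatio L d b ∪ ModRatio T E) ≤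
        iitakaField y (d + r) Δ := IntermediateField.adjoin_le_iff.2 fun v hv => hSI v hv
    exact trdeg_le_of_injective (IntermediateField.inclusion h1)
      (IntermediateField.inclusion_injective h1)
  · have hvΩ : ∀ Q' : MvPolynomial (Ix (fun _ : ι => m) r) ℂ,
        aeval (pt (fun i J => algebraMap K (AlgebraicClosure K) (co T E i J) :
          Fam (fun _ : ι => m) r (AlgebraicClosure K))) Q' =
          algebraMap K (AlgebraicClosure K) (aeval (pt (co T E)) Q') := by
      intro Q'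
      exact aeval_algebraMap_apply (AlgebraicClosure K) (pt (co T E)) Q'
    have hrat : ∀ (W' : ℕ) (Q' : MvPolynomial (Ix (fun _ : ι => m) r) ℂ), 1 ≤ W' →
        SemiInv ℂ (fun _ : ι => m) r W' Q' → IsAlgebraic (iitakaField y (d + r) Δ)
          (aeval (pt (fun i J => algebraMap K (AlgebraicClosure K) (co T E i J) :
            Fam (fun _ : ι => m) r (AlgebraicClosure K))) Q' ^ W /
          aeval (pt (fun i J => algebraMap K (AlgebraicClosure K) (co T E i J) :
            Fam (fun _ : ι => m) r (AlgebraicClosure K))) Q ^ W') := by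
      intro W' Q' hW' hQ'
      rw [hvΩ, hvΩ]
      have h1 : aeval (pt (co T E)) Q' ^ W / aeval (pt (co T E)) Q ^ W' ∈
          iitakaField y (d + r) Δ := by
        have h2 := hMI (W' * W) (Q' ^ W) (Q ^ W') (Nat.mul_pos hW' hW) (fun L' _ _ A t => by
          rw [map_pow, map_pow, hQ' L' A t, mul_pow, ← pow_mul]) (fun L' _ _ A t => by
          rw [map_pow, map_pow, hQ L' A t, mul_pow, ← pow_mul, mul_comm W W']) (by
          rw [map_pow]
          exact pow_ne_zero _ hQE)
        rw [map_pow, map_pow] at h2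
        exact h2
      have h3 := isAlgebraic_algebraMap (R := iitakaField y (d + r) Δ) (A := AlgebraicClosure K)
        (⟨_, h1⟩ : iitakaField y (d + r) Δ)
      have h4 : algebraMap (iitakaField y (d + r) Δ) (AlgebraicClosure K) ⟨_, h1⟩ =
          algebraMap K (AlgebraicClosure K) (aeval (pt (co T E)) Q' ^ W /
            aeval (pt (co T E)) Q ^ W') := rfl
      rw [h4, map_div₀ (algebraMap K (AlgebraicClosure K)),
        map_pow (algebraMap K (AlgebraicClosure K)),
        map_pow (algebraMap K (AlgebraicClosure K))] at h3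
      exact h3
    obtain ⟨A, hA, hAalg⟩ := alg_main (k := ℂ) (I := iitakaField y (d + r) Δ) hr (fun _ => hm)
      hstab hW hQ (by
        rw [hvΩ]
        intro h0
        apply hQE
        exact (map_eq_zero _).1 h0) hrat
    refine ⟨A, hA, fun i J => ?_⟩
    obtain ⟨R, hRdef⟩ : ∃ R : IntermediateField ℂ K, R = IntermediateField.adjoin ℂ
      (Set.range fun i => ((u0 i : iitakaField y (d + r) Δ) : K)) := ⟨_, rfl⟩
    rw [← hRdef]
    rw [← hRdef] at hadj
    have hIR : ∀ w : iitakaField y (d + r) Δ,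
        IsAlgebraic R (algebraMap K (AlgebraicClosure K) (w : K)) := fun w => (hadj w).algebraMap
    let R1 := algebraicClosure R (AlgebraicClosure K)
    let ψ : iitakaField y (d + r) Δ →+* R1 :=
      { toFun := fun w => ⟨algebraMap K (AlgebraicClosure K) (w : K),
          mem_algebraicClosure_iff.2 (hIR w)⟩
        map_one' := Subtype.ext (map_one _)
        map_mul' := fun a b => Subtype.ext (map_mul _ _ _)
        map_zero' := Subtype.ext (map_zero _)
        map_add' := fun a b => Subtype.ext (map_add _ _ _) }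
    have h1 : IsAlgebraic R1 (act A (fun i J => algebraMap K (AlgebraicClosure K) (co T E i J) :
        Fam (fun _ : ι => m) r (AlgebraicClosure K)) i J) :=
      Pool.Agent.N133.TB.alg_mono ψ ψ.injective (fun a => rfl) (hAalg i J)
    exact h1.restrictScalars R

end

end Pool.Agent.H897
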