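import Pool.Agent.H897.KE

/-!
Fibrations whose relative tangent sheaf is stable: the moduli along the fibres and the general
fibre.
-/

set_option autoImplicit false
set_option linter.overlappingInstances false
set_option linter.unusedSectionVars false

open MvPolynomial FF Pool.Agent.W602.GT Pool.Agent.Y172 Pool.Agent.NH31 Pool.Agent.W603.LV
open Pool.Agent.N133.TB Pool.Agent.Y174 Pool.Agent.TH466.QG Pool.Agent.W619.PQ
open Pool.Agent.N133.OB Pool.Agent.Y191

namespace Pool.Agent.H897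

/-- `g` is the value on the basis `E` of a section of `M (K_F + Δ_F)` on the generic fibre `F`: there
is a condition along the prime divisors which are horizontal, i.e. trivial on the function field
`L` of the base. -/
def FibreSection (L : Type) {K : Type} [Field L] [Field K] [Algebra ℂ K] [Algebra L K]
    {N r : ℕ} (y : Fin (N + 1) → K) (n : ℕ) (Δ : Place ℂ K → ℚ) (E : Fin r → Derivation ℂ K K)
    (M : ℕ) (g : K) : Prop :=
  ∀ P, IsPrimeDivisor y P → (∀ f : L, f ≠ 0 → P.ord (algebraMap L K f) = 0) →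
    ∀ e : ℝ, WedgeOrd n (Δ P) P E e → g = 0 ∨ M * e ≤ P.ord g

section

variable {L K : Type} [Field L] [Field K] [Algebra ℂ L] [Algebra ℂ K] [Algebra L K]
  [IsScalarTower ℂ L K] {N : ℕ} {y : Fin (N + 1) → K} {d r : ℕ}

/-- the degree of the relative tangent sheaf -/
theorem rel_deg (hy : NormalModel y) (hL : Algebra.trdeg ℂ L = d)
    (hn : Algebra.trdeg ℂ K = (d + r : ℕ)) {Δ : Place ℂ K → ℚ} (hΔ : Boundary y Δ)
    {α : Place ℂ K → ℝ} (hα : MovableClass y α)
    {E : Fin r → relTan L K} (hE : LinearIndependent K E) :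
    ∃ (e : Place ℂ K → ℝ) (c : ℝ), (∀ P, IsPrimeDivisor y P →
      WedgeOrd (d + r) (Δ P) P (fun i => (E i : Derivation ℂ K K)) (e P)) ∧
      {P | IsPrimeDivisor y P ∧ e P ≠ 0}.Finite ∧ HasDeg y α e c ∧
      SubDeg y (d + r) Δ α (relTan L K) c ∧
      ∀ dV, SubDeg y (d + r) Δ α (relTan L K) dV → dV = c := by
  classical
  have hess : Algebra.EssFiniteType ℂ K := hy.ess
  obtain ⟨x, E1, hx, hE1, hli, hspan, hfr⟩ := relTan_basis (L := L) hL hn hess
  have hE' : LinearIndependent K fun i => (E i : Derivation ℂ K K) :=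
    hE.map' (relTan L K).subtype (Submodule.ker_subtype _)
  obtain ⟨e, he1, he2⟩ := wedge_fun hy hn hΔ.2 hE'
  obtain ⟨c, hc⟩ := hasDeg_of_fin α he2
  have hsp : Submodule.span K (Set.range fun i => (E i : Derivation ℂ K K)) = relTan L K := by
    rcases Nat.eq_zero_or_pos r with h0 | h0
    · subst h0
      have h1 : relTan L K = ⊥ := by
        rw [← hspan, Submodule.span_eq_bot]
        rintro _ ⟨i, -⟩
        exact i.elim0
      refine Eq.trans (Submodule.span_eq_bot.2 ?_) h1.symm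
      rintro _ ⟨i, -⟩
      exact i.elim0
    · have hfinV : Module.Finite K (relTan L K) := Module.finite_of_finrank_pos (by omega)
      have hspE : Submodule.span K (Set.range E) = ⊤ :=
        hE.span_eq_top_of_card_eq_finrank' (by rw [Fintype.card_fin, hfr])
      have h1 : (Set.range fun i => (E i : Derivation ℂ K K)) =
          (relTan L K).subtype '' Set.range E := by
        ext D
        constructor
        · rintro ⟨i, rfl⟩
          exact ⟨E i, ⟨i, rfl⟩, rfl⟩
        · rintro ⟨_, ⟨i, rfl⟩, rfl⟩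
          exact ⟨i, rfl⟩
      rw [h1, Submodule.span_image, hspE, Submodule.map_top, Submodule.range_subtype]
  have hs : SubDeg y (d + r) Δ α (relTan L K) c := ⟨r, _, e, hE', hsp, he1, hc⟩
  exact ⟨e, c, he1, he2, hc, hs, fun dV hdV => subDeg_unique hy hn hΔ hα hdV hs⟩

/-- the divisors of the semi-invariants -/
theorem inv_rel_ord (hy : NormalModel y) (hr : 1 ≤ r)
    (hn : Algebra.trdeg ℂ K = (d + r : ℕ)) {Δ : Place ℂ K → ℚ} (hΔ : Boundary y Δ) {m : ℕ}
    (hm : 1 ≤ m) {ι : Type} [Finite ι] {T : ι → MultilinearMap K (fun _ : Fin m => relTan L K) K}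
    (hT : ∀ i P, IsPrimeDivisor y P → SubTensorAt (d + r) (Δ P) 0 P (T i))
    {E : Fin r → relTan L K} (hE : LinearIndependent K E) {W : ℕ}
    {Q : MvPolynomial (Ix (fun _ : ι => m) r) ℂ} (hQ : SemiInv ℂ (fun _ : ι => m) r W Q)
    (h0 : aeval (pt (co T E)) Q ≠ 0) {P : Place ℂ K} (hP : IsPrimeDivisor y P) {e : ℝ}
    (he : WedgeOrd (d + r) (Δ P) P (fun i => (E i : Derivation ℂ K K)) e) :
    W * e ≤ P.ord (aeval (pt (co T E)) Q) := by
  classical
  have hfin : Fintype ι := Fintype.ofFinite ι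
  have hE' : LinearIndependent K fun i => (E i : Derivation ℂ K K) :=
    hE.map' (relTan L K).subtype (Submodule.ker_subtype _)
  have hTO : ∀ i P, IsPrimeDivisor y P → ∀ (D : Fin m → relTan L K) (e : Fin m → ℝ),
      (∀ s, WedgeOrd (d + r) (Δ P) P (fun _ : Fin 1 => (D s : Derivation ℂ K K)) (e s)) →
        GeR P (∑ s, e s) (T i D) := by
    intro i P hP D e he
    rcases hT i P hP D e he with h1 | h1
    · exact Or.inl h1
    · right
      simpa using h1
  exact (inv_ord hy hn hΔ hm hTO hr hE' hQ hP he).resolve_left h0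

/-- **The moduli are constant along the fibres.** -/
theorem mod_const (hy : NormalModel y) (hr : 2 ≤ r) (hL : Algebra.trdeg ℂ L = d)
    (hn : Algebra.trdeg ℂ K = (d + r : ℕ)) {Δ : Place ℂ K → ℚ} (hΔ : Boundary y Δ)
    {α : Place ℂ K → ℝ} (hα : MovableClass y α)
    (hst : StablePiece y (d + r) Δ α ⊥ (relTan L K))
    (hdeg : ∀ dV, SubDeg y (d + r) Δ α (relTan L K) dV → 0 ≤ dV) {m : ℕ} (hm : 1 ≤ m) {ι : Type}
    [Finite ι] {T : ι → MultilinearMap K (fun _ : Fin m => relTan L K) K}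
    (hT : ∀ i P, IsPrimeDivisor y P → SubTensorAt (d + r) (Δ P) 0 P (T i))
    {E : Fin r → relTan L K} (hE : LinearIndependent K E) {v : K} (hv : v ∈ ModRatio T E) :
    IsAlgebraic L v := by
  classical
  have hfin : Fintype ι := Fintype.ofFinite ι
  obtain ⟨W, Q, Q', hW, hQ, hQ', h0, rfl⟩ := hv
  obtain ⟨e, c, he1, he2, hc, hs, -⟩ := rel_deg hy hL hn hΔ hα hE
  have hc0 : 0 ≤ c := hdeg c hs
  have hE' : LinearIndependent K fun i => (E i : Derivation ℂ K K) :=
    hE.map' (relTan L K).subtype (Submodule.ker_subtype _)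
  have hTO : ∀ i P, IsPrimeDivisor y P → ∀ (D : Fin m → relTan L K) (e : Fin m → ℝ),
      (∀ s, WedgeOrd (d + r) (Δ P) P (fun _ : Fin 1 => (D s : Derivation ℂ K K)) (e s)) →
        GeR P (∑ s, e s) (T i D) := by
    intro i P hP D e he
    rcases hT i P hP D e he with h1 | h1
    · exact Or.inl h1
    · right
      simpa using h1
  have hval : ∀ (Q' : MvPolynomial (Ix (fun _ : ι => m) r) ℂ),
      SemiInv ℂ (fun _ : ι => m) r W Q' → ∀ P, IsPrimeDivisor y P →
        GeR P (-(-W * e P)) (aeval (pt (co T E)) Q') := by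
    intro Q' hQ' P hP
    have h1 := inv_ord hy hn hΔ hm hTO (by omega) hE' hQ' hP (he1 P hP)
    refine h1.mono (le_of_eq ?_)
    ring
  refine rel_pencil hy hr hL hn hΔ hα hst (hc.smul (-W)) (fun dV hdV => ?_) h0
    (hval Q hQ) (hval Q' hQ')
  have h2 := hdeg dV hdV
  have h3 : 0 ≤ (r : ℝ) * (W * c) := by positivity
  linarith

/-- **The general fibre.** -/
theorem fibre_kod (hy : NormalModel y) (hr : 2 ≤ r) (hL : Algebra.trdeg ℂ L = d)
    (hn : Algebra.trdeg ℂ K = (d + r : ℕ)) {Δ : Place ℂ K → ℚ} (hΔ : Boundary y Δ)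
    {α : Place ℂ K → ℝ} (hα : MovableClass y α)
    (hvert : ∀ P, IsPrimeDivisor y P → (∃ f : L, f ≠ 0 ∧ P.ord (algebraMap L K f) ≠ 0) → α P = 0)
    (hst : StablePiece y (d + r) Δ α ⊥ (relTan L K))
    (hdeg : ∀ dV, SubDeg y (d + r) Δ α (relTan L K) dV → 0 ≤ dV)
    {E : Fin r → relTan L K} (hE : LinearIndependent K E) {M : ℕ} {g g' : K}
    (hg : FibreSection L y (d + r) Δ (fun i => (E i : Derivation ℂ K K)) M g)
    (hg' : FibreSection L y (d + r) Δ (fun i => (E i : Derivation ℂ K K)) M g') (hg0 : g' ≠ 0) :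
    IsAlgebraic L (g / g') := by
  classical
  by_cases hgz : g = 0
  · rw [hgz, zero_div]
    exact isAlgebraic_zero
  obtain ⟨e, c, he1, he2, hc, hs, -⟩ := rel_deg hy hL hn hΔ hα hE
  have hc0 : 0 ≤ c := hdeg c hs
  -- the correction along the vertical divisors
  obtain ⟨w, hw⟩ : ∃ w : Place ℂ K → ℝ, w = fun P =>
    if ∃ f : L, f ≠ 0 ∧ P.ord (algebraMap L K f) ≠ 0 then
      max (-(P.ord g : ℝ)) (-(P.ord g' : ℝ)) + M * e P else 0 := ⟨_, rfl⟩
  have hwfin : {P | IsPrimeDivisor y P ∧ w P ≠ 0}.Finite := by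
    refine ((he2.union (finite_ord hy hgz)).union (finite_ord hy hg0)).subset ?_
    rintro P ⟨hP, hne⟩
    by_contra hcon
    simp only [Set.mem_union, Set.mem_ofPred_eq, not_or, not_and, not_not] at hcon
    apply hne
    rw [hw]
    simp only
    split_ifs
    · rw [hcon.1.1 hP, hcon.1.2 hP, hcon.2 hP]
      simp
    · rfl
  have hwdeg : HasDeg y α w 0 := by
    refine ⟨hwfin.toFinset, fun P hP => ((Set.Finite.mem_toFinset _).1 hP).1, fun P hP hPS => ?_,
      Finset.sum_eq_zero fun P hP => ?_⟩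
    · by_contra h
      exact hPS ((Set.Finite.mem_toFinset _).2 ⟨hP, h⟩)
    · have h1 := ((Set.Finite.mem_toFinset _).1 hP).1
      by_cases h2 : ∃ f : L, f ≠ 0 ∧ P.ord (algebraMap L K f) ≠ 0
      · rw [hvert P h1 h2, zero_mul]
      · rw [hw]
        simp only
        rw [if_neg h2, mul_zero]
  have hNo := (hc.smul (-M)).add hwdeg
  have hord : ∀ g1 : K, FibreSection L y (d + r) Δ (fun i => (E i : Derivation ℂ K K)) M g1 →
      (g1 = g ∨ g1 = g') → ∀ P, IsPrimeDivisor y P → GeR P (-(-M * e P + w P)) g1 := by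
    intro g1 h1 h2 P hP
    by_cases h3 : ∃ f : L, f ≠ 0 ∧ P.ord (algebraMap L K f) ≠ 0
    · right
      rw [hw]
      simp only
      rw [if_pos h3]
      rcases h2 with rfl | rfl
      · have := le_max_left (-(P.ord g1 : ℝ)) (-(P.ord g' : ℝ))
        linarith
      · have := le_max_right (-(P.ord g : ℝ)) (-(P.ord g1 : ℝ))
        linarith
    · have h4 := h1 P hP (fun f hf => by
        by_contra h
        exact h3 ⟨f, hf, h⟩) (e P) (he1 P hP)
      rcases h4 with h4 | h4
      · exact Or.inl h4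
      · right
        rw [hw]
        simp only
        rw [if_neg h3]
        linarith
  refine rel_pencil hy hr hL hn hΔ hα hst hNo (fun dV hdV => ?_) hg0
    (hord g hg (Or.inl rfl)) (hord g' hg' (Or.inr rfl))
  have h2 := hdeg dV hdV
  have h3 : 0 ≤ (r : ℝ) * (M * c) := by positivity
  linarith

end

end Pool.Agent.H897
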