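import Pool.Agent.H897.GC
import Pool.Graph.R_seed8.Y172.Cov4

/-!
Pull-backs of vector fields and tensors under dominant generically finite rational maps.
-/

set_option autoImplicit false
set_option linter.overlappingInstances false
set_option linter.unusedSectionVars false

open MvPolynomial FF Pool.Agent.W602.GT Pool.Agent.Y172 Pool.Agent.NH31 Pool.Agent.W603.LV
open Pool.Agent.N133.TB Pool.Agent.Y174 Pool.Agent.TH466.QG Pool.Agent.W619.PQ
open Pool.Agent.N133.OB Pool.Agent.Y191

namespace Pool.Agent.H897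

section

variable {L K : Type} [Field L] [Field K] [Algebra ℂ L] [Algebra ℂ K] {n m : ℕ}

/-- the extension is finite -/
theorem fd_map (φ : L →ₐ[ℂ] K) (hL : Algebra.trdeg ℂ L = n) (hK : Algebra.trdeg ℂ K = n)
    [Algebra.EssFiniteType ℂ K] :
    @FiniteDimensional L K _ _ φ.toRingHom.toAlgebra.toModule := by
  let _ := φ.toRingHom.toAlgebra
  have htow : IsScalarTower ℂ L K := IsScalarTower.of_algebraMap_eq fun c => (φ.commutes c).symm
  obtain ⟨x, E, hx, -⟩ := exists_crd hL
  have h1 : AlgebraicIndependent ℂ (φ ∘ x) := hx.1.map' (f := φ) φ.toRingHom.injective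
  have h2 : IsTranscendenceBasis ℂ (φ ∘ x) :=
    h1.isTranscendenceBasis_of_trdeg_le_of_finite (by rw [hK]; simp)
  have hess : Algebra.EssFiniteType L K := Algebra.EssFiniteType.of_comp ℂ L K
  have halg : Algebra.IsAlgebraic L K := by
    have h3 : Algebra.IsAlgebraic (IntermediateField.adjoin ℂ (Set.range (φ ∘ x))) K :=
      h2.isAlgebraic_field
    refine ⟨fun z => ?_⟩
    have h4 := h3.isAlgebraic z
    let ψ : IntermediateField.adjoin ℂ (Set.range (φ ∘ x)) →+* φ.fieldRange :=
      (IntermediateField.inclusion (IntermediateField.adjoin_le_iff.2 (by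
        rintro _ ⟨i, rfl⟩
        exact ⟨x i, rfl⟩))).toRingHom
    have h5 : IsAlgebraic φ.fieldRange z :=
      Pool.Agent.N133.TB.alg_mono ψ ψ.injective (fun a => rfl) h4
    let χ : φ.fieldRange →+* L := (AlgEquiv.ofInjectiveField φ).symm.toRingHom
    refine Pool.Agent.N133.TB.alg_mono χ χ.injective (fun a => ?_) h5
    have h6 : (AlgEquiv.ofInjectiveField φ) ((AlgEquiv.ofInjectiveField φ).symm a) = a :=
      AlgEquiv.apply_symm_apply _ _
    exact congrArg Subtype.val h6
  obtain ⟨s, hs⟩ := IntermediateField.fg_top L K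
  have h1 : FiniteDimensional L (IntermediateField.adjoin L (s : Set K)) :=
    IntermediateField.finiteDimensional_adjoin fun x _ => (halg.isAlgebraic x).isIntegral
  rw [hs] at h1
  exact h1.equiv IntermediateField.topEquiv.toLinearEquiv

/-- `D'` is the pull-back of the vector field `D` under the dominant rational map `φ`. -/
def LiftOf (φ : L →ₐ[ℂ] K) (D : Derivation ℂ L L) (D' : Derivation ℂ K K) : Prop :=
  ∀ f, D' (φ f) = φ (D f)

theorem basis_map (φ : L →ₐ[ℂ] K) (hK : Algebra.trdeg ℂ K = n) {x : Fin n → L}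
    (hx : IsTranscendenceBasis ℂ x) : IsTranscendenceBasis ℂ (fun i => φ (x i)) := by
  have h1 : AlgebraicIndependent ℂ (φ ∘ x) := hx.1.map' (f := φ) φ.toRingHom.injective
  exact h1.isTranscendenceBasis_of_trdeg_le_of_finite (by rw [hK]; simp)

theorem lift_exists (φ : L →ₐ[ℂ] K) (hL : Algebra.trdeg ℂ L = n) (hK : Algebra.trdeg ℂ K = n)
    [Algebra.EssFiniteType ℂ K] (D : Derivation ℂ L L) : ∃ D', LiftOf φ D D' := by
  let _ := φ.toRingHom.toAlgebra
  have htow : IsScalarTower ℂ L K := IsScalarTower.of_algebraMap_eq fun c => (φ.commutes c).symm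
  have hfd : FiniteDimensional L K := fd_map φ hL hK
  exact exists_lift (L := K) hL D

/-- expansion of a vector field -/
theorem lift_expand (φ : L →ₐ[ℂ] K) (hK : Algebra.trdeg ℂ K = n) {x : Fin n → L}
    (hx : IsTranscendenceBasis ℂ x) {E : Fin n → Derivation ℂ L L}
    (hE : ∀ i j, E i (x j) = if i = j then 1 else 0) {E' : Fin n → Derivation ℂ K K}
    (hE' : ∀ i, LiftOf φ (E i) (E' i)) (D : Derivation ℂ K K) : D = ∑ i, D (φ (x i)) • E' i :=
  (Pool.Agent.W73.PG.PULL.expand (fun i => φ (x i)) (basis_map φ hK hx) E' (fun i j => by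
    rw [hE' i, hE, apply_ite φ, map_one, map_zero]) D).symm

theorem lift_unique (φ : L →ₐ[ℂ] K) (hL : Algebra.trdeg ℂ L = n) (hK : Algebra.trdeg ℂ K = n)
    [Algebra.EssFiniteType ℂ K] {D : Derivation ℂ L L} {D' D'' : Derivation ℂ K K}
    (h' : LiftOf φ D D') (h'' : LiftOf φ D D'') : D' = D'' := by
  obtain ⟨x, E, hx, hE⟩ := exists_crd hL
  choose E' hE' using fun i => lift_exists φ hL hK (E i)
  rw [lift_expand φ hK hx hE hE' D', lift_expand φ hK hx hE hE' D'']
  refine Finset.sum_congr rfl fun i _ => ?_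
  rw [h', h'']

/-- the evaluation of vector fields -/
noncomputable def evD (u : K) : Derivation ℂ K K →ₗ[K] K where
  toFun D := D u
  map_add' _ _ := rfl
  map_smul' _ _ := rfl

/-- the pull-back of a tensor -/
noncomputable def pullE (φ : L →ₐ[ℂ] K) (x : Fin n → L) (E : Fin n → Derivation ℂ L L)
    (T : MultilinearMap L (fun _ : Fin m => Derivation ℂ L L) L) :
    MultilinearMap K (fun _ : Fin m => Derivation ℂ K K) K :=
  ∑ I : Fin m → Fin n, φ (T fun s => E (I s)) •
    (MultilinearMap.mkPiAlgebra K (Fin m) K).compLinearMap fun s => evD (φ (x (I s)))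

theorem pullE_apply (φ : L →ₐ[ℂ] K) (x : Fin n → L) (E : Fin n → Derivation ℂ L L)
    (T : MultilinearMap L (fun _ : Fin m => Derivation ℂ L L) L) (D : Fin m → Derivation ℂ K K) :
    pullE φ x E T D = ∑ I : Fin m → Fin n, φ (T fun s => E (I s)) * ∏ s, D s (φ (x (I s))) := by
  unfold pullE
  rw [sum_apply]
  refine Finset.sum_congr rfl fun I _ => ?_
  rw [smul_apply, smul_eq_mul, MultilinearMap.compLinearMap_apply,
    MultilinearMap.mkPiAlgebra_apply]
  rfl

theorem pullE_lift (φ : L →ₐ[ℂ] K) {x : Fin n → L} (hx : IsTranscendenceBasis ℂ x)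
    {E : Fin n → Derivation ℂ L L} (hE : ∀ i j, E i (x j) = if i = j then 1 else 0)
    (T : MultilinearMap L (fun _ : Fin m => Derivation ℂ L L) L) {D : Fin m → Derivation ℂ L L}
    {D' : Fin m → Derivation ℂ K K} (hD : ∀ s, LiftOf φ (D s) (D' s)) :
    pullE φ x E T D' = φ (T D) := by
  classical
  rw [pullE_apply]
  have h1 : D = fun s => ∑ i, D s (x i) • E i := funext fun s =>
    (Pool.Agent.W73.PG.PULL.expand x hx E hE (D s)).symm
  conv_rhs => rw [h1, MultilinearMap.map_sum, map_sum]
  refine Finset.sum_congr rfl fun I _ => ?_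
  rw [MultilinearMap.map_smul_univ, smul_eq_mul, map_mul, map_prod, mul_comm]
  congr 1
  exact Finset.prod_congr rfl fun s _ => by rw [hD s]

/-- expansion of the pull-back in another frame -/
theorem pullE_expand (φ : L →ₐ[ℂ] K) (hK : Algebra.trdeg ℂ K = n) {x : Fin n → L}
    (hx : IsTranscendenceBasis ℂ x) {E : Fin n → Derivation ℂ L L}
    (hE : ∀ i j, E i (x j) = if i = j then 1 else 0) {z : Fin n → L}
    (hz : IsTranscendenceBasis ℂ z) {F : Fin n → Derivation ℂ L L}
    (hF : ∀ i j, F i (z j) = if i = j then 1 else 0) {F' : Fin n → Derivation ℂ K K}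
    (hF' : ∀ i, LiftOf φ (F i) (F' i))
    (T : MultilinearMap L (fun _ : Fin m => Derivation ℂ L L) L) (D : Fin m → Derivation ℂ K K) :
    pullE φ x E T D = ∑ I : Fin m → Fin n, (∏ s, D s (φ (z (I s)))) * φ (T fun s => F (I s)) := by
  classical
  have h1 : D = fun s => ∑ i, D s (φ (z i)) • F' i := funext fun s =>
    lift_expand φ hK hz hF hF' (D s)
  conv_lhs => rw [h1, MultilinearMap.map_sum]
  refine Finset.sum_congr rfl fun I _ => ?_
  rw [MultilinearMap.map_smul_univ, smul_eq_mul]
  congr 1
  exact pullE_lift φ hx hE T fun s => hF' (I s)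

/-- **The pull-back of a holomorphic tensor is holomorphic.** -/
theorem pullE_reg (φ : L →ₐ[ℂ] K) (hL : Algebra.trdeg ℂ L = n) (hK : Algebra.trdeg ℂ K = n)
    [Algebra.EssFiniteType ℂ L] [Algebra.EssFiniteType ℂ K] {x : Fin n → L}
    (hx : IsTranscendenceBasis ℂ x) {E : Fin n → Derivation ℂ L L}
    (hE : ∀ i j, E i (x j) = if i = j then 1 else 0)
    {T : MultilinearMap L (fun _ : Fin m => Derivation ℂ L L) L}
    (hT : TensorOrb n (fun _ => 0) T) : TensorOrb n (fun _ => 0) (pullE φ x E T) := by
  classical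
  intro v hv D S hD _
  let _ := φ.toRingHom.toAlgebra
  have htow : IsScalarTower ℂ L K := IsScalarTower.of_algebraMap_eq fun c => (φ.commutes c).symm
  have hfd : FiniteDimensional L K := fd_map φ hL hK
  obtain ⟨P, e, h⟩ := exists_below (K := L) v
  have hP : Divisorial n P := divisorial_down h hv
  obtain ⟨z, F, i0, hl⟩ := exists_loc hL hP
  choose F' hF' using fun i => lift_exists φ hL hK (F i)
  have h1 : GeR v 0 (pullE φ x E T D) := by
    rw [pullE_expand φ hK hx hE hl.bas hl.dual hF' T D]
    refine Pool.Agent.Y174.OB.geR_sum _ _ _ fun I _ => ?_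
    have hreg : ∀ f : L, P.Reg f → GeR v 0 (φ f) := by
      intro f hf
      have h2 : v.Reg (algebraMap L K f) := h.reg.2 hf
      by_cases h0 : φ f = 0
      · exact Or.inl h0
      · right
        have h3 := (v.reg_iff h0).1 h2
        exact_mod_cast h3
    have h2 : GeR v 0 (φ (T fun s => F (I s))) := by
      refine hreg _ ?_
      rcases hT P hP (fun s => F (I s)) Finset.univ (fun s => hl.pres (I s))
        (fun j hj => absurd (Finset.mem_univ j) hj) with h3 | h3
      · exact Or.inl h3
      · right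
        have h4 : (0 : ℝ) ≤ P.ord (T fun s => F (I s)) := by
          simpa using h3
        exact_mod_cast h4
    have h3 : ∀ s, GeR v 0 (D s (φ (z (I s)))) := by
      intro s
      have h4 : v.Reg (algebraMap L K (z (I s))) := h.reg.2 (hl.reg (I s))
      have h5 := hD s _ h4
      by_cases h0 : D s (φ (z (I s))) = 0
      · exact Or.inl h0
      · right
        have h6 := (v.reg_iff h0).1 h5
        exact_mod_cast h6
    have h4 : GeR v (∑ _s : Fin m, 0) (∏ s, D s (φ (z (I s)))) := geR_prod' _ _ h3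
    have h5 := h4.mul h2
    simpa using h5
  rcases h1 with h1 | h1
  · exact Or.inl h1
  · right
    simpa using h1

/-- pull-backs preserve linear independence -/
theorem pullE_li (φ : L →ₐ[ℂ] K) (hL : Algebra.trdeg ℂ L = n) (hK : Algebra.trdeg ℂ K = n)
    [Algebra.EssFiniteType ℂ K] {x : Fin n → L}
    (hx : IsTranscendenceBasis ℂ x) {E : Fin n → Derivation ℂ L L}
    (hE : ∀ i j, E i (x j) = if i = j then 1 else 0) {κ : Type} [Finite κ]
    {T : κ → MultilinearMap L (fun _ : Fin m => Derivation ℂ L L) L}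
    (hT : LinearIndependent L T) : LinearIndependent K fun i => pullE φ x E (T i) := by
  classical
  have hfin : Fintype κ := Fintype.ofFinite κ
  choose E' hE' using fun i => lift_exists φ hL hK (E i)
  -- the coefficients
  let Φ : MultilinearMap L (fun _ : Fin m => Derivation ℂ L L) L →ₗ[L] ((Fin m → Fin n) → L) :=
    { toFun := fun T J => T fun s => E (J s)
      map_add' := fun _ _ => rfl
      map_smul' := fun _ _ => rfl }
  have hker : LinearMap.ker Φ = ⊥ := by
    rw [LinearMap.ker_eq_bot']
    intro T hT0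
    ext D
    have h1 : D = fun s => ∑ i, D s (x i) • E i := funext fun s =>
      (Pool.Agent.W73.PG.PULL.expand x hx E hE (D s)).symm
    rw [h1, MultilinearMap.map_sum]
    refine Finset.sum_eq_zero fun I _ => ?_
    rw [MultilinearMap.map_smul_univ]
    have h2 : T (fun s => E (I s)) = 0 := congrFun hT0 I
    rw [h2, smul_zero]
  have hli : LinearIndependent L fun i => Φ (T i) := hT.map' Φ hker
  have hinj : LinearMap.ker (Fintype.linearCombination L fun i => Φ (T i)) = ⊥ :=
    LinearMap.ker_eq_bot.2 hli.fintypeLinearCombination_injective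
  obtain ⟨g, hg⟩ := (Fintype.linearCombination L fun i => Φ (T i)).exists_leftInverse_of_injective
    hinj
  have hgk : ∀ i k, ∑ J, Φ (T i) J * g (Pi.single J 1) k = if i = k then 1 else 0 := by
    intro i k
    have h1 := LinearMap.congr_fun hg (Pi.single i 1)
    have h2 : (Fintype.linearCombination L fun i => Φ (T i)) (Pi.single i 1) = Φ (T i) := by
      rw [Fintype.linearCombination_apply_single, one_smul]
    rw [LinearMap.comp_apply, h2, LinearMap.id_apply] at h1
    have h3 : Φ (T i) = ∑ J, Φ (T i) J • (Pi.single J 1 : (Fin m → Fin n) → L) := by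
      funext J
      rw [Finset.sum_apply]
      simp [Pi.single_apply]
    rw [h3, map_sum] at h1
    have h4 := congrFun h1 k
    rw [Finset.sum_apply] at h4
    simp only [map_smul, Pi.smul_apply, smul_eq_mul] at h4
    rw [h4, Pi.single_apply]
    simp only [eq_comm]
  rw [Fintype.linearIndependent_iff]
  intro c hc k
  have h1 : ∀ J : Fin m → Fin n, ∑ i, c i * φ (Φ (T i) J) = 0 := by
    intro J
    have h2 := congrArg (fun t : MultilinearMap K (fun _ : Fin m => Derivation ℂ K K) K =>
      t fun s => E' (J s)) hc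
    simp only [sum_apply, smul_apply, smul_eq_mul,
      zero_apply] at h2
    rw [← h2]
    refine Finset.sum_congr rfl fun i _ => ?_
    congr 1
    exact (pullE_lift φ hx hE (T i) fun s => hE' (J s)).symm
  have h2 : ∑ J, (∑ i, c i * φ (Φ (T i) J)) * φ (g (Pi.single J 1) k) = c k := by
    simp only [Finset.sum_mul]
    rw [Finset.sum_comm]
    have h3 : ∀ i, ∑ J, c i * φ (Φ (T i) J) * φ (g (Pi.single J 1) k) =
        c i * φ (if i = k then 1 else 0) := by
      intro i
      rw [← hgk i k, map_sum, Finset.mul_sum]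
      refine Finset.sum_congr rfl fun J _ => ?_
      rw [map_mul, mul_assoc]
    simp only [h3]
    rw [Finset.sum_eq_single k]
    · rw [if_pos rfl, map_one, mul_one]
    · intro i _ hi
      rw [if_neg hi, map_zero, mul_zero]
    · intro h
      exact absurd (Finset.mem_univ _) h
  rw [← h2]
  exact Finset.sum_eq_zero fun J _ => by rw [h1 J, zero_mul]

/-- lifts of a basis are independent -/
theorem lift_li (φ : L →ₐ[ℂ] K) (hL : Algebra.trdeg ℂ L = n) {f : Fin n → Derivation ℂ L L}
    (hf : LinearIndependent L f) {f' : Fin n → Derivation ℂ K K}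
    (hf' : ∀ i, LiftOf φ (f i) (f' i)) : LinearIndependent K f' := by
  classical
  obtain ⟨x, E, hx, hE⟩ := exists_crd hL
  obtain ⟨B, hB⟩ : ∃ B : Matrix (Fin n) (Fin n) L, B = Matrix.of fun i j => f i (x j) := ⟨_, rfl⟩
  have hdet : B.det ≠ 0 := by
    intro h0
    obtain ⟨c, hc, hc0⟩ := Matrix.exists_vecMul_eq_zero_iff.2 h0
    apply hc
    funext i
    refine Fintype.linearIndependent_iff.1 hf c ?_ i
    rw [← Pool.Agent.W73.PG.PULL.expand x hx E hE (∑ i, c i • f i)]
    refine Finset.sum_eq_zero fun j _ => ?_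
    have h1 := congrFun hc0 j
    rw [Matrix.vecMul, dotProduct, Pi.zero_apply] at h1
    have h2 : (∑ i, c i • f i) (x j) = ∑ i, c i * B i j := by
      rw [sum_smul_apply, hB]
      rfl
    rw [h2, h1, zero_smul]
  rw [Fintype.linearIndependent_iff]
  intro c hc
  have h1 : Matrix.vecMul c (B.map φ) = 0 := by
    funext j
    rw [Matrix.vecMul, dotProduct, Pi.zero_apply]
    have h2 := congrArg (fun D : Derivation ℂ K K => D (φ (x j))) hc
    simp only [sum_smul_apply] at h2
    have h3 : (0 : Derivation ℂ K K) (φ (x j)) = 0 := rfl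
    rw [h3] at h2
    rw [← h2]
    refine Finset.sum_congr rfl fun i _ => ?_
    rw [hf' i, Matrix.map_apply, hB]
    rfl
  have h2 : (B.map φ).det ≠ 0 := by
    have h3 : (B.map φ).det = φ B.det := (RingHom.map_det φ.toRingHom B).symm
    rw [h3]
    exact (map_ne_zero_iff _ φ.toRingHom.injective).2 hdet
  have h3 : c = 0 := by
    by_contra hne
    exact h2 (Matrix.exists_vecMul_eq_zero_iff.1 ⟨c, hne, h1⟩)
  exact fun i => congrFun h3 i

end

end Pool.Agent.H897
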