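import Pool.Agent.H897.LA

/-!
Pull-backs of pluricanonical forms under dominant rational self-maps, and the Iitaka distribution.
-/

set_option autoImplicit false
set_option linter.overlappingInstances false
set_option linter.unusedSectionVars false

open MvPolynomial FF Pool.Agent.W602.GT Pool.Agent.Y172 Pool.Agent.NH31 Pool.Agent.W603.LV
open Pool.Agent.N133.TB Pool.Agent.Y174 Pool.Agent.TH466.QG Pool.Agent.W619.PQ
open Pool.Agent.N133.OB Pool.Agent.Y191

namespace Pool.Agent.H897

section

variable {L K : Type} [Field L] [Field K] [Algebra ℂ L] [Algebra ℂ K] {n M : ℕ}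

/-- the pull-back of a pluricanonical form -/
noncomputable def pullW (φ : L →ₐ[ℂ] K) (x : Fin n → L) (E : Fin n → Derivation ℂ L L) (M : ℕ)
    (ω : (Fin n → Derivation ℂ L L) → L) : (Fin n → Derivation ℂ K K) → K :=
  fun D => (Matrix.of fun i j => D i (φ (x j))).det ^ M * φ (ω E)

theorem pullW_pluri (φ : L →ₐ[ℂ] K) (x : Fin n → L) (E : Fin n → Derivation ℂ L L) (M : ℕ)
    (ω : (Fin n → Derivation ℂ L L) → L) : IsPluriForm ℂ K n M (pullW φ x E M ω) := by
  intro A D
  unfold pullW
  have h1 : (Matrix.of fun i j => (∑ k, A i k • D k) (φ (x j))) =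
      A * Matrix.of fun i j => D i (φ (x j)) := by
    ext i j
    rw [Matrix.mul_apply, Matrix.of_apply, sum_smul_apply]
    rfl
  rw [h1, Matrix.det_mul, mul_pow, mul_assoc]

/-- the value on the lifted frame -/
theorem pullW_lift (φ : L →ₐ[ℂ] K) {x : Fin n → L}
    {E : Fin n → Derivation ℂ L L} (hE : ∀ i j, E i (x j) = if i = j then 1 else 0)
    {E' : Fin n → Derivation ℂ K K} (hE' : ∀ i, LiftOf φ (E i) (E' i))
    (ω : (Fin n → Derivation ℂ L L) → L) : pullW φ x E M ω E' = φ (ω E) := by
  unfold pullW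
  have h1 : (Matrix.of fun i j => E' i (φ (x j))) = 1 := by
    ext i j
    rw [Matrix.of_apply, hE' i, hE, apply_ite φ, map_one, map_zero, Matrix.one_apply]
  rw [h1, Matrix.det_one, one_pow, one_mul]

/-- change of the frame -/
theorem pullW_change (φ : L →ₐ[ℂ] K) (hK : Algebra.trdeg ℂ K = n) {x : Fin n → L}
    (hx : IsTranscendenceBasis ℂ x) {E : Fin n → Derivation ℂ L L}
    (hE : ∀ i j, E i (x j) = if i = j then 1 else 0) {z : Fin n → L}
    (hz : IsTranscendenceBasis ℂ z) {F : Fin n → Derivation ℂ L L}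
    (hF : ∀ i j, F i (z j) = if i = j then 1 else 0) {F' : Fin n → Derivation ℂ K K}
    (hF' : ∀ i, LiftOf φ (F i) (F' i)) {ω : (Fin n → Derivation ℂ L L) → L}
    (hω : IsPluriForm ℂ L n M ω) (D : Fin n → Derivation ℂ K K) :
    pullW φ x E M ω D = (Matrix.of fun i j => D i (φ (z j))).det ^ M * φ (ω F) := by
  unfold pullW
  have h1 : (Matrix.of fun i j => D i (φ (x j))) =
      (Matrix.of fun i j => D i (φ (z j))) * (Matrix.of fun i j => φ (F i (x j))) := by
    ext i j
    rw [Matrix.mul_apply, Matrix.of_apply]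
    have h2 := lift_expand φ hK hz hF hF' (D i)
    conv_lhs => rw [h2]
    rw [sum_smul_apply]
    refine Finset.sum_congr rfl fun k _ => ?_
    rw [hF' k]
    rfl
  have h2 : (Matrix.of fun i j => φ (F i (x j))).det = φ (Matrix.of fun i j => F i (x j)).det :=
    (RingHom.map_det φ.toRingHom (Matrix.of fun i j => F i (x j))).symm
  have h3 := pluri_coord hx hE hω F
  rw [h1, Matrix.det_mul, mul_pow, h2, h3, map_mul, map_pow]
  ring

/-- **The pull-back of a section is a section.** -/
theorem pullW_sec (φ : L →ₐ[ℂ] K) (hL : Algebra.trdeg ℂ L = n) (hK : Algebra.trdeg ℂ K = n)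
    [Algebra.EssFiniteType ℂ L] [Algebra.EssFiniteType ℂ K] {x : Fin n → L}
    (hx : IsTranscendenceBasis ℂ x) {E : Fin n → Derivation ℂ L L}
    (hE : ∀ i j, E i (x j) = if i = j then 1 else 0) {ω : (Fin n → Derivation ℂ L L) → L}
    (hω : PairSec ℂ L n (fun _ => 0) {1} M 0 ω) :
    PairSec ℂ K n (fun _ => 0) {1} M 0 (pullW φ x E M ω) := by
  classical
  refine ⟨pullW_pluri φ x E M ω, ?_⟩
  intro v hv D hD
  let _ := φ.toRingHom.toAlgebra
  have htow : IsScalarTower ℂ L K := IsScalarTower.of_algebraMap_eq fun c => (φ.commutes c).symm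
  have hfd : FiniteDimensional L K := fd_map φ hL hK
  obtain ⟨P, e, h⟩ := exists_below (K := L) v
  have hP : Divisorial n P := divisorial_down h hv
  obtain ⟨z, F, i0, hl⟩ := exists_loc hL hP
  choose F' hF' using fun i => lift_exists φ hL hK (F i)
  rw [pullW_change φ hK hx hE hl.bas hl.dual hF' hω.1 D]
  have h1 : Ge v 0 ((Matrix.of fun i j => D i (φ (z j))).det ^ M * φ (ω F)) := by
    have h2 : Ge v 0 (Matrix.of fun i j => D i (φ (z j))).det := by
      refine ge_det v _ 0 (fun _ _ => 0) (fun a b => ?_) fun σ => ?_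
      · exact hD a _ (h.reg.2 (hl.reg b))
      · simp
    have h3 : P.Reg (ω F) := by
      rcases hω.2 P hP F hl.pres with h3 | ⟨s, hs, -, h4⟩
      · exact Or.inl h3
      · right
        rw [Finset.mem_singleton] at hs
        have h5 : (0 : ℝ) ≤ P.ord (ω F) := by
          simpa using h4
        exact_mod_cast h5
    have h4 : Ge v 0 (φ (ω F)) := h.reg.2 h3
    have h5 := (h2.pow M).mul h4
    simpa using h5
  rcases h1 with h1 | h1
  · exact Or.inl h1
  · right
    refine ⟨1, Finset.mem_singleton_self _, one_ne_zero, ?_⟩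
    have h2 : (0 : ℝ) ≤ (v.ord ((Matrix.of fun i j => D i (φ (z j))).det ^ M * φ (ω F)) : ℝ) := by
      exact_mod_cast h1
    simpa using h2

/-- ratios of sections are pulled back to ratios of sections -/
theorem ratio_map (φ : L →ₐ[ℂ] K) (hL : Algebra.trdeg ℂ L = n) (hK : Algebra.trdeg ℂ K = n)
    [Algebra.EssFiniteType ℂ L] [Algebra.EssFiniteType ℂ K] {f : L}
    (hf : f ∈ PairRatio ℂ L n (fun _ => 0)) : φ f ∈ PairRatio ℂ K n (fun _ => 0) := by
  obtain ⟨m, ω, ω', D, hm, hω, hω', h0, rfl⟩ := hf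
  obtain ⟨x, E, hx, hE⟩ := exists_crd hL
  choose E' hE' using fun i => lift_exists φ hL hK (E i)
  have h1 := pluri_coord hx hE hω.1 D
  have h2 := pluri_coord hx hE hω'.1 D
  have h3 : (Matrix.of fun i j => D i (x j)).det ^ m ≠ 0 := by
    intro h
    rw [h, zero_mul] at h2
    exact h0 h2
  have h4 : ω' E ≠ 0 := by
    intro h
    rw [h, mul_zero] at h2
    exact h0 h2
  refine ⟨m, pullW φ x E m ω, pullW φ x E m ω', E', hm, pullW_sec φ hL hK hx hE hω,
    pullW_sec φ hL hK hx hE hω', ?_, ?_⟩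
  · rw [pullW_lift φ hE hE']
    exact (map_ne_zero φ).2 h4
  · rw [pullW_lift φ hE hE', pullW_lift φ hE hE', h1, h2, mul_div_mul_left _ _ h3, map_div₀]

end

section

variable {K : Type} [Field K] [Algebra ℂ K] {n M : ℕ}

/-- The vector fields tangent to the Iitaka fibration. -/
def iitD (K : Type) [Field K] [Algebra ℂ K] (n : ℕ) : Submodule K (Derivation ℂ K K) where
  carrier := {D | ∀ f ∈ PairRatio ℂ K n (fun _ => 0), D f = 0}
  add_mem' {D D'} hD hD' f hf := by
    change D f + D' f = 0
    rw [hD f hf, hD' f hf, add_zero]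
  zero_mem' _ _ := rfl
  smul_mem' c D hD f hf := by
    change c • D f = 0
    rw [hD f hf, smul_zero]

theorem mem_iitD {D : Derivation ℂ K K} :
    D ∈ iitD K n ↔ ∀ f ∈ PairRatio ℂ K n (fun _ => 0), D f = 0 := Iff.rfl

theorem kills_adjoin {D : Derivation ℂ K K} {S : Set K} (h : ∀ f ∈ S, D f = 0) :
    Kills D (IntermediateField.adjoin ℂ S) := by
  intro x hx
  induction hx using IntermediateField.adjoin_induction with
  | mem x hx => exact h x hx
  | algebraMap x => exact D.map_algebraMap x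
  | add x y _ _ hx hy => rw [map_add, hx, hy, add_zero]
  | mul x y _ _ hx hy => rw [D.leibniz, hx, hy, smul_zero, smul_zero, add_zero]
  | inv x _ hx => rw [D.leibniz_inv, hx, smul_zero]

/-- **The Iitaka distribution is invariant under all dominant rational self-maps.** -/
theorem iitD_inv (hn : Algebra.trdeg ℂ K = n) [Algebra.EssFiniteType ℂ K] (φ : K →ₐ[ℂ] K)
    {D D' : Derivation ℂ K K} (hD : D ∈ iitD K n) (hD' : LiftOf φ D D') : D' ∈ iitD K n := by
  classical
  obtain ⟨I, hI⟩ : ∃ I : IntermediateField ℂ K,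
    I = IntermediateField.adjoin ℂ (PairRatio ℂ K n (fun _ => 0)) := ⟨_, rfl⟩
  have hkill : Kills D I := by
    rw [hI]
    exact kills_adjoin hD
  have hmap : ∀ x ∈ I, φ x ∈ I := by
    intro x hx
    rw [hI] at hx ⊢
    have h1 : IntermediateField.adjoin ℂ (PairRatio ℂ K n (fun _ => 0)) ≤
        (IntermediateField.adjoin ℂ (PairRatio ℂ K n (fun _ => 0))).comap φ := by
      rw [IntermediateField.adjoin_le_iff]
      intro f hf
      exact IntermediateField.subset_adjoin ℂ _ (ratio_map φ hn hn hf)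
    exact h1 hx
  let ψ : I →ₐ[ℂ] I :=
    { toFun := fun x => ⟨φ x, hmap x x.2⟩
      map_one' := Subtype.ext (map_one φ)
      map_mul' := fun a b => Subtype.ext (map_mul φ _ _)
      map_zero' := Subtype.ext (map_zero φ)
      map_add' := fun a b => Subtype.ext (map_add φ _ _)
      commutes' := fun c => Subtype.ext (φ.commutes c) }
  have hψ : Function.Injective ψ := ψ.toRingHom.injective
  have htr : Algebra.trdeg ℂ I ≤ n := by
    rw [← hn]
    exact trdeg_le_of_injective I.val I.val.toRingHom.injective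
  obtain ⟨ι, t, ht⟩ := exists_isTranscendenceBasis' ℂ I
  have hcard : Cardinal.mk ι = Algebra.trdeg ℂ I := ht.cardinalMk_eq_trdeg
  have hfin : Finite ι := by
    rw [← Cardinal.lt_aleph0_iff_finite, hcard]
    exact htr.trans_lt (Cardinal.natCast_lt_aleph0)
  have h1 : AlgebraicIndependent ℂ (ψ ∘ t) := ht.1.map' (f := ψ) hψ
  have h2 : IsTranscendenceBasis ℂ (ψ ∘ t) := h1.isTranscendenceBasis_of_trdeg_le_of_finite (by
    rw [hcard])
  have h3 : Algebra.IsAlgebraic (IntermediateField.adjoin ℂ (Set.range (ψ ∘ t))) I :=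
    h2.isAlgebraic_field
  -- `D'` kills the image
  let J : IntermediateField ℂ K :=
    IntermediateField.adjoin ℂ (Set.range fun i => φ (t i : K))
  have hJ : Kills D' J := kills_adjoin (by
    rintro _ ⟨i, rfl⟩
    change D' (φ (t i : K)) = 0
    rw [hD' (t i : K), hkill _ (t i).2, map_zero])
  intro f hf
  have hfI : f ∈ I := by
    rw [hI]
    exact IntermediateField.subset_adjoin ℂ _ hf
  have h4 := h3.isAlgebraic ⟨f, hfI⟩
  have h5 : IsAlgebraic (IntermediateField.adjoin ℂ (Set.range (ψ ∘ t))) f := by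
    have h6 := h4.algebraMap (A := K)
    exact h6
  have hmem : ∀ a : IntermediateField.adjoin ℂ (Set.range (ψ ∘ t)), ((a : I) : K) ∈ J := by
    intro a
    have h6 : IntermediateField.adjoin ℂ (Set.range (ψ ∘ t)) ≤ J.comap I.val := by
      rw [IntermediateField.adjoin_le_iff]
      rintro _ ⟨i, rfl⟩
      exact IntermediateField.subset_adjoin ℂ _ ⟨i, rfl⟩
    exact h6 a.2
  let χ : IntermediateField.adjoin ℂ (Set.range (ψ ∘ t)) →+* J :=
    { toFun := fun a => ⟨((a : I) : K), hmem a⟩
      map_one' := rfl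
      map_mul' := fun a b => rfl
      map_zero' := rfl
      map_add' := fun a b => rfl }
  exact kills_alg hJ (Pool.Agent.N133.TB.alg_mono χ χ.injective (fun a => rfl) h5)

end

end Pool.Agent.H897
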