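import Pool.Agent.H897.LB

/-!
Distributions which are invariant under all dominant rational self-maps.
-/

set_option autoImplicit false
set_option linter.overlappingInstances false
set_option linter.unusedSectionVars false

open MvPolynomial FF Pool.Agent.W602.GT Pool.Agent.Y172 Pool.Agent.NH31 Pool.Agent.W603.LV
open Pool.Agent.N133.TB Pool.Agent.Y174 Pool.Agent.TH466.QG Pool.Agent.W619.PQ
open Pool.Agent.N133.OB Pool.Agent.Y191

namespace Pool.Agent.H897

section

variable {K : Type} [Field K] [Algebra ℂ K] {n m : ℕ}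

/-- The distribution `F` is invariant under all dominant rational self-maps: the pull-back of a
vector field belongs to `F` if and only if the vector field belongs to `F`. -/
def SelfInv (F : Submodule K (Derivation ℂ K K)) : Prop :=
  ∀ (φ : K →ₐ[ℂ] K) (D D' : Derivation ℂ K K), LiftOf φ D D' → (D' ∈ F ↔ D ∈ F)

/-- linear independence is preserved by field extensions -/
theorem li_map {L' K' ι J : Type} [Field L'] [Field K'] [Fintype ι] [Fintype J] (φ : L' →+* K')
    {v : ι → J → L'} (hv : LinearIndependent L' v) :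
    LinearIndependent K' fun i j => φ (v i j) := by
  classical
  have hinj : LinearMap.ker (Fintype.linearCombination L' v) = ⊥ :=
    LinearMap.ker_eq_bot.2 hv.fintypeLinearCombination_injective
  obtain ⟨g, hg⟩ := (Fintype.linearCombination L' v).exists_leftInverse_of_injective hinj
  have hgk : ∀ i k, ∑ j, v i j * g (Pi.single j 1) k = if i = k then 1 else 0 := by
    intro i k
    have h1 := LinearMap.congr_fun hg (Pi.single i 1)
    have h2 : (Fintype.linearCombination L' v) (Pi.single i 1) = v i := by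
      rw [Fintype.linearCombination_apply_single, one_smul]
    rw [LinearMap.comp_apply, h2, LinearMap.id_apply] at h1
    have h3 : v i = ∑ j, v i j • (Pi.single j 1 : J → L') := by
      funext j
      rw [Finset.sum_apply]
      simp [Pi.single_apply]
    rw [h3, map_sum] at h1
    have h4 := congrFun h1 k
    rw [Finset.sum_apply] at h4
    simp only [map_smul, Pi.smul_apply, smul_eq_mul] at h4
    rw [h4, Pi.single_apply]
    simp only [eq_comm]
  rw [Fintype.linearIndependent_iff]
  intro c hc k
  have h1 : ∀ j, ∑ i, c i * φ (v i j) = 0 := by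
    intro j
    have h2 := congrFun hc j
    rw [Finset.sum_apply] at h2
    exact h2
  have h2 : ∑ j, (∑ i, c i * φ (v i j)) * φ (g (Pi.single j 1) k) = c k := by
    simp only [Finset.sum_mul]
    rw [Finset.sum_comm]
    have h3 : ∀ i, ∑ j, c i * φ (v i j) * φ (g (Pi.single j 1) k) =
        c i * φ (if i = k then 1 else 0) := by
      intro i
      rw [← hgk i k, map_sum, Finset.mul_sum]
      refine Finset.sum_congr rfl fun j _ => ?_
      rw [map_mul, mul_assoc]
    simp only [h3]
    rw [Finset.sum_eq_single k]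
    · rw [if_pos rfl, map_one, mul_one]
    · intro i _ hi
      rw [if_neg hi, map_zero, mul_zero]
    · intro h
      exact absurd (Finset.mem_univ _) h
  rw [← h2]
  exact Finset.sum_eq_zero fun j _ => by rw [h1 j, zero_mul]

/-- the lifts of independent vector fields are independent -/
theorem lift_li' (hn : Algebra.trdeg ℂ K = n) (φ : K →ₐ[ℂ] K) {r : ℕ}
    {f f' : Fin r → Derivation ℂ K K} (hf : LinearIndependent K f)
    (hf' : ∀ i, LiftOf φ (f i) (f' i)) : LinearIndependent K f' := by
  classical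
  obtain ⟨x, E, hx, hE⟩ := exists_crd hn
  let Φ : Derivation ℂ K K →ₗ[K] (Fin n → K) :=
    { toFun := fun D j => D (x j)
      map_add' := fun _ _ => rfl
      map_smul' := fun _ _ => rfl }
  have hker : LinearMap.ker Φ = ⊥ := by
    rw [LinearMap.ker_eq_bot']
    intro D hD
    rw [← Pool.Agent.W73.PG.PULL.expand x hx E hE D]
    refine Finset.sum_eq_zero fun i _ => ?_
    have h2 : D (x i) = 0 := congrFun hD i
    rw [h2, zero_smul]
  have h1 := li_map φ.toRingHom (hf.map' Φ hker)
  rw [Fintype.linearIndependent_iff] at h1 ⊢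
  intro c hc
  refine h1 c ?_
  funext j
  have h2 := congrArg (fun D : Derivation ℂ K K => D (φ (x j))) hc
  simp only [sum_smul_apply] at h2
  rw [Finset.sum_apply]
  have h3 : (0 : Derivation ℂ K K) (φ (x j)) = 0 := rfl
  rw [h3] at h2
  change ∑ i, c i * φ (f i (x j)) = 0
  rw [← h2]
  exact Finset.sum_congr rfl fun i _ => by rw [hf' i]

/-- invariance in one direction is enough -/
theorem selfInv_of (hess : Algebra.EssFiniteType ℂ K) (hn : Algebra.trdeg ℂ K = n)
    {F : Submodule K (Derivation ℂ K K)}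
    (h : ∀ (φ : K →ₐ[ℂ] K) (D D' : Derivation ℂ K K), D ∈ F → LiftOf φ D D' → D' ∈ F) :
    SelfInv F := by
  classical
  intro φ D D' hD
  refine ⟨fun hD' => ?_, fun hD' => h φ D D' hD' hD⟩
  by_contra hcon
  obtain ⟨x, E, hx, hEx⟩ := exists_crd hn
  have hs : Submodule.span K (Set.range E) = ⊤ := span_of_frame (frame_of_dual hx hEx)
  have hfin : Module.Finite K (Derivation ℂ K K) :=
    ⟨⟨Finset.univ.image E, by rw [Finset.coe_image, Finset.coe_univ, Set.image_univ, hs]⟩⟩
  let b := Module.finBasis K F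
  have h1 : LinearIndependent K fun i => (b i : Derivation ℂ K K) :=
    b.linearIndependent.map' F.subtype (Submodule.ker_subtype F)
  have h2 : LinearIndependent K (Fin.cons D (fun i => (b i : Derivation ℂ K K)) :
      Fin (Module.finrank K F + 1) → Derivation ℂ K K) := by
    rw [linearIndependent_finCons]
    refine ⟨h1, fun hmem => hcon ?_⟩
    have h3 : Submodule.span K (Set.range fun i => (b i : Derivation ℂ K K)) ≤ F := by
      rw [Submodule.span_le]
      rintro _ ⟨i, rfl⟩
      exact (b i).2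
    exact h3 hmem
  choose g hg using fun i => lift_exists φ hn hn (b i : Derivation ℂ K K)
  have h3 : LinearIndependent K (Fin.cons D' g :
      Fin (Module.finrank K F + 1) → Derivation ℂ K K) := by
    refine lift_li' hn φ h2 fun i => ?_
    refine Fin.cases ?_ (fun j => ?_) i
    · rw [Fin.cons_zero, Fin.cons_zero]
      exact hD
    · rw [Fin.cons_succ, Fin.cons_succ]
      exact hg j
  have h4 : ∀ i, (Fin.cons D' g : Fin (Module.finrank K F + 1) → Derivation ℂ K K) i ∈ F := by
    intro i
    refine Fin.cases ?_ (fun j => ?_) i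
    · rw [Fin.cons_zero]
      exact hD'
    · rw [Fin.cons_succ]
      exact h φ _ _ (b j).2 (hg j)
  have h5 : LinearIndependent K (fun i => (⟨_, h4 i⟩ : F)) :=
    LinearIndependent.of_comp F.subtype h3
  have h6 := h5.fintype_card_le_finrank
  rw [Fintype.card_fin] at h6
  omega

/-- **The distribution invariant under all dominant rational self-maps.** -/
theorem self_inv (hess : Algebra.EssFiniteType ℂ K) (hn : Algebra.trdeg ℂ K = n) (hn1 : 1 ≤ n)
    (hκ : ¬ PairKod ℂ K n (fun _ => 0) 0) (M : ℕ)
    (hM : ∃ m, 1 ≤ m ∧ m ≤ M ∧ ∃ T : MultilinearMap K (fun _ : Fin m => Derivation ℂ K K) K,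
      TensorOrb n (fun _ => 0) T ∧ T ≠ 0) :
    ∃ F : Submodule K (Derivation ℂ K K), F ≠ ⊥ ∧ F ≠ ⊤ ∧ SelfInv F ∧
      ∀ m, 1 ≤ m → m ≤ M → ∀ T : MultilinearMap K (fun _ : Fin m => Derivation ℂ K K) K,
        TensorOrb n (fun _ => 0) T → ∀ D : Fin m → Derivation ℂ K K, (∀ j, D j ∈ F) → T D = 0 := by
  classical
  have hcz : CharZero K := charZero_of_injective_algebraMap (algebraMap ℂ K).injective
  obtain ⟨δ, hδ⟩ : ∃ δ : Place ℂ K → ℝ, δ = fun _ => 0 := ⟨_, rfl⟩
  rw [← hδ] at hκ
  simp only [← hδ] at hM ⊢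
  obtain ⟨x, E, hx, hEx⟩ := exists_crd hn
  have hE : LinearIndependent K E := li_of_dual hEx
  have hs : Submodule.span K (Set.range E) = ⊤ := span_of_frame (frame_of_dual hx hEx)
  have hfin : Module.Finite K (Derivation ℂ K K) :=
    ⟨⟨Finset.univ.image E, by rw [Finset.coe_image, Finset.coe_univ, Set.image_univ, hs]⟩⟩
  -- finitely many tensors
  have hex : ∀ d : ℕ, ∃ b : Set (MultilinearMap K (fun _ : Fin d => Derivation ℂ K K) K),
      b ⊆ {T | TensorOrb n δ T} ∧ b.Finite ∧ LinearIndependent K (Subtype.val : b → _) ∧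
        ∀ T, TensorOrb n δ T → T ∈ Submodule.span K b := by
    intro d
    obtain ⟨b, hb1, hb2, hb3⟩ := exists_linearIndependent K
      {T : MultilinearMap K (fun _ : Fin d => Derivation ℂ K K) K | TensorOrb n δ T}
    refine ⟨b, hb1, hb3.setFinite, hb3, ?_⟩
    rw [hb2]
    exact fun T hT => Submodule.subset_span hT
  choose b hb1 hb2 hbli hb3 using hex
  have hbf : ∀ d, Finite (b d) := fun d => (hb2 d).to_subtype
  let ι : Type := (i : Fin M) × b ((i : ℕ) + 1)
  let deg : ι → ℕ := fun i => (i.1 : ℕ) + 1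
  let T : (i : ι) → MultilinearMap K (fun _ : Fin (deg i) => Derivation ℂ K K) K :=
    fun i => (i.2 : MultilinearMap K (fun _ : Fin ((i.1 : ℕ) + 1) => Derivation ℂ K K) K)
  have hT : ∀ i, TensorOrb n δ (T i) := fun i => hb1 _ i.2.2
  have hT0 : ∃ i, T i ≠ 0 := by
    by_contra hcon
    push Not at hcon
    obtain ⟨m, hm1, hmM, T0, hT0, hne⟩ := hM
    obtain ⟨m', rfl⟩ : ∃ m', m = m' + 1 := ⟨m - 1, by omega⟩
    apply hne
    have h1 : T0 ∈ Submodule.span K (b (m' + 1)) := hb3 _ _ hT0
    have h2 : Submodule.span K (b (m' + 1)) = ⊥ := by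
      rw [Submodule.span_eq_bot]
      intro T' hT'
      exact hcon ⟨⟨m', by omega⟩, ⟨T', hT'⟩⟩
    rw [h2, Submodule.mem_bot] at h1
    exact h1
  -- the semi-invariants vanish
  have hnull := alg_null (k := ℂ) t_sep' t_hm' hn1 (m := deg) (fun i => Nat.succ_pos _)
    (t := mapF (L := AlgebraicClosure K) (co T E)) (fun W Q hW hQ => by
      by_contra h0
      apply hκ
      have h1 := t_sec ℂ K hess n hn1 hn δ ι deg T hT W Q hQ hW
      have h2 : aeval (fun x : Ix deg n => T x.1 (fun s => E (x.2 s))) Q ≠ 0 := by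
        intro h
        apply h0
        have h3 := aeval_algebraMap_apply (AlgebraicClosure K)
          (fun x : Ix deg n => T x.1 (fun s => E (x.2 s))) Q
        rw [h, map_zero] at h3
        exact h3
      refine ⟨W, hW, fun _ => _, fun _ => h1, E, fun _ => h2, ?_⟩
      exact algebraicIndependent_empty_type_iff.2 (algebraMap ℂ K).injective)
  obtain ⟨f, w, μ, hμ, hwt, huniq⟩ := canon hE hs T hT0 hnull
  -- the family of the lifts is another optimal basis
  have himg : ∀ (φ : K →ₐ[ℂ] K) (f' : Fin n → Derivation ℂ K K), (∀ j, LiftOf φ (f j) (f' j)) →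
      lvl K f' w 0 = lvl K f w 0 := by
    intro φ f' hf'
    refine (huniq f' w μ ⟨lift_li φ hn hwt.1 hf', hwt.2.1, hwt.2.2.1, fun i J hJ => ?_⟩).2 rfl 0
    have hb' := hbf ((i.1 : ℕ) + 1)
    have hfb : Fintype (b ((i.1 : ℕ) + 1)) := Fintype.ofFinite _
    -- the pull-backs
    let P : b ((i.1 : ℕ) + 1) →
        MultilinearMap K (fun _ : Fin ((i.1 : ℕ) + 1) => Derivation ℂ K K) K :=
      fun a => pullE φ x E (a : MultilinearMap K (fun _ : Fin ((i.1 : ℕ) + 1) =>
        Derivation ℂ K K) K)
    have hPli : LinearIndependent K P := pullE_li φ hn hn hx hEx (hbli _)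
    have hPreg : ∀ a, TensorOrb n δ (P a) := by
      intro a
      have h1 := hb1 _ a.2
      rw [Set.mem_ofPred_eq, hδ] at h1
      rw [hδ]
      exact pullE_reg φ hn hn hx hEx h1
    have hPle : Submodule.span K (Set.range P) ≤ Submodule.span K (b ((i.1 : ℕ) + 1)) := by
      rw [Submodule.span_le]
      rintro _ ⟨a, rfl⟩
      exact hb3 _ _ (hPreg a)
    have hPeq : Submodule.span K (Set.range P) = Submodule.span K (b ((i.1 : ℕ) + 1)) := by
      have hfd2 : FiniteDimensional K (Submodule.span K (b ((i.1 : ℕ) + 1))) :=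
        FiniteDimensional.span_of_finite K (hb2 _)
      refine Submodule.eq_of_le_of_finrank_eq hPle ?_
      rw [finrank_span_eq_card hPli]
      have h1 := finrank_span_eq_card (hbli ((i.1 : ℕ) + 1))
      rw [Subtype.range_coe] at h1
      exact h1.symm
    have h3 : ∀ T' ∈ Submodule.span K (Set.range P), T' (fun s => f' (J s)) = 0 := by
      intro T' hT'
      induction hT' using Submodule.span_induction with
      | mem x' hx' =>
        obtain ⟨a, rfl⟩ := hx'
        have h4 := pullE_lift φ hx hEx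
          (a : MultilinearMap K (fun _ : Fin ((i.1 : ℕ) + 1) => Derivation ℂ K K) K)
          (D := fun s => f (J s)) (D' := fun s => f' (J s)) fun s => hf' (J s)
        have h5 : (a : MultilinearMap K (fun _ : Fin ((i.1 : ℕ) + 1) => Derivation ℂ K K) K)
            (fun s => f (J s)) = 0 := hwt.2.2.2 ⟨i.1, a⟩ J hJ
        rw [h5, map_zero] at h4
        exact h4
      | zero => rfl
      | add x y _ _ hx hy => rw [add_apply, hx, hy, add_zero]
      | smul r x _ hx => rw [smul_apply, hx, smul_zero]
    refine h3 _ ?_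
    rw [hPeq]
    exact Submodule.subset_span i.2.2
  refine ⟨lvl K f w 0, lvl_ne_bot hn1 hwt.1 hwt.2.1, lvl_ne_top hwt.1 hwt.2.1 hwt.2.2.1, ?_, ?_⟩
  · refine selfInv_of hess hn ?_
    intro φ D D' hD hD'
    choose f' hf' using fun j => lift_exists φ hn hn (f j)
    rw [← himg φ f' hf']
    obtain ⟨c, hc, rfl⟩ := lvl_coord hD
    have h1 : LiftOf φ (∑ l, c l • f l) (∑ l, φ (c l) • f' l) := by
      intro g
      rw [sum_smul_apply, sum_smul_apply, map_sum]
      refine Finset.sum_congr rfl fun l _ => ?_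
      rw [hf' l, map_mul]
    rw [lift_unique φ hn hn hD' h1]
    refine Submodule.sum_mem _ fun l _ => ?_
    by_cases hl : w l ≤ 0
    · exact Submodule.smul_mem _ _ (Submodule.subset_span ⟨l, hl, rfl⟩)
    · rw [hc l hl, map_zero, zero_smul]
      exact Submodule.zero_mem _
  · intro m hm1 hmM T0 hT0 D hD
    obtain ⟨m', rfl⟩ : ∃ m', m = m' + 1 := ⟨m - 1, by omega⟩
    have h1 : T0 ∈ Submodule.span K (b (m' + 1)) := hb3 _ _ hT0
    have h3 : ∀ T' ∈ Submodule.span K (b (m' + 1)), T' D = 0 := by
      intro T' hT'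
      induction hT' using Submodule.span_induction with
      | mem x hx => exact vanish_lvl hμ hwt ⟨⟨m', by omega⟩, ⟨x, hx⟩⟩ D hD
      | zero => rfl
      | add x y _ _ hx hy => rw [add_apply, hx, hy, add_zero]
      | smul r x _ hx => rw [smul_apply, hx, smul_zero]
    exact h3 _ h1

/-- the ratios are constant if all vector fields are tangent to the Iitaka fibration -/
theorem kod_of_top (h : iitD K n = ⊤) :
    ¬ PairKod ℂ K n (fun _ => 0) 1 := by
  rintro ⟨m, hm, ω, hω, D, hD, hind⟩
  have h1 : ω (Fin.succ 0) D / ω 0 D ∈ PairRatio ℂ K n (fun _ => 0) :=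
    ⟨m, ω (Fin.succ 0), ω 0, D, hm, hω _, hω _, hD _, rfl⟩
  obtain ⟨z, hz⟩ := const_of_all_der (f := ω (Fin.succ 0) D / ω 0 D) fun D' => by
    have h2 : D' ∈ iitD K n := by
      rw [h]
      exact Submodule.mem_top
    exact h2 _ h1
  have h2 := hind.transcendental 0
  apply h2
  change IsAlgebraic ℂ (ω (Fin.succ 0) D / ω 0 D)
  rw [hz]
  exact isAlgebraic_algebraMap z

end

end Pool.Agent.H897
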