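import Pool.Agent.H897.LC

/-!
Sections and ratios: the Kodaira dimension, and tensors from forms.
-/

set_option autoImplicit false
set_option linter.overlappingInstances false
set_option linter.unusedSectionVars false

open MvPolynomial FF Pool.Agent.W602.GT Pool.Agent.Y172 Pool.Agent.NH31 Pool.Agent.W603.LV
open Pool.Agent.N133.TB Pool.Agent.Y174 Pool.Agent.TH466.QG Pool.Agent.W619.PQ
open Pool.Agent.N133.OB Pool.Agent.Y191

namespace Pool.Agent.H897

section

variable {K : Type} [Field K] [Algebra ℂ K] {n m : ℕ}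

theorem psec_ge {k : ℕ} {ω : (Fin n → Derivation ℂ K K) → K}
    (h : PairSec ℂ K n (fun _ => 0) {1} k 0 ω) {v : Place ℂ K} (hv : IsDivisorial v n)
    {D : Fin n → Derivation ℂ K K} (hD : ∀ l, ∀ f, v.Reg f → v.Reg (D l f)) : Ge v 0 (ω D) := by
  rcases h.2 v hv D hD with h3 | ⟨s, hs, -, h4⟩
  · exact Or.inl h3
  · right
    rw [Finset.mem_singleton] at hs
    have h5 : (0 : ℝ) ≤ v.ord (ω D) := by
      simpa using h4
    exact_mod_cast h5

theorem psec_of {k : ℕ} {ω : (Fin n → Derivation ℂ K K) → K} (h1 : IsPluriForm ℂ K n k ω)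
    (h2 : ∀ (v : Place ℂ K), IsDivisorial v n → ∀ D : Fin n → Derivation ℂ K K,
      (∀ l, ∀ f, v.Reg f → v.Reg (D l f)) → Ge v 0 (ω D)) :
    PairSec ℂ K n (fun _ => 0) {1} k 0 ω := by
  refine ⟨h1, fun v hv D hD => ?_⟩
  rcases h2 v hv D hD with h3 | h3
  · exact Or.inl h3
  · right
    refine ⟨1, Finset.mem_singleton_self _, one_ne_zero, ?_⟩
    have h4 : (0 : ℝ) ≤ (v.ord (ω D) : ℝ) := by exact_mod_cast h3
    simpa using h4

theorem psec_mul {k k' : ℕ} {ω ω' : (Fin n → Derivation ℂ K K) → K}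
    (h : PairSec ℂ K n (fun _ => 0) {1} k 0 ω) (h' : PairSec ℂ K n (fun _ => 0) {1} k' 0 ω') :
    PairSec ℂ K n (fun _ => 0) {1} (k + k') 0 (fun D => ω D * ω' D) := by
  refine psec_of (pluri_mul h.1 h'.1) fun v hv D hD => ?_
  have h1 := (psec_ge h hv hD).mul (psec_ge h' hv hD)
  simpa using h1

theorem psec_one : PairSec ℂ K n (fun _ => 0) {1} 0 0 (fun _ => 1) := by
  refine psec_of (fun A D => by simp) fun v hv D hD => ?_
  exact v.reg_one

theorem psec_prod {ι : Type} (s : Finset ι) {k : ι → ℕ}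
    {ω : ι → (Fin n → Derivation ℂ K K) → K}
    (h : ∀ i ∈ s, PairSec ℂ K n (fun _ => 0) {1} (k i) 0 (ω i)) :
    PairSec ℂ K n (fun _ => 0) {1} (∑ i ∈ s, k i) 0 (fun D => ∏ i ∈ s, ω i D) := by
  classical
  induction s using Finset.induction_on with
  | empty =>
    simp only [Finset.sum_empty, Finset.prod_empty]
    exact psec_one
  | insert a s ha ih =>
    simp only [Finset.sum_insert ha, Finset.prod_insert ha]
    exact psec_mul (h a (Finset.mem_insert_self _ _))
      (ih fun i hi => h i (Finset.mem_insert_of_mem hi))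

open scoped IntermediateField.algebraAdjoinAdjoin in
/-- the pair is of general type if no vector field is tangent to the Iitaka fibration -/
theorem kod_of_bot (hn : Algebra.trdeg ℂ K = n) (h : iitD K n = ⊥)
    (h0 : PairKod ℂ K n (fun _ => 0) 0) : PairKod ℂ K n (fun _ => 0) n := by
  classical
  obtain ⟨x, E, hx, hE⟩ := exists_crd hn
  have hfr : IsFrame E := frame_of_dual hx hE
  obtain ⟨R, hR⟩ : ∃ R : Set K, R = PairRatio ℂ K n (fun _ => 0) := ⟨_, rfl⟩
  have hcz : CharZero K := charZero_of_injective_algebraMap (algebraMap ℂ K).injective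
  have halg : Algebra.IsAlgebraic (IntermediateField.adjoin ℂ R) K := by
    refine ⟨fun z => ?_⟩
    by_contra hz
    have h1 : AlgebraicIndependent (IntermediateField.adjoin ℂ R) (fun _ : Unit => z) := by
      rw [algebraicIndependent_unique_type_iff]
      exact hz
    obtain ⟨D, h2, h3⟩ := exists_der_ind h1 fun _ => 1
    have h4 : D ∈ iitD K n := fun f hf => h2 f (by
      rw [hR]
      exact IntermediateField.subset_adjoin ℂ _ hf)
    rw [h, Submodule.mem_bot] at h4
    have h5 := h3 ()
    rw [h4] at h5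
    exact zero_ne_one h5
  have halg2 : Algebra.IsAlgebraic (Algebra.adjoin ℂ R) K :=
    (IsFractionRing.comap_isAlgebraic_iff (A := Algebra.adjoin ℂ R)
      (K := IntermediateField.adjoin ℂ R)).2 halg
  obtain ⟨u, huR, hu⟩ := exists_isTranscendenceBasis_subset (R := ℂ) R
  have hcard : Cardinal.mk u = (n : Cardinal) := by
    rw [hu.cardinalMk_eq_trdeg, hn]
  have heq : Nonempty (Fin n ≃ u) := by
    rw [← Cardinal.eq, hcard]
    simp
  obtain ⟨e⟩ := heq
  have hr : ∀ i : Fin n, ∃ (k : ℕ) (ω ω' : (Fin n → Derivation ℂ K K) → K),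
      PairSec ℂ K n (fun _ => 0) {1} k 0 ω ∧ PairSec ℂ K n (fun _ => 0) {1} k 0 ω' ∧
      ω E ≠ 0 ∧ ω' E ≠ 0 ∧ ((e i : u) : K) = ω E / ω' E := by
    intro i
    have h1 : ((e i : u) : K) ∈ PairRatio ℂ K n (fun _ => 0) := by
      rw [← hR]
      exact huR (e i).2
    obtain ⟨k, ω, ω', D, hk, hω, hω', hD, hf⟩ := h1
    have h2 := pluri_coord hx hE hω.1 D
    have h3 := pluri_coord hx hE hω'.1 D
    have h4 : (Matrix.of fun i j => D i (x j)).det ^ k ≠ 0 := by
      intro h
      rw [h, zero_mul] at h3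
      exact hD h3
    have h5 : ω' E ≠ 0 := by
      intro h
      rw [h, mul_zero] at h3
      exact hD h3
    have h6 : ((e i : u) : K) = ω E / ω' E := by
      rw [hf, h2, h3, mul_div_mul_left _ _ h4]
    refine ⟨k, ω, ω', hω, hω', ?_, h5, h6⟩
    intro h7
    rw [h7, zero_div] at h6
    exact hu.1.ne_zero (e i) h6
  choose k ω ω' hω hω' hωE hω'E hf using hr
  obtain ⟨m0, hm0, η, hη, D0, hD0, -⟩ := h0
  have hηE : η 0 E ≠ 0 := by
    intro h
    have h1 := pluri_coord hx hE (hη 0).1 D0
    rw [h, mul_zero] at h1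
    exact hD0 0 h1
  have hpE : ∏ j, ω' j E ≠ 0 := Finset.prod_ne_zero_iff.2 fun j _ => hω'E j
  obtain ⟨Ω, hΩ⟩ : ∃ Ω : Fin n → Fin n → (Fin n → Derivation ℂ K K) → K,
    Ω = fun i j => if j = i then ω j else ω' j := ⟨_, rfl⟩
  have hΩE : ∀ i, ∏ j, Ω i j E ≠ 0 := by
    intro i
    refine Finset.prod_ne_zero_iff.2 fun j _ => ?_
    rw [hΩ]
    simp only
    split_ifs
    · exact hωE j
    · exact hω'E j
  have hratio : ∀ i, (∏ j, Ω i j E) = (e i : u) * ∏ j, ω' j E := by
    intro i
    rw [← Finset.mul_prod_erase _ _ (Finset.mem_univ i),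
      ← Finset.mul_prod_erase _ (fun j => ω' j E) (Finset.mem_univ i), hf i, hΩ]
    simp only [if_true]
    rw [← mul_assoc, div_mul_cancel₀ _ (hω'E i)]
    congr 1
    refine Finset.prod_congr rfl fun j hj => ?_
    rw [if_neg (Finset.ne_of_mem_erase hj)]
  refine ⟨m0 + ∑ j, k j, by omega,
    Fin.cons (fun D => η 0 D * ∏ j, ω' j D) (fun i D => η 0 D * ∏ j, Ω i j D), ?_, E, ?_, ?_⟩
  · intro l
    refine Fin.cases ?_ (fun i => ?_) l
    · rw [Fin.cons_zero]
      exact psec_mul (hη 0) (psec_prod _ fun j _ => hω' j)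
    · rw [Fin.cons_succ]
      refine psec_mul (hη 0) (psec_prod _ fun j _ => ?_)
      rw [hΩ]
      simp only
      split_ifs
      · exact hω j
      · exact hω' j
  · intro l
    refine Fin.cases ?_ (fun i => ?_) l
    · rw [Fin.cons_zero]
      exact mul_ne_zero hηE hpE
    · rw [Fin.cons_succ]
      exact mul_ne_zero hηE (hΩE i)
  · have h1 : (fun l : Fin n => (Fin.cons (fun D => η 0 D * ∏ j, ω' j D)
        (fun i D => η 0 D * ∏ j, Ω i j D) :
          Fin (n + 1) → (Fin n → Derivation ℂ K K) → K) l.succ E /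
        (Fin.cons (fun D => η 0 D * ∏ j, ω' j D)
        (fun i D => η 0 D * ∏ j, Ω i j D) :
          Fin (n + 1) → (Fin n → Derivation ℂ K K) → K) 0 E) =
        (Subtype.val : u → K) ∘ e := by
      funext l
      rw [Fin.cons_succ, Fin.cons_zero]
      change (η 0 E * ∏ j, Ω l j E) / (η 0 E * ∏ j, ω' j E) = ((e l : u) : K)
      rw [hratio l]
      field_simp
    rw [h1]
    exact hu.1.comp e e.injective

/-- the tensor of a form -/
theorem tensor_of_form (hn : Algebra.trdeg ℂ K = n) [Algebra.EssFiniteType ℂ K] (hn1 : 1 ≤ n)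
    {k : ℕ} (hk : 1 ≤ k) {ω : (Fin n → Derivation ℂ K K) → K}
    (hω : PairSec ℂ K n (fun _ => 0) {1} k 0 ω) (h0 : ∃ D, ω D ≠ 0) :
    ∃ m, 1 ≤ m ∧ ∃ T : MultilinearMap K (fun _ : Fin m => Derivation ℂ K K) K,
      TensorOrb n (fun _ => 0) T ∧ T ≠ 0 := by
  classical
  obtain ⟨x, E, hx, hE⟩ := exists_crd hn
  let p : Fin (k * n) → Fin k × Fin n := finProdFinEquiv.symm
  let T : MultilinearMap K (fun _ : Fin (k * n) => Derivation ℂ K K) K :=
    ∑ σ : Fin k → Equiv.Perm (Fin n), (ω E * ∏ b, ((Equiv.Perm.sign (σ b) : ℤ) : K)) •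
      (MultilinearMap.mkPiAlgebra K (Fin (k * n)) K).compLinearMap
        fun s => evD (x (σ (p s).1 (p s).2))
  have hT : ∀ D : Fin (k * n) → Derivation ℂ K K, T D = ω E * ∏ b : Fin k,
      (Matrix.of fun i j => D (finProdFinEquiv (b, i)) (x j)).det := by
    intro D
    have h1 : T D = ∑ σ : Fin k → Equiv.Perm (Fin n),
        (ω E * ∏ b, ((Equiv.Perm.sign (σ b) : ℤ) : K)) *
          ∏ s, D s (x (σ (p s).1 (p s).2)) := by
      change (∑ σ : Fin k → Equiv.Perm (Fin n), (ω E * ∏ b, ((Equiv.Perm.sign (σ b) : ℤ) : K)) •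
        (MultilinearMap.mkPiAlgebra K (Fin (k * n)) K).compLinearMap
          fun s => evD (x (σ (p s).1 (p s).2))) D = _
      rw [sum_apply]
      refine Finset.sum_congr rfl fun σ _ => ?_
      rw [smul_apply, smul_eq_mul, MultilinearMap.compLinearMap_apply,
        MultilinearMap.mkPiAlgebra_apply]
      rfl
    have h2 : ∀ σ : Fin k → Equiv.Perm (Fin n), ∏ s, D s (x (σ (p s).1 (p s).2)) =
        ∏ b : Fin k, ∏ i : Fin n, D (finProdFinEquiv (b, i)) (x (σ b i)) := by
      intro σ
      rw [← Fintype.prod_prod_type' (fun (b : Fin k) (i : Fin n) =>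
        D (finProdFinEquiv (b, i)) (x (σ b i)))]
      refine (Fintype.prod_equiv finProdFinEquiv _ _ fun q => ?_).symm
      have h3 : p (finProdFinEquiv q) = q := Equiv.symm_apply_apply _ _
      rw [h3]
    have h3 : ∀ b : Fin k, (Matrix.of fun i j => D (finProdFinEquiv (b, i)) (x j)).det =
        ∑ σ : Equiv.Perm (Fin n), ((Equiv.Perm.sign σ : ℤ) : K) *
          ∏ i, D (finProdFinEquiv (b, i)) (x (σ i)) := by
      intro b
      rw [← Matrix.det_transpose, Matrix.det_apply']
      rfl
    rw [h1]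
    simp only [h3]
    rw [Finset.prod_univ_sum, Fintype.piFinset_univ, Finset.mul_sum]
    refine Finset.sum_congr rfl fun σ _ => ?_
    rw [h2 σ, Finset.prod_mul_distrib, mul_assoc]
  have hωE : ω E ≠ 0 := by
    intro h
    obtain ⟨D, hD⟩ := h0
    have h1 := pluri_coord hx hE hω.1 D
    rw [h, mul_zero] at h1
    exact hD h1
  refine ⟨k * n, Nat.one_le_iff_ne_zero.2 (Nat.mul_ne_zero (by omega) (by omega)), T, ?_, ?_⟩
  · intro v hv D S hD _
    obtain ⟨z, F, i0, hl⟩ := exists_loc hn hv
    have h1 : T D = ω F * ∏ b : Fin k,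
        (Matrix.of fun i j => D (finProdFinEquiv (b, i)) (z j)).det := by
      rw [hT]
      have h2 : ∀ b : Fin k, (Matrix.of fun i j => D (finProdFinEquiv (b, i)) (x j)).det =
          (Matrix.of fun i j => D (finProdFinEquiv (b, i)) (z j)).det *
            (Matrix.of fun i j => F i (x j)).det := by
        intro b
        rw [← Matrix.det_mul]
        congr 1
        ext i j
        rw [Matrix.mul_apply, Matrix.of_apply]
        have h3 := (Pool.Agent.W73.PG.PULL.expand z hl.bas F hl.dual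
          (D (finProdFinEquiv (b, i)))).symm
        conv_lhs => rw [h3]
        rw [sum_smul_apply]
        rfl
      simp only [h2]
      rw [Finset.prod_mul_distrib, Finset.prod_const, Finset.card_univ, Fintype.card_fin,
        pluri_coord hx hE hω.1 F]
      ring
    have h2 : Ge v 0 (∏ b : Fin k,
        (Matrix.of fun i j => D (finProdFinEquiv (b, i)) (z j)).det) := by
      have h3 : ∀ s : Finset (Fin k), Ge v 0 (∏ b ∈ s,
          (Matrix.of fun i j => D (finProdFinEquiv (b, i)) (z j)).det) := by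
        intro s
        induction s using Finset.induction_on with
        | empty =>
          rw [Finset.prod_empty]
          exact v.reg_one
        | insert a s ha ih =>
          rw [Finset.prod_insert ha]
          have h4 : Ge v 0 (Matrix.of fun i j => D (finProdFinEquiv (a, i)) (z j)).det := by
            refine ge_det v _ 0 (fun _ _ => 0) (fun i j => ?_) fun σ => ?_
            · exact hD _ _ (hl.reg j)
            · simp
          have h5 := h4.mul ih
          simpa using h5
      exact h3 _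
    have h3 := (psec_ge hω hv (D := F) hl.pres).mul h2
    rw [← h1] at h3
    rcases h3 with h3 | h3
    · exact Or.inl h3
    · right
      have h4 : (0 : ℝ) ≤ (v.ord (T D) : ℝ) := by
        have h5 : (0 : ℤ) ≤ v.ord (T D) := by simpa using h3
        exact_mod_cast h5
      simpa using h4
  · intro h
    have h1 := hT fun s => E (p s).2
    have h2 : ∀ b : Fin k, (Matrix.of fun i j => E (p (finProdFinEquiv (b, i))).2 (x j)).det =
        (1 : K) := by
      intro b
      have h3 : (Matrix.of fun i j => E (p (finProdFinEquiv (b, i))).2 (x j)) =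
          (1 : Matrix (Fin n) (Fin n) K) := by
        ext i j
        have h4 : p (finProdFinEquiv (b, i)) = (b, i) := Equiv.symm_apply_apply _ _
        rw [Matrix.of_apply, h4, hE, Matrix.one_apply]
      rw [h3, Matrix.det_one]
    simp only [h2] at h1
    rw [Finset.prod_const_one, mul_one, h] at h1
    exact hωE h1.symm

end

end Pool.Agent.H897
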