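import Pool.Agent.H897.LD

/-!
The functions which are constant on the rational curves of all covering families.
-/

set_option autoImplicit false
set_option linter.overlappingInstances false
set_option linter.unusedSectionVars false

open MvPolynomial FF Pool.Agent.W602.GT Pool.Agent.Y172 Pool.Agent.NH31 Pool.Agent.W603.LV
open Pool.Agent.N133.TB Pool.Agent.Y174 Pool.Agent.TH466.QG Pool.Agent.W619.PQ
open Pool.Agent.N133.OB Pool.Agent.Y191

namespace Pool.Agent.H897

section

variable {K : Type} [Field K] [Algebra ℂ K] {n m : ℕ}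

/-- The field of the rational functions on `X` which are constant on the rational curves of all
covering families: a covering family of rational curves is a dominant, generically finite rational
map `P¹ × Z ⇢ X`, that is an embedding `ψ` of `K` into the rational function field `M(t)` over the
function field `M` of a variety `Z` of dimension `n - 1`; the condition is `ψ f ∈ M` for all `ψ`. -/
noncomputable def curveConst (K : Type) [Field K] [Algebra ℂ K] (n : ℕ) :
    IntermediateField ℂ K where
  carrier := {f | ∀ (M : Type) [Field M] [Algebra ℂ M], Algebra.EssFiniteType ℂ M →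
    Algebra.trdeg ℂ M + 1 = n → ∀ ψ : K →ₐ[ℂ] RatFunc M, ∃ c : M, ψ f = RatFunc.C c}
  mul_mem' {a b} ha hb := by
    intro M _ _ h1 h2 ψ
    obtain ⟨c, hc⟩ := ha M h1 h2 ψ
    obtain ⟨c', hc'⟩ := hb M h1 h2 ψ
    exact ⟨c * c', by rw [map_mul, map_mul, hc, hc']⟩
  add_mem' {a b} ha hb := by
    intro M _ _ h1 h2 ψ
    obtain ⟨c, hc⟩ := ha M h1 h2 ψ
    obtain ⟨c', hc'⟩ := hb M h1 h2 ψ
    exact ⟨c + c', by rw [map_add, map_add, hc, hc']⟩
  algebraMap_mem' z := by
    intro M _ _ h1 h2 ψ
    refine ⟨algebraMap ℂ M z, ?_⟩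
    rw [ψ.commutes, IsScalarTower.algebraMap_apply ℂ M (RatFunc M), RatFunc.algebraMap_eq_C]
  inv_mem' a ha := by
    intro M _ _ h1 h2 ψ
    obtain ⟨c, hc⟩ := ha M h1 h2 ψ
    exact ⟨c⁻¹, by rw [map_inv₀, map_inv₀, hc]⟩

/-- `X` is connected by the rational curves of the covering families: the rational functions which
are constant on the curves of all covering families of rational curves are constant. -/
def CurveConnected (K : Type) [Field K] [Algebra ℂ K] (n : ℕ) : Prop :=
  ∀ f ∈ curveConst K n, ∃ z : ℂ, f = algebraMap ℂ K z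

theorem curveConst_map (φ : K →ₐ[ℂ] K) {f : K} (hf : f ∈ curveConst K n) :
    φ f ∈ curveConst K n := by
  intro M _ _ h1 h2 ψ
  exact hf M h1 h2 (ψ.comp φ)

/-- the vector fields which vanish on an invariant subfield -/
def killD (I : IntermediateField ℂ K) : Submodule K (Derivation ℂ K K) where
  carrier := {D | ∀ f ∈ I, D f = 0}
  add_mem' {D D'} hD hD' f hf := by
    change D f + D' f = 0
    rw [hD f hf, hD' f hf, add_zero]
  zero_mem' _ _ := rfl
  smul_mem' c D hD f hf := by
    change c • D f = 0
    rw [hD f hf, smul_zero]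

theorem killD_inv (hess : Algebra.EssFiniteType ℂ K) (hn : Algebra.trdeg ℂ K = n)
    {I : IntermediateField ℂ K} (hI : ∀ (φ : K →ₐ[ℂ] K), ∀ x ∈ I, φ x ∈ I) :
    SelfInv (killD I) := by
  classical
  refine selfInv_of hess hn fun φ D D' hkill hD' => ?_
  have hmap := hI φ
  let ψ : I →ₐ[ℂ] I :=
    { toFun := fun x => ⟨φ x, hmap x x.2⟩
      map_one' := Subtype.ext (map_one φ)
      map_mul' := fun a b => Subtype.ext (map_mul φ _ _)
      map_zero' := Subtype.ext (map_zero φ)
      map_add' := fun a b => Subtype.ext (map_add φ _ _)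
      commutes' := fun c => Subtype.ext (φ.commutes c) }
  have hψ : Function.Injective ψ := ψ.toRingHom.injective
  have htr : Algebra.trdeg ℂ I ≤ n := by
    rw [← hn]
    exact trdeg_le_of_injective I.val I.val.toRingHom.injective
  obtain ⟨ι, t, ht⟩ := exists_isTranscendenceBasis' ℂ I
  have hcard : Cardinal.mk ι = Algebra.trdeg ℂ I := ht.cardinalMk_eq_trdeg
  have hfin : Finite ι := by
    rw [← Cardinal.lt_aleph0_iff_finite, hcard]
    exact htr.trans_lt (Cardinal.natCast_lt_aleph0)
  have h1 : AlgebraicIndependent ℂ (ψ ∘ t) := ht.1.map' (f := ψ) hψ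
  have h2 : IsTranscendenceBasis ℂ (ψ ∘ t) := h1.isTranscendenceBasis_of_trdeg_le_of_finite (by
    rw [hcard])
  have h3 : Algebra.IsAlgebraic (IntermediateField.adjoin ℂ (Set.range (ψ ∘ t))) I :=
    h2.isAlgebraic_field
  let J : IntermediateField ℂ K :=
    IntermediateField.adjoin ℂ (Set.range fun i => φ (t i : K))
  have hJ : Kills D' J := kills_adjoin (by
    rintro _ ⟨i, rfl⟩
    change D' (φ (t i : K)) = 0
    rw [hD' (t i : K), hkill _ (t i).2, map_zero])
  intro f hfI
  have h4 := h3.isAlgebraic ⟨f, hfI⟩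
  have h5 : IsAlgebraic (IntermediateField.adjoin ℂ (Set.range (ψ ∘ t))) f := by
    have h6 := h4.algebraMap (A := K)
    exact h6
  have hmem : ∀ a : IntermediateField.adjoin ℂ (Set.range (ψ ∘ t)), ((a : I) : K) ∈ J := by
    intro a
    have h6 : IntermediateField.adjoin ℂ (Set.range (ψ ∘ t)) ≤ J.comap I.val := by
      rw [IntermediateField.adjoin_le_iff]
      rintro _ ⟨i, rfl⟩
      exact IntermediateField.subset_adjoin ℂ _ ⟨i, rfl⟩
    exact h6 a.2
  let χ : IntermediateField.adjoin ℂ (Set.range (ψ ∘ t)) →+* J :=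
    { toFun := fun a => ⟨((a : I) : K), hmem a⟩
      map_one' := rfl
      map_mul' := fun a b => rfl
      map_zero' := rfl
      map_add' := fun a b => rfl }
  exact kills_alg hJ (Pool.Agent.N133.TB.alg_mono χ χ.injective (fun a => rfl) h5)

/-- if no vector field vanishes on the subfield, it has the same transcendence degree -/
theorem trdeg_of_bot (hn : Algebra.trdeg ℂ K = n) {I : IntermediateField ℂ K}
    (h : killD I = ⊥) : Algebra.trdeg ℂ I = n := by
  classical
  have hcz : CharZero K := charZero_of_injective_algebraMap (algebraMap ℂ K).injective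
  have halg : Algebra.IsAlgebraic I K := by
    refine ⟨fun z => ?_⟩
    by_contra hz
    have h1 : AlgebraicIndependent I (fun _ : Unit => z) := by
      rw [algebraicIndependent_unique_type_iff]
      exact hz
    obtain ⟨D, h2, h3⟩ := exists_der_ind h1 fun _ => 1
    have h4 : D ∈ killD I := fun f hf => h2 f hf
    rw [h, Submodule.mem_bot] at h4
    have h5 := h3 ()
    rw [h4] at h5
    exact zero_ne_one h5
  rw [← hn]
  have h1 := trdeg_add_eq ℂ I (A := K)
  have h2 : Algebra.trdeg I K = 0 := trdeg_eq_zero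
  rw [← h1, h2, add_zero]

/-- **The uniruled varieties have functions which are not constant on the covering families.** -/
theorem not_uniruled_of_bot (hn : Algebra.trdeg ℂ K = n) (h : killD (curveConst K n) = ⊥) :
    ¬ IsUniruled ℂ K n := by
  rintro ⟨M, _, _, hM, htr, ⟨ψ⟩⟩
  have h1 := trdeg_of_bot hn h
  choose c hc using fun f : curveConst K n => f.2 M hM htr ψ
  have hinj : Function.Injective (RatFunc.C : M →+* RatFunc M) := RatFunc.C_injective
  let χ : curveConst K n →ₐ[ℂ] M :=
    { toFun := c
      map_one' := hinj (by rw [← hc, map_one]; exact map_one ψ)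
      map_mul' := fun a b => hinj (by rw [← hc, map_mul, ← hc, ← hc]; exact map_mul ψ _ _)
      map_zero' := hinj (by rw [← hc, map_zero]; exact map_zero ψ)
      map_add' := fun a b => hinj (by rw [← hc, map_add, ← hc, ← hc]; exact map_add ψ _ _)
      commutes' := fun z => hinj (by
        rw [← hc]
        change ψ (algebraMap ℂ K z) = _
        rw [ψ.commutes, IsScalarTower.algebraMap_apply ℂ M (RatFunc M), RatFunc.algebraMap_eq_C]) }
  have h2 := trdeg_le_of_injective χ χ.toRingHom.injective
  rw [h1] at h2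
  have h3 : Algebra.trdeg ℂ M < n := by
    rw [← htr]
    have h4 : Algebra.trdeg ℂ M < Cardinal.aleph0 := by
      have h5 : Algebra.trdeg ℂ M ≤ n := by
        rw [← htr]
        exact self_le_add_right _ _
      exact h5.trans_lt Cardinal.natCast_lt_aleph0
    obtain ⟨r, hr⟩ := Cardinal.lt_aleph0.1 h4
    rw [hr]
    exact_mod_cast Nat.lt_succ_self r
  exact absurd h2 (not_le.2 h3)

theorem connected_of_top (h : killD (curveConst K n) = ⊤) : CurveConnected K n := by
  intro f hf
  refine const_of_all_der fun D => ?_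
  have h1 : D ∈ killD (curveConst K n) := by
    rw [h]
    exact Submodule.mem_top
  exact h1 f hf

theorem uniruled_of_connected (hn : Algebra.trdeg ℂ K = n) (hn1 : 1 ≤ n)
    (h : CurveConnected K n) : IsUniruled ℂ K n := by
  by_contra hcon
  have h1 : ∀ f : K, ∃ z : ℂ, f = algebraMap ℂ K z := fun f => h f (by
    intro M _ _ h2 h3 ψ
    exact absurd ⟨M, inferInstance, inferInstance, h2, h3, ⟨ψ⟩⟩ hcon)
  obtain ⟨x, E, hx, hE⟩ := exists_crd hn
  obtain ⟨z, hz⟩ := h1 (x ⟨0, hn1⟩)
  have h2 := hx.1.transcendental ⟨0, hn1⟩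
  apply h2
  rw [hz]
  exact isAlgebraic_algebraMap z

end

end Pool.Agent.H897
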