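import Pool.Agent.H897.JJ

/-!
Tensors with values in a divisor which spans the classes of degree zero.
-/

set_option autoImplicit false
set_option linter.overlappingInstances false
set_option linter.unusedSectionVars false

open MvPolynomial FF Pool.Agent.W602.GT Pool.Agent.Y172 Pool.Agent.NH31 Pool.Agent.W603.LV
open Pool.Agent.N133.TB Pool.Agent.Y174 Pool.Agent.TH466.QG Pool.Agent.W619.PQ
open Pool.Agent.N133.OB Pool.Agent.Y191

namespace Pool.Agent.H897

section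

variable {K : Type} [Field K] [Algebra ℂ K] {N n : ℕ} {y : Fin (N + 1) → K}

/-- The `ℚ`-divisor `D` is `ℚ`-effective: for some `N ≥ 1` the divisor `N D` is linearly equivalent
to an effective divisor. -/
def QEff (y : Fin (N + 1) → K) (D : Place ℂ K → ℚ) : Prop :=
  ∃ (M : ℕ) (g : K), 1 ≤ M ∧ g ≠ 0 ∧ ∀ P, IsPrimeDivisor y P → 0 ≤ (P.ord g : ℚ) + M * D P

/-- The divisor with the coefficients `e P` is `ℚ`-linearly equivalent to `0`. -/
def QPrin (y : Fin (N + 1) → K) (e : Place ℂ K → ℝ) : Prop :=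
  ∃ (M : ℕ) (g : K), 1 ≤ M ∧ g ≠ 0 ∧ ∀ P, IsPrimeDivisor y P → (M : ℝ) * e P = P.ord g

theorem QPrin.add {e e' : Place ℂ K → ℝ} (h : QPrin y e) (h' : QPrin y e') :
    QPrin y (fun P => e P + e' P) := by
  obtain ⟨M, g, hM, hg, h1⟩ := h
  obtain ⟨M', g', hM', hg', h2⟩ := h'
  refine ⟨M * M', g ^ M' * g' ^ M, Nat.mul_pos hM hM', mul_ne_zero (pow_ne_zero _ hg)
    (pow_ne_zero _ hg'), fun P hP => ?_⟩
  rw [P.ord_mul (pow_ne_zero _ hg) (pow_ne_zero _ hg'), P.ord_pow, P.ord_pow]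
  push_cast
  rw [← h1 P hP, ← h2 P hP]
  ring

theorem QPrin.smul {e : Place ℂ K → ℝ} (c : ℚ) (h : QPrin y e) :
    QPrin y (fun P => c * e P) := by
  obtain ⟨M, g, hM, hg, h1⟩ := h
  have hz : ∀ (u : ℤ) (P : Place ℂ K), P.ord (g ^ u) = u * P.ord g := by
    intro u P
    rcases Int.eq_nat_or_neg u with ⟨k, rfl | rfl⟩
    · rw [zpow_natCast, P.ord_pow]
    · rw [zpow_neg, zpow_natCast, P.ord_inv, P.ord_pow]
      ring
  refine ⟨M * c.den, g ^ c.num, Nat.mul_pos hM c.den_pos, zpow_ne_zero _ hg, fun P hP => ?_⟩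
  rw [hz]
  push_cast
  rw [← h1 P hP]
  have h2 : (c.den : ℝ) * (c : ℝ) = c.num := by
    have h3 : (c.den : ℚ) * c = c.num := by
      rw [mul_comm]
      exact Rat.mul_den_eq_num c
    exact_mod_cast h3
  rw [← h2]
  ring

theorem qprin_zero : QPrin y (fun _ => 0) :=
  ⟨1, 1, le_rfl, one_ne_zero, fun P _ => by rw [P.ord_one]; simp⟩

theorem QPrin.congr {e e' : Place ℂ K → ℝ} (h : QPrin y e)
    (he : ∀ P, IsPrimeDivisor y P → e P = e' P) : QPrin y e' := by
  obtain ⟨M, g, hM, hg, h1⟩ := h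
  exact ⟨M, g, hM, hg, fun P hP => by rw [← he P hP]; exact h1 P hP⟩

theorem qprin_sum {ι : Type} (S : Finset ι) {e : ι → Place ℂ K → ℝ}
    (h : ∀ i ∈ S, QPrin y (e i)) : QPrin y (fun P => ∑ i ∈ S, e i P) := by
  classical
  induction S using Finset.induction_on with
  | empty => exact qprin_zero.congr fun P _ => by rw [Finset.sum_empty]
  | insert a S ha ih =>
    refine ((h a (Finset.mem_insert_self _ _)).add
      (ih fun i hi => h i (Finset.mem_insert_of_mem hi))).congr fun P _ => ?_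
    rw [Finset.sum_insert ha]

/-- The determinant of the subsheaf of the orbifold tangent sheaf with the generic fibre `F` is
`ℚ`-linearly equivalent to `b L`: here `D` is a basis of `F`, and `e` is the order of
`D 0 ∧ ⋯ ∧ D (q - 1)` along `P`. -/
def DetMultiple (y : Fin (N + 1) → K) (n : ℕ) (Δ L : Place ℂ K → ℚ)
    (F : Submodule K (Derivation ℂ K K)) (b : ℚ) : Prop :=
  ∃ (q : ℕ) (D : Fin q → Derivation ℂ K K) (M : ℕ) (g : K), LinearIndependent K D ∧
    Submodule.span K (Set.range D) = F ∧ 1 ≤ M ∧ g ≠ 0 ∧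
    ∀ P, IsPrimeDivisor y P → ∀ e : ℝ, WedgeOrd n (Δ P) P D e →
      (M : ℝ) * (e - b * L P) = P.ord g

theorem det_basis {Δ L : Place ℂ K → ℚ} {F : Submodule K (Derivation ℂ K K)} {b : ℚ}
    (h : DetMultiple y n Δ L F b) {t : ℕ} {B : Fin t → Derivation ℂ K K}
    (hB : LinearIndependent K B) (hBF : Submodule.span K (Set.range B) = F)
    {e : Place ℂ K → ℝ} (he : ∀ P, IsPrimeDivisor y P → WedgeOrd n (Δ P) P B (e P)) :
    QPrin y (fun P => e P - b * L P) := by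
  obtain ⟨q, D, M, g, hD, hDF, hM, hg, h1⟩ := h
  obtain rfl : q = t := by
    rw [← card_of_span hD hDF, ← card_of_span hB hBF]
  obtain ⟨A, hA, hDA⟩ := basis_change (B := B) hD (hDF.trans hBF.symm)
  refine ⟨M, g * (A.det ^ M)⁻¹, hM, mul_ne_zero hg (inv_ne_zero (pow_ne_zero _ hA)),
    fun P hP => ?_⟩
  have h2 := h1 P hP _ (wedge_change hA hDA (he P hP))
  rw [P.ord_mul hg (inv_ne_zero (pow_ne_zero _ hA)), P.ord_inv, P.ord_pow]
  push_cast
  rw [← h2]
  ring

/-- **The effective multiple.** -/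
theorem mixed_mult (hy : NormalModel y) (hn : Algebra.trdeg ℂ K = n) {Δ : Place ℂ K → ℚ}
    (hΔ : Boundary y Δ) {L L' : Place ℂ K → ℚ} {k m : ℕ}
    {W V : Fin k → Submodule K (Derivation ℂ K K)} {bW bV : Fin k → ℚ}
    (hW : ∀ i, DetMultiple y n Δ L (W i) (bW i)) (hV : ∀ i, DetMultiple y n Δ L (V i) (bV i))
    {J : Fin m → Fin k} {a : ℚ} (hL' : ∀ P, IsPrimeDivisor y P → L' P = a * L P)
    (h : MixedEff y n Δ W V J L') :
    QEff y (fun P => (a - ∑ s, (bV (J s) - bW (J s)) /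
      ((Module.finrank K (V (J s)) : ℚ) - Module.finrank K (W (J s)))) * L P) := by
  classical
  obtain ⟨q, t, DW, DV, hD, N0, g, hN0, hg, h1⟩ := h
  choose eW heW _ using fun i => wedge_fun hy hn hΔ.2 (hD i).1
  choose eV heV _ using fun i => wedge_fun hy hn hΔ.2 (hD i).2.1
  have hfW : ∀ i, Module.finrank K (W i) = q i := fun i =>
    card_of_span (hD i).1 (hD i).2.2.1
  have hfV : ∀ i, Module.finrank K (V i) = t i := fun i =>
    card_of_span (hD i).2.1 (hD i).2.2.2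
  have hpW : ∀ i, QPrin y (fun P => eW i P - bW i * L P) := fun i =>
    det_basis (hW i) (hD i).1 (hD i).2.2.1 (heW i)
  have hpV : ∀ i, QPrin y (fun P => eV i P - bV i * L P) := fun i =>
    det_basis (hV i) (hD i).2.1 (hD i).2.2.2 (heV i)
  have hp : QPrin y (fun P => ∑ s, ((t (J s) : ℚ) - q (J s) : ℚ)⁻¹ *
      ((eV (J s) P - bV (J s) * L P) + ((-1 : ℚ) : ℝ) * (eW (J s) P - bW (J s) * L P))) := by
    refine (qprin_sum Finset.univ (e := fun s P => (((t (J s) : ℚ) - q (J s) : ℚ)⁻¹ : ℚ) *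
      ((eV (J s) P - bV (J s) * L P) + ((-1 : ℚ) : ℝ) * (eW (J s) P - bW (J s) * L P)))
      fun s _ => ?_).congr fun P _ => by push_cast; rfl
    exact ((hpV (J s)).add ((hpW (J s)).smul (-1))).smul _
  obtain ⟨M, g1, hM, hg1, h2⟩ := hp
  refine ⟨N0 * M, g ^ M * (g1 ^ N0)⁻¹, Nat.mul_pos hN0 hM,
    mul_ne_zero (pow_ne_zero _ hg) (inv_ne_zero (pow_ne_zero _ hg1)), fun P hP => ?_⟩
  have h3 := h1 P hP (fun i => eW i P) (fun i => eV i P) (fun i => heW i P hP)
    (fun i => heV i P hP)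
  have h4 := h2 P hP
  rw [P.ord_mul (pow_ne_zero _ hg) (inv_ne_zero (pow_ne_zero _ hg1)), P.ord_inv, P.ord_pow,
    P.ord_pow]
  have h5 : (0 : ℝ) ≤ ((M * P.ord g + -(N0 * P.ord g1) : ℤ) : ℝ) + (N0 * M : ℕ) *
      (((a - ∑ s, (bV (J s) - bW (J s)) /
      ((Module.finrank K (V (J s)) : ℚ) - Module.finrank K (W (J s)))) * L P : ℚ) : ℝ) := by
    push_cast
    rw [← h4]
    simp only [hfW, hfV]
    rw [hL' P hP] at h3
    have h6 := mul_le_mul_of_nonneg_left h3 (Nat.cast_nonneg (α := ℝ) M)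
    have h7 : ∑ s, (eV (J s) P - eW (J s) P) / ((t (J s) : ℝ) - q (J s)) =
        ∑ s, ((t (J s) : ℝ) - q (J s))⁻¹ *
          ((eV (J s) P - bV (J s) * L P) + (-1) * (eW (J s) P - bW (J s) * L P)) +
        (∑ s, ((bV (J s) : ℝ) - bW (J s)) / ((t (J s) : ℝ) - q (J s))) * L P := by
      rw [Finset.sum_mul, ← Finset.sum_add_distrib]
      refine Finset.sum_congr rfl fun s _ => ?_
      ring
    rw [h7] at h6
    push_cast at h6 ⊢
    nlinarith [h6]
  exact_mod_cast h5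

/-- positive multiples -/
theorem QEff.of_pos {L : Place ℂ K → ℚ} {c : ℚ} (hc : 0 < c) (h : QEff y (fun P => c * L P)) :
    QEff y L := by
  obtain ⟨M, g, hM, hg, h1⟩ := h
  have hnum : 0 < c.num := Rat.num_pos.2 hc
  refine ⟨M * c.num.toNat, g ^ c.den, Nat.mul_pos hM (by omega), pow_ne_zero _ hg, fun P hP => ?_⟩
  have h2 := h1 P hP
  rw [P.ord_pow]
  have h3 : ((c.num.toNat : ℕ) : ℚ) = c.den * c := by
    have h4 : ((c.num.toNat : ℕ) : ℤ) = c.num := Int.toNat_of_nonneg hnum.le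
    have h5 : ((c.num.toNat : ℕ) : ℚ) = (c.num : ℚ) := by exact_mod_cast h4
    rw [h5, mul_comm]
    exact (Rat.mul_den_eq_num c).symm
  push_cast
  rw [h3]
  have h4 := mul_le_mul_of_nonneg_left h2 (Nat.cast_nonneg (α := ℚ) c.den)
  rw [mul_zero] at h4
  calc (0 : ℚ) ≤ c.den * ((P.ord g : ℚ) + M * (c * L P)) := h4
    _ = _ := by ring

end

end Pool.Agent.H897
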