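import Pool.Agent.H897.MA

/-!
Tensors with values in a divisor which spans the classes of degree zero: the main theorem.
-/

set_option autoImplicit false
set_option linter.overlappingInstances false
set_option linter.unusedSectionVars false

open MvPolynomial FF Pool.Agent.W602.GT Pool.Agent.Y172 Pool.Agent.NH31 Pool.Agent.W603.LV
open Pool.Agent.N133.TB Pool.Agent.Y174 Pool.Agent.TH466.QG Pool.Agent.W619.PQ
open Pool.Agent.N133.OB Pool.Agent.Y191

namespace Pool.Agent.H897

section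

variable {K : Type} [Field K] [Algebra ℂ K] {N n : ℕ} {y : Fin (N + 1) → K}

/-- The slope of `V (i + 1) / V i` in terms of `L`: the rational number `β` for which the
determinant of `V (i + 1) / V i` is `r β L`, `r` the rank, if the determinants of the `V i` are
`b i L`. -/
noncomputable def slopeL (V : ℕ → Submodule K (Derivation ℂ K K)) (b : ℕ → ℚ) (i : ℕ) : ℚ :=
  (b (i + 1) - b i) / ((Module.finrank K (V (i + 1)) : ℚ) - Module.finrank K (V i))

/-- a `ℚ`-principal divisor has the degree `0` -/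
theorem QPrin.deg {α : Place ℂ K → ℝ} (hα : MovableClass y α) {e : Place ℂ K → ℝ}
    (h : QPrin y e) : HasDeg y α e 0 := by
  obtain ⟨M, g, hM, hg, h1⟩ := h
  have hM0 : (M : ℝ) ≠ 0 := by
    have : 0 < M := hM
    positivity
  have h2 := HasDeg.smul ((M : ℝ)⁻¹) (hα.prin g hg)
  rw [mul_zero] at h2
  refine h2.congr fun P hP => ?_
  rw [← h1 P hP, ← mul_assoc, inv_mul_cancel₀ hM0, one_mul]

/-- the degree of a multiple of `L` -/
theorem det_deg {Δ : Place ℂ K → ℚ} {α : Place ℂ K → ℝ} (hα : MovableClass y α) {L : Place ℂ K → ℚ}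
    {lam : ℝ} (hL : HasDeg y α (fun P => L P) lam) {F : Submodule K (Derivation ℂ K K)} {b : ℚ}
    (h : DetMultiple y n Δ L F b) {d : ℝ} (hd : SubDeg y n Δ α F d) : d = b * lam := by
  obtain ⟨t, B, e, hB, hBF, he, hdeg⟩ := hd
  have h1 := (det_basis h hB hBF he).deg hα
  have h2 := h1.add (HasDeg.smul (b : ℝ) hL)
  have h3 : HasDeg y α e (0 + b * lam) := h2.congr fun P _ => by ring
  rw [zero_add] at h3
  exact hdeg.unique h3

/-- the multiples are not positive -/
theorem det_nonpos (hy : NormalModel y) (hn : Algebra.trdeg ℂ K = n) (hn1 : 1 ≤ n)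
    {Δ : Place ℂ K → ℚ} (hΔ : Boundary y Δ) {α : Place ℂ K → ℝ} (hα : MovableClass y α)
    (hc : LogDegree y n Δ α 0) (hss : SemistableTangent y n Δ α 0) {L : Place ℂ K → ℚ}
    {lam : ℝ} (hL : HasDeg y α (fun P => L P) lam) (hlam : 0 < lam)
    {F : Submodule K (Derivation ℂ K K)} {b : ℚ} (h : DetMultiple y n Δ L F b) :
    b ≤ 0 ∧ (F = ⊥ → b = 0) ∧ (F = ⊤ → b = 0) := by
  obtain ⟨d, hd⟩ := subDeg_exists hy hn hΔ α F
  have h1 := det_deg hα hL h hd
  have hz : d = 0 → b = 0 := by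
    intro h0
    rw [h0] at h1
    have h2 : (b : ℝ) = 0 := (mul_eq_zero.1 h1.symm).resolve_right hlam.ne'
    exact_mod_cast h2
  refine ⟨?_, fun hF => ?_, fun hF => ?_⟩
  · have h2 := hss F d hd
    rw [mul_zero, neg_zero] at h2
    have hn0 : (0 : ℝ) < n := by exact_mod_cast hn1
    have h3 : d ≤ 0 := by
      by_contra hcon
      push Not at hcon
      have := mul_pos hn0 hcon
      linarith
    rw [h1] at h3
    have h4 : (b : ℝ) ≤ 0 := by
      by_contra hcon
      push Not at hcon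
      have := mul_pos hcon hlam
      linarith
    exact_mod_cast h4
  · subst hF
    exact hz (subDeg_bot hd)
  · subst hF
    refine hz ?_
    rw [subDeg_top hy hn hΔ hα hc hd, neg_zero]

/-- a divisor of negative degree is not effective -/
theorem not_qeff {α : Place ℂ K → ℝ} (hα : MovableClass y α) {L : Place ℂ K → ℚ} {lam : ℝ}
    (hL : HasDeg y α (fun P => L P) lam) (hlam : lam < 0) : ¬ QEff y L := by
  rintro ⟨M, g, hM, hg, h1⟩
  have h2 := (hα.prin g hg).add (HasDeg.smul (M : ℝ) hL)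
  have h3 := h2.nonneg hα.nonneg (fun P hP => by
    have h4 : (0 : ℝ) ≤ (((P.ord g : ℚ) + M * L P : ℚ) : ℝ) := by exact_mod_cast h1 P hP
    push_cast at h4
    exact h4)
  have hM0 : (0 : ℝ) < M := by exact_mod_cast hM
  have h5 := mul_neg_of_pos_of_neg hM0 hlam
  linarith

theorem pic_main (hy : NormalModel y) (hn : Algebra.trdeg ℂ K = n) (hn1 : 1 ≤ n)
    {Δ : Place ℂ K → ℚ} (hΔ : Boundary y Δ) {α : Place ℂ K → ℝ} (hα : MovableClass y α)
    (hc : LogDegree y n Δ α 0) (hss : SemistableTangent y n Δ α 0) {L : Place ℂ K → ℚ}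
    (hL : HasDeg y α (fun P => L P) 0)
    (hdet : ∀ F : Submodule K (Derivation ℂ K K), SubDeg y n Δ α F 0 →
      ∃ b, DetMultiple y n Δ L F b) :
    ∃ (k : ℕ) (V : ℕ → Submodule K (Derivation ℂ K K)) (b : ℕ → ℚ), V 0 = ⊥ ∧ V k = ⊤ ∧
      (∀ i, i < k → V i < V (i + 1) ∧ StablePiece y n Δ α (V i) (V (i + 1))) ∧
      (∀ i, i ≤ k → SubDeg y n Δ α (V i) 0 ∧ DetMultiple y n Δ L (V i) (b i)) ∧
      ∀ (m : ℕ) (a : ℚ) (T : MultilinearMap K (fun _ : Fin m => Derivation ℂ K K) K), 1 ≤ m →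
        T ≠ 0 → (∀ P, IsPrimeDivisor y P → TensorAt n (Δ P) (a * L P) P T) →
        (∃ J : Fin m → Fin k, HasType V T J) ∧
        (∀ J : Fin m → Fin k, HasType V T J →
          QEff y (fun P => (a - ∑ s, slopeL V b (J s)) * L P)) ∧
        (∀ β : ℚ, (∀ i, i < k → slopeL V b i ≤ β) → β * m < a → QEff y L) ∧
        (¬ QEff y L → ¬ QEff y (fun P => -L P) →
          ∀ J : Fin m → Fin k, HasType V T J → a = ∑ s, slopeL V b (J s)) ∧
        ∀ (α' : Place ℂ K → ℝ) (lam : ℝ), MovableClass y α' → LogDegree y n Δ α' 0 →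
          SemistableTangent y n Δ α' 0 → HasDeg y α' (fun P => L P) lam → 0 < lam →
          (∀ i, i ≤ k → b i ≤ 0) ∧ (a ≠ 0 → (0 < a ∧ QEff y L) ∨ ∃ i, 0 < i ∧ i < k ∧ b i < 0) := by
  classical
  obtain ⟨hfin, hrk⟩ := fin_der hy hn
  obtain ⟨k, V, hV0, hVk, hV, hVd⟩ := jh_exists hy hn hn1 hΔ hα hc hss
  have hk : 1 ≤ k := by
    rcases Nat.eq_zero_or_pos k with h | h
    · exfalso
      subst h
      have h1 : (⊥ : Submodule K (Derivation ℂ K K)) = ⊤ := hV0.symm.trans hVk
      have h2 : Module.finrank K (⊤ : Submodule K (Derivation ℂ K K)) = 0 := by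
        rw [← h1]
        exact finrank_bot K _
      rw [finrank_top, hrk] at h2
      omega
    · exact h
  have hn0 : (n : ℝ) ≠ 0 := by
    have : 0 < n := hn1
    positivity
  have hV0d : ∀ i, i ≤ k → SubDeg y n Δ α (V i) 0 := by
    intro i hi
    obtain ⟨d, hd⟩ := subDeg_exists hy hn hΔ α (V i)
    have h1 := hVd i hi d hd
    rw [mul_zero, neg_zero] at h1
    have h2 : d = 0 := (mul_eq_zero.1 h1).resolve_left hn0
    rwa [h2] at hd
  have hb : ∀ i, ∃ b : ℚ, i ≤ k → DetMultiple y n Δ L (V i) b := by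
    intro i
    by_cases hi : i ≤ k
    · obtain ⟨b, hb⟩ := hdet _ (hV0d i hi)
      exact ⟨b, fun _ => hb⟩
    · exact ⟨0, fun h => absurd h hi⟩
  choose b hb using hb
  refine ⟨k, V, b, hV0, hVk, hV, fun i hi => ⟨hV0d i hi, hb i hi⟩, fun m a T hm hT hTO => ?_⟩
  obtain ⟨J0, hJ0⟩ := exists_type hV0 hVk hk hT
  have hL' : HasDeg y α (fun P => ((a * L P : ℚ) : ℝ)) 0 := by
    have h1 := HasDeg.smul (a : ℝ) hL
    rw [mul_zero] at h1
    exact h1.congr fun P _ => by push_cast; rfl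
  have heff : ∀ J : Fin m → Fin k, HasType V T J →
      QEff y (fun P => (a - ∑ s, slopeL V b (J s)) * L P) := by
    intro J hJ
    have h1 : MixedEff y n Δ (fun i : Fin k => V i) (fun i : Fin k => V (i + 1)) J
        (fun P => a * L P) :=
      type_eff hy hn hn1 hΔ hα hV hVd hm hL' (by simp) hTO hJ
    exact mixed_mult hy hn hΔ (bW := fun i : Fin k => b i) (bV := fun i : Fin k => b (i + 1))
      (fun i => hb i i.2.le) (fun i => hb (i + 1) i.2) (fun P _ => rfl) h1
  refine ⟨⟨J0, hJ0⟩, heff, fun β hβ ha => ?_, fun h1 h2 J hJ => ?_,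
    fun α' lam hα' hc' hss' hlam hlam0 => ?_⟩
  · refine QEff.of_pos (c := a - ∑ s, slopeL V b (J0 s)) ?_ (heff J0 hJ0)
    have h3 : ∑ s, slopeL V b (J0 s) ≤ ∑ _s : Fin m, β :=
      Finset.sum_le_sum fun s _ => hβ _ (J0 s).2
    rw [Finset.sum_const, Finset.card_univ, Fintype.card_fin, nsmul_eq_mul] at h3
    linarith
  · by_contra hne
    rcases lt_or_gt_of_ne hne with h3 | h3
    · apply h2
      refine QEff.of_pos (c := ∑ s, slopeL V b (J s) - a) (by linarith) ?_
      obtain ⟨M, g, hM, hg, h4⟩ := heff J hJ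
      refine ⟨M, g, hM, hg, fun P hP => ?_⟩
      have h5 := h4 P hP
      calc (0 : ℚ) ≤ _ := h5
        _ = _ := by ring
    · exact h1 (QEff.of_pos (c := a - ∑ s, slopeL V b (J s)) (by linarith) (heff J hJ))
  · have hle : ∀ i, i ≤ k → b i ≤ 0 ∧ (V i = ⊥ → b i = 0) ∧ (V i = ⊤ → b i = 0) := fun i hi =>
      det_nonpos hy hn hn1 hΔ hα' hc' hss' hlam hlam0 (hb i hi)
    refine ⟨fun i hi => (hle i hi).1, fun ha => ?_⟩
    by_contra hcon
    push Not at hcon
    obtain ⟨hcon1, hcon2⟩ := hcon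
    have hz : ∀ i, i ≤ k → b i = 0 := by
      intro i hi
      rcases Nat.eq_zero_or_pos i with h | h
      · subst h
        exact (hle 0 hi).2.1 hV0
      · rcases Nat.lt_or_ge i k with h' | h'
        · exact le_antisymm (hle i hi).1 (hcon2 i h h')
        · obtain rfl : i = k := le_antisymm hi h'
          exact (hle i hi).2.2 hVk
    have hs0 : ∑ s, slopeL V b (J0 s) = 0 := by
      refine Finset.sum_eq_zero fun s _ => ?_
      unfold slopeL
      rw [hz _ (J0 s).2, hz _ (J0 s).2.le, sub_zero, zero_div]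
    have h1 := heff J0 hJ0
    rw [hs0, sub_zero] at h1
    rcases lt_or_gt_of_ne ha with h2 | h2
    · refine not_qeff hα' (L := fun P => a * L P) (lam := a * lam) ?_ ?_ h1
      · exact (HasDeg.smul (a : ℝ) hlam).congr fun P _ => by push_cast; rfl
      · have h3 : (a : ℝ) < 0 := by exact_mod_cast h2
        exact mul_neg_of_neg_of_pos h3 hlam0
    · exact hcon1 h2 (QEff.of_pos h2 h1)

end

end Pool.Agent.H897
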