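import Pool.Agent.H897.LE

/-!
Orbifold tensors and orbifold pluricanonical forms: pull-backs under dominant rational maps, and
distributions which are invariant under the dominant rational self-maps of an orbifold.
-/

set_option autoImplicit false
set_option linter.overlappingInstances false
set_option linter.unusedSectionVars false

open MvPolynomial FF Pool.Agent.W602.GT Pool.Agent.Y172 Pool.Agent.NH31 Pool.Agent.W603.LV
open Pool.Agent.N133.TB Pool.Agent.Y174 Pool.Agent.TH466.QG Pool.Agent.W619.PQ
open Pool.Agent.N133.OB Pool.Agent.Y191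

namespace Pool.Agent.H897

section

variable {L K : Type} [Field L] [Field K] [Algebra ℂ L] [Algebra ℂ K] {n m M : ℕ}

/-- The dominant rational map `φ` is a map of orbifolds, from the multiplicities `δ'` to `δ`: if the
place `w` lies over the place `v` with the ramification index `e` then
`1 - δ' w ≤ e (1 - δ v)`. -/
def OrbMap (δ : Place ℂ L → ℝ) (δ' : Place ℂ K → ℝ) (φ : L →ₐ[ℂ] K) : Prop :=
  ∀ (w : Place ℂ K) (v : Place ℂ L) (e : ℕ), 0 < e → (∀ f, w.ord (φ f) = e * v.ord f) →
    1 - δ' w ≤ e * (1 - δ v)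

/-- **The pull-back of an orbifold tensor.** -/
theorem pullE_orb (φ : L →ₐ[ℂ] K) (hL : Algebra.trdeg ℂ L = n) (hK : Algebra.trdeg ℂ K = n)
    [Algebra.EssFiniteType ℂ L] [Algebra.EssFiniteType ℂ K] {δ : Place ℂ L → ℝ}
    {δ' : Place ℂ K → ℝ} (hδ0 : ∀ w, 0 ≤ δ' w) (hδ1 : ∀ w, δ' w ≤ 1) (hφ : OrbMap δ δ' φ)
    {x : Fin n → L} (hx : IsTranscendenceBasis ℂ x) {E : Fin n → Derivation ℂ L L}
    (hE : ∀ i j, E i (x j) = if i = j then 1 else 0)
    {T : MultilinearMap L (fun _ : Fin m => Derivation ℂ L L) L}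
    (hT : TensorOrb n δ T) : TensorOrb n δ' (pullE φ x E T) := by
  classical
  intro v hv D S hD hDS
  let _ := φ.toRingHom.toAlgebra
  have htow : IsScalarTower ℂ L K := IsScalarTower.of_algebraMap_eq fun c => (φ.commutes c).symm
  have hfd : FiniteDimensional L K := fd_map φ hL hK
  obtain ⟨P, e, h⟩ := exists_below (K := L) v
  have hP : Divisorial n P := divisorial_down h hv
  obtain ⟨z, F, i0, hl⟩ := exists_loc hL hP
  choose F' hF' using fun i => lift_exists φ hL hK (F i)
  have he1 : (1 : ℝ) ≤ e := by exact_mod_cast h.1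
  have hδe : 1 - δ' v ≤ e * (1 - δ P) := hφ v P e h.1 h.2
  have h1 : GeR v (-(S.card * δ' v)) (pullE φ x E T D) := by
    rw [pullE_expand φ hK hx hE hl.bas hl.dual hF' T D]
    refine Pool.Agent.Y174.OB.geR_sum _ _ _ fun I _ => ?_
    -- the coefficient
    have h2 : GeR v (-(e * (((Finset.univ.filter fun s => I s = i0).card : ℝ) * δ P)))
        (φ (T fun s => F (I s))) := by
      rcases hT P hP (fun s => F (I s)) (Finset.univ.filter fun s => I s = i0)
        (fun s => hl.pres (I s)) (fun s hs f => by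
          have h3 : I s ≠ i0 := fun h4 => hs (Finset.mem_filter.2 ⟨Finset.mem_univ _, h4⟩)
          have h4 := hl.log (I s) f
          have h5 : lc z i0 (I s) = 1 := if_neg h3
          rw [h5, one_smul] at h4
          exact h4) with h3 | h3
      · left
        rw [h3, map_zero]
      · right
        have h4 : v.ord (φ (T fun s => F (I s))) = e * P.ord (T fun s => F (I s)) := h.2 _
        rw [h4]
        push_cast
        have h5 := mul_le_mul_of_nonneg_left h3 (Nat.cast_nonneg (α := ℝ) e)
        linarith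
    have h3 : ∀ s, GeR v (if I s = i0 then (if s ∈ S then (e : ℝ) - 1 else e) else 0)
        (D s (φ (z (I s)))) := by
      intro s
      by_cases hs : I s = i0
      · rw [if_pos hs, hs]
        have hord : v.ord (φ (z i0)) = e := by
          have h4 : v.ord (φ (z i0)) = e * P.ord (z i0) := h.2 _
          rw [h4, hl.unif, mul_one]
        by_cases hsS : s ∈ S
        · rw [if_pos hsS]
          have h4 := ge_der_reg (hD s) (φ (z i0))
          rw [hord] at h4
          rcases h4 with h4 | h4
          · exact Or.inl h4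
          · right
            have h5 : (((e : ℤ) - 1 : ℤ) : ℝ) ≤ (v.ord (D s (φ (z i0))) : ℝ) := by exact_mod_cast h4
            push_cast at h5
            exact h5
        · rw [if_neg hsS]
          have h4 : DerLog v (D s) := hDS s hsS
          have h5 : Ge v (e : ℤ) (D s (φ (z i0))) := DerLog.ge h4 (Or.inr hord.ge)
          rcases h5 with h5 | h5
          · exact Or.inl h5
          · right
            exact_mod_cast h5
      · rw [if_neg hs]
        have h4 : v.Reg (algebraMap L K (z (I s))) := h.reg.2 (hl.reg (I s))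
        have h5 := hD s _ h4
        by_cases h0 : D s (φ (z (I s))) = 0
        · exact Or.inl h0
        · right
          have h6 := (v.reg_iff h0).1 h5
          exact_mod_cast h6
    have h4 := geR_prod' _ _ h3
    refine (h4.mul h2).mono ?_
    -- the estimate
    have h5 : ∀ s, -(if s ∈ S then δ' v else 0) ≤
        (if I s = i0 then (if s ∈ S then (e : ℝ) - 1 else e) else 0) -
          (if I s = i0 then e * δ P else 0) := by
      intro s
      by_cases hs : I s = i0
      · rw [if_pos hs, if_pos hs]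
        by_cases hsS : s ∈ S
        · rw [if_pos hsS, if_pos hsS]
          linarith
        · rw [if_neg hsS, if_neg hsS]
          have := hδ1 v
          linarith
      · rw [if_neg hs, if_neg hs]
        split_ifs
        · have := hδ0 v
          linarith
        · linarith
    have h6 := Finset.sum_le_sum (s := Finset.univ) fun s _ => h5 s
    rw [Finset.sum_neg_distrib, Finset.sum_sub_distrib] at h6
    have h7 : ∑ s : Fin m, (if s ∈ S then δ' v else 0) = S.card * δ' v := by
      rw [Finset.sum_ite_mem, Finset.univ_inter, Finset.sum_const, nsmul_eq_mul]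
    have h8 : ∑ s : Fin m, (if I s = i0 then (e : ℝ) * δ P else 0) =
        e * (((Finset.univ.filter fun s => I s = i0).card : ℝ) * δ P) := by
      rw [← Finset.sum_filter, Finset.sum_const, nsmul_eq_mul]
      ring
    rw [h7, h8] at h6
    linarith
  exact h1

/-- **The pull-back of an orbifold section.** -/
theorem pullW_orb (φ : L →ₐ[ℂ] K) (hL : Algebra.trdeg ℂ L = n) (hK : Algebra.trdeg ℂ K = n)
    [Algebra.EssFiniteType ℂ L] [Algebra.EssFiniteType ℂ K] {δ : Place ℂ L → ℝ}
    {δ' : Place ℂ K → ℝ} (hφ : OrbMap δ δ' φ) {x : Fin n → L}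
    (hx : IsTranscendenceBasis ℂ x) {E : Fin n → Derivation ℂ L L}
    (hE : ∀ i j, E i (x j) = if i = j then 1 else 0) {ω : (Fin n → Derivation ℂ L L) → L}
    (hω : PairSec ℂ L n δ {1} M 0 ω) :
    PairSec ℂ K n δ' {1} M 0 (pullW φ x E M ω) := by
  classical
  refine ⟨pullW_pluri φ x E M ω, ?_⟩
  intro v hv D hD
  let _ := φ.toRingHom.toAlgebra
  have htow : IsScalarTower ℂ L K := IsScalarTower.of_algebraMap_eq fun c => (φ.commutes c).symm
  have hfd : FiniteDimensional L K := fd_map φ hL hK
  obtain ⟨P, e, h⟩ := exists_below (K := L) v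
  have hP : Divisorial n P := divisorial_down h hv
  obtain ⟨z, F, i0, hl⟩ := exists_loc hL hP
  choose F' hF' using fun i => lift_exists φ hL hK (F i)
  have hδe : 1 - δ' v ≤ e * (1 - δ P) := hφ v P e h.1 h.2
  rw [pullW_change φ hK hx hE hl.bas hl.dual hF' hω.1 D]
  by_cases h0 : ω F = 0
  · left
    rw [h0, map_zero, mul_zero]
  have hb : (P.ord (ω F) : ℝ) ≥ -(M * δ P) := by
    rcases hω.2 P hP F hl.pres with h3 | ⟨s, hs, -, h4⟩
    · exact absurd h3 h0
    · simpa using h4
  have h1 := pull_reg h hl hD (m := M) (ω := ω) (b := P.ord (ω F)) (ge_ord P _)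
  rcases h1 with h1 | h1
  · exact Or.inl h1
  · right
    refine ⟨1, Finset.mem_singleton_self _, one_ne_zero, ?_⟩
    have h2 : (((M : ℤ) * (e - 1) + e * P.ord (ω F) : ℤ) : ℝ) ≤
        (v.ord ((Matrix.of fun i j => D i (φ (z j))).det ^ M * φ (ω F)) : ℝ) := by
      exact_mod_cast h1
    push_cast at h2
    have h3 : -((M : ℝ) * δ' v) ≤ (M : ℝ) * (e - 1) + e * P.ord (ω F) := by
      have h4 : (0 : ℝ) ≤ e := Nat.cast_nonneg _
      have h5 := mul_le_mul_of_nonneg_left hb.le h4
      have h6 := mul_le_mul_of_nonneg_left hδe (Nat.cast_nonneg (α := ℝ) M)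
      nlinarith [h5, h6]
    have h4 : (((0 : ℕ) : ℝ)) * (v.ord (1 : K) : ℝ) - M * δ' v = -((M : ℝ) * δ' v) := by
      simp
    rw [h4]
    exact h3.trans h2

/-- ratios of sections are pulled back to ratios of sections -/
theorem ratio_orb (φ : L →ₐ[ℂ] K) (hL : Algebra.trdeg ℂ L = n) (hK : Algebra.trdeg ℂ K = n)
    [Algebra.EssFiniteType ℂ L] [Algebra.EssFiniteType ℂ K] {δ : Place ℂ L → ℝ}
    {δ' : Place ℂ K → ℝ} (hφ : OrbMap δ δ' φ) {f : L}
    (hf : f ∈ PairRatio ℂ L n δ) : φ f ∈ PairRatio ℂ K n δ' := by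
  obtain ⟨m, ω, ω', D, hm, hω, hω', h0, rfl⟩ := hf
  obtain ⟨x, E, hx, hE⟩ := exists_crd hL
  choose E' hE' using fun i => lift_exists φ hL hK (E i)
  have h1 := pluri_coord hx hE hω.1 D
  have h2 := pluri_coord hx hE hω'.1 D
  have h3 : (Matrix.of fun i j => D i (x j)).det ^ m ≠ 0 := by
    intro h
    rw [h, zero_mul] at h2
    exact h0 h2
  have h4 : ω' E ≠ 0 := by
    intro h
    rw [h, mul_zero] at h2
    exact h0 h2
  refine ⟨m, pullW φ x E m ω, pullW φ x E m ω', E', hm, pullW_orb φ hL hK hφ hx hE hω,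
    pullW_orb φ hL hK hφ hx hE hω', ?_, ?_⟩
  · rw [pullW_lift φ hE hE']
    exact (map_ne_zero φ).2 h4
  · rw [pullW_lift φ hE hE', pullW_lift φ hE hE', h1, h2, mul_div_mul_left _ _ h3, map_div₀]

end

end Pool.Agent.H897
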