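import Pool.Agent.H897.NA

/-!
Distributions which are invariant under the dominant rational self-maps of an orbifold.
-/

set_option autoImplicit false
set_option linter.overlappingInstances false
set_option linter.unusedSectionVars false

open MvPolynomial FF Pool.Agent.W602.GT Pool.Agent.Y172 Pool.Agent.NH31 Pool.Agent.W603.LV
open Pool.Agent.N133.TB Pool.Agent.Y174 Pool.Agent.TH466.QG Pool.Agent.W619.PQ
open Pool.Agent.N133.OB Pool.Agent.Y191

namespace Pool.Agent.H897

section

variable {K : Type} [Field K] [Algebra ℂ K] {n m : ℕ}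

/-- The distribution `F` is invariant under the dominant rational self-maps in `S`: the pull-back
of a vector field belongs to `F` if and only if the vector field belongs to `F`. -/
def SelfInvOn (S : Set (K →ₐ[ℂ] K)) (F : Submodule K (Derivation ℂ K K)) : Prop :=
  ∀ φ ∈ S, ∀ D D' : Derivation ℂ K K, LiftOf φ D D' → (D' ∈ F ↔ D ∈ F)

/-- invariance in one direction is enough -/
theorem lift_iff (hess : Algebra.EssFiniteType ℂ K) (hn : Algebra.trdeg ℂ K = n)
    {F : Submodule K (Derivation ℂ K K)}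
    {φ : K →ₐ[ℂ] K} (h : ∀ D D' : Derivation ℂ K K, D ∈ F → LiftOf φ D D' → D' ∈ F)
    (D D' : Derivation ℂ K K) (hD : LiftOf φ D D') : D' ∈ F ↔ D ∈ F := by
  classical
  refine ⟨fun hD' => ?_, fun hD' => h D D' hD' hD⟩
  by_contra hcon
  obtain ⟨x, E, hx, hEx⟩ := exists_crd hn
  have hs : Submodule.span K (Set.range E) = ⊤ := span_of_frame (frame_of_dual hx hEx)
  have hfin : Module.Finite K (Derivation ℂ K K) :=
    ⟨⟨Finset.univ.image E, by rw [Finset.coe_image, Finset.coe_univ, Set.image_univ, hs]⟩⟩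
  let b := Module.finBasis K F
  have h1 : LinearIndependent K fun i => (b i : Derivation ℂ K K) :=
    b.linearIndependent.map' F.subtype (Submodule.ker_subtype F)
  have h2 : LinearIndependent K (Fin.cons D (fun i => (b i : Derivation ℂ K K)) :
      Fin (Module.finrank K F + 1) → Derivation ℂ K K) := by
    rw [linearIndependent_finCons]
    refine ⟨h1, fun hmem => hcon ?_⟩
    have h3 : Submodule.span K (Set.range fun i => (b i : Derivation ℂ K K)) ≤ F := by
      rw [Submodule.span_le]
      rintro _ ⟨i, rfl⟩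
      exact (b i).2
    exact h3 hmem
  choose g hg using fun i => lift_exists φ hn hn (b i : Derivation ℂ K K)
  have h3 : LinearIndependent K (Fin.cons D' g :
      Fin (Module.finrank K F + 1) → Derivation ℂ K K) := by
    refine lift_li' hn φ h2 fun i => ?_
    refine Fin.cases ?_ (fun j => ?_) i
    · rw [Fin.cons_zero, Fin.cons_zero]
      exact hD
    · rw [Fin.cons_succ, Fin.cons_succ]
      exact hg j
  have h4 : ∀ i, (Fin.cons D' g : Fin (Module.finrank K F + 1) → Derivation ℂ K K) i ∈ F := by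
    intro i
    refine Fin.cases ?_ (fun j => ?_) i
    · rw [Fin.cons_zero]
      exact hD'
    · rw [Fin.cons_succ]
      exact h _ _ (b j).2 (hg j)
  have h5 : LinearIndependent K (fun i => (⟨_, h4 i⟩ : F)) :=
    LinearIndependent.of_comp F.subtype h3
  have h6 := h5.fintype_card_le_finrank
  rw [Fintype.card_fin] at h6
  omega

/-- the vector fields which vanish on a subfield which is mapped into itself -/
theorem kill_lift (hn : Algebra.trdeg ℂ K = n) {I : IntermediateField ℂ K} {φ : K →ₐ[ℂ] K}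
    (hmap : ∀ x ∈ I, φ x ∈ I) {D D' : Derivation ℂ K K} (hkill : D ∈ killD I)
    (hD' : LiftOf φ D D') : D' ∈ killD I := by
  classical
  let ψ : I →ₐ[ℂ] I :=
    { toFun := fun x => ⟨φ x, hmap x x.2⟩
      map_one' := Subtype.ext (map_one φ)
      map_mul' := fun a b => Subtype.ext (map_mul φ _ _)
      map_zero' := Subtype.ext (map_zero φ)
      map_add' := fun a b => Subtype.ext (map_add φ _ _)
      commutes' := fun c => Subtype.ext (φ.commutes c) }
  have hψ : Function.Injective ψ := ψ.toRingHom.injective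
  have htr : Algebra.trdeg ℂ I ≤ n := by
    rw [← hn]
    exact trdeg_le_of_injective I.val I.val.toRingHom.injective
  obtain ⟨ι, t, ht⟩ := exists_isTranscendenceBasis' ℂ I
  have hcard : Cardinal.mk ι = Algebra.trdeg ℂ I := ht.cardinalMk_eq_trdeg
  have hfin : Finite ι := by
    rw [← Cardinal.lt_aleph0_iff_finite, hcard]
    exact htr.trans_lt (Cardinal.natCast_lt_aleph0)
  have h1 : AlgebraicIndependent ℂ (ψ ∘ t) := ht.1.map' (f := ψ) hψ
  have h2 : IsTranscendenceBasis ℂ (ψ ∘ t) := h1.isTranscendenceBasis_of_trdeg_le_of_finite (by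
    rw [hcard])
  have h3 : Algebra.IsAlgebraic (IntermediateField.adjoin ℂ (Set.range (ψ ∘ t))) I :=
    h2.isAlgebraic_field
  let J : IntermediateField ℂ K :=
    IntermediateField.adjoin ℂ (Set.range fun i => φ (t i : K))
  have hJ : Kills D' J := kills_adjoin (by
    rintro _ ⟨i, rfl⟩
    change D' (φ (t i : K)) = 0
    rw [hD' (t i : K), hkill _ (t i).2, map_zero])
  intro f hfI
  have h4 := h3.isAlgebraic ⟨f, hfI⟩
  have h5 : IsAlgebraic (IntermediateField.adjoin ℂ (Set.range (ψ ∘ t))) f := by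
    have h6 := h4.algebraMap (A := K)
    exact h6
  have hmem : ∀ a : IntermediateField.adjoin ℂ (Set.range (ψ ∘ t)), ((a : I) : K) ∈ J := by
    intro a
    have h6 : IntermediateField.adjoin ℂ (Set.range (ψ ∘ t)) ≤ J.comap I.val := by
      rw [IntermediateField.adjoin_le_iff]
      rintro _ ⟨i, rfl⟩
      exact IntermediateField.subset_adjoin ℂ _ ⟨i, rfl⟩
    exact h6 a.2
  let χ : IntermediateField.adjoin ℂ (Set.range (ψ ∘ t)) →+* J :=
    { toFun := fun a => ⟨((a : I) : K), hmem a⟩
      map_one' := rfl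
      map_mul' := fun a b => rfl
      map_zero' := rfl
      map_add' := fun a b => rfl }
  exact kills_alg hJ (Pool.Agent.N133.TB.alg_mono χ χ.injective (fun a => rfl) h5)

/-- **The distribution invariant under the self-maps of the orbifold.** -/
theorem self_inv_orb (hess : Algebra.EssFiniteType ℂ K) (hn : Algebra.trdeg ℂ K = n) (hn1 : 1 ≤ n)
    {δ : Place ℂ K → ℝ} (hδ0 : ∀ w, 0 ≤ δ w) (hδ1 : ∀ w, δ w ≤ 1) {S : Set (K →ₐ[ℂ] K)}
    (hS : ∀ φ ∈ S, OrbMap δ δ φ) (hκ : ¬ PairKod ℂ K n δ 0) (M : ℕ)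
    (hM : ∃ m, 1 ≤ m ∧ m ≤ M ∧ ∃ T : MultilinearMap K (fun _ : Fin m => Derivation ℂ K K) K,
      TensorOrb n δ T ∧ T ≠ 0) :
    ∃ F : Submodule K (Derivation ℂ K K), F ≠ ⊥ ∧ F ≠ ⊤ ∧ SelfInvOn S F ∧
      ∀ m, 1 ≤ m → m ≤ M → ∀ T : MultilinearMap K (fun _ : Fin m => Derivation ℂ K K) K,
        TensorOrb n δ T → ∀ D : Fin m → Derivation ℂ K K, (∀ j, D j ∈ F) → T D = 0 := by
  classical
  have hcz : CharZero K := charZero_of_injective_algebraMap (algebraMap ℂ K).injective
  obtain ⟨x, E, hx, hEx⟩ := exists_crd hn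
  have hE : LinearIndependent K E := li_of_dual hEx
  have hs : Submodule.span K (Set.range E) = ⊤ := span_of_frame (frame_of_dual hx hEx)
  have hfin : Module.Finite K (Derivation ℂ K K) :=
    ⟨⟨Finset.univ.image E, by rw [Finset.coe_image, Finset.coe_univ, Set.image_univ, hs]⟩⟩
  -- finitely many tensors
  have hex : ∀ d : ℕ, ∃ b : Set (MultilinearMap K (fun _ : Fin d => Derivation ℂ K K) K),
      b ⊆ {T | TensorOrb n δ T} ∧ b.Finite ∧ LinearIndependent K (Subtype.val : b → _) ∧
        ∀ T, TensorOrb n δ T → T ∈ Submodule.span K b := by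
    intro d
    obtain ⟨b, hb1, hb2, hb3⟩ := exists_linearIndependent K
      {T : MultilinearMap K (fun _ : Fin d => Derivation ℂ K K) K | TensorOrb n δ T}
    refine ⟨b, hb1, hb3.setFinite, hb3, ?_⟩
    rw [hb2]
    exact fun T hT => Submodule.subset_span hT
  choose b hb1 hb2 hbli hb3 using hex
  have hbf : ∀ d, Finite (b d) := fun d => (hb2 d).to_subtype
  let ι : Type := (i : Fin M) × b ((i : ℕ) + 1)
  let deg : ι → ℕ := fun i => (i.1 : ℕ) + 1
  let T : (i : ι) → MultilinearMap K (fun _ : Fin (deg i) => Derivation ℂ K K) K :=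
    fun i => (i.2 : MultilinearMap K (fun _ : Fin ((i.1 : ℕ) + 1) => Derivation ℂ K K) K)
  have hT : ∀ i, TensorOrb n δ (T i) := fun i => hb1 _ i.2.2
  have hT0 : ∃ i, T i ≠ 0 := by
    by_contra hcon
    push Not at hcon
    obtain ⟨m, hm1, hmM, T0, hT0, hne⟩ := hM
    obtain ⟨m', rfl⟩ : ∃ m', m = m' + 1 := ⟨m - 1, by omega⟩
    apply hne
    have h1 : T0 ∈ Submodule.span K (b (m' + 1)) := hb3 _ _ hT0
    have h2 : Submodule.span K (b (m' + 1)) = ⊥ := by
      rw [Submodule.span_eq_bot]
      intro T' hT'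
      exact hcon ⟨⟨m', by omega⟩, ⟨T', hT'⟩⟩
    rw [h2, Submodule.mem_bot] at h1
    exact h1
  -- the semi-invariants vanish
  have hnull := alg_null (k := ℂ) t_sep' t_hm' hn1 (m := deg) (fun i => Nat.succ_pos _)
    (t := mapF (L := AlgebraicClosure K) (co T E)) (fun W Q hW hQ => by
      by_contra h0
      apply hκ
      have h1 := t_sec ℂ K hess n hn1 hn δ ι deg T hT W Q hQ hW
      have h2 : aeval (fun x : Ix deg n => T x.1 (fun s => E (x.2 s))) Q ≠ 0 := by
        intro h
        apply h0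
        have h3 := aeval_algebraMap_apply (AlgebraicClosure K)
          (fun x : Ix deg n => T x.1 (fun s => E (x.2 s))) Q
        rw [h, map_zero] at h3
        exact h3
      refine ⟨W, hW, fun _ => _, fun _ => h1, E, fun _ => h2, ?_⟩
      exact algebraicIndependent_empty_type_iff.2 (algebraMap ℂ K).injective)
  obtain ⟨f, w, μ, hμ, hwt, huniq⟩ := canon hE hs T hT0 hnull
  -- the family of the lifts is another optimal basis
  have himg : ∀ φ ∈ S, ∀ f' : Fin n → Derivation ℂ K K, (∀ j, LiftOf φ (f j) (f' j)) →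
      lvl K f' w 0 = lvl K f w 0 := by
    intro φ hφ f' hf'
    refine (huniq f' w μ ⟨lift_li φ hn hwt.1 hf', hwt.2.1, hwt.2.2.1, fun i J hJ => ?_⟩).2 rfl 0
    have hb' := hbf ((i.1 : ℕ) + 1)
    have hfb : Fintype (b ((i.1 : ℕ) + 1)) := Fintype.ofFinite _
    -- the pull-backs
    let P : b ((i.1 : ℕ) + 1) →
        MultilinearMap K (fun _ : Fin ((i.1 : ℕ) + 1) => Derivation ℂ K K) K :=
      fun a => pullE φ x E (a : MultilinearMap K (fun _ : Fin ((i.1 : ℕ) + 1) =>
        Derivation ℂ K K) K)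
    have hPli : LinearIndependent K P := pullE_li φ hn hn hx hEx (hbli _)
    have hPreg : ∀ a, TensorOrb n δ (P a) := by
      intro a
      exact pullE_orb φ hn hn hδ0 hδ1 (hS φ hφ) hx hEx (hb1 _ a.2)
    have hPle : Submodule.span K (Set.range P) ≤ Submodule.span K (b ((i.1 : ℕ) + 1)) := by
      rw [Submodule.span_le]
      rintro _ ⟨a, rfl⟩
      exact hb3 _ _ (hPreg a)
    have hPeq : Submodule.span K (Set.range P) = Submodule.span K (b ((i.1 : ℕ) + 1)) := by
      have hfd2 : FiniteDimensional K (Submodule.span K (b ((i.1 : ℕ) + 1))) :=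
        FiniteDimensional.span_of_finite K (hb2 _)
      refine Submodule.eq_of_le_of_finrank_eq hPle ?_
      rw [finrank_span_eq_card hPli]
      have h1 := finrank_span_eq_card (hbli ((i.1 : ℕ) + 1))
      rw [Subtype.range_coe] at h1
      exact h1.symm
    have h3 : ∀ T' ∈ Submodule.span K (Set.range P), T' (fun s => f' (J s)) = 0 := by
      intro T' hT'
      induction hT' using Submodule.span_induction with
      | mem x' hx' =>
        obtain ⟨a, rfl⟩ := hx'
        have h4 := pullE_lift φ hx hEx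
          (a : MultilinearMap K (fun _ : Fin ((i.1 : ℕ) + 1) => Derivation ℂ K K) K)
          (D := fun s => f (J s)) (D' := fun s => f' (J s)) fun s => hf' (J s)
        have h5 : (a : MultilinearMap K (fun _ : Fin ((i.1 : ℕ) + 1) => Derivation ℂ K K) K)
            (fun s => f (J s)) = 0 := hwt.2.2.2 ⟨i.1, a⟩ J hJ
        rw [h5, map_zero] at h4
        exact h4
      | zero => rfl
      | add x y _ _ hx hy => rw [add_apply, hx, hy, add_zero]
      | smul r x _ hx => rw [smul_apply, hx, smul_zero]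
    refine h3 _ ?_
    rw [hPeq]
    exact Submodule.subset_span i.2.2
  refine ⟨lvl K f w 0, lvl_ne_bot hn1 hwt.1 hwt.2.1, lvl_ne_top hwt.1 hwt.2.1 hwt.2.2.1, ?_, ?_⟩
  · intro φ hφ
    refine lift_iff hess hn ?_
    intro D D' hD hD'
    choose f' hf' using fun j => lift_exists φ hn hn (f j)
    rw [← himg φ hφ f' hf']
    obtain ⟨c, hc, rfl⟩ := lvl_coord hD
    have h1 : LiftOf φ (∑ l, c l • f l) (∑ l, φ (c l) • f' l) := by
      intro g
      rw [sum_smul_apply, sum_smul_apply, map_sum]
      refine Finset.sum_congr rfl fun l _ => ?_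
      rw [hf' l, map_mul]
    rw [lift_unique φ hn hn hD' h1]
    refine Submodule.sum_mem _ fun l _ => ?_
    by_cases hl : w l ≤ 0
    · exact Submodule.smul_mem _ _ (Submodule.subset_span ⟨l, hl, rfl⟩)
    · rw [hc l hl, map_zero, zero_smul]
      exact Submodule.zero_mem _
  · intro m hm1 hmM T0 hT0 D hD
    obtain ⟨m', rfl⟩ : ∃ m', m = m' + 1 := ⟨m - 1, by omega⟩
    have h1 : T0 ∈ Submodule.span K (b (m' + 1)) := hb3 _ _ hT0
    have h3 : ∀ T' ∈ Submodule.span K (b (m' + 1)), T' D = 0 := by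
      intro T' hT'
      induction hT' using Submodule.span_induction with
      | mem x hx => exact vanish_lvl hμ hwt ⟨⟨m', by omega⟩, ⟨x, hx⟩⟩ D hD
      | zero => rfl
      | add x y _ _ hx hy => rw [add_apply, hx, hy, add_zero]
      | smul r x _ hx => rw [smul_apply, hx, smul_zero]
    exact h3 _ h1

end

end Pool.Agent.H897
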