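import Pool.Agent.H897.NB

/-!
Orbifold sections and ratios: the Kodaira dimension, and tensors from forms.
-/

set_option autoImplicit false
set_option linter.overlappingInstances false
set_option linter.unusedSectionVars false

open MvPolynomial FF Pool.Agent.W602.GT Pool.Agent.Y172 Pool.Agent.NH31 Pool.Agent.W603.LV
open Pool.Agent.N133.TB Pool.Agent.Y174 Pool.Agent.TH466.QG Pool.Agent.W619.PQ
open Pool.Agent.N133.OB Pool.Agent.Y191

namespace Pool.Agent.H897

section

variable {K : Type} [Field K] [Algebra ℂ K] {n m : ℕ} {δ : Place ℂ K → ℝ}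

theorem osec_ge {k : ℕ} {ω : (Fin n → Derivation ℂ K K) → K}
    (h : PairSec ℂ K n δ {1} k 0 ω) {v : Place ℂ K} (hv : IsDivisorial v n)
    {D : Fin n → Derivation ℂ K K} (hD : ∀ l, ∀ f, v.Reg f → v.Reg (D l f)) :
    GeR v (-(k * δ v)) (ω D) := by
  rcases h.2 v hv D hD with h3 | ⟨s, hs, -, h4⟩
  · exact Or.inl h3
  · right
    simpa using h4

theorem osec_of {k : ℕ} {ω : (Fin n → Derivation ℂ K K) → K} (h1 : IsPluriForm ℂ K n k ω)
    (h2 : ∀ (v : Place ℂ K), IsDivisorial v n → ∀ D : Fin n → Derivation ℂ K K,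
      (∀ l, ∀ f, v.Reg f → v.Reg (D l f)) → GeR v (-(k * δ v)) (ω D)) :
    PairSec ℂ K n δ {1} k 0 ω := by
  refine ⟨h1, fun v hv D hD => ?_⟩
  rcases h2 v hv D hD with h3 | h3
  · exact Or.inl h3
  · right
    refine ⟨1, Finset.mem_singleton_self _, one_ne_zero, ?_⟩
    simpa using h3

theorem osec_mul {k k' : ℕ} {ω ω' : (Fin n → Derivation ℂ K K) → K}
    (h : PairSec ℂ K n δ {1} k 0 ω) (h' : PairSec ℂ K n δ {1} k' 0 ω') :
    PairSec ℂ K n δ {1} (k + k') 0 (fun D => ω D * ω' D) := by
  refine osec_of (pluri_mul h.1 h'.1) fun v hv D hD => ?_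
  refine ((osec_ge h hv hD).mul (osec_ge h' hv hD)).mono ?_
  push_cast
  linarith

theorem osec_one : PairSec ℂ K n δ {1} 0 0 (fun _ => 1) := by
  refine osec_of (fun A D => by simp) fun v hv D hD => ?_
  right
  rw [v.ord_one]
  simp

theorem osec_prod {ι : Type} (s : Finset ι) {k : ι → ℕ}
    {ω : ι → (Fin n → Derivation ℂ K K) → K}
    (h : ∀ i ∈ s, PairSec ℂ K n δ {1} (k i) 0 (ω i)) :
    PairSec ℂ K n δ {1} (∑ i ∈ s, k i) 0 (fun D => ∏ i ∈ s, ω i D) := by
  classical
  induction s using Finset.induction_on with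
  | empty =>
    simp only [Finset.sum_empty, Finset.prod_empty]
    exact osec_one
  | insert a s ha ih =>
    simp only [Finset.sum_insert ha, Finset.prod_insert ha]
    exact osec_mul (h a (Finset.mem_insert_self _ _))
      (ih fun i hi => h i (Finset.mem_insert_of_mem hi))

/-- the field of the ratios of the sections of the same weight -/
noncomputable def ratioF (K : Type) [Field K] [Algebra ℂ K] (n : ℕ) (δ : Place ℂ K → ℝ) :
    IntermediateField ℂ K := IntermediateField.adjoin ℂ (PairRatio ℂ K n δ)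

/-- the ratios are mapped to ratios -/
theorem ratioF_map (hess : Algebra.EssFiniteType ℂ K) (hn : Algebra.trdeg ℂ K = n)
    {φ : K →ₐ[ℂ] K} (hφ : OrbMap δ δ φ) : ∀ x ∈ ratioF K n δ, φ x ∈ ratioF K n δ := by
  intro x hx
  have h1 : ratioF K n δ ≤ (ratioF K n δ).comap φ := by
    unfold ratioF
    rw [IntermediateField.adjoin_le_iff]
    intro f hf
    exact IntermediateField.subset_adjoin ℂ _ (ratio_orb φ hn hn hφ hf)
  exact h1 hx

/-- the Kodaira dimension if all vector fields are tangent to the Iitaka fibration -/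
theorem okod_top (h : killD (ratioF K n δ) = ⊤) : ¬ PairKod ℂ K n δ 1 := by
  rintro ⟨m, hm, ω, hω, D, hD, hind⟩
  have h1 : ω (Fin.succ 0) D / ω 0 D ∈ ratioF K n δ :=
    IntermediateField.subset_adjoin ℂ _
      ⟨m, ω (Fin.succ 0), ω 0, D, hm, hω _, hω _, hD _, rfl⟩
  obtain ⟨z, hz⟩ := const_of_all_der (f := ω (Fin.succ 0) D / ω 0 D) fun D' => by
    have h2 : D' ∈ killD (ratioF K n δ) := by
      rw [h]
      exact Submodule.mem_top
    exact h2 _ h1
  have h2 := hind.transcendental 0
  apply h2
  change IsAlgebraic ℂ (ω (Fin.succ 0) D / ω 0 D)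
  rw [hz]
  exact isAlgebraic_algebraMap z

open scoped IntermediateField.algebraAdjoinAdjoin in
/-- the pair is of general type if no vector field is tangent to the Iitaka fibration -/
theorem okod_bot (hn : Algebra.trdeg ℂ K = n) (h : killD (ratioF K n δ) = ⊥)
    (h0 : PairKod ℂ K n δ 0) : PairKod ℂ K n δ n := by
  classical
  obtain ⟨x, E, hx, hE⟩ := exists_crd hn
  have hfr : IsFrame E := frame_of_dual hx hE
  obtain ⟨R, hR⟩ : ∃ R : Set K, R = PairRatio ℂ K n δ := ⟨_, rfl⟩
  have hcz : CharZero K := charZero_of_injective_algebraMap (algebraMap ℂ K).injective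
  have halg : Algebra.IsAlgebraic (IntermediateField.adjoin ℂ R) K := by
    refine ⟨fun z => ?_⟩
    by_contra hz
    have h1 : AlgebraicIndependent (IntermediateField.adjoin ℂ R) (fun _ : Unit => z) := by
      rw [algebraicIndependent_unique_type_iff]
      exact hz
    obtain ⟨D, h2, h3⟩ := exists_der_ind h1 fun _ => 1
    have h4 : D ∈ killD (ratioF K n δ) := fun f hf => h2 f (by
      rw [hR]
      exact hf)
    rw [h, Submodule.mem_bot] at h4
    have h5 := h3 ()
    rw [h4] at h5
    exact zero_ne_one h5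
  have halg2 : Algebra.IsAlgebraic (Algebra.adjoin ℂ R) K :=
    (IsFractionRing.comap_isAlgebraic_iff (A := Algebra.adjoin ℂ R)
      (K := IntermediateField.adjoin ℂ R)).2 halg
  obtain ⟨u, huR, hu⟩ := exists_isTranscendenceBasis_subset (R := ℂ) R
  have hcard : Cardinal.mk u = (n : Cardinal) := by
    rw [hu.cardinalMk_eq_trdeg, hn]
  have heq : Nonempty (Fin n ≃ u) := by
    rw [← Cardinal.eq, hcard]
    simp
  obtain ⟨e⟩ := heq
  have hr : ∀ i : Fin n, ∃ (k : ℕ) (ω ω' : (Fin n → Derivation ℂ K K) → K),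
      PairSec ℂ K n δ {1} k 0 ω ∧ PairSec ℂ K n δ {1} k 0 ω' ∧
      ω E ≠ 0 ∧ ω' E ≠ 0 ∧ ((e i : u) : K) = ω E / ω' E := by
    intro i
    have h1 : ((e i : u) : K) ∈ PairRatio ℂ K n δ := by
      rw [← hR]
      exact huR (e i).2
    obtain ⟨k, ω, ω', D, hk, hω, hω', hD, hf⟩ := h1
    have h2 := pluri_coord hx hE hω.1 D
    have h3 := pluri_coord hx hE hω'.1 D
    have h4 : (Matrix.of fun i j => D i (x j)).det ^ k ≠ 0 := by
      intro h
      rw [h, zero_mul] at h3
      exact hD h3
    have h5 : ω' E ≠ 0 := by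
      intro h
      rw [h, mul_zero] at h3
      exact hD h3
    have h6 : ((e i : u) : K) = ω E / ω' E := by
      rw [hf, h2, h3, mul_div_mul_left _ _ h4]
    refine ⟨k, ω, ω', hω, hω', ?_, h5, h6⟩
    intro h7
    rw [h7, zero_div] at h6
    exact hu.1.ne_zero (e i) h6
  choose k ω ω' hω hω' hωE hω'E hf using hr
  obtain ⟨m0, hm0, η, hη, D0, hD0, -⟩ := h0
  have hηE : η 0 E ≠ 0 := by
    intro h
    have h1 := pluri_coord hx hE (hη 0).1 D0
    rw [h, mul_zero] at h1
    exact hD0 0 h1
  have hpE : ∏ j, ω' j E ≠ 0 := Finset.prod_ne_zero_iff.2 fun j _ => hω'E j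
  obtain ⟨Ω, hΩ⟩ : ∃ Ω : Fin n → Fin n → (Fin n → Derivation ℂ K K) → K,
    Ω = fun i j => if j = i then ω j else ω' j := ⟨_, rfl⟩
  have hΩE : ∀ i, ∏ j, Ω i j E ≠ 0 := by
    intro i
    refine Finset.prod_ne_zero_iff.2 fun j _ => ?_
    rw [hΩ]
    simp only
    split_ifs
    · exact hωE j
    · exact hω'E j
  have hratio : ∀ i, (∏ j, Ω i j E) = (e i : u) * ∏ j, ω' j E := by
    intro i
    rw [← Finset.mul_prod_erase _ _ (Finset.mem_univ i),
      ← Finset.mul_prod_erase _ (fun j => ω' j E) (Finset.mem_univ i), hf i, hΩ]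
    simp only [if_true]
    rw [← mul_assoc, div_mul_cancel₀ _ (hω'E i)]
    congr 1
    refine Finset.prod_congr rfl fun j hj => ?_
    rw [if_neg (Finset.ne_of_mem_erase hj)]
  refine ⟨m0 + ∑ j, k j, by omega,
    Fin.cons (fun D => η 0 D * ∏ j, ω' j D) (fun i D => η 0 D * ∏ j, Ω i j D), ?_, E, ?_, ?_⟩
  · intro l
    refine Fin.cases ?_ (fun i => ?_) l
    · rw [Fin.cons_zero]
      exact osec_mul (hη 0) (osec_prod _ fun j _ => hω' j)
    · rw [Fin.cons_succ]
      refine osec_mul (hη 0) (osec_prod _ fun j _ => ?_)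
      rw [hΩ]
      simp only
      split_ifs
      · exact hω j
      · exact hω' j
  · intro l
    refine Fin.cases ?_ (fun i => ?_) l
    · rw [Fin.cons_zero]
      exact mul_ne_zero hηE hpE
    · rw [Fin.cons_succ]
      exact mul_ne_zero hηE (hΩE i)
  · have h1 : (fun l : Fin n => (Fin.cons (fun D => η 0 D * ∏ j, ω' j D)
        (fun i D => η 0 D * ∏ j, Ω i j D) :
          Fin (n + 1) → (Fin n → Derivation ℂ K K) → K) l.succ E /
        (Fin.cons (fun D => η 0 D * ∏ j, ω' j D)
        (fun i D => η 0 D * ∏ j, Ω i j D) :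
          Fin (n + 1) → (Fin n → Derivation ℂ K K) → K) 0 E) =
        (Subtype.val : u → K) ∘ e := by
      funext l
      rw [Fin.cons_succ, Fin.cons_zero]
      change (η 0 E * ∏ j, Ω l j E) / (η 0 E * ∏ j, ω' j E) = ((e l : u) : K)
      rw [hratio l]
      field_simp
    rw [h1]
    exact hu.1.comp e e.injective

/-- the tensor of a form -/
theorem otensor_of_form (hn : Algebra.trdeg ℂ K = n) [Algebra.EssFiniteType ℂ K] (hn1 : 1 ≤ n)
    (hδ0 : ∀ w, 0 ≤ δ w) (hδ1 : ∀ w, δ w ≤ 1)
    {k : ℕ} (hk : 1 ≤ k) {ω : (Fin n → Derivation ℂ K K) → K}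
    (hω : PairSec ℂ K n δ {1} k 0 ω) (h0 : ∃ D, ω D ≠ 0) :
    ∃ m, 1 ≤ m ∧ ∃ T : MultilinearMap K (fun _ : Fin m => Derivation ℂ K K) K,
      TensorOrb n δ T ∧ T ≠ 0 := by
  classical
  obtain ⟨x, E, hx, hE⟩ := exists_crd hn
  let p : Fin (k * n) → Fin k × Fin n := finProdFinEquiv.symm
  let T : MultilinearMap K (fun _ : Fin (k * n) => Derivation ℂ K K) K :=
    ∑ σ : Fin k → Equiv.Perm (Fin n), (ω E * ∏ b, ((Equiv.Perm.sign (σ b) : ℤ) : K)) •
      (MultilinearMap.mkPiAlgebra K (Fin (k * n)) K).compLinearMap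
        fun s => evD (x (σ (p s).1 (p s).2))
  have hT : ∀ D : Fin (k * n) → Derivation ℂ K K, T D = ω E * ∏ b : Fin k,
      (Matrix.of fun i j => D (finProdFinEquiv (b, i)) (x j)).det := by
    intro D
    have h1 : T D = ∑ σ : Fin k → Equiv.Perm (Fin n),
        (ω E * ∏ b, ((Equiv.Perm.sign (σ b) : ℤ) : K)) *
          ∏ s, D s (x (σ (p s).1 (p s).2)) := by
      change (∑ σ : Fin k → Equiv.Perm (Fin n), (ω E * ∏ b, ((Equiv.Perm.sign (σ b) : ℤ) : K)) •
        (MultilinearMap.mkPiAlgebra K (Fin (k * n)) K).compLinearMap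
          fun s => evD (x (σ (p s).1 (p s).2))) D = _
      rw [sum_apply]
      refine Finset.sum_congr rfl fun σ _ => ?_
      rw [smul_apply, smul_eq_mul, MultilinearMap.compLinearMap_apply,
        MultilinearMap.mkPiAlgebra_apply]
      rfl
    have h2 : ∀ σ : Fin k → Equiv.Perm (Fin n), ∏ s, D s (x (σ (p s).1 (p s).2)) =
        ∏ b : Fin k, ∏ i : Fin n, D (finProdFinEquiv (b, i)) (x (σ b i)) := by
      intro σ
      rw [← Fintype.prod_prod_type' (fun (b : Fin k) (i : Fin n) =>
        D (finProdFinEquiv (b, i)) (x (σ b i)))]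
      refine (Fintype.prod_equiv finProdFinEquiv _ _ fun q => ?_).symm
      have h3 : p (finProdFinEquiv q) = q := Equiv.symm_apply_apply _ _
      rw [h3]
    have h3 : ∀ b : Fin k, (Matrix.of fun i j => D (finProdFinEquiv (b, i)) (x j)).det =
        ∑ σ : Equiv.Perm (Fin n), ((Equiv.Perm.sign σ : ℤ) : K) *
          ∏ i, D (finProdFinEquiv (b, i)) (x (σ i)) := by
      intro b
      rw [← Matrix.det_transpose, Matrix.det_apply']
      rfl
    rw [h1]
    simp only [h3]
    rw [Finset.prod_univ_sum, Fintype.piFinset_univ, Finset.mul_sum]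
    refine Finset.sum_congr rfl fun σ _ => ?_
    rw [h2 σ, Finset.prod_mul_distrib, mul_assoc]
  have hωE : ω E ≠ 0 := by
    intro h
    obtain ⟨D, hD⟩ := h0
    have h1 := pluri_coord hx hE hω.1 D
    rw [h, mul_zero] at h1
    exact hD h1
  refine ⟨k * n, Nat.one_le_iff_ne_zero.2 (Nat.mul_ne_zero (by omega) (by omega)), T, ?_, ?_⟩
  · intro v hv D S hD hDS
    obtain ⟨z, F, i0, hl⟩ := exists_loc hn hv
    have h1 : T D = ω F * ∏ b : Fin k,
        (Matrix.of fun i j => D (finProdFinEquiv (b, i)) (z j)).det := by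
      rw [hT]
      have h2 : ∀ b : Fin k, (Matrix.of fun i j => D (finProdFinEquiv (b, i)) (x j)).det =
          (Matrix.of fun i j => D (finProdFinEquiv (b, i)) (z j)).det *
            (Matrix.of fun i j => F i (x j)).det := by
        intro b
        rw [← Matrix.det_mul]
        congr 1
        ext i j
        rw [Matrix.mul_apply, Matrix.of_apply]
        have h3 := (Pool.Agent.W73.PG.PULL.expand z hl.bas F hl.dual
          (D (finProdFinEquiv (b, i)))).symm
        conv_lhs => rw [h3]
        rw [sum_smul_apply]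
        rfl
      simp only [h2]
      rw [Finset.prod_mul_distrib, Finset.prod_const, Finset.card_univ, Fintype.card_fin,
        pluri_coord hx hE hω.1 F]
      ring
    -- the blocks which do not meet `S`
    let good : Fin k → Prop := fun b => ∀ i, finProdFinEquiv (b, i) ∉ S
    have h2 : ∀ b : Fin k, GeR v (if good b then 1 else 0)
        (Matrix.of fun i j => D (finProdFinEquiv (b, i)) (z j)).det := by
      intro b
      by_cases hb : good b
      · rw [if_pos hb]
        have h3 : Ge v 1 (Matrix.of fun i j => D (finProdFinEquiv (b, i)) (z j)).det := by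
          rw [← Matrix.det_transpose]
          refine ge_det v _ 1 (fun a _ => if a = i0 then 1 else 0) (fun i j => ?_) fun σ => ?_
          · change Ge v (if i = i0 then 1 else 0) (D (finProdFinEquiv (b, j)) (z i))
            have h4 : DerLog v (D (finProdFinEquiv (b, j))) := hDS _ (hb j)
            split_ifs with hi
            · rw [hi]
              exact DerLog.ge h4 (Or.inr (by rw [hl.unif]))
            · exact DerLog.ge h4 (hl.reg i)
          · have h3 : ∑ i, (if σ i = i0 then (1 : ℤ) else 0) = 1 := by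
              rw [Finset.sum_eq_single (σ.symm i0)]
              · simp
              · intro i _ hi
                rw [if_neg]
                intro h
                exact hi (by rw [← h]; simp)
              · intro h
                exact absurd (Finset.mem_univ _) h
            exact h3.ge
        rcases h3 with h3 | h3
        · exact Or.inl h3
        · right
          exact_mod_cast h3
      · rw [if_neg hb]
        have h3 : Ge v 0 (Matrix.of fun i j => D (finProdFinEquiv (b, i)) (z j)).det := by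
          refine ge_det v _ 0 (fun _ _ => 0) (fun i j => ?_) fun σ => ?_
          · exact hD _ _ (hl.reg j)
          · simp
        rcases h3 with h3 | h3
        · exact Or.inl h3
        · right
          exact_mod_cast h3
    have h3 := (osec_ge hω hv (D := F) hl.pres).mul (geR_prod' _ _ h2)
    rw [← h1] at h3
    refine h3.mono ?_
    -- the number of the blocks which meet `S`
    have h4 : ∑ b : Fin k, (if good b then (0 : ℝ) else 1) ≤ S.card := by
      have h5 : (Finset.univ.filter fun b : Fin k => ¬ good b).card ≤ S.card := by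
        have h6 : Finset.univ.filter (fun b : Fin k => ¬ good b) ⊆ S.image fun s => (p s).1 := by
          intro b hb
          have h7 := (Finset.mem_filter.1 hb).2
          have h8 : ∃ i, finProdFinEquiv (b, i) ∈ S := by
            by_contra hcon
            push Not at hcon
            exact h7 hcon
          obtain ⟨i, hi⟩ := h8
          rw [Finset.mem_image]
          refine ⟨_, hi, ?_⟩
          have h9 : p (finProdFinEquiv (b, i)) = (b, i) := Equiv.symm_apply_apply _ _
          rw [h9]
        exact (Finset.card_le_card h6).trans Finset.card_image_le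
      have h6 : ∑ b : Fin k, (if good b then (0 : ℝ) else 1) =
          ((Finset.univ.filter fun b : Fin k => ¬ good b).card : ℝ) := by
        rw [Finset.card_filter]
        push_cast
        refine Finset.sum_congr rfl fun b _ => ?_
        by_cases hb : good b
        · rw [if_pos hb, if_neg (not_not.2 hb)]
        · rw [if_neg hb, if_pos hb]
      rw [h6]
      exact_mod_cast h5
    have h5 : ∑ b : Fin k, ((if good b then (1 : ℝ) else 0) - δ v) ≥
        ∑ b : Fin k, -(δ v * (if good b then (0 : ℝ) else 1)) := by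
      refine Finset.sum_le_sum fun b _ => ?_
      have h6 := hδ0 v
      have h7 := hδ1 v
      by_cases hb : good b
      · rw [if_pos hb, if_pos hb]
        linarith
      · rw [if_neg hb, if_neg hb]
        linarith
    rw [Finset.sum_sub_distrib, Finset.sum_const, Finset.card_univ, Fintype.card_fin,
      nsmul_eq_mul, Finset.sum_neg_distrib, ← Finset.mul_sum] at h5
    have h6 := mul_le_mul_of_nonneg_left h4 (hδ0 v)
    linarith
  · intro h
    have h1 := hT fun s => E (p s).2
    have h2 : ∀ b : Fin k, (Matrix.of fun i j => E (p (finProdFinEquiv (b, i))).2 (x j)).det =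
        (1 : K) := by
      intro b
      have h3 : (Matrix.of fun i j => E (p (finProdFinEquiv (b, i))).2 (x j)) =
          (1 : Matrix (Fin n) (Fin n) K) := by
        ext i j
        have h4 : p (finProdFinEquiv (b, i)) = (b, i) := Equiv.symm_apply_apply _ _
        rw [Matrix.of_apply, h4, hE, Matrix.one_apply]
      rw [h3, Matrix.det_one]
    simp only [h2] at h1
    rw [Finset.prod_const_one, mul_one, h] at h1
    exact hωE h1.symm

end

end Pool.Agent.H897
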