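import Pool.Agent.H897.NC
import Pool.Graph.R_seed8.W619.PL.LDefs

/-!
Open varieties: dominant endomorphisms, and the functions which are constant on the affine lines of
all covering families.
-/

set_option autoImplicit false
set_option linter.overlappingInstances false
set_option linter.unusedSectionVars false

open MvPolynomial FF Pool.Agent.W602.GT Pool.Agent.Y172 Pool.Agent.NH31 Pool.Agent.W603.LV
open Pool.Agent.N133.TB Pool.Agent.Y174 Pool.Agent.TH466.QG Pool.Agent.W619.PQ
open Pool.Agent.N133.OB Pool.Agent.Y191 Pool.Agent.W619.PL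

namespace Pool.Agent.H897

section

variable {K : Type} [Field K] [Algebra ℂ K] {n m : ℕ}

open scoped Classical in
/-- The multiplicities of the reduced boundary: `1` along the places in the boundary `Bd`, and `0`
along the others. -/
noncomputable def bdMult (Bd : Place ℂ K → Prop) (v : Place ℂ K) : ℝ := if Bd v then 1 else 0

theorem bdMult_nonneg (Bd : Place ℂ K → Prop) (v : Place ℂ K) : 0 ≤ bdMult Bd v := by
  unfold bdMult
  split_ifs <;> norm_num

theorem bdMult_le (Bd : Place ℂ K → Prop) (v : Place ℂ K) : bdMult Bd v ≤ 1 := by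
  unfold bdMult
  split_ifs <;> norm_num

/-- The dominant rational self-map `φ` is a map from the open variety `U` to itself: if a
place `w` has its centre on `U`, then the place `v` below it has its centre on `U`. Here `Bd` is the
set of the places whose centre is not on `U`. -/
def OpenMap (Bd : Place ℂ K → Prop) (φ : K →ₐ[ℂ] K) : Prop :=
  ∀ (w v : Place ℂ K) (e : ℕ), 0 < e → (∀ f, w.ord (φ f) = e * v.ord f) → Bd v → Bd w

theorem OpenMap.orb {Bd : Place ℂ K → Prop} {φ : K →ₐ[ℂ] K} (h : OpenMap Bd φ) :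
    OrbMap (bdMult Bd) (bdMult Bd) φ := by
  intro w v e he hf
  have he1 : (1 : ℝ) ≤ e := by exact_mod_cast he
  unfold bdMult
  by_cases hv : Bd v
  · rw [if_pos hv, if_pos (h w v e he hf hv)]
    simp
  · rw [if_neg hv]
    split_ifs <;> linarith

/-- The embedding `ψ` of `K` into `M(t)` is a covering family of affine lines in `U`: no closed point
of the affine line over `M` is mapped to the boundary. -/
def A1Ruling (Bd : Place ℂ K → Prop) {M : Type} [Field M] [Algebra ℂ M]
    (ψ : K →ₐ[ℂ] RatFunc M) : Prop :=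
  ∀ w : Place M (RatFunc M), w.Reg RatFunc.X → ∀ (v : Place ℂ K) (e : ℕ), 0 < e →
    (∀ f : K, w.ord (ψ f) = e * v.ord f) → ¬ Bd v

/-- A place over `M` is a place over `ℂ`. -/
noncomputable def placeC {M : Type} [Field M] [Algebra ℂ M] (w : Place M (RatFunc M)) :
    Place ℂ (RatFunc M) where
  ord := w.ord
  ord_zero := w.ord_zero
  ord_mul := w.ord_mul
  ord_add := w.ord_add
  ord_const {c} hc := by
    rw [IsScalarTower.algebraMap_apply ℂ M (RatFunc M)]
    exact w.ord_const ((map_ne_zero _).2 hc)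
  surj := w.surj

/-- the composition with an endomorphism of `U` -/
theorem A1Ruling.comp {Bd : Place ℂ K → Prop} {M : Type} [Field M] [Algebra ℂ M]
    {ψ : K →ₐ[ℂ] RatFunc M} (h : A1Ruling Bd ψ) {φ : K →ₐ[ℂ] K} (hφ : OpenMap Bd φ) :
    A1Ruling Bd (ψ.comp φ) := by
  intro w hw v e he hf hBd
  obtain ⟨t, ht0, ht⟩ := v.surj
  let _ := ψ.toRingHom.toAlgebra
  have htow : IsScalarTower ℂ K (RatFunc M) :=
    IsScalarTower.of_algebraMap_eq fun c => (ψ.commutes c).symm
  have h1 : w.ord (ψ (φ t)) = e := by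
    have h2 := hf t
    rw [ht, mul_one] at h2
    exact h2
  obtain ⟨e', v', hv'⟩ := FF.exists_over (K := K) (placeC w) ⟨φ t, by
    change w.ord (ψ (φ t)) ≠ 0
    rw [h1]
    exact_mod_cast he.ne'⟩
  have h2 : ∀ g : K, w.ord (ψ g) = e' * v'.ord g := hv'.2
  have he' : (0 : ℤ) < e' := by exact_mod_cast hv'.1
  obtain ⟨a, ha⟩ : ∃ a : ℤ, a = v'.ord (φ t) := ⟨_, rfl⟩
  have h3 : (e : ℤ) = e' * a := by rw [← h1, h2, ha]
  have ha0 : 0 < a := by
    by_contra hcon
    push Not at hcon
    have h4 : (e' : ℤ) * a ≤ 0 := mul_nonpos_of_nonneg_of_nonpos he'.le hcon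
    have h5 : (0 : ℤ) < e := by exact_mod_cast he
    linarith
  have h4 : ∀ f, v'.ord (φ f) = (a.toNat : ℕ) * v.ord f := by
    intro f
    have h5 : ((a.toNat : ℕ) : ℤ) = a := Int.toNat_of_nonneg ha0.le
    rw [h5]
    have h6 := hf f
    have h7 : w.ord (ψ (φ f)) = e' * v'.ord (φ f) := h2 _
    have h8 : (e' : ℤ) * v'.ord (φ f) = e' * (a * v.ord f) := by
      rw [← h7, ← mul_assoc, ← h3]
      exact h6
    exact mul_left_cancel₀ he'.ne' h8
  exact h w hw v' e' hv'.1 h2 (hφ v' v a.toNat (by omega) h4 hBd)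

/-- The field of the rational functions which are constant on the affine lines of all covering
families: a covering family of affine lines in `U` is an embedding `ψ` of `K` into the rational
function field `M(t)` over the function field `M` of a variety of dimension `n - 1` with
`A1Ruling Bd ψ`; the condition is `ψ f ∈ M` for all `ψ`. -/
noncomputable def lineConst (K : Type) [Field K] [Algebra ℂ K] (n : ℕ)
    (Bd : Place ℂ K → Prop) : IntermediateField ℂ K where
  carrier := {f | ∀ (M : Type) [Field M] [Algebra ℂ M], Algebra.EssFiniteType ℂ M →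
    Algebra.trdeg ℂ M + 1 = n → ∀ ψ : K →ₐ[ℂ] RatFunc M, A1Ruling Bd ψ →
      ∃ c : M, ψ f = RatFunc.C c}
  mul_mem' {a b} ha hb := by
    intro M _ _ h1 h2 ψ h3
    obtain ⟨c, hc⟩ := ha M h1 h2 ψ h3
    obtain ⟨c', hc'⟩ := hb M h1 h2 ψ h3
    exact ⟨c * c', by rw [map_mul, map_mul, hc, hc']⟩
  add_mem' {a b} ha hb := by
    intro M _ _ h1 h2 ψ h3
    obtain ⟨c, hc⟩ := ha M h1 h2 ψ h3
    obtain ⟨c', hc'⟩ := hb M h1 h2 ψ h3
    exact ⟨c + c', by rw [map_add, map_add, hc, hc']⟩
  algebraMap_mem' z := by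
    intro M _ _ h1 h2 ψ h3
    refine ⟨algebraMap ℂ M z, ?_⟩
    rw [ψ.commutes, IsScalarTower.algebraMap_apply ℂ M (RatFunc M), RatFunc.algebraMap_eq_C]
  inv_mem' a ha := by
    intro M _ _ h1 h2 ψ h3
    obtain ⟨c, hc⟩ := ha M h1 h2 ψ h3
    exact ⟨c⁻¹, by rw [map_inv₀, map_inv₀, hc]⟩

/-- `U` is connected by affine lines: the rational functions which are constant on the lines of all
covering families of affine lines in `U` are constant. -/
def LineConnected (K : Type) [Field K] [Algebra ℂ K] (n : ℕ) (Bd : Place ℂ K → Prop) : Prop :=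
  ∀ f ∈ lineConst K n Bd, ∃ z : ℂ, f = algebraMap ℂ K z

theorem lineConst_map {Bd : Place ℂ K → Prop} {φ : K →ₐ[ℂ] K} (hφ : OpenMap Bd φ) :
    ∀ x ∈ lineConst K n Bd, φ x ∈ lineConst K n Bd := by
  intro f hf M _ _ h1 h2 ψ h3
  exact hf M h1 h2 (ψ.comp φ) (h3.comp hφ)

theorem not_a1_of_bot (hn : Algebra.trdeg ℂ K = n) {Bd : Place ℂ K → Prop}
    (h : killD (lineConst K n Bd) = ⊥) : ¬ IsA1Uniruled ℂ K n Bd := by
  rintro ⟨M, _, _, ψ, hM, htr, hψ⟩
  have h1 := trdeg_of_bot hn h
  choose c hc using fun f : lineConst K n Bd => f.2 M hM htr ψ hψ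
  have hinj : Function.Injective (RatFunc.C : M →+* RatFunc M) := RatFunc.C_injective
  let χ : lineConst K n Bd →ₐ[ℂ] M :=
    { toFun := c
      map_one' := hinj (by rw [← hc, map_one]; exact map_one ψ)
      map_mul' := fun a b => hinj (by rw [← hc, map_mul, ← hc, ← hc]; exact map_mul ψ _ _)
      map_zero' := hinj (by rw [← hc, map_zero]; exact map_zero ψ)
      map_add' := fun a b => hinj (by rw [← hc, map_add, ← hc, ← hc]; exact map_add ψ _ _)
      commutes' := fun z => hinj (by
        rw [← hc]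
        change ψ (algebraMap ℂ K z) = _
        rw [ψ.commutes, IsScalarTower.algebraMap_apply ℂ M (RatFunc M), RatFunc.algebraMap_eq_C]) }
  have h2 := trdeg_le_of_injective χ χ.toRingHom.injective
  rw [h1] at h2
  have h3 : Algebra.trdeg ℂ M < n := by
    rw [← htr]
    have h4 : Algebra.trdeg ℂ M < Cardinal.aleph0 := by
      have h5 : Algebra.trdeg ℂ M ≤ n := by
        rw [← htr]
        exact self_le_add_right _ _
      exact h5.trans_lt Cardinal.natCast_lt_aleph0
    obtain ⟨r, hr⟩ := Cardinal.lt_aleph0.1 h4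
    rw [hr]
    exact_mod_cast Nat.lt_succ_self r
  exact absurd h2 (not_le.2 h3)

theorem lineConnected_of_top {Bd : Place ℂ K → Prop} (h : killD (lineConst K n Bd) = ⊤) :
    LineConnected K n Bd := by
  intro f hf
  refine const_of_all_der fun D => ?_
  have h1 : D ∈ killD (lineConst K n Bd) := by
    rw [h]
    exact Submodule.mem_top
  exact h1 f hf

theorem a1_of_connected (hn : Algebra.trdeg ℂ K = n) (hn1 : 1 ≤ n) {Bd : Place ℂ K → Prop}
    (h : LineConnected K n Bd) : IsA1Uniruled ℂ K n Bd := by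
  by_contra hcon
  have h1 : ∀ f : K, ∃ z : ℂ, f = algebraMap ℂ K z := fun f => h f (by
    intro M _ _ h2 h3 ψ h4
    exact absurd ⟨M, inferInstance, inferInstance, ψ, h2, h3, h4⟩ hcon)
  obtain ⟨x, E, hx, hE⟩ := exists_crd hn
  obtain ⟨z, hz⟩ := h1 (x ⟨0, hn1⟩)
  have h2 := hx.1.transcendental ⟨0, hn1⟩
  apply h2
  rw [hz]
  exact isAlgebraic_algebraMap z

/-- the logarithmic Kodaira dimension is negative if there are no sections -/
theorem logNeg_iff (hess : Algebra.EssFiniteType ℂ K) (hn : Algebra.trdeg ℂ K = n)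
    (Bd : Place ℂ K → Prop) :
    LogKodairaNeg ℂ K n Bd ↔ ¬ PairKod ℂ K n (bdMult Bd) 0 := by
  classical
  constructor
  · rintro h ⟨k, hk, ω, hω, D, hD, -⟩
    refine hD 0 (h k hk (ω 0) (hω 0).1 (fun v hv hB E hE => ?_) (fun v hv hB E hE => ?_) D)
    · have h1 := osec_ge (hω 0) hv hE
      have h2 : bdMult Bd v = 0 := if_neg hB
      rw [h2, mul_zero, neg_zero] at h1
      rcases h1 with h1 | h1
      · exact Or.inl h1
      · right
        exact_mod_cast h1
    · have h2 : bdMult Bd v = 1 := if_pos hB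
      have h1 := log_gain hn hv (hω 0).1 (c := -(k : ℝ)) (fun G hG => by
        have h3 := osec_ge (hω 0) hv hG
        rw [h2, mul_one] at h3
        exact h3) (D := E) hE
      rcases h1 with h1 | h1
      · exact Or.inl h1
      · right
        rw [neg_add_cancel] at h1
        exact_mod_cast h1
  · intro h k hk ω hω h1 h2 D
    by_contra hD
    apply h
    refine ⟨k, hk, fun _ => ω, fun _ => ?_, D, fun _ => hD, ?_⟩
    · refine osec_of hω fun v hv E hE => ?_
      by_cases hB : Bd v
      · have h3 : bdMult Bd v = 1 := if_pos hB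
        rw [h3, mul_one]
        obtain ⟨z, F, i0, hl⟩ := exists_loc hn hv
        have h4 := h2 v hv hB (fun i => lc z i0 i • F i) (fun i => hl.log i)
        rw [pluri_diag hω, prod_lc] at h4
        have h5 := pluri_coord hl.bas hl.dual hω E
        have h6 : Ge v 0 (Matrix.of fun i j => E i (z j)).det := by
          refine ge_det v _ 0 (fun _ _ => 0) (fun a b => ?_) fun σ => ?_
          · exact hE a _ (hl.reg b)
          · simp
        have h7 : Ge v (-(k : ℤ)) (ω F) := by
          by_cases h0 : ω F = 0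
          · exact Or.inl h0
          · right
            have h8 := h4.resolve_left (mul_ne_zero (pow_ne_zero _ hl.ne) h0)
            rw [v.ord_mul (pow_ne_zero _ hl.ne) h0, v.ord_pow, hl.unif, mul_one] at h8
            linarith
        have h8 := (h6.pow k).mul h7
        rw [← h5] at h8
        rcases h8 with h8 | h8
        · exact Or.inl h8
        · right
          have h9 : (-(k : ℤ)) ≤ v.ord (ω E) := by simpa using h8
          have h10 : ((-(k : ℤ) : ℤ) : ℝ) ≤ (v.ord (ω E) : ℝ) := by exact_mod_cast h9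
          push_cast at h10
          exact h10
      · have h3 : bdMult Bd v = 0 := if_neg hB
        rw [h3, mul_zero, neg_zero]
        rcases h1 v hv hB E hE with h4 | h4
        · exact Or.inl h4
        · right
          exact_mod_cast h4
    · exact algebraicIndependent_empty_type_iff.2 (algebraMap ℂ K).injective

end

end Pool.Agent.H897
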