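import Pool.Agent.H897.TM

/-!
Orbifold tensor differentials with values in the multiples of the log canonical divisor of a pair.
-/

set_option autoImplicit false
set_option linter.overlappingInstances false
set_option linter.unusedSectionVars false

open MvPolynomial FF Pool.Agent.W602.GT Pool.Agent.Y172 Pool.Agent.NH31 Pool.Agent.W603.LV
open Pool.Agent.N133.TB

namespace Pool.Agent.H897

section

variable {ι : Type} {n : ℕ} {m : ι → ℕ}

theorem two_zpow_sum {α : Type} [DecidableEq α] (s : Finset α) (f : α → ℤ) :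
    ∏ x ∈ s, (2 : ℂ) ^ f x = 2 ^ ∑ x ∈ s, f x := by
  induction s using Finset.induction_on with
  | empty => simp
  | insert a s ha ih =>
    rw [Finset.prod_insert ha, Finset.sum_insert ha, ih, zpow_add₀ two_ne_zero]

/-- the weights of the monomials of a twisted semi-invariant -/
theorem TwInv.weight [Fintype (Ix m n)] (i0 : Fin n) {a : ι → ℤ} {d : ℕ}
    {Q : MvPolynomial (Ix m n) ℂ} (hQ : TwInv m n a d Q) {μ : Ix m n →₀ ℕ} (hμ : μ ∈ Q.support) :
    ∑ x, (μ x : ℤ) * (Sec.cnt i0 x + a x.1) = d := by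
  classical
  have hμ0 : coeff μ Q ≠ 0 := mem_support_iff.1 hμ
  obtain ⟨D, hD⟩ : ∃ D : Fin n → ℂ, D = fun j => if j = i0 then 2 else 1 := ⟨_, rfl⟩
  have hdet : (Matrix.diagonal D).det = 2 := by
    rw [Matrix.det_diagonal, hD]
    change ∏ j, (if j = i0 then (2 : ℂ) else 1) = 2
    rw [Finset.prod_ite_eq' Finset.univ i0, if_pos (Finset.mem_univ _)]
  have hd : ∀ x : Ix m n, ∏ s, D (x.2 s) = 2 ^ Sec.cnt i0 x := by
    intro x
    rw [hD]
    change ∏ s, (if x.2 s = i0 then (2 : ℂ) else 1) = 2 ^ Sec.cnt i0 x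
    rw [Finset.prod_ite, Finset.prod_const, Finset.prod_const_one, mul_one]
    rfl
  obtain ⟨c, hc⟩ : ∃ c : Ix m n → ℂ, c = fun x => (2 : ℂ) ^ ((Sec.cnt i0 x : ℤ) + a x.1) := ⟨_, rfl⟩
  have h1 : aeval (fun x : Ix m n => (C (c x) * X x : MvPolynomial (Ix m n) ℂ)) Q =
      C (2 ^ d) * Q := by
    refine MvPolynomial.funext fun b => ?_
    have h2 := hQ ℂ (Matrix.diagonal D) (fun i J => b ⟨i, J⟩) (by rw [hdet]; exact two_ne_zero)
    have h3 : pt (twact a (Matrix.diagonal D) (fun i J => b ⟨i, J⟩)) =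
        fun x : Ix m n => c x * b x := by
      funext x
      unfold pt twact
      rw [Sec.act_diag, hd x, hdet, hc]
      change _ = 2 ^ ((Sec.cnt i0 x : ℤ) + a x.1) * _
      rw [zpow_add₀ two_ne_zero, zpow_natCast]
      ring
    have h4 : pt (fun (i : ι) (J : Fin (m i) → Fin n) => b ⟨i, J⟩) = b := rfl
    rw [h3, hdet, h4] at h2
    rw [map_mul, eval_C]
    have h5 : eval b (aeval (fun x : Ix m n => (C (c x) * X x : MvPolynomial (Ix m n) ℂ)) Q) =
        aeval (fun x : Ix m n => c x * b x) Q := by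
      rw [← coe_aeval_eq_eval]
      change aeval b (aeval (fun x : Ix m n =>
        (C (c x) * X x : MvPolynomial (Ix m n) ℂ)) Q) = _
      rw [comp_aeval_apply]
      congr 2
      funext x
      rw [map_mul, aeval_X, algHom_C]
      rfl
    rw [h5, h2]
    rfl
  have h2 := congrArg (coeff μ) h1
  rw [Pool.Agent.Y174.OB.aeval_scale, coeff_C_mul] at h2
  have h3 := mul_right_cancel₀ hμ0 h2
  have h4 : ∏ x, c x ^ μ x = 2 ^ ∑ x, (μ x : ℤ) * (Sec.cnt i0 x + a x.1) := by
    rw [← two_zpow_sum]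
    refine Finset.prod_congr rfl fun x _ => ?_
    rw [hc, mul_comm (μ x : ℤ), zpow_mul, zpow_natCast]
  rw [h4] at h3
  have h5 : (2 : ℝ) ^ (∑ x, (μ x : ℤ) * (Sec.cnt i0 x + a x.1)) = 2 ^ (d : ℤ) := by
    have h6 : (((2 : ℝ) ^ (∑ x, (μ x : ℤ) * (Sec.cnt i0 x + a x.1)) : ℝ) : ℂ) =
        (((2 : ℝ) ^ (d : ℤ) : ℝ) : ℂ) := by
      rw [Complex.ofReal_zpow, Complex.ofReal_zpow, zpow_natCast, Complex.ofReal_ofNat]
      exact h3
    exact_mod_cast h6
  exact zpow_right_injective₀ (by norm_num) (by norm_num) h5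

end

section

variable {K : Type} [Field K] [Algebra ℂ K] {N n : ℕ} {y : Fin (N + 1) → K}
variable {ι : Type} {m : ι → ℕ}

/-- `T`, a rational section of the `m`-th tensor power of the cotangent bundle with values in
`O (a K_X)`, is an orbifold tensor with values in `a (K_X + Δ)` along the prime divisor `P` which
has the coefficient `δ` in `Δ`: on vector fields `D s` which are regular along `P`, and tangent to
`P` for `s ∉ S`, its order is at least `- δ (|S| + a)`. -/
def OrbAt (δ : ℚ) (P : Place ℂ K) (a : ℤ) {m : ℕ}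
    (T : (Fin n → Derivation ℂ K K) → MultilinearMap K (fun _ : Fin m => Derivation ℂ K K) K) :
    Prop :=
  ∀ (E : Fin n → Derivation ℂ K K) (D : Fin m → Derivation ℂ K K) (S : Finset (Fin m)),
    FrameAt P E → (∀ s, DerReg P (D s)) → (∀ s, s ∉ S → DerLog P (D s)) →
      T E D = 0 ∨ -(δ * (S.card + a)) ≤ (P.ord (T E D) : ℚ)

/-- the exponents of the local equations -/
def expo (δ : Fin n → ℚ) (a : ι → ℤ) (z : Ix m n) (l : Fin n) : ℚ :=
  δ l * (Sec.cnt l z + a z.1)

open Classical in
/-- The leading coefficients, at the centre of a place with the residue map `ρ`, of orbifold tensors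
with values in the multiples of `K_X + Δ`, if `Δ` is given by `∑ δ l div (x l)`: in the frame
`d x l / x l ^ δ l` the coefficient `t i J` is multiplied with the product of the powers
`x l ^ (expo δ a ⟨i, J⟩ l)`; if one of the exponents is not an integer then the leading coefficient
is `0`. -/
noncomputable def lead {L : Type} [Field L] (δ : Fin n → ℚ) (x : Fin n → K) (ρ : K → L)
    (a : ι → ℤ) (t : Fam m n K) : Fam m n L := fun i J =>
  if ∀ l, (expo δ a (⟨i, J⟩ : Ix m n) l).den = 1 then
    ρ (t i J * ∏ l, x l ^ (expo δ a (⟨i, J⟩ : Ix m n) l).num) else 0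

/-- The centre of `Q` is a smooth point of `X` with local coordinates `x l` (up to constants) and
the coordinate vector fields `E l`, and `Δ` is given by `∑ δ l div (x l)` there. -/
structure SncAt (y : Fin (N + 1) → K) (Δ : Place ℂ K → ℚ) (Q : Place ℂ K) (x : Fin n → K)
    (E : Fin n → Derivation ℂ K K) (δ : Fin n → ℚ) : Prop where
  crd : Coordinates y Q x E
  van : ∀ l, δ l ≠ 0 → 0 < Q.ord (x l)
  eq : ∀ P, IsPrimeDivisor y P → Through y P Q → Δ P = ∑ l, δ l * P.ord (x l)

/-- The pair `(X, Δ)` has simple normal crossings at the centre of `Q`, and the tensors are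
semistable there as orbifold tensors. -/
def SemistableOrb (y : Fin (N + 1) → K) (Δ : Place ℂ K → ℚ) (a : ι → ℤ)
    (T : (i : ι) → (Fin n → Derivation ℂ K K) →
      MultilinearMap K (fun _ : Fin (m i) => Derivation ℂ K K) K) (Q : Place ℂ K) : Prop :=
  ∃ (x : Fin n → K) (E : Fin n → Derivation ℂ K K) (δ : Fin n → ℚ), SncAt y Δ Q x E δ ∧
    ∃ (L : Type) (_ : Field L) (_ : Algebra ℂ L) (_ : IsAlgClosed L) (ρ : K → L), ResMap Q ρ ∧
      SemistableFam (lead δ x ρ a (coefs T E))

theorem Coordinates.ne {Q : Place ℂ K} {x : Fin n → K} {E : Fin n → Derivation ℂ K K}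
    (h : Coordinates y Q x E) (l : Fin n) : x l ≠ 0 := by
  intro h0
  have h1 := h.dual l l
  rw [if_pos rfl, h0, map_zero] at h1
  exact zero_ne_one h1

/-- the coordinates along a prime divisor on which one of them vanishes -/
theorem crd_facts (hy : NormalModel y) (hn : Algebra.trdeg ℂ K = n) {Q : Place ℂ K}
    {x : Fin n → K} {E : Fin n → Derivation ℂ K K} (h : Coordinates y Q x E) {P : Place ℂ K}
    (hP : IsPrimeDivisor y P) (hPQ : Through y P Q) {l : Fin n} (hl : 0 < P.ord (x l)) :
    P.ord (x l) = 1 ∧ (∀ j, j ≠ l → P.ord (x j) = 0) ∧ ∀ j, j ≠ l → DerLog P (E j) := by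
  have hfr := h.frameAt hn hP hPQ hy
  have h1 : P.ord (x l) = 1 := by
    have h2 := ge_der_reg (hfr.1 l) (x l)
    rw [h.dual, if_pos rfl] at h2
    rcases h2 with h2 | h2
    · exact absurd h2 one_ne_zero
    · rw [P.ord_one] at h2
      omega
  refine ⟨h1, fun j hj => ?_, fun j hj => ?_⟩
  · have h2 := (P.reg_iff (h.ne j)).1 (hPQ _ (h.reg j))
    by_contra hcon
    have h3 : P.Reg (x j / x l) := by
      right
      rw [P.ord_div (h.ne j) (h.ne l)]
      omega
    have h4 := hfr.1 j _ h3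
    have h5 : (1 : K) = x l * E j (x j / x l) := by
      have h6 : E j (x l * (x j / x l)) = 1 := by
        rw [mul_div_cancel₀ _ (h.ne l), h.dual, if_pos rfl]
      rw [Derivation.leibniz, h.dual, if_neg hj, smul_zero, add_zero, smul_eq_mul] at h6
      exact h6.symm
    have h6 : E j (x j / x l) ≠ 0 := by
      intro h0
      rw [h0, mul_zero] at h5
      exact one_ne_zero h5
    have h7 := congrArg P.ord h5
    rw [P.ord_one, P.ord_mul (h.ne l) h6] at h7
    have h8 := (P.reg_iff h6).1 h4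
    omega
  · refine Pool.Agent.W619.TW.log_of_pres P _ (hfr.1 j) (h.ne l) h1 ?_
    rw [h.dual, if_neg hj, zero_div]
    exact P.reg_zero

end

end Pool.Agent.H897
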