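import Pool.Agent.H897.OB
import Pool.Graph.R_pool_sql_team_seeded_63374d34.N133.TB.Secv

/-!
The sections defined by twisted semi-invariants of orbifold tensors.
-/

set_option autoImplicit false
set_option linter.overlappingInstances false
set_option linter.unusedSectionVars false

open MvPolynomial FF Pool.Agent.W602.GT Pool.Agent.Y172 Pool.Agent.NH31 Pool.Agent.W603.LV
open Pool.Agent.N133.TB Pool.Agent.Y174

namespace Pool.Agent.H897

section

variable {K : Type} [Field K] [Algebra ℂ K] {N n : ℕ} {y : Fin (N + 1) → K}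
variable {ι : Type} {m : ι → ℕ}

/-- the order of a twisted semi-invariant of orbifold tensors -/
theorem orb_sec [Finite ι] {a : ι → ℤ} {T : (i : ι) → (Fin n → Derivation ℂ K K) →
      MultilinearMap K (fun _ : Fin (m i) => Derivation ℂ K K) K}
    {P : Place ℂ K} {δ : ℚ} (hh : ∀ i, OrbAt δ P (a i) (T i)) {x' : Fin n → K}
    {E' : Fin n → Derivation ℂ K K} {i0 : Fin n} (hL : Loc P x' E' i0) {d : ℕ}
    {Q : MvPolynomial (Ix m n) ℂ} (hQ : TwInv m n a d Q) :
    val T Q E' = 0 ∨ -(d * δ) ≤ (P.ord (val T Q E') : ℚ) := by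
  classical
  have : Fintype (Ix m n) := Fintype.ofFinite _
  have hlog : ∀ b, b ≠ i0 → DerLog P (E' b) := by
    intro b hb
    refine Pool.Agent.W619.TW.log_of_pres P _ (hL.pres b) hL.ne hL.unif ?_
    rw [hL.dual, if_neg hb, zero_div]
    exact P.reg_zero
  have h3 : GeR P (-(d * δ : ℚ) : ℚ) (val T Q E') := by
    unfold val
    rw [aeval_def, eval₂_eq']
    refine Pool.Agent.Y174.OB.geR_sum _ _ _ fun μ hμ => ?_
    have hWt := hQ.weight i0 hμ
    have h4 : GeR P (∑ x : Ix m n, (μ x : ℝ) * (-(δ * (Sec.cnt i0 x + a x.1) : ℚ) : ℚ))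
        (∏ x : Ix m n, pt (coefs T E') x ^ μ x) := by
      refine Pool.Agent.Y174.OB.geR_prod _ _ _ fun x _ => GeR.pow ?_ _
      have h5 := hh x.1 E' (fun s => E' (x.2 s)) (Finset.univ.filter fun s => x.2 s = i0)
        (frameAt_of_loc hL) (fun s => hL.pres _) (fun s hs => hlog _ (fun h => hs (by simp [h])))
      rcases h5 with h5 | h5
      · exact Or.inl h5
      · right
        have h6 : ((-(δ * (Sec.cnt i0 x + a x.1)) : ℚ) : ℝ) ≤
            (((P.ord (pt (coefs T E') x) : ℤ) : ℚ) : ℝ) := by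
          exact_mod_cast h5
        refine h6.trans (le_of_eq ?_)
        simp
    have h5 : GeR P 0 (algebraMap ℂ K (coeff μ Q)) := by
      by_cases h0 : coeff μ Q = 0
      · left
        rw [h0, map_zero]
      · right
        rw [P.ord_const h0]
        simp
    refine (h5.mul h4).mono (le_of_eq ?_)
    have h6 : (d : ℚ) = ∑ x, (μ x : ℚ) * (Sec.cnt i0 x + a x.1) := by
      exact_mod_cast hWt.symm
    have h7 : (-(d * δ) : ℚ) = ∑ x, (μ x : ℚ) * (-(δ * (Sec.cnt i0 x + a x.1))) := by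
      rw [h6, Finset.sum_mul, ← Finset.sum_neg_distrib]
      refine Finset.sum_congr rfl fun x _ => ?_
      ring
    rw [h7, zero_add]
    push_cast
    rfl
  rcases h3 with h3 | h3
  · exact Or.inl h3
  · right
    exact_mod_cast h3

/-- a coordinate which vanishes at the centre of a place vanishes along a prime divisor -/
theorem exists_van (hy : NormalModel y) {Q : Place ℂ K} {f : K} (hf0 : f ≠ 0)
    (hQ : 0 < Q.ord f) : ∃ P, IsPrimeDivisor y P ∧ Through y P Q ∧ 0 < P.ord f := by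
  by_contra hcon
  push Not at hcon
  have h1 : f⁻¹ ∈ localRing y Q := mem_localRing_of_reg hy fun P hP hPQ => by
    right
    rw [P.ord_inv]
    have := hcon P hP hPQ
    omega
  have h2 := (Q.reg_iff (inv_ne_zero hf0)).1 (localRing_reg h1)
  rw [Q.ord_inv] at h2
  omega

/-- the coefficients of `Δ` at a point with simple normal crossings -/
theorem SncAt.coef (hy : NormalModel y) (hn : Algebra.trdeg ℂ K = n) {Δ : Place ℂ K → ℚ}
    {Q : Place ℂ K} {x : Fin n → K} {E : Fin n → Derivation ℂ K K} {δ : Fin n → ℚ}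
    (h : SncAt y Δ Q x E δ) {P : Place ℂ K} (hP : IsPrimeDivisor y P) (hPQ : Through y P Q) :
    (∃ l, P.ord (x l) = 1 ∧ (∀ j, j ≠ l → P.ord (x j) = 0) ∧ (∀ j, j ≠ l → DerLog P (E j)) ∧
      Δ P = δ l) ∨ ((∀ l, δ l ≠ 0 → P.ord (x l) = 0) ∧ Δ P = 0) := by
  classical
  by_cases hl : ∃ l, δ l ≠ 0 ∧ 0 < P.ord (x l)
  · obtain ⟨l, -, hl⟩ := hl
    obtain ⟨h1, h2, h3⟩ := crd_facts hy hn h.crd hP hPQ hl
    refine Or.inl ⟨l, h1, h2, h3, ?_⟩
    rw [h.eq P hP hPQ, Finset.sum_eq_single l]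
    · rw [h1]
      simp
    · intro j _ hj
      rw [h2 j hj]
      simp
    · intro hl
      exact absurd (Finset.mem_univ l) hl
  · push Not at hl
    have h1 : ∀ l, δ l ≠ 0 → P.ord (x l) = 0 := fun l hδ =>
      le_antisymm (hl l hδ) ((P.reg_iff (h.crd.ne l)).1 (hPQ _ (h.crd.reg l)))
    refine Or.inr ⟨h1, ?_⟩
    rw [h.eq P hP hPQ]
    refine Finset.sum_eq_zero fun l _ => ?_
    by_cases hδ : δ l = 0
    · rw [hδ, zero_mul]
    · rw [h1 l hδ]
      simp

/-- the rounded exponents -/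
def fl (δ : Fin n → ℚ) (a : ι → ℤ) (z : Ix m n) (l : Fin n) : ℤ := ⌊expo δ a z l⌋

/-- the coefficients, made regular -/
noncomputable def breg (δ : Fin n → ℚ) (x : Fin n → K) (a : ι → ℤ) (t : Fam m n K)
    (z : Ix m n) : K := pt t z * ∏ l, x l ^ fl δ a z l

theorem prod_ord {P : Place ℂ K} {α : Type} [DecidableEq α] (s : Finset α) {x : α → K}
    (hx : ∀ l, x l ≠ 0) (e : α → ℤ) :
    P.ord (∏ l ∈ s, x l ^ e l) = ∑ l ∈ s, e l * P.ord (x l) := by
  induction s using Finset.induction_on with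
  | empty => simp [P.ord_one]
  | insert a s ha ih =>
    rw [Finset.prod_insert ha, Finset.sum_insert ha, P.ord_mul (zpow_ne_zero _ (hx a))
      (Finset.prod_ne_zero_iff.2 fun l _ => zpow_ne_zero _ (hx l)), P.ord_zpow, ih]

theorem breg_mem (hy : NormalModel y) (hn : Algebra.trdeg ℂ K = n) {a : ι → ℤ}
    {T : (i : ι) → (Fin n → Derivation ℂ K K) →
      MultilinearMap K (fun _ : Fin (m i) => Derivation ℂ K K) K} {Δ : Place ℂ K → ℚ}
    (hh : ∀ P, IsPrimeDivisor y P → ∀ i, OrbAt (Δ P) P (a i) (T i)) {Q : Place ℂ K}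
    {x : Fin n → K} {E : Fin n → Derivation ℂ K K} {δ : Fin n → ℚ}
    (h : SncAt y Δ Q x E δ) (z : Ix m n) {P : Place ℂ K} (hP : IsPrimeDivisor y P)
    (hPQ : Through y P Q) : P.Reg (breg δ x a (coefs T E) z) := by
  classical
  have hx0 := h.crd.ne
  have hfr := h.crd.frameAt hn hP hPQ hy
  by_cases h0 : pt (coefs T E) z = 0
  · left
    rw [breg, h0, zero_mul]
  right
  have hp0 : ∏ l, x l ^ fl δ a z l ≠ 0 := Finset.prod_ne_zero_iff.2 fun l _ => zpow_ne_zero _ (hx0 l)
  rw [breg, P.ord_mul h0 hp0, prod_ord _ hx0]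
  rcases h.coef hy hn hP hPQ with ⟨l, h1, h2, h3, h4⟩ | ⟨h1, h2⟩
  · rw [Finset.sum_eq_single l (by intro j _ hj; rw [h2 j hj, mul_zero])
      (by intro hl; exact absurd (Finset.mem_univ l) hl), h1, mul_one]
    have h5 := (hh P hP z.1 E (fun s => E (z.2 s)) (Finset.univ.filter fun s => z.2 s = l) hfr
      (fun s => hfr.1 _) (fun s hs => h3 _ (fun h => hs (by simp [h])))).resolve_left h0
    rw [h4] at h5
    have h6 : -(P.ord (pt (coefs T E) z)) ≤ fl δ a z l := by
      unfold fl expo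
      rw [Int.le_floor]
      push_cast
      have h7 : -(δ l * (Sec.cnt l z + a z.1)) ≤ (P.ord (pt (coefs T E) z) : ℚ) := h5
      linarith
    omega
  · have h3 : ∑ l, fl δ a z l * P.ord (x l) = 0 := by
      refine Finset.sum_eq_zero fun l _ => ?_
      by_cases hδ : δ l = 0
      · simp [fl, expo, hδ]
      · rw [h1 l hδ, mul_zero]
    rw [h3, add_zero]
    have h5 := (hh P hP z.1 E (fun s => E (z.2 s)) Finset.univ hfr
      (fun s => hfr.1 _) (fun s hs => absurd (Finset.mem_univ s) hs)).resolve_left h0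
    rw [h2, zero_mul, neg_zero] at h5
    have h6 : (0 : ℚ) ≤ (P.ord (pt (coefs T E) z) : ℚ) := h5
    exact_mod_cast h6

theorem zpow_sum' {α : Type} [DecidableEq α] {b : K} (hb : b ≠ 0) (s : Finset α) (f : α → ℤ) :
    ∏ x ∈ s, b ^ f x = b ^ ∑ x ∈ s, f x := by
  induction s using Finset.induction_on with
  | empty => simp
  | insert a s ha ih =>
    rw [Finset.prod_insert ha, Finset.sum_insert ha, ih, zpow_add₀ hb]

theorem mono_eq [Fintype (Ix m n)] {δ : Fin n → ℚ} {x : Fin n → K} {a : ι → ℤ} {t : Fam m n K}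
    (hx0 : ∀ l, x l ≠ 0) (μ : Ix m n →₀ ℕ) (zl : Fin n → ℤ) :
    (∏ w, pt t w ^ μ w) * ∏ l, x l ^ zl l =
      (∏ w, breg δ x a t w ^ μ w) * ∏ l, x l ^ (zl l - ∑ w, (μ w : ℤ) * fl δ a w l) := by
  classical
  have h1 : ∏ w, breg δ x a t w ^ μ w =
      (∏ w, pt t w ^ μ w) * ∏ l, x l ^ ∑ w, (μ w : ℤ) * fl δ a w l := by
    have h2 : ∀ w, breg δ x a t w ^ μ w =
        pt t w ^ μ w * ∏ l, x l ^ ((μ w : ℤ) * fl δ a w l) := by
      intro w
      rw [breg, mul_pow, ← Finset.prod_pow]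
      congr 1
      refine Finset.prod_congr rfl fun l _ => ?_
      rw [mul_comm (μ w : ℤ), zpow_mul, zpow_natCast]
    simp only [h2]
    rw [Finset.prod_mul_distrib, Finset.prod_comm]
    congr 1
    refine Finset.prod_congr rfl fun l _ => ?_
    exact zpow_sum' (hx0 l) _ _
  rw [h1, mul_assoc, ← Finset.prod_mul_distrib]
  congr 1
  refine Finset.prod_congr rfl fun l _ => ?_
  rw [← zpow_add₀ (hx0 l)]
  congr 1
  ring

/-- the exponents which are left over -/
theorem left_over [Fintype (Ix m n)] {a : ι → ℤ} {δ : Fin n → ℚ} {d' : ℕ}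
    {R : MvPolynomial (Ix m n) ℂ} (hR : TwInv m n a d' R) {zl : Fin n → ℤ}
    (hzl : ∀ l, (zl l : ℚ) = d' * δ l) {μ : Ix m n →₀ ℕ} (hμ : μ ∈ R.support) (l : Fin n) :
    ((zl l - ∑ w, (μ w : ℤ) * fl δ a w l : ℤ) : ℚ) =
      ∑ w, (μ w : ℚ) * (expo δ a w l - fl δ a w l) := by
  have h1 := hR.weight l hμ
  have h2 : (d' : ℚ) = ∑ w, (μ w : ℚ) * (Sec.cnt l w + a w.1) := by exact_mod_cast h1.symm
  push_cast
  rw [hzl, h2, Finset.sum_mul, ← Finset.sum_sub_distrib]
  refine Finset.sum_congr rfl fun w _ => ?_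
  unfold expo
  ring

open Classical in
/-- **The leading term of a twisted semi-invariant.** -/
theorem orb_res [Fintype (Ix m n)] {a : ι → ℤ} {δ : Fin n → ℚ} {x : Fin n → K} {t : Fam m n K}
    (hx0 : ∀ l, x l ≠ 0) {d' : ℕ} {R : MvPolynomial (Ix m n) ℂ} (hR : TwInv m n a d' R)
    {zl : Fin n → ℤ} (hzl : ∀ l, (zl l : ℚ) = d' * δ l) :
    ∃ G : MvPolynomial (Ix m n ⊕ Fin n) ℂ,
      aeval (Sum.elim (breg δ x a t) x) G = aeval (pt t) R * ∏ l, x l ^ zl l ∧
      ∀ (P : Place ℂ K) (L : Type) [Field L] [Algebra ℂ L] (ρ : K → L), ResMap P ρ →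
        (∀ z, P.Reg (breg δ x a t z)) → (∀ l, P.Reg (x l)) → (∀ l, δ l ≠ 0 → 0 < P.ord (x l)) →
          ρ (aeval (Sum.elim (breg δ x a t) x) G) = aeval (pt (lead δ x ρ a t)) R := by
  have hr : ∀ μ ∈ R.support, ∀ l, 0 ≤ zl l - ∑ w, (μ w : ℤ) * fl δ a w l := by
    intro μ hμ l
    have h1 := left_over hR hzl hμ l
    have h2 : (0 : ℚ) ≤ ((zl l - ∑ w, (μ w : ℤ) * fl δ a w l : ℤ) : ℚ) := by
      rw [h1]
      refine Finset.sum_nonneg fun w _ => mul_nonneg (Nat.cast_nonneg _) ?_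
      have := Int.floor_le (expo δ a w l)
      unfold fl
      linarith
    exact_mod_cast h2
  obtain ⟨r, hrd⟩ : ∃ r : (Ix m n →₀ ℕ) → Fin n → ℕ, r = fun μ l =>
    (zl l - ∑ w, (μ w : ℤ) * fl δ a w l).toNat := ⟨_, rfl⟩
  have hr2 : ∀ μ ∈ R.support, ∀ l, ((r μ l : ℕ) : ℤ) = zl l - ∑ w, (μ w : ℤ) * fl δ a w l := by
    intro μ hμ l
    rw [hrd]
    exact Int.toNat_of_nonneg (hr μ hμ l)
  have hG : ∀ (F : Type) [Field F] [Algebra ℂ F] (f : Ix m n ⊕ Fin n → F),
      aeval f (∑ μ ∈ R.support, C (coeff μ R) * ((∏ w, X (Sum.inl w) ^ μ w) *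
        ∏ l, X (Sum.inr l) ^ r μ l) : MvPolynomial (Ix m n ⊕ Fin n) ℂ) =
      ∑ μ ∈ R.support, algebraMap ℂ F (coeff μ R) * ((∏ w, f (Sum.inl w) ^ μ w) *
        ∏ l, f (Sum.inr l) ^ r μ l) := by
    intro F _ _ f
    simp only [map_sum, map_mul, map_prod, map_pow, aeval_X, aeval_C]
  refine ⟨_, (hG K _).trans ?_, fun P L _ _ ρ hρ hb hxr hv => ?_⟩
  · rw [aeval_def, eval₂_eq', Finset.sum_mul]
    refine Finset.sum_congr rfl fun μ hμ => ?_
    rw [mul_assoc, mono_eq (δ := δ) (a := a) hx0 μ zl]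
    congr 2
    refine Finset.prod_congr rfl fun l _ => ?_
    rw [← hr2 μ hμ l, zpow_natCast]
    rfl
  · have hreg : ∀ z, P.Reg (Sum.elim (breg δ x a t) x z) := by
      rintro (z | l)
      · exact hb z
      · exact hxr l
    rw [(res_aeval hρ hreg _).2, hG L, aeval_def, eval₂_eq']
    refine Finset.sum_congr rfl fun μ hμ => ?_
    congr 1
    change (∏ w, ρ (breg δ x a t w) ^ μ w) * ∏ l, ρ (x l) ^ r μ l =
      ∏ w, pt (lead δ x ρ a t) w ^ μ w
    by_cases hint : ∀ w, μ w ≠ 0 → ∀ l, (expo δ a w l).den = 1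
    · have hfe : ∀ w, μ w ≠ 0 → ∀ l, ((expo δ a w l).num : ℚ) = expo δ a w l := fun w hw l =>
        Rat.den_eq_one_iff _ |>.1 (hint w hw l)
      have hfn : ∀ w, μ w ≠ 0 → ∀ l, fl δ a w l = (expo δ a w l).num := by
        intro w hw l
        unfold fl
        rw [← hfe w hw l, Int.floor_intCast, Rat.num_intCast]
      have hr0 : ∀ l, r μ l = 0 := by
        intro l
        have h1 := left_over hR hzl hμ l
        rw [← hr2 μ hμ l] at h1
        have h2 : ∑ w, (μ w : ℚ) * (expo δ a w l - fl δ a w l) = 0 := by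
          refine Finset.sum_eq_zero fun w _ => ?_
          by_cases hw : μ w = 0
          · rw [hw]
            simp
          · rw [hfn w hw l, hfe w hw l, sub_self, mul_zero]
        rw [h2] at h1
        exact_mod_cast h1
      have h1 : ∏ l, ρ (x l) ^ r μ l = 1 := Finset.prod_eq_one fun l _ => by rw [hr0 l, pow_zero]
      rw [h1, mul_one]
      refine Finset.prod_congr rfl fun w _ => ?_
      by_cases hw : μ w = 0
      · rw [hw, pow_zero, pow_zero]
      · congr 1
        have h2 : pt (lead δ x ρ a t) w = ρ (pt t w * ∏ l, x l ^ (expo δ a w l).num) :=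
          if_pos (hint w hw)
        rw [h2, breg]
        congr 2
        exact Finset.prod_congr rfl fun l _ => by rw [hfn w hw l]
    · push Not at hint
      obtain ⟨w, hw, l, hl⟩ := hint
      have h1 : pt (lead δ x ρ a t) w = 0 := if_neg fun h => hl (h l)
      have hR0 : ∏ w, pt (lead δ x ρ a t) w ^ μ w = 0 :=
        Finset.prod_eq_zero (Finset.mem_univ w) (by rw [h1, zero_pow hw])
      rw [hR0]
      have hδ : δ l ≠ 0 := by
        intro h0
        apply hl
        unfold expo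
        rw [h0, zero_mul]
        rfl
      have h2 : ρ (x l) = 0 := (hρ.ker _ (hxr l)).2 (Or.inr (hv l hδ))
      have h3 : r μ l ≠ 0 := by
        intro h0
        have h4 := left_over hR hzl hμ l
        rw [← hr2 μ hμ l, h0] at h4
        have h5 : 0 < (μ w : ℚ) * (expo δ a w l - fl δ a w l) := by
          refine mul_pos (by exact_mod_cast Nat.pos_of_ne_zero hw) ?_
          have h6 := Int.floor_le (expo δ a w l)
          have h7 : ((⌊expo δ a w l⌋ : ℤ) : ℚ) ≠ expo δ a w l := by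
            intro h8
            apply hl
            rw [← h8]
            exact Rat.den_intCast _
          unfold fl
          exact sub_pos.2 (lt_of_le_of_ne h6 h7)
        have h6 : (μ w : ℚ) * (expo δ a w l - fl δ a w l) ≤
            ∑ w, (μ w : ℚ) * (expo δ a w l - fl δ a w l) := by
          refine Finset.single_le_sum (f := fun w => (μ w : ℚ) * (expo δ a w l - fl δ a w l))
            (fun w _ => mul_nonneg (Nat.cast_nonneg _) ?_) (Finset.mem_univ w)
          have := Int.floor_le (expo δ a w l)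
          unfold fl
          linarith
        rw [← h4] at h6
        push_cast at h6
        linarith
      rw [Finset.prod_eq_zero (Finset.mem_univ l) (by rw [h2, zero_pow h3]), mul_zero]

/-- **The sections which generate the log canonical divisor at a semistable point.** -/
theorem orb_gen (hy : NormalModel y) (hn : Algebra.trdeg ℂ K = n) [Finite ι] {a : ι → ℤ}
    {T : (i : ι) → (Fin n → Derivation ℂ K K) →
      MultilinearMap K (fun _ : Fin (m i) => Derivation ℂ K K) K}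
    (hT : ∀ i, Twisted (a i) (T i)) {Δ : Place ℂ K → ℚ}
    (hh : ∀ P, IsPrimeDivisor y P → ∀ i, OrbAt (Δ P) P (a i) (T i))
    {x0 : Fin n → K} {E0 : Fin n → Derivation ℂ K K}
    (hx : IsTranscendenceBasis ℂ x0) (hE : ∀ i j, E0 i (x0 j) = if i = j then 1 else 0)
    {w : Place ℂ K → ℚ}
    (hw : ∀ P : Place ℂ K, IsPrimeDivisor y P → ∀ (m : ℕ)
      (ω : (Fin n → Derivation ℂ K K) → K) (c : ℚ), IsPluri m ω →
      (OrdGe P ω c ↔ ω E0 = 0 ∨ c - m * w P ≤ (P.ord (ω E0) : ℚ)))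
    {D1 : ℕ} (hD1 : 1 ≤ D1) (hint : ∀ P, IsPrimeDivisor y P → ∃ z : ℤ, (D1 : ℚ) * Δ P = z)
    {d : ℕ} {s : Finset (MvPolynomial (Ix m n) ℂ)} (hs : ∀ Q ∈ s, TwInv m n a d Q)
    (hss : ∀ (L : Type) [Field L] [Algebra ℂ L] [IsAlgClosed L] (t : Fam m n L),
      SemistableFam t → ∃ Q ∈ s, aeval (pt t) Q ≠ 0) {Q : Place ℂ K}
    (hQ : SemistableOrb y Δ a T Q) :
    ∃ R ∈ s, GenAt y (w + Δ) Q (D1 * d) (val T (R ^ D1) E0) := by
  classical
  have : Fintype (Ix m n) := Fintype.ofFinite _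
  have hess := hy.ess
  obtain ⟨x, E, δ, h, L, i1, i2, i3, ρ, hρ, hst⟩ := hQ
  obtain ⟨R, hR, hR0⟩ := hss L _ hst
  have hx0 := h.crd.ne
  have hR' : TwInv m n a (D1 * d) (R ^ D1) := (hs R hR).pow D1
  -- the exponents
  have hz : ∀ l, ∃ z : ℤ, (z : ℚ) = ((D1 * d : ℕ) : ℚ) * δ l := by
    intro l
    by_cases hδ : δ l = 0
    · exact ⟨0, by rw [hδ]; simp⟩
    · obtain ⟨P, hP, hPQ, hl⟩ := exists_van hy (hx0 l) (h.van l hδ)
      obtain ⟨h1, h2, -⟩ := crd_facts hy hn h.crd hP hPQ hl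
      have h3 : Δ P = δ l := by
        rw [h.eq P hP hPQ, Finset.sum_eq_single l]
        · rw [h1]
          simp
        · intro j _ hj
          rw [h2 j hj]
          simp
        · intro hl
          exact absurd (Finset.mem_univ l) hl
      obtain ⟨z, hz⟩ := hint P hP
      refine ⟨d * z, ?_⟩
      rw [h3] at hz
      push_cast
      rw [← hz]
      ring
  choose zl hzl using hz
  obtain ⟨G, hG1, hG2⟩ := orb_res (δ := δ) (t := coefs T E) hx0 hR' hzl
  obtain ⟨g, hg⟩ : ∃ g, g = aeval (Sum.elim (breg δ x a (coefs T E)) x) G := ⟨_, rfl⟩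
  rw [← hg] at hG1 hG2
  have hregP : ∀ P, IsPrimeDivisor y P → Through y P Q →
      ∀ z, P.Reg (Sum.elim (breg δ x a (coefs T E)) x z) := by
    rintro P hP hPQ (z | l)
    · exact breg_mem hy hn hh h z hP hPQ
    · exact hPQ _ (h.crd.reg l)
  have hgl : g ∈ localRing y Q := mem_localRing_of_reg hy fun P hP hPQ => by
    rw [hg]
    exact reg_aeval P (hregP P hP hPQ) G
  have hbl : ∀ z, breg δ x a (coefs T E) z ∈ localRing y Q := fun z =>
    mem_localRing_of_reg hy fun P hP hPQ => breg_mem hy hn hh h z hP hPQ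
  have hρg := hG2 Q L ρ hρ (fun z => localRing_reg (hbl z)) (fun l => localRing_reg (h.crd.reg l))
    h.van
  have hg1 : ρ g ≠ 0 := by
    rw [hρg, map_pow]
    exact pow_ne_zero _ hR0
  have hgQ : g ≠ 0 ∧ Q.ord g = 0 := by
    have h1 := localRing_reg hgl
    have h2 : ¬ (g = 0 ∨ 0 < Q.ord g) := fun h => hg1 ((hρ.ker _ h1).2 h)
    push Not at h2
    exact ⟨h2.1, le_antisymm h2.2 ((Q.reg_iff h2.1).1 h1)⟩
  have hgi := inv_mem_localRing hgl hgQ.1 hgQ.2
  have hv0 : val T (R ^ D1) E ≠ 0 := by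
    intro h0
    apply hgQ.1
    rw [hG1]
    change val T (R ^ D1) E * _ = 0
    rw [h0, zero_mul]
  have hp0 : ∏ l, x l ^ zl l ≠ 0 := Finset.prod_ne_zero_iff.2 fun l _ => zpow_ne_zero _ (hx0 l)
  -- there is a prime divisor through the centre, or else the change of the frames is given below
  have hloc : ∀ P, IsPrimeDivisor y P → ∃ (x' : Fin n → K) (E' : Fin n → Derivation ℂ K K)
      (i0 : Fin n), Loc P x' E' i0 := fun P hP => exists_loc hn (hP.divisorial hy hn)
  have hval0 : val T (R ^ D1) E0 ≠ 0 := by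
    have hfr : IsFrame E := by
      refine frame_of_indep hn (Fintype.linearIndependent_iff.2 fun g hg k => ?_)
      have h5 : (∑ i, g i • E i) (x k) = g k := by
        rw [← Derivation.coeFnAddMonoidHom_apply, map_sum, Finset.sum_apply]
        change ∑ i, g i * E i (x k) = g k
        rw [Finset.sum_eq_single k]
        · rw [h.crd.dual, if_pos rfl, mul_one]
        · intro b _ hb
          rw [h.crd.dual, if_neg hb, mul_zero]
        · intro h
          exact absurd (Finset.mem_univ k) h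
      rw [← h5, hg]
      rfl
    obtain ⟨M, hM, hME⟩ := frame_change hx hE hfr
    intro h0
    apply hv0
    rw [hME, val_act hT hM E0 hR', h0, mul_zero]
  refine ⟨R, hR, hval0, fun P hP hPQ => ?_⟩
  obtain ⟨x', E', i0, hL⟩ := hloc P hP
  obtain ⟨-, h7⟩ := ord_val hT hx hE (hw P hP) hL (h.crd.frameAt hn hP hPQ hy) hR'
  have h8 := h7 hval0
  have h9 := (P.reg_iff hgQ.1).1 (hPQ _ hgl)
  have h10 := (P.reg_iff (inv_ne_zero hgQ.1)).1 (hPQ _ hgi)
  rw [P.ord_inv] at h10
  have h11 : P.ord g = 0 := by omega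
  have h12 : g = val T (R ^ D1) E * ∏ l, x l ^ zl l := hG1
  rw [h12, P.ord_mul hv0 hp0, prod_ord _ hx0] at h11
  have h13 : (P.ord (val T (R ^ D1) E) : ℚ) + ∑ l, (zl l : ℚ) * P.ord (x l) = 0 := by
    exact_mod_cast h11
  have h14 : ∑ l, (zl l : ℚ) * P.ord (x l) = ((D1 * d : ℕ) : ℚ) * Δ P := by
    rw [h.eq P hP hPQ, Finset.mul_sum]
    refine Finset.sum_congr rfl fun l _ => ?_
    rw [hzl]
    ring
  rw [h14] at h13
  rw [Pi.add_apply]
  linarith

end

end Pool.Agent.H897
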