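import Pool.Agent.H897.OG

/-!
Abundance for pairs with semistable orbifold tensors.
-/

set_option autoImplicit false
set_option linter.overlappingInstances false
set_option linter.unusedSectionVars false

open MvPolynomial FF Pool.Agent.W602.GT Pool.Agent.Y172 Pool.Agent.NH31 Pool.Agent.W603.LV
open Pool.Agent.N133.TB

namespace Pool.Agent.H897

section

variable {K : Type} [Field K] [Algebra ℂ K] {N n : ℕ} {y : Fin (N + 1) → K}
variable {ι : Type} {m : ι → ℕ}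

/-- Either the pair has simple normal crossings at the centre of `Q` and the tensors are semistable
there, or the functions in `F` are regular at the centre of `Q` and the tensors are semistable at
the generic points of all prime divisors through it. -/
def GoodCentreOrb (y : Fin (N + 1) → K) (Δ : Place ℂ K → ℚ) (F : IntermediateField ℂ K)
    (a : ι → ℤ) (T : (i : ι) → (Fin n → Derivation ℂ K K) →
      MultilinearMap K (fun _ : Fin (m i) => Derivation ℂ K K) K) (Q : Place ℂ K) : Prop :=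
  SemistableOrb y Δ a T Q ∨ ((∀ f ∈ F, f ∈ localRing y Q) ∧
    ∀ P, IsPrimeDivisor y P → Through y P Q → SemistableOrb y Δ a T P)

theorem exists_den {Δ : Place ℂ K → ℚ} (hΔ : FinSup y Δ) :
    ∃ D1 : ℕ, 1 ≤ D1 ∧ ∀ P, IsPrimeDivisor y P → ∃ z : ℤ, (D1 : ℚ) * Δ P = z := by
  classical
  let S := hΔ.toFinset
  refine ⟨∏ P ∈ S, (Δ P).den, Nat.pos_of_ne_zero (Finset.prod_ne_zero_iff.2 fun P _ =>
    (Δ P).den_ne_zero), fun P hP => ?_⟩
  by_cases h0 : Δ P = 0
  · exact ⟨0, by simp [h0]⟩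
  have hPS : P ∈ S := (Set.Finite.mem_toFinset hΔ).2 ⟨hP, h0⟩
  refine ⟨(∏ Q ∈ S.erase P, (Δ Q).den : ℕ) * (Δ P).num, ?_⟩
  rw [← Finset.prod_erase_mul _ _ hPS]
  have h1 : ((Δ P).den : ℚ) * Δ P = (Δ P).num := by
    rw [mul_comm]
    exact Rat.mul_den_eq_num (Δ P)
  push_cast
  rw [← h1]
  ring

/-- **Pairs with semistable orbifold tensors**: the growth of the sections. -/
theorem orb_growth (hy : NormalModel y) (hn : Algebra.trdeg ℂ K = n) (hn1 : 1 ≤ n) [Finite ι]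
    (hm : ∀ i, 1 ≤ m i) {a : ι → ℤ} (ha : ∀ i, 1 ≤ (m i : ℤ) + n * a i)
    {T : (i : ι) → (Fin n → Derivation ℂ K K) →
      MultilinearMap K (fun _ : Fin (m i) => Derivation ℂ K K) K}
    (hT : ∀ i, Twisted (a i) (T i)) {Δ : Place ℂ K → ℚ} (hΔ : FinSup y Δ)
    (hh : ∀ P, IsPrimeDivisor y P → ∀ i, OrbAt (Δ P) P (a i) (T i))
    {E : Fin n → Derivation ℂ K K} (hE : IsFrame E)
    (hss : ∀ Q : Place ℂ K, Horizontal (IntermediateField.adjoin ℂ (Moduli a T E)) Q →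
      GoodCentreOrb y Δ (IntermediateField.adjoin ℂ (Moduli a T E)) a T Q) :
    ∃ κ : ℕ, Algebra.trdeg ℂ (IntermediateField.adjoin ℂ (Moduli a T E)) = κ ∧
      ∃ (m0 : ℕ) (ω : Fin (κ + 1) → (Fin n → Derivation ℂ K K) → K), 1 ≤ m0 ∧
        (∀ j, IsSection y n m0 (m0 • Δ) (ω j)) ∧ ω 0 E ≠ 0 ∧
        AlgebraicIndependent ℂ (fun i : Fin κ => ω i.succ E / ω 0 E) ∧
        (∀ j, ω j E / ω 0 E ∈ IntermediateField.adjoin ℂ (Moduli a T E)) ∧
        ∀ A, FinSup y A → ∃ C : ℕ, ∀ m : ℕ, 1 ≤ m → ∀ (r : ℕ) (f : Fin r → K),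
          LinearIndependent ℂ f → (∀ i, ∃ ω, IsSection y n m (m • Δ + A) ω ∧ ω E = f i) →
            r ≤ C * m ^ κ := by
  classical
  have hess := hy.ess
  obtain ⟨x, E0, hx, hE0⟩ := exists_crd hn
  obtain ⟨w, hw, hwf⟩ := exists_canon hy hn hx hE0
  obtain ⟨M, hM, hME⟩ := frame_change hx hE0 hE
  have hmod : Moduli a T E = ratios (invSys a T E0) := by
    rw [hME, moduli_eq hT hM, ratios_invSys]
  rw [hmod] at hss ⊢
  obtain ⟨𝒮, h𝒮⟩ : ∃ 𝒮, 𝒮 = invSys a T E0 := ⟨_, rfl⟩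
  rw [← h𝒮] at hss ⊢
  obtain ⟨d1, hd1, s, hs, hss'⟩ := exists_twinv_fin (n := n) hn1 hm ha
  obtain ⟨D1, hD1, hint⟩ := exists_den hΔ
  have hDd : 1 ≤ D1 * d1 := Nat.mul_pos hD1 hd1
  -- sections and functions
  have hsec : ∀ (m : ℕ) (D : Place ℂ K → ℚ) (ω : (Fin n → Derivation ℂ K K) → K),
      IsPluri m ω → (IsSection y n m D ω ↔ Fn y (m • w + D) (ω E0)) := by
    intro m D ω hω
    constructor
    · rintro ⟨-, h⟩ P hP
      have h1 := (hwf P hP m ω _ hω).1 (h P hP)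
      refine h1.imp_right fun h2 => le_trans (le_of_eq ?_) h2
      simp only [Pi.add_apply, smul_ap]
      ring
    · intro h
      refine ⟨hω, fun P hP => (hwf P hP m ω _ hω).2 ?_⟩
      refine (h P hP).imp_right fun h2 => le_trans (le_of_eq ?_) h2
      simp only [Pi.add_apply, smul_ap]
      ring
  -- the system
  have hloc : ∀ P, IsPrimeDivisor y P → ∃ (x' : Fin n → K) (E' : Fin n → Derivation ℂ K K)
      (i0 : Fin n), Loc P x' E' i0 := fun P hP => exists_loc hn (hP.divisorial hy hn)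
  have hwΔ : FinSup y (w + Δ) := by
    refine (hw.union hΔ).subset ?_
    rintro P ⟨hP, h0⟩
    by_contra hcon
    rw [Set.mem_union] at hcon
    push Not at hcon
    have h1 : w P = 0 := by
      by_contra h
      exact hcon.1 ⟨hP, h⟩
    have h2 : Δ P = 0 := by
      by_contra h
      exact hcon.2 ⟨hP, h⟩
    exact h0 (by rw [Pi.add_apply, h1, h2, add_zero])
  have hsys : Sys y (w + Δ) 𝒮 := by
    refine ⟨fun d hd g hg P hP => ?_, fun d d' _ _ g hg g' hg' => ?_⟩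
    · rw [h𝒮] at hg
      obtain ⟨Q, hQ, rfl⟩ := hg
      obtain ⟨x', E', i0, hL⟩ := hloc P hP
      obtain ⟨h1, h2⟩ := ord_val hT hx hE0 (hwf P hP) hL (frameAt_of_loc hL) hQ
      by_cases h0 : val T Q E0 = 0
      · exact Or.inl h0
      right
      have h3 := (orb_sec (hh P hP) hL hQ).resolve_left (h1.2 h0)
      rw [h2 h0] at h3
      rw [smul_ap, Pi.add_apply]
      linarith
    · rw [h𝒮] at hg hg' ⊢
      obtain ⟨Q, hQ, rfl⟩ := hg
      obtain ⟨Q', hQ', rfl⟩ := hg'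
      refine ⟨Q * Q', hQ.mul hQ', ?_⟩
      unfold val
      rw [map_mul]
  -- generators at the semistable points
  have hgenQ : ∀ Q, SemistableOrb y Δ a T Q → ∃ g ∈ 𝒮 (D1 * d1), GenAt y (w + Δ) Q (D1 * d1) g := by
    intro Q hQ
    obtain ⟨R, hR, hR1⟩ := orb_gen hy hn hT hh hx hE0 hwf hD1 hint hs hss' hQ
    refine ⟨_, ?_, hR1⟩
    rw [h𝒮]
    exact ⟨R ^ D1, (hs R hR).pow D1, rfl⟩
  have hthr : ∀ P : Place ℂ K, Through y P P := fun P f hf => localRing_reg hf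
  -- a nonzero element
  obtain ⟨d0, hd0, σ, hσ, hσ0⟩ : ∃ d0, 1 ≤ d0 ∧ ∃ σ ∈ 𝒮 d0, σ ≠ 0 := by
    by_contra hcon
    push Not at hcon
    have h1 : ratios 𝒮 = ∅ := by
      ext z
      simp only [Set.mem_empty_iff_false, iff_false]
      rintro ⟨d, g, g', hd, hg, hg', h0, -⟩
      exact h0 (hcon d hd g' hg')
    obtain ⟨P, hP⟩ := exists_prime hy hn hn1
    have hPh : Horizontal (IntermediateField.adjoin ℂ (ratios 𝒮)) P := by
      intro f hf hf0
      rw [h1, IntermediateField.adjoin_empty] at hf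
      obtain ⟨c, rfl⟩ := IntermediateField.mem_bot.1 hf
      exact P.ord_const (fun h => hf0 (by rw [h, map_zero]))
    rcases hss P hPh with h2 | ⟨-, h2⟩
    · obtain ⟨g, hg, hg0, -⟩ := hgenQ P h2
      exact hg0 (hcon _ hDd g hg)
    · obtain ⟨g, hg, hg0, -⟩ := hgenQ P (h2 P hP (hthr P))
      exact hg0 (hcon _ hDd g hg)
  obtain ⟨κ, hκ, m0, g, hm0, hg, hg0, hind, hup⟩ := hsys.abund hy hn hwΔ hd0 hσ hσ0 (by
    intro Q hQ
    rcases hss Q hQ with h0 | ⟨hreg, hsP⟩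
    · obtain ⟨g, hg, hg1⟩ := hgenQ Q h0
      exact ⟨_, hDd, g, hg, hg1⟩
    refine ⟨d0, hd0, σ, hσ, hσ0, fun P hP hPQ => ?_⟩
    have hPh : Horizontal (IntermediateField.adjoin ℂ (ratios 𝒮)) P := by
      intro f hf hf0
      have h1 := (P.reg_iff hf0).1 (hPQ f (hreg f hf))
      have h2 := (P.reg_iff (inv_ne_zero hf0)).1 (hPQ _ (hreg _ (inv_mem hf)))
      rw [P.ord_inv] at h2
      omega
    obtain ⟨g, hg, hgg⟩ := hgenQ P (hsP P hP hPQ)
    exact (hsys.gen hy hPh hDd hg hgg hd0 hσ hσ0).2 P hP (hthr P))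
  have hEd : ∀ (m : ℕ) (f : K), frm x m f E = M.det ^ m * f := by
    intro m f
    have h1 := frm_pluri x m f M E0
    rw [frm_eval hE0] at h1
    rw [hME]
    exact h1
  have hMm : ∀ m, M.det ^ m ≠ 0 := fun m => pow_ne_zero _ hM
  refine ⟨κ, hκ, m0, fun j => frm x m0 (g j), hm0, fun j => ?_, ?_, ?_, fun j => ?_, ?_⟩
  · rw [hsec m0 _ _ (frm_pluri x m0 (g j)), frm_eval hE0, ← smul_add]
    exact hsys.sec m0 hm0 _ (hg j)
  · change frm x m0 (g 0) E ≠ 0
    rw [hEd]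
    exact mul_ne_zero (hMm m0) hg0
  · simp only [hEd, mul_div_mul_left _ _ (hMm m0)]
    exact hind
  · simp only [hEd, mul_div_mul_left _ _ (hMm m0)]
    exact IntermediateField.subset_adjoin ℂ _ ⟨m0, _, _, hm0, hg j, hg 0, hg0, rfl⟩
  · intro A hA
    obtain ⟨C, hC⟩ := hup A hA
    refine ⟨C, fun m hm r f hf h => hC m hm r (fun i => (M.det ^ m)⁻¹ * f i) ?_ fun i => ?_⟩
    · exact hf.map' (LinearMap.mulLeft ℂ _) (LinearMap.ker_eq_bot.2
        (mul_right_injective₀ (inv_ne_zero (hMm m))))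
    · obtain ⟨ω, hω, hωf⟩ := h i
      have h2 := (hsec m _ ω hω.1).1 hω
      have h3 : ω E = M.det ^ m * ω E0 := by
        rw [hME]
        exact hω.1 M E0
      have h4 : (M.det ^ m)⁻¹ * f i = ω E0 := by
        rw [← hωf, h3, inv_mul_cancel_left₀ (hMm m)]
      rw [h4]
      rw [← add_assoc, ← smul_add] at h2
      exact h2

/-- **Orbifold tensors which are semistable at all points**: a multiple of the log canonical divisor
is base point free. -/
theorem orb_bpf (hy : NormalModel y) (hn : Algebra.trdeg ℂ K = n) (hn1 : 1 ≤ n) [Finite ι]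
    (hm : ∀ i, 1 ≤ m i) {a : ι → ℤ} (ha : ∀ i, 1 ≤ (m i : ℤ) + n * a i)
    {T : (i : ι) → (Fin n → Derivation ℂ K K) →
      MultilinearMap K (fun _ : Fin (m i) => Derivation ℂ K K) K}
    (hT : ∀ i, Twisted (a i) (T i)) {Δ : Place ℂ K → ℚ} (hΔ : FinSup y Δ)
    (hh : ∀ P, IsPrimeDivisor y P → ∀ i, OrbAt (Δ P) P (a i) (T i))
    (hss : ∀ Q : Place ℂ K, SemistableOrb y Δ a T Q) :
    ∃ d : ℕ, 1 ≤ d ∧ Integral y (d • Δ) ∧ ∀ Q : Place ℂ K,
      ∃ ω : (Fin n → Derivation ℂ K K) → K, IsSection y n d (d • Δ) ω ∧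
        ∀ P, IsPrimeDivisor y P → Through y P Q → OrdEq P ω (-(d * Δ P)) := by
  classical
  have hess := hy.ess
  obtain ⟨x, E0, hx, hE0⟩ := exists_crd hn
  obtain ⟨w, hw, hwf⟩ := exists_canon hy hn hx hE0
  obtain ⟨d1, hd1, s, hs, hss'⟩ := exists_twinv_fin (n := n) hn1 hm ha
  obtain ⟨D1, hD1, hint⟩ := exists_den hΔ
  have hloc : ∀ P, IsPrimeDivisor y P → ∃ (x' : Fin n → K) (E' : Fin n → Derivation ℂ K K)
      (i0 : Fin n), Loc P x' E' i0 := fun P hP => exists_loc hn (hP.divisorial hy hn)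
  refine ⟨D1 * d1, Nat.mul_pos hD1 hd1, fun P hP => ?_, fun Q => ?_⟩
  · obtain ⟨z, hz⟩ := hint P hP
    refine ⟨d1 * z, ?_⟩
    rw [smul_ap]
    push_cast
    rw [← hz]
    ring
  obtain ⟨R, hR, hR0, hR1⟩ := orb_gen hy hn hT hh hx hE0 hwf hD1 hint hs hss' (hss Q)
  have hR' : TwInv m n a (D1 * d1) (R ^ D1) := (hs R hR).pow D1
  have hpl := frm_pluri x (D1 * d1) (val T (R ^ D1) E0)
  refine ⟨frm x (D1 * d1) (val T (R ^ D1) E0), ⟨hpl, fun P hP => (hwf P hP _ _ _ hpl).2 ?_⟩,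
    fun P hP hPQ => ⟨(hwf P hP _ _ _ hpl).2 ?_, ?_⟩⟩
  · rw [frm_eval hE0]
    right
    obtain ⟨x', E', i0, hL⟩ := hloc P hP
    obtain ⟨h1, h2⟩ := ord_val hT hx hE0 (hwf P hP) hL (frameAt_of_loc hL) hR'
    have h3 := (orb_sec (hh P hP) hL hR').resolve_left (h1.2 hR0)
    rw [h2 hR0] at h3
    rw [smul_ap]
    linarith
  · rw [frm_eval hE0, hR1 P hP hPQ]
    right
    rw [Pi.add_apply]
    linarith
  · obtain ⟨x', E', i0, hL⟩ := hloc P hP
    have h1 := pluri_coord hx hE0 hpl E'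
    obtain ⟨h4, h5⟩ := ord_canon hE0 (hwf P hP) hL
    rw [frm_eval hE0] at h1
    refine ⟨E', hL.pres, ?_, ?_⟩
    · rw [h1]
      exact mul_ne_zero (pow_ne_zero _ h4) hR0
    · rw [h1, P.ord_mul (pow_ne_zero _ h4) hR0, P.ord_pow]
      push_cast
      rw [h5, hR1 P hP hPQ, Pi.add_apply]
      push_cast
      ring

/-- the quotients of the sections are algebraic over the field of the moduli -/
theorem orb_quot {Δ : Place ℂ K → ℚ} (heff : Effective y Δ) {F : IntermediateField ℂ K} {E : Fin n → Derivation ℂ K K} (hE : IsFrame E)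
    {κ : ℕ}
    {m0 : ℕ} {ω : Fin (κ + 1) → (Fin n → Derivation ℂ K K) → K} (hm0 : 1 ≤ m0)
    (hω : ∀ j, IsSection y n m0 (m0 • Δ) (ω j)) (hω0 : ω 0 E ≠ 0)
    (hind : AlgebraicIndependent ℂ (fun i : Fin κ => ω i.succ E / ω 0 E))
    (hF : ∀ j, ω j E / ω 0 E ∈ F)
    (hup : ∀ A, FinSup y A → ∃ C : ℕ, ∀ m : ℕ, 1 ≤ m → ∀ (r : ℕ) (f : Fin r → K),
      LinearIndependent ℂ f → (∀ i, ∃ ω, IsSection y n m (m • Δ + A) ω ∧ ω E = f i) →
        r ≤ C * m ^ κ) {m1 : ℕ} (hm1 : 1 ≤ m1) {η η' : (Fin n → Derivation ℂ K K) → K}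
    (hη : IsSection y n m1 (m1 • Δ) η) (hη' : IsSection y n m1 (m1 • Δ) η') (h0 : η' E ≠ 0) :
    IsAlgebraic F (η E / η' E) := by
  classical
  by_contra hcon
  obtain ⟨z, hz⟩ : ∃ z : Fin κ → K, z = fun i : Fin κ => ω i.succ E / ω 0 E := ⟨_, rfl⟩
  rw [← hz] at hind
  obtain ⟨f, hf⟩ : ∃ f, f = η E / η' E := ⟨_, rfl⟩
  rw [← hf] at hcon
  have htr : Transcendental (Algebra.adjoin ℂ (Set.range z)) f := by
    intro h1
    apply hcon
    have h2 : Algebra.adjoin ℂ (Set.range z) ≤ F.toSubalgebra := by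
      rw [Algebra.adjoin_le_iff]
      rintro _ ⟨i, rfl⟩
      rw [hz]
      exact hF _
    obtain ⟨p, hp0, hp⟩ := h1
    refine ⟨p.map (Subalgebra.inclusion h2 : _ →+* F.toSubalgebra), ?_, ?_⟩
    · intro h
      apply hp0
      exact (Polynomial.map_eq_zero_iff (Subalgebra.inclusion_injective h2)).1 h
    · rw [Polynomial.aeval_def, Polynomial.eval₂_map]
      rw [Polynomial.aeval_def] at hp
      exact hp
  have hopt := (hind.option_iff_transcendental f).2 htr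
  have hcons : AlgebraicIndependent ℂ (Fin.cons f z : Fin (κ + 1) → K) := by
    have h1 := hopt.comp (finSuccEquiv κ) (finSuccEquiv κ).injective
    have h2 : ((fun o : Option (Fin κ) => o.elim f z) ∘ finSuccEquiv κ) =
        (Fin.cons f z : Fin (κ + 1) → K) := by
      funext i
      refine Fin.cases ?_ (fun i => ?_) i
      · simp
      · simp
    rwa [h2] at h1
  -- the sections
  let S : Fin (κ + 2) → (Fin n → Derivation ℂ K K) → K :=
    Fin.cons (fun D => ω 0 D * η' D) (Fin.cons (fun D => ω 0 D * η D)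
      (fun i D => ω i.succ D * η' D))
  have hS0 : S 0 = fun D => ω 0 D * η' D := rfl
  have hS1 : S (Fin.succ 0) = fun D => ω 0 D * η D := rfl
  have hS2 : ∀ i : Fin κ, S i.succ.succ = fun D => ω i.succ D * η' D := fun i => rfl
  have hsec : ∀ j, IsSection y n (m0 + m1) ((m0 + m1) • Δ) (S j) := by
    intro j
    refine Fin.cases ?_ (fun j => ?_) j
    · exact Pool.Agent.N133.OB.sec_mul (hω 0) hη'
    · refine Fin.cases ?_ (fun i => ?_) j
      · exact Pool.Agent.N133.OB.sec_mul (hω 0) hη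
      · exact Pool.Agent.N133.OB.sec_mul (hω i.succ) hη'
  have hne : S 0 E ≠ 0 := mul_ne_zero hω0 h0
  have hrat : (fun i : Fin (κ + 1) => S i.succ E / S 0 E) = (Fin.cons f z : Fin (κ + 1) → K) := by
    funext i
    refine Fin.cases ?_ (fun i => ?_) i
    · rw [hS1, hS0, Fin.cons_zero, hf]
      simp only
      field_simp
    · rw [hS2, hS0, Fin.cons_succ, hz]
      simp only
      field_simp
  have heff0 : Effective y (0 : Place ℂ K → ℚ) := ⟨fun P _ => le_rfl, by simp⟩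
  have hint : Integral y (0 : Place ℂ K → ℚ) := fun P _ => ⟨0, by simp⟩
  obtain ⟨κ', h1, h2, h3⟩ := dims2 (k := κ) (g := κ + 1) heff hE (fun A hA => hup A hA.2)
    (show 1 ≤ m0 + m1 by omega) hsec hne (by rw [hrat]; exact hcons)
  obtain ⟨h4, h5⟩ := h3 0 heff0 hint
  have h6 : ((κ' : ℕ) : EReal) ≤ ((κ : ℕ) : EReal) := by
    have := h4.trans h5
    exact_mod_cast this
  have h7 : κ' ≤ κ := by exact_mod_cast h6
  omega

end

end Pool.Agent.H897
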