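import Pool.Agent.H897.RB

/-!
Semistability of the part of optimal weight.
-/

set_option autoImplicit false
set_option linter.overlappingInstances false
set_option linter.unusedSectionVars false

open MvPolynomial Pool.Agent.N133.TB

namespace Pool.Agent.H897

section

variable {K V : Type} [Field K] [AddCommGroup V] [Module K V] {n m : ℕ}

theorem exists_val_ne {m : ℕ} {g : MultilinearMap K (fun _ : Fin m => V) K} (hg : g ≠ 0)
    (b : Module.Basis (Fin n) K V) : ∃ J : Fin m → Fin n, g (fun s => b (J s)) ≠ 0 := by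
  by_contra hcon
  push Not at hcon
  apply hg
  ext x
  rw [mul_expand g b]
  exact Finset.sum_eq_zero fun I _ => by rw [hcon, mul_zero]

theorem vec_li (b : Module.Basis (Fin n) K V) {C : Matrix (Fin n) (Fin n) K} (hC : C.det ≠ 0) :
    LinearIndependent K (vec b C) := by
  have h1 := Matrix.linearIndependent_rows_of_det_ne_zero hC
  have h2 := h1.map' (b.equivFun.symm : (Fin n → K) →ₗ[K] V) (LinearEquiv.ker _)
  have h3 : (⇑(b.equivFun.symm : (Fin n → K) →ₗ[K] V) ∘ fun i => C i) = vec b C := by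
    funext j
    exact b.equivFun_symm_apply (C j)
  rw [← h3]
  exact h2

theorem exists_basis_of_li (b : Module.Basis (Fin n) K V) {h : Fin n → V}
    (hh : LinearIndependent K h) : ∃ b' : Module.Basis (Fin n) K V, ⇑b' = h := by
  by_cases hn : n = 0
  · subst hn
    refine ⟨b, ?_⟩
    funext i
    exact i.elim0
  · have : Nonempty (Fin n) := ⟨⟨0, Nat.pos_of_ne_zero hn⟩⟩
    refine ⟨basisOfLinearIndependentOfCardEqFinrank hh ?_, ?_⟩
    · rw [Module.finrank_eq_card_basis b]
    · exact coe_basisOfLinearIndependentOfCardEqFinrank _ _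

theorem tbar_basis (b : Module.Basis (Fin n) K V) {γ : Fin n → ℚ}
    (t : MultilinearMap K (fun _ : Fin m => V) K) {J : Fin m → Fin n} (hJ : ∑ s, γ (J s) = 1) :
    tbar b γ t (fun s => b (J s)) = t (fun s => b (J s)) := by
  classical
  rw [tbar_apply, Finset.sum_eq_single J]
  · rw [if_pos hJ, Finset.prod_eq_one, one_mul]
    intro s _
    rw [Module.Basis.coord_apply, Module.Basis.repr_self, Finsupp.single_eq_same]
  · intro I _ hI
    obtain ⟨s, hs⟩ := Function.ne_iff.1 hI
    rw [Finset.prod_eq_zero (Finset.mem_univ s), zero_mul]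
    rw [Module.Basis.coord_apply, Module.Basis.repr_self, Finsupp.single_eq_of_ne hs]
  · intro h
    exact absurd (Finset.mem_univ J) h

theorem card_sum {γ : Fin n → ℚ} {e : Fin n → ℕ} {A C : ℝ}
    (he : ∀ i, (e i : ℝ) * Fintype.card {l // γ l = γ i} = A * (C - γ i)) (g : Fin n → ℝ) :
    ∑ i, (e i : ℝ) * ∑ s, g (en γ i s).1 = A * (C * ∑ l, g l - ∑ l, (γ l : ℝ) * g l) := by
  classical
  have h1 : ∀ i, ∑ s, g (en γ i s).1 = ∑ l, if γ l = γ i then g l else 0 := by
    intro i
    rw [Equiv.sum_comp (en γ i) fun x => g x.1, ← Finset.sum_filter]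
    exact (Finset.sum_subtype _ (by simp) g).symm
  have h2 : ∀ l, ∑ i, (if γ l = γ i then (e i : ℝ) else 0) = A * (C - γ l) := by
    intro l
    have hcard : (0 : ℝ) < Fintype.card {x // γ x = γ l} := by
      have : 0 < Fintype.card {x // γ x = γ l} := Fintype.card_pos_iff.2 ⟨⟨l, rfl⟩⟩
      exact_mod_cast this
    have h3 : ∀ i, (if γ l = γ i then (e i : ℝ) else 0) =
        (if γ i = γ l then (1 : ℝ) else 0) * (A * (C - γ l) / Fintype.card {x // γ x = γ l}) := by
      intro i
      by_cases hi : γ i = γ l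
      · rw [if_pos hi.symm, if_pos hi, one_mul, eq_div_iff hcard.ne']
        have := he i
        simp only [hi] at this
        exact this
      · rw [if_neg (Ne.symm hi), if_neg hi, zero_mul]
    simp only [h3]
    rw [← Finset.sum_mul, Finset.sum_boole]
    have h4 : ((Finset.univ.filter fun i => γ i = γ l).card : ℝ) =
        Fintype.card {x // γ x = γ l} := by
      rw [Fintype.card_subtype]
    rw [h4]
    field_simp
  simp only [h1, Finset.mul_sum]
  rw [Finset.sum_comm]
  have h3 : ∀ l, ∑ i, (e i : ℝ) * (if γ l = γ i then g l else 0) =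
      g l * (A * (C - γ l)) := by
    intro l
    rw [← h2 l, Finset.mul_sum]
    refine Finset.sum_congr rfl fun i _ => ?_
    split_ifs
    · ring
    · ring
  simp only [h3]
  rw [← Finset.sum_sub_distrib, Finset.mul_sum]
  exact Finset.sum_congr rfl fun l _ => by ring

/-- **Semistability of the leading part.** -/
theorem ss_lemma {b : Module.Basis (Fin n) K V} {γ : Fin n → ℚ}
    {t : MultilinearMap K (fun _ : Fin m => V) K}
    (hopt : ∀ (h : Fin n → V) (σ : Equiv.Perm (Fin n)), LinearIndependent K h →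
      (∀ i l, b.coord l (h i) ≠ 0 → γ l = γ (σ i)) → ∀ (lam : Fin n → ℝ) (c : ℝ),
        ∑ i, lam i = 0 → (∀ J : Fin m → Fin n, ∑ s, γ (σ (J s)) = 1 → ∑ s, lam (J s) < c →
          t (fun s => h (J s)) = 0) →
        c ≤ (∑ i, (γ i : ℝ) ^ 2)⁻¹ * ∑ i, (γ (σ i) : ℝ) * lam i)
    {d : ℕ} {e : Fin n → ℕ} {C : ℝ}
    (he : ∀ i, (e i : ℝ) * Fintype.card {l // γ l = γ i} =
      (d * (∑ i, (γ i : ℝ) ^ 2)⁻¹) * (C - γ i))
    {h : Fin n → V} (hh : LinearIndependent K h) {lam : Fin n → ℝ} (hlam : ∑ i, lam i = 0) {ν : ℝ}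
    (hν : ∀ J : ((β : Fin d ⊕ ((i : Fin n) × Fin (e i))) × Fin (degF m d γ e β)) → Fin n,
      ∑ z, lam (J z) < ν → prodML (gF b γ t d e) (fun z => h (J z)) = 0) : ν ≤ 0 := by
  classical
  -- the factors do not vanish
  have htb : tbar b γ t ≠ 0 := by
    intro h0
    have h1 := hopt b (Equiv.refl _) b.linearIndependent (fun i l hl => by
      rw [Module.Basis.coord_apply, Module.Basis.repr_self] at hl
      by_contra hcon
      exact hl (Finsupp.single_eq_of_ne (fun h => hcon (by rw [h]; rfl)))) (fun _ => 0) 1 (by simp)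
      (fun J hJ _ => by
        rw [← tbar_basis b t (γ := γ) (J := J) hJ, h0]
        rfl)
    simp at h1
    linarith
  -- a common adapted basis
  obtain ⟨A, hA⟩ : ∃ A : Matrix (Fin n) (Fin n) K, A = Matrix.of fun j => b.equivFun (h j) :=
    ⟨_, rfl⟩
  have hAv : ∀ j, h j = ∑ k, A j k • b k := by
    intro j
    rw [hA]
    exact (b.sum_equivFun (h j)).symm
  have hAdet : A.det ≠ 0 := by
    intro h0
    obtain ⟨v, hv0, hv⟩ := Matrix.exists_vecMul_eq_zero_iff.2 h0
    apply hv0
    funext s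
    refine Fintype.linearIndependent_iff.1 hh v ?_ s
    simp only [hAv, Finset.smul_sum, smul_smul]
    rw [Finset.sum_comm]
    refine Finset.sum_eq_zero fun k _ => ?_
    rw [← Finset.sum_smul]
    have h1 := congrFun hv k
    rw [Matrix.vecMul, dotProduct, Pi.zero_apply] at h1
    rw [h1, zero_smul]
  obtain ⟨f, σ0, σ, hf, hf1, hf2⟩ := t_flag K n A 1 lam (fun i => (γ i : ℝ)) hAdet
    (by rw [Matrix.det_one]; exact one_ne_zero)
  have hCle : ∀ j l, f j l ≠ 0 → γ l ≤ γ (σ j) := by
    intro j l hl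
    obtain ⟨B, hB1, hB2⟩ := exists_coef (hf2 j)
    by_contra hcon
    push Not at hcon
    apply hl
    rw [hB2 l, Finset.sum_eq_single l]
    · rw [hB1 l (by exact_mod_cast hcon), zero_mul]
    · intro i _ hi
      rw [Matrix.one_apply_ne hi, mul_zero]
    · intro h
      exact absurd (Finset.mem_univ l) h
  have hkJ : ∀ J : ((β : Fin d ⊕ ((i : Fin n) × Fin (e i))) × Fin (degF m d γ e β)) → Fin n,
      ∑ z, (lam ∘ σ0) (J z) < ν → prodML (gF b γ t d e) (fun z => vec b f (J z)) = 0 := by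
    intro J hJ
    choose B hB1 hB2 using fun j => exists_coef (hf1 j)
    have h1 : ∀ j, vec b f j = ∑ l, B j l • h l := by
      intro j
      unfold vec
      simp only [hAv, Finset.smul_sum, smul_smul]
      rw [Finset.sum_comm]
      refine Finset.sum_congr rfl fun k _ => ?_
      rw [hB2 j k, Finset.sum_smul]
    simp only [h1]
    rw [MultilinearMap.map_sum]
    refine Finset.sum_eq_zero fun I _ => ?_
    rw [MultilinearMap.map_smul_univ]
    by_cases h0 : ∃ z, B (J z) (I z) = 0
    · obtain ⟨z, hz⟩ := h0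
      rw [Finset.prod_eq_zero (Finset.mem_univ z) hz, zero_smul]
    · push Not at h0
      rw [hν I, smul_zero]
      refine lt_of_le_of_lt (Finset.sum_le_sum fun z _ => ?_) hJ
      by_contra hcon
      push Not at hcon
      exact h0 z (hB1 _ _ hcon)
  obtain ⟨kb, hkb⟩ := exists_basis_of_li b (vec_li b hf)
  have hne : ∀ β, ∃ J : Fin (degF m d γ e β) → Fin n,
      gF b γ t d e β (fun s => vec b f (J s)) ≠ 0 := by
    intro β
    rw [← hkb]
    refine exists_val_ne ?_ kb
    rcases β with a | z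
    · exact htb
    · intro h0
      have h1 := omg_ne (γ := γ) (σ := Equiv.refl _) (C := (1 : Matrix (Fin n) (Fin n) K)) (by
        have h2 : hom γ (Equiv.refl _) (1 : Matrix (Fin n) (Fin n) K) = 1 := by
          ext i j
          by_cases hij : i = j
          · subst hij
            simp [hom]
          · simp [hom, Matrix.one_apply_ne hij]
        rw [h2, Matrix.det_one]
        exact one_ne_zero) b z.1
      apply h1
      have h2 : omg b γ z.1 = 0 := h0
      rw [h2]
      rfl
  obtain ⟨c, hc, hνc⟩ := prod_weights (gF b γ t d e) hne hkJ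
  obtain ⟨X, hX⟩ : ∃ X, X = ∑ i, (γ (σ i) : ℝ) * (lam ∘ σ0) i := ⟨_, rfl⟩
  have hlam' : ∑ i, (lam ∘ σ0) i = 0 := (Equiv.sum_comp σ0 lam).trans hlam
  have hhom := det_hom hCle
  have hkbli : LinearIndependent K (vec b (hom γ σ f)) := vec_li b (by rw [hhom]; exact hf)
  have hc1 : ∀ a, c (Sum.inl a) ≤ (∑ i, (γ i : ℝ) ^ 2)⁻¹ * X := by
    intro a
    rw [hX]
    refine hopt (vec b (hom γ σ f)) σ hkbli (fun i l hl => ?_) (lam ∘ σ0) _ hlam'
      (fun J hJ hJc => ?_)
    · rw [coord_vec] at hl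
      by_contra hcon
      exact hl (if_neg hcon)
    · obtain ⟨h1, h2⟩ := (tbar_hom hCle b t J).1 hJ
      rw [h2, h1]
      exact hc (Sum.inl a) J hJc
  have hc2 : ∀ z : (i : Fin n) × Fin (e i), c (Sum.inr z) ≤
      ∑ s, (lam ∘ σ0) (σ.symm (en γ z.1 s).1) := by
    intro z
    have h1 := omg_ne (by rw [hhom]; exact hf) b z.1 (γ := γ) (σ := σ) (C := f)
    rcases omg_hom (σ := σ) (C := f) b z.1 (γ := γ) (fun s => σ.symm (en γ z.1 s).1) with h2 | h2
    · rw [h2] at h1
      by_contra hcon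
      push Not at hcon
      exact h1 (hc (Sum.inr z) (fun s => σ.symm (en γ z.1 s).1) hcon)
    · exact absurd h2 h1
  have h3 : ∑ β, c β ≤ d * ((∑ i, (γ i : ℝ) ^ 2)⁻¹ * X) +
      ∑ i, (e i : ℝ) * ∑ s, (lam ∘ σ0) (σ.symm (en γ i s).1) := by
    rw [Fintype.sum_sum_type, Fintype.sum_sigma]
    refine add_le_add ?_ (Finset.sum_le_sum fun i _ => ?_)
    · refine (Finset.sum_le_sum fun a _ => hc1 a).trans (le_of_eq ?_)
      simp
    · refine (Finset.sum_le_sum fun a _ => hc2 ⟨i, a⟩).trans (le_of_eq ?_)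
      change ∑ _x : Fin (e i), ∑ s, (lam ∘ σ0) (σ.symm (en γ i s).1) = _
      rw [Finset.sum_const, Finset.card_univ, Fintype.card_fin, nsmul_eq_mul]
  rw [card_sum he fun l => (lam ∘ σ0) (σ.symm l)] at h3
  have h4 : ∑ l, (lam ∘ σ0) (σ.symm l) = 0 := (Equiv.sum_comp σ.symm (lam ∘ σ0)).trans hlam'
  have h5 : ∑ l, (γ l : ℝ) * (lam ∘ σ0) (σ.symm l) = X := by
    rw [hX, ← Equiv.sum_comp σ.symm fun i => (γ (σ i) : ℝ) * (lam ∘ σ0) i]
    refine Finset.sum_congr rfl fun l _ => ?_
    rw [Equiv.apply_symm_apply]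
  rw [h4, h5] at h3
  linarith

end

end Pool.Agent.H897
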