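import Pool.Agent.H897.QA
import Pool.Agent.H897.RC

/-!
Semistability of the part of optimal weight, for families.
-/

set_option autoImplicit false
set_option linter.overlappingInstances false
set_option linter.unusedSectionVars false

open MvPolynomial Pool.Agent.N133.TB

namespace Pool.Agent.H897

section

variable {K V : Type} [Field K] [AddCommGroup V] [Module K V] {n m : ℕ} {ι : Type}

theorem prod_le {B : Type} [Fintype B] {deg : B → ℕ}
    (g : (β : B) → MultilinearMap K (fun _ : Fin (deg β) => V) K) {h : Fin n → V}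
    {lam : Fin n → ℝ} {ν : ℝ}
    (hν : ∀ J : ((β : B) × Fin (deg β)) → Fin n, ∑ z, lam (J z) < ν →
      prodML g (fun z => h (J z)) = 0) {c : B → ℝ}
    (hatt : ∀ β, ∃ J : Fin (deg β) → Fin n, g β (fun s => h (J s)) ≠ 0 ∧
      ∑ s, lam (J s) = c β) : ν ≤ ∑ β, c β := by
  classical
  choose J hJ hJc using hatt
  by_contra hcon
  push Not at hcon
  have h2 := hν (fun z => J z.1 z.2) (by
    rw [Fintype.sum_sigma]
    simp only [hJc]
    exact hcon)
  exact Finset.prod_ne_zero_iff.2 (fun β _ => hJ β) h2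

/-- **Semistability of the leading part of a family.** -/
theorem ss_lemmaF [Finite ι] {b : Module.Basis (Fin n) K V} {γ : Fin n → ℚ}
    {t : ι → MultilinearMap K (fun _ : Fin m => V) K}
    (hopt : ∀ (h : Fin n → V) (σ : Equiv.Perm (Fin n)), LinearIndependent K h →
      (∀ i l, b.coord l (h i) ≠ 0 → γ l = γ (σ i)) → ∀ (lam : Fin n → ℝ) (c : ℝ),
        ∑ i, lam i = 0 → (∀ i (J : Fin m → Fin n), ∑ s, γ (σ (J s)) = 1 →
          ∑ s, lam (J s) < c → t i (fun s => h (J s)) = 0) →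
        c ≤ (∑ i, (γ i : ℝ) ^ 2)⁻¹ * ∑ i, (γ (σ i) : ℝ) * lam i)
    {d : ℕ} {e : Fin n → ℕ} {C : ℝ}
    (he : ∀ i, (e i : ℝ) * Fintype.card {l // γ l = γ i} =
      (d * (∑ i, (γ i : ℝ) ^ 2)⁻¹) * (C - γ i))
    {h : Fin n → V} (hh : LinearIndependent K h) {lam : Fin n → ℝ} (hlam : ∑ i, lam i = 0) {ν : ℝ}
    (hν : ∀ i (J : ((β : Fin d ⊕ ((i : Fin n) × Fin (e i))) × Fin (degF m d γ e β)) → Fin n),
      ∑ z, lam (J z) < ν → prodML (gF b γ (t i) d e) (fun z => h (J z)) = 0) : ν ≤ 0 := by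
  classical
  have := Fintype.ofFinite ι
  -- some leading part does not vanish
  obtain ⟨i1, htb⟩ : ∃ i, tbar b γ (t i) ≠ 0 := by
    by_contra h0
    push Not at h0
    have h1 := hopt b (Equiv.refl _) b.linearIndependent (fun i l hl => by
      rw [Module.Basis.coord_apply, Module.Basis.repr_self] at hl
      by_contra hcon
      exact hl (Finsupp.single_eq_of_ne (fun h => hcon (by rw [h]; rfl)))) (fun _ => 0) 1 (by simp)
      (fun i J hJ _ => by
        rw [← tbar_basis b (t i) (γ := γ) (J := J) hJ, h0 i]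
        rfl)
    simp at h1
    linarith
  -- a common adapted basis
  obtain ⟨A, hA⟩ : ∃ A : Matrix (Fin n) (Fin n) K, A = Matrix.of fun j => b.equivFun (h j) :=
    ⟨_, rfl⟩
  have hAv : ∀ j, h j = ∑ k, A j k • b k := by
    intro j
    rw [hA]
    exact (b.sum_equivFun (h j)).symm
  have hAdet : A.det ≠ 0 := by
    intro h0
    obtain ⟨v, hv0, hv⟩ := Matrix.exists_vecMul_eq_zero_iff.2 h0
    apply hv0
    funext s
    refine Fintype.linearIndependent_iff.1 hh v ?_ s
    simp only [hAv, Finset.smul_sum, smul_smul]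
    rw [Finset.sum_comm]
    refine Finset.sum_eq_zero fun k _ => ?_
    rw [← Finset.sum_smul]
    have h1 := congrFun hv k
    rw [Matrix.vecMul, dotProduct, Pi.zero_apply] at h1
    rw [h1, zero_smul]
  obtain ⟨f, σ0, σ, hf, hf1, hf2⟩ := t_flag K n A 1 lam (fun i => (γ i : ℝ)) hAdet
    (by rw [Matrix.det_one]; exact one_ne_zero)
  have hCle : ∀ j l, f j l ≠ 0 → γ l ≤ γ (σ j) := by
    intro j l hl
    obtain ⟨B, hB1, hB2⟩ := exists_coef (hf2 j)
    by_contra hcon
    push Not at hcon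
    apply hl
    rw [hB2 l, Finset.sum_eq_single l]
    · rw [hB1 l (by exact_mod_cast hcon), zero_mul]
    · intro i _ hi
      rw [Matrix.one_apply_ne hi, mul_zero]
    · intro h
      exact absurd (Finset.mem_univ l) h
  have hkJ : ∀ i (J : ((β : Fin d ⊕ ((i : Fin n) × Fin (e i))) × Fin (degF m d γ e β)) → Fin n),
      ∑ z, (lam ∘ σ0) (J z) < ν → prodML (gF b γ (t i) d e) (fun z => vec b f (J z)) = 0 := by
    intro i J hJ
    choose B hB1 hB2 using fun j => exists_coef (hf1 j)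
    have h1 : ∀ j, vec b f j = ∑ l, B j l • h l := by
      intro j
      unfold vec
      simp only [hAv, Finset.smul_sum, smul_smul]
      rw [Finset.sum_comm]
      refine Finset.sum_congr rfl fun k _ => ?_
      rw [hB2 j k, Finset.sum_smul]
    simp only [h1]
    rw [MultilinearMap.map_sum]
    refine Finset.sum_eq_zero fun I _ => ?_
    rw [MultilinearMap.map_smul_univ]
    by_cases h0 : ∃ z, B (J z) (I z) = 0
    · obtain ⟨z, hz⟩ := h0
      rw [Finset.prod_eq_zero (Finset.mem_univ z) hz, zero_smul]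
    · push Not at h0
      rw [hν i I, smul_zero]
      refine lt_of_le_of_lt (Finset.sum_le_sum fun z _ => ?_) hJ
      by_contra hcon
      push Not at hcon
      exact h0 z (hB1 _ _ hcon)
  obtain ⟨kb, hkb⟩ := exists_basis_of_li b (vec_li b hf)
  -- the smallest weight of the leading parts
  obtain ⟨J1, hJ1⟩ : ∃ J : Fin m → Fin n, tbar b γ (t i1) (fun s => vec b f (J s)) ≠ 0 := by
    rw [← hkb]
    exact exists_val_ne htb kb
  obtain ⟨⟨i2, J2⟩, hz, hmin⟩ := Finset.exists_min_image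
    (Finset.univ.filter fun z : ι × (Fin m → Fin n) =>
      tbar b γ (t z.1) (fun s => vec b f (z.2 s)) ≠ 0)
    (fun z => ∑ s, (lam ∘ σ0) (z.2 s)) ⟨(i1, J1), by simpa using hJ1⟩
  have hJ2 : tbar b γ (t i2) (fun s => vec b f (J2 s)) ≠ 0 := (Finset.mem_filter.1 hz).2
  obtain ⟨X, hX⟩ : ∃ X, X = ∑ i, (γ (σ i) : ℝ) * (lam ∘ σ0) i := ⟨_, rfl⟩
  have hlam' : ∑ i, (lam ∘ σ0) i = 0 := (Equiv.sum_comp σ0 lam).trans hlam
  have hhom := det_hom hCle
  have hkbli : LinearIndependent K (vec b (hom γ σ f)) := vec_li b (by rw [hhom]; exact hf)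
  have hc1 : ∑ s, (lam ∘ σ0) (J2 s) ≤ (∑ i, (γ i : ℝ) ^ 2)⁻¹ * X := by
    rw [hX]
    refine hopt (vec b (hom γ σ f)) σ hkbli (fun i l hl => ?_) (lam ∘ σ0) _ hlam'
      (fun i J hJ hJc => ?_)
    · rw [coord_vec] at hl
      by_contra hcon
      exact hl (if_neg hcon)
    · obtain ⟨h1, h2⟩ := (tbar_hom hCle b (t i) J).1 hJ
      rw [h2, h1]
      by_contra hcon
      exact absurd (hmin (i, J) (by simpa using hcon)) (not_le.2 hJc)
  have h3 := prod_le (gF b γ (t i2) d e) (h := vec b f) (lam := lam ∘ σ0) (hkJ i2)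
    (c := Sum.elim (fun _ => ∑ s, (lam ∘ σ0) (J2 s))
      (fun z => ∑ s, (lam ∘ σ0) (σ.symm (en γ z.1 s).1))) (by
      rintro (a | z)
      · exact ⟨J2, hJ2, rfl⟩
      · refine ⟨fun s => σ.symm (en γ z.1 s).1, ?_, rfl⟩
        have h1 := omg_ne (by rw [hhom]; exact hf) b z.1 (γ := γ) (σ := σ) (C := f)
        rcases omg_hom (σ := σ) (C := f) b z.1 (γ := γ) (fun s => σ.symm (en γ z.1 s).1) with
          h2 | h2
        · rw [h2] at h1
          exact h1
        · exact absurd h2 h1)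
  rw [Fintype.sum_sum_type, Fintype.sum_sigma] at h3
  replace h3 : ν ≤ d * ∑ s, (lam ∘ σ0) (J2 s) +
      ∑ i, (e i : ℝ) * ∑ s, (lam ∘ σ0) (σ.symm (en γ i s).1) := by
    refine h3.trans (le_of_eq ?_)
    congr 1
    · change ∑ _a : Fin d, ∑ s, (lam ∘ σ0) (J2 s) = _
      rw [Finset.sum_const, Finset.card_univ, Fintype.card_fin, nsmul_eq_mul]
    · refine Finset.sum_congr rfl fun i _ => ?_
      change ∑ _a : Fin (e i), ∑ s, (lam ∘ σ0) (σ.symm (en γ i s).1) = _
      rw [Finset.sum_const, Finset.card_univ, Fintype.card_fin, nsmul_eq_mul]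
  rw [card_sum he fun l => (lam ∘ σ0) (σ.symm l)] at h3
  have h4 : ∑ l, (lam ∘ σ0) (σ.symm l) = 0 := (Equiv.sum_comp σ.symm (lam ∘ σ0)).trans hlam'
  have h5 : ∑ l, (γ l : ℝ) * (lam ∘ σ0) (σ.symm l) = X := by
    rw [hX, ← Equiv.sum_comp σ.symm fun i => (γ (σ i) : ℝ) * (lam ∘ σ0) i]
    refine Finset.sum_congr rfl fun l _ => ?_
    rw [Equiv.apply_symm_apply]
  rw [h4, h5] at h3
  have h6 := mul_le_mul_of_nonneg_left hc1 (Nat.cast_nonneg (α := ℝ) d)
  linarith

end

end Pool.Agent.H897
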