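import Pool.Agent.H897.RH
import Pool.Graph.R_seed8.W619.Y.Loc

/-!
The sections defined by the semi-invariants, and the Kodaira dimension.
-/

set_option autoImplicit false
set_option linter.overlappingInstances false
set_option linter.unusedSectionVars false

open MvPolynomial FF Pool.Agent.W602.GT Pool.Agent.Y172 Pool.Agent.NH31 Pool.Agent.W603.LV
open Pool.Agent.N133.TB Pool.Agent.Y174

namespace Pool.Agent.H897

section

variable {K : Type} [Field K] [Algebra ℂ K] {N n : ℕ} {y : Fin (N + 1) → K}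

/-- the constants -/
theorem const_of_all_der {f : K} (h : ∀ D : Derivation ℂ K K, D f = 0) :
    ∃ c : ℂ, f = algebraMap ℂ K c := by
  apply Pool.Agent.W602.GT.const_of_algebraic
  by_contra hcon
  obtain ⟨D, hD⟩ := Pool.Agent.W619.Y.exists_der (k := ℂ) (L := K) hcon
  rw [h D] at hD
  exact zero_ne_one hD

/-- the degree of a semi-invariant -/
theorem inv_deg {m W : ℕ} {Q : MvPolynomial (Ix (fun _ : Unit => m) n) ℂ}
    (hQ : SemiInv ℂ (fun _ : Unit => m) n W Q) {μ : Ix (fun _ : Unit => m) n →₀ ℕ}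
    (hμ : μ ∈ Q.support) : m * ∑ x, μ x = n * W := by
  classical
  have h10 : ∑ i0 : Fin n, ∑ x, μ x * Sec.cnt i0 x = n * W := by
    rw [Finset.sum_congr rfl fun i0 _ => Sec.weight i0 hQ hμ]
    simp
  rw [Finset.sum_comm] at h10
  rw [← h10, Finset.mul_sum]
  refine Finset.sum_congr rfl fun x _ => ?_
  rw [← Finset.mul_sum, mul_comm]
  congr 1
  exact (sum_cnt x).symm

/-- the order of a semi-invariant -/
theorem inv_ge {V : Type} [AddCommGroup V] [Module K V] {P : Place ℂ K} {m W b : ℕ} (hm : 1 ≤ m)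
    {t : MultilinearMap K (fun _ : Fin m => V) K} {E : Fin n → V} {nu : Fin n → ℝ} {l : ℝ}
    (ht : ∀ I : Fin m → Fin n, GeR P (∑ s, nu (I s) - l) (t fun s => E (I s)))
    {Q : MvPolynomial (Ix (fun _ : Unit => m) n) ℂ}
    (hQ : SemiInv ℂ (fun _ : Unit => m) n W Q) (hb : m * b = n * W) :
    GeR P (W * ∑ k, nu k - b * l) (aeval (pt (co (fun _ : Unit => t) E)) Q) := by
  classical
  rw [aeval_def, eval₂_eq']
  refine Pool.Agent.Y174.OB.geR_sum _ _ _ fun μ hμ => ?_
  have h4 : GeR P (∑ x : Ix (fun _ : Unit => m) n, (μ x : ℝ) * (∑ s, nu (x.2 s) - l))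
      (∏ x, pt (co (fun _ : Unit => t) E) x ^ μ x) :=
    geR_prod' _ _ fun x => GeR.pow (ht x.2) _
  have h6 : GeR P 0 (algebraMap ℂ K (coeff μ Q)) := by
    by_cases h0 : coeff μ Q = 0
    · left
      rw [h0, map_zero]
    · right
      rw [P.ord_const h0]
      simp
  have hcnt : ∀ i0 : Fin n, ∑ x, (μ x : ℝ) * (Sec.cnt i0 x : ℝ) = W := by
    intro i0
    have := Sec.weight i0 hQ hμ
    exact_mod_cast this
  have h7 : ∑ x : Ix (fun _ : Unit => m) n, (μ x : ℝ) * ∑ s, nu (x.2 s) = W * ∑ k, nu k := by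
    have h8 : ∀ x : Ix (fun _ : Unit => m) n, (μ x : ℝ) * ∑ s, nu (x.2 s) =
        ∑ k, (μ x : ℝ) * (Sec.cnt k x : ℝ) * nu k := by
      intro x
      rw [sum_comp_cnt x.2 nu, Finset.mul_sum]
      refine Finset.sum_congr rfl fun k _ => ?_
      rw [mul_assoc]
      rfl
    simp only [h8]
    rw [Finset.sum_comm, Finset.mul_sum]
    refine Finset.sum_congr rfl fun k _ => ?_
    rw [← Finset.sum_mul, hcnt]
  have h8 : ∑ x : Ix (fun _ : Unit => m) n, (μ x : ℝ) = b := by
    have h9 := inv_deg hQ hμ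
    rw [← hb] at h9
    have h10 := Nat.eq_of_mul_eq_mul_left hm h9
    exact_mod_cast h10
  refine (h6.mul h4).mono (le_of_eq ?_)
  simp only [mul_sub, Finset.sum_sub_distrib]
  rw [h7, ← Finset.sum_mul, h8, zero_add]

/-- **The sections.** -/
theorem stable_sec (hy : NormalModel y) (hn : Algebra.trdeg ℂ K = n) (hn1 : 1 ≤ n)
    {Δ : Place ℂ K → ℚ} (hΔ : FinSup y Δ) {α : Place ℂ K → ℝ} (hα : MovableClass y α) {c : ℝ}
    (hc : LogDegree y n Δ α c) (hst : StableTangent y n Δ α c) {m p : ℕ} (hm : 1 ≤ m) {a : ℤ}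
    (hp : (p : ℤ) = m + n * a)
    {ℓ : Place ℂ K → ℚ} {lam : ℝ} (hL : HasDeg y α (fun P => ℓ P) lam)
    (hdeg : n * lam ≤ -(p * c))
    {T : (Fin n → Derivation ℂ K K) → MultilinearMap K (fun _ : Fin m => Derivation ℂ K K) K}
    (hT : Twisted a T) (hTO : ∀ P, IsPrimeDivisor y P → OrbAtL (Δ P) (ℓ P) P a T)
    {E : Fin n → Derivation ℂ K K} (hE : IsFrame E) (hT0 : T E ≠ 0) :
    ∃ (k : ℕ) (ω : (Fin n → Derivation ℂ K K) → K), 1 ≤ k ∧ ω ≠ 0 ∧
      IsSection y n (k * p) ((k * p) • Δ + (k * n) • ℓ) ω := by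
  classical
  have hess := hy.ess
  obtain ⟨x, E0, hx, hE0⟩ := exists_crd hn
  obtain ⟨w, hwf, hw⟩ := exists_canon hy hn hx hE0
  obtain ⟨A, hA, hAE⟩ := frame_change hx hE0 hE
  have hT0' : T E0 ≠ 0 := by
    intro h0
    apply hT0
    rw [hAE, hT A E0 hA, h0, smul_zero]
  have hpR : (p : ℝ) = m + n * a := by exact_mod_cast hp
  obtain ⟨W, Q, hW, hQ, hQ0⟩ := stable_inv hy hn hn1 hΔ hα hc hst hm hL
    (by rw [← hpR]; exact hdeg) hT hTO hx hE0 hT0'
  obtain ⟨f, hf⟩ : ∃ f, f = aeval (pt (co (fun _ : Unit => T E0) E0)) Q := ⟨_, rfl⟩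
  rw [← hf] at hQ0
  have hQne : Q ≠ 0 := by
    intro h0
    apply hQ0
    rw [hf, h0, map_zero]
  obtain ⟨μ, hμ⟩ := support_nonempty.2 hQne
  obtain ⟨b, hbd⟩ : ∃ b, b = ∑ x, μ x := ⟨_, rfl⟩
  have hb : m * b = n * W := by
    rw [hbd]
    exact inv_deg hQ hμ
  have hb1 : 1 ≤ b := by
    rcases Nat.eq_zero_or_pos b with h | h
    · rw [h, mul_zero] at hb
      have := Nat.mul_pos hn1 hW
      omega
    · exact h
  have hfn : f ^ n ≠ 0 := pow_ne_zero _ hQ0
  have hpl := frm_pluri x (b * p) (f ^ n)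
  refine ⟨b, frm x (b * p) (f ^ n), hb1, ?_, hpl, fun P hP => (hw P hP _ _ _ hpl).2 (Or.inr ?_)⟩
  · intro h0
    have h1 : frm x (b * p) (f ^ n) E0 = f ^ n := frm_eval hE0 _ _
    rw [h0] at h1
    exact hfn h1.symm
  rw [frm_eval hE0]
  obtain ⟨E', i0, M, C, U, nk, hAd, hEM, hM0, hMw, -⟩ := loc_data hy hn hx hE0 hw
    (b := E0) (C0 := 1) (by rw [Matrix.det_one]; exact one_ne_zero) (fun k => by
      rw [Finset.sum_eq_single k]
      · rw [Matrix.one_apply_eq, one_smul]
      · intro j _ hj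
        rw [Matrix.one_apply_ne (Ne.symm hj), zero_smul]
      · intro h
        exact absurd (Finset.mem_univ _) h) Δ hP
  have h1 := inv_ge (P := P) hm (orb_coef hT (hTO P hP) hAd hEM hM0 hMw) hQ hb
  have h2 : aeval (pt (co (fun _ : Unit => T E0) E')) Q = M.det ^ W * f := by
    rw [hf, ← hQ K M]
    congr 2
    funext z
    rw [hEM]
    exact (act_co _ _ _ _ _).symm
  rw [h2, sum_nuf'] at h1
  have h3 := h1.resolve_left (mul_ne_zero (pow_ne_zero _ hM0) hQ0)
  rw [P.ord_mul (pow_ne_zero _ hM0) hQ0, P.ord_pow] at h3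
  have hMwR : (P.ord M.det : ℝ) = w P := by exact_mod_cast hMw
  push_cast at h3
  rw [hMwR] at h3
  have hbR : (m : ℝ) * b = n * W := by exact_mod_cast hb
  rw [P.ord_pow]
  have h4 : (-((((b * p) • Δ + (b * n) • ℓ) P : ℚ) : ℝ) - ((b * p : ℕ) : ℝ) * w P) ≤
      ((n * P.ord f : ℤ) : ℝ) := by
    simp only [Pi.add_apply, smul_ap]
    push_cast
    rw [hpR]
    have h5 := mul_le_mul_of_nonneg_left h3 (Nat.cast_nonneg (α := ℝ) n)
    have h6 : (n : ℝ) * (W * -(Δ P : ℝ) - b * (ℓ P + a * Δ P + a * w P)) - n * (W * w P) =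
        -(b * (m + n * a) * Δ P + b * n * ℓ P) - b * (m + n * a) * w P := by
      have h7 : (n : ℝ) * W = b * m := by rw [← hbR]; ring
      calc (n : ℝ) * (W * -(Δ P : ℝ) - b * (ℓ P + a * Δ P + a * w P)) - n * (W * w P) =
          -(n * W) * Δ P - n * b * (ℓ P + a * Δ P + a * w P) - (n * W) * w P := by ring
        _ = _ := by
          rw [h7]
          ring
    linarith
  exact_mod_cast h4

/-- a linear form on a space of dimension at least two has no invariants -/
theorem lin_null (hn : 2 ≤ n) {W : ℕ} (hW : 1 ≤ W)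
    {Q : MvPolynomial (Ix (fun _ : Unit => 1) n) ℂ} (hQ : SemiInv ℂ (fun _ : Unit => 1) n W Q)
    {F : Type} [Field F] [Algebra ℂ F] (t : Fam (fun _ : Unit => 1) n F) :
    aeval (pt t) Q = 0 := by
  classical
  have key : ∀ (t : Fam (fun _ : Unit => 1) n F) (i : Fin n), t () (fun _ => i) = 0 →
      aeval (pt t) Q = 0 := by
    intro t i ht
    rw [aeval_def, eval₂_eq']
    refine Finset.sum_eq_zero fun μ hμ => ?_
    have h1 := Sec.weight i hQ hμ
    have h2 : μ ⟨(), fun _ => i⟩ ≠ 0 := by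
      intro h0
      have h3 : ∑ x, μ x * Sec.cnt i x = 0 := by
        refine Finset.sum_eq_zero fun x _ => ?_
        by_cases hx : x.2 0 = i
        · have h4 : x = ⟨(), fun _ => i⟩ := by
            obtain ⟨u, J⟩ := x
            cases u
            congr 1
            funext s
            rw [Subsingleton.elim s 0]
            exact hx
          rw [h4, h0, zero_mul]
        · have h4 : Sec.cnt i x = 0 := by
            unfold Sec.cnt
            rw [Finset.card_eq_zero, Finset.filter_eq_empty_iff]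
            intro s _ hs
            rw [Subsingleton.elim s 0] at hs
            exact hx hs
          rw [h4, mul_zero]
      omega
    have h3 : ∏ x, pt t x ^ μ x = 0 := Finset.prod_eq_zero (Finset.mem_univ ⟨(), fun _ => i⟩) (by
      change t () (fun _ => i) ^ _ = 0
      rw [ht, zero_pow h2])
    rw [h3, mul_zero]
  obtain ⟨i0, hi0⟩ : ∃ i0 : Fin n, i0 = ⟨0, by omega⟩ := ⟨_, rfl⟩
  obtain ⟨i1, hi1⟩ : ∃ i1 : Fin n, i1 = ⟨1, by omega⟩ := ⟨_, rfl⟩
  have hne : i0 ≠ i1 := by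
    rw [hi0, hi1]
    intro h
    have := congrArg Fin.val h
    simp at this
  by_cases h1 : t () (fun _ => i1) = 0
  · exact key t i1 h1
  obtain ⟨c, hc⟩ : ∃ c, c = -(t () (fun _ => i0) / t () (fun _ => i1)) := ⟨_, rfl⟩
  obtain ⟨A, hA⟩ : ∃ A, A = Matrix.transvection i0 i1 c := ⟨_, rfl⟩
  have h2 := key (Pool.Agent.N133.TB.act A t) i0 (by
    unfold Pool.Agent.N133.TB.act
    have h3 : ∀ I : Fin 1 → Fin n, (∏ s, A ((fun _ => i0 : Fin 1 → Fin n) s) (I s)) * t () I =
        A i0 (I 0) * t () (fun _ => I 0) := by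
      intro I
      rw [Fin.prod_univ_one]
      congr 2
      funext s
      rw [Subsingleton.elim s 0]
    rw [Finset.sum_congr rfl fun I _ => h3 I]
    have h4 := Equiv.sum_comp (Equiv.funUnique (Fin 1) (Fin n))
      (fun j => A i0 j * t () (fun _ => j))
    have h5 : ∑ I : Fin 1 → Fin n, A i0 (I 0) * t () (fun _ => I 0) =
        ∑ j, A i0 j * t () (fun _ => j) := h4
    rw [h5]
    have h6 : ∀ j, A i0 j = (if i0 = j then 1 else 0) + (if i1 = j then c else 0) := by
      intro j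
      rw [hA, Matrix.transvection, Matrix.add_apply, Matrix.one_apply, Matrix.single_apply]
      simp
    simp only [h6, add_mul, Finset.sum_add_distrib, ite_mul, one_mul, zero_mul,
      Finset.sum_ite_eq, Finset.mem_univ, if_true]
    rw [hc]
    field_simp
    ring)
  have h3 := hQ F A t
  rw [h2, hA, Matrix.det_transvection_of_ne _ _ hne, one_pow, one_mul] at h3
  exact h3.symm

end

end Pool.Agent.H897
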