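import Pool.Agent.H897.QB
import Pool.Agent.H897.RI

/-!
Semi-invariants of the leading part of a family, and their orders.
-/

set_option autoImplicit false
set_option linter.overlappingInstances false
set_option linter.unusedSectionVars false

open MvPolynomial FF Pool.Agent.N133.TB Pool.Agent.Y174 Pool.Agent.W603.LV

namespace Pool.Agent.H897

section

variable {K V : Type} [Field K] [Algebra ℂ K] [AddCommGroup V] [Module K V] {n m : ℕ} {ι : Type}

/-- **The order of a semi-invariant of the product.** -/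
theorem inv_locF [Fintype ι] {P : Place ℂ K} {b : Module.Basis (Fin n) K V} {γ : Fin n → ℚ}
    (hγ : Monotone γ) {t : ι → MultilinearMap K (fun _ : Fin m => V) K}
    (hvan : ∀ z (J : Fin m → Fin n), ∑ s, γ (J s) < 1 → t z (fun s => b (J s)) = 0)
    {E : Fin n → V} {C : Matrix (Fin n) (Fin n) K} (hbE : ∀ k, b k = ∑ j, C k j • E j)
    {nu : Fin n → ℝ} {l : ℝ}
    (ht : ∀ z (I : Fin m → Fin n), GeR P (∑ s, nu (I s) - l) (t z fun s => E (I s)))
    {U : Matrix (Fin n) (Fin n) K} (h1 : ∀ i, U i i = 1) (h2 : ∀ i j, i < j → U i j = 0)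
    {nk : Fin n → ℝ} (h3 : ∀ k j, GeR P (nk k - nu j) ((U * C) k j)) {d : ℕ} {e : Fin n → ℕ}
    {M : ℕ} (hM : M = Fintype.card ((β : Fin d ⊕ ((i : Fin n) × Fin (e i))) ×
      Fin (degF m d γ e β))) (hM1 : 1 ≤ M) {W : ℕ}
    {Q : MvPolynomial (Ix (fun _ : ι => Fintype.card ((β : Fin d ⊕ ((i : Fin n) ×
      Fin (e i))) × Fin (degF m d γ e β))) n) ℂ}
    (hQ : SemiInv ℂ (fun _ : ι => Fintype.card ((β : Fin d ⊕ ((i : Fin n) ×
      Fin (e i))) × Fin (degF m d γ e β))) n W Q) :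
    GeR P (W * ∑ k, nk k - (n * W / M : ℝ) * ∑ β, kap γ nk l d e β)
      (aeval (pt (co (fun z : ι => prodN b γ (t z) d e) b)) Q) := by
  classical
  have hUdet : (hom γ (Equiv.refl _) U).det = 1 := by
    have hUle : ∀ j l, U j l ≠ 0 → γ l ≤ γ ((Equiv.refl (Fin n)) j) := by
      intro j l hl
      refine hγ ?_
      by_contra hcon
      push Not at hcon
      exact hl (h2 _ _ hcon)
    rw [det_hom hUle]
    exact det_block h1 h2 (f := id) Function.injective_id
  have h5 : aeval (pt (co (fun z : ι => prodN b γ (t z) d e) b)) Q =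
      aeval (pt (co (fun z : ι => prodN b γ (t z) d e) (vec b (hom γ (Equiv.refl _) U)))) Q := by
    have h6 := hQ K (hom γ (Equiv.refl _) U) (co (fun z : ι => prodN b γ (t z) d e) b)
    rw [hUdet, one_pow, one_mul] at h6
    rw [← h6]
    congr 2
    funext x
    exact act_co _ _ _ _ _
  rw [h5, aeval_def, eval₂_eq']
  refine Pool.Agent.Y174.OB.geR_sum _ _ _ fun μ hμ => ?_
  have h4 : GeR P (∑ x : Ix (fun _ : ι => Fintype.card ((β : Fin d ⊕ ((i : Fin n) ×
      Fin (e i))) × Fin (degF m d γ e β))) n,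
        (μ x : ℝ) * (∑ s, nk (x.2 s) - ∑ β, kap γ nk l d e β))
      (∏ x, pt (co (fun z : ι => prodN b γ (t z) d e) (vec b (hom γ (Equiv.refl _) U))) x ^
        μ x) :=
    geR_prod' _ _ fun x => GeR.pow (prod_loc hγ (hvan x.1) hbE (ht x.1) h1 h2 h3 x.2) _
  have h6 : GeR P 0 (algebraMap ℂ K (coeff μ Q)) := by
    by_cases h0 : coeff μ Q = 0
    · left
      rw [h0, map_zero]
    · right
      rw [P.ord_const h0]
      simp
  have hcnt : ∀ i0 : Fin n, ∑ x, (μ x : ℝ) * (Sec.cnt i0 x : ℝ) = W := by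
    intro i0
    have := Sec.weight i0 hQ hμ
    exact_mod_cast this
  have h7 : ∑ x : Ix (fun _ : ι => Fintype.card ((β : Fin d ⊕ ((i : Fin n) ×
      Fin (e i))) × Fin (degF m d γ e β))) n, (μ x : ℝ) * ∑ s, nk (x.2 s) = W * ∑ k, nk k := by
    have h8 : ∀ x : Ix (fun _ : ι => Fintype.card ((β : Fin d ⊕ ((i : Fin n) ×
      Fin (e i))) × Fin (degF m d γ e β))) n, (μ x : ℝ) * ∑ s, nk (x.2 s) =
        ∑ k, (μ x : ℝ) * (Sec.cnt k x : ℝ) * nk k := by
      intro x
      rw [sum_comp_cnt x.2 nk, Finset.mul_sum]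
      refine Finset.sum_congr rfl fun k _ => ?_
      rw [mul_assoc]
      rfl
    simp only [h8]
    rw [Finset.sum_comm, Finset.mul_sum]
    refine Finset.sum_congr rfl fun k _ => ?_
    rw [← Finset.sum_mul, hcnt]
  have h8 : ∑ x : Ix (fun _ : ι => Fintype.card ((β : Fin d ⊕ ((i : Fin n) ×
      Fin (e i))) × Fin (degF m d γ e β))) n, (μ x : ℝ) = n * W / M := by
    have h9 : (M : ℝ) * ∑ x : Ix (fun _ : ι => Fintype.card ((β : Fin d ⊕ ((i : Fin n) ×
      Fin (e i))) × Fin (degF m d γ e β))) n, (μ x : ℝ) = n * W := by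
      have h10 : ∑ i0 : Fin n, ∑ x, (μ x : ℝ) * (Sec.cnt i0 x : ℝ) = n * W := by
        rw [Finset.sum_congr rfl fun i0 _ => hcnt i0]
        simp
      rw [Finset.sum_comm] at h10
      rw [← h10, Finset.mul_sum]
      refine Finset.sum_congr rfl fun x _ => ?_
      rw [← Finset.mul_sum, mul_comm]
      congr 1
      have h11 := sum_cnt x
      have h12 : ∑ i0 : Fin n, (Sec.cnt i0 x : ℝ) = M := by
        rw [hM]
        exact_mod_cast h11
      exact h12.symm
    have hM0 : (M : ℝ) ≠ 0 := by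
      have : M ≠ 0 := by omega
      exact_mod_cast this
    field_simp
    linarith
  refine (h6.mul h4).mono (le_of_eq ?_)
  simp only [mul_sub, Finset.sum_sub_distrib]
  rw [h7, ← Finset.sum_mul, h8, zero_add]

/-- **Existence of the semi-invariant.** -/
theorem exists_invF [Fintype ι] (hn : 1 ≤ n) (hm : 1 ≤ m) {b : Module.Basis (Fin n) K V} {γ : Fin n → ℚ}
    {t : ι → MultilinearMap K (fun _ : Fin m => V) K} {d : ℕ} (hd : 1 ≤ d) {e : Fin n → ℕ}
    (hss : ∀ (h : Fin n → V) (lam : Fin n → ℝ) (ν : ℝ), LinearIndependent K h →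
      ∑ i, lam i = 0 →
      (∀ i (J : ((β : Fin d ⊕ ((i : Fin n) × Fin (e i))) × Fin (degF m d γ e β)) → Fin n),
        ∑ z, lam (J z) < ν → prodML (gF b γ (t i) d e) (fun z => h (J z)) = 0) → ν ≤ 0) :
    ∃ (W : ℕ) (Q : MvPolynomial (Ix (fun _ : ι => Fintype.card ((β : Fin d ⊕ ((i : Fin n) ×
      Fin (e i))) × Fin (degF m d γ e β))) n) ℂ), 1 ≤ W ∧
      SemiInv ℂ (fun _ : ι => Fintype.card ((β : Fin d ⊕ ((i : Fin n) ×
        Fin (e i))) × Fin (degF m d γ e β))) n W Q ∧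
      aeval (pt (co (fun z : ι => prodN b γ (t z) d e) b)) Q ≠ 0 := by
  classical
  have hcK : CharZero K := charZero_of_injective_algebraMap (algebraMap ℂ K).injective
  have hM1 : 1 ≤ Fintype.card ((β : Fin d ⊕ ((i : Fin n) × Fin (e i))) ×
      Fin (degF m d γ e β)) := Fintype.card_pos_iff.2 ⟨⟨Sum.inl ⟨0, hd⟩, ⟨0, hm⟩⟩⟩
  have hback : ∀ (h : Fin n → V) (lam : Fin n → ℝ) (ν : ℝ),
      (∀ i (J : Fin (Fintype.card ((β : Fin d ⊕ ((i : Fin n) × Fin (e i))) ×
        Fin (degF m d γ e β))) → Fin n), ∑ s, lam (J s) < ν →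
          prodN b γ (t i) d e (fun s => h (J s)) = 0) →
      ∀ i (J : ((β : Fin d ⊕ ((i : Fin n) × Fin (e i))) × Fin (degF m d γ e β)) → Fin n),
        ∑ z, lam (J z) < ν → prodML (gF b γ (t i) d e) (fun z => h (J z)) = 0 := by
    intro h lam ν hν i J hJ
    have h1 := hν i (J ∘ (Fintype.equivFin _).symm) (by
      have h2 := Equiv.sum_comp (Fintype.equivFin ((β : Fin d ⊕ ((i : Fin n) × Fin (e i))) ×
        Fin (degF m d γ e β))).symm fun z => lam (J z)
      exact lt_of_eq_of_lt h2 hJ)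
    have h2 : prodN b γ (t i) d e (fun s => h ((J ∘ (Fintype.equivFin _).symm) s)) =
        prodML (gF b γ (t i) d e) (fun z => h (J z)) := by
      unfold prodN
      rw [MultilinearMap.domDomCongr_apply]
      congr 1
      funext z
      simp
    rw [h2] at h1
    exact h1
  by_contra hcon
  push Not at hcon
  have hnull := alg_null (k := ℂ) (L := AlgebraicClosure K)
    (m := fun _ : ι => Fintype.card ((β : Fin d ⊕ ((i : Fin n) ×
      Fin (e i))) × Fin (degF m d γ e β))) t_sep' t_hm' hn (fun _ => hM1)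
    (t := mapF (co (fun z : ι => prodN b γ (t z) d e) b)) (fun W Q hW hQ => by
      have h1 := hcon W Q hW hQ
      have h2 : aeval (pt (mapF (co (fun z : ι => prodN b γ (t z) d e) b) :
          Fam (fun _ : ι => Fintype.card ((β : Fin d ⊕ ((i : Fin n) ×
      Fin (e i))) × Fin (degF m d γ e β))) n (AlgebraicClosure K))) Q =
          algebraMap K (AlgebraicClosure K)
            (aeval (pt (co (fun z : ι => prodN b γ (t z) d e) b)) Q) := by
        rw [MvPolynomial.aeval_def, MvPolynomial.aeval_def, MvPolynomial.eval₂_eq',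
          MvPolynomial.eval₂_eq', map_sum]
        refine Finset.sum_congr rfl fun μ _ => ?_
        rw [map_mul, map_prod, ← IsScalarTower.algebraMap_apply ℂ K (AlgebraicClosure K)]
        congr 1
        refine Finset.prod_congr rfl fun x _ => ?_
        rw [map_pow]
        rfl
      rw [h2, h1, map_zero])
  have hP0 : ∃ i, prodN b γ (t i) d e ≠ 0 := by
    by_contra h0
    push Not at h0
    have h1 := hss b (fun _ => 0) 1 b.linearIndependent (by simp)
      (hback b (fun _ => 0) 1 (fun i J _ => by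
        rw [h0 i]
        rfl))
    linarith
  obtain ⟨f, w, μ, hμ, ⟨hli, hw, -, hvan⟩, -⟩ := canon (m := fun _ : ι =>
    Fintype.card ((β : Fin d ⊕ ((i : Fin n) × Fin (e i))) × Fin (degF m d γ e β)))
    b.linearIndependent b.span_eq (fun z : ι => prodN b γ (t z) d e) hP0 hnull
  have h1 := hss f w μ hli hw (hback _ _ _ hvan)
  linarith

/-- **The local inequality.** -/
theorem loc_ineqF [Fintype ι] {P : Place ℂ K} {b : Module.Basis (Fin n) K V} {γ : Fin n → ℚ} (hn : 1 ≤ n)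
    (hm : 1 ≤ m) (hγ : Monotone γ) (hγ0 : ∑ i, γ i = 0)
    {t : ι → MultilinearMap K (fun _ : Fin m => V) K}
    (hvan : ∀ z (J : Fin m → Fin n), ∑ s, γ (J s) < 1 → t z (fun s => b (J s)) = 0)
    {E : Fin n → V} {C : Matrix (Fin n) (Fin n) K} (hbE : ∀ k, b k = ∑ j, C k j • E j)
    {nu : Fin n → ℝ} {l : ℝ}
    (ht : ∀ z (I : Fin m → Fin n), GeR P (∑ s, nu (I s) - l) (t z fun s => E (I s)))
    {U : Matrix (Fin n) (Fin n) K} (h1 : ∀ i, U i i = 1) (h2 : ∀ i j, i < j → U i j = 0)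
    {nk : Fin n → ℝ} (h3 : ∀ k j, GeR P (nk k - nu j) ((U * C) k j)) {d : ℕ} (hd : 1 ≤ d)
    {e : Fin n → ℕ} {rho c : ℝ}
    (he : ∀ i, (e i : ℝ) * Fintype.card {l // γ l = γ i} = (d * rho) * (c - γ i))
    {M : ℕ} (hM : M = Fintype.card ((β : Fin d ⊕ ((i : Fin n) × Fin (e i))) ×
      Fin (degF m d γ e β))) {W : ℕ}
    {Q : MvPolynomial (Ix (fun _ : ι => Fintype.card ((β : Fin d ⊕ ((i : Fin n) ×
      Fin (e i))) × Fin (degF m d γ e β))) n) ℂ}
    (hQ : SemiInv ℂ (fun _ : ι => Fintype.card ((β : Fin d ⊕ ((i : Fin n) ×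
      Fin (e i))) × Fin (degF m d γ e β))) n W Q) :
    GeR P ((n * W / M : ℝ) * d * ((m / n : ℝ) * ∑ k, nk k - l + rho * ∑ k, (γ k : ℝ) * nk k))
      (aeval (pt (co (fun z : ι => prodN b γ (t z) d e) b)) Q) := by
  classical
  have hM1 : 1 ≤ M := by
    rw [hM]
    exact Fintype.card_pos_iff.2 ⟨⟨Sum.inl ⟨0, hd⟩, ⟨0, hm⟩⟩⟩
  refine (inv_locF hγ hvan hbE ht h1 h2 h3 hM hM1 hQ).mono (le_of_eq ?_)
  have h4 : ∑ β, kap γ nk l d e β = d * l + (d * rho) * (c * ∑ k, nk k - ∑ k, (γ k : ℝ) * nk k) := by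
    rw [← card_sum he nk, Fintype.sum_sum_type, Fintype.sum_sigma]
    congr 1
    · change ∑ _a : Fin d, l = _
      simp
    · refine Finset.sum_congr rfl fun i _ => ?_
      change ∑ _a : Fin (e i), ∑ s, nk (en γ i s).1 = _
      rw [Finset.sum_const, Finset.card_univ, Fintype.card_fin, nsmul_eq_mul]
  have h5 : (M : ℝ) = d * m + n * ((d * rho) * c) := by
    rw [hM]
    exact card_prod hγ0 he
  have hM0 : (M : ℝ) ≠ 0 := by
    have : M ≠ 0 := by omega
    exact_mod_cast this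
  have hn0 : (n : ℝ) ≠ 0 := by
    have : n ≠ 0 := by omega
    exact_mod_cast this
  have h6 : (W : ℝ) = (n * W / M : ℝ) * (d * m / n + (d * rho) * c) := by
    have h7 : (d * m / n + (d * rho) * c : ℝ) = M / n := by
      rw [h5]
      field_simp
    rw [h7]
    field_simp
  obtain ⟨D, hD⟩ : ∃ D : ℝ, D = n * W / M := ⟨_, rfl⟩
  rw [← hD] at h6 ⊢
  rw [h4, h6]
  field_simp
  ring

end

end Pool.Agent.H897
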