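import Pool.Agent.H897.QC

/-!
The canonical flag of a family of multilinear forms, with the function which is bounded below at
every place.
-/

set_option autoImplicit false
set_option linter.overlappingInstances false
set_option linter.unusedSectionVars false

open MvPolynomial FF Pool.Agent.N133.TB Pool.Agent.Y174 Pool.Agent.W603.LV

namespace Pool.Agent.H897

section

variable {K V : Type} [Field K] [Algebra ℂ K] [AddCommGroup V] [Module K V] {n m : ℕ} {ι : Type}

/-- the degree of a semi-invariant -/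
theorem inv_degF [Fintype ι] {m W : ℕ} {Q : MvPolynomial (Ix (fun _ : ι => m) n) ℂ}
    (hQ : SemiInv ℂ (fun _ : ι => m) n W Q) {μ : Ix (fun _ : ι => m) n →₀ ℕ}
    (hμ : μ ∈ Q.support) : m * ∑ x, μ x = n * W := by
  classical
  have h10 : ∑ i0 : Fin n, ∑ x, μ x * Sec.cnt i0 x = n * W := by
    rw [Finset.sum_congr rfl fun i0 _ => Sec.weight i0 hQ hμ]
    simp
  rw [Finset.sum_comm] at h10
  rw [← h10, Finset.mul_sum]
  refine Finset.sum_congr rfl fun x _ => ?_
  rw [← Finset.mul_sum, mul_comm]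
  congr 1
  exact (sum_cnt x).symm

/-- the order of a semi-invariant -/
theorem inv_geF [Fintype ι] {P : Place ℂ K} {m W b : ℕ} (hm : 1 ≤ m)
    {t : ι → MultilinearMap K (fun _ : Fin m => V) K} {E : Fin n → V} {nu : Fin n → ℝ} {l : ℝ}
    (ht : ∀ z (I : Fin m → Fin n), GeR P (∑ s, nu (I s) - l) (t z fun s => E (I s)))
    {Q : MvPolynomial (Ix (fun _ : ι => m) n) ℂ}
    (hQ : SemiInv ℂ (fun _ : ι => m) n W Q) (hb : m * b = n * W) :
    GeR P (W * ∑ k, nu k - b * l) (aeval (pt (co t E)) Q) := by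
  classical
  rw [aeval_def, eval₂_eq']
  refine Pool.Agent.Y174.OB.geR_sum _ _ _ fun μ hμ => ?_
  have h4 : GeR P (∑ x : Ix (fun _ : ι => m) n, (μ x : ℝ) * (∑ s, nu (x.2 s) - l))
      (∏ x, pt (co t E) x ^ μ x) :=
    geR_prod' _ _ fun x => GeR.pow (ht x.1 x.2) _
  have h6 : GeR P 0 (algebraMap ℂ K (coeff μ Q)) := by
    by_cases h0 : coeff μ Q = 0
    · left
      rw [h0, map_zero]
    · right
      rw [P.ord_const h0]
      simp
  have hcnt : ∀ i0 : Fin n, ∑ x, (μ x : ℝ) * (Sec.cnt i0 x : ℝ) = W := by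
    intro i0
    have := Sec.weight i0 hQ hμ
    exact_mod_cast this
  have h7 : ∑ x : Ix (fun _ : ι => m) n, (μ x : ℝ) * ∑ s, nu (x.2 s) = W * ∑ k, nu k := by
    have h8 : ∀ x : Ix (fun _ : ι => m) n, (μ x : ℝ) * ∑ s, nu (x.2 s) =
        ∑ k, (μ x : ℝ) * (Sec.cnt k x : ℝ) * nu k := by
      intro x
      rw [sum_comp_cnt x.2 nu, Finset.mul_sum]
      refine Finset.sum_congr rfl fun k _ => ?_
      rw [mul_assoc]
      rfl
    simp only [h8]
    rw [Finset.sum_comm, Finset.mul_sum]
    refine Finset.sum_congr rfl fun k _ => ?_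
    rw [← Finset.sum_mul, hcnt]
  have h8 : ∑ x : Ix (fun _ : ι => m) n, (μ x : ℝ) = b := by
    have h9 := inv_degF hQ hμ
    rw [← hb] at h9
    have h10 := Nat.eq_of_mul_eq_mul_left hm h9
    exact_mod_cast h10
  refine (h6.mul h4).mono (le_of_eq ?_)
  simp only [mul_sub, Finset.sum_sub_distrib]
  rw [h7, ← Finset.sum_mul, h8, zero_add]

/-- the values of a multilinear form on the orthogonalised vectors -/
theorem geR_lin {P : Place ℂ K} {t : MultilinearMap K (fun _ : Fin m => V) K} {E : Fin n → V}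
    {nu nk : Fin n → ℝ} {l : ℝ}
    (ht : ∀ I : Fin m → Fin n, GeR P (∑ s, nu (I s) - l) (t fun s => E (I s)))
    {A : Matrix (Fin n) (Fin n) K} (hA : ∀ k j, GeR P (nk k - nu j) (A k j)) (J : Fin m → Fin n) :
    GeR P (∑ s, nk (J s) - l) (t fun s => ∑ j, A (J s) j • E j) := by
  classical
  rw [Sec.tens_lin t A E J]
  refine Pool.Agent.Y174.OB.geR_sum _ _ _ fun I _ => ?_
  have h4 := geR_prod' (P := P) (fun s : Fin m => nk (J s) - nu (I s)) _
    (fun s => hA (J s) (I s))
  refine (h4.mul (ht I)).mono (le_of_eq ?_)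
  rw [Finset.sum_sub_distrib]
  ring

/-- **The canonical flag.** `b` is a basis of `V` with the rational weights `γ`, adapted to the
canonical flag of the family `t` of multilinear forms, which consists of the spans of the `b j` with
`γ j ≤ a` and does not depend on the choices; the order of the function `f` is bounded below at all
places. -/
theorem flag_thm (hn : 1 ≤ n) (hm : 1 ≤ m) [Finite ι] {E0 : Fin n → V}
    (hli : LinearIndependent K E0) (hsp : Submodule.span K (Set.range E0) = ⊤)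
    (t : ι → MultilinearMap K (fun _ : Fin m => V) K) (ht0 : ∃ i, t i ≠ 0) :
    ∃ (b : Module.Basis (Fin n) K V) (γ : Fin n → ℚ) (rho : ℚ) (N : ℕ) (f : K), Monotone γ ∧
      ∑ i, γ i = 0 ∧ 0 < rho ∧ 1 ≤ N ∧ f ≠ 0 ∧
      ((∀ i, γ i = 0) ∨
        ∀ i (J : Fin m → Fin n), ∑ s, γ (J s) < 1 → t i (fun s => b (J s)) = 0) ∧
      (∀ h : Fin n → V, LinearIndependent K h →
        ((∀ i, γ i = 0) ∨
          ∀ i (J : Fin m → Fin n), ∑ s, γ (J s) < 1 → t i (fun s => h (J s)) = 0) → ∀ a : ℚ,
          Submodule.span K {v | ∃ j, γ j ≤ a ∧ v = h j} =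
            Submodule.span K {v | ∃ j, γ j ≤ a ∧ v = b j}) ∧
      ∀ (P : Place ℂ K) (E : Fin n → V) (C U : Matrix (Fin n) (Fin n) K) (nu nk : Fin n → ℝ)
        (l : ℝ), (∀ k, b k = ∑ j, C k j • E j) →
        (∀ i (I : Fin m → Fin n), GeR P (∑ s, nu (I s) - l) (t i fun s => E (I s))) →
        (∀ i, U i i = 1) → (∀ i j, i < j → U i j = 0) →
        (∀ k j, GeR P (nk k - nu j) ((U * C) k j)) →
        N * ((m / n : ℝ) * ∑ k, nk k - l + rho * ∑ k, (γ k : ℝ) * nk k) ≤ P.ord f := by
  classical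
  have hcK : CharZero K := charZero_of_injective_algebraMap (algebraMap ℂ K).injective
  have := Fintype.ofFinite ι
  have hn0 : (n : ℝ) ≠ 0 := by
    have : n ≠ 0 := by omega
    exact_mod_cast this
  by_cases hss : ∃ (W : ℕ) (Q : MvPolynomial (Ix (fun _ : ι => m) n) ℂ), 1 ≤ W ∧
      SemiInv ℂ (fun _ : ι => m) n W Q ∧ aeval (pt (co t E0)) Q ≠ 0
  · obtain ⟨W, Q, hW, hQ, hQ0⟩ := hss
    obtain ⟨b, hb⟩ : ∃ b : Module.Basis (Fin n) K V, ⇑b = E0 :=
      ⟨crd hli hsp, by funext i; simp [crd]⟩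
    have hQne : Q ≠ 0 := by
      intro h0
      apply hQ0
      rw [h0, map_zero]
    obtain ⟨μ, hμ⟩ := support_nonempty.2 hQne
    obtain ⟨B, hBd⟩ : ∃ B, B = ∑ x, μ x := ⟨_, rfl⟩
    have hB : m * B = n * W := by
      rw [hBd]
      exact inv_degF hQ hμ
    have hB1 : 1 ≤ B := by
      rcases Nat.eq_zero_or_pos B with h | h
      · rw [h, mul_zero] at hB
        have := Nat.mul_pos hn hW
        omega
      · exact h
    refine ⟨b, fun _ => 0, 1, B, aeval (pt (co t E0)) Q, monotone_const, by simp, one_pos, hB1,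
      hQ0, Or.inl fun _ => rfl, fun h hh _ a => ?_, ?_⟩
    · obtain ⟨b', hb'⟩ := exists_basis_of_li b hh
      by_cases ha : (0 : ℚ) ≤ a
      · have key : ∀ g : Fin n → V, {v | ∃ j : Fin n, (0 : ℚ) ≤ a ∧ v = g j} = Set.range g := by
          intro g
          ext v
          constructor
          · rintro ⟨j, -, rfl⟩
            exact ⟨j, rfl⟩
          · rintro ⟨j, rfl⟩
            exact ⟨j, ha, rfl⟩
        rw [key, key, ← hb', b'.span_eq, b.span_eq]
      · have key : ∀ g : Fin n → V, {v | ∃ j : Fin n, (0 : ℚ) ≤ a ∧ v = g j} = ∅ := by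
          intro g
          ext v
          simp [ha]
        rw [key, key]
    · intro P E C U nu nk l hbE htE h1 h2 h3
      have hUdet : U.det = 1 := det_block h1 h2 (f := id) Function.injective_id
      have h4 := inv_geF (E := fun k => ∑ j, (U * C) k j • E j) (nu := nk) hm
        (fun z I => geR_lin (htE z) h3 I) hQ hB
      have h5 : aeval (pt (co t fun k => ∑ j, (U * C) k j • E j)) Q =
          aeval (pt (co t E0)) Q := by
        have h6 := hQ K U (co t E0)
        rw [hUdet, one_pow, one_mul] at h6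
        rw [← h6]
        congr 2
        funext x
        have h7 := act_co t E0 U x.1 x.2
        refine Eq.trans ?_ h7.symm
        change t x.1 _ = t x.1 _
        congr 1
        funext s
        rw [← hb]
        simp only [hbE, Finset.smul_sum, smul_smul]
        rw [Finset.sum_comm]
        refine Finset.sum_congr rfl fun j _ => ?_
        rw [← Finset.sum_smul, Matrix.mul_apply]
      rw [h5] at h4
      refine le_trans (le_of_eq ?_) (h4.resolve_left hQ0)
      have hBR : (m : ℝ) * B = n * W := by exact_mod_cast hB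
      simp only [Rat.cast_zero, zero_mul, Finset.sum_const_zero, mul_zero, add_zero]
      have h8 : (W : ℝ) = B * (m / n) := by
        field_simp
        linarith
      rw [h8]
      ring
  · push Not at hss
    have hnull := alg_null (k := ℂ) (L := AlgebraicClosure K)
      (m := fun _ : ι => m) t_sep' t_hm' hn (fun _ => hm)
      (t := mapF (co t E0)) (fun W Q hW hQ => by
        have h1 := hss W Q hW hQ
        have h2 : aeval (pt (mapF (co t E0) : Fam (fun _ : ι => m) n (AlgebraicClosure K))) Q =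
            algebraMap K (AlgebraicClosure K) (aeval (pt (co t E0)) Q) := by
          rw [MvPolynomial.aeval_def, MvPolynomial.aeval_def, MvPolynomial.eval₂_eq',
            MvPolynomial.eval₂_eq', map_sum]
          refine Finset.sum_congr rfl fun μ _ => ?_
          rw [map_mul, map_prod, ← IsScalarTower.algebraMap_apply ℂ K (AlgebraicClosure K)]
          congr 1
          refine Finset.prod_congr rfl fun x _ => ?_
          rw [map_pow]
          rfl
        rw [h2, h1, map_zero])
    obtain ⟨b, γ, hγ, hγ0, hγ2, hvan, huniq, hopt⟩ := opt_existsF hli hsp t ht0 hnull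
    obtain ⟨d, e, C0, hd, he⟩ := exists_exps γ hn hγ2
    obtain ⟨W, Q, hW, hQ, hQ0⟩ := exists_invF hn hm hd (b := b) (γ := γ) (t := t) (e := e)
      (fun h lam ν hh hlam hν => ss_lemmaF hopt he hh hlam hν)
    obtain ⟨M, hM⟩ : ∃ M : ℕ, M = Fintype.card ((β : Fin d ⊕ ((i : Fin n) × Fin (e i))) ×
        Fin (degF m d γ e β)) := ⟨_, rfl⟩
    have hM1 : 1 ≤ M := by
      rw [hM]
      exact Fintype.card_pos_iff.2 ⟨⟨Sum.inl ⟨0, hd⟩, ⟨0, hm⟩⟩⟩
    refine ⟨b, γ, (∑ i, γ i ^ 2)⁻¹, n * W * d,
      (aeval (pt (co (fun z : ι => prodN b γ (t z) d e) b)) Q) ^ M, hγ, hγ0, inv_pos.2 hγ2,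
      Nat.mul_pos (Nat.mul_pos hn hW) hd, pow_ne_zero _ hQ0, Or.inr hvan,
      fun h hh hor a => ?_, ?_⟩
    · rcases hor with h0 | h0
      · exfalso
        have : ∑ i, γ i ^ 2 = 0 := Finset.sum_eq_zero fun i _ => by rw [h0]; simp
        linarith
      · exact huniq h hh h0 a
    · intro P E C U nu nk l hbE htE h1 h2 h3
      have h4 := (loc_ineqF (P := P) hn hm hγ hγ0 hvan hbE htE h1 h2 h3 hd he hM hQ).resolve_left
        hQ0
      have hM0 : (0 : ℝ) < M := by exact_mod_cast hM1
      have h5 := mul_le_mul_of_nonneg_left h4 hM0.le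
      rw [P.ord_pow]
      push_cast
      refine le_trans (le_of_eq ?_) h5
      field_simp

end

end Pool.Agent.H897
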