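import Pool.Agent.H897.RG

/-!
Tensors of slope zero on pairs with stable tangent bundle are semistable.
-/

set_option autoImplicit false
set_option linter.overlappingInstances false
set_option linter.unusedSectionVars false

open MvPolynomial FF Pool.Agent.W602.GT Pool.Agent.Y172 Pool.Agent.NH31 Pool.Agent.W603.LV
open Pool.Agent.N133.TB Pool.Agent.Y174

namespace Pool.Agent.H897

section

variable {K : Type} [Field K] [Algebra ℂ K] {N n : ℕ} {y : Fin (N + 1) → K}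

/-- `T`, a rational section of the `m`-th tensor power of the cotangent bundle with values in
`O (a K_X)`, is along the prime divisor `P` a section of the tensor power of the orbifold cotangent
bundle with values in `a (K_X + Δ) + L`, if `P` has the coefficient `δ` in `Δ` and `ℓ` in `L`: on
vector fields `D s` which are regular along `P`, and tangent to `P` for `s ∉ S`, its order is at
least `- (δ (|S| + a) + ℓ)`. -/
def OrbAtL (δ ℓ : ℚ) (P : Place ℂ K) (a : ℤ) {m : ℕ}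
    (T : (Fin n → Derivation ℂ K K) → MultilinearMap K (fun _ : Fin m => Derivation ℂ K K) K) :
    Prop :=
  ∀ (E : Fin n → Derivation ℂ K K) (D : Fin m → Derivation ℂ K K) (S : Finset (Fin m)),
    FrameAt P E → (∀ s, DerReg P (D s)) → (∀ s, s ∉ S → DerLog P (D s)) →
      T E D = 0 ∨ -(δ * (S.card + a) + ℓ) ≤ (P.ord (T E D) : ℚ)

/-- the orders of the coefficients for an adapted frame -/
theorem orb_coef {δ ℓ : ℚ} {P : Place ℂ K} {a : ℤ} {m : ℕ}
    {T : (Fin n → Derivation ℂ K K) → MultilinearMap K (fun _ : Fin m => Derivation ℂ K K) K}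
    (hT : Twisted a T) (hTO : OrbAtL δ ℓ P a T) {E E0 : Fin n → Derivation ℂ K K} {i0 : Fin n}
    (hA : Adapted δ P E i0) {M : Matrix (Fin n) (Fin n) K} (hEM : E = fun i => ∑ j, M i j • E0 j)
    (hM0 : M.det ≠ 0) {w : ℚ} (hMw : (P.ord M.det : ℚ) = w) (I : Fin m → Fin n) :
    GeR P (∑ s, nuf δ i0 (I s) - (ℓ + a * δ + a * w)) (T E0 fun s => E (I s)) := by
  classical
  have h1 : T E (fun s => E (I s)) = M.det ^ a * T E0 (fun s => E (I s)) := by
    have h2 := hT M E0 hM0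
    rw [← hEM] at h2
    rw [h2]
    rfl
  by_cases h0 : T E0 (fun s => E (I s)) = 0
  · exact Or.inl h0
  right
  have h2 : T E (fun s => E (I s)) ≠ 0 := by
    rw [h1]
    exact mul_ne_zero (zpow_ne_zero _ hM0) h0
  have h3 : (P.ord (T E fun s => E (I s)) : ℝ) = a * w + P.ord (T E0 fun s => E (I s)) := by
    rw [h1, P.ord_mul (zpow_ne_zero _ hM0) h0, P.ord_zpow, ← hMw]
    push_cast
    rfl
  rw [sum_nuf]
  by_cases hδ : δ = 0
  · have h4 := (hTO E (fun s => E (I s)) Finset.univ hA.1 (fun s => hA.1.1 _)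
      (fun s hs => absurd (Finset.mem_univ s) hs)).resolve_left h2
    have h5 : ((-(δ * ((Finset.univ : Finset (Fin m)).card + a) + ℓ) : ℚ) : ℝ) ≤
        (P.ord (T E fun s => E (I s)) : ℝ) := by exact_mod_cast h4
    rw [h3] at h5
    rw [hδ] at h5 ⊢
    push_cast at h5 ⊢
    simp only [ite_self, Finset.sum_const_zero]
    linarith
  · have h4 := (hTO E (fun s => E (I s)) (Finset.univ.filter fun s => I s = i0) hA.1
      (fun s => hA.1.1 _) (fun s hs => hA.2 hδ _ (fun h => hs (by simp [h])))).resolve_left h2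
    have h5 : ((-(δ * ((Finset.univ.filter fun s => I s = i0).card + a) + ℓ) : ℚ) : ℝ) ≤
        (P.ord (T E fun s => E (I s)) : ℝ) := by exact_mod_cast h4
    rw [h3] at h5
    have h6 : ∑ s, (if I s = i0 then (δ : ℝ) else 0) =
        (Finset.univ.filter fun s => I s = i0).card * δ := by
      rw [← Finset.sum_filter, Finset.sum_const, nsmul_eq_mul]
    rw [h6]
    push_cast at h5
    linarith

/-- **Tensors of slope zero are semistable.** -/
theorem stable_inv (hy : NormalModel y) (hn : Algebra.trdeg ℂ K = n) (hn1 : 1 ≤ n)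
    {Δ : Place ℂ K → ℚ} (hΔ : FinSup y Δ) {α : Place ℂ K → ℝ} (hα : MovableClass y α) {c : ℝ}
    (hc : LogDegree y n Δ α c) (hst : StableTangent y n Δ α c) {m : ℕ} (hm : 1 ≤ m) {a : ℤ}
    {ℓ : Place ℂ K → ℚ} {lam : ℝ} (hL : HasDeg y α (fun P => ℓ P) lam)
    (hdeg : n * lam ≤ -((m + n * a) * c))
    {T : (Fin n → Derivation ℂ K K) → MultilinearMap K (fun _ : Fin m => Derivation ℂ K K) K}
    (hT : Twisted a T) (hTO : ∀ P, IsPrimeDivisor y P → OrbAtL (Δ P) (ℓ P) P a T)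
    {x : Fin n → K} {E0 : Fin n → Derivation ℂ K K} (hx : IsTranscendenceBasis ℂ x)
    (hE0 : ∀ i j, E0 i (x j) = if i = j then 1 else 0) (hT0 : T E0 ≠ 0) :
    ∃ (W : ℕ) (Q : MvPolynomial (Ix (fun _ : Unit => m) n) ℂ), 1 ≤ W ∧
      SemiInv ℂ (fun _ : Unit => m) n W Q ∧
      aeval (pt (co (fun _ : Unit => T E0) E0)) Q ≠ 0 := by
  classical
  have hcK : CharZero K := charZero_of_injective_algebraMap (algebraMap ℂ K).injective
  obtain ⟨w, hwf, hw⟩ := exists_canon hy hn hx hE0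
  have hfr : IsFrame E0 := frame_of_dual hx hE0
  have hli : LinearIndependent K E0 := by
    rw [Fintype.linearIndependent_iff]
    intro g hg k
    have h1 := congrArg (fun D : Derivation ℂ K K => D (x k)) hg
    have h2 : (∑ i, g i • E0 i) (x k) = 0 := h1
    rw [sum_smul_apply, Finset.sum_eq_single k] at h2
    · rw [hE0, if_pos rfl, mul_one] at h2
      exact h2
    · intro b _ hb
      rw [hE0, if_neg hb, mul_zero]
    · intro h
      exact absurd (Finset.mem_univ k) h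
  have hsp : Submodule.span K (Set.range E0) = ⊤ := by
    rw [eq_top_iff]
    intro D _
    obtain ⟨g, rfl⟩ := hfr D
    exact Submodule.sum_mem _ fun i _ => Submodule.smul_mem _ _ (Submodule.subset_span ⟨i, rfl⟩)
  by_contra hcon
  push Not at hcon
  have hnull := alg_null (k := ℂ) (L := AlgebraicClosure K)
    (m := fun _ : Unit => m) t_sep' t_hm' hn1 (fun _ => hm)
    (t := mapF (co (fun _ : Unit => T E0) E0)) (fun W Q hW hQ => by
      have h1 := hcon W Q hW hQ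
      have h2 : aeval (pt (mapF (co (fun _ : Unit => T E0) E0) :
          Fam (fun _ : Unit => m) n (AlgebraicClosure K))) Q =
          algebraMap K (AlgebraicClosure K)
            (aeval (pt (co (fun _ : Unit => T E0) E0)) Q) := by
        rw [MvPolynomial.aeval_def, MvPolynomial.aeval_def, MvPolynomial.eval₂_eq',
          MvPolynomial.eval₂_eq', map_sum]
        refine Finset.sum_congr rfl fun μ _ => ?_
        rw [map_mul, map_prod, ← IsScalarTower.algebraMap_apply ℂ K (AlgebraicClosure K)]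
        congr 1
        refine Finset.prod_congr rfl fun x _ => ?_
        rw [map_pow]
        rfl
      rw [h2, h1, map_zero])
  obtain ⟨b, γ, hγ, hγ0, hγ2, hvan, hopt⟩ := opt_exists hli hsp (T E0) hT0 hnull
  obtain ⟨d, e, C, hd, he⟩ := exists_exps γ hn1 hγ2
  obtain ⟨W, Q, hW, hQ, hQ0⟩ := exists_inv hn1 hm hd (b := b) (γ := γ) (t := T E0) (e := e)
    (fun h lam ν hh hlam hν => ss_lemma hopt he hh hlam hν)
  obtain ⟨Q0, hQ0d⟩ : ∃ Q0, Q0 = aeval (pt (co (fun _ : Unit => prodN b γ (T E0) d e) b)) Q :=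
    ⟨_, rfl⟩
  rw [← hQ0d] at hQ0
  obtain ⟨M, hM⟩ : ∃ M : ℕ, M = Fintype.card ((β : Fin d ⊕ ((i : Fin n) × Fin (e i))) ×
      Fin (degF m d γ e β)) := ⟨_, rfl⟩
  have hM1 : 1 ≤ M := by
    rw [hM]
    exact Fintype.card_pos_iff.2 ⟨⟨Sum.inl ⟨0, hd⟩, ⟨0, hm⟩⟩⟩
  obtain ⟨rho, hrho⟩ : ∃ rho : ℝ, rho = (∑ i, (γ i : ℝ) ^ 2)⁻¹ := ⟨_, rfl⟩
  have hγ2' : 0 < ∑ i, (γ i : ℝ) ^ 2 := by exact_mod_cast hγ2
  have hrho0 : 0 < rho := by
    rw [hrho]
    exact inv_pos.2 hγ2'
  rw [← hrho] at he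
  -- the global matrix
  obtain ⟨C0, hC0, hbC⟩ := frame_change hx hE0 (E := b) (fun D => ⟨fun i => b.repr D i,
    (b.sum_repr D).symm⟩)
  have hbC' : ∀ k, b k = ∑ j, C0 k j • E0 j := fun k => congrFun hbC k
  -- the local data
  have hloc : ∀ P : Place ℂ K, ∃ (E : Fin n → Derivation ℂ K K) (i0 : Fin n)
      (M C U : Matrix (Fin n) (Fin n) K) (nk : Fin n → ℝ), IsPrimeDivisor y P →
      (Adapted (Δ P) P E i0 ∧ (E = fun i => ∑ j, M i j • E0 j) ∧ M.det ≠ 0 ∧
      (P.ord M.det : ℚ) = w P ∧ (∀ k, b k = ∑ j, C k j • E j) ∧ C.det ≠ 0 ∧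
      (∀ i, U i i = 1) ∧ (∀ i j, i < j → U i j = 0) ∧
      (∀ k j, GeR P (nk k - nuf (Δ P) i0 j) ((U * C) k j)) ∧
      ∑ k, nk k = P.ord C0.det - w P - Δ P ∧ (FrameAt P E0 → Δ P = 0 → C = C0)) := by
    intro P
    by_cases hP : IsPrimeDivisor y P
    · obtain ⟨E, i0, M, C, U, nk, h⟩ := loc_data hy hn hx hE0 hw hC0 hbC' Δ hP
      exact ⟨E, i0, M, C, U, nk, fun _ => h⟩
    · exact ⟨E0, ⟨0, hn1⟩, 1, 1, 1, fun _ => 0, fun h => absurd h hP⟩
  choose E i0 Mm Cc U nk hdat using hloc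
  -- the wedge orders
  have hwedge : ∀ (r : ℕ) (P : Place ℂ K), ∃ v : ℝ, IsPrimeDivisor y P → ∀ hr : r ≤ n,
      (∀ I : Fin r → Fin n, (((Cc P).submatrix (Fin.castLE hr) id).submatrix id I).det = 0 ∨
        v ≤ P.ord (((Cc P).submatrix (Fin.castLE hr) id).submatrix id I).det +
          ∑ s, nuf (Δ P) (i0 P) (I s)) ∧
      ∃ I : Fin r → Fin n, (((Cc P).submatrix (Fin.castLE hr) id).submatrix id I).det ≠ 0 ∧
        v = P.ord (((Cc P).submatrix (Fin.castLE hr) id).submatrix id I).det +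
          ∑ s, nuf (Δ P) (i0 P) (I s) := by
    intro r P
    by_cases hP : IsPrimeDivisor y P
    · by_cases hr : r ≤ n
      · obtain ⟨I, hI⟩ := exists_minor (hdat P hP).2.2.2.2.2.1 hr
        obtain ⟨v, hv⟩ := exists_minOrd P (nuf (Δ P) (i0 P))
          ((Cc P).submatrix (Fin.castLE hr) id) ⟨I, hI⟩
        exact ⟨v, fun _ _ => hv⟩
      · exact ⟨0, fun _ h => absurd h hr⟩
    · exact ⟨0, fun h => absurd h hP⟩
  choose ev hev using hwedge
  have hwo : ∀ (r : ℕ) (hr : r ≤ n) (P : Place ℂ K), IsPrimeDivisor y P →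
      WedgeOrd n (Δ P) P (fun k : Fin r => b (Fin.castLE hr k)) (ev r P) := by
    intro r hr P hP
    obtain ⟨h1, h2⟩ := hev r P hP hr
    refine ⟨E P, i0 P, (Cc P).submatrix (Fin.castLE hr) id, (hdat P hP).1,
      fun k => (hdat P hP).2.2.2.2.1 _, fun I => ?_, ?_⟩
    · have h3 := h1 I
      rw [sum_nuf, ← sub_eq_add_neg] at h3
      exact h3
    · obtain ⟨I, h3, h4⟩ := h2
      rw [sum_nuf, ← sub_eq_add_neg] at h4
      exact ⟨I, h3, h4⟩
  -- the finiteness of the supports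
  have hfin : ∀ (r : ℕ) (_ : r ≤ n), {P | IsPrimeDivisor y P ∧ ev r P ≠ 0}.Finite := by
    intro r hr
    have hI : ∀ I : Fin r → Fin n,
        {P | IsPrimeDivisor y P ∧ (C0.submatrix (Fin.castLE hr) I).det ≠ 0 ∧
          P.ord (C0.submatrix (Fin.castLE hr) I).det ≠ 0}.Finite := by
      intro I
      by_cases h0 : (C0.submatrix (Fin.castLE hr) I).det = 0
      · exact Set.finite_empty.subset (by rintro P ⟨-, h, -⟩; exact h h0)
      · exact (finite_ord hy h0).subset (by rintro P ⟨h1, -, h2⟩; exact ⟨h1, h2⟩)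
    refine ((frame_ae hy hn hx hE0).union (hΔ.union (Set.finite_iUnion hI))).subset ?_
    rintro P ⟨hP, hne⟩
    by_contra hcon2
    rw [Set.mem_union, Set.mem_union] at hcon2
    push Not at hcon2
    have h1 : FrameAt P E0 := by
      by_contra h
      exact hcon2.1 ⟨hP, h⟩
    have h2 : Δ P = 0 := by
      by_contra h
      exact hcon2.2.1 ⟨hP, h⟩
    have h3 := (hdat P hP).2.2.2.2.2.2.2.2.2.2 h1 h2
    obtain ⟨-, I, h4, h5⟩ := hev r P hP hr
    apply hne
    rw [h5, sum_nuf, h2]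
    rw [h3] at h4 ⊢
    have h6 : P.ord (C0.submatrix (Fin.castLE hr) I).det = 0 := by
      by_contra h
      exact hcon2.2.2 (Set.mem_iUnion.2 ⟨I, hP, h4, h⟩)
    have h7 : ((C0.submatrix (Fin.castLE hr) id).submatrix id I).det =
        (C0.submatrix (Fin.castLE hr) I).det := rfl
    rw [h7, h6]
    simp
  have hdg : ∀ r : ℕ, ∃ s : ℝ, r ≤ n → HasDeg y α (ev r) s := by
    intro r
    by_cases hr : r ≤ n
    · obtain ⟨s, hs⟩ := hasDeg_of_fin α (hfin r hr)
      exact ⟨s, fun _ => hs⟩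
    · exact ⟨0, fun h => absurd h hr⟩
  choose sd hsd using hdg
  have hstab : ∀ r, 1 ≤ r → r < n → n * sd r < -(r * c) := fun r h1 h2 =>
    hst r _ (ev r) (sd r) h1 h2
      (b.linearIndependent.comp _ (Fin.castLE_injective h2.le)) (hwo r h2.le) (hsd r h2.le)
  -- the canonical degree
  obtain ⟨ω, w', hω, hω0, hωw, hωd⟩ := hc
  have hωE : ω E0 ≠ 0 := fun h => hω0 (pluri_zero hfr hω h)
  have hw' : ∀ P, IsPrimeDivisor y P → (w' P : ℝ) = w P + P.ord (ω E0) := by
    intro P hP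
    obtain ⟨h1, F, h2, h3, h4⟩ := hωw P hP
    have h5 := ((hw P hP 1 ω (w' P) hω).1 h1).resolve_left hωE
    have h6 : OrdGe P ω (w P + P.ord (ω E0)) := (hw P hP 1 ω _ hω).2 (Or.inr (by
      push_cast
      linarith))
    have h7 := (h6 F h2).resolve_left h3
    rw [h4] at h7
    have h8 : (w' P : ℚ) = w P + P.ord (ω E0) := by
      push_cast at h5
      linarith
    exact_mod_cast h8
  -- the set of the places
  have hSf : ({P | IsPrimeDivisor y P ∧ w P ≠ 0} ∪ ({P | IsPrimeDivisor y P ∧ Δ P ≠ 0} ∪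
      ({P | IsPrimeDivisor y P ∧ (ℓ P : ℝ) ≠ 0} ∪ ({P | IsPrimeDivisor y P ∧ P.ord Q0 ≠ 0} ∪
      ({P | IsPrimeDivisor y P ∧ P.ord C0.det ≠ 0} ∪
      ({P | IsPrimeDivisor y P ∧ P.ord (ω E0) ≠ 0} ∪
        ⋃ r : Fin n, {P | IsPrimeDivisor y P ∧ ev r P ≠ 0})))))).Finite :=
    hwf.union (hΔ.union (hL.fin.union ((finite_ord hy hQ0).union ((finite_ord hy hC0).union
      ((finite_ord hy hωE).union (Set.finite_iUnion fun r : Fin n => hfin r r.2.le))))))
  obtain ⟨S, hS⟩ : ∃ S, S = hSf.toFinset := ⟨_, rfl⟩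
  have hSm : ∀ P, P ∈ S ↔ ((IsPrimeDivisor y P ∧ w P ≠ 0) ∨ (IsPrimeDivisor y P ∧ Δ P ≠ 0) ∨
      (IsPrimeDivisor y P ∧ (ℓ P : ℝ) ≠ 0) ∨ (IsPrimeDivisor y P ∧ P.ord Q0 ≠ 0) ∨
      (IsPrimeDivisor y P ∧ P.ord C0.det ≠ 0) ∨ (IsPrimeDivisor y P ∧ P.ord (ω E0) ≠ 0) ∨
      ∃ r : Fin n, IsPrimeDivisor y P ∧ ev r P ≠ 0) := by
    intro P
    rw [hS, Set.Finite.mem_toFinset]
    simp only [Set.mem_union, Set.mem_iUnion, Set.mem_setOf_eq]
  have hSp : ∀ P ∈ S, IsPrimeDivisor y P := by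
    intro P hP
    rcases (hSm P).1 hP with h | h | h | h | h | h | ⟨r, h⟩ <;> exact h.1
  have e1 : ∑ P ∈ S, α P * (P.ord Q0 : ℝ) = 0 := (hα.prin Q0 hQ0).sum_eq hSp fun P hP h =>
    (hSm P).2 (Or.inr (Or.inr (Or.inr (Or.inl ⟨hP, fun h0 => h (by rw [h0]; simp)⟩))))
  have e2 : ∑ P ∈ S, α P * (P.ord C0.det : ℝ) = 0 := (hα.prin _ hC0).sum_eq hSp fun P hP h =>
    (hSm P).2 (Or.inr (Or.inr (Or.inr (Or.inr (Or.inl ⟨hP, fun h0 => h (by rw [h0]; simp)⟩)))))
  have e3 : ∑ P ∈ S, α P * (P.ord (ω E0) : ℝ) = 0 := (hα.prin _ hωE).sum_eq hSp fun P hP h =>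
    (hSm P).2 (Or.inr (Or.inr (Or.inr (Or.inr (Or.inr
      (Or.inl ⟨hP, fun h0 => h (by rw [h0]; simp)⟩))))))
  have e4 : ∑ P ∈ S, α P * (ℓ P : ℝ) = lam := hL.sum_eq hSp fun P hP h =>
    (hSm P).2 (Or.inr (Or.inr (Or.inl ⟨hP, h⟩)))
  have e5 : ∑ P ∈ S, α P * (w' P + Δ P : ℝ) = c := hωd.sum_eq hSp fun P hP h => by
    by_contra hPS
    rw [hSm] at hPS
    push Not at hPS
    apply h
    rw [hw' P hP]
    have h1 := hPS.1 hP
    have h2 := hPS.2.1 hP
    have h3 := hPS.2.2.2.2.2.1 hP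
    rw [h1, h2, h3]
    simp
  have e6 : ∀ r, r < n → ∑ P ∈ S, α P * ev r P = sd r := fun r hr => (hsd r hr.le).sum_eq hSp
    fun P hP h => (hSm P).2 (Or.inr (Or.inr (Or.inr (Or.inr (Or.inr (Or.inr ⟨⟨r, hr⟩, hP, h⟩))))))
  have e7 : ∑ P ∈ S, α P * (w P + Δ P : ℝ) = c := by
    have h1 : ∑ P ∈ S, α P * (w' P + Δ P : ℝ) =
        ∑ P ∈ S, α P * (w P + Δ P : ℝ) + ∑ P ∈ S, α P * (P.ord (ω E0) : ℝ) := by
      rw [← Finset.sum_add_distrib]
      refine Finset.sum_congr rfl fun P hP => ?_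
      rw [hw' P (hSp P hP)]
      ring
    rw [e5, e3] at h1
    linarith
  -- the numbers
  obtain ⟨l, hl⟩ : ∃ l, n = l + 1 := ⟨n - 1, by omega⟩
  obtain ⟨g, hg⟩ : ∃ g : ℕ → ℝ, g = fun k => if h : k < n then (γ ⟨k, h⟩ : ℝ) else 0 := ⟨_, rfl⟩
  obtain ⟨X, hX⟩ : ∃ X : Place ℂ K → ℕ → ℝ, X = fun P k => if h : k < n then nk P ⟨k, h⟩ else 0 :=
    ⟨_, rfl⟩
  have hgi : ∀ i : Fin n, g i = γ i := by
    intro i
    rw [hg]
    exact dif_pos i.2
  have hXi : ∀ P (i : Fin n), X P i = nk P i := by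
    intro P i
    rw [hX]
    exact dif_pos i.2
  have hmono : ∀ k, k < l → g k ≤ g (k + 1) := by
    intro k hk
    have h1 := hgi ⟨k, by omega⟩
    have h2 := hgi ⟨k + 1, by omega⟩
    change g k = _ at h1
    change g (k + 1) = _ at h2
    rw [h1, h2]
    have h3 : γ ⟨k, by omega⟩ ≤ γ ⟨k + 1, by omega⟩ := hγ (by
      rw [Fin.le_def]
      exact Nat.le_succ k)
    exact_mod_cast h3
  have hg0 : ∑ k ∈ Finset.range (l + 1), g k = 0 := by
    rw [← hl, Finset.sum_range]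
    have : ∑ i, (γ i : ℝ) = 0 := by exact_mod_cast hγ0
    rw [← this]
    exact Finset.sum_congr rfl fun i _ => hgi i
  have hg2 : 0 < ∑ k ∈ Finset.range (l + 1), g k ^ 2 := by
    rw [← hl, Finset.sum_range]
    refine lt_of_lt_of_eq hγ2' (Finset.sum_congr rfl fun i _ => ?_)
    rw [hgi]
  have hnl : (n : ℝ) = l + 1 := by exact_mod_cast hl
  have hn0 : (0 : ℝ) < n := by exact_mod_cast hn1
  have hpos := slopes_pos (s := sd) (c := c) hmono hg0 hg2 (fun k hk => by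
    have h1 := hstab (k + 1) (by omega) (by omega)
    rw [hnl] at h1
    push_cast at h1
    exact h1)
  -- the local estimates
  obtain ⟨Dd, hDd⟩ : ∃ Dd : ℝ, Dd = (n * W / M : ℝ) * d := ⟨_, rfl⟩
  have hDd0 : 0 < Dd := by
    have h1 : (0 : ℝ) < W := by exact_mod_cast hW
    have h2 : (0 : ℝ) < M := by exact_mod_cast hM1
    have h3 : (0 : ℝ) < d := by exact_mod_cast hd
    rw [hDd]
    positivity
  have hlocal : ∀ P ∈ S, Dd * ((m / n : ℝ) * (P.ord C0.det - (w P + Δ P)) -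
      (ℓ P + a * (w P + Δ P)) + rho * (g l * (P.ord C0.det - (w P + Δ P)) -
        ∑ k ∈ Finset.range l, (g (k + 1) - g k) * ev (k + 1) P)) ≤ P.ord Q0 := by
    intro P hPS
    have hP := hSp P hPS
    obtain ⟨hA, hEM, hM0, hMw, hbE, hC, hU1, hU2, hU3, hsum, -⟩ := hdat P hP
    have h1 := loc_ineq (P := P) hn1 hm hγ hγ0 hvan hbE (orb_coef hT (hTO P hP) hA hEM hM0 hMw)
      hU1 hU2 hU3 hd he hM hQ
    rw [← hQ0d] at h1
    have h2 := h1.resolve_left hQ0
    refine le_trans ?_ h2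
    rw [hDd]
    refine mul_le_mul_of_nonneg_left ?_ (by rw [← hDd]; exact hDd0.le)
    have h3 : ∑ k, (γ k : ℝ) * nk P k = g l * ∑ k, nk P k -
        ∑ k ∈ Finset.range l, (g (k + 1) - g k) * ∑ j ∈ Finset.range (k + 1), X P j := by
      have h4 := abel_nat g (X P) l
      rw [← hl, Finset.sum_range, Finset.sum_range (fun k => X P k)] at h4
      rw [Finset.sum_congr rfl fun (i : Fin n) _ => by rw [hgi i, hXi P i],
        Finset.sum_congr rfl fun (i : Fin n) _ => hXi P i] at h4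
      exact h4
    have h4 : ∑ k ∈ Finset.range l, (g (k + 1) - g k) * ∑ j ∈ Finset.range (k + 1), X P j ≤
        ∑ k ∈ Finset.range l, (g (k + 1) - g k) * ev (k + 1) P := by
      refine Finset.sum_le_sum fun k hk => ?_
      have hk' := Finset.mem_range.1 hk
      refine mul_le_mul_of_nonneg_left ?_ (sub_nonneg.2 (hmono k hk'))
      have hr : k + 1 ≤ n := by omega
      obtain ⟨-, I, h5, h6⟩ := hev (k + 1) P hP hr
      rw [h6, Finset.sum_range]
      refine le_trans (le_of_eq ?_) (qr_minor hU1 hU2 hU3 hr h5)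
      exact Finset.sum_congr rfl fun j _ => hXi P (Fin.castLE hr j)
    have h5 : ∑ k, nk P k = P.ord C0.det - (w P + Δ P) := by
      rw [hsum]
      push_cast
      ring
    rw [h3, h5]
    have h6 := mul_le_mul_of_nonneg_left h4 hrho0.le
    linarith
  have hfinal : Dd * ((m / n : ℝ) * (-c) - (lam + a * c) +
      rho * (g l * (-c) - ∑ k ∈ Finset.range l, (g (k + 1) - g k) * sd (k + 1))) ≤ 0 := by
    have h1 : ∑ P ∈ S, α P * (Dd * ((m / n : ℝ) * (P.ord C0.det - (w P + Δ P)) -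
      (ℓ P + a * (w P + Δ P)) + rho * (g l * (P.ord C0.det - (w P + Δ P)) -
        ∑ k ∈ Finset.range l, (g (k + 1) - g k) * ev (k + 1) P))) ≤
        ∑ P ∈ S, α P * (P.ord Q0 : ℝ) :=
      Finset.sum_le_sum fun P hP =>
        mul_le_mul_of_nonneg_left (hlocal P hP) (hα.nonneg P (hSp P hP))
    rw [e1] at h1
    refine le_trans (le_of_eq ?_) h1
    have h2 : ∑ P ∈ S, α P * (P.ord C0.det - (w P + Δ P) : ℝ) = -c := by
      simp only [mul_sub, Finset.sum_sub_distrib]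
      rw [e2, e7]
      ring
    have h3 : ∑ P ∈ S, α P * ∑ k ∈ Finset.range l, (g (k + 1) - g k) * ev (k + 1) P =
        ∑ k ∈ Finset.range l, (g (k + 1) - g k) * sd (k + 1) := by
      simp only [Finset.mul_sum]
      rw [Finset.sum_comm]
      refine Finset.sum_congr rfl fun k hk => ?_
      have hk' := Finset.mem_range.1 hk
      rw [← e6 (k + 1) (by omega), Finset.mul_sum]
      exact Finset.sum_congr rfl fun P _ => by ring
    have h4 : ∀ P, α P * (Dd * ((m / n : ℝ) * (P.ord C0.det - (w P + Δ P)) -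
      (ℓ P + a * (w P + Δ P)) + rho * (g l * (P.ord C0.det - (w P + Δ P)) -
        ∑ k ∈ Finset.range l, (g (k + 1) - g k) * ev (k + 1) P))) =
        Dd * ((m / n : ℝ) * (α P * (P.ord C0.det - (w P + Δ P) : ℝ)) -
          (α P * (ℓ P : ℝ) + a * (α P * (w P + Δ P : ℝ))) +
          rho * (g l * (α P * (P.ord C0.det - (w P + Δ P) : ℝ)) -
            α P * ∑ k ∈ Finset.range l, (g (k + 1) - g k) * ev (k + 1) P)) := by
      intro P
      ring
    rw [Finset.sum_congr rfl fun P _ => h4 P, ← Finset.mul_sum, Finset.sum_add_distrib,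
      Finset.sum_sub_distrib, Finset.sum_add_distrib, ← Finset.mul_sum, ← Finset.mul_sum,
      ← Finset.mul_sum, Finset.sum_sub_distrib, ← Finset.mul_sum, h2, h3, e4, e7]
  have hge : 0 ≤ (m / n : ℝ) * (-c) - (lam + a * c) := by
    have h1 : (m / n : ℝ) * (-c) - (lam + a * c) = (-((m + n * a) * c) - n * lam) / n := by
      field_simp
      ring
    rw [h1]
    exact div_nonneg (by linarith) hn0.le
  have h1 := mul_pos hrho0 hpos
  have h2 : 0 < Dd * ((m / n : ℝ) * (-c) - (lam + a * c) +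
      rho * (g l * (-c) - ∑ k ∈ Finset.range l, (g (k + 1) - g k) * sd (k + 1))) :=
    mul_pos hDd0 (by linarith)
  linarith

end

end Pool.Agent.H897
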