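import Pool.Agent.H897.QD
import Pool.Agent.H897.RH
import Pool.Graph.R_pool_sql_team_seeded_63374d34.N133.TB.Inv

/-!
The effective canonical flag of a set of tensors.
-/

set_option autoImplicit false
set_option linter.overlappingInstances false
set_option linter.unusedSectionVars false

open MvPolynomial FF Pool.Agent.W602.GT Pool.Agent.Y172 Pool.Agent.NH31 Pool.Agent.W603.LV
open Pool.Agent.N133.TB Pool.Agent.Y174 Pool.Agent.TH466.QG

namespace Pool.Agent.H897

section

variable {K V : Type} [Field K] [AddCommGroup V] [Module K V] {n : ℕ}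

/-- the span of the first `k` vectors -/
def flagSp (K : Type) [Field K] {V : Type} [AddCommGroup V] [Module K V] {n : ℕ} (b : Fin n → V)
    (k : ℕ) : Submodule K V := Submodule.span K {v | ∃ j : Fin n, (j : ℕ) < k ∧ v = b j}

/-- the elements of the span -/
theorem flagSp_coord {b : Fin n → V} {k : ℕ} {x : V} (hx : x ∈ flagSp K b k) :
    ∃ c : Fin n → K, (∀ l : Fin n, ¬ (l : ℕ) < k → c l = 0) ∧ x = ∑ l, c l • b l := by
  classical
  unfold flagSp at hx
  induction hx using Submodule.span_induction with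
  | mem x hx =>
    obtain ⟨j, hj, rfl⟩ := hx
    refine ⟨Pi.single j 1, fun l hl => ?_, ?_⟩
    · rw [Pi.single_apply, if_neg]
      rintro rfl
      exact hl hj
    · rw [Finset.sum_eq_single j]
      · rw [Pi.single_eq_same, one_smul]
      · intro b _ hb
        rw [Pi.single_eq_of_ne hb, zero_smul]
      · intro h
        exact absurd (Finset.mem_univ j) h
  | zero => exact ⟨0, fun _ _ => rfl, by simp⟩
  | add x y _ _ hx hy =>
    obtain ⟨c, hc, rfl⟩ := hx
    obtain ⟨c', hc', rfl⟩ := hy
    refine ⟨c + c', fun l hl => ?_, ?_⟩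
    · rw [Pi.add_apply, hc l hl, hc' l hl, add_zero]
    · rw [← Finset.sum_add_distrib]
      refine Finset.sum_congr rfl fun l _ => ?_
      rw [Pi.add_apply, add_smul]
  | smul r x _ hx =>
    obtain ⟨c, hc, rfl⟩ := hx
    refine ⟨r • c, fun l hl => ?_, ?_⟩
    · rw [Pi.smul_apply, hc l hl, smul_zero]
    · rw [Finset.smul_sum]
      refine Finset.sum_congr rfl fun l _ => ?_
      rw [Pi.smul_apply, smul_eq_mul, mul_smul]

/-- a multilinear form which vanishes on the basis vectors vanishes on their span -/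
theorem vanish_flag {m : ℕ} (t : MultilinearMap K (fun _ : Fin m => V) K) {b : Fin n → V} {k : ℕ}
    (h : ∀ J : Fin m → Fin n, (∀ s, ((J s : Fin n) : ℕ) < k) → t (fun s => b (J s)) = 0)
    (D : Fin m → V) (hD : ∀ s, D s ∈ flagSp K b k) : t D = 0 := by
  classical
  choose c hc hc' using fun j => flagSp_coord (hD j)
  have h1 : D = fun j => ∑ l, c j l • b l := funext hc'
  rw [h1, MultilinearMap.map_sum]
  refine Finset.sum_eq_zero fun I _ => ?_
  rw [MultilinearMap.map_smul_univ, smul_eq_mul]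
  by_cases hI : ∀ s, ((I s : Fin n) : ℕ) < k
  · rw [h I hI, mul_zero]
  · push Not at hI
    obtain ⟨s, hs⟩ := hI
    rw [Finset.prod_eq_zero (Finset.mem_univ s) (hc s (I s) (not_lt.2 hs)), zero_mul]

end

section

variable {K : Type} [Field K] [Algebra ℂ K] {N n : ℕ} {y : Fin (N + 1) → K}

/-- the pull-back of a tensor with values in a multiple of the canonical bundle under a birational
automorphism -/
noncomputable def pullTw {m : ℕ} (φ : K ≃ₐ[ℂ] K)
    (T : (Fin n → Derivation ℂ K K) → MultilinearMap K (fun _ : Fin m => Derivation ℂ K K) K) :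
    (Fin n → Derivation ℂ K K) → MultilinearMap K (fun _ : Fin m => Derivation ℂ K K) K :=
  fun E => pullT φ (T fun i => pushD φ (E i))

/-- the smallest order of the minors -/
theorem exists_minOrdQ (P : Place ℂ K) (δ : ℚ) (i0 : Fin n) {r : ℕ} (c : Matrix (Fin r) (Fin n) K)
    (h : ∃ I : Fin r → Fin n, (c.submatrix id I).det ≠ 0) :
    ∃ e : ℚ, (∀ I : Fin r → Fin n, (c.submatrix id I).det = 0 ∨
      (e : ℝ) ≤ P.ord (c.submatrix id I).det + ∑ s, nuf δ i0 (I s)) ∧
    ∃ I : Fin r → Fin n, (c.submatrix id I).det ≠ 0 ∧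
      (e : ℝ) = P.ord (c.submatrix id I).det + ∑ s, nuf δ i0 (I s) := by
  classical
  obtain ⟨e, h1, I, h2, h3⟩ := exists_minOrd P (nuf δ i0) c h
  obtain ⟨q, hq⟩ : ∃ q : ℚ, q = P.ord (c.submatrix id I).det - ∑ s, if I s = i0 then δ else 0 :=
    ⟨_, rfl⟩
  have h4 : (q : ℝ) = e := by
    rw [h3, sum_nuf, hq]
    simp only [Rat.cast_sub, Rat.cast_sum, Rat.cast_intCast, apply_ite (Rat.cast : ℚ → ℝ),
      Rat.cast_zero]
    ring
  refine ⟨q, fun J => ?_, I, h2, ?_⟩
  · rw [h4]
    exact h1 J
  · rw [h4]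
    exact h3

theorem li_of_dual {x : Fin n → K} {E0 : Fin n → Derivation ℂ K K}
    (hE0 : ∀ i j, E0 i (x j) = if i = j then 1 else 0) : LinearIndependent K E0 := by
  classical
  rw [Fintype.linearIndependent_iff]
  intro g hg k
  have h1 := congrArg (fun D : Derivation ℂ K K => D (x k)) hg
  have h2 : (∑ i, g i • E0 i) (x k) = 0 := h1
  rw [sum_smul_apply, Finset.sum_eq_single k] at h2
  · rw [hE0, if_pos rfl, mul_one] at h2
    exact h2
  · intro b _ hb
    rw [hE0, if_neg hb, mul_zero]
  · intro h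
    exact absurd (Finset.mem_univ k) h

theorem span_of_frame {E0 : Fin n → Derivation ℂ K K} (hfr : IsFrame E0) :
    Submodule.span K (Set.range E0) = ⊤ := by
  rw [eq_top_iff]
  intro D _
  obtain ⟨g, rfl⟩ := hfr D
  exact Submodule.sum_mem _ fun i _ => Submodule.smul_mem _ _ (Submodule.subset_span ⟨i, rfl⟩)

end

end Pool.Agent.H897
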