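import Pool.Agent.H897.QE

/-!
The effective canonical flag of a set of tensors.
-/

set_option autoImplicit false
set_option linter.overlappingInstances false
set_option linter.unusedSectionVars false

open MvPolynomial FF Pool.Agent.W602.GT Pool.Agent.Y172 Pool.Agent.NH31 Pool.Agent.W603.LV
open Pool.Agent.N133.TB Pool.Agent.Y174 Pool.Agent.TH466.QG

namespace Pool.Agent.H897

section

variable {K : Type} [Field K] [Algebra ℂ K] {N n : ℕ} {y : Fin (N + 1) → K}

theorem push_frame (φ : K ≃ₐ[ℂ] K) {E : Fin n → Derivation ℂ K K} (hE : IsFrame E) :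
    IsFrame fun i => pushD φ (E i) := by
  intro D
  obtain ⟨c, hc⟩ := hE (pushD φ.symm D)
  refine ⟨fun i => φ (c i), ?_⟩
  have h1 : D = pushD φ (pushD φ.symm D) := (pushD_symm' φ D).symm
  rw [h1, hc]
  let Ψ : Derivation ℂ K K →+ Derivation ℂ K K :=
    { toFun := pushD φ
      map_zero' := pushD_zero _
      map_add' := pushD_add _ }
  have h2 : Ψ (∑ i, c i • E i) = ∑ i, Ψ (c i • E i) := map_sum _ _ _
  refine h2.trans (Finset.sum_congr rfl fun i _ => ?_)
  exact pushD_smul φ _ _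

/-- the arithmetic of the local estimate -/
theorem flag_arith {l : ℕ} {g x e : ℕ → ℝ} {A : ℕ → ℕ} {M rho sx : ℝ}
    (hmono : ∀ k, k < l → g k ≤ g (k + 1)) (hg0 : ∑ k ∈ Finset.range (l + 1), g k = 0)
    (hrho : 0 ≤ rho) (hM : 0 ≤ M) (hA : ∀ k, k < l → (A (k + 1) : ℝ) = M * rho * (g (k + 1) - g k))
    (hx : ∑ k ∈ Finset.range (l + 1), x k = sx)
    (he : ∀ k, k < l → ∑ j ∈ Finset.range (k + 1), x j ≤ e (k + 1)) :
    ∑ k ∈ Finset.Ico 1 (l + 1), (A k : ℝ) * (k * sx - (l + 1 : ℝ) * e k) ≤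
      (l + 1 : ℝ) * (M * rho * ∑ k ∈ Finset.range (l + 1), g k * x k) := by
  have h1 := abel_nat g x l
  have h2 := abel_nat g (fun _ => 1) l
  simp only [mul_one, Finset.sum_const, Finset.card_range, nsmul_eq_mul] at h2
  rw [hg0] at h2
  push_cast at h2
  rw [h1, hx, Finset.sum_Ico_eq_sum_range]
  have h3 : ∀ k ∈ Finset.range (l + 1 - 1), (A (1 + k) : ℝ) *
      (((1 + k : ℕ) : ℝ) * sx - (l + 1 : ℝ) * e (1 + k)) ≤
      M * rho * (sx * ((g (k + 1) - g k) * (k + 1)) - (l + 1 : ℝ) *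
        ((g (k + 1) - g k) * ∑ j ∈ Finset.range (k + 1), x j)) := by
    intro k hk
    have hk' : k < l := by
      have := Finset.mem_range.1 hk
      omega
    rw [add_comm 1 k, hA k hk']
    push_cast
    have h4 := he k hk'
    have h5 : 0 ≤ M * rho * (g (k + 1) - g k) * (l + 1 : ℝ) :=
      mul_nonneg (mul_nonneg (mul_nonneg hM hrho) (sub_nonneg.2 (hmono k hk'))) (by positivity)
    have h6 := mul_le_mul_of_nonneg_left h4 h5
    linarith
  refine (Finset.sum_le_sum h3).trans (le_of_eq ?_)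
  have h7 : l + 1 - 1 = l := by omega
  rw [h7, ← Finset.mul_sum, Finset.sum_sub_distrib, ← Finset.mul_sum, ← Finset.mul_sum]
  have h8 : ∑ k ∈ Finset.range l, (g (k + 1) - g k) * (k + 1 : ℝ) = g l * (l + 1) := by linarith
  rw [h8]
  ring

/-- **The effective canonical flag.** -/
theorem eff_flag (hy : NormalModel y) (hn : Algebra.trdeg ℂ K = n) (hn1 : 1 ≤ n)
    {Δ : Place ℂ K → ℚ} (hΔ : FinSup y Δ) {m p : ℕ} (hm : 1 ≤ m) {a : ℤ}
    (hp : (p : ℤ) = m + n * a) {ℓ : Place ℂ K → ℚ}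
    (S : Set ((Fin n → Derivation ℂ K K) → MultilinearMap K (fun _ : Fin m => Derivation ℂ K K) K))
    (hT : ∀ T ∈ S, Twisted a T)
    (hTO : ∀ T ∈ S, ∀ P, IsPrimeDivisor y P → OrbAtL (Δ P) (ℓ P) P a T)
    {E : Fin n → Derivation ℂ K K} (hE : IsFrame E) (hT0 : ∃ T ∈ S, T E ≠ 0) :
    ∃ (M : ℕ) (A : ℕ → ℕ) (b : Fin n → Derivation ℂ K K) (e : ℕ → Place ℂ K → ℚ)
      (ω : (Fin n → Derivation ℂ K K) → K), 1 ≤ M ∧ LinearIndependent K b ∧
      (∀ k (hk : k < n), 1 ≤ k → FinSup y (e k) ∧ ∀ P, IsPrimeDivisor y P →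
        WedgeOrd n (Δ P) P (fun i : Fin k => b (Fin.castLE hk.le i)) (e k P)) ∧
      ω ≠ 0 ∧
      IsSection y n (M * p + ∑ k ∈ Finset.Ico 1 n, k * A k)
        ((M * p + ∑ k ∈ Finset.Ico 1 n, k * A k) • Δ + (n * M) • ℓ +
          ∑ k ∈ Finset.Ico 1 n, (n * A k) • e k) ω ∧
      ((∀ k, 1 ≤ k → k < n → A k = 0) ∨ ∃ k, 1 ≤ k ∧ k < n ∧ A k ≠ 0 ∧ ∀ T ∈ S,
        ∀ D : Fin m → Derivation ℂ K K, (∀ s, D s ∈ flagSp K b k) → T E D = 0) ∧
      ∀ φ : K ≃ₐ[ℂ] K, (∀ T ∈ S, pullTw φ T ∈ S) → ∀ k, 1 ≤ k → k < n → A k ≠ 0 →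
        ∀ D ∈ flagSp K b k, pushD φ D ∈ flagSp K b k := by
  classical
  have hess := hy.ess
  have hcK : CharZero K := charZero_of_injective_algebraMap (algebraMap ℂ K).injective
  obtain ⟨x, E0, hx, hE0⟩ := exists_crd hn
  obtain ⟨w, hwf, hw⟩ := exists_canon hy hn hx hE0
  have hfr : IsFrame E0 := frame_of_dual hx hE0
  have hli : LinearIndependent K E0 := li_of_dual hE0
  have hsp := span_of_frame hfr
  obtain ⟨A0, hA0, hAE⟩ := frame_change hx hE0 hE
  have hTE : ∀ T ∈ S, T E = A0.det ^ a • T E0 := by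
    intro T hTS
    rw [hAE]
    exact hT T hTS A0 E0 hA0
  have hfin0 : Module.Finite K (Derivation ℂ K K) :=
    ⟨⟨Finset.univ.image E0, by rw [Finset.coe_image, Finset.coe_univ, Set.image_univ, hsp]⟩⟩
  obtain ⟨bs, hb1, hb2, hb3⟩ := exists_linearIndependent K
    {t : MultilinearMap K (fun _ : Fin m => Derivation ℂ K K) K | ∃ T ∈ S, t = T E0}
  have hbf : Finite bs := hb3.setFinite.to_subtype
  have hTs : ∀ T ∈ S, T E0 ∈ Submodule.span K bs := by
    intro T hTS
    rw [hb2]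
    exact Submodule.subset_span ⟨T, hTS, rfl⟩
  have ht0 : ∃ i : bs, (i : MultilinearMap K (fun _ : Fin m => Derivation ℂ K K) K) ≠ 0 := by
    by_contra hcon
    push Not at hcon
    obtain ⟨T, hTS, hT1⟩ := hT0
    apply hT1
    have h1 : Submodule.span K bs = ⊥ := by
      rw [Submodule.span_eq_bot]
      intro t ht
      exact hcon ⟨t, ht⟩
    have h2 := hTs T hTS
    rw [h1, Submodule.mem_bot] at h2
    rw [hTE T hTS, h2, smul_zero]
  obtain ⟨b, γ, rho, N0, f, hγ, hγ0, hrho, hN0, hf, hvan, huniq, hloc⟩ :=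
    flag_thm hn1 hm hli hsp
      (fun i : bs => (i : MultilinearMap K (fun _ : Fin m => Derivation ℂ K K) K)) ht0
  -- the vanishing for all elements of `S`
  have hvanS : ∀ J : Fin m → Fin n,
      (∀ i : bs, (i : MultilinearMap K (fun _ : Fin m => Derivation ℂ K K) K)
        (fun s => b (J s)) = 0) → ∀ T ∈ S, T E0 (fun s => b (J s)) = 0 := by
    intro J hJ T hTS
    have h3 : ∀ T' ∈ Submodule.span K bs, T' (fun s => b (J s)) = 0 := by
      intro T' hT'
      induction hT' using Submodule.span_induction with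
      | mem x hx => exact hJ ⟨x, hx⟩
      | zero => rfl
      | add x y _ _ hx hy => rw [add_apply, hx, hy, add_zero]
      | smul r x _ hx => rw [smul_apply, hx, smul_zero]
    exact h3 _ (hTs T hTS)
  -- the global matrix
  obtain ⟨C0, hC0, hbC⟩ := frame_change hx hE0 (E := b) (fun D => ⟨fun i => b.repr D i,
    (b.sum_repr D).symm⟩)
  have hbC' : ∀ k, b k = ∑ j, C0 k j • E0 j := fun k => congrFun hbC k
  -- the local data
  have hlocd : ∀ P : Place ℂ K, ∃ (E : Fin n → Derivation ℂ K K) (i0 : Fin n)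
      (M C U : Matrix (Fin n) (Fin n) K) (nk : Fin n → ℝ), IsPrimeDivisor y P →
      (Adapted (Δ P) P E i0 ∧ (E = fun i => ∑ j, M i j • E0 j) ∧ M.det ≠ 0 ∧
      (P.ord M.det : ℚ) = w P ∧ (∀ k, b k = ∑ j, C k j • E j) ∧ C.det ≠ 0 ∧
      (∀ i, U i i = 1) ∧ (∀ i j, i < j → U i j = 0) ∧
      (∀ k j, GeR P (nk k - nuf (Δ P) i0 j) ((U * C) k j)) ∧
      ∑ k, nk k = P.ord C0.det - w P - Δ P ∧ (FrameAt P E0 → Δ P = 0 → C = C0)) := by
    intro P
    by_cases hP : IsPrimeDivisor y P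
    · obtain ⟨E, i0, M, C, U, nk, h⟩ := loc_data hy hn hx hE0 hw hC0 hbC' Δ hP
      exact ⟨E, i0, M, C, U, nk, fun _ => h⟩
    · exact ⟨E0, ⟨0, hn1⟩, 1, 1, 1, fun _ => 0, fun h => absurd h hP⟩
  choose Ef i0 Mm Cc U nk hdat using hlocd
  -- the wedge orders
  have hwedge : ∀ (r : ℕ) (P : Place ℂ K), ∃ v : ℚ, IsPrimeDivisor y P → ∀ hr : r ≤ n,
      (∀ I : Fin r → Fin n, (((Cc P).submatrix (Fin.castLE hr) id).submatrix id I).det = 0 ∨
        (v : ℝ) ≤ P.ord (((Cc P).submatrix (Fin.castLE hr) id).submatrix id I).det +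
          ∑ s, nuf (Δ P) (i0 P) (I s)) ∧
      ∃ I : Fin r → Fin n, (((Cc P).submatrix (Fin.castLE hr) id).submatrix id I).det ≠ 0 ∧
        (v : ℝ) = P.ord (((Cc P).submatrix (Fin.castLE hr) id).submatrix id I).det +
          ∑ s, nuf (Δ P) (i0 P) (I s) := by
    intro r P
    by_cases hP : IsPrimeDivisor y P
    · by_cases hr : r ≤ n
      · obtain ⟨I, hI⟩ := exists_minor (hdat P hP).2.2.2.2.2.1 hr
        obtain ⟨v, hv⟩ := exists_minOrdQ P (Δ P) (i0 P)
          ((Cc P).submatrix (Fin.castLE hr) id) ⟨I, hI⟩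
        exact ⟨v, fun _ _ => hv⟩
      · exact ⟨0, fun _ h => absurd h hr⟩
    · exact ⟨0, fun h => absurd h hP⟩
  choose ev hev using hwedge
  have hwo : ∀ (r : ℕ) (hr : r ≤ n) (P : Place ℂ K), IsPrimeDivisor y P →
      WedgeOrd n (Δ P) P (fun k : Fin r => b (Fin.castLE hr k)) (ev r P) := by
    intro r hr P hP
    obtain ⟨h1, h2⟩ := hev r P hP hr
    refine ⟨Ef P, i0 P, (Cc P).submatrix (Fin.castLE hr) id, (hdat P hP).1,
      fun k => (hdat P hP).2.2.2.2.1 _, fun I => ?_, ?_⟩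
    · have h3 := h1 I
      rw [sum_nuf, ← sub_eq_add_neg] at h3
      exact h3
    · obtain ⟨I, h3, h4⟩ := h2
      rw [sum_nuf, ← sub_eq_add_neg] at h4
      exact ⟨I, h3, h4⟩
  -- the finiteness of the supports
  have hfin : ∀ (r : ℕ) (_ : r ≤ n), FinSup y (ev r) := by
    intro r hr
    have hI : ∀ I : Fin r → Fin n,
        {P | IsPrimeDivisor y P ∧ (C0.submatrix (Fin.castLE hr) I).det ≠ 0 ∧
          P.ord (C0.submatrix (Fin.castLE hr) I).det ≠ 0}.Finite := by
      intro I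
      by_cases h0 : (C0.submatrix (Fin.castLE hr) I).det = 0
      · exact Set.finite_empty.subset (by rintro P ⟨-, h, -⟩; exact h h0)
      · exact (finite_ord hy h0).subset (by rintro P ⟨h1, -, h2⟩; exact ⟨h1, h2⟩)
    refine ((frame_ae hy hn hx hE0).union (hΔ.union (Set.finite_iUnion hI))).subset ?_
    rintro P ⟨hP, hne⟩
    by_contra hcon2
    rw [Set.mem_union, Set.mem_union] at hcon2
    push Not at hcon2
    have h1 : FrameAt P E0 := by
      by_contra h
      exact hcon2.1 ⟨hP, h⟩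
    have h2 : Δ P = 0 := by
      by_contra h
      exact hcon2.2.1 ⟨hP, h⟩
    have h3 := (hdat P hP).2.2.2.2.2.2.2.2.2.2 h1 h2
    obtain ⟨-, I, h4, h5⟩ := hev r P hP hr
    apply hne
    have h8 : (ev r P : ℝ) = 0 := by
      rw [h5, sum_nuf, h2]
      rw [h3] at h4 ⊢
      have h6 : P.ord (C0.submatrix (Fin.castLE hr) I).det = 0 := by
        by_contra h
        exact hcon2.2.2 (Set.mem_iUnion.2 ⟨I, hP, h4, h⟩)
      have h7 : ((C0.submatrix (Fin.castLE hr) id).submatrix id I).det =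
          (C0.submatrix (Fin.castLE hr) I).det := rfl
      rw [h7, h6]
      simp
    exact_mod_cast h8
  -- the numbers
  obtain ⟨l, hl⟩ : ∃ l, n = l + 1 := ⟨n - 1, by omega⟩
  obtain ⟨g, hg⟩ : ∃ g : ℕ → ℚ, g = fun k => if h : k < n then γ ⟨k, h⟩ else 0 := ⟨_, rfl⟩
  have hgi : ∀ i : Fin n, g i = γ i := by
    intro i
    rw [hg]
    exact dif_pos i.2
  have hgk : ∀ k (hk : k < n), g k = γ ⟨k, hk⟩ := fun k hk => hgi ⟨k, hk⟩
  have hmono : ∀ k, k < l → g k ≤ g (k + 1) := by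
    intro k hk
    rw [hgk k (by omega), hgk (k + 1) (by omega)]
    exact hγ (by
      rw [Fin.le_def]
      exact Nat.le_succ k)
  obtain ⟨R, hR, z, hz⟩ := wt_den (fun k : Fin n => if (k : ℕ) = 0 then 0 else
    rho * (g k - g (k - 1))) (fun k => by
      by_cases hk : (k : ℕ) = 0
      · simp [hk]
      · simp only [hk, if_false]
        refine mul_nonneg hrho.le (sub_nonneg.2 ?_)
        have h1 := hmono (k - 1) (by omega)
        have h2 : (k : ℕ) - 1 + 1 = k := by omega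
        rwa [h2] at h1)
  obtain ⟨A, hA⟩ : ∃ A : ℕ → ℕ, A = fun k => if h : k < n then N0 * z ⟨k, h⟩ else 0 := ⟨_, rfl⟩
  obtain ⟨M, hM⟩ : ∃ M : ℕ, M = N0 * R := ⟨_, rfl⟩
  have hMpos : 1 ≤ M := by
    rw [hM]
    exact Nat.mul_pos hN0 hR
  have hAk : ∀ k, k < l → (A (k + 1) : ℚ) = M * rho * (g (k + 1) - g k) := by
    intro k hk
    have h1 := hz ⟨k + 1, by omega⟩
    simp only [Nat.succ_ne_zero, if_false, Nat.add_sub_cancel] at h1
    rw [hA, hM]
    simp only
    rw [dif_pos (by omega)]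
    push_cast
    rw [← h1]
    ring
  have hA0iff : ∀ k, k < l → (A (k + 1) ≠ 0 ↔ g k < g (k + 1)) := by
    intro k hk
    have h1 := hAk k hk
    have h2 : (0 : ℚ) < M * rho := mul_pos (by exact_mod_cast hMpos) hrho
    constructor
    · intro h
      have h3 : (A (k + 1) : ℚ) ≠ 0 := by exact_mod_cast h
      rw [h1] at h3
      have h4 := (mul_ne_zero_iff.1 h3).2
      exact lt_of_le_of_ne (hmono k hk) fun h5 => h4 (sub_eq_zero.2 h5.symm)
    · intro h h0
      rw [h0] at h1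
      have h3 := mul_pos h2 (sub_pos.2 h)
      rw [← h1] at h3
      simp at h3
  obtain ⟨q, hq⟩ : ∃ q : ℕ, q = M * p + ∑ k ∈ Finset.Ico 1 n, k * A k := ⟨_, rfl⟩
  obtain ⟨u, hu⟩ : ∃ u : ℕ, u = M * m + ∑ k ∈ Finset.Ico 1 n, k * A k := ⟨_, rfl⟩
  obtain ⟨G, hG⟩ : ∃ G : K, G = f ^ (n * R) * (C0.det ^ u)⁻¹ := ⟨_, rfl⟩
  have hG0 : G ≠ 0 := by
    rw [hG]
    exact mul_ne_zero (pow_ne_zero _ hf) (inv_ne_zero (pow_ne_zero _ hC0))
  have hGord : ∀ P : Place ℂ K, (P.ord G : ℝ) = n * R * P.ord f - u * P.ord C0.det := by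
    intro P
    rw [hG, P.ord_mul (pow_ne_zero _ hf) (inv_ne_zero (pow_ne_zero _ hC0)), P.ord_pow,
      P.ord_inv, P.ord_pow]
    push_cast
    ring
  have hpl := frm_pluri x q G
  refine ⟨M, A, b, ev, frm x q G, hMpos, b.linearIndependent,
    fun k hk hk1 => ⟨hfin k hk.le, fun P hP => hwo k hk.le P hP⟩, ?_, ?_, ?_, ?_⟩
  · intro h0
    have h1 : frm x q G E0 = G := frm_eval hE0 _ _
    rw [h0] at h1
    exact hG0 h1.symm
  · rw [← hq]
    refine ⟨hpl, fun P hP => (hw P hP _ _ _ hpl).2 (Or.inr ?_)⟩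
    rw [frm_eval hE0]
    obtain ⟨hAd, hEM, hM0, hMw, hbE, hC, hU1, hU2, hU3, hsum, -⟩ := hdat P hP
    have h1 := hloc P (Ef P) (Cc P) (U P) (nuf (Δ P) (i0 P)) (nk P) (ℓ P + a * Δ P + a * w P) hbE
      (fun i I => by
        obtain ⟨T, hTS, hTi⟩ := hb1 i.2
        rw [hTi]
        exact orb_coef (hT T hTS) (hTO T hTS P hP) hAd hEM hM0 hMw I) hU1 hU2 hU3
    obtain ⟨X, hX⟩ : ∃ X : ℕ → ℝ, X = fun k => if h : k < n then nk P ⟨k, h⟩ else 0 := ⟨_, rfl⟩
    have hXi : ∀ i : Fin n, X i = nk P i := by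
      intro i
      rw [hX]
      exact dif_pos i.2
    have h2 := flag_arith (l := l) (g := fun k => (g k : ℝ)) (x := X)
      (e := fun k => (ev k P : ℝ)) (A := A) (M := M) (rho := rho) (sx := ∑ k, nk P k)
      (fun k hk => by exact_mod_cast hmono k hk) (by
        have h3 : ∑ k ∈ Finset.range (l + 1), g k = 0 := by
          rw [← hl, Finset.sum_range, ← hγ0]
          exact Finset.sum_congr rfl fun i _ => hgi i
        exact_mod_cast h3) (by exact_mod_cast hrho.le) (Nat.cast_nonneg _)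
      (fun k hk => by exact_mod_cast hAk k hk) (by
        rw [← hl, Finset.sum_range]
        exact Finset.sum_congr rfl fun i _ => hXi i)
      (fun k hk => by
        have hr : k + 1 ≤ n := by omega
        obtain ⟨-, I, h5, h6⟩ := hev (k + 1) P hP hr
        rw [h6, Finset.sum_range]
        refine le_trans (le_of_eq ?_) (qr_minor hU1 hU2 hU3 hr h5)
        exact Finset.sum_congr rfl fun j _ => hXi (Fin.castLE hr j))
    have h3 : ∑ k ∈ Finset.range (l + 1), (g k : ℝ) * X k = ∑ k, (γ k : ℝ) * nk P k := by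
      rw [← hl, Finset.sum_range]
      exact Finset.sum_congr rfl fun i _ => by rw [hgi i, hXi i]
    rw [h3, ← hl] at h2
    have hnl : (n : ℝ) = l + 1 := by exact_mod_cast hl
    rw [← hnl] at h2
    have hn0 : (n : ℝ) ≠ 0 := by
      have : n ≠ 0 := by omega
      exact_mod_cast this
    have h4 : (n * R : ℝ) * (N0 * ((m / n : ℝ) * ∑ k, nk P k - (ℓ P + a * Δ P + a * w P) +
        rho * ∑ k, (γ k : ℝ) * nk P k)) ≤ n * R * P.ord f :=
      mul_le_mul_of_nonneg_left h1 (by positivity)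
    have hMR : (M : ℝ) = N0 * R := by
      rw [hM]
      push_cast
      rfl
    have h5 : (n * R : ℝ) * (N0 * ((m / n : ℝ) * ∑ k, nk P k - (ℓ P + a * Δ P + a * w P) +
        rho * ∑ k, (γ k : ℝ) * nk P k)) = M * m * ∑ k, nk P k -
        n * M * (ℓ P + a * Δ P + a * w P) + n * (M * rho * ∑ k, (γ k : ℝ) * nk P k) := by
      rw [hMR]
      field_simp
    rw [h5] at h4
    have h6 : ∑ k ∈ Finset.Ico 1 n, (A k : ℝ) * (k * ∑ k, nk P k - n * ev k P) =
        (∑ k ∈ Finset.Ico 1 n, (k * A k : ℝ)) * ∑ k, nk P k -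
          ∑ k ∈ Finset.Ico 1 n, (n * A k : ℝ) * ev k P := by
      rw [Finset.sum_mul, ← Finset.sum_sub_distrib]
      exact Finset.sum_congr rfl fun k _ => by ring
    rw [h6, hsum] at h2
    rw [hsum] at h4
    have hpR : (p : ℝ) = m + n * a := by exact_mod_cast hp
    have hqR : (q : ℝ) = M * p + ∑ k ∈ Finset.Ico 1 n, (k * A k : ℝ) := by
      rw [hq]
      push_cast
      rfl
    have huR : (u : ℝ) = M * m + ∑ k ∈ Finset.Ico 1 n, (k * A k : ℝ) := by
      rw [hu]
      push_cast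
      rfl
    have h7 : -((q : ℝ) * Δ P + n * M * ℓ P + ∑ k ∈ Finset.Ico 1 n, (n * A k : ℝ) * ev k P) -
        q * w P ≤ P.ord G := by
      rw [hGord, hqR, huR, hpR]
      push_cast at h2 h4 ⊢
      linarith
    have h8 : (((q • Δ + (n * M) • ℓ + ∑ k ∈ Finset.Ico 1 n, (n * A k) • ev k) P : ℚ) : ℝ) =
        (q : ℝ) * Δ P + n * M * ℓ P + ∑ k ∈ Finset.Ico 1 n, (n * A k : ℝ) * ev k P := by
      rw [Pi.add_apply, Pi.add_apply, Finset.sum_apply]
      simp only [smul_ap]
      push_cast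
      rfl
    have h9 : (((-((q • Δ + (n * M) • ℓ + ∑ k ∈ Finset.Ico 1 n, (n * A k) • ev k) P) -
        (q : ℕ) * w P : ℚ)) : ℝ) ≤ ((P.ord G : ℚ) : ℝ) := by
      push_cast at h8 ⊢
      rw [h8]
      exact h7
    exact_mod_cast h9
  · rcases hvan with h0 | h0
    · left
      intro k hk1 hk
      by_contra hne
      obtain ⟨k', rfl⟩ : ∃ k', k = k' + 1 := ⟨k - 1, by omega⟩
      have h1 := (hA0iff k' (by omega)).1 hne
      rw [hgk k' (by omega), hgk (k' + 1) (by omega), h0, h0] at h1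
      exact lt_irrefl _ h1
    · by_cases hz0 : ∀ i, γ i = 0
      · left
        intro k hk1 hk
        by_contra hne
        obtain ⟨k', rfl⟩ : ∃ k', k = k' + 1 := ⟨k - 1, by omega⟩
        have h1 := (hA0iff k' (by omega)).1 hne
        rw [hgk k' (by omega), hgk (k' + 1) (by omega), hz0, hz0] at h1
        exact lt_irrefl _ h1
      · right
        have h1 : ∃ k, k < n ∧ 0 < g k := by
          by_contra hcon
          push Not at hcon
          apply hz0
          have h2 : ∀ i, γ i ≤ 0 := fun i => by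
            rw [← hgi i]
            exact hcon i i.2
          exact fun i => (Finset.sum_eq_zero_iff_of_nonpos fun i _ => h2 i).1 hγ0 i
            (Finset.mem_univ i)
        obtain ⟨hk, hk0⟩ := Nat.find_spec h1
        obtain ⟨k, hkd⟩ : ∃ k, k = Nat.find h1 := ⟨_, rfl⟩
        rw [← hkd] at hk hk0
        have hmin : ∀ j, j < k → g j ≤ 0 := by
          intro j hj
          rw [hkd] at hj
          have h3 := Nat.find_min h1 hj
          by_contra hcon
          push Not at hcon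
          exact h3 ⟨by omega, hcon⟩
        have hk1 : 1 ≤ k := by
          by_contra hcon
          have hk0' : k = 0 := by omega
          have h3 : ∀ i : Fin n, 0 < γ i := by
            intro i
            have h4 : γ ⟨0, hn1⟩ ≤ γ i := hγ (by
              rw [Fin.le_def]
              exact Nat.zero_le _)
            rw [hk0', hgk 0 hn1] at hk0
            exact lt_of_lt_of_le hk0 h4
          have h4 : 0 < ∑ i, γ i :=
            Finset.sum_pos (fun j _ => h3 j) ⟨⟨0, hn1⟩, Finset.mem_univ _⟩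
          exact h4.ne' hγ0
        obtain ⟨k', rfl⟩ : ∃ k', k = k' + 1 := ⟨k - 1, by omega⟩
        refine ⟨k' + 1, hk1, hk, (hA0iff k' (by omega)).2
          (lt_of_le_of_lt (hmin k' (Nat.lt_succ_self _)) hk0), fun T hTS D hD => ?_⟩
        rw [hTE T hTS, smul_apply,
          vanish_flag (T E0) (b := b) (fun J hJ => ?_) D hD, smul_zero]
        refine hvanS J (fun i => h0 i J ?_) T hTS
        refine lt_of_le_of_lt (Finset.sum_nonpos fun s _ => ?_) one_pos
        rw [← hgi (J s)]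
        exact hmin _ (hJ s)
  · intro φ hφ k hk1 hk hne D hD
    obtain ⟨k', rfl⟩ : ∃ k', k = k' + 1 := ⟨k - 1, by omega⟩
    have hlt := (hA0iff k' (by omega)).1 hne
    have hlev : ∀ h : Fin n → Derivation ℂ K K,
        Submodule.span K {v | ∃ j, γ j ≤ g k' ∧ v = h j} = flagSp K h (k' + 1) := by
      intro h
      unfold flagSp
      congr 1
      ext v
      have h8 : ∀ j : Fin n, γ j ≤ g k' ↔ (j : ℕ) < k' + 1 := by
        intro j
        constructor
        · intro h9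
          by_contra hcon
          push Not at hcon
          have h10 : γ ⟨k' + 1, hk⟩ ≤ γ j := hγ (by
            rw [Fin.le_def]
            exact hcon)
          rw [hgk (k' + 1) hk] at hlt
          linarith
        · intro h9
          rw [hgk k' (by omega)]
          exact hγ (by
            rw [Fin.le_def]
            exact Nat.lt_succ_iff.1 h9)
      simp only [h8]
    have h1 := huniq (fun j => pushD φ (b j)) (indep_pushD φ b.linearIndependent) (by
      rcases hvan with h0 | h0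
      · exact Or.inl h0
      · right
        intro i J hJ
        obtain ⟨T, hTS, hTi⟩ := hb1 i.2
        have h2 := hvanS J (fun i => h0 i J hJ) _ (hφ T hTS)
        have h3 : φ.symm (T (fun i => pushD φ (E0 i)) fun s => pushD φ (b (J s))) = 0 := h2
        have h4 := (map_eq_zero _).1 h3
        obtain ⟨B, hB, hBE⟩ := frame_change hx hE0 (push_frame φ hfr)
        have h5 : T (fun i => pushD φ (E0 i)) = B.det ^ a • T E0 := by
          rw [hBE]
          exact hT T hTS B E0 hB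
        rw [h5, smul_apply, smul_eq_mul] at h4
        rw [hTi]
        exact (mul_eq_zero.1 h4).resolve_left (zpow_ne_zero _ hB)) (g k')
    rw [hlev, hlev] at h1
    rw [← h1]
    unfold flagSp at hD ⊢
    induction hD using Submodule.span_induction with
    | mem x hx =>
      obtain ⟨j, hj, rfl⟩ := hx
      exact Submodule.subset_span ⟨j, hj, rfl⟩
    | zero =>
      rw [pushD_zero]
      exact Submodule.zero_mem _
    | add x y _ _ hx hy =>
      rw [pushD_add]
      exact Submodule.add_mem _ hx hy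
    | smul r x _ hx =>
      rw [pushD_smul]
      exact Submodule.smul_mem _ _ hx

end

end Pool.Agent.H897
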