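import Pool.Agent.H897.QG
import Pool.Agent.H897.RJ

/-!
Consequences for the canonical class.
-/

set_option autoImplicit false
set_option linter.overlappingInstances false
set_option linter.unusedSectionVars false

open MvPolynomial FF Pool.Agent.W602.GT Pool.Agent.Y172 Pool.Agent.NH31 Pool.Agent.W603.LV
open Pool.Agent.N133.TB Pool.Agent.Y174 Pool.Agent.TH466.QG

namespace Pool.Agent.H897

section

variable {K : Type} [Field K] [Algebra ℂ K] {N n : ℕ} {y : Fin (N + 1) → K}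

/-- the divisor of the effective class -/
theorem flag_div {M q : ℕ} {A : ℕ → ℕ} {Δ ℓ : Place ℂ K → ℚ} {e : ℕ → Place ℂ K → ℚ}
    (P : Place ℂ K) :
    ((q • Δ + (n * M) • ℓ + ∑ k ∈ Finset.Ico 1 n, (n * A k) • e k) P : ℚ) =
      q * Δ P + n * M * ℓ P + ∑ k ∈ Finset.Ico 1 n, (n * A k : ℚ) * e k P := by
  rw [Pi.add_apply, Pi.add_apply, Finset.sum_apply]
  simp only [smul_ap]
  push_cast
  rfl

/-- the numerical consequence -/
theorem flag_num (hy : NormalModel y) (hn : Algebra.trdeg ℂ K = n) {M p : ℕ}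
    {A : ℕ → ℕ} {Δ ℓ : Place ℂ K → ℚ} {e : ℕ → Place ℂ K → ℚ}
    {ω : (Fin n → Derivation ℂ K K) → K} (hω0 : ω ≠ 0)
    (hω : IsSection y n (M * p + ∑ k ∈ Finset.Ico 1 n, k * A k)
        ((M * p + ∑ k ∈ Finset.Ico 1 n, k * A k) • Δ + (n * M) • ℓ +
          ∑ k ∈ Finset.Ico 1 n, (n * A k) • e k) ω)
    {α : Place ℂ K → ℝ} (hα : MovableClass y α) {c lam : ℝ} {s : ℕ → ℝ}
    (hc : LogDegree y n Δ α c) (hL : HasDeg y α (fun P => ℓ P) lam)
    (hs : ∀ k, 1 ≤ k → k < n → A k ≠ 0 → HasDeg y α (fun P => e k P) (s k)) :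
    0 ≤ M * (p * c + n * lam) + ∑ k ∈ Finset.Ico 1 n, A k * (n * s k + k * c) := by
  have h1 : HasDeg y α (fun P => (n * M : ℝ) * (ℓ P : ℝ) +
      ∑ k ∈ Finset.Ico 1 n, (n * A k : ℝ) * (e k P : ℝ))
      ((n * M : ℝ) * lam + ∑ k ∈ Finset.Ico 1 n, (n * A k : ℝ) * s k) := by
    refine (hL.smul _).add (hasDeg_sum (e := fun k P => (n * A k : ℝ) * (e k P : ℝ))
      (s := fun k => (n * A k : ℝ) * s k) _ fun k hk => ?_)
    rw [Finset.mem_Ico] at hk
    by_cases h0 : A k = 0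
    · have h2 : HasDeg y α (fun _ => 0) 0 := hasDeg_zero α
      simp only [h0, Nat.cast_zero, mul_zero, zero_mul]
      exact h2
    · exact (hs k hk.1 hk.2 h0).smul _
  have h2 := sec_deg hy hn hα hc hω hω0 (h1.congr fun P hP => by
    rw [flag_div]
    push_cast
    ring)
  refine h2.trans (le_of_eq ?_)
  have h3 : ∑ k ∈ Finset.Ico 1 n, (A k : ℝ) * (n * s k + k * c) =
      (∑ k ∈ Finset.Ico 1 n, (k * A k : ℝ)) * c + ∑ k ∈ Finset.Ico 1 n, (n * A k : ℝ) * s k := by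
    rw [Finset.sum_mul, ← Finset.sum_add_distrib]
    exact Finset.sum_congr rfl fun k _ => by ring
  rw [h3]
  push_cast
  ring

/-- if the distributions of the flag have effective canonical classes -/
theorem flag_eff (hy : NormalModel y) (hn : Algebra.trdeg ℂ K = n) {M p : ℕ}
    {A : ℕ → ℕ} {Δ ℓ : Place ℂ K → ℚ} {e : ℕ → Place ℂ K → ℚ}
    {ω : (Fin n → Derivation ℂ K K) → K} (hω0 : ω ≠ 0)
    (hω : IsSection y n (M * p + ∑ k ∈ Finset.Ico 1 n, k * A k)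
        ((M * p + ∑ k ∈ Finset.Ico 1 n, k * A k) • Δ + (n * M) • ℓ +
          ∑ k ∈ Finset.Ico 1 n, (n * A k) • e k) ω)
    (h : ∀ k, 1 ≤ k → k < n → A k ≠ 0 → ∃ (c : ℕ) (g : K), 1 ≤ c ∧ g ≠ 0 ∧
      ∀ P, IsPrimeDivisor y P → c * e k P ≤ P.ord g) :
    ∃ (r : ℕ) (η : (Fin n → Derivation ℂ K K) → K), 1 ≤ r ∧ η ≠ 0 ∧
      IsSection y n (r * (M * p + ∑ k ∈ Finset.Ico 1 n, k * A k))
        ((r * (M * p + ∑ k ∈ Finset.Ico 1 n, k * A k)) • Δ + (r * (n * M)) • ℓ) η := by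
  classical
  have h' : ∀ k, ∃ (c : ℕ) (g : K), 1 ≤ c ∧ g ≠ 0 ∧ (1 ≤ k → k < n → A k ≠ 0 →
      ∀ P, IsPrimeDivisor y P → c * e k P ≤ P.ord g) := by
    intro k
    by_cases hk : 1 ≤ k ∧ k < n ∧ A k ≠ 0
    · obtain ⟨c, g, h1, h2, h3⟩ := h k hk.1 hk.2.1 hk.2.2
      exact ⟨c, g, h1, h2, fun _ _ _ => h3⟩
    · exact ⟨1, 1, le_rfl, one_ne_zero, fun h1 h2 h3 => absurd ⟨h1, h2, h3⟩ hk⟩
  choose c g hc hg hcg using h'
  obtain ⟨r, hr⟩ : ∃ r, r = ∏ k ∈ Finset.Ico 1 n, c k := ⟨_, rfl⟩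
  have hr1 : 1 ≤ r := by
    rw [hr]
    exact Nat.pos_of_ne_zero (Finset.prod_ne_zero_iff.2 fun k _ => by have := hc k; omega)
  obtain ⟨R, hR⟩ : ∃ R : ℕ → ℕ, R = fun k => ∏ j ∈ (Finset.Ico 1 n).erase k, c j := ⟨_, rfl⟩
  have hRc : ∀ k ∈ Finset.Ico 1 n, R k * c k = r := by
    intro k hk
    rw [hR, hr]
    exact Finset.prod_erase_mul _ _ hk
  obtain ⟨G, hG⟩ : ∃ G : K, G = ∏ k ∈ Finset.Ico 1 n, g k ^ (n * A k * R k) := ⟨_, rfl⟩
  have hG0 : G ≠ 0 := by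
    rw [hG]
    exact Finset.prod_ne_zero_iff.2 fun k _ => pow_ne_zero _ (hg k)
  have hGord : ∀ P : Place ℂ K, (P.ord G : ℚ) =
      ∑ k ∈ Finset.Ico 1 n, (n * A k * R k : ℚ) * P.ord (g k) := by
    intro P
    have key : ∀ S : Finset ℕ, (P.ord (∏ k ∈ S, g k ^ (n * A k * R k)) : ℚ) =
        ∑ k ∈ S, (n * A k * R k : ℚ) * P.ord (g k) := by
      intro S
      induction S using Finset.induction_on with
      | empty => simp [P.ord_one]
      | insert k S hk ih =>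
        rw [Finset.prod_insert hk, Finset.sum_insert hk,
          P.ord_mul (pow_ne_zero _ (hg k))
            (Finset.prod_ne_zero_iff.2 fun k _ => pow_ne_zero _ (hg k)), P.ord_pow]
        push_cast
        rw [ih]
    rw [hG]
    exact key _
  obtain ⟨h1, h2⟩ := sec_pow_mul hn hy (r := r) hω hω0 hG0
    (B' := (r * (M * p + ∑ k ∈ Finset.Ico 1 n, k * A k)) • Δ + (r * (n * M)) • ℓ) (by
      intro P hP
      rw [flag_div, hGord, Pi.add_apply, smul_ap, smul_ap, mul_add, Finset.mul_sum]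
      have h3 : ∑ k ∈ Finset.Ico 1 n, (r : ℚ) * ((n * A k : ℚ) * e k P) ≤
          ∑ k ∈ Finset.Ico 1 n, (n * A k * R k : ℚ) * P.ord (g k) := by
        refine Finset.sum_le_sum fun k hk => ?_
        by_cases h0 : A k = 0
        · rw [h0]
          simp
        · have hk' := Finset.mem_Ico.1 hk
          have h4 := hcg k hk'.1 hk'.2 h0 P hP
          have h5 : (r : ℚ) = R k * c k := by exact_mod_cast (hRc k hk).symm
          have h6 : (0 : ℚ) ≤ n * A k * R k := by positivity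
          have h7 := mul_le_mul_of_nonneg_left h4 h6
          rw [h5]
          linarith
      push_cast at h3 ⊢
      linarith)
  exact ⟨r, _, hr1, h2, h1⟩

end

end Pool.Agent.H897
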