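import Pool.Graph.R_pool_sql_team_seeded_63374d34.N133.TB.Can

/-!
The optimal one-parameter subgroup of an unstable multilinear form: rationality and the first order
condition.
-/

set_option autoImplicit false
set_option linter.overlappingInstances false
set_option linter.unusedSectionVars false

open MvPolynomial Pool.Agent.N133.TB

namespace Pool.Agent.H897

/-- rational solutions -/
theorem rat_of {n : ℕ} (C : Set (Fin n → ℤ)) (γ : Fin n → ℝ)
    (h1 : ∀ χ ∈ C, ∃ q : ℚ, ∑ i, (χ i : ℝ) * γ i = q)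
    (h2 : ∀ lam : Fin n → ℝ, (∀ χ ∈ C, ∑ i, (χ i : ℝ) * lam i = 0) → ∑ i, γ i * lam i = 0) :
    ∃ q : Fin n → ℚ, ∀ i, γ i = q i := by
  classical
  obtain ⟨p, hp⟩ : ∃ p : Module.Dual ℚ ℝ, p 1 = 1 := by
    have h3 : ¬ ∀ f : Module.Dual ℚ ℝ, f 1 = 0 := by
      rw [Module.forall_dual_apply_eq_zero_iff ℚ (1 : ℝ)]
      exact one_ne_zero
    push Not at h3
    obtain ⟨f, hf⟩ := h3
    refine ⟨(f 1)⁻¹ • f, ?_⟩
    rw [LinearMap.smul_apply, smul_eq_mul, inv_mul_cancel₀ hf]
  have hrat : ∀ (f : Module.Dual ℚ ℝ) (r : ℚ) (x : ℝ), f ((r : ℝ) * x) = r * f x := by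
    intro f r x
    have h3 : (r : ℝ) * x = r • x := by rw [Rat.smul_def]
    rw [h3, map_smul, smul_eq_mul]
  have hpr : ∀ r : ℚ, p (r : ℝ) = r := by
    intro r
    have h3 := hrat p r 1
    rw [mul_one, hp, mul_one] at h3
    exact h3
  obtain ⟨q, hq⟩ : ∃ q : Fin n → ℚ, q = fun i => p (γ i) := ⟨_, rfl⟩
  obtain ⟨y, hy⟩ : ∃ y : Fin n → ℝ, y = fun i => (q i : ℝ) - γ i := ⟨_, rfl⟩
  have hint : ∀ (f : Module.Dual ℚ ℝ) (χ : Fin n → ℤ) (x : Fin n → ℝ),
      f (∑ i, (χ i : ℝ) * x i) = ∑ i, (χ i : ℚ) * f (x i) := by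
    intro f χ x
    rw [map_sum]
    refine Finset.sum_congr rfl fun i _ => ?_
    have h3 := hrat f (χ i) (x i)
    rwa [Rat.cast_intCast] at h3
  have hy0 : ∀ χ ∈ C, ∑ i, (χ i : ℝ) * y i = 0 := by
    intro χ hχ
    obtain ⟨r, hr⟩ := h1 χ hχ
    have h3 := hint p χ γ
    rw [hr, hpr] at h3
    have h4 : (r : ℝ) = ∑ i, (χ i : ℝ) * (q i : ℝ) := by
      rw [h3, hq]
      push_cast
      rfl
    have h5 : ∑ i, (χ i : ℝ) * y i = ∑ i, (χ i : ℝ) * (q i : ℝ) - ∑ i, (χ i : ℝ) * γ i := by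
      rw [← Finset.sum_sub_distrib]
      refine Finset.sum_congr rfl fun i _ => ?_
      rw [hy]
      ring
    rw [h5, ← h4, hr, sub_self]
  have hgy : ∑ i, γ i * y i = 0 := h2 y hy0
  have hqy : ∑ i, (q i : ℝ) * y i = 0 := by
    rw [← Module.forall_dual_apply_eq_zero_iff ℚ]
    intro f
    have h3 : ∑ i, γ i * (f (y i) : ℝ) = 0 := by
      refine h2 _ fun χ hχ => ?_
      have h4 := hint f χ y
      rw [hy0 χ hχ, map_zero] at h4
      have h5 : ((∑ i, (χ i : ℚ) * f (y i) : ℚ) : ℝ) = 0 := by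
        rw [← h4]
        simp
      push_cast at h5
      exact h5
    have h4 := congrArg p h3
    rw [map_sum, map_zero] at h4
    have h5 : ∀ i, p (γ i * (f (y i) : ℝ)) = f (y i) * q i := by
      intro i
      rw [mul_comm, hrat, hq]
    simp only [h5] at h4
    rw [map_sum]
    rw [← h4]
    refine Finset.sum_congr rfl fun i _ => ?_
    rw [hrat]
    ring
  have hyy : ∑ i, y i ^ 2 = 0 := by
    have h3 : ∑ i, y i ^ 2 = ∑ i, (q i : ℝ) * y i - ∑ i, γ i * y i := by
      rw [← Finset.sum_sub_distrib]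
      refine Finset.sum_congr rfl fun i _ => ?_
      rw [hy]
      ring
    rw [h3, hqy, hgy, sub_zero]
  refine ⟨q, fun i => ?_⟩
  have h3 := (Finset.sum_eq_zero_iff_of_nonneg (fun i _ => sq_nonneg (y i))).1 hyy i
    (Finset.mem_univ i)
  have h4 : y i = 0 := by
    have := pow_eq_zero_iff (two_ne_zero) |>.1 h3
    exact this
  rw [hy] at h4
  have h5 : (q i : ℝ) - γ i = 0 := h4
  linarith

section

variable {K V : Type} [Field K] [AddCommGroup V] [Module K V] {m n : ℕ}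

/-- the first order condition for the optimal one-parameter subgroup -/
theorem first_order {t : MultilinearMap K (fun _ : Fin m => V) K} {μ : ℝ} (hμ : 0 < μ)
    (hopt : ∀ (f' : Fin n → V) (w' : Fin n → ℝ) (μ' : ℝ),
      WtBasis (ι := Unit) (m := fun _ => m) (fun _ => t) f' w' μ' → μ' ≤ μ)
    {h : Fin n → V} (hli : LinearIndependent K h) {w : Fin n → ℝ} (hw : ∑ i, w i = 0)
    (hw2 : ∑ i, w i ^ 2 = 1)
    (hwt : ∀ J : Fin m → Fin n, ∑ s, w (J s) < μ → t (fun s => h (J s)) = 0)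
    {lam : Fin n → ℝ} (hlam : ∑ i, lam i = 0) {c : ℝ}
    (hc : ∀ J : Fin m → Fin n, ∑ s, w (J s) = μ → ∑ s, lam (J s) < c →
      t (fun s => h (J s)) = 0) : c ≤ μ * ∑ i, w i * lam i := by
  classical
  by_contra hcon
  push Not at hcon
  obtain ⟨A, hA⟩ : ∃ A, A = ∑ i, w i * lam i := ⟨_, rfl⟩
  obtain ⟨B, hB⟩ : ∃ B, B = ∑ i, lam i ^ 2 := ⟨_, rfl⟩
  have hB0 : 0 ≤ B := by
    rw [hB]
    exact Finset.sum_nonneg fun i _ => sq_nonneg _
  rw [← hA] at hcon
  have e1 : ∀ᶠ ε in nhdsWithin (0 : ℝ) (Set.Ioi 0), ∀ J : Fin m → Fin n,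
      μ < ∑ s, w (J s) → μ + ε * c < ∑ s, (w (J s) + ε * lam (J s)) := by
    rw [Filter.eventually_all]
    intro J
    by_cases hJ : μ < ∑ s, w (J s)
    · have h1 : Filter.Tendsto (fun ε : ℝ => ∑ s, (w (J s) + ε * lam (J s)) - (μ + ε * c))
          (nhdsWithin (0 : ℝ) (Set.Ioi 0))
          (nhds (∑ s, (w (J s) + 0 * lam (J s)) - (μ + 0 * c))) := by
        apply tendsto_nhdsWithin_of_tendsto_nhds
        apply Continuous.tendsto
        fun_prop
      have h2 : (0 : ℝ) < ∑ s, (w (J s) + 0 * lam (J s)) - (μ + 0 * c) := by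
        simp only [zero_mul, add_zero]
        linarith
      filter_upwards [h1.eventually (lt_mem_nhds h2)] with ε hε _
      linarith
    · exact Filter.Eventually.of_forall fun ε h => absurd h hJ
  have e2 : ∀ᶠ ε in nhdsWithin (0 : ℝ) (Set.Ioi 0), 0 < 1 + 2 * ε * A + ε ^ 2 * B := by
    have h1 : Filter.Tendsto (fun ε : ℝ => 1 + 2 * ε * A + ε ^ 2 * B)
        (nhdsWithin (0 : ℝ) (Set.Ioi 0)) (nhds (1 + 2 * 0 * A + 0 ^ 2 * B)) := by
      apply tendsto_nhdsWithin_of_tendsto_nhds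
      apply Continuous.tendsto
      fun_prop
    have h2 : (0 : ℝ) < 1 + 2 * 0 * A + 0 ^ 2 * B := by norm_num
    exact h1.eventually (lt_mem_nhds h2)
  have e3 : ∀ᶠ ε in nhdsWithin (0 : ℝ) (Set.Ioi 0), μ * (ε * B) < c - μ * A := by
    have h1 : Filter.Tendsto (fun ε : ℝ => μ * (ε * B))
        (nhdsWithin (0 : ℝ) (Set.Ioi 0)) (nhds (μ * (0 * B))) := by
      apply tendsto_nhdsWithin_of_tendsto_nhds
      apply Continuous.tendsto
      fun_prop
    have h2 : μ * (0 * B) < c - μ * A := by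
      rw [zero_mul, mul_zero]
      linarith
    exact h1.eventually (gt_mem_nhds h2)
  have e4 : ∀ᶠ ε in nhdsWithin (0 : ℝ) (Set.Ioi 0), (0 : ℝ) < ε := self_mem_nhdsWithin
  obtain ⟨ε, h1, h2, h3, h4⟩ := (e1.and (e2.and (e3.and e4))).exists
  obtain ⟨N, hN⟩ : ∃ N, N = Real.sqrt (1 + 2 * ε * A + ε ^ 2 * B) := ⟨_, rfl⟩
  have hN0 : 0 < N := by
    rw [hN]
    exact Real.sqrt_pos.2 h2
  have hNN : N ^ 2 = 1 + 2 * ε * A + ε ^ 2 * B := by
    rw [hN]
    exact Real.sq_sqrt h2.le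
  have hwb : WtBasis (ι := Unit) (m := fun _ => m) (fun _ => t) h
      (fun i => (w i + ε * lam i) / N) ((μ + ε * c) / N) := by
    refine ⟨hli, ?_, ?_, fun _ J hJ => ?_⟩
    · rw [← Finset.sum_div, Finset.sum_add_distrib, ← Finset.mul_sum, hw, hlam]
      simp
    · have h5 : ∀ i, ((w i + ε * lam i) / N) ^ 2 =
          (w i ^ 2 + 2 * ε * (w i * lam i) + ε ^ 2 * lam i ^ 2) / N ^ 2 := by
        intro i
        rw [div_pow]
        congr 1
        ring
      simp only [h5]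
      rw [← Finset.sum_div, Finset.sum_add_distrib, Finset.sum_add_distrib, ← Finset.mul_sum,
        ← Finset.mul_sum, hw2, ← hA, ← hB, hNN]
      exact div_self h2.ne'
    · rw [← Finset.sum_div, div_lt_div_iff_of_pos_right hN0] at hJ
      rcases lt_trichotomy (∑ s, w (J s)) μ with h5 | h5 | h5
      · exact hwt J h5
      · refine hc J h5 ?_
        rw [Finset.sum_add_distrib, ← Finset.mul_sum, h5] at hJ
        have h6 : ε * ∑ s, lam (J s) < ε * c := by linarith
        exact lt_of_mul_lt_mul_left h6 h4.le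
      · exact absurd hJ (not_lt.2 (h1 J h5).le)
  have h5 := hopt _ _ _ hwb
  rw [div_le_iff₀ hN0] at h5
  -- the square root
  have h6 : N ≤ 1 + ε * A + ε ^ 2 * B / 2 := by
    by_contra hlt
    push Not at hlt
    nlinarith [sq_nonneg (N - 1)]
  have h7 : μ * N ≤ μ * (1 + ε * A + ε ^ 2 * B / 2) := mul_le_mul_of_nonneg_left h6 hμ.le
  have h8 : ε * c ≤ ε * (μ * A + μ * (ε * B) / 2) := by nlinarith
  have h9 : c ≤ μ * A + μ * (ε * B) / 2 := le_of_mul_le_mul_left h8 h4
  have h10 : 0 ≤ μ * (ε * B) := mul_nonneg hμ.le (mul_nonneg h4.le hB0)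
  linarith

theorem sum_cnt_mul {R : Type} [CommRing R] (J : Fin m → Fin n) (x : Fin n → R) :
    ∑ i, ((∑ s, if J s = i then (1 : ℤ) else 0 : ℤ) : R) * x i = ∑ s, x (J s) := by
  classical
  simp only [Int.cast_sum, Finset.sum_mul]
  rw [Finset.sum_comm]
  refine Finset.sum_congr rfl fun s _ => ?_
  rw [Finset.sum_eq_single (J s)]
  · simp
  · intro i _ hi
    rw [if_neg (Ne.symm hi)]
    simp
  · intro h
    exact absurd (Finset.mem_univ _) h

/-- a multilinear form at vectors which are given in coordinates -/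
theorem mul_expand (t : MultilinearMap K (fun _ : Fin m => V) K) (b : Module.Basis (Fin n) K V)
    (x : Fin m → V) :
    t x = ∑ I : Fin m → Fin n, (∏ s, b.coord (I s) (x s)) * t (fun s => b (I s)) := by
  classical
  have h1 : x = fun s => ∑ l, b.coord l (x s) • b l := by
    funext s
    exact (b.sum_repr (x s)).symm
  conv_lhs => rw [h1]
  rw [MultilinearMap.map_sum]
  refine Finset.sum_congr rfl fun I _ => ?_
  rw [MultilinearMap.map_smul_univ, smul_eq_mul]

/-- **The optimal weights of an unstable multilinear form.** -/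
theorem opt_exists [CharZero K] {E : Fin n → V} (hE : LinearIndependent K E)
    (hs : Submodule.span K (Set.range E) = ⊤) (t : MultilinearMap K (fun _ : Fin m => V) K)
    (ht : t ≠ 0)
    (hnull : ∃ (A : Matrix (Fin n) (Fin n) (AlgebraicClosure K)) (w : Fin n → ℤ), A.det ≠ 0 ∧
      ∑ i, w i = 0 ∧ ∀ (i : Unit) (J : Fin m → Fin n), ∑ s, w (J s) ≤ 0 →
        act (m := fun _ : Unit => m) A
          (mapF (co (m := fun _ : Unit => m) (fun _ : Unit => t) E)) i J = 0) :
    ∃ (b : Module.Basis (Fin n) K V) (γ : Fin n → ℚ), Monotone γ ∧ ∑ i, γ i = 0 ∧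
      0 < ∑ i, γ i ^ 2 ∧
      (∀ J : Fin m → Fin n, ∑ s, γ (J s) < 1 → t (fun s => b (J s)) = 0) ∧
      ∀ (h : Fin n → V) (σ : Equiv.Perm (Fin n)), LinearIndependent K h →
        (∀ i l, b.coord l (h i) ≠ 0 → γ l = γ (σ i)) → ∀ (lam : Fin n → ℝ) (c : ℝ),
          ∑ i, lam i = 0 → (∀ J : Fin m → Fin n, ∑ s, γ (σ (J s)) = 1 → ∑ s, lam (J s) < c →
            t (fun s => h (J s)) = 0) →
          c ≤ (∑ i, (γ i : ℝ) ^ 2)⁻¹ * ∑ i, (γ (σ i) : ℝ) * lam i := by
  classical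
  obtain ⟨f, w0, μ, hμ, ⟨hli0, hw0, hw02, hvan0⟩, hopt0⟩ :=
    canon (m := fun _ : Unit => m) hE hs (fun _ : Unit => t) ⟨(), ht⟩ hnull
  have hopt : ∀ (f' : Fin n → V) (w' : Fin n → ℝ) (μ' : ℝ),
      WtBasis (ι := Unit) (m := fun _ => m) (fun _ => t) f' w' μ' → μ' ≤ μ :=
    fun f' w' μ' h => (hopt0 f' w' μ' h).1
  obtain ⟨τ, hτ⟩ : ∃ τ : Equiv.Perm (Fin n), τ = Tuple.sort w0 := ⟨_, rfl⟩
  obtain ⟨w, hwd⟩ : ∃ w : Fin n → ℝ, w = w0 ∘ τ := ⟨_, rfl⟩
  have hmono : Monotone w := by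
    rw [hwd, hτ]
    exact Tuple.monotone_sort w0
  have hw : ∑ i, w i = 0 := by
    rw [hwd]
    exact (Equiv.sum_comp τ w0).trans hw0
  have hw2 : ∑ i, w i ^ 2 = 1 := by
    rw [hwd]
    exact (Equiv.sum_comp τ fun i => w0 i ^ 2).trans hw02
  have hli : LinearIndependent K (f ∘ τ) := hli0.comp _ τ.injective
  have hvan : ∀ J : Fin m → Fin n, ∑ s, w (J s) < μ → t (fun s => (f ∘ τ) (J s)) = 0 := by
    intro J hJ
    rw [hwd] at hJ
    exact hvan0 () (fun s => τ (J s)) hJ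
  -- rationality
  obtain ⟨q, hq⟩ := rat_of ({fun _ => 1} ∪ {χ | ∃ J : Fin m → Fin n, ∑ s, w (J s) = μ ∧
      χ = fun i => ∑ s, if J s = i then (1 : ℤ) else 0}) (fun i => w i / μ) (by
    rintro χ (hχ | ⟨J, hJ, hχ⟩)
    · refine ⟨0, ?_⟩
      rw [Set.mem_singleton_iff] at hχ
      rw [hχ]
      simp only [Int.cast_one, one_mul]
      rw [← Finset.sum_div, hw]
      simp
    · refine ⟨1, ?_⟩
      rw [hχ, sum_cnt_mul J fun i => w i / μ, ← Finset.sum_div, hJ, div_self hμ.ne']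
      simp) (by
    intro lam hlam
    have h0 : ∑ i, lam i = 0 := by
      have h1 := hlam (fun _ => 1) (Or.inl rfl)
      simpa using h1
    have h1 : ∀ J : Fin m → Fin n, ∑ s, w (J s) = μ → ∑ s, lam (J s) = 0 := by
      intro J hJ
      have h2 := hlam _ (Or.inr ⟨J, hJ, rfl⟩)
      rwa [sum_cnt_mul] at h2
    have h2 := first_order hμ hopt hli hw hw2 hvan h0 (c := 0)
      (fun J hJ hc => absurd (h1 J hJ) (ne_of_lt hc))
    have h3 := first_order hμ hopt hli hw hw2 hvan (lam := fun i => -lam i)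
      (by rw [Finset.sum_neg_distrib, h0, neg_zero]) (c := 0)
      (fun J hJ hc => by
        rw [Finset.sum_neg_distrib, h1 J hJ, neg_zero] at hc
        exact absurd hc (lt_irrefl _))
    have h4 : ∑ i, w i * -lam i = -∑ i, w i * lam i := by
      rw [← Finset.sum_neg_distrib]
      exact Finset.sum_congr rfl fun i _ => by ring
    rw [h4] at h3
    have h5 : 0 ≤ ∑ i, w i * lam i := by
      by_contra hcon
      push Not at hcon
      have := mul_neg_of_pos_of_neg hμ hcon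
      linarith
    have h6 : 0 ≤ -∑ i, w i * lam i := by
      by_contra hcon
      push Not at hcon
      have := mul_neg_of_pos_of_neg hμ hcon
      linarith
    have h7 : ∑ i, w i / μ * lam i = (∑ i, w i * lam i) / μ := by
      rw [Finset.sum_div]
      exact Finset.sum_congr rfl fun i _ => by ring
    rw [h7, le_antisymm (by linarith) h5, zero_div])
  have hwq : ∀ i, w i = μ * q i := by
    intro i
    have h1 : w i / μ = q i := hq i
    rw [← h1]
    field_simp
  have hqsum : ∑ i, q i = 0 := by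
    have h1 : μ * ∑ i, (q i : ℝ) = 0 := by
      rw [Finset.mul_sum, ← hw]
      exact Finset.sum_congr rfl fun i _ => (hwq i).symm
    have h2 := (mul_eq_zero.1 h1).resolve_left hμ.ne'
    exact_mod_cast h2
  have hq2 : ∑ i, (q i : ℝ) ^ 2 = (μ ^ 2)⁻¹ := by
    have h1 : μ ^ 2 * ∑ i, (q i : ℝ) ^ 2 = 1 := by
      rw [Finset.mul_sum, ← hw2]
      exact Finset.sum_congr rfl fun i _ => by rw [hwq]; ring
    exact eq_inv_of_mul_eq_one_right h1
  have hfin : Module.finrank K V = n := by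
    rw [Module.finrank_eq_card_basis (crd hE hs), Fintype.card_fin]
  have hn0 : n ≠ 0 := by
    rintro rfl
    simp at hw2
  have : Nonempty (Fin n) := ⟨⟨0, Nat.pos_of_ne_zero hn0⟩⟩
  obtain ⟨b, hb⟩ : ∃ b : Module.Basis (Fin n) K V, ∀ i, b i = (f ∘ τ) i :=
    ⟨basisOfLinearIndependentOfCardEqFinrank hli (by rw [hfin, Fintype.card_fin]), fun i => by
      rw [coe_basisOfLinearIndependentOfCardEqFinrank]⟩
  have hmu : ∀ J : Fin m → Fin n, ∑ s, w (J s) = μ * ((∑ s, q (J s) : ℚ) : ℝ) := by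
    intro J
    push_cast
    rw [Finset.mul_sum]
    exact Finset.sum_congr rfl fun s _ => hwq _
  have hvan' : ∀ J : Fin m → Fin n, ∑ s, q (J s) < 1 → t (fun s => b (J s)) = 0 := by
    intro J hJ
    have h1 := hvan J (by
      rw [hmu J]
      have h2 : ((∑ s, q (J s) : ℚ) : ℝ) < 1 := by exact_mod_cast hJ
      nlinarith)
    have h2 : (fun s => b (J s)) = fun s => (f ∘ τ) (J s) := funext fun s => hb _
    rw [h2]
    exact h1
  refine ⟨b, q, fun i j hij => ?_, hqsum, ?_, hvan', ?_⟩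
  · have h1 := hmono hij
    rw [hwq, hwq] at h1
    have h2 := le_of_mul_le_mul_left h1 hμ
    exact_mod_cast h2
  · have h1 : (0 : ℝ) < ∑ i, (q i : ℝ) ^ 2 := by
      rw [hq2]
      positivity
    exact_mod_cast h1
  · intro h σ hhli hcoord lam c hlam hc
    have h1 := first_order hμ hopt hhli (w := w ∘ σ) ((Equiv.sum_comp σ w).trans hw)
      ((Equiv.sum_comp σ fun i => w i ^ 2).trans hw2) (fun J hJ => by
        rw [mul_expand t b]
        refine Finset.sum_eq_zero fun I _ => ?_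
        by_cases h0 : ∃ s, b.coord (I s) (h (J s)) = 0
        · obtain ⟨s, hs⟩ := h0
          rw [Finset.prod_eq_zero (Finset.mem_univ s) hs, zero_mul]
        · push Not at h0
          rw [hvan' I ?_, mul_zero]
          have h2 : ∑ s, q (I s) = ∑ s, q (σ (J s)) :=
            Finset.sum_congr rfl fun s _ => hcoord _ _ (h0 s)
          rw [h2]
          have h3 : ∑ s, (w ∘ σ) (J s) = μ * ((∑ s, q (σ (J s)) : ℚ) : ℝ) := hmu fun s => σ (J s)
          rw [h3] at hJ
          have h4 : ((∑ s, q (σ (J s)) : ℚ) : ℝ) < 1 := by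
            by_contra hcon
            push Not at hcon
            nlinarith
          exact_mod_cast h4) hlam (c := c) (fun J hJ hJc => by
        refine hc J ?_ hJc
        have h3 : ∑ s, (w ∘ σ) (J s) = μ * ((∑ s, q (σ (J s)) : ℚ) : ℝ) := hmu fun s => σ (J s)
        rw [h3] at hJ
        have h4 : ((∑ s, q (σ (J s)) : ℚ) : ℝ) = 1 := by
          have h5 : μ * ((∑ s, q (σ (J s)) : ℚ) : ℝ) = μ * 1 := by rw [hJ, mul_one]
          exact mul_left_cancel₀ hμ.ne' h5
        exact_mod_cast h4)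
    refine h1.trans (le_of_eq ?_)
    rw [hq2, inv_inv]
    have h2 : ∑ i, (w ∘ σ) i * lam i = μ * ∑ i, (q (σ i) : ℝ) * lam i := by
      rw [Finset.mul_sum]
      refine Finset.sum_congr rfl fun i _ => ?_
      change w (σ i) * lam i = _
      rw [hwq]
      ring
    rw [h2]
    ring

end

end Pool.Agent.H897
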