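import Pool.Agent.H897.RA

/-!
The part of optimal weight of an unstable multilinear form, multiplied with powers of the volume
forms of the graded pieces of the optimal filtration, is semistable.
-/

set_option autoImplicit false
set_option linter.overlappingInstances false
set_option linter.unusedSectionVars false

open MvPolynomial Pool.Agent.N133.TB

namespace Pool.Agent.H897

section

variable {K V : Type} [Field K] [AddCommGroup V] [Module K V] {n m : ℕ}

open Classical in
/-- the product of multilinear forms in different variables -/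
noncomputable def prodML {B : Type} [Fintype B] {deg : B → ℕ}
    (g : (β : B) → MultilinearMap K (fun _ : Fin (deg β) => V) K) :
    MultilinearMap K (fun _ : (β : B) × Fin (deg β) => V) K :=
  let key : ∀ [DecidableEq ((β : B) × Fin (deg β))] (x : ((β : B) × Fin (deg β)) → V) (β0 : B)
      (s0 : Fin (deg β0)) (w : V),
      ∏ β, g β (fun s => Function.update x ⟨β0, s0⟩ w ⟨β, s⟩) =
        g β0 (Function.update (fun s => x ⟨β0, s⟩) s0 w) *
          ∏ β ∈ Finset.univ.erase β0, g β fun s => x ⟨β, s⟩ := by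
    intro _ x β0 s0 w
    rw [← Finset.mul_prod_erase Finset.univ _ (Finset.mem_univ β0)]
    congr 1
    · congr 1
      funext s
      by_cases hs : s = s0
      · subst hs
        simp
      · rw [Function.update_of_ne hs, Function.update_of_ne]
        intro h
        exact hs (eq_of_heq (Sigma.mk.inj h).2)
    · refine Finset.prod_congr rfl fun β hβ => ?_
      congr 1
      funext s
      rw [Function.update_of_ne]
      intro h
      exact (Finset.ne_of_mem_erase hβ) (congrArg Sigma.fst h)
  { toFun := fun x => ∏ β, g β fun s => x ⟨β, s⟩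
    map_update_add' := by
      intro _ x i u v
      obtain ⟨β0, s0⟩ := i
      rw [key, key, key, (g β0).map_update_add, add_mul]
    map_update_smul' := by
      intro _ x i c u
      obtain ⟨β0, s0⟩ := i
      rw [key, key, (g β0).map_update_smul, smul_eq_mul, smul_eq_mul, mul_assoc] }

theorem prodML_apply {B : Type} [Fintype B] {deg : B → ℕ}
    (g : (β : B) → MultilinearMap K (fun _ : Fin (deg β) => V) K)
    (x : ((β : B) × Fin (deg β)) → V) : prodML g x = ∏ β, g β fun s => x ⟨β, s⟩ := rfl

/-- the weights of the factors of a product -/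
theorem prod_weights {B : Type} [Fintype B] {deg : B → ℕ}
    (g : (β : B) → MultilinearMap K (fun _ : Fin (deg β) => V) K) {h : Fin n → V}
    (hne : ∀ β, ∃ J : Fin (deg β) → Fin n, g β (fun s => h (J s)) ≠ 0) {lam : Fin n → ℝ} {ν : ℝ}
    (hν : ∀ J : ((β : B) × Fin (deg β)) → Fin n, ∑ z, lam (J z) < ν →
      prodML g (fun z => h (J z)) = 0) :
    ∃ c : B → ℝ, (∀ β (J : Fin (deg β) → Fin n), ∑ s, lam (J s) < c β →
      g β (fun s => h (J s)) = 0) ∧ ν ≤ ∑ β, c β := by
  classical
  have h1 : ∀ β, ∃ J : Fin (deg β) → Fin n, g β (fun s => h (J s)) ≠ 0 ∧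
      ∀ J' : Fin (deg β) → Fin n, g β (fun s => h (J' s)) ≠ 0 →
        ∑ s, lam (J s) ≤ ∑ s, lam (J' s) := by
    intro β
    obtain ⟨J, hJ, hmin⟩ := Finset.exists_min_image
      (Finset.univ.filter fun J : Fin (deg β) → Fin n => g β (fun s => h (J s)) ≠ 0)
      (fun J => ∑ s, lam (J s)) (by
        obtain ⟨J, hJ⟩ := hne β
        exact ⟨J, by simp [hJ]⟩)
    exact ⟨J, (Finset.mem_filter.1 hJ).2, fun J' hJ' => hmin J' (by simp [hJ'])⟩
  choose J hJ hmin using h1
  refine ⟨fun β => ∑ s, lam (J β s), fun β J' hJ' => ?_, ?_⟩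
  · by_contra hcon
    exact absurd (hmin β J' hcon) (not_le.2 hJ')
  · by_contra hcon
    push Not at hcon
    have h2 := hν (fun z => J z.1 z.2) (by rw [Fintype.sum_sigma]; exact hcon)
    exact Finset.prod_ne_zero_iff.2 (fun β _ => hJ β) h2

/-- the part of weight `1` -/
noncomputable def tbar (b : Module.Basis (Fin n) K V) (γ : Fin n → ℚ)
    (t : MultilinearMap K (fun _ : Fin m => V) K) : MultilinearMap K (fun _ : Fin m => V) K :=
  ∑ I : Fin m → Fin n, (if ∑ s, γ (I s) = 1 then t (fun s => b (I s)) else 0) •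
    (MultilinearMap.mkPiAlgebra K (Fin m) K).compLinearMap (fun s => b.coord (I s))

theorem tbar_apply (b : Module.Basis (Fin n) K V) (γ : Fin n → ℚ)
    (t : MultilinearMap K (fun _ : Fin m => V) K) (x : Fin m → V) :
    tbar b γ t x = ∑ I : Fin m → Fin n, (∏ s, b.coord (I s) (x s)) *
      (if ∑ s, γ (I s) = 1 then t (fun s => b (I s)) else 0) := by
  unfold tbar
  rw [sum_apply]
  refine Finset.sum_congr rfl fun I _ => ?_
  rw [smul_apply, MultilinearMap.compLinearMap_apply,
    MultilinearMap.mkPiAlgebra_apply, smul_eq_mul, mul_comm]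

/-- the indices of the graded piece of `i` -/
noncomputable def en (γ : Fin n → ℚ) (i : Fin n) :
    Fin (Fintype.card {l // γ l = γ i}) ≃ {l // γ l = γ i} := (Fintype.equivFin _).symm

/-- the volume form of the graded piece of `i` -/
noncomputable def omg (b : Module.Basis (Fin n) K V) (γ : Fin n → ℚ) (i : Fin n) :
    MultilinearMap K (fun _ : Fin (Fintype.card {l // γ l = γ i}) => V) K :=
  (Matrix.detRowAlternating (n := Fin (Fintype.card {l // γ l = γ i}))
    (R := K)).toMultilinearMap.compLinearMap (fun _ => LinearMap.pi fun s' =>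
      b.coord (en γ i s').1)

theorem omg_apply (b : Module.Basis (Fin n) K V) (γ : Fin n → ℚ) (i : Fin n)
    (x : Fin (Fintype.card {l // γ l = γ i}) → V) :
    omg b γ i x = (Matrix.of fun s s' => b.coord (en γ i s').1 (x s)).det := rfl

/-- the degrees of the factors -/
def degF (m d : ℕ) (γ : Fin n → ℚ) (e : Fin n → ℕ) : Fin d ⊕ ((i : Fin n) × Fin (e i)) → ℕ :=
  Sum.elim (fun _ => m) fun z => Fintype.card {l // γ l = γ z.1}

/-- the factors -/
noncomputable def gF (b : Module.Basis (Fin n) K V) (γ : Fin n → ℚ)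
    (t : MultilinearMap K (fun _ : Fin m => V) K) (d : ℕ) (e : Fin n → ℕ) :
    (β : Fin d ⊕ ((i : Fin n) × Fin (e i))) →
      MultilinearMap K (fun _ : Fin (degF m d γ e β) => V) K
  | .inl _ => tbar b γ t
  | .inr z => omg b γ z.1

end

section

variable {K V : Type} [Field K] [AddCommGroup V] [Module K V] {n m : ℕ}

/-- the vectors with the coordinates in the rows of `C` -/
noncomputable def vec (b : Module.Basis (Fin n) K V) (C : Matrix (Fin n) (Fin n) K)
    (j : Fin n) : V := ∑ l, C j l • b l

theorem coord_vec (b : Module.Basis (Fin n) K V) (C : Matrix (Fin n) (Fin n) K) (j l : Fin n) :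
    b.coord l (vec b C j) = C j l := by
  unfold vec
  rw [Module.Basis.coord_apply, b.repr_sum_self]

/-- the homogeneous part -/
def hom (γ : Fin n → ℚ) (σ : Equiv.Perm (Fin n)) (C : Matrix (Fin n) (Fin n) K) :
    Matrix (Fin n) (Fin n) K := Matrix.of fun j l => if γ l = γ (σ j) then C j l else 0

theorem sum_le_eq {α : Type} [Fintype α] {f g : α → ℚ} (h : ∀ i, f i ≤ g i)
    (hs : ∑ i, f i = ∑ i, g i) (i : α) : f i = g i :=
  (Finset.sum_eq_sum_iff_of_le fun i _ => h i).1 hs i (Finset.mem_univ i)

theorem det_hom {γ : Fin n → ℚ} {σ : Equiv.Perm (Fin n)} {C : Matrix (Fin n) (Fin n) K}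
    (hC : ∀ j l, C j l ≠ 0 → γ l ≤ γ (σ j)) : (hom γ σ C).det = C.det := by
  classical
  rw [Matrix.det_apply, Matrix.det_apply]
  refine Finset.sum_congr rfl fun p _ => ?_
  congr 1
  by_cases h0 : ∃ i, C (p i) i = 0
  · obtain ⟨i, hi⟩ := h0
    have e1 : ∏ i, hom γ σ C (p i) i = 0 :=
      Finset.prod_eq_zero (Finset.mem_univ i) (show hom γ σ C (p i) i = 0 by simp [hom, hi])
    have e2 : ∏ i, C (p i) i = 0 := Finset.prod_eq_zero (Finset.mem_univ i) hi
    rw [e1, e2]
  · push Not at h0
    have h1 : ∀ i, γ i = γ (σ (p i)) := by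
      refine sum_le_eq (fun i => hC _ _ (h0 i)) ?_
      exact (Equiv.sum_comp (p.trans σ) γ).symm
    refine Finset.prod_congr rfl fun i _ => ?_
    exact if_pos (h1 i)

theorem tbar_hom {γ : Fin n → ℚ} {σ : Equiv.Perm (Fin n)} {C : Matrix (Fin n) (Fin n) K}
    (hC : ∀ j l, C j l ≠ 0 → γ l ≤ γ (σ j)) (b : Module.Basis (Fin n) K V)
    (t : MultilinearMap K (fun _ : Fin m => V) K) (J : Fin m → Fin n) :
    (∑ s, γ (σ (J s)) = 1 → tbar b γ t (fun s => vec b (hom γ σ C) (J s)) =
        tbar b γ t (fun s => vec b C (J s)) ∧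
      t (fun s => vec b (hom γ σ C) (J s)) = tbar b γ t (fun s => vec b (hom γ σ C) (J s))) ∧
    (∑ s, γ (σ (J s)) ≠ 1 → tbar b γ t (fun s => vec b (hom γ σ C) (J s)) = 0) := by
  classical
  refine ⟨fun hJ => ⟨?_, ?_⟩, fun hJ => ?_⟩
  · rw [tbar_apply, tbar_apply]
    refine Finset.sum_congr rfl fun I _ => ?_
    simp only [coord_vec]
    by_cases hI : ∑ s, γ (I s) = 1
    · congr 1
      by_cases h0 : ∃ s, C (J s) (I s) = 0
      · obtain ⟨s, hs⟩ := h0
        rw [Finset.prod_eq_zero (Finset.mem_univ s)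
          (show hom γ σ C (J s) (I s) = 0 by simp [hom, hs]),
          Finset.prod_eq_zero (Finset.mem_univ s) hs]
      · push Not at h0
        have h1 : ∀ s, γ (I s) = γ (σ (J s)) :=
          sum_le_eq (fun s => hC _ _ (h0 s)) (hI.trans hJ.symm)
        refine Finset.prod_congr rfl fun s _ => ?_
        exact if_pos (h1 s)
    · rw [if_neg hI, mul_zero, mul_zero]
  · rw [tbar_apply, mul_expand t b]
    refine Finset.sum_congr rfl fun I _ => ?_
    simp only [coord_vec]
    by_cases hI : ∑ s, γ (I s) = 1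
    · rw [if_pos hI]
    · have h0 : ∃ s, γ (I s) ≠ γ (σ (J s)) := by
        by_contra hcon
        push Not at hcon
        exact hI ((Finset.sum_congr rfl fun s _ => hcon s).trans hJ)
      obtain ⟨s, hs⟩ := h0
      rw [Finset.prod_eq_zero (Finset.mem_univ s) (show hom γ σ C (J s) (I s) = 0 from if_neg hs),
        zero_mul, zero_mul]
  · rw [tbar_apply]
    refine Finset.sum_eq_zero fun I _ => ?_
    simp only [coord_vec]
    by_cases hI : ∑ s, γ (I s) = 1
    · have h0 : ∃ s, γ (I s) ≠ γ (σ (J s)) := by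
        by_contra hcon
        push Not at hcon
        exact hJ ((Finset.sum_congr rfl fun s _ => (hcon s).symm).trans hI)
      obtain ⟨s, hs⟩ := h0
      rw [Finset.prod_eq_zero (Finset.mem_univ s) (show hom γ σ C (J s) (I s) = 0 from if_neg hs),
        zero_mul]
    · rw [if_neg hI, mul_zero]

theorem omg_hom {γ : Fin n → ℚ} {σ : Equiv.Perm (Fin n)} {C : Matrix (Fin n) (Fin n) K}
    (b : Module.Basis (Fin n) K V) (i : Fin n) (J : Fin (Fintype.card {l // γ l = γ i}) → Fin n) :
    omg b γ i (fun s => vec b (hom γ σ C) (J s)) = omg b γ i (fun s => vec b C (J s)) ∨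
      omg b γ i (fun s => vec b (hom γ σ C) (J s)) = 0 := by
  classical
  rw [omg_apply, omg_apply]
  simp only [coord_vec]
  by_cases h : ∃ s, γ (σ (J s)) ≠ γ i
  · obtain ⟨s, hs⟩ := h
    right
    refine Matrix.det_eq_zero_of_row_eq_zero s fun s' => ?_
    exact if_neg fun h1 => hs (h1.symm.trans (en γ i s').2)
  · push Not at h
    left
    congr 1
    ext s s'
    exact if_pos ((en γ i s').2.trans (h s).symm)

/-- the volume form of a graded piece does not vanish at a homogeneous basis -/
theorem omg_ne {γ : Fin n → ℚ} {σ : Equiv.Perm (Fin n)} {C : Matrix (Fin n) (Fin n) K}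
    (hC : (hom γ σ C).det ≠ 0) (b : Module.Basis (Fin n) K V) (i : Fin n) :
    omg b γ i (fun s => vec b (hom γ σ C) (σ.symm (en γ i s).1)) ≠ 0 := by
  classical
  rw [omg_apply]
  simp only [coord_vec]
  intro h0
  obtain ⟨v, hv0, hv⟩ := Matrix.exists_vecMul_eq_zero_iff.2 h0
  have hli := Matrix.linearIndependent_rows_of_det_ne_zero hC
  have hinj : Function.Injective fun s => σ.symm (en γ i s).1 := by
    intro s s' h
    have h1 : (en γ i s).1 = (en γ i s').1 := σ.symm.injective h
    exact (en γ i).injective (Subtype.ext h1)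
  have hli2 := hli.comp _ hinj
  rw [Fintype.linearIndependent_iff] at hli2
  apply hv0
  funext s
  refine hli2 v ?_ s
  funext l
  rw [Finset.sum_apply]
  simp only [Pi.smul_apply, smul_eq_mul]
  by_cases hl : γ l = γ i
  · have h1 := congrFun hv ((en γ i).symm ⟨l, hl⟩)
    rw [Matrix.vecMul, dotProduct] at h1
    rw [Pi.zero_apply] at h1 ⊢
    rw [← h1]
    refine Finset.sum_congr rfl fun s _ => ?_
    simp
  · rw [Pi.zero_apply]
    refine Finset.sum_eq_zero fun s _ => ?_
    have h2 : hom γ σ C (σ.symm (en γ i s).1) l = 0 := by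
      refine if_neg fun h => hl ?_
      rw [Equiv.apply_symm_apply] at h
      exact h.trans (en γ i s).2
    change v s * hom γ σ C (σ.symm (en γ i s).1) l = 0
    rw [h2, mul_zero]

end

end Pool.Agent.H897
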