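import Pool.Agent.H897.RC
import Pool.Agent.H897.OG

/-!
Orthogonal bases at a place, and the order of invariants of multilinear forms.
-/

set_option autoImplicit false
set_option linter.overlappingInstances false
set_option linter.unusedSectionVars false

open MvPolynomial FF Pool.Agent.N133.TB Pool.Agent.Y174 Pool.Agent.W603.LV

namespace Pool.Agent.H897

section

variable {K : Type} [Field K] [Algebra ℂ K]

theorem geR_prod' {P : Place ℂ K} {α : Type} [Fintype α] (c : α → ℝ) (f : α → K)
    (h : ∀ i, GeR P (c i) (f i)) : GeR P (∑ i, c i) (∏ i, f i) :=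
  Pool.Agent.Y174.OB.geR_prod _ _ _ fun i _ => h i

theorem ord_sign_mul (P : Place ℂ K) (k : ℕ) {x : K} : P.ord ((-1) ^ k * x) = P.ord x := by
  rcases neg_one_pow_eq_or K k with h | h
  · rw [h, one_mul]
  · rw [h, neg_one_mul, P.ord_neg]

/-- **Orthogonalisation** of a basis with respect to a norm, by a unitriangular change. -/
theorem qr (P : Place ℂ K) : ∀ (n : ℕ) (nu : Fin n → ℝ) (C : Matrix (Fin n) (Fin n) K), C.det ≠ 0 →
    ∃ (U : Matrix (Fin n) (Fin n) K) (nk : Fin n → ℝ), (∀ i, U i i = 1) ∧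
      (∀ i j, i < j → U i j = 0) ∧ (∀ k j, GeR P (nk k - nu j) ((U * C) k j)) ∧
      ∑ k, nk k = P.ord C.det + ∑ j, nu j := by
  intro n
  induction n with
  | zero =>
    intro nu C hC
    refine ⟨1, fun _ => 0, fun i => i.elim0, fun i => i.elim0, fun i => i.elim0, ?_⟩
    simp [P.ord_one]
  | succ n ih =>
    intro nu C hC
    classical
    have hrow : ∃ j, C 0 j ≠ 0 := by
      by_contra hcon
      push Not at hcon
      exact hC (Matrix.det_eq_zero_of_row_eq_zero 0 hcon)
    obtain ⟨j0, hj0, hmin⟩ := Finset.exists_min_image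
      (Finset.univ.filter fun j => C 0 j ≠ 0) (fun j => (P.ord (C 0 j) : ℝ) + nu j) (by
        obtain ⟨j, hj⟩ := hrow
        exact ⟨j, by simp [hj]⟩)
    have hp : C 0 j0 ≠ 0 := (Finset.mem_filter.1 hj0).2
    obtain ⟨c, hc⟩ : ∃ c : Fin n → K, c = fun i => C i.succ j0 / C 0 j0 := ⟨_, rfl⟩
    obtain ⟨C', hC'⟩ : ∃ C' : Matrix (Fin n) (Fin n) K, C' = Matrix.of fun i j =>
      C i.succ (j0.succAbove j) - c i * C 0 (j0.succAbove j) := ⟨_, rfl⟩
    -- the determinant
    obtain ⟨D, hD⟩ : ∃ D : Matrix (Fin (n + 1)) (Fin (n + 1)) K, D = Matrix.of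
      (Fin.cons (C 0) fun i j => C i.succ j - c i * C 0 j) := ⟨_, rfl⟩
    have hDC : D.det = C.det := by
      refine Matrix.det_eq_of_forall_row_eq_smul_add_const (Fin.cons 0 fun i => -c i) 0 rfl ?_
      intro i j
      rw [hD]
      refine Fin.cases ?_ (fun i => ?_) i
      · simp
      · simp
        ring
    have hDs : D.submatrix (Fin.succAbove 0) j0.succAbove = C' := by
      ext i j
      rw [hD, hC', Matrix.submatrix_apply, Fin.succAbove_zero]
      simp
    have hdet : C.det = (-1) ^ (j0 : ℕ) * (C 0 j0 * C'.det) := by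
      rw [← hDC, Matrix.det_succ_column D j0, Finset.sum_eq_single 0]
      · rw [hDs]
        have h1 : D 0 j0 = C 0 j0 := by rw [hD]; rfl
        rw [h1, Fin.val_zero, zero_add, mul_assoc]
      · intro i _ hi
        obtain ⟨i', rfl⟩ := Fin.exists_succ_eq.2 hi
        have h1 : D i'.succ j0 = 0 := by
          rw [hD]
          change C i'.succ j0 - c i' * C 0 j0 = 0
          rw [hc]
          change C i'.succ j0 - C i'.succ j0 / C 0 j0 * C 0 j0 = 0
          rw [div_mul_cancel₀ _ hp, sub_self]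
        rw [h1, mul_zero, zero_mul]
      · intro h
        exact absurd (Finset.mem_univ _) h
    have hC'0 : C'.det ≠ 0 := by
      intro h0
      exact hC (by rw [hdet, h0, mul_zero, mul_zero])
    obtain ⟨U', nk', h1, h2, h3, h4⟩ := ih (fun j => nu (j0.succAbove j)) C' hC'0
    obtain ⟨U, hU⟩ : ∃ U : Matrix (Fin (n + 1)) (Fin (n + 1)) K, U = Matrix.of
      (Fin.cons (Fin.cons 1 fun _ => 0) fun i => Fin.cons (-∑ l, U' i l * c l) (U' i)) :=
      ⟨_, rfl⟩
    have hU00 : U 0 0 = 1 := by rw [hU]; rfl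
    have hU0s : ∀ j : Fin n, U 0 j.succ = 0 := fun j => by rw [hU]; rfl
    have hUs0 : ∀ i : Fin n, U i.succ 0 = -∑ l, U' i l * c l := fun i => by rw [hU]; rfl
    have hUss : ∀ i j : Fin n, U i.succ j.succ = U' i j := fun i j => by rw [hU]; rfl
    have hUC0 : ∀ j, (U * C) 0 j = C 0 j := by
      intro j
      rw [Matrix.mul_apply, Fin.sum_univ_succ, hU00, one_mul]
      simp only [hU0s, zero_mul, Finset.sum_const_zero, add_zero]
    have hUCs : ∀ i j, (U * C) i.succ j = ∑ l, U' i l * (C l.succ j - c l * C 0 j) := by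
      intro i j
      rw [Matrix.mul_apply, Fin.sum_univ_succ, hUs0]
      simp only [hUss, mul_sub, Finset.sum_sub_distrib]
      rw [neg_mul, Finset.sum_mul]
      simp only [mul_assoc]
      ring
    refine ⟨U, Fin.cons ((P.ord (C 0 j0) : ℝ) + nu j0) nk', fun i => ?_, fun i j hij => ?_,
      fun k j => ?_, ?_⟩
    · refine Fin.cases hU00 (fun i => ?_) i
      rw [hUss, h1]
    · revert hij
      refine Fin.cases (fun hij => ?_) (fun i => ?_) i
      · obtain ⟨j', rfl⟩ := Fin.exists_succ_eq.2 (ne_of_gt hij)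
        exact hU0s j'
      · refine Fin.cases (fun hij => absurd hij (Fin.not_lt_zero _)) (fun j hij => ?_) j
        rw [hUss]
        exact h2 _ _ (Fin.succ_lt_succ_iff.1 hij)
    · refine Fin.cases ?_ (fun i => ?_) k
      · rw [hUC0, Fin.cons_zero]
        by_cases h0 : C 0 j = 0
        · exact Or.inl h0
        · right
          have := hmin j (by simp [h0])
          linarith
      · rw [Fin.cons_succ, hUCs]
        by_cases hj : j = j0
        · left
          subst hj
          refine Finset.sum_eq_zero fun l _ => ?_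
          rw [hc]
          change U' i l * (C l.succ j - C l.succ j / C 0 j * C 0 j) = 0
          rw [div_mul_cancel₀ _ hp, sub_self, mul_zero]
        · obtain ⟨j', rfl⟩ := Fin.exists_succAbove_eq hj
          have h5 := h3 i j'
          rw [Matrix.mul_apply] at h5
          have h6 : ∀ l, C' l j' = C l.succ (j0.succAbove j') - c l * C 0 (j0.succAbove j') :=
            fun l => by rw [hC']; rfl
          simp only [h6] at h5
          exact h5
    · rw [Fin.sum_univ_succ, Fin.cons_zero]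
      simp only [Fin.cons_succ]
      rw [h4, Fin.sum_univ_succAbove nu j0, hdet, ord_sign_mul, P.ord_mul hp hC'0]
      push_cast
      ring

end

section

variable {K V : Type} [Field K] [Algebra ℂ K] [AddCommGroup V] [Module K V] {n m : ℕ}

theorem t_eq_tbar {b : Module.Basis (Fin n) K V} {γ : Fin n → ℚ}
    {t : MultilinearMap K (fun _ : Fin m => V) K}
    (hvan : ∀ J : Fin m → Fin n, ∑ s, γ (J s) < 1 → t (fun s => b (J s)) = 0)
    {C : Matrix (Fin n) (Fin n) K} (hC : ∀ j l, C j l ≠ 0 → γ l ≤ γ j) {J : Fin m → Fin n}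
    (hJ : ∑ s, γ (J s) = 1) :
    t (fun s => vec b C (J s)) = tbar b γ t (fun s => vec b C (J s)) := by
  classical
  rw [tbar_apply, mul_expand t b]
  refine Finset.sum_congr rfl fun I _ => ?_
  simp only [coord_vec]
  by_cases hI : ∑ s, γ (I s) = 1
  · rw [if_pos hI]
  · rw [if_neg hI, mul_zero]
    rcases lt_or_gt_of_ne hI with h | h
    · rw [hvan I h, mul_zero]
    · by_cases h0 : ∃ s, C (J s) (I s) = 0
      · obtain ⟨s, hs⟩ := h0
        rw [Finset.prod_eq_zero (Finset.mem_univ s) hs, zero_mul]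
      · push Not at h0
        have h1 : ∑ s, γ (I s) ≤ ∑ s, γ (J s) := Finset.sum_le_sum fun s _ => hC _ _ (h0 s)
        rw [hJ] at h1
        exact absurd h1 (not_le.2 h)

/-- the determinant of a unitriangular matrix on some of the indices -/
theorem det_block {U : Matrix (Fin n) (Fin n) K} (h1 : ∀ i, U i i = 1)
    (h2 : ∀ i j, i < j → U i j = 0) {r : ℕ} {f : Fin r → Fin n} (hf : Function.Injective f) :
    (Matrix.of fun s s' => U (f s) (f s')).det = 1 := by
  classical
  rw [Matrix.det_apply, Finset.sum_eq_single (1 : Equiv.Perm (Fin r))]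
  · rw [Equiv.Perm.sign_one, one_smul]
    exact Finset.prod_eq_one fun s _ => h1 _
  · intro p _ hp
    have h0 : ∃ s, U (f (p s)) (f s) = 0 := by
      by_contra hcon
      push Not at hcon
      apply hp
      have h3 : ∀ s, f s ≤ f (p s) := by
        intro s
        by_contra hlt
        push Not at hlt
        exact hcon s (h2 _ _ hlt)
      have h4 : ∀ s, ((f s : ℕ) : ℚ) = ((f (p s) : ℕ) : ℚ) := by
        refine sum_le_eq (fun s => by exact_mod_cast h3 s) ?_
        exact (Equiv.sum_comp p fun s => ((f s : ℕ) : ℚ)).symm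
      ext s
      have h5 : (f s : ℕ) = f (p s) := by exact_mod_cast h4 s
      have h6 := hf (Fin.ext h5)
      rw [← h6]
      rfl
    obtain ⟨s, hs⟩ := h0
    have h3 : ∏ i, (Matrix.of fun s s' => U (f s) (f s')) (p i) i = 0 :=
      Finset.prod_eq_zero (Finset.mem_univ s) hs
    rw [h3, smul_zero]
  · intro h
    exact absurd (Finset.mem_univ _) h

theorem omg_loc {P : Place ℂ K} (b : Module.Basis (Fin n) K V) {γ : Fin n → ℚ}
    {U : Matrix (Fin n) (Fin n) K} (h1 : ∀ i, U i i = 1) (h2 : ∀ i j, i < j → U i j = 0)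
    (nk : Fin n → ℝ) (i : Fin n) (J : Fin (Fintype.card {l // γ l = γ i}) → Fin n) :
    GeR P (∑ s, nk (J s) - ∑ s, nk (en γ i s).1)
      (omg b γ i (fun s => vec b (hom γ (Equiv.refl _) U) (J s))) := by
  classical
  rw [omg_apply]
  simp only [coord_vec]
  by_cases h : ∃ s, γ (J s) ≠ γ i
  · obtain ⟨s, hs⟩ := h
    left
    refine Matrix.det_eq_zero_of_row_eq_zero s fun s' => ?_
    exact if_neg fun h1 => hs (h1.symm.trans (en γ i s').2)
  · push Not at h
    obtain ⟨p, hp⟩ : ∃ p : Fin (Fintype.card {l // γ l = γ i}) →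
        Fin (Fintype.card {l // γ l = γ i}), p = fun s => (en γ i).symm ⟨J s, h s⟩ := ⟨_, rfl⟩
    have hJp : ∀ s, J s = (en γ i (p s)).1 := by
      intro s
      rw [hp]
      simp
    by_cases hinj : Function.Injective p
    · have hbij := Finite.injective_iff_bijective.1 hinj
      obtain ⟨q, hq⟩ : ∃ q : Equiv.Perm (Fin (Fintype.card {l // γ l = γ i})), ⇑q = p :=
        ⟨Equiv.ofBijective p hbij, rfl⟩
      have h3 : (Matrix.of fun s s' => hom γ (Equiv.refl _) U (J s) (en γ i s').1) =
          (Matrix.of fun s s' => U (en γ i s).1 (en γ i s').1).submatrix q id := by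
        ext s s'
        rw [Matrix.submatrix_apply, Matrix.of_apply, Matrix.of_apply, hq, ← hJp]
        exact if_pos ((en γ i s').2.trans (h s).symm)
      have h4 : ∑ s, nk (J s) = ∑ s, nk (en γ i s).1 := by
        rw [← Equiv.sum_comp q fun s => nk (en γ i s).1]
        refine Finset.sum_congr rfl fun s _ => ?_
        rw [hq, ← hJp]
      rw [h3, Matrix.det_permute, det_block h1 h2
        (f := fun s => (en γ i s).1) (fun a c hac => (en γ i).injective (Subtype.ext hac)), h4,
        sub_self, mul_one]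
      right
      have h5 : P.ord (((Equiv.Perm.sign q : ℤˣ) : ℤ) : K) = 0 := by
        have h6 : (((Equiv.Perm.sign q : ℤˣ) : ℤ) : K) =
            algebraMap ℂ K (((Equiv.Perm.sign q : ℤˣ) : ℤ) : ℂ) := by rw [map_intCast]
        rw [h6]
        refine P.ord_const ?_
        rcases Int.units_eq_one_or (Equiv.Perm.sign q) with h7 | h7
        · rw [h7]
          simp
        · rw [h7]
          simp
      rw [h5]
      simp
    · left
      unfold Function.Injective at hinj
      push Not at hinj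
      obtain ⟨s, s', hss, hne⟩ := hinj
      refine Matrix.det_zero_of_row_eq hne ?_
      funext l
      change hom γ (Equiv.refl _) U (J s) _ = hom γ (Equiv.refl _) U (J s') _
      rw [hJp s, hJp s', hss]

/-- the sum over the vectors which are used -/
theorem sum_comp_cnt {M : ℕ} (x : Fin M → Fin n) (f : Fin n → ℝ) :
    ∑ s, f (x s) = ∑ l, ((Finset.univ.filter fun s => x s = l).card : ℝ) * f l := by
  classical
  simp only [Finset.card_filter, Nat.cast_sum, Finset.sum_mul]
  rw [Finset.sum_comm]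
  refine Finset.sum_congr rfl fun s _ => ?_
  rw [Finset.sum_eq_single (x s)]
  · simp
  · intro i _ hi
    rw [if_neg (Ne.symm hi)]
    simp
  · intro h
    exact absurd (Finset.mem_univ _) h

/-- the constants of the factors -/
noncomputable def kap (γ : Fin n → ℚ) (nk : Fin n → ℝ) (l : ℝ) (d : ℕ) (e : Fin n → ℕ) :
    Fin d ⊕ ((i : Fin n) × Fin (e i)) → ℝ :=
  Sum.elim (fun _ => l) fun z => ∑ s, nk (en γ z.1 s).1

/-- the product, with its variables numbered -/
noncomputable def prodN (b : Module.Basis (Fin n) K V) (γ : Fin n → ℚ)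
    (t : MultilinearMap K (fun _ : Fin m => V) K) (d : ℕ) (e : Fin n → ℕ) :
    MultilinearMap K (fun _ : Fin (Fintype.card ((β : Fin d ⊕ ((i : Fin n) × Fin (e i))) ×
      Fin (degF m d γ e β))) => V) K :=
  (prodML (gF b γ t d e)).domDomCongr (Fintype.equivFin _)

theorem prod_loc {P : Place ℂ K} {b : Module.Basis (Fin n) K V} {γ : Fin n → ℚ}
    (hγ : Monotone γ) {t : MultilinearMap K (fun _ : Fin m => V) K}
    (hvan : ∀ J : Fin m → Fin n, ∑ s, γ (J s) < 1 → t (fun s => b (J s)) = 0)
    {E : Fin n → V} {C : Matrix (Fin n) (Fin n) K} (hbE : ∀ k, b k = ∑ j, C k j • E j)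
    {nu : Fin n → ℝ} {l : ℝ}
    (ht : ∀ I : Fin m → Fin n, GeR P (∑ s, nu (I s) - l) (t fun s => E (I s)))
    {U : Matrix (Fin n) (Fin n) K} (h1 : ∀ i, U i i = 1) (h2 : ∀ i j, i < j → U i j = 0)
    {nk : Fin n → ℝ} (h3 : ∀ k j, GeR P (nk k - nu j) ((U * C) k j)) {d : ℕ} {e : Fin n → ℕ}
    (x : Fin (Fintype.card ((β : Fin d ⊕ ((i : Fin n) × Fin (e i))) ×
      Fin (degF m d γ e β))) → Fin n) :
    GeR P (∑ s, nk (x s) - ∑ β, kap γ nk l d e β)
      (prodN b γ t d e (fun s => vec b (hom γ (Equiv.refl _) U) (x s))) := by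
  classical
  have hUle : ∀ j l, U j l ≠ 0 → γ l ≤ γ ((Equiv.refl (Fin n)) j) := by
    intro j l hl
    refine hγ ?_
    by_contra hcon
    push Not at hcon
    exact hl (h2 _ _ hcon)
  have hvec : ∀ k, vec b U k = ∑ j, (U * C) k j • E j := by
    intro k
    unfold vec
    simp only [hbE, Finset.smul_sum, smul_smul]
    rw [Finset.sum_comm]
    refine Finset.sum_congr rfl fun j _ => ?_
    rw [← Finset.sum_smul, Matrix.mul_apply]
  have hfac : ∀ β (J : Fin (degF m d γ e β) → Fin n), GeR P (∑ s, nk (J s) - kap γ nk l d e β)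
      (gF b γ t d e β (fun s => vec b (hom γ (Equiv.refl _) U) (J s))) := by
    intro β
    rcases β with a | z
    · intro J
      change GeR P (∑ s : Fin m, nk (J s) - l)
        (tbar b γ t (fun s => vec b (hom γ (Equiv.refl _) U) (J s)))
      by_cases hJ : ∑ s : Fin m, γ (J s) = 1
      · rw [((tbar_hom hUle b t J).1 hJ).1, ← t_eq_tbar hvan hUle hJ]
        simp only [hvec]
        rw [Sec.tens_lin t (U * C) E J]
        refine Pool.Agent.Y174.OB.geR_sum _ _ _ fun I _ => ?_
        have h4 := geR_prod' (P := P) (fun s : Fin m => nk (J s) - nu (I s)) _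
          (fun s => h3 (J s) (I s))
        refine (h4.mul (ht I)).mono (le_of_eq ?_)
        rw [Finset.sum_sub_distrib]
        ring
      · left
        exact (tbar_hom hUle b t J).2 hJ
    · intro J
      exact omg_loc (γ := γ) b h1 h2 nk z.1 J
  have h4 : prodN b γ t d e (fun s => vec b (hom γ (Equiv.refl _) U) (x s)) =
      ∏ β, gF b γ t d e β (fun s => vec b (hom γ (Equiv.refl _) U)
        (x (Fintype.equivFin _ ⟨β, s⟩))) := rfl
  rw [h4]
  refine (geR_prod' _ _ fun β => hfac β fun s => x (Fintype.equivFin _ ⟨β, s⟩)).mono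
    (le_of_eq ?_)
  rw [Finset.sum_sub_distrib]
  congr 1
  rw [← Equiv.sum_comp (Fintype.equivFin _) fun s => nk (x s), Fintype.sum_sigma]

/-- **The order of a semi-invariant of the product.** -/
theorem inv_loc {P : Place ℂ K} {b : Module.Basis (Fin n) K V} {γ : Fin n → ℚ}
    (hγ : Monotone γ) {t : MultilinearMap K (fun _ : Fin m => V) K}
    (hvan : ∀ J : Fin m → Fin n, ∑ s, γ (J s) < 1 → t (fun s => b (J s)) = 0)
    {E : Fin n → V} {C : Matrix (Fin n) (Fin n) K} (hbE : ∀ k, b k = ∑ j, C k j • E j)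
    {nu : Fin n → ℝ} {l : ℝ}
    (ht : ∀ I : Fin m → Fin n, GeR P (∑ s, nu (I s) - l) (t fun s => E (I s)))
    {U : Matrix (Fin n) (Fin n) K} (h1 : ∀ i, U i i = 1) (h2 : ∀ i j, i < j → U i j = 0)
    {nk : Fin n → ℝ} (h3 : ∀ k j, GeR P (nk k - nu j) ((U * C) k j)) {d : ℕ} {e : Fin n → ℕ}
    {M : ℕ} (hM : M = Fintype.card ((β : Fin d ⊕ ((i : Fin n) × Fin (e i))) ×
      Fin (degF m d γ e β))) (hM1 : 1 ≤ M) {W : ℕ}
    {Q : MvPolynomial (Ix (fun _ : Unit => Fintype.card ((β : Fin d ⊕ ((i : Fin n) ×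
      Fin (e i))) × Fin (degF m d γ e β))) n) ℂ}
    (hQ : SemiInv ℂ (fun _ : Unit => Fintype.card ((β : Fin d ⊕ ((i : Fin n) ×
      Fin (e i))) × Fin (degF m d γ e β))) n W Q) :
    GeR P (W * ∑ k, nk k - (n * W / M : ℝ) * ∑ β, kap γ nk l d e β)
      (aeval (pt (co (fun _ : Unit => prodN b γ t d e) b)) Q) := by
  classical
  have hUdet : (hom γ (Equiv.refl _) U).det = 1 := by
    have hUle : ∀ j l, U j l ≠ 0 → γ l ≤ γ ((Equiv.refl (Fin n)) j) := by
      intro j l hl
      refine hγ ?_
      by_contra hcon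
      push Not at hcon
      exact hl (h2 _ _ hcon)
    rw [det_hom hUle]
    exact det_block h1 h2 (f := id) Function.injective_id
  have h5 : aeval (pt (co (fun _ : Unit => prodN b γ t d e) b)) Q =
      aeval (pt (co (fun _ : Unit => prodN b γ t d e) (vec b (hom γ (Equiv.refl _) U)))) Q := by
    have h6 := hQ K (hom γ (Equiv.refl _) U) (co (fun _ : Unit => prodN b γ t d e) b)
    rw [hUdet, one_pow, one_mul] at h6
    rw [← h6]
    congr 2
    funext x
    exact act_co _ _ _ _ _
  rw [h5, aeval_def, eval₂_eq']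
  refine Pool.Agent.Y174.OB.geR_sum _ _ _ fun μ hμ => ?_
  have h4 : GeR P (∑ x : Ix (fun _ : Unit => Fintype.card ((β : Fin d ⊕ ((i : Fin n) ×
      Fin (e i))) × Fin (degF m d γ e β))) n,
        (μ x : ℝ) * (∑ s, nk (x.2 s) - ∑ β, kap γ nk l d e β))
      (∏ x, pt (co (fun _ : Unit => prodN b γ t d e) (vec b (hom γ (Equiv.refl _) U))) x ^
        μ x) :=
    geR_prod' _ _ fun x => GeR.pow (prod_loc hγ hvan hbE ht h1 h2 h3 x.2) _
  have h6 : GeR P 0 (algebraMap ℂ K (coeff μ Q)) := by
    by_cases h0 : coeff μ Q = 0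
    · left
      rw [h0, map_zero]
    · right
      rw [P.ord_const h0]
      simp
  have hcnt : ∀ i0 : Fin n, ∑ x, (μ x : ℝ) * (Sec.cnt i0 x : ℝ) = W := by
    intro i0
    have := Sec.weight i0 hQ hμ
    exact_mod_cast this
  have h7 : ∑ x : Ix (fun _ : Unit => Fintype.card ((β : Fin d ⊕ ((i : Fin n) ×
      Fin (e i))) × Fin (degF m d γ e β))) n, (μ x : ℝ) * ∑ s, nk (x.2 s) = W * ∑ k, nk k := by
    have h8 : ∀ x : Ix (fun _ : Unit => Fintype.card ((β : Fin d ⊕ ((i : Fin n) ×
      Fin (e i))) × Fin (degF m d γ e β))) n, (μ x : ℝ) * ∑ s, nk (x.2 s) =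
        ∑ k, (μ x : ℝ) * (Sec.cnt k x : ℝ) * nk k := by
      intro x
      rw [sum_comp_cnt x.2 nk, Finset.mul_sum]
      refine Finset.sum_congr rfl fun k _ => ?_
      rw [mul_assoc]
      rfl
    simp only [h8]
    rw [Finset.sum_comm, Finset.mul_sum]
    refine Finset.sum_congr rfl fun k _ => ?_
    rw [← Finset.sum_mul, hcnt]
  have h8 : ∑ x : Ix (fun _ : Unit => Fintype.card ((β : Fin d ⊕ ((i : Fin n) ×
      Fin (e i))) × Fin (degF m d γ e β))) n, (μ x : ℝ) = n * W / M := by
    have h9 : (M : ℝ) * ∑ x : Ix (fun _ : Unit => Fintype.card ((β : Fin d ⊕ ((i : Fin n) ×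
      Fin (e i))) × Fin (degF m d γ e β))) n, (μ x : ℝ) = n * W := by
      have h10 : ∑ i0 : Fin n, ∑ x, (μ x : ℝ) * (Sec.cnt i0 x : ℝ) = n * W := by
        rw [Finset.sum_congr rfl fun i0 _ => hcnt i0]
        simp
      rw [Finset.sum_comm] at h10
      rw [← h10, Finset.mul_sum]
      refine Finset.sum_congr rfl fun x _ => ?_
      rw [← Finset.mul_sum, mul_comm]
      congr 1
      have h11 := sum_cnt x
      have h12 : ∑ i0 : Fin n, (Sec.cnt i0 x : ℝ) = M := by
        rw [hM]
        exact_mod_cast h11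
      exact h12.symm
    have hM0 : (M : ℝ) ≠ 0 := by
      have : M ≠ 0 := by omega
      exact_mod_cast this
    field_simp
    linarith
  refine (h6.mul h4).mono (le_of_eq ?_)
  simp only [mul_sub, Finset.sum_sub_distrib]
  rw [h7, ← Finset.sum_mul, h8, zero_add]

end

end Pool.Agent.H897
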