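import Pool.Agent.H897.RD

/-!
The semi-invariant of the leading part of an unstable multilinear form.
-/

set_option autoImplicit false
set_option linter.overlappingInstances false
set_option linter.unusedSectionVars false

open MvPolynomial FF Pool.Agent.N133.TB Pool.Agent.Y174 Pool.Agent.W603.LV

namespace Pool.Agent.H897

section

variable {K V : Type} [Field K] [Algebra ℂ K] [AddCommGroup V] [Module K V] {n m : ℕ}

/-- the exponents of the volume forms -/
theorem exists_exps (γ : Fin n → ℚ) (hn : 1 ≤ n) (h2 : 0 < ∑ i, γ i ^ 2) :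
    ∃ (d : ℕ) (e : Fin n → ℕ) (C : ℝ), 1 ≤ d ∧
      ∀ i, (e i : ℝ) * Fintype.card {l // γ l = γ i} =
        (d * (∑ i, (γ i : ℝ) ^ 2)⁻¹) * (C - γ i) := by
  classical
  obtain ⟨C, hC⟩ : ∃ C : ℚ, ∀ i, γ i ≤ C := by
    have : Nonempty (Fin n) := ⟨⟨0, hn⟩⟩
    obtain ⟨i, hi⟩ := Finite.exists_max γ
    exact ⟨γ i, hi⟩
  obtain ⟨r, hr⟩ : ∃ r : Fin n → ℚ, r = fun i => (∑ i, γ i ^ 2)⁻¹ * (C - γ i) /
    Fintype.card {l // γ l = γ i} := ⟨_, rfl⟩
  have hr0 : ∀ i, 0 ≤ r i := by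
    intro i
    rw [hr]
    exact div_nonneg (mul_nonneg (inv_nonneg.2 h2.le) (sub_nonneg.2 (hC i))) (Nat.cast_nonneg _)
  obtain ⟨d, hd⟩ : ∃ d : ℕ, d = ∏ i, (r i).den := ⟨_, rfl⟩
  have hd1 : 1 ≤ d := by
    rw [hd]
    exact Nat.pos_of_ne_zero (Finset.prod_ne_zero_iff.2 fun i _ => (r i).den_ne_zero)
  have he : ∀ i, ∃ e : ℕ, (e : ℚ) = d * r i := by
    intro i
    have h1 : ∃ z : ℤ, (z : ℚ) = d * r i := by
      refine ⟨(∏ j ∈ Finset.univ.erase i, (r j).den : ℕ) * (r i).num, ?_⟩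
      rw [hd, ← Finset.prod_erase_mul _ _ (Finset.mem_univ i)]
      have h1 : ((r i).den : ℚ) * r i = (r i).num := by
        rw [mul_comm]
        exact Rat.mul_den_eq_num (r i)
      push_cast
      rw [← h1]
      ring
    obtain ⟨z, hz⟩ := h1
    have h3 : 0 ≤ z := by
      have h4 : (0 : ℚ) ≤ z := by
        rw [hz]
        exact mul_nonneg (Nat.cast_nonneg _) (hr0 i)
      exact_mod_cast h4
    obtain ⟨e, rfl⟩ := Int.eq_ofNat_of_zero_le h3
    exact ⟨e, by rw [← hz]; simp⟩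
  choose e he using he
  refine ⟨d, e, C, hd1, fun i => ?_⟩
  have hcard : (0 : ℚ) < Fintype.card {l // γ l = γ i} := by
    have : 0 < Fintype.card {l // γ l = γ i} := Fintype.card_pos_iff.2 ⟨⟨i, rfl⟩⟩
    exact_mod_cast this
  have h3 : (e i : ℚ) * Fintype.card {l // γ l = γ i} = (d * (∑ i, γ i ^ 2)⁻¹) * (C - γ i) := by
    rw [he, hr]
    simp only
    field_simp
  exact_mod_cast h3

/-- the number of the variables of the product -/
theorem card_prod {γ : Fin n → ℚ} (hγ0 : ∑ i, γ i = 0) {d : ℕ} {e : Fin n → ℕ} {A C : ℝ}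
    (he : ∀ i, (e i : ℝ) * Fintype.card {l // γ l = γ i} = A * (C - γ i)) :
    (Fintype.card ((β : Fin d ⊕ ((i : Fin n) × Fin (e i))) × Fin (degF m d γ e β)) : ℝ) =
      d * m + n * (A * C) := by
  rw [Fintype.card_sigma, Fintype.sum_sum_type, Fintype.sum_sigma]
  push_cast
  congr 1
  · change ∑ _x : Fin d, (Fintype.card (Fin m) : ℝ) = _
    simp
  · have h1 : ∀ i : Fin n, ∑ y : Fin (e i), (Fintype.card (Fin (degF m d γ e (Sum.inr ⟨i, y⟩))) : ℝ) =
        A * (C - γ i) := by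
      intro i
      change ∑ _y : Fin (e i), (Fintype.card (Fin (Fintype.card {l // γ l = γ i})) : ℝ) = _
      rw [Finset.sum_const, Finset.card_univ, Fintype.card_fin, Fintype.card_fin, nsmul_eq_mul, he]
    rw [Finset.sum_congr rfl fun i _ => h1 i, ← Finset.mul_sum, Finset.sum_sub_distrib]
    have h2 : ∑ i, (γ i : ℝ) = 0 := by exact_mod_cast hγ0
    rw [h2]
    simp
    ring

/-- **Existence of the semi-invariant.** -/
theorem exists_inv (hn : 1 ≤ n) (hm : 1 ≤ m) {b : Module.Basis (Fin n) K V} {γ : Fin n → ℚ}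
    {t : MultilinearMap K (fun _ : Fin m => V) K} {d : ℕ} (hd : 1 ≤ d) {e : Fin n → ℕ}
    (hss : ∀ (h : Fin n → V) (lam : Fin n → ℝ) (ν : ℝ), LinearIndependent K h →
      ∑ i, lam i = 0 →
      (∀ J : ((β : Fin d ⊕ ((i : Fin n) × Fin (e i))) × Fin (degF m d γ e β)) → Fin n,
        ∑ z, lam (J z) < ν → prodML (gF b γ t d e) (fun z => h (J z)) = 0) → ν ≤ 0) :
    ∃ (W : ℕ) (Q : MvPolynomial (Ix (fun _ : Unit => Fintype.card ((β : Fin d ⊕ ((i : Fin n) ×
      Fin (e i))) × Fin (degF m d γ e β))) n) ℂ), 1 ≤ W ∧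
      SemiInv ℂ (fun _ : Unit => Fintype.card ((β : Fin d ⊕ ((i : Fin n) ×
        Fin (e i))) × Fin (degF m d γ e β))) n W Q ∧
      aeval (pt (co (fun _ : Unit => prodN b γ t d e) b)) Q ≠ 0 := by
  classical
  have hcK : CharZero K := charZero_of_injective_algebraMap (algebraMap ℂ K).injective
  have hM1 : 1 ≤ Fintype.card ((β : Fin d ⊕ ((i : Fin n) × Fin (e i))) ×
      Fin (degF m d γ e β)) := Fintype.card_pos_iff.2 ⟨⟨Sum.inl ⟨0, hd⟩, ⟨0, hm⟩⟩⟩
  have hback : ∀ (h : Fin n → V) (lam : Fin n → ℝ) (ν : ℝ),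
      (∀ J : Fin (Fintype.card ((β : Fin d ⊕ ((i : Fin n) × Fin (e i))) ×
        Fin (degF m d γ e β))) → Fin n, ∑ s, lam (J s) < ν →
          prodN b γ t d e (fun s => h (J s)) = 0) →
      ∀ J : ((β : Fin d ⊕ ((i : Fin n) × Fin (e i))) × Fin (degF m d γ e β)) → Fin n,
        ∑ z, lam (J z) < ν → prodML (gF b γ t d e) (fun z => h (J z)) = 0 := by
    intro h lam ν hν J hJ
    have h1 := hν (J ∘ (Fintype.equivFin _).symm) (by
      have h2 := Equiv.sum_comp (Fintype.equivFin ((β : Fin d ⊕ ((i : Fin n) × Fin (e i))) ×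
        Fin (degF m d γ e β))).symm fun z => lam (J z)
      exact lt_of_eq_of_lt h2 hJ)
    have h2 : prodN b γ t d e (fun s => h ((J ∘ (Fintype.equivFin _).symm) s)) =
        prodML (gF b γ t d e) (fun z => h (J z)) := by
      unfold prodN
      rw [MultilinearMap.domDomCongr_apply]
      congr 1
      funext z
      simp
    rw [h2] at h1
    exact h1
  by_contra hcon
  push Not at hcon
  have hnull := alg_null (k := ℂ) (L := AlgebraicClosure K)
    (m := fun _ : Unit => Fintype.card ((β : Fin d ⊕ ((i : Fin n) ×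
      Fin (e i))) × Fin (degF m d γ e β))) t_sep' t_hm' hn (fun _ => hM1)
    (t := mapF (co (fun _ : Unit => prodN b γ t d e) b)) (fun W Q hW hQ => by
      have h1 := hcon W Q hW hQ
      have h2 : aeval (pt (mapF (co (fun _ : Unit => prodN b γ t d e) b) :
          Fam (fun _ : Unit => Fintype.card ((β : Fin d ⊕ ((i : Fin n) ×
      Fin (e i))) × Fin (degF m d γ e β))) n (AlgebraicClosure K))) Q =
          algebraMap K (AlgebraicClosure K)
            (aeval (pt (co (fun _ : Unit => prodN b γ t d e) b)) Q) := by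
        rw [MvPolynomial.aeval_def, MvPolynomial.aeval_def, MvPolynomial.eval₂_eq',
          MvPolynomial.eval₂_eq', map_sum]
        refine Finset.sum_congr rfl fun μ _ => ?_
        rw [map_mul, map_prod, ← IsScalarTower.algebraMap_apply ℂ K (AlgebraicClosure K)]
        congr 1
        refine Finset.prod_congr rfl fun x _ => ?_
        rw [map_pow]
        rfl
      rw [h2, h1, map_zero])
  have hP0 : prodN b γ t d e ≠ 0 := by
    intro h0
    have h1 := hss b (fun _ => 0) 1 b.linearIndependent (by simp)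
      (hback b (fun _ => 0) 1 (fun J _ => by
        rw [h0]
        rfl))
    linarith
  obtain ⟨f, w, μ, hμ, ⟨hli, hw, -, hvan⟩, -⟩ := canon (m := fun _ : Unit =>
    Fintype.card ((β : Fin d ⊕ ((i : Fin n) × Fin (e i))) × Fin (degF m d γ e β)))
    b.linearIndependent b.span_eq (fun _ : Unit => prodN b γ t d e) ⟨(), hP0⟩ hnull
  have h1 := hss f w μ hli hw (hback _ _ _ (hvan ()))
  linarith

/-- **The local inequality.** -/
theorem loc_ineq {P : Place ℂ K} {b : Module.Basis (Fin n) K V} {γ : Fin n → ℚ} (hn : 1 ≤ n)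
    (hm : 1 ≤ m) (hγ : Monotone γ) (hγ0 : ∑ i, γ i = 0)
    {t : MultilinearMap K (fun _ : Fin m => V) K}
    (hvan : ∀ J : Fin m → Fin n, ∑ s, γ (J s) < 1 → t (fun s => b (J s)) = 0)
    {E : Fin n → V} {C : Matrix (Fin n) (Fin n) K} (hbE : ∀ k, b k = ∑ j, C k j • E j)
    {nu : Fin n → ℝ} {l : ℝ}
    (ht : ∀ I : Fin m → Fin n, GeR P (∑ s, nu (I s) - l) (t fun s => E (I s)))
    {U : Matrix (Fin n) (Fin n) K} (h1 : ∀ i, U i i = 1) (h2 : ∀ i j, i < j → U i j = 0)
    {nk : Fin n → ℝ} (h3 : ∀ k j, GeR P (nk k - nu j) ((U * C) k j)) {d : ℕ} (hd : 1 ≤ d)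
    {e : Fin n → ℕ} {rho c : ℝ}
    (he : ∀ i, (e i : ℝ) * Fintype.card {l // γ l = γ i} = (d * rho) * (c - γ i))
    {M : ℕ} (hM : M = Fintype.card ((β : Fin d ⊕ ((i : Fin n) × Fin (e i))) ×
      Fin (degF m d γ e β))) {W : ℕ}
    {Q : MvPolynomial (Ix (fun _ : Unit => Fintype.card ((β : Fin d ⊕ ((i : Fin n) ×
      Fin (e i))) × Fin (degF m d γ e β))) n) ℂ}
    (hQ : SemiInv ℂ (fun _ : Unit => Fintype.card ((β : Fin d ⊕ ((i : Fin n) ×
      Fin (e i))) × Fin (degF m d γ e β))) n W Q) :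
    GeR P ((n * W / M : ℝ) * d * ((m / n : ℝ) * ∑ k, nk k - l + rho * ∑ k, (γ k : ℝ) * nk k))
      (aeval (pt (co (fun _ : Unit => prodN b γ t d e) b)) Q) := by
  classical
  have hM1 : 1 ≤ M := by
    rw [hM]
    exact Fintype.card_pos_iff.2 ⟨⟨Sum.inl ⟨0, hd⟩, ⟨0, hm⟩⟩⟩
  refine (inv_loc hγ hvan hbE ht h1 h2 h3 hM hM1 hQ).mono (le_of_eq ?_)
  have h4 : ∑ β, kap γ nk l d e β = d * l + (d * rho) * (c * ∑ k, nk k - ∑ k, (γ k : ℝ) * nk k) := by
    rw [← card_sum he nk, Fintype.sum_sum_type, Fintype.sum_sigma]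
    congr 1
    · change ∑ _a : Fin d, l = _
      simp
    · refine Finset.sum_congr rfl fun i _ => ?_
      change ∑ _a : Fin (e i), ∑ s, nk (en γ i s).1 = _
      rw [Finset.sum_const, Finset.card_univ, Fintype.card_fin, nsmul_eq_mul]
  have h5 : (M : ℝ) = d * m + n * ((d * rho) * c) := by
    rw [hM]
    exact card_prod hγ0 he
  have hM0 : (M : ℝ) ≠ 0 := by
    have : M ≠ 0 := by omega
    exact_mod_cast this
  have hn0 : (n : ℝ) ≠ 0 := by
    have : n ≠ 0 := by omega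
    exact_mod_cast this
  have h6 : (W : ℝ) = (n * W / M : ℝ) * (d * m / n + (d * rho) * c) := by
    have h7 : (d * m / n + (d * rho) * c : ℝ) = M / n := by
      rw [h5]
      field_simp
    rw [h7]
    field_simp
  obtain ⟨D, hD⟩ : ∃ D : ℝ, D = n * W / M := ⟨_, rfl⟩
  rw [← hD] at h6 ⊢
  rw [h4, h6]
  field_simp
  ring

end

end Pool.Agent.H897
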