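import Pool.Agent.H897.RE
import Pool.Agent.H897.OM

/-!
The orders of polyvector fields along the prime divisors of a pair.
-/

set_option autoImplicit false
set_option linter.overlappingInstances false
set_option linter.unusedSectionVars false

open MvPolynomial FF Pool.Agent.W602.GT Pool.Agent.Y172 Pool.Agent.NH31 Pool.Agent.W603.LV
open Pool.Agent.N133.TB Pool.Agent.Y174

namespace Pool.Agent.H897

section

variable {K : Type} [Field K] [Algebra ℂ K] {N n : ℕ} {y : Fin (N + 1) → K}

/-- The vector fields `E` are a frame of the tangent bundle along the prime divisor `P`, and if the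
coefficient `δ` of `P` is not zero then the fields `E i`, `i ≠ i0`, are tangent to `P`. So the
`E i`, `i ≠ i0`, and `x ^ δ • E i0` are a frame of the orbifold tangent bundle of the pair, where
`x` is an equation of `P`. -/
def Adapted (δ : ℚ) (P : Place ℂ K) (E : Fin n → Derivation ℂ K K) (i0 : Fin n) : Prop :=
  FrameAt P E ∧ (δ ≠ 0 → ∀ i, i ≠ i0 → DerLog P (E i))

/-- `e` is the order along `P` of the polyvector field `D 0 ∧ ⋯ ∧ D (r - 1)`, as a rational section
of the exterior power of the orbifold tangent bundle of a pair in which `P` has the coefficient `δ`: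
for an adapted frame it is the smallest order of the coefficients. -/
def WedgeOrd (n : ℕ) (δ : ℚ) (P : Place ℂ K) {r : ℕ} (D : Fin r → Derivation ℂ K K) (e : ℝ) :
    Prop :=
  ∃ (E : Fin n → Derivation ℂ K K) (i0 : Fin n) (c : Matrix (Fin r) (Fin n) K),
    Adapted δ P E i0 ∧ (∀ k, D k = ∑ j, c k j • E j) ∧
    (∀ I : Fin r → Fin n, (c.submatrix id I).det = 0 ∨
      e ≤ P.ord (c.submatrix id I).det - ∑ s, if I s = i0 then (δ : ℝ) else 0) ∧
    ∃ I : Fin r → Fin n, (c.submatrix id I).det ≠ 0 ∧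
      e = P.ord (c.submatrix id I).det - ∑ s, if I s = i0 then (δ : ℝ) else 0

/-- the norms of the adapted frame -/
noncomputable def nuf (δ : ℚ) (i0 : Fin n) (j : Fin n) : ℝ := if j = i0 then -(δ : ℝ) else 0

theorem sum_nuf (δ : ℚ) (i0 : Fin n) {r : ℕ} (I : Fin r → Fin n) :
    ∑ s, nuf δ i0 (I s) = -∑ s, if I s = i0 then (δ : ℝ) else 0 := by
  rw [← Finset.sum_neg_distrib]
  refine Finset.sum_congr rfl fun s _ => ?_
  unfold nuf
  split_ifs <;> simp

theorem sum_nuf' (δ : ℚ) (i0 : Fin n) : ∑ j, nuf δ i0 j = -(δ : ℝ) := by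
  unfold nuf
  rw [Finset.sum_ite_eq' Finset.univ i0, if_pos (Finset.mem_univ _)]

theorem geR_det {P : Place ℂ K} {r : ℕ} {A : Matrix (Fin r) (Fin r) K} {a b : Fin r → ℝ}
    (h : ∀ k s, GeR P (a k - b s) (A k s)) : GeR P (∑ k, a k - ∑ s, b s) A.det := by
  rw [Matrix.det_apply']
  refine Pool.Agent.Y174.OB.geR_sum _ _ _ fun σ _ => ?_
  have h1 := geR_prod' (P := P) (fun i => a (σ i) - b i) (fun i => A (σ i) i) fun i => h _ _
  have h2 : GeR P 0 (((Equiv.Perm.sign σ : ℤˣ) : ℤ) : K) := by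
    right
    have h6 : (((Equiv.Perm.sign σ : ℤˣ) : ℤ) : K) =
        algebraMap ℂ K (((Equiv.Perm.sign σ : ℤˣ) : ℤ) : ℂ) := by rw [map_intCast]
    rw [h6, P.ord_const]
    · simp
    · rcases Int.units_eq_one_or (Equiv.Perm.sign σ) with h7 | h7
      · rw [h7]
        simp
      · rw [h7]
        simp
  refine (h2.mul h1).mono (le_of_eq ?_)
  rw [Finset.sum_sub_distrib, Equiv.sum_comp σ a, zero_add]

/-- the partial sums of the orthogonal norms -/
theorem qr_minor {P : Place ℂ K} {nu nk : Fin n → ℝ} {U C : Matrix (Fin n) (Fin n) K}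
    (h1 : ∀ i, U i i = 1) (h2 : ∀ i j, i < j → U i j = 0)
    (h3 : ∀ k j, GeR P (nk k - nu j) ((U * C) k j)) {r : ℕ} (hr : r ≤ n) {I : Fin r → Fin n}
    (hI : (C.submatrix (Fin.castLE hr) I).det ≠ 0) :
    ∑ k : Fin r, nk (Fin.castLE hr k) ≤
      P.ord (C.submatrix (Fin.castLE hr) I).det + ∑ s, nu (I s) := by
  classical
  have h4 : (U * C).submatrix (Fin.castLE hr) I =
      (Matrix.of fun s s' => U (Fin.castLE hr s) (Fin.castLE hr s')) *
        C.submatrix (Fin.castLE hr) I := by
    ext k s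
    rw [Matrix.submatrix_apply, Matrix.mul_apply, Matrix.mul_apply]
    have h5 : ∀ j : Fin n, j ∉ Set.range (Fin.castLE hr : Fin r → Fin n) →
        U (Fin.castLE hr k) j * C j (I s) = 0 := by
      intro j hj
      rw [h2, zero_mul]
      by_contra hcon
      push Not at hcon
      apply hj
      have h6 : (j : ℕ) ≤ (k : ℕ) := hcon
      exact ⟨⟨j, lt_of_le_of_lt h6 k.2⟩, rfl⟩
    rw [← Finset.sum_subset (Finset.subset_univ
      (Finset.univ.map ⟨(Fin.castLE hr : Fin r → Fin n), Fin.castLE_injective hr⟩)) (by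
        intro j _ hj
        refine h5 j fun ⟨i, hi⟩ => hj ?_
        rw [Finset.mem_map]
        exact ⟨i, Finset.mem_univ _, hi⟩), Finset.sum_map]
    rfl
  have h5 : ((U * C).submatrix (Fin.castLE hr) I).det = (C.submatrix (Fin.castLE hr) I).det := by
    rw [h4, Matrix.det_mul, det_block h1 h2 (Fin.castLE_injective hr), one_mul]
  have h6 : GeR P (∑ k : Fin r, nk (Fin.castLE hr k) - ∑ s, nu (I s))
      ((U * C).submatrix (Fin.castLE hr) I).det := geR_det fun k s => h3 _ _
  rw [h5] at h6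
  have h7 := h6.resolve_left hI
  linarith

/-- the first rows of an invertible matrix have a minor which is not zero -/
theorem exists_minor {C : Matrix (Fin n) (Fin n) K} (hC : C.det ≠ 0) {r : ℕ} (hr : r ≤ n) :
    ∃ I : Fin r → Fin n, (C.submatrix (Fin.castLE hr) I).det ≠ 0 := by
  classical
  by_contra hcon
  push Not at hcon
  obtain ⟨T, hT⟩ : ∃ T : MultilinearMap K (fun _ : Fin r => (Fin r → K)) K,
    T = (Matrix.detRowAlternating (R := K) (n := Fin r)).toMultilinearMap := ⟨_, rfl⟩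
  have h1 := Sec.tens_lin T (Matrix.transpose C⁻¹) (fun j k => C (Fin.castLE hr k) j) (Fin.castLE hr)
  have h2 : T (fun s => ∑ j, (Matrix.transpose C⁻¹) (Fin.castLE hr s) j • (fun k => C (Fin.castLE hr k) j)) =
      1 := by
    have h3 : (fun s => ∑ j, (Matrix.transpose C⁻¹) (Fin.castLE hr s) j • (fun k => C (Fin.castLE hr k) j)) =
        (1 : Matrix (Fin r) (Fin r) K) := by
      ext s k
      have h4 := congrFun (congrFun (Matrix.mul_nonsing_inv C (isUnit_iff_ne_zero.2 hC))
        (Fin.castLE hr k)) (Fin.castLE hr s)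
      rw [Matrix.mul_apply] at h4
      rw [Finset.sum_apply]
      simp only [Pi.smul_apply, smul_eq_mul, Matrix.transpose_apply]
      rw [Finset.sum_congr rfl fun j _ => mul_comm _ _, h4, Matrix.one_apply, Matrix.one_apply]
      simp only [Fin.castLE_inj]
      by_cases hks : k = s
      · rw [if_pos hks, if_pos hks.symm]
      · rw [if_neg hks, if_neg (Ne.symm hks)]
    rw [h3, hT]
    exact Matrix.det_one
  have h3 : ∀ I : Fin r → Fin n, T (fun s => (fun k => C (Fin.castLE hr k) (I s))) = 0 := by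
    intro I
    rw [← hcon I, ← Matrix.det_transpose, hT]
    rfl
  rw [h2] at h1
  simp only [h3, mul_zero, Finset.sum_const_zero] at h1
  exact one_ne_zero h1

/-- the smallest order of the minors -/
theorem exists_minOrd (P : Place ℂ K) (nu : Fin n → ℝ) {r : ℕ} (c : Matrix (Fin r) (Fin n) K)
    (h : ∃ I : Fin r → Fin n, (c.submatrix id I).det ≠ 0) :
    ∃ e : ℝ, (∀ I : Fin r → Fin n, (c.submatrix id I).det = 0 ∨
      e ≤ P.ord (c.submatrix id I).det + ∑ s, nu (I s)) ∧
    ∃ I : Fin r → Fin n, (c.submatrix id I).det ≠ 0 ∧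
      e = P.ord (c.submatrix id I).det + ∑ s, nu (I s) := by
  classical
  obtain ⟨I0, hI0⟩ := h
  obtain ⟨I, hI, hmin⟩ := Finset.exists_min_image
    (Finset.univ.filter fun I : Fin r → Fin n => (c.submatrix id I).det ≠ 0)
    (fun I => (P.ord (c.submatrix id I).det : ℝ) + ∑ s, nu (I s)) ⟨I0, by simpa using hI0⟩
  refine ⟨_, fun J => ?_, I, (Finset.mem_filter.1 hI).2, rfl⟩
  by_cases h0 : (c.submatrix id J).det = 0
  · exact Or.inl h0
  · exact Or.inr (hmin J (by simpa using h0))

/-- almost everywhere a frame is a local frame -/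
theorem frame_ae (hy : NormalModel y) (hn : Algebra.trdeg ℂ K = n) {x : Fin n → K}
    {E : Fin n → Derivation ℂ K K} (hx : IsTranscendenceBasis ℂ x)
    (hE : ∀ i j, E i (x j) = if i = j then 1 else 0) :
    {P | IsPrimeDivisor y P ∧ ¬ FrameAt P E}.Finite := by
  classical
  have hess := hy.ess
  obtain ⟨w, hwf, hw⟩ := exists_canon hy hn hx hE
  have hden : ∀ i : Fin (N + 1), ∃ h : K, h ≠ 0 ∧ (y i ≠ 0 →
      (h ∈ chart y i ∧ ∀ l, ∀ f ∈ chart y i, h * E l f ∈ chart y i)) := by
    intro i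
    by_cases hi : y i ≠ 0
    · obtain ⟨h, h1, h2, h3⟩ := exists_den_frame hy hi E
      exact ⟨h, h2, fun _ => ⟨h1, h3⟩⟩
    · exact ⟨1, one_ne_zero, fun h => absurd h hi⟩
  choose h hh0 hh using hden
  refine (hwf.union (Set.finite_iUnion fun i => finite_ord hy (hh0 i))).subset ?_
  rintro Q ⟨hQ, hne⟩
  by_contra hcon
  rw [Set.mem_union] at hcon
  push Not at hcon
  have hw0 : w Q = 0 := by
    by_contra h0
    exact hcon.1 ⟨hQ, h0⟩
  obtain ⟨i, hi⟩ := exists_centred hy Q
  have hord : Q.ord (h i) = 0 := by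
    by_contra hne'
    exact hcon.2 (Set.mem_iUnion.2 ⟨i, hQ, hne'⟩)
  have hDr : ∀ l, DerReg Q (E l) := by
    intro l f hf
    have h1 : DerReg Q (h i • E l) := derReg_of_chart hQ hi fun f hf => by
      rw [Derivation.smul_apply, smul_eq_mul]
      exact (hh i hi.1).2 l f hf
    have h2 := h1 f hf
    rw [Derivation.smul_apply, smul_eq_mul] at h2
    by_cases h3 : E l f = 0
    · rw [h3]
      exact Q.reg_zero
    · rw [Q.reg_iff (mul_ne_zero (hh0 i) h3), Q.ord_mul (hh0 i) h3, hord, zero_add] at h2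
      exact Or.inr h2
  obtain ⟨x', E', i0, hL⟩ := exists_loc hn (hQ.divisorial hy hn)
  obtain ⟨h4, h5⟩ := ord_canon hE (hw Q hQ) hL
  rw [hw0] at h5
  -- the inverse matrix is regular
  obtain ⟨M, hM⟩ : ∃ M : Matrix (Fin n) (Fin n) K, M = Matrix.of fun i j => E i (x' j) := ⟨_, rfl⟩
  obtain ⟨M', hM'⟩ : ∃ M' : Matrix (Fin n) (Fin n) K, M' = Matrix.of fun i j => E' i (x j) :=
    ⟨_, rfl⟩
  have hME : ∀ i, E i = ∑ j, M i j • E' j := fun i => by
    rw [hM]
    exact (Pool.Agent.W73.PG.PULL.expand x' hL.bas E' hL.dual (E i)).symm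
  have hME' : ∀ i, E' i = ∑ j, M' i j • E j := fun i => by
    rw [hM']
    exact (Pool.Agent.W73.PG.PULL.expand x hx E hE (E' i)).symm
  have hprod : M' * M = 1 := by
    ext i k
    have h6 : E' i (x' k) = (∑ j, M' i j • E j) (x' k) :=
      congrArg (fun D : Derivation ℂ K K => D (x' k)) (hME' i)
    rw [hL.dual, sum_smul_apply] at h6
    rw [Matrix.mul_apply, Matrix.one_apply, h6]
    refine Finset.sum_congr rfl fun j _ => ?_
    rw [hM]
    rfl
  have hMreg : ∀ i j, Q.Reg (M i j) := fun i j => by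
    rw [hM]
    exact hDr i _ (hL.reg j)
  have hMdet : M.det ≠ 0 := right_ne_zero_of_mul_eq_one (a := M'.det) (by
    rw [← Matrix.det_mul, hprod, Matrix.det_one])
  have hM'det : Q.ord M'.det = 0 := by
    rw [hM']
    exact_mod_cast h5
  have hM'0 : M'.det ≠ 0 := by
    rw [hM']
    exact h4
  have hM'eq : M' = M'.det • M.adjugate := by
    have h6 : M.adjugate = M.det • M' := by
      have h7 := congrArg (fun Z => Z * M.adjugate) hprod
      simp only [Matrix.mul_assoc, Matrix.mul_adjugate, one_mul, Matrix.mul_smul,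
        mul_one] at h7
      exact h7.symm
    rw [h6, smul_smul, ← Matrix.det_mul, hprod, Matrix.det_one, one_smul]
  have hM'reg : ∀ i j, Q.Reg (M' i j) := by
    intro i j
    rw [hM'eq, Matrix.smul_apply, smul_eq_mul]
    refine Q.reg_mul ((Q.reg_iff hM'0).2 (by rw [hM'det])) ?_
    rw [Matrix.adjugate_apply, Matrix.det_apply']
    refine Finset.sum_induction _ (fun z => Q.Reg z) (fun _ _ => Q.reg_add) Q.reg_zero fun σ _ => ?_
    refine Q.reg_mul ?_ (reg_prod Q _ _ fun k _ => ?_)
    · have : ((Equiv.Perm.sign σ : ℤ) : K) = algebraMap ℂ K ((Equiv.Perm.sign σ : ℤ) : ℂ) := by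
        rw [map_intCast]
      rw [this]
      exact Q.reg_const _
    · rw [Matrix.updateRow_apply]
      split_ifs
      · rw [Pi.single_apply]
        split_ifs
        · exact Q.reg_one
        · exact Q.reg_zero
      · exact hMreg _ _
  apply hne
  refine ⟨hDr, fun D hD => ⟨fun k => ∑ j, D (x' j) * M' j k, fun k => ?_, ?_⟩⟩
  · refine Finset.sum_induction _ (fun z => Q.Reg z) (fun _ _ => Q.reg_add) Q.reg_zero fun j _ => ?_
    exact Q.reg_mul (hD _ (hL.reg j)) (hM'reg _ _)
  · have h6 := (Pool.Agent.W73.PG.PULL.expand x' hL.bas E' hL.dual D).symm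
    refine h6.trans ?_
    have h7 : ∀ j, D (x' j) • E' j = ∑ k, (D (x' j) * M' j k) • E k := by
      intro j
      rw [hME' j, Finset.smul_sum]
      exact Finset.sum_congr rfl fun k _ => smul_smul _ _ _
    rw [Finset.sum_congr rfl fun j _ => h7 j, Finset.sum_comm]
    exact Finset.sum_congr rfl fun k _ => (Finset.sum_smul ..).symm

end

end Pool.Agent.H897
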