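import Pool.Agent.H897.RF

/-!
Degrees with respect to movable classes, and stability.
-/

set_option autoImplicit false
set_option linter.overlappingInstances false
set_option linter.unusedSectionVars false

open MvPolynomial FF Pool.Agent.W602.GT Pool.Agent.Y172 Pool.Agent.NH31 Pool.Agent.W603.LV
open Pool.Agent.N133.TB Pool.Agent.Y174

namespace Pool.Agent.H897

section

variable {K : Type} [Field K] [Algebra ℂ K] {N n : ℕ} {y : Fin (N + 1) → K}

/-- The `ℝ`-divisor with the coefficients `e P` has the degree `s` with respect to `α`, if `α P` is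
the degree of the prime divisor `P`. -/
def HasDeg (y : Fin (N + 1) → K) (α e : Place ℂ K → ℝ) (s : ℝ) : Prop :=
  ∃ S : Finset (Place ℂ K), (∀ P ∈ S, IsPrimeDivisor y P) ∧
    (∀ P, IsPrimeDivisor y P → P ∉ S → e P = 0) ∧ ∑ P ∈ S, α P * e P = s

/-- `α` is a movable class: it is nonnegative on the prime divisors, and principal divisors have the
degree `0`. -/
structure MovableClass (y : Fin (N + 1) → K) (α : Place ℂ K → ℝ) : Prop where
  nonneg : ∀ P, IsPrimeDivisor y P → 0 ≤ α P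
  prin : ∀ f : K, f ≠ 0 → HasDeg y α (fun P => (P.ord f : ℝ)) 0

/-- The degree of `K_X + Δ` is `c`: here `w P` is the order along `P` of a rational `n`-form. -/
def LogDegree (y : Fin (N + 1) → K) (n : ℕ) (Δ : Place ℂ K → ℚ) (α : Place ℂ K → ℝ) (c : ℝ) :
    Prop :=
  ∃ (ω : (Fin n → Derivation ℂ K K) → K) (w : Place ℂ K → ℚ), IsPluri 1 ω ∧ ω ≠ 0 ∧
    (∀ P, IsPrimeDivisor y P → OrdEq P ω (w P)) ∧ HasDeg y α (fun P => w P + Δ P) c

/-- **Stability** of the orbifold tangent bundle of the pair `(X, Δ)` with respect to `α`, if the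
degree of `K_X + Δ` is `c`: for `0 < r < n` the `r`-dimensional subspaces of the space of the
rational vector fields, with the bases `D`, have a degree which is smaller than `- r c / n`. -/
def StableTangent (y : Fin (N + 1) → K) (n : ℕ) (Δ : Place ℂ K → ℚ) (α : Place ℂ K → ℝ) (c : ℝ) :
    Prop :=
  ∀ (r : ℕ) (D : Fin r → Derivation ℂ K K) (e : Place ℂ K → ℝ) (s : ℝ), 1 ≤ r → r < n →
    LinearIndependent K D → (∀ P, IsPrimeDivisor y P → WedgeOrd n (Δ P) P D (e P)) →
      HasDeg y α e s → n * s < -(r * c)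

theorem HasDeg.sum_eq {α e : Place ℂ K → ℝ} {s : ℝ} (h : HasDeg y α e s)
    {S : Finset (Place ℂ K)} (hS : ∀ P ∈ S, IsPrimeDivisor y P)
    (hS' : ∀ P, IsPrimeDivisor y P → e P ≠ 0 → P ∈ S) : ∑ P ∈ S, α P * e P = s := by
  classical
  obtain ⟨S0, h1, h2, h3⟩ := h
  rw [← h3]
  have h4 : ∑ P ∈ S, α P * e P = ∑ P ∈ S ∪ S0, α P * e P := by
    refine Finset.sum_subset Finset.subset_union_left fun P hP hPS => ?_
    have hPp : IsPrimeDivisor y P := by
      rcases Finset.mem_union.1 hP with h | h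
      · exact absurd h hPS
      · exact h1 P h
    have : e P = 0 := by
      by_contra h0
      exact hPS (hS' P hPp h0)
    rw [this, mul_zero]
  have h5 : ∑ P ∈ S0, α P * e P = ∑ P ∈ S ∪ S0, α P * e P := by
    refine Finset.sum_subset Finset.subset_union_right fun P hP hPS => ?_
    have hPp : IsPrimeDivisor y P := by
      rcases Finset.mem_union.1 hP with h | h
      · exact hS P h
      · exact absurd h hPS
    rw [h2 P hPp hPS, mul_zero]
  rw [h4, h5]

theorem HasDeg.fin {α e : Place ℂ K → ℝ} {s : ℝ} (h : HasDeg y α e s) :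
    {P | IsPrimeDivisor y P ∧ e P ≠ 0}.Finite := by
  obtain ⟨S, h1, h2, h3⟩ := h
  refine S.finite_toSet.subset ?_
  rintro P ⟨hP, h0⟩
  by_contra hcon
  exact h0 (h2 P hP hcon)

theorem hasDeg_of_fin (α : Place ℂ K → ℝ) {e : Place ℂ K → ℝ}
    (h : {P | IsPrimeDivisor y P ∧ e P ≠ 0}.Finite) : ∃ s, HasDeg y α e s := by
  classical
  refine ⟨_, h.toFinset, fun P hP => ((Set.Finite.mem_toFinset h).1 hP).1, fun P hP hPS => ?_, rfl⟩
  by_contra h0
  exact hPS ((Set.Finite.mem_toFinset h).2 ⟨hP, h0⟩)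

/-- Abel summation -/
theorem abel_nat (g x : ℕ → ℝ) (n : ℕ) :
    ∑ k ∈ Finset.range (n + 1), g k * x k = g n * ∑ k ∈ Finset.range (n + 1), x k -
      ∑ k ∈ Finset.range n, (g (k + 1) - g k) * ∑ j ∈ Finset.range (k + 1), x j := by
  induction n with
  | zero => simp
  | succ n ih =>
    rw [Finset.sum_range_succ, ih,
      Finset.sum_range_succ (fun k => (g (k + 1) - g k) * ∑ j ∈ Finset.range (k + 1), x j) n,
      Finset.sum_range_succ x (n + 1)]
    ring

/-- the arithmetic of the slopes -/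
theorem slopes_pos {l : ℕ} {g s : ℕ → ℝ} {c : ℝ} (hmono : ∀ k, k < l → g k ≤ g (k + 1))
    (hg0 : ∑ k ∈ Finset.range (l + 1), g k = 0) (hg2 : 0 < ∑ k ∈ Finset.range (l + 1), g k ^ 2)
    (hs : ∀ k, k < l → (l + 1 : ℝ) * s (k + 1) < -((k + 1 : ℝ) * c)) :
    0 < g l * (-c) - ∑ k ∈ Finset.range l, (g (k + 1) - g k) * s (k + 1) := by
  have h1 := abel_nat g (fun _ => 1) l
  simp only [mul_one, Finset.sum_const, Finset.card_range, nsmul_eq_mul] at h1
  rw [hg0] at h1
  push_cast at h1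
  obtain ⟨k0, hk0, hlt⟩ : ∃ k0, k0 < l ∧ g k0 < g (k0 + 1) := by
    by_contra hcon
    push Not at hcon
    have h2 : ∀ k, k ≤ l → g k = g 0 := by
      intro k
      induction k with
      | zero => intro _; rfl
      | succ k ih =>
        intro hk
        rw [← ih (by omega)]
        exact le_antisymm (hcon k (by omega)) (hmono k (by omega))
    have h3 : ∑ k ∈ Finset.range (l + 1), g k = (l + 1 : ℝ) * g 0 := by
      rw [Finset.sum_congr rfl fun k hk => h2 k (by rw [Finset.mem_range] at hk; omega)]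
      simp
    have h4 : g 0 = 0 := by
      rw [h3] at hg0
      have : (l + 1 : ℝ) ≠ 0 := by positivity
      exact (mul_eq_zero.1 hg0).resolve_left this
    have h5 : ∑ k ∈ Finset.range (l + 1), g k ^ 2 = 0 := by
      refine Finset.sum_eq_zero fun k hk => ?_
      rw [h2 k (by rw [Finset.mem_range] at hk; omega), h4]
      simp
    linarith
  have h2 : ∑ k ∈ Finset.range l, (g (k + 1) - g k) * ((l + 1 : ℝ) * s (k + 1)) <
      ∑ k ∈ Finset.range l, (g (k + 1) - g k) * (-((k + 1 : ℝ) * c)) := by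
    refine Finset.sum_lt_sum (fun k hk => ?_) ⟨k0, Finset.mem_range.2 hk0, ?_⟩
    · have hk' := Finset.mem_range.1 hk
      exact mul_le_mul_of_nonneg_left (hs k hk').le (sub_nonneg.2 (hmono k hk'))
    · exact mul_lt_mul_of_pos_left (hs k0 hk0) (sub_pos.2 hlt)
  have h3 : ∑ k ∈ Finset.range l, (g (k + 1) - g k) * ((l + 1 : ℝ) * s (k + 1)) =
      (l + 1 : ℝ) * ∑ k ∈ Finset.range l, (g (k + 1) - g k) * s (k + 1) := by
    rw [Finset.mul_sum]
    exact Finset.sum_congr rfl fun k _ => by ring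
  have h4 : ∑ k ∈ Finset.range l, (g (k + 1) - g k) * (-((k + 1 : ℝ) * c)) =
      -c * ∑ k ∈ Finset.range l, (g (k + 1) - g k) * (k + 1) := by
    rw [Finset.mul_sum]
    exact Finset.sum_congr rfl fun k _ => by ring
  rw [h3, h4] at h2
  have h5 : ∑ k ∈ Finset.range l, (g (k + 1) - g k) * (k + 1 : ℝ) = g l * (l + 1) := by
    linarith
  rw [h5] at h2
  have h6 : 0 < (l + 1 : ℝ) *
      (g l * (-c) - ∑ k ∈ Finset.range l, (g (k + 1) - g k) * s (k + 1)) := by
    nlinarith
  have h7 : (0 : ℝ) < l + 1 := by positivity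
  exact (mul_pos_iff_of_pos_left h7).1 h6

/-- the local data -/
theorem loc_data (hy : NormalModel y) (hn : Algebra.trdeg ℂ K = n) {x : Fin n → K}
    {E0 : Fin n → Derivation ℂ K K} (hx : IsTranscendenceBasis ℂ x)
    (hE0 : ∀ i j, E0 i (x j) = if i = j then 1 else 0) {w : Place ℂ K → ℚ}
    (hw : ∀ P : Place ℂ K, IsPrimeDivisor y P → ∀ (m : ℕ)
      (ω : (Fin n → Derivation ℂ K K) → K) (c : ℚ), IsPluri m ω →
      (OrdGe P ω c ↔ ω E0 = 0 ∨ c - m * w P ≤ (P.ord (ω E0) : ℚ)))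
    {b : Fin n → Derivation ℂ K K} {C0 : Matrix (Fin n) (Fin n) K} (hC0 : C0.det ≠ 0)
    (hb : ∀ k, b k = ∑ j, C0 k j • E0 j) (Δ : Place ℂ K → ℚ) {P : Place ℂ K}
    (hP : IsPrimeDivisor y P) :
    ∃ (E : Fin n → Derivation ℂ K K) (i0 : Fin n) (M C U : Matrix (Fin n) (Fin n) K)
      (nk : Fin n → ℝ), Adapted (Δ P) P E i0 ∧ (E = fun i => ∑ j, M i j • E0 j) ∧ M.det ≠ 0 ∧
      (P.ord M.det : ℚ) = w P ∧ (∀ k, b k = ∑ j, C k j • E j) ∧ C.det ≠ 0 ∧
      (∀ i, U i i = 1) ∧ (∀ i j, i < j → U i j = 0) ∧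
      (∀ k j, GeR P (nk k - nuf (Δ P) i0 j) ((U * C) k j)) ∧
      ∑ k, nk k = P.ord C0.det - w P - Δ P ∧ (FrameAt P E0 → Δ P = 0 → C = C0) := by
  classical
  have hess := hy.ess
  obtain ⟨x', E', i0, hL⟩ := exists_loc hn (hP.divisorial hy hn)
  obtain ⟨h4, h5⟩ := ord_canon hE0 (hw P hP) hL
  have hE' : E' = fun i => ∑ j, (Matrix.of fun i j => E' i (x j)) i j • E0 j := by
    funext i
    exact (Pool.Agent.W73.PG.PULL.expand x hx E0 hE0 (E' i)).symm
  -- the frame
  obtain ⟨E, M, hA, hEM, hM0, hMw, hgood⟩ : ∃ (E : Fin n → Derivation ℂ K K)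
      (M : Matrix (Fin n) (Fin n) K), Adapted (Δ P) P E i0 ∧ (E = fun i => ∑ j, M i j • E0 j) ∧
      M.det ≠ 0 ∧ (P.ord M.det : ℚ) = w P ∧ (FrameAt P E0 → Δ P = 0 → M = 1) := by
    by_cases hg : FrameAt P E0 ∧ Δ P = 0
    · refine ⟨E0, 1, ⟨hg.1, fun h => absurd hg.2 h⟩, ?_, ?_, ?_, fun _ _ => rfl⟩
      · funext i
        rw [Finset.sum_eq_single i]
        · rw [Matrix.one_apply_eq, one_smul]
        · intro j _ hj
          rw [Matrix.one_apply_ne (Ne.symm hj), zero_smul]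
        · intro h
          exact absurd (Finset.mem_univ _) h
      · rw [Matrix.det_one]
        exact one_ne_zero
      · obtain ⟨h6, h7, h8⟩ := det_loc hL hg.1
        have h9 : (Matrix.of fun i j => E0 i (x' j)) * (Matrix.of fun i j => E' i (x j)) = 1 := by
          ext i k
          have h10 : E0 i (x k) = (∑ j, E0 i (x' j) • E' j) (x k) :=
            congrArg (fun D : Derivation ℂ K K => D (x k))
              (Pool.Agent.W73.PG.PULL.expand x' hL.bas E' hL.dual (E0 i)).symm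
          rw [hE0, sum_smul_apply] at h10
          rw [Matrix.mul_apply, Matrix.one_apply, h10]
          rfl
        have h10 : P.ord ((Matrix.of fun i j => E0 i (x' j)) *
            (Matrix.of fun i j => E' i (x j))).det = P.ord (1 : Matrix (Fin n) (Fin n) K).det := by
          rw [h9]
        rw [Matrix.det_mul, P.ord_mul h6 h4, Matrix.det_one, P.ord_one, h7, zero_add] at h10
        rw [Matrix.det_one, P.ord_one, ← h5, h10]
    · refine ⟨E', _, ⟨frameAt_of_loc hL, fun _ j hj => ?_⟩, hE', h4, h5,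
        fun h1 h2 => absurd ⟨h1, h2⟩ hg⟩
      refine Pool.Agent.W619.TW.log_of_pres P _ (hL.pres j) hL.ne hL.unif ?_
      rw [hL.dual, if_neg hj, zero_div]
      exact P.reg_zero
  have hMu : IsUnit M.det := isUnit_iff_ne_zero.2 hM0
  obtain ⟨C, hC⟩ : ∃ C, C = C0 * M⁻¹ := ⟨_, rfl⟩
  have hCM : C * M = C0 := by
    rw [hC, Matrix.mul_assoc, Matrix.nonsing_inv_mul M hMu, Matrix.mul_one]
  have hCd : C.det ≠ 0 := left_ne_zero_of_mul (b := M.det) (by
    rw [← Matrix.det_mul, hCM]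
    exact hC0)
  have hCo : P.ord C.det = P.ord C0.det - P.ord M.det := by
    have : P.ord (C * M).det = P.ord C0.det := by rw [hCM]
    rw [Matrix.det_mul, P.ord_mul hCd hM0] at this
    omega
  obtain ⟨U, nk, h1, h2, h3, h6⟩ := qr P n (nuf (Δ P) i0) C hCd
  refine ⟨E, i0, M, C, U, nk, hA, hEM, hM0, hMw, fun k => ?_, hCd, h1, h2, h3, ?_,
    fun hg hδ => ?_⟩
  · rw [hb k, hEM, ← hCM]
    simp only [Finset.smul_sum, smul_smul]
    rw [Finset.sum_comm]
    refine Finset.sum_congr rfl fun j _ => ?_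
    rw [← Finset.sum_smul, Matrix.mul_apply]
  · rw [h6, sum_nuf', hCo, ← hMw]
    push_cast
    ring
  · rw [← hCM, hgood hg hδ, Matrix.mul_one]

end

end Pool.Agent.H897
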