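import Pool.Graph.R_pool_sql_team_seeded_3dad9d7b.NH31.M10

/-!
Systems of sections which generate a divisor along the generic fibre of their own rational map.
-/

set_option autoImplicit false
set_option linter.overlappingInstances false
set_option linter.unusedSectionVars false

open FF Pool.Agent.W602.GT Pool.Agent.Y172 Pool.Agent.NH31 Pool.Agent.W603.LV

namespace Pool.Agent.H897

section

variable {K : Type} [Field K] [Algebra ℂ K] {N n : ℕ} {y : Fin (N + 1) → K}

/-- the quotients of elements of the same degree -/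
def ratios (𝒮 : ℕ → Set K) : Set K :=
  {x | ∃ (d : ℕ) (g g' : K), 1 ≤ d ∧ g ∈ 𝒮 d ∧ g' ∈ 𝒮 d ∧ g' ≠ 0 ∧ x = g / g'}

/-- `g`, a section of `d U`, generates `d U` at the centre of `Q` -/
def GenAt (y : Fin (N + 1) → K) (U : Place ℂ K → ℚ) (Q : Place ℂ K) (d : ℕ) (g : K) : Prop :=
  g ≠ 0 ∧ ∀ P, IsPrimeDivisor y P → Through y P Q → (P.ord g : ℚ) = -(d * U P)

theorem tb_of_le {κ : ℕ} {z : Fin κ → K} {F : IntermediateField ℂ K} (hzF : ∀ i, z i ∈ F)
    (hz : AlgebraicIndependent ℂ z) (hle : F ≤ acl ℂ (Set.range z)) :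
    IsTranscendenceBasis ℂ (fun i => (⟨z i, hzF i⟩ : F)) := by
  classical
  have hz' : AlgebraicIndependent ℂ (fun i => (⟨z i, hzF i⟩ : F)) := by
    rw [← F.val.algebraicIndependent_iff F.val.injective]
    exact hz
  rw [hz'.isTranscendenceBasis_iff_isAlgebraic]
  constructor
  intro x
  have h1 := hle x.2
  rw [mem_acl, IntermediateField.isAlgebraic_adjoin_iff] at h1
  obtain ⟨p, hp0, hp⟩ := h1
  -- transport of the polynomial
  let A := Algebra.adjoin ℂ (Set.range z)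
  let B := Algebra.adjoin ℂ (Set.range fun i => (⟨z i, hzF i⟩ : F))
  have hmap : B.map F.val = A := by
    rw [AlgHom.map_adjoin]
    congr 1
    ext w
    constructor
    · rintro ⟨_, ⟨i, rfl⟩, rfl⟩
      exact ⟨i, rfl⟩
    · rintro ⟨i, rfl⟩
      exact ⟨_, ⟨i, rfl⟩, rfl⟩
  have hlift : ∀ a : A, ∃ b : B, ((b : F) : K) = (a : K) := by
    intro a
    have h2 : (a : K) ∈ B.map F.val := by rw [hmap]; exact a.2
    obtain ⟨b, hb, hb'⟩ := h2
    exact ⟨⟨b, hb⟩, hb'⟩
  choose g hg using hlift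
  refine ⟨∑ i ∈ p.support, Polynomial.monomial i (g (p.coeff i)), ?_, ?_⟩
  · intro h0
    apply hp0
    ext i
    have h2 := congrArg (fun q => Polynomial.coeff q i) h0
    simp only [Polynomial.finsetSum_coeff, Polynomial.coeff_monomial, Finset.sum_ite_eq',
      Polynomial.coeff_zero] at h2
    by_cases hi : i ∈ p.support
    · rw [if_pos hi] at h2
      have h3 := hg (p.coeff i)
      rw [h2] at h3
      rw [Polynomial.coeff_zero]
      exact h3.symm
    · rw [Polynomial.notMem_support_iff.1 hi, Polynomial.coeff_zero]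
  · apply F.val.injective
    rw [map_zero, map_sum, map_sum, ← hp, Polynomial.aeval_def, Polynomial.eval₂_eq_sum,
      Polynomial.sum_def]
    refine Finset.sum_congr rfl fun i _ => ?_
    rw [Polynomial.aeval_monomial, map_mul, map_pow]
    congr 1
    exact hg (p.coeff i)

/-- a system of sections of the multiples of `U`, closed under products -/
structure Sys (y : Fin (N + 1) → K) (U : Place ℂ K → ℚ) (𝒮 : ℕ → Set K) : Prop where
  sec : ∀ d, 1 ≤ d → ∀ g ∈ 𝒮 d, Fn y (d • U) g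
  mul : ∀ d d', 1 ≤ d → 1 ≤ d' → ∀ g ∈ 𝒮 d, ∀ g' ∈ 𝒮 d', g * g' ∈ 𝒮 (d + d')

theorem Sys.pow {U : Place ℂ K → ℚ} {𝒮 : ℕ → Set K} (h : Sys y U 𝒮) {d : ℕ} (hd : 1 ≤ d) {g : K}
    (hg : g ∈ 𝒮 d) (l : ℕ) (hl : 1 ≤ l) : g ^ l ∈ 𝒮 (l * d) := by
  induction l, hl using Nat.le_induction with
  | base => simpa using hg
  | succ l hl ih =>
    have h1 := h.mul (l * d) d (Nat.mul_pos hl hd) hd _ ih _ hg
    rw [pow_succ, Nat.succ_mul]
    exact h1

/-- a nonzero section generates the divisor wherever another one does, if their quotients are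
constants -/
theorem Sys.gen {U : Place ℂ K → ℚ} {𝒮 : ℕ → Set K} (hy : NormalModel y) (h : Sys y U 𝒮)
    {Q : Place ℂ K} (hQ : Horizontal (IntermediateField.adjoin ℂ (ratios 𝒮)) Q) {d : ℕ}
    (hd : 1 ≤ d) {g : K} (hg : g ∈ 𝒮 d) (hgen : GenAt y U Q d g) {d' : ℕ} (hd' : 1 ≤ d') {g' : K}
    (hg' : g' ∈ 𝒮 d') (hg0 : g' ≠ 0) : GenAt y U Q d' g' := by
  obtain ⟨hg00, hP⟩ := hgen
  obtain ⟨x, hx⟩ : ∃ x, x = g' ^ d / g ^ d' := ⟨_, rfl⟩
  have h1 : g' ^ d ∈ 𝒮 (d * d') := h.pow hd' hg' d hd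
  have h2 : g ^ d' ∈ 𝒮 (d * d') := by
    rw [mul_comm]
    exact h.pow hd hg d' hd'
  have hx0 : x ≠ 0 := by
    rw [hx]
    exact div_ne_zero (pow_ne_zero _ hg0) (pow_ne_zero _ hg00)
  have hxQ : Q.ord x = 0 := hQ x (IntermediateField.subset_adjoin ℂ _
    ⟨d * d', _, _, Nat.mul_pos hd hd', h1, h2, pow_ne_zero _ hg00, hx⟩) hx0
  have hord : ∀ P : Place ℂ K, P.ord x = d * P.ord g' - d' * P.ord g := by
    intro P
    rw [hx, P.ord_div (pow_ne_zero _ hg0) (pow_ne_zero _ hg00), P.ord_pow, P.ord_pow]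
  have hxl : x ∈ localRing y Q := mem_localRing_of_reg hy fun P hP' hPQ => by
    rw [P.reg_iff hx0, hord]
    have h3 := hP P hP' hPQ
    have h4 := ((h.sec _ (Nat.mul_pos hd hd') _ h1) P hP').resolve_left (pow_ne_zero _ hg0)
    rw [smul_ap, P.ord_pow] at h4
    push_cast at h4
    have h5 : (0 : ℚ) ≤ ((d * P.ord g' - d' * P.ord g : ℤ) : ℚ) := by
      push_cast
      rw [h3]
      nlinarith
    exact_mod_cast h5
  have hxi := inv_mem_localRing hxl hx0 hxQ
  refine ⟨hg0, fun P hP' hPQ => ?_⟩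
  have h3 := hP P hP' hPQ
  have h4 := (P.reg_iff hx0).1 (hPQ x hxl)
  have h5 := (P.reg_iff (inv_ne_zero hx0)).1 (hPQ _ hxi)
  rw [P.ord_inv] at h5
  have h6 : P.ord x = 0 := by omega
  rw [hord] at h6
  have h7 : (d : ℚ) * P.ord g' = d' * P.ord g := by
    have h8 : (d : ℤ) * P.ord g' = d' * P.ord g := by linarith
    exact_mod_cast h8
  rw [h3] at h7
  have hd0 : (d : ℚ) ≠ 0 := by
    have : d ≠ 0 := by omega
    exact_mod_cast this
  have h8 : (d : ℚ) * (P.ord g' : ℚ) = d * (-(d' * U P)) := by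
    rw [h7]
    ring
  exact mul_left_cancel₀ hd0 h8

/-- **Abundance for divisors which are generated by sections along the generic fibre of the
rational map defined by these sections.** -/
theorem Sys.abund {U : Place ℂ K → ℚ} {𝒮 : ℕ → Set K} (hy : NormalModel y)
    (hn : Algebra.trdeg ℂ K = n) (hU : FinSup y U) (h : Sys y U 𝒮) {d0 : ℕ} (hd0 : 1 ≤ d0) {σ : K}
    (hσ : σ ∈ 𝒮 d0) (hσ0 : σ ≠ 0)
    (hgen : ∀ Q : Place ℂ K, Horizontal (IntermediateField.adjoin ℂ (ratios 𝒮)) Q →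
      ∃ d, 1 ≤ d ∧ ∃ g ∈ 𝒮 d, GenAt y U Q d g) :
    ∃ κ : ℕ, Algebra.trdeg ℂ (IntermediateField.adjoin ℂ (ratios 𝒮)) = κ ∧
      ∃ (m0 : ℕ) (g : Fin (κ + 1) → K), 1 ≤ m0 ∧ (∀ j, g j ∈ 𝒮 m0) ∧ g 0 ≠ 0 ∧
        AlgebraicIndependent ℂ (fun i : Fin κ => g i.succ / g 0) ∧
        ∀ A, FinSup y A → ∃ C : ℕ, ∀ m : ℕ, 1 ≤ m → ∀ (r : ℕ) (f : Fin r → K),
          LinearIndependent ℂ f → (∀ i, Fn y (m • U + A) (f i)) → r ≤ C * m ^ κ := by
  classical
  obtain ⟨κ, z, hzS, hz, hmax⟩ := exists_max hn (ratios 𝒮)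
  have hle : IntermediateField.adjoin ℂ (ratios 𝒮) ≤ acl ℂ (Set.range z) := by
    rw [IntermediateField.adjoin_le_iff]
    exact hmax
  have htr : Algebra.trdeg ℂ (IntermediateField.adjoin ℂ (ratios 𝒮)) = κ := by
    have h1 := (tb_of_le (F := IntermediateField.adjoin ℂ (ratios 𝒮))
      (fun i => IntermediateField.subset_adjoin ℂ _ (hzS i)) hz hle).cardinalMk_eq_trdeg
    rw [← h1]
    simp
  refine ⟨κ, htr, ?_⟩
  choose m f g hm hf hg hg0 hzf using hzS
  -- the sections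
  have hprod : ∀ s : Finset (Fin κ), σ * ∏ i ∈ s, g i ∈ 𝒮 (d0 + ∑ i ∈ s, m i) := by
    intro s
    induction s using Finset.induction_on with
    | empty => simpa using hσ
    | insert a s ha ih =>
      rw [Finset.sum_insert ha, Finset.prod_insert ha]
      have h1 := h.mul _ _ (by omega) (hm a) _ ih _ (hg a)
      have e1 : d0 + ∑ i ∈ s, m i + m a = d0 + (m a + ∑ i ∈ s, m i) := by ring
      have e2 : (σ * ∏ i ∈ s, g i) * g a = σ * (g a * ∏ i ∈ s, g i) := by ring
      rw [e1, e2] at h1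
      exact h1
  obtain ⟨hh, hhdef⟩ : ∃ hh, hh = σ * ∏ i, g i := ⟨_, rfl⟩
  have hh0 : hh ≠ 0 := by
    rw [hhdef]
    exact mul_ne_zero hσ0 (Finset.prod_ne_zero_iff.2 fun i _ => hg0 i)
  refine ⟨d0 + ∑ i, m i, Fin.cons hh fun i => z i * hh, by omega, fun j => ?_, ?_, ?_, ?_⟩
  · refine Fin.cases ?_ (fun i => ?_) j
    · rw [Fin.cons_zero, hhdef]
      exact hprod _
    · rw [Fin.cons_succ]
      have h1 : z i * hh = (σ * ∏ j ∈ Finset.univ.erase i, g j) * f i := by
        rw [hhdef, hzf i, ← Finset.mul_prod_erase Finset.univ g (Finset.mem_univ i)]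
        field_simp [hg0 i]
      have h2 : d0 + ∑ i, m i = (d0 + ∑ j ∈ Finset.univ.erase i, m j) + m i := by
        rw [← Finset.add_sum_erase _ m (Finset.mem_univ i)]
        ring
      rw [h1, h2]
      exact h.mul _ _ (by omega) (hm i) _ (hprod _) _ (hf i)
  · rw [Fin.cons_zero]
    exact hh0
  · have h1 : (fun i : Fin κ => (Fin.cons hh fun i => z i * hh : Fin (κ + 1) → K) i.succ /
        (Fin.cons hh fun i => z i * hh : Fin (κ + 1) → K) 0) = z := by
      funext i
      rw [Fin.cons_zero, Fin.cons_succ, mul_div_assoc, div_self hh0, mul_one]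
    rw [h1]
    exact hz
  -- the growth
  intro A hA
  let M : IntermediateField ℂ K := acl ℂ (Set.range z)
  have hess := hy.ess
  have hessM : Algebra.EssFiniteType M K := Algebra.EssFiniteType.of_comp ℂ M K
  have hcM : CharZero M := charZero_of_injective_algebraMap (algebraMap ℂ M).injective
  have hu := tb_of_le (F := M) (fun i => subset_acl _ (Set.mem_range_self i)) hz le_rfl
  obtain ⟨l, v, hv⟩ := exists_tb M K
  obtain ⟨c, hcdef⟩ : ∃ c : Place ℂ K → ℕ, c = fun P => d0 * bnd U P + bnd A P := ⟨_, rfl⟩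
  have hc : {P | IsPrimeDivisor y P ∧ c P ≠ 0}.Finite := by
    refine ((bnd_sup hU).union (bnd_sup hA)).subset ?_
    rintro P ⟨hP, hne⟩
    by_contra hcon
    rw [Set.mem_union] at hcon
    push Not at hcon
    have h1 : bnd U P = 0 := by
      by_contra h3
      exact hcon.1 ⟨hP, h3⟩
    have h2 : bnd A P = 0 := by
      by_contra h3
      exact hcon.2 ⟨hP, h3⟩
    exact hne (by rw [hcdef]; simp [h1, h2])
  choose s hsc hs0 hsf using fun j => fn_chart' hy hc j
  -- the space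
  obtain ⟨τ, w, hw⟩ := fin_dim (F := M) (K := K) (Finset.univ.image fun j => (s j)⁻¹)
    {x | ∃ (q ρ : ℕ) (f : K), ρ ≤ d0 ∧ Fn y ((d0 * q + ρ) • U + A) f ∧ x = f / σ ^ q} (by
      rintro P x ⟨q, ρ, f, hρ, hf, hx⟩
      have hQh : Horizontal (IntermediateField.adjoin ℂ (ratios 𝒮)) (restr (k := ℂ) P) :=
        fun a ha ha0 => restr_horizontal (F := M) P a (hle ha) ha0
      obtain ⟨d, hd, g, hg, hgg⟩ := hgen _ hQh
      have hσg := h.gen hy hQh hd hg hgg hd0 hσ hσ0
      obtain ⟨j, hj⟩ := exists_centred hy (restr (k := ℂ) P)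
      refine ⟨(s j)⁻¹, Finset.mem_image_of_mem _ (Finset.mem_univ j), ?_⟩
      by_cases hx0 : x = 0
      · exact Or.inl hx0
      right
      have hf0 : f ≠ 0 := by
        rintro rfl
        exact hx0 (by rw [hx, zero_div])
      have h1 := hsf j 1 x _ hj (by
        intro P' hP' hPQ
        right
        have h2 := (hf P' hP').resolve_left hf0
        have h3 := hσg.2 P' hP' hPQ
        have h4 : P'.ord x = P'.ord f - q * P'.ord σ := by
          rw [hx, P'.ord_div hf0 (pow_ne_zero _ hσ0), P'.ord_pow]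
        rw [Pi.add_apply, smul_ap] at h2
        push_cast at h2
        have h5 : |U P'| ≤ bnd U P' := Nat.le_ceil _
        have h6 := le_bnd A P'
        have h7 : (ρ : ℚ) * U P' ≤ d0 * bnd U P' := by
          have h8 : (ρ : ℚ) ≤ d0 := by exact_mod_cast hρ
          calc (ρ : ℚ) * U P' ≤ ρ * |U P'| :=
                mul_le_mul_of_nonneg_left (le_abs_self _) (Nat.cast_nonneg _)
            _ ≤ d0 * bnd U P' := mul_le_mul h8 h5 (abs_nonneg _) (Nat.cast_nonneg _)
        have h9 : (-((1 * c P' : ℕ) : ℤ) : ℚ) ≤ ((P'.ord x : ℤ) : ℚ) := by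
          rw [h4, hcdef]
          push_cast
          rw [h3]
          nlinarith
        exact_mod_cast h9)
      rw [pow_one] at h1
      have h3 : P.Reg (x * s j) := localRing_reg h1
      rw [P.reg_iff (mul_ne_zero hx0 (hs0 j)), P.ord_mul hx0 (hs0 j)] at h3
      rw [P.ord_inv]
      linarith)
  obtain ⟨C, hC⟩ := fn_rank_growth hy hu hv hU hA (fun _ => τ) (by
    intro m hm r g' hg' hfn
    obtain ⟨q, hq⟩ : ∃ q, q = m / d0 := ⟨_, rfl⟩
    obtain ⟨ρ, hρ⟩ : ∃ ρ, ρ = m % d0 := ⟨_, rfl⟩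
    have hm' : m = d0 * q + ρ := by
      rw [hq, hρ]
      exact (Nat.div_add_mod m d0).symm
    have hρ1 : ρ ≤ d0 := by
      rw [hρ]
      exact (Nat.mod_lt m (by omega)).le
    have h1 : LinearIndependent M fun i => (σ ^ q)⁻¹ * g' i :=
      hg'.map' (LinearMap.mulLeft M (σ ^ q)⁻¹) (LinearMap.ker_eq_bot.2
        (mul_right_injective₀ (inv_ne_zero (pow_ne_zero _ hσ0))))
    have h2 : ∀ i, (σ ^ q)⁻¹ * g' i ∈ Submodule.span M (Set.range w) := fun i =>
      hw _ ⟨q, ρ, g' i, hρ1, by rw [← hm']; exact hfn i, by rw [div_eq_inv_mul]⟩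
    have h3 : LinearIndependent M
        (fun i => (⟨_, h2 i⟩ : Submodule.span M (Set.range w))) :=
      LinearIndependent.of_comp (Submodule.span M (Set.range w)).subtype h1
    have : Module.Finite M (Submodule.span M (Set.range w)) :=
      FiniteDimensional.span_of_finite M (Set.finite_range w)
    have h4 := h3.fintype_card_le_finrank
    rw [Fintype.card_fin] at h4
    have h5 := finrank_range_le_card (R := M) (b := w)
    rw [Fintype.card_fin] at h5
    exact h4.trans h5)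
  exact ⟨C * τ, fun m hm r f hf hfn => hC m hm r f hf hfn⟩

end

end Pool.Agent.H897
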