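import Pool.Graph.R_pool_sql_team_seeded_3dad9d7b.NH31.M10
import Pool.Graph.R_pool_sql_team_seeded_63374d34.N133.TB.HomdM
import Pool.Graph.R_pool_sql_team_seeded_63374d34.N133.TB.At

/-!
Twisted invariants of tensors, and semistability.
-/

set_option autoImplicit false
set_option linter.overlappingInstances false
set_option linter.unusedSectionVars false

open MvPolynomial FF Pool.Agent.N133.TB

namespace Pool.Agent.H897

section

variable {ι : Type} {n : ℕ} {m : ι → ℕ}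

/-- semistability (Hilbert-Mumford): no one-parameter subgroup of the special linear group has only
positive weights on `t` -/
def SemistableFam {L : Type} [Field L] (t : Fam m n L) : Prop :=
  ∀ A : Matrix (Fin n) (Fin n) L, A.det ≠ 0 → ∀ w : Fin n → ℤ, ∑ i, w i = 0 →
    ∃ (i : ι) (J : Fin (m i) → Fin n), ∑ s, w (J s) ≤ 0 ∧ act A t i J ≠ 0

/-- the action of `GL n` on the tensors with values in powers of the determinant -/
noncomputable def twact {L : Type} [Field L] (a : ι → ℤ) (A : Matrix (Fin n) (Fin n) L)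
    (t : Fam m n L) : Fam m n L := fun i J => A.det ^ a i * act A t i J

/-- `Q` is a twisted semi-invariant of weight `d` -/
def TwInv (m : ι → ℕ) (n : ℕ) (a : ι → ℤ) (d : ℕ) (Q : MvPolynomial (Ix m n) ℂ) : Prop :=
  ∀ (L : Type) [Field L] [Algebra ℂ L] (A : Matrix (Fin n) (Fin n) L) (t : Fam m n L),
    A.det ≠ 0 → aeval (pt (twact a A t)) Q = A.det ^ d * aeval (pt t) Q

theorem TwInv.mul {a : ι → ℤ} {d d' : ℕ} {Q Q' : MvPolynomial (Ix m n) ℂ} (h : TwInv m n a d Q)
    (h' : TwInv m n a d' Q') : TwInv m n a (d + d') (Q * Q') := by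
  intro L _ _ A t hA
  rw [map_mul, map_mul, h L A t hA, h' L A t hA, pow_add]
  ring

theorem scal_act {L : Type} [Field L] (c : L) (A : Matrix (Fin n) (Fin n) L) (t : Fam m n L) (i : ι)
    (J : Fin (m i) → Fin n) : act (c • A) t i J = c ^ m i * act A t i J := by
  have h1 : c • A = (c • (1 : Matrix (Fin n) (Fin n) L)) * A := by
    rw [Matrix.smul_mul, Matrix.one_mul]
  rw [h1, act_mul, act_smul_one]

theorem sum_cnt [Fintype (Ix m n)] (x : Ix m n) : ∑ i0 : Fin n, Sec.cnt i0 x = m x.1 := by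
  classical
  unfold Sec.cnt
  rw [← Finset.card_eq_sum_card_fiberwise (f := fun s => x.2 s) (s := Finset.univ)
    (t := Finset.univ) (by intro s _; simp)]
  simp

/-- **Existence of twisted invariants.** -/
theorem exists_twinv {L : Type} [Field L] [Algebra ℂ L] [IsAlgClosed L] [Finite ι] (hn1 : 1 ≤ n)
    (hm : ∀ i, 1 ≤ m i) {a : ι → ℤ} (ha : ∀ i, 1 ≤ (m i : ℤ) + n * a i) {t : Fam m n L}
    (ht : SemistableFam t) : ∃ d : ℕ, 1 ≤ d ∧ ∃ Q, TwInv m n a d Q ∧ aeval (pt t) Q ≠ 0 := by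
  classical
  have : Fintype ι := Fintype.ofFinite ι
  have : Fintype (Ix m n) := Fintype.ofFinite _
  obtain ⟨W, Q, hW, hQ, hQ0⟩ : ∃ (W : ℕ) (Q : MvPolynomial (Ix m n) ℂ), 1 ≤ W ∧
      SemiInv ℂ m n W Q ∧ aeval (pt t) Q ≠ 0 := by
    by_contra hcon
    push Not at hcon
    obtain ⟨A, w, hA, hw, hJ⟩ := alg_null (k := ℂ) t_sep' t_hm' hn1 hm (t := t) hcon
    obtain ⟨i, J, h1, h2⟩ := ht A hA w hw
    exact h2 (hJ i J h1)
  obtain ⟨N, hN⟩ : ∃ N : ℕ, ∀ i, 0 ≤ a i + N * m i := by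
    refine ⟨∑ i, (a i).natAbs, fun i => ?_⟩
    have h1 : (a i).natAbs ≤ ∑ i, (a i).natAbs :=
      Finset.single_le_sum (f := fun i => (a i).natAbs) (fun i _ => Nat.zero_le _)
        (Finset.mem_univ i)
    have h2 : ((a i).natAbs : ℤ) ≤ ((∑ i, (a i).natAbs : ℕ) : ℤ) := by exact_mod_cast h1
    have h3 : (1 : ℤ) ≤ m i := by exact_mod_cast hm i
    have h4 : -(a i) ≤ (a i).natAbs := by omega
    have h5 : (0 : ℤ) ≤ ((∑ i, (a i).natAbs : ℕ) : ℤ) := Int.natCast_nonneg _
    nlinarith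
  choose b hb using fun i => Int.eq_ofNat_of_zero_le (hN i)
  -- a weighted homogeneous component
  obtain ⟨e, he0⟩ : ∃ e, aeval (pt t)
      (weightedHomogeneousComponent (fun x : Ix m n => b x.1) e Q) ≠ 0 := by
    by_contra hcon
    push Not at hcon
    apply hQ0
    have hfin : (Function.support fun e =>
        weightedHomogeneousComponent (fun x : Ix m n => b x.1) e Q).Finite :=
      weightedHomogeneousComponent_finsupp Q
    have hsum : Q = ∑ e ∈ hfin.toFinset,
        weightedHomogeneousComponent (fun x : Ix m n => b x.1) e Q := by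
      rw [← finsum_eq_sum_of_support_subset _ (s := hfin.toFinset) (by simp)]
      exact (sum_weightedHomogeneousComponent _ Q).symm
    rw [hsum, map_sum]
    exact Finset.sum_eq_zero fun e _ => hcon e
  obtain ⟨P, hP⟩ : ∃ P, P = weightedHomogeneousComponent (fun x : Ix m n => b x.1) e Q := ⟨_, rfl⟩
  rw [← hP] at he0
  have hPs : SemiInv ℂ m n W P := by
    rw [hP]
    exact my_homd ℂ ι m n W Q b e hQ
  have hPh : IsWeightedHomogeneous (fun x : Ix m n => b x.1) P e := by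
    rw [hP]
    exact weightedHomogeneousComponent_isWeightedHomogeneous e Q
  have hP0 : P ≠ 0 := by
    rintro rfl
    exact he0 (map_zero _)
  -- the weight
  obtain ⟨μ, hμ⟩ : ∃ μ, μ ∈ P.support := by
    by_contra hcon
    push Not at hcon
    exact hP0 (support_eq_empty.1 (Finset.eq_empty_of_forall_notMem hcon))
  have hcnt : ∀ i0 : Fin n, ∑ x, μ x * Sec.cnt i0 x = W := fun i0 => Sec.weight i0 hPs hμ
  have hnW : ∑ x, (μ x : ℤ) * m x.1 = n * W := by
    have h1 : ∑ i0 : Fin n, ∑ x, μ x * Sec.cnt i0 x = n * W := by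
      rw [Finset.sum_congr rfl fun i0 _ => hcnt i0]
      simp
    rw [Finset.sum_comm] at h1
    have h2 : ∑ x, μ x * m x.1 = n * W := by
      rw [← h1]
      refine Finset.sum_congr rfl fun x _ => ?_
      rw [← Finset.mul_sum, sum_cnt]
    exact_mod_cast h2
  have heb : (e : ℤ) = ∑ x, (μ x : ℤ) * (a x.1 + N * m x.1) := by
    have h1 := hPh (mem_support_iff.1 hμ)
    rw [Finsupp.weight_apply, Finsupp.sum_fintype _ _ (by simp)] at h1
    have h2 : ∑ x, (μ x : ℤ) * (b x.1 : ℤ) = e := by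
      have h3 : ∑ x, μ x * b x.1 = e := by
        rw [← h1]
        exact Finset.sum_congr rfl fun x _ => by rw [smul_eq_mul]
      exact_mod_cast h3
    rw [← h2]
    refine Finset.sum_congr rfl fun x _ => ?_
    rw [hb x.1]

  have hea : (e : ℤ) + W - N * (n * W) = W + ∑ x, (μ x : ℤ) * a x.1 := by
    rw [heb, ← hnW, Finset.mul_sum]
    have h1 : ∑ x, (μ x : ℤ) * (a x.1 + N * m x.1) =
        ∑ x, (μ x : ℤ) * a x.1 + ∑ x, (N : ℤ) * ((μ x : ℤ) * m x.1) := by
      rw [← Finset.sum_add_distrib]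
      exact Finset.sum_congr rfl fun x _ => by ring
    rw [h1]
    ring
  have hμ0 : ∃ x, μ x ≠ 0 := by
    by_contra hcon
    push Not at hcon
    have h1 := hnW
    rw [Finset.sum_eq_zero (fun x _ => by rw [hcon x]; simp)] at h1
    have h2 : 0 < (n : ℤ) * W := by
      have h3 : 0 < n * W := Nat.mul_pos hn1 hW
      exact_mod_cast h3
    omega
  have hpos : 1 ≤ (e : ℤ) + W - N * (n * W) := by
    have h1 : (n : ℤ) * (W + ∑ x, (μ x : ℤ) * a x.1) =
        ∑ x, (μ x : ℤ) * (m x.1 + n * a x.1) := by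
      rw [mul_add, ← hnW, Finset.mul_sum, ← Finset.sum_add_distrib]
      exact Finset.sum_congr rfl fun x _ => by ring
    have h2 : 1 ≤ ∑ x, (μ x : ℤ) * (m x.1 + n * a x.1) := by
      obtain ⟨x, hx⟩ := hμ0
      have h3 : ∀ x, 0 ≤ (μ x : ℤ) * (m x.1 + n * a x.1) := fun x =>
        mul_nonneg (Int.natCast_nonneg _) (by have := ha x.1; omega)
      have h4 : (μ x : ℤ) * (m x.1 + n * a x.1) ≤ ∑ x, (μ x : ℤ) * (m x.1 + n * a x.1) :=
        Finset.single_le_sum (f := fun x => (μ x : ℤ) * (m x.1 + n * a x.1)) (fun x _ => h3 x)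
          (Finset.mem_univ x)
      have h5 : (1 : ℤ) ≤ μ x := by
        have h6 : 1 ≤ μ x := Nat.one_le_iff_ne_zero.2 hx
        exact_mod_cast h6
      have h7 := ha x.1
      nlinarith
    rw [hea]
    by_contra hcon
    push Not at hcon
    have h3 : (n : ℤ) * (W + ∑ x, (μ x : ℤ) * a x.1) ≤ 0 :=
      mul_nonpos_of_nonneg_of_nonpos (Int.natCast_nonneg _) (by omega)
    omega
  obtain ⟨d, hd⟩ := Int.eq_ofNat_of_zero_le (show 0 ≤ (e : ℤ) + W - N * (n * W) by omega)
  refine ⟨d, by omega, P, ?_, he0⟩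
  intro L' _ _ A t' hA
  have h1 : twact a A t' = fun i J => A.det ^ b i * act ((A.det ^ N)⁻¹ • A) t' i J := by
    funext i J
    rw [twact, scal_act, ← mul_assoc]
    congr 1
    have h2 : a i = (b i : ℤ) - (N * m i : ℕ) := by
      have := hb i
      push_cast
      have h3 : ((b i : ℕ) : ℤ) = a i + N * m i := this.symm
      linarith
    rw [h2, zpow_sub₀ hA, zpow_natCast, zpow_natCast, inv_pow, ← pow_mul, div_eq_mul_inv]
  rw [h1, aeval_scale b _ _ hPh, hPs L', Matrix.det_smul, Fintype.card_fin, mul_pow, ← mul_assoc,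
    ← mul_assoc]
  congr 1
  have h3 : e + W = d + N * (n * W) := by
    have h4 : (e : ℤ) + W = d + N * (n * W) := by
      have h5 : ((d : ℕ) : ℤ) = (e : ℤ) + W - N * (n * W) := hd.symm
      linarith
    exact_mod_cast h4
  have h4 : A.det ^ (N * (n * W)) ≠ 0 := pow_ne_zero _ hA
  have h5 : (((A.det ^ N)⁻¹ ^ n) ^ W) = (A.det ^ (N * (n * W)))⁻¹ := by
    rw [← pow_mul, inv_pow, ← pow_mul]
  rw [h5, mul_assoc, mul_comm _ (A.det ^ W), ← mul_assoc, ← pow_add, h3, pow_add, mul_assoc,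
    mul_inv_cancel₀ h4, mul_one]

theorem TwInv.pow {a : ι → ℤ} {d : ℕ} {Q : MvPolynomial (Ix m n) ℂ} (h : TwInv m n a d Q)
    (l : ℕ) : TwInv m n a (l * d) (Q ^ l) := by
  intro L _ _ A t hA
  rw [map_pow, map_pow, h L A t hA, mul_pow, ← pow_mul, mul_comm l d]

/-- finitely many twisted invariants, of the same weight, are enough -/
theorem exists_twinv_fin [Finite ι] (hn1 : 1 ≤ n) (hm : ∀ i, 1 ≤ m i) {a : ι → ℤ}
    (ha : ∀ i, 1 ≤ (m i : ℤ) + n * a i) : ∃ d : ℕ, 1 ≤ d ∧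
      ∃ s : Finset (MvPolynomial (Ix m n) ℂ), (∀ Q ∈ s, TwInv m n a d Q) ∧
        ∀ (L : Type) [Field L] [Algebra ℂ L] [IsAlgClosed L] (t : Fam m n L), SemistableFam t →
          ∃ Q ∈ s, aeval (pt t) Q ≠ 0 := by
  classical
  obtain ⟨S, hS⟩ : ∃ S : Set (MvPolynomial (Ix m n) ℂ),
    S = {Q | ∃ d : ℕ, 1 ≤ d ∧ TwInv m n a d Q} := ⟨_, rfl⟩
  have hfg : (Submodule.span (MvPolynomial (Ix m n) ℂ) S).FG := IsNoetherian.noetherian _
  obtain ⟨s, hsS, hs⟩ := Submodule.fg_span_iff_fg_span_finset_subset S |>.1 hfg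
  have hd : ∀ Q : MvPolynomial (Ix m n) ℂ, ∃ d : ℕ, 1 ≤ d ∧ (Q ∈ s → TwInv m n a d Q) := by
    intro Q
    by_cases hQ : Q ∈ s
    · have h1 : Q ∈ S := hsS hQ
      rw [hS] at h1
      obtain ⟨d, hd, h2⟩ := h1
      exact ⟨d, hd, fun _ => h2⟩
    · exact ⟨1, le_rfl, fun h => absurd h hQ⟩
  choose d hd1 hd using hd
  obtain ⟨D, hD⟩ : ∃ D, D = ∏ Q ∈ s, d Q := ⟨_, rfl⟩
  have hD1 : 1 ≤ D := by
    rw [hD]
    exact Finset.one_le_prod' fun Q _ => hd1 Q
  have hdvd : ∀ Q ∈ s, d Q ∣ D := fun Q hQ => by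
    rw [hD]
    exact Finset.dvd_prod_of_mem d hQ
  refine ⟨D, hD1, s.image fun Q => Q ^ (D / d Q), fun P hP => ?_, fun L _ _ _ t ht => ?_⟩
  · obtain ⟨Q, hQ, rfl⟩ := Finset.mem_image.1 hP
    have h1 := (hd Q hQ).pow (D / d Q)
    rwa [Nat.div_mul_cancel (hdvd Q hQ)] at h1
  · by_contra hcon
    push Not at hcon
    have h1 : ∀ Q ∈ s, aeval (pt t) Q = 0 := by
      intro Q hQ
      have h2 := hcon _ (Finset.mem_image_of_mem _ hQ)
      rw [map_pow] at h2
      exact eq_zero_of_pow_eq_zero h2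
    have h2 : ∀ Q ∈ Submodule.span (MvPolynomial (Ix m n) ℂ) S, aeval (pt t) Q = 0 := by
      intro Q hQ
      rw [hs] at hQ
      induction hQ using Submodule.span_induction with
      | mem x hx => exact h1 x hx
      | zero => exact map_zero _
      | add x z _ _ hx hz => rw [map_add, hx, hz, add_zero]
      | smul c x _ hx => rw [smul_eq_mul, map_mul, hx, mul_zero]
    obtain ⟨e, he, Q, hQ, hQ0⟩ := exists_twinv hn1 hm ha ht
    refine hQ0 (h2 Q (Submodule.subset_span ?_))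
    rw [hS]
    exact ⟨e, he, hQ⟩

end

end Pool.Agent.H897
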