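import Pool.Agent.H897.TS

/-!
Abundance for varieties with semistable tensors.
-/

set_option autoImplicit false
set_option linter.overlappingInstances false
set_option linter.unusedSectionVars false

open MvPolynomial FF Pool.Agent.W602.GT Pool.Agent.Y172 Pool.Agent.NH31 Pool.Agent.W603.LV
open Pool.Agent.N133.TB

namespace Pool.Agent.H897

section

variable {K : Type} [Field K] [Algebra ℂ K] {N n : ℕ} {y : Fin (N + 1) → K}
variable {ι : Type} {m : ι → ℕ}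

theorem moduli_eq {a : ι → ℤ} {T : (i : ι) → (Fin n → Derivation ℂ K K) →
    MultilinearMap K (fun _ : Fin (m i) => Derivation ℂ K K) K} (hT : ∀ i, Twisted (a i) (T i))
    {A : Matrix (Fin n) (Fin n) K} (hA : A.det ≠ 0) (E : Fin n → Derivation ℂ K K) :
    Moduli a T (fun i => ∑ j, A i j • E j) = Moduli a T E := by
  have key : ∀ (d : ℕ) (Q Q' : MvPolynomial (Ix m n) ℂ), TwInv m n a d Q → TwInv m n a d Q' →
      (val T Q' (fun i => ∑ j, A i j • E j) ≠ 0 ↔ val T Q' E ≠ 0) ∧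
      val T Q (fun i => ∑ j, A i j • E j) / val T Q' (fun i => ∑ j, A i j • E j) =
        val T Q E / val T Q' E := by
    intro d Q Q' hQ hQ'
    have hd : A.det ^ d ≠ 0 := pow_ne_zero _ hA
    rw [val_act hT hA E hQ, val_act hT hA E hQ', mul_div_mul_left _ _ hd]
    exact ⟨⟨fun h h0 => h (by rw [h0, mul_zero]), fun h => mul_ne_zero hd h⟩, rfl⟩
  ext x
  constructor
  · rintro ⟨d, Q, Q', hd, hQ, hQ', h0, hx⟩
    obtain ⟨k1, k2⟩ := key d Q Q' hQ hQ'
    exact ⟨d, Q, Q', hd, hQ, hQ', k1.1 h0, by rw [hx, k2]⟩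
  · rintro ⟨d, Q, Q', hd, hQ, hQ', h0, hx⟩
    obtain ⟨k1, k2⟩ := key d Q Q' hQ hQ'
    exact ⟨d, Q, Q', hd, hQ, hQ', k1.2 h0, by rw [hx, k2]⟩

/-- two frames differ by an invertible matrix -/
theorem frame_change {x : Fin n → K} {E0 : Fin n → Derivation ℂ K K}
    (hx : IsTranscendenceBasis ℂ x) (hE0 : ∀ i j, E0 i (x j) = if i = j then 1 else 0)
    {E : Fin n → Derivation ℂ K K} (hE : IsFrame E) :
    ∃ A : Matrix (Fin n) (Fin n) K, A.det ≠ 0 ∧ E = fun i => ∑ j, A i j • E0 j := by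
  classical
  choose b hb using fun i => hE (E0 i)
  obtain ⟨B, hB⟩ : ∃ B : Matrix (Fin n) (Fin n) K, B = Matrix.of b := ⟨_, rfl⟩
  obtain ⟨A, hA⟩ : ∃ A : Matrix (Fin n) (Fin n) K, A = Matrix.of fun i j => E i (x j) := ⟨_, rfl⟩
  have hBA : B * A = 1 := by
    ext i k
    have h1 : E0 i (x k) = (∑ j, b i j • E j) (x k) :=
      congrArg (fun D : Derivation ℂ K K => D (x k)) (hb i)
    have h2 : (∑ j, b i j • E j) (x k) = ∑ j, b i j * E j (x k) := by
      rw [← Derivation.coeFnAddMonoidHom_apply, map_sum, Finset.sum_apply]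
      rfl
    rw [hE0, h2] at h1
    rw [Matrix.mul_apply, hB, hA, Matrix.one_apply, h1]
    rfl
  refine ⟨A, right_ne_zero_of_mul_eq_one (a := B.det) ?_, ?_⟩
  · rw [← Matrix.det_mul, hBA, Matrix.det_one]
  · funext i
    rw [hA]
    exact (Pool.Agent.W73.PG.PULL.expand x hx E0 hE0 (E i)).symm

/-- **Varieties with semistable tensors**: the growth of the sections. -/
theorem ts_growth (hy : NormalModel y) (hn : Algebra.trdeg ℂ K = n) (hn1 : 1 ≤ n) [Finite ι]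
    (hm : ∀ i, 1 ≤ m i) {a : ι → ℤ} (ha : ∀ i, 1 ≤ (m i : ℤ) + n * a i)
    {T : (i : ι) → (Fin n → Derivation ℂ K K) →
      MultilinearMap K (fun _ : Fin (m i) => Derivation ℂ K K) K}
    (hT : ∀ i, Twisted (a i) (T i)) (hh : ∀ P, IsPrimeDivisor y P → ∀ i, HoloAt P (T i))
    {E : Fin n → Derivation ℂ K K} (hE : IsFrame E)
    (hss : ∀ Q : Place ℂ K, Horizontal (IntermediateField.adjoin ℂ (Moduli a T E)) Q →
      GoodCentre y (IntermediateField.adjoin ℂ (Moduli a T E)) T Q) :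
    ∃ κ : ℕ, Algebra.trdeg ℂ (IntermediateField.adjoin ℂ (Moduli a T E)) = κ ∧
      ∃ (m0 : ℕ) (ω : Fin (κ + 1) → (Fin n → Derivation ℂ K K) → K), 1 ≤ m0 ∧
        (∀ j, IsSection y n m0 (m0 • 0) (ω j)) ∧ ω 0 E ≠ 0 ∧
        AlgebraicIndependent ℂ (fun i : Fin κ => ω i.succ E / ω 0 E) ∧
        (∀ j, ω j E / ω 0 E ∈ IntermediateField.adjoin ℂ (Moduli a T E)) ∧
        ∀ A, FinSup y A → ∃ C : ℕ, ∀ m : ℕ, 1 ≤ m → ∀ (r : ℕ) (f : Fin r → K),
          LinearIndependent ℂ f → (∀ i, ∃ ω, IsSection y n m (m • 0 + A) ω ∧ ω E = f i) →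
            r ≤ C * m ^ κ := by
  classical
  have hess := hy.ess
  obtain ⟨x, E0, hx, hE0⟩ := exists_crd hn
  obtain ⟨w, hw, hwf⟩ := exists_canon hy hn hx hE0
  obtain ⟨M, hM, hME⟩ := frame_change hx hE0 hE
  have hmod : Moduli a T E = ratios (invSys a T E0) := by
    rw [hME, moduli_eq hT hM, ratios_invSys]
  rw [hmod] at hss ⊢
  obtain ⟨𝒮, h𝒮⟩ : ∃ 𝒮, 𝒮 = invSys a T E0 := ⟨_, rfl⟩
  rw [← h𝒮] at hss ⊢
  obtain ⟨d1, hd1, s, hs, hss'⟩ := exists_twinv_fin (n := n) hn1 hm ha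
  -- sections and functions
  have hsec : ∀ (m : ℕ) (D : Place ℂ K → ℚ) (ω : (Fin n → Derivation ℂ K K) → K),
      IsPluri m ω → (IsSection y n m D ω ↔ Fn y (m • w + D) (ω E0)) := by
    intro m D ω hω
    constructor
    · rintro ⟨-, h⟩ P hP
      have h1 := (hwf P hP m ω _ hω).1 (h P hP)
      refine h1.imp_right fun h2 => le_trans (le_of_eq ?_) h2
      simp only [Pi.add_apply, smul_ap]
      ring
    · intro h
      refine ⟨hω, fun P hP => (hwf P hP m ω _ hω).2 ?_⟩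
      refine (h P hP).imp_right fun h2 => le_trans (le_of_eq ?_) h2
      simp only [Pi.add_apply, smul_ap]
      ring
  -- the system
  have hloc : ∀ P, IsPrimeDivisor y P → ∃ (x' : Fin n → K) (E' : Fin n → Derivation ℂ K K)
      (i0 : Fin n), Loc P x' E' i0 := fun P hP => exists_loc hn (hP.divisorial hy hn)
  have hsys : Sys y w 𝒮 := by
    refine ⟨fun d hd g hg P hP => ?_, fun d d' _ _ g hg g' hg' => ?_⟩
    · rw [h𝒮] at hg
      obtain ⟨Q, hQ, rfl⟩ := hg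
      obtain ⟨x', E', i0, hL⟩ := hloc P hP
      obtain ⟨h1, h2⟩ := ord_val hT hx hE0 (hwf P hP) hL (frameAt_of_loc hL) hQ
      by_cases h0 : val T Q E0 = 0
      · exact Or.inl h0
      right
      have hr : ∀ z, P.Reg (pt (coefs T E') z) := fun z =>
        hh P hP z.1 E' (frameAt_of_loc hL) _ fun s => hL.pres _
      have h3 : P.Reg (val T Q E') := reg_aeval P hr Q
      have h4 := (P.reg_iff (h1.2 h0)).1 h3
      have h5 := h2 h0
      have h6 : (0 : ℚ) ≤ (P.ord (val T Q E') : ℚ) := by exact_mod_cast h4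
      rw [smul_ap]
      rw [h5] at h6
      linarith
    · rw [h𝒮] at hg hg' ⊢
      obtain ⟨Q, hQ, rfl⟩ := hg
      obtain ⟨Q', hQ', rfl⟩ := hg'
      refine ⟨Q * Q', hQ.mul hQ', ?_⟩
      unfold val
      rw [map_mul]
  -- generators at the semistable prime divisors
  have hgenP : ∀ P, IsPrimeDivisor y P → SemistableAt P T →
      ∃ g ∈ 𝒮 d1, g ≠ 0 ∧ (P.ord g : ℚ) = -(d1 * w P) := by
    rintro P hP ⟨F, hF, L, i1, i2, i3, ρ, hρ, hFs⟩
    obtain ⟨Q, hQ, hQ0⟩ := hss' L _ hFs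
    obtain ⟨h3, h4⟩ := unit_of (fun z => hh P hP z.1 F hF _ fun s => hF.1 _) hρ hQ0
    obtain ⟨x', E', i0, hL⟩ := hloc P hP
    obtain ⟨h1, h2⟩ := ord_val hT hx hE0 (hwf P hP) hL hF (hs Q hQ)
    refine ⟨val T Q E0, ?_, h1.1 h3, ?_⟩
    · rw [h𝒮]
      exact ⟨Q, hs Q hQ, rfl⟩
    · have h5 := h2 (h1.1 h3)
      rw [h4] at h5
      push_cast at h5
      linarith
  have hgenQ : ∀ Q, SemistablePoint y Q T → ∃ g ∈ 𝒮 d1, GenAt y w Q d1 g := by
    intro Q hQ
    obtain ⟨R, hR, -, hR1⟩ := gen_point hy hn hT hh hx hE0 hwf hs hss' hQ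
    refine ⟨_, ?_, hR1⟩
    rw [h𝒮]
    exact ⟨R, hs R hR, rfl⟩
  -- a nonzero element
  obtain ⟨d0, hd0, σ, hσ, hσ0⟩ : ∃ d0, 1 ≤ d0 ∧ ∃ σ ∈ 𝒮 d0, σ ≠ 0 := by
    by_contra hcon
    push Not at hcon
    have h1 : ratios 𝒮 = ∅ := by
      ext z
      simp only [Set.mem_empty_iff_false, iff_false]
      rintro ⟨d, g, g', hd, hg, hg', h0, -⟩
      exact h0 (hcon d hd g' hg')
    obtain ⟨P, hP⟩ := exists_prime hy hn hn1
    have hPh : Horizontal (IntermediateField.adjoin ℂ (ratios 𝒮)) P := by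
      intro f hf hf0
      rw [h1, IntermediateField.adjoin_empty] at hf
      obtain ⟨c, rfl⟩ := IntermediateField.mem_bot.1 hf
      exact P.ord_const (fun h => hf0 (by rw [h, map_zero]))
    rcases hss P hPh with h2 | ⟨-, h2⟩
    · obtain ⟨g, hg, hg0, -⟩ := hgenQ P h2
      exact hg0 (hcon d1 hd1 g hg)
    · obtain ⟨g, hg, hg0, -⟩ := hgenP P hP (h2 P hP fun f hf => localRing_reg hf)
      exact hg0 (hcon d1 hd1 g hg)
  obtain ⟨κ, hκ, m0, g, hm0, hg, hg0, hind, hup⟩ := hsys.abund hy hn hw hd0 hσ hσ0 (by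
    intro Q hQ
    rcases hss Q hQ with h0 | ⟨hreg, hsP⟩
    · obtain ⟨g, hg, hg1⟩ := hgenQ Q h0
      exact ⟨d1, hd1, g, hg, hg1⟩
    refine ⟨d0, hd0, σ, hσ, hσ0, fun P hP hPQ => ?_⟩
    have hPh : Horizontal (IntermediateField.adjoin ℂ (ratios 𝒮)) P := by
      intro f hf hf0
      have h1 := (P.reg_iff hf0).1 (hPQ f (hreg f hf))
      have h2 := (P.reg_iff (inv_ne_zero hf0)).1 (hPQ _ (hreg _ (inv_mem hf)))
      rw [P.ord_inv] at h2
      omega
    obtain ⟨g, hg, hg0, hgo⟩ := hgenP P hP (hsP P hP hPQ)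
    have h1 : σ ^ d1 ∈ 𝒮 (d1 * d0) := hsys.pow hd0 hσ d1 hd1
    have h2 : g ^ d0 ∈ 𝒮 (d1 * d0) := by
      rw [mul_comm]
      exact hsys.pow hd1 hg d0 hd0
    have h3 := hPh (σ ^ d1 / g ^ d0) (IntermediateField.subset_adjoin ℂ _
      ⟨d1 * d0, _, _, Nat.mul_pos hd1 hd0, h1, h2, pow_ne_zero _ hg0, rfl⟩)
      (div_ne_zero (pow_ne_zero _ hσ0) (pow_ne_zero _ hg0))
    rw [P.ord_div (pow_ne_zero _ hσ0) (pow_ne_zero _ hg0), P.ord_pow, P.ord_pow] at h3
    have h4 : (d1 : ℚ) * P.ord σ = d0 * P.ord g := by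
      have h5 : (d1 : ℤ) * P.ord σ = d0 * P.ord g := by linarith
      exact_mod_cast h5
    rw [hgo] at h4
    have hdq : (d1 : ℚ) ≠ 0 := by
      have : d1 ≠ 0 := by omega
      exact_mod_cast this
    exact mul_left_cancel₀ hdq (by rw [h4]; ring))
  have hEd : ∀ (m : ℕ) (f : K), frm x m f E = M.det ^ m * f := by
    intro m f
    have h1 := frm_pluri x m f M E0
    rw [frm_eval hE0] at h1
    rw [hME]
    exact h1
  have hMm : ∀ m, M.det ^ m ≠ 0 := fun m => pow_ne_zero _ hM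
  refine ⟨κ, hκ, m0, fun j => frm x m0 (g j), hm0, fun j => ?_, ?_, ?_, fun j => ?_, ?_⟩
  · have h1 : m0 • (0 : Place ℂ K → ℚ) = 0 := smul_zero _
    rw [hsec m0 _ _ (frm_pluri x m0 (g j)), frm_eval hE0, h1, add_zero]
    exact hsys.sec m0 hm0 _ (hg j)
  · change frm x m0 (g 0) E ≠ 0
    rw [hEd]
    exact mul_ne_zero (hMm m0) hg0
  · simp only [hEd, mul_div_mul_left _ _ (hMm m0)]
    exact hind
  · simp only [hEd, mul_div_mul_left _ _ (hMm m0)]
    exact IntermediateField.subset_adjoin ℂ _ ⟨m0, _, _, hm0, hg j, hg 0, hg0, rfl⟩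
  · intro A hA
    obtain ⟨C, hC⟩ := hup A hA
    refine ⟨C, fun m hm r f hf h => hC m hm r (fun i => (M.det ^ m)⁻¹ * f i) ?_ fun i => ?_⟩
    · exact hf.map' (LinearMap.mulLeft ℂ _) (LinearMap.ker_eq_bot.2
        (mul_right_injective₀ (inv_ne_zero (hMm m))))
    · obtain ⟨ω, hω, hωf⟩ := h i
      have h2 := (hsec m _ ω hω.1).1 hω
      have h3 : ω E = M.det ^ m * ω E0 := by
        rw [hME]
        exact hω.1 M E0
      have h4 : (M.det ^ m)⁻¹ * f i = ω E0 := by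
        rw [← hωf, h3, inv_mul_cancel_left₀ (hMm m)]
      have h5 : m • (0 : Place ℂ K → ℚ) = 0 := smul_zero _
      rw [h4]
      rw [h5, zero_add] at h2
      exact h2

/-- **Tensors which are semistable at all points**: a multiple of the canonical divisor is base
point free. -/
theorem ts_bpf (hy : NormalModel y) (hn : Algebra.trdeg ℂ K = n) (hn1 : 1 ≤ n) [Finite ι]
    (hm : ∀ i, 1 ≤ m i) {a : ι → ℤ} (ha : ∀ i, 1 ≤ (m i : ℤ) + n * a i)
    {T : (i : ι) → (Fin n → Derivation ℂ K K) →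
      MultilinearMap K (fun _ : Fin (m i) => Derivation ℂ K K) K}
    (hT : ∀ i, Twisted (a i) (T i)) (hh : ∀ P, IsPrimeDivisor y P → ∀ i, HoloAt P (T i))
    (hss : ∀ Q : Place ℂ K, SemistablePoint y Q T) :
    ∃ d : ℕ, 1 ≤ d ∧ ∀ Q : Place ℂ K, ∃ ω : (Fin n → Derivation ℂ K K) → K,
      IsSection y n d 0 ω ∧ ∀ P, IsPrimeDivisor y P → Through y P Q → OrdEq P ω 0 := by
  classical
  have hess := hy.ess
  obtain ⟨x, E0, hx, hE0⟩ := exists_crd hn
  obtain ⟨w, hw, hwf⟩ := exists_canon hy hn hx hE0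
  obtain ⟨d1, hd1, s, hs, hss'⟩ := exists_twinv_fin (n := n) hn1 hm ha
  have hloc : ∀ P, IsPrimeDivisor y P → ∃ (x' : Fin n → K) (E' : Fin n → Derivation ℂ K K)
      (i0 : Fin n), Loc P x' E' i0 := fun P hP => exists_loc hn (hP.divisorial hy hn)
  refine ⟨d1, hd1, fun Q => ?_⟩
  obtain ⟨R, hR, hR0, -, hR1⟩ := gen_point hy hn hT hh hx hE0 hwf hs hss' (hss Q)
  have hpl := frm_pluri x d1 (val T R E0)
  refine ⟨frm x d1 (val T R E0), ⟨hpl, fun P hP => (hwf P hP _ _ _ hpl).2 ?_⟩,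
    fun P hP hPQ => ⟨(hwf P hP _ _ _ hpl).2 ?_, ?_⟩⟩
  · rw [frm_eval hE0]
    right
    obtain ⟨x', E', i0, hL⟩ := hloc P hP
    obtain ⟨h1, h2⟩ := ord_val hT hx hE0 (hwf P hP) hL (frameAt_of_loc hL) (hs R hR)
    have hr : ∀ z, P.Reg (pt (coefs T E') z) := fun z =>
      hh P hP z.1 E' (frameAt_of_loc hL) _ fun s => hL.pres _
    have h3 : P.Reg (val T R E') := reg_aeval P hr R
    have h4 := (P.reg_iff (h1.2 hR0)).1 h3
    have h5 := h2 hR0
    have h6 : (0 : ℚ) ≤ (P.ord (val T R E') : ℚ) := by exact_mod_cast h4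
    rw [h5] at h6
    change -(0 : Place ℂ K → ℚ) P - _ ≤ _
    rw [Pi.zero_apply]
    linarith
  · rw [frm_eval hE0, hR1 P hP hPQ]
    right
    linarith
  · obtain ⟨x', E', i0, hL⟩ := hloc P hP
    have h1 := pluri_coord hx hE0 hpl E'
    obtain ⟨h4, h5⟩ := ord_canon hE0 (hwf P hP) hL
    rw [frm_eval hE0] at h1
    refine ⟨E', hL.pres, ?_, ?_⟩
    · rw [h1]
      exact mul_ne_zero (pow_ne_zero _ h4) hR0
    · rw [h1, P.ord_mul (pow_ne_zero _ h4) hR0, P.ord_pow]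
      push_cast
      rw [h5, hR1 P hP hPQ]
      ring

/-- the quotients of the sections are algebraic over the field of the moduli -/
theorem ts_quot {F : IntermediateField ℂ K} {E : Fin n → Derivation ℂ K K} (hE : IsFrame E)
    {κ : ℕ}
    {m0 : ℕ} {ω : Fin (κ + 1) → (Fin n → Derivation ℂ K K) → K} (hm0 : 1 ≤ m0)
    (hω : ∀ j, IsSection y n m0 (m0 • 0) (ω j)) (hω0 : ω 0 E ≠ 0)
    (hind : AlgebraicIndependent ℂ (fun i : Fin κ => ω i.succ E / ω 0 E))
    (hF : ∀ j, ω j E / ω 0 E ∈ F)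
    (hup : ∀ A, FinSup y A → ∃ C : ℕ, ∀ m : ℕ, 1 ≤ m → ∀ (r : ℕ) (f : Fin r → K),
      LinearIndependent ℂ f → (∀ i, ∃ ω, IsSection y n m (m • 0 + A) ω ∧ ω E = f i) →
        r ≤ C * m ^ κ) {m1 : ℕ} (hm1 : 1 ≤ m1) {η η' : (Fin n → Derivation ℂ K K) → K}
    (hη : IsSection y n m1 0 η) (hη' : IsSection y n m1 0 η') (h0 : η' E ≠ 0) :
    IsAlgebraic F (η E / η' E) := by
  classical
  by_contra hcon
  have hz0 : m1 • (0 : Place ℂ K → ℚ) = 0 := smul_zero _
  rw [← hz0] at hη hη'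
  obtain ⟨z, hz⟩ : ∃ z : Fin κ → K, z = fun i : Fin κ => ω i.succ E / ω 0 E := ⟨_, rfl⟩
  rw [← hz] at hind
  obtain ⟨f, hf⟩ : ∃ f, f = η E / η' E := ⟨_, rfl⟩
  rw [← hf] at hcon
  have htr : Transcendental (Algebra.adjoin ℂ (Set.range z)) f := by
    intro h1
    apply hcon
    have h2 : Algebra.adjoin ℂ (Set.range z) ≤ F.toSubalgebra := by
      rw [Algebra.adjoin_le_iff]
      rintro _ ⟨i, rfl⟩
      rw [hz]
      exact hF _
    obtain ⟨p, hp0, hp⟩ := h1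
    refine ⟨p.map (Subalgebra.inclusion h2 : _ →+* F.toSubalgebra), ?_, ?_⟩
    · intro h
      apply hp0
      exact (Polynomial.map_eq_zero_iff (Subalgebra.inclusion_injective h2)).1 h
    · rw [Polynomial.aeval_def, Polynomial.eval₂_map]
      rw [Polynomial.aeval_def] at hp
      exact hp
  have hopt := (hind.option_iff_transcendental f).2 htr
  have hcons : AlgebraicIndependent ℂ (Fin.cons f z : Fin (κ + 1) → K) := by
    have h1 := hopt.comp (finSuccEquiv κ) (finSuccEquiv κ).injective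
    have h2 : ((fun o : Option (Fin κ) => o.elim f z) ∘ finSuccEquiv κ) =
        (Fin.cons f z : Fin (κ + 1) → K) := by
      funext i
      refine Fin.cases ?_ (fun i => ?_) i
      · simp
      · simp
    rwa [h2] at h1
  -- the sections
  let S : Fin (κ + 2) → (Fin n → Derivation ℂ K K) → K :=
    Fin.cons (fun D => ω 0 D * η' D) (Fin.cons (fun D => ω 0 D * η D)
      (fun i D => ω i.succ D * η' D))
  have hS0 : S 0 = fun D => ω 0 D * η' D := rfl
  have hS1 : S (Fin.succ 0) = fun D => ω 0 D * η D := rfl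
  have hS2 : ∀ i : Fin κ, S i.succ.succ = fun D => ω i.succ D * η' D := fun i => rfl
  have hsec : ∀ j, IsSection y n (m0 + m1) ((m0 + m1) • 0) (S j) := by
    intro j
    refine Fin.cases ?_ (fun j => ?_) j
    · exact Pool.Agent.N133.OB.sec_mul (hω 0) hη'
    · refine Fin.cases ?_ (fun i => ?_) j
      · exact Pool.Agent.N133.OB.sec_mul (hω 0) hη
      · exact Pool.Agent.N133.OB.sec_mul (hω i.succ) hη'
  have hne : S 0 E ≠ 0 := mul_ne_zero hω0 h0
  have hrat : (fun i : Fin (κ + 1) => S i.succ E / S 0 E) = (Fin.cons f z : Fin (κ + 1) → K) := by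
    funext i
    refine Fin.cases ?_ (fun i => ?_) i
    · rw [hS1, hS0, Fin.cons_zero, hf]
      simp only
      field_simp
    · rw [hS2, hS0, Fin.cons_succ, hz]
      simp only
      field_simp
  have heff : Effective y (0 : Place ℂ K → ℚ) := ⟨fun P _ => le_rfl, by simp⟩
  have hint : Integral y (0 : Place ℂ K → ℚ) := fun P _ => ⟨0, by simp⟩
  obtain ⟨κ', h1, h2, h3⟩ := dims2 (k := κ) (g := κ + 1) heff hE (fun A hA => hup A hA.2)
    (show 1 ≤ m0 + m1 by omega) hsec hne (by rw [hrat]; exact hcons)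
  obtain ⟨h4, h5⟩ := h3 0 heff hint
  have h6 : ((κ' : ℕ) : EReal) ≤ ((κ : ℕ) : EReal) := by
    have := h4.trans h5
    exact_mod_cast this
  have h7 : κ' ≤ κ := by exact_mod_cast h6
  omega

end

end Pool.Agent.H897
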