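import Pool.Agent.H897.SG
import Pool.Agent.H897.TI
import Pool.Graph.R_seed8.Y173.QA.Pl

/-!
Twisted tensor differentials on normal projective varieties.
-/

set_option autoImplicit false
set_option linter.overlappingInstances false
set_option linter.unusedSectionVars false

open MvPolynomial FF Pool.Agent.W602.GT Pool.Agent.Y172 Pool.Agent.NH31 Pool.Agent.W603.LV
open Pool.Agent.N133.TB

namespace Pool.Agent.H897

section

variable {K : Type} [Field K] [Algebra ℂ K] {N n : ℕ} {y : Fin (N + 1) → K}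

/-- `T` is a rational section of the `m`-th tensor power of the cotangent bundle with values in
`O (a K_X)`: it is a tensor which depends on the choice of a frame `E` of the tangent bundle. -/
def Twisted (a : ℤ) {m : ℕ}
    (T : (Fin n → Derivation ℂ K K) → MultilinearMap K (fun _ : Fin m => Derivation ℂ K K) K) :
    Prop :=
  ∀ (A : Matrix (Fin n) (Fin n) K) (E : Fin n → Derivation ℂ K K), A.det ≠ 0 →
    T (fun i => ∑ j, A i j • E j) = A.det ^ a • T E

/-- the vector fields `E` are a basis of the vector fields which are regular along `P` -/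
def FrameAt (P : Place ℂ K) (E : Fin n → Derivation ℂ K K) : Prop :=
  (∀ i, DerReg P (E i)) ∧ ∀ D, DerReg P D → ∃ c : Fin n → K, (∀ i, P.Reg (c i)) ∧ D = ∑ i, c i • E i

/-- `T` is holomorphic along `P` -/
def HoloAt (P : Place ℂ K) {m : ℕ}
    (T : (Fin n → Derivation ℂ K K) → MultilinearMap K (fun _ : Fin m => Derivation ℂ K K) K) :
    Prop :=
  ∀ E, FrameAt P E → ∀ D : Fin m → Derivation ℂ K K, (∀ s, DerReg P (D s)) → P.Reg (T E D)

variable {ι : Type} {m : ι → ℕ}

/-- the coefficients of the tensors for the frame `E` -/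
def coefs (T : (i : ι) → (Fin n → Derivation ℂ K K) →
    MultilinearMap K (fun _ : Fin (m i) => Derivation ℂ K K) K)
    (E : Fin n → Derivation ℂ K K) : Fam m n K := fun i J => T i E fun s => E (J s)

/-- `ρ` is the residue map of the place `P`, with values in an extension field `L` of the residue
field: it is a homomorphism on the functions which are regular at `P`, with the maximal ideal as
kernel. -/
structure ResMap (P : Place ℂ K) {L : Type} [Field L] [Algebra ℂ L] (ρ : K → L) : Prop where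
  const : ∀ c : ℂ, ρ (algebraMap ℂ K c) = algebraMap ℂ L c
  add : ∀ f g, P.Reg f → P.Reg g → ρ (f + g) = ρ f + ρ g
  mul : ∀ f g, P.Reg f → P.Reg g → ρ (f * g) = ρ f * ρ g
  ker : ∀ f, P.Reg f → (ρ f = 0 ↔ f = 0 ∨ 0 < P.ord f)

/-- the values of the tensors at the centre of the place `P`, for the frame `E`, are semistable, over
an algebraically closed extension field of the residue field -/
def SemistableRes (P : Place ℂ K) (T : (i : ι) → (Fin n → Derivation ℂ K K) →
    MultilinearMap K (fun _ : Fin (m i) => Derivation ℂ K K) K)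
    (E : Fin n → Derivation ℂ K K) : Prop :=
  ∃ (L : Type) (_ : Field L) (_ : Algebra ℂ L) (_ : IsAlgClosed L) (ρ : K → L), ResMap P ρ ∧
    SemistableFam (m := m) (n := n) fun i J => ρ (coefs T E i J)

/-- the tensors are semistable at the generic point of the prime divisor `P` -/
def SemistableAt (P : Place ℂ K) (T : (i : ι) → (Fin n → Derivation ℂ K K) →
    MultilinearMap K (fun _ : Fin (m i) => Derivation ℂ K K) K) : Prop :=
  ∃ E, FrameAt P E ∧ SemistableRes P T E

/-- the value of a twisted semi-invariant -/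
noncomputable def val (T : (i : ι) → (Fin n → Derivation ℂ K K) →
    MultilinearMap K (fun _ : Fin (m i) => Derivation ℂ K K) K) (Q : MvPolynomial (Ix m n) ℂ)
    (E : Fin n → Derivation ℂ K K) : K := aeval (pt (coefs T E)) Q

/-- the quotients of the values of two twisted semi-invariants of the same weight -/
def Moduli (a : ι → ℤ) (T : (i : ι) → (Fin n → Derivation ℂ K K) →
    MultilinearMap K (fun _ : Fin (m i) => Derivation ℂ K K) K)
    (E : Fin n → Derivation ℂ K K) : Set K :=
  {x | ∃ (d : ℕ) (Q Q' : MvPolynomial (Ix m n) ℂ), 1 ≤ d ∧ TwInv m n a d Q ∧ TwInv m n a d Q' ∧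
    val T Q' E ≠ 0 ∧ x = val T Q E / val T Q' E}

theorem coefs_act {a : ι → ℤ} {T : (i : ι) → (Fin n → Derivation ℂ K K) →
    MultilinearMap K (fun _ : Fin (m i) => Derivation ℂ K K) K} (hT : ∀ i, Twisted (a i) (T i))
    {A : Matrix (Fin n) (Fin n) K} (hA : A.det ≠ 0) (E : Fin n → Derivation ℂ K K) :
    coefs T (fun i => ∑ j, A i j • E j) = twact a A (coefs T E) := by
  funext i J
  unfold coefs twact
  rw [hT i A E hA]
  change A.det ^ a i * T i E _ = _
  congr 1
  exact Sec.tens_lin (T i E) A E J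

theorem val_act {a : ι → ℤ} {T : (i : ι) → (Fin n → Derivation ℂ K K) →
    MultilinearMap K (fun _ : Fin (m i) => Derivation ℂ K K) K} (hT : ∀ i, Twisted (a i) (T i))
    {A : Matrix (Fin n) (Fin n) K} (hA : A.det ≠ 0) (E : Fin n → Derivation ℂ K K) {d : ℕ}
    {Q : MvPolynomial (Ix m n) ℂ} (hQ : TwInv m n a d Q) :
    val T Q (fun i => ∑ j, A i j • E j) = A.det ^ d * val T Q E := by
  unfold val
  rw [coefs_act hT hA, hQ K A _ hA]

theorem reg_prod (P : Place ℂ K) {α : Type} (s : Finset α) (f : α → K) (h : ∀ i ∈ s, P.Reg (f i)) :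
    P.Reg (∏ i ∈ s, f i) := by
  classical
  induction s using Finset.induction_on with
  | empty => simpa using P.reg_one
  | insert a s ha ih =>
    rw [Finset.prod_insert ha]
    exact P.reg_mul (h a (Finset.mem_insert_self a s))
      (ih fun i hi => h i (Finset.mem_insert_of_mem hi))

theorem res_aeval {P : Place ℂ K} {L : Type} [Field L] [Algebra ℂ L] {ρ : K → L}
    (hρ : ResMap P ρ) {α : Type} {f : α → K} (hf : ∀ x, P.Reg (f x))
    (Q : MvPolynomial α ℂ) : P.Reg (aeval f Q) ∧ ρ (aeval f Q) = aeval (fun x => ρ (f x)) Q := by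
  induction Q using MvPolynomial.induction_on with
  | C c =>
    rw [aeval_C, aeval_C]
    exact ⟨P.reg_const c, hρ.const c⟩
  | add p q hp hq =>
    rw [map_add, map_add]
    exact ⟨P.reg_add hp.1 hq.1, by rw [hρ.add _ _ hp.1 hq.1, hp.2, hq.2]⟩
  | mul_X p i hp =>
    rw [map_mul, map_mul, aeval_X, aeval_X]
    exact ⟨P.reg_mul hp.1 (hf i), by rw [hρ.mul _ _ hp.1 (hf i), hp.2]⟩

theorem reg_aeval (P : Place ℂ K) {α : Type} {f : α → K} (hf : ∀ x, P.Reg (f x))
    (Q : MvPolynomial α ℂ) : P.Reg (aeval f Q) := by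
  induction Q using MvPolynomial.induction_on with
  | C c =>
    rw [aeval_C]
    exact P.reg_const c
  | add p q hp hq =>
    rw [map_add]
    exact P.reg_add hp hq
  | mul_X p i hp =>
    rw [map_mul, aeval_X]
    exact P.reg_mul hp (hf i)

/-- the value of a twisted semi-invariant at a semistable point -/
theorem unit_of {P : Place ℂ K} {T : (i : ι) → (Fin n → Derivation ℂ K K) →
    MultilinearMap K (fun _ : Fin (m i) => Derivation ℂ K K) K} {E : Fin n → Derivation ℂ K K}
    (hreg : ∀ x, P.Reg (pt (coefs T E) x)) {L : Type} [Field L] [Algebra ℂ L] {ρ : K → L}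
    (hρ : ResMap P ρ) {Q : MvPolynomial (Ix m n) ℂ}
    (hQ0 : aeval (pt (fun i J => ρ (coefs T E i J) : Fam m n L)) Q ≠ 0) :
    val T Q E ≠ 0 ∧ P.ord (val T Q E) = 0 := by
  obtain ⟨h1, h2⟩ := res_aeval hρ hreg Q
  have h4 : aeval (pt (fun i J => ρ (coefs T E i J) : Fam m n L)) Q = ρ (val T Q E) := h2.symm
  rw [h4] at hQ0
  have h6 : ¬ (val T Q E = 0 ∨ 0 < P.ord (val T Q E)) := fun h => hQ0 ((hρ.ker _ h1).2 h)
  push Not at h6
  exact ⟨h6.1, le_antisymm h6.2 ((P.reg_iff h6.1).1 h1)⟩

/-- the change between a frame along `P` and coordinates -/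
theorem det_loc {P : Place ℂ K} {x' : Fin n → K}
    {E' : Fin n → Derivation ℂ K K} {i0 : Fin n} (hL : Loc P x' E' i0)
    {E : Fin n → Derivation ℂ K K} (hE : FrameAt P E) :
    (Matrix.of fun i j => E i (x' j)).det ≠ 0 ∧ P.ord (Matrix.of fun i j => E i (x' j)).det = 0 ∧
      E = fun i => ∑ j, (Matrix.of fun i j => E i (x' j)) i j • E' j := by
  classical
  have hexp : ∀ D : Derivation ℂ K K, D = ∑ j, D (x' j) • E' j := fun D =>
    (Pool.Agent.W73.PG.PULL.expand x' hL.bas E' hL.dual D).symm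
  choose c hc hcE using fun i => hE.2 (E' i) (hL.pres i)
  obtain ⟨C, hC⟩ : ∃ C : Matrix (Fin n) (Fin n) K, C = Matrix.of fun i j => E i (x' j) := ⟨_, rfl⟩
  obtain ⟨B, hB⟩ : ∃ B : Matrix (Fin n) (Fin n) K, B = Matrix.of fun i j => c i j := ⟨_, rfl⟩
  have hBC : B * C = 1 := by
    ext i k
    have h1 : E' i (x' k) = (∑ j, c i j • E j) (x' k) :=
      congrArg (fun D : Derivation ℂ K K => D (x' k)) (hcE i)
    have h2 : (∑ j, c i j • E j) (x' k) = ∑ j, c i j * E j (x' k) := by
      rw [← Derivation.coeFnAddMonoidHom_apply, map_sum, Finset.sum_apply]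
      rfl
    rw [hL.dual, h2] at h1
    rw [Matrix.mul_apply, hB, hC, Matrix.one_apply, h1]
    rfl
  have hdet : B.det * C.det = 1 := by rw [← Matrix.det_mul, hBC, Matrix.det_one]
  have hregC : P.Reg C.det := by
    rw [hC, Matrix.det_apply']
    refine Finset.sum_induction _ (fun z => P.Reg z) (fun _ _ => P.reg_add) P.reg_zero fun σ _ => ?_
    refine P.reg_mul ?_ (reg_prod P _ _ fun i _ => hE.1 _ _ (hL.reg _))
    have : ((Equiv.Perm.sign σ : ℤ) : K) = algebraMap ℂ K ((Equiv.Perm.sign σ : ℤ) : ℂ) := by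
      rw [map_intCast]
    rw [this]
    exact P.reg_const _
  have hregB : P.Reg B.det := by
    rw [hB, Matrix.det_apply']
    refine Finset.sum_induction _ (fun z => P.Reg z) (fun _ _ => P.reg_add) P.reg_zero fun σ _ => ?_
    refine P.reg_mul ?_ (reg_prod P _ _ fun i _ => hc _ _)
    have : ((Equiv.Perm.sign σ : ℤ) : K) = algebraMap ℂ K ((Equiv.Perm.sign σ : ℤ) : ℂ) := by
      rw [map_intCast]
    rw [this]
    exact P.reg_const _
  have hC0 : C.det ≠ 0 := right_ne_zero_of_mul_eq_one hdet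
  have hB0 : B.det ≠ 0 := left_ne_zero_of_mul_eq_one hdet
  have h1 := (P.reg_iff hC0).1 hregC
  have h2 := (P.reg_iff hB0).1 hregB
  have h3 := P.ord_mul hB0 hC0
  rw [hdet, P.ord_one] at h3
  rw [← hC]
  refine ⟨hC0, by omega, ?_⟩
  funext i
  rw [hC]
  exact hexp (E i)

/-- the order of the change from the global coordinates to the local ones -/
theorem ord_canon {x : Fin n → K} {E : Fin n → Derivation ℂ K K}
    (hE : ∀ i j, E i (x j) = if i = j then 1 else 0)
    {P : Place ℂ K} {w : ℚ}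
    (hw : ∀ (m : ℕ) (ω : (Fin n → Derivation ℂ K K) → K) (c : ℚ), IsPluri m ω →
      (OrdGe P ω c ↔ ω E = 0 ∨ c - m * w ≤ (P.ord (ω E) : ℚ)))
    {x' : Fin n → K} {E' : Fin n → Derivation ℂ K K} {i0 : Fin n} (hL : Loc P x' E' i0) :
    (Matrix.of fun i j => E' i (x j)).det ≠ 0 ∧
      (P.ord (Matrix.of fun i j => E' i (x j)).det : ℚ) = w := by
  classical
  obtain ⟨ω, hω⟩ : ∃ ω : (Fin n → Derivation ℂ K K) → K, ω = frm x 1 1 := ⟨_, rfl⟩
  have hpl : IsPluri 1 ω := by rw [hω]; exact frm_pluri x 1 1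
  have hωE : ω E = 1 := by rw [hω]; exact frm_eval hE 1 1
  have hωE' : ω E' = (Matrix.of fun i j => E' i (x j)).det := by
    rw [hω]
    simp [frm]
  have hdet0 : (Matrix.of fun i j => E' i (x j)).det ≠ 0 := det_ne hL.bas hL.dual hE
  have hkey : ∀ c : ℚ, OrdGe P ω c ↔ c ≤ w := by
    intro c
    rw [hw 1 ω c hpl, hωE, P.ord_one]
    constructor
    · rintro (h | h)
      · exact absurd h one_ne_zero
      · push_cast at h
        linarith
    · intro h
      right
      push_cast
      linarith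
  refine ⟨hdet0, le_antisymm ?_ ?_⟩
  · rw [← hkey]
    intro D hD
    have h1 := pluri_coord hL.bas hL.dual hpl D
    rw [pow_one, hωE'] at h1
    by_cases h0 : ω D = 0
    · exact Or.inl h0
    right
    rw [h1] at h0 ⊢
    have h2 : (Matrix.of fun i j => D i (x' j)).det ≠ 0 := left_ne_zero_of_mul h0
    rw [P.ord_mul h2 hdet0]
    have hreg : P.Reg (Matrix.of fun i j => D i (x' j)).det := by
      rw [Matrix.det_apply']
      refine Finset.sum_induction _ (fun z => P.Reg z) (fun _ _ => P.reg_add) P.reg_zero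
        fun σ _ => ?_
      refine P.reg_mul ?_ (reg_prod P _ _ fun i _ => hD _ _ (hL.reg _))
      have : ((Equiv.Perm.sign σ : ℤ) : K) = algebraMap ℂ K ((Equiv.Perm.sign σ : ℤ) : ℂ) := by
        rw [map_intCast]
      rw [this]
      exact P.reg_const _
    have h3 := (P.reg_iff h2).1 hreg
    have h4 : P.ord (Matrix.of fun i j => E' i (x j)).det ≤
        P.ord (Matrix.of fun i j => D i (x' j)).det +
          P.ord (Matrix.of fun i j => E' i (x j)).det := by omega
    exact_mod_cast h4
  · have h1 := ((hkey w).2 le_rfl) E' hL.pres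
    rw [hωE'] at h1
    exact h1.resolve_left hdet0

/-- a local frame is a frame along `P` -/
theorem frameAt_of_loc {P : Place ℂ K} {x' : Fin n → K} {E' : Fin n → Derivation ℂ K K} {i0 : Fin n}
    (hL : Loc P x' E' i0) : FrameAt P E' :=
  ⟨hL.pres, fun D hD => ⟨fun i => D (x' i), fun i => hD _ (hL.reg i),
    (Pool.Agent.W73.PG.PULL.expand x' hL.bas E' hL.dual D).symm⟩⟩

/-- the system of the values of the twisted semi-invariants -/
def invSys (a : ι → ℤ) (T : (i : ι) → (Fin n → Derivation ℂ K K) →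
    MultilinearMap K (fun _ : Fin (m i) => Derivation ℂ K K) K)
    (E : Fin n → Derivation ℂ K K) (d : ℕ) : Set K :=
  {g | ∃ Q, TwInv m n a d Q ∧ g = val T Q E}

theorem ratios_invSys (a : ι → ℤ) (T : (i : ι) → (Fin n → Derivation ℂ K K) →
    MultilinearMap K (fun _ : Fin (m i) => Derivation ℂ K K) K)
    (E : Fin n → Derivation ℂ K K) : ratios (invSys a T E) = Moduli a T E := by
  ext x
  constructor
  · rintro ⟨d, g, g', hd, ⟨Q, hQ, hg⟩, ⟨Q', hQ', hg'⟩, h0, hx⟩
    subst hg hg'
    exact ⟨d, Q, Q', hd, hQ, hQ', h0, hx⟩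
  · rintro ⟨d, Q, Q', hd, hQ, hQ', h0, hx⟩
    exact ⟨d, _, _, hd, ⟨Q, hQ, rfl⟩, ⟨Q', hQ', rfl⟩, h0, hx⟩

/-- the relation between the order of a twisted semi-invariant for the global coordinates and for a
frame along a prime divisor -/
theorem ord_val {a : ι → ℤ} {T : (i : ι) → (Fin n → Derivation ℂ K K) →
    MultilinearMap K (fun _ : Fin (m i) => Derivation ℂ K K) K} (hT : ∀ i, Twisted (a i) (T i))
    {x : Fin n → K} {E : Fin n → Derivation ℂ K K}
    (hx : IsTranscendenceBasis ℂ x) (hE : ∀ i j, E i (x j) = if i = j then 1 else 0)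
    {P : Place ℂ K} {w : ℚ}
    (hw : ∀ (m : ℕ) (ω : (Fin n → Derivation ℂ K K) → K) (c : ℚ), IsPluri m ω →
      (OrdGe P ω c ↔ ω E = 0 ∨ c - m * w ≤ (P.ord (ω E) : ℚ)))
    {x' : Fin n → K} {E' : Fin n → Derivation ℂ K K} {i0 : Fin n} (hL : Loc P x' E' i0)
    {F : Fin n → Derivation ℂ K K} (hF : FrameAt P F) {d : ℕ} {Q : MvPolynomial (Ix m n) ℂ}
    (hQ : TwInv m n a d Q) :
    (val T Q F ≠ 0 ↔ val T Q E ≠ 0) ∧
      (val T Q E ≠ 0 → (P.ord (val T Q F) : ℚ) = d * w + P.ord (val T Q E)) := by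
  obtain ⟨h1, h2, h3⟩ := det_loc hL hF
  obtain ⟨h4, h5⟩ := ord_canon hE hw hL
  have h6 : E' = fun i => ∑ j, (Matrix.of fun i j => E' i (x j)) i j • E j := by
    funext i
    exact (Pool.Agent.W73.PG.PULL.expand x hx E hE (E' i)).symm
  have h7 : val T Q F = (Matrix.of fun i j => F i (x' j)).det ^ d * val T Q E' := by
    rw [← val_act hT h1 E' hQ, ← h3]
  have h8 : val T Q E' = (Matrix.of fun i j => E' i (x j)).det ^ d * val T Q E := by
    rw [← val_act hT h4 E hQ, ← h6]
  have h9 : val T Q F = (Matrix.of fun i j => F i (x' j)).det ^ d *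
      ((Matrix.of fun i j => E' i (x j)).det ^ d * val T Q E) := by rw [h7, h8]
  have hp1 : (Matrix.of fun i j => F i (x' j)).det ^ d ≠ 0 := pow_ne_zero _ h1
  have hp2 : (Matrix.of fun i j => E' i (x j)).det ^ d ≠ 0 := pow_ne_zero _ h4
  refine ⟨⟨fun h0 h => h0 (by rw [h9, h, mul_zero, mul_zero]), fun h0 => ?_⟩, fun h0 => ?_⟩
  · rw [h9]
    exact mul_ne_zero hp1 (mul_ne_zero hp2 h0)
  · rw [h9, P.ord_mul hp1 (mul_ne_zero hp2 h0), P.ord_mul hp2 h0, P.ord_pow, P.ord_pow, h2]
    push_cast
    rw [h5]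
    ring

/-- there are prime divisors -/
theorem exists_prime (hy : NormalModel y) (hn : Algebra.trdeg ℂ K = n) (hn1 : 1 ≤ n) :
    ∃ P : Place ℂ K, IsPrimeDivisor y P := by
  classical
  have hess := hy.ess
  by_contra hcon
  push Not at hcon
  obtain ⟨l, rfl⟩ : ∃ l, n = l + 1 := ⟨n - 1, by omega⟩
  obtain ⟨x, E, hx, hE⟩ := exists_crd hn
  -- a place
  have hfin := fun (z : Fin (l + 1) → K) (hz : IsTranscendenceBasis ℂ z) =>
    Pool.Agent.W824.PG.fin_adj hess z hz
  have h0 : x 0 ≠ 0 := hx.1.ne_zero 0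
  obtain ⟨P, -⟩ := Pool.Agent.Y173.QA.exists_pole (k := ℂ) (L := K) hn hfin
    (h := (x 0)⁻¹) (y := fun i => x i.succ) (by
      rw [inv_inv]
      have h1 : (Fin.cons (x 0) fun i => x i.succ : Fin (l + 1) → K) = x := by
        funext i
        refine Fin.cases ?_ (fun i => ?_) i
        · rw [Fin.cons_zero]
        · rw [Fin.cons_succ]
      rw [h1]
      exact hx)
  obtain ⟨t, ht0, ht⟩ := P.surj
  have h1 : t⁻¹ ∈ localRing y P := mem_localRing_of_reg hy fun P' hP' _ => absurd hP' (hcon P')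
  have h2 := (P.reg_iff (inv_ne_zero ht0)).1 (localRing_reg h1)
  rw [P.ord_inv, ht] at h2
  omega

/-- The centre of `Q` is a smooth point of the variety, with the local coordinates `x j` (up to
constants) and the coordinate vector fields `E i`. -/
structure Coordinates (y : Fin (N + 1) → K) (Q : Place ℂ K) (x : Fin n → K)
    (E : Fin n → Derivation ℂ K K) : Prop where
  reg : ∀ j, x j ∈ localRing y Q
  pres : ∀ i, ∀ f ∈ localRing y Q, E i f ∈ localRing y Q
  dual : ∀ i j, E i (x j) = if i = j then 1 else 0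

theorem Coordinates.frameAt (hn : Algebra.trdeg ℂ K = n) {P Q : Place ℂ K} {x : Fin n → K}
    {E : Fin n → Derivation ℂ K K} (hc : Coordinates y Q x E) (hP : IsPrimeDivisor y P)
    (hPQ : Through y P Q) (hy : NormalModel y) : FrameAt P E := by
  classical
  have hsum : ∀ (g : Fin n → K) (k : Fin n), (∑ i, g i • E i) (x k) = g k := by
    intro g k
    rw [← Derivation.coeFnAddMonoidHom_apply, map_sum, Finset.sum_apply]
    change ∑ i, g i * E i (x k) = g k
    rw [Finset.sum_eq_single k]
    · rw [hc.dual, if_pos rfl, mul_one]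
    · intro b _ hb
      rw [hc.dual, if_neg hb, mul_zero]
    · intro h
      exact absurd (Finset.mem_univ k) h
  have hli : LinearIndependent K E := by
    rw [Fintype.linearIndependent_iff]
    intro g hg k
    rw [← hsum g k, hg]
    rfl
  have hfr := frame_of_indep hn hli
  refine ⟨fun i f hf => ?_, fun D hD => ⟨fun k => D (x k), fun k => hD _ (hPQ _ (hc.reg k)), ?_⟩⟩
  · obtain ⟨j, hj⟩ := exists_centred hy Q
    have hjP := hPQ.centred hj
    obtain ⟨a, ha, b, hb, hb0, hbo, hab⟩ := (mem_localRing hjP).1 (hP f hf)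
    have h1 : P.Reg (E i a) := hPQ _ (hc.pres i a (chart_localRing hj ha))
    have h2 : P.Reg (E i b) := hPQ _ (hc.pres i b (chart_localRing hj hb))
    have h3 : E i f = (E i a + -(f * E i b)) * b⁻¹ := by
      have h4 : E i a = f * E i b + b * E i f := by
        rw [← hab, Derivation.leibniz]
        rfl
      rw [h4]
      field_simp
      ring
    rw [h3]
    refine P.reg_mul (P.reg_add h1 (P.reg_neg (P.reg_mul hf h2)))
      ((P.reg_iff (inv_ne_zero hb0)).2 ?_)
    rw [P.ord_inv, hbo]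
    simp
  · obtain ⟨g, hg⟩ := hfr D
    have h1 : ∀ k, D (x k) = g k := fun k => by rw [hg]; exact hsum g k
    have h2 : (fun k => D (x k)) = g := funext h1
    rw [h2]
    exact hg

/-- The centre of `Q` is a smooth point of the variety, and the tensors are semistable there. -/
def SemistablePoint (y : Fin (N + 1) → K) (Q : Place ℂ K)
    (T : (i : ι) → (Fin n → Derivation ℂ K K) →
      MultilinearMap K (fun _ : Fin (m i) => Derivation ℂ K K) K) : Prop :=
  ∃ (x : Fin n → K) (E : Fin n → Derivation ℂ K K), Coordinates y Q x E ∧ SemistableRes Q T E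

/-- Either the centre of `Q` is a smooth point at which the tensors are semistable, or the functions
in `F` are regular at the centre of `Q` and the tensors are semistable at the generic points of all
prime divisors through it. -/
def GoodCentre (y : Fin (N + 1) → K) (F : IntermediateField ℂ K)
    (T : (i : ι) → (Fin n → Derivation ℂ K K) →
      MultilinearMap K (fun _ : Fin (m i) => Derivation ℂ K K) K) (Q : Place ℂ K) : Prop :=
  SemistablePoint y Q T ∨ ((∀ f ∈ F, f ∈ localRing y Q) ∧
    ∀ P, IsPrimeDivisor y P → Through y P Q → SemistableAt P T)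

/-- at a smooth point, semistable tensors have a twisted invariant which does not vanish -/
theorem gen_point (hy : NormalModel y) (hn : Algebra.trdeg ℂ K = n) {a : ι → ℤ}
    {T : (i : ι) → (Fin n → Derivation ℂ K K) →
      MultilinearMap K (fun _ : Fin (m i) => Derivation ℂ K K) K}
    (hT : ∀ i, Twisted (a i) (T i)) (hh : ∀ P, IsPrimeDivisor y P → ∀ i, HoloAt P (T i))
    {x : Fin n → K} {E : Fin n → Derivation ℂ K K}
    (hx : IsTranscendenceBasis ℂ x) (hE : ∀ i j, E i (x j) = if i = j then 1 else 0)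
    {w : Place ℂ K → ℚ}
    (hw : ∀ P : Place ℂ K, IsPrimeDivisor y P → ∀ (m : ℕ)
      (ω : (Fin n → Derivation ℂ K K) → K) (c : ℚ), IsPluri m ω →
      (OrdGe P ω c ↔ ω E = 0 ∨ c - m * w P ≤ (P.ord (ω E) : ℚ)))
    {d : ℕ} {s : Finset (MvPolynomial (Ix m n) ℂ)} (hs : ∀ Q ∈ s, TwInv m n a d Q)
    (hss : ∀ (L : Type) [Field L] [Algebra ℂ L] [IsAlgClosed L] (t : Fam m n L),
      SemistableFam t → ∃ Q ∈ s, aeval (pt t) Q ≠ 0) {Q : Place ℂ K} (hQ : SemistablePoint y Q T) :
    ∃ R ∈ s, val T R E ≠ 0 ∧ GenAt y w Q d (val T R E) := by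
  classical
  have hess := hy.ess
  obtain ⟨x1, E1, hc, L, i1, i2, i3, ρ, hρ, hst⟩ := hQ
  have hloc : ∀ P, IsPrimeDivisor y P → ∃ (x' : Fin n → K) (E' : Fin n → Derivation ℂ K K)
      (i0 : Fin n), Loc P x' E' i0 := fun P hP => exists_loc hn (hP.divisorial hy hn)
  have hregl : ∀ z, pt (coefs T E1) z ∈ localRing y Q := fun z =>
    mem_localRing_of_reg hy fun P hP hPQ =>
      hh P hP z.1 E1 (hc.frameAt hn hP hPQ hy) _ fun s => (hc.frameAt hn hP hPQ hy).1 _
  obtain ⟨R, hR, hR0⟩ := hss L _ hst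
  obtain ⟨h1, h2⟩ := unit_of (fun z => localRing_reg (hregl z)) hρ hR0
  have h3 : val T R E1 ∈ localRing y Q := mem_localRing_of_reg hy fun P hP hPQ =>
    reg_aeval P (fun z => hPQ _ (hregl z)) R
  have h4 := inv_mem_localRing h3 h1 h2
  -- there is a prime divisor, to compare the frames
  obtain ⟨M, hM, hME⟩ : ∃ M : Matrix (Fin n) (Fin n) K, M.det ≠ 0 ∧
      E1 = fun i => ∑ j, M i j • E j := by
    obtain ⟨M, hMd⟩ : ∃ M : Matrix (Fin n) (Fin n) K, M = Matrix.of fun i j => E1 i (x j) :=
      ⟨_, rfl⟩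
    refine ⟨M, ?_, ?_⟩
    · have hx1 : IsFrame E1 := by
        refine frame_of_indep hn (Fintype.linearIndependent_iff.2 fun g hg k => ?_)
        have h5 : (∑ i, g i • E1 i) (x1 k) = g k := by
          rw [← Derivation.coeFnAddMonoidHom_apply, map_sum, Finset.sum_apply]
          change ∑ i, g i * E1 i (x1 k) = g k
          rw [Finset.sum_eq_single k]
          · rw [hc.dual, if_pos rfl, mul_one]
          · intro b _ hb
            rw [hc.dual, if_neg hb, mul_zero]
          · intro h
            exact absurd (Finset.mem_univ k) h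
        rw [← h5, hg]
        rfl
      choose b hb using fun i => hx1 (E i)
      have hBA : Matrix.of b * M = 1 := by
        ext i k
        have h5 : E i (x k) = (∑ j, b i j • E1 j) (x k) :=
          congrArg (fun D : Derivation ℂ K K => D (x k)) (hb i)
        have h6 : (∑ j, b i j • E1 j) (x k) = ∑ j, b i j * E1 j (x k) := by
          rw [← Derivation.coeFnAddMonoidHom_apply, map_sum, Finset.sum_apply]
          rfl
        rw [hE, h6] at h5
        rw [Matrix.mul_apply, hMd, Matrix.one_apply, h5]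
        rfl
      exact right_ne_zero_of_mul_eq_one (a := (Matrix.of b).det)
        (by rw [← Matrix.det_mul, hBA, Matrix.det_one])
    · funext i
      rw [hMd]
      exact (Pool.Agent.W73.PG.PULL.expand x hx E hE (E1 i)).symm
  have h5 : val T R E1 = M.det ^ d * val T R E := by
    rw [hME]
    exact val_act hT hM E (hs R hR)
  have h6 : val T R E ≠ 0 := fun h => h1 (by rw [h5, h, mul_zero])
  refine ⟨R, hR, h6, h6, fun P hP hPQ => ?_⟩
  obtain ⟨x', E', i0, hL⟩ := hloc P hP
  obtain ⟨-, h7⟩ := ord_val hT hx hE (hw P hP) hL (hc.frameAt hn hP hPQ hy) (hs R hR)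
  have h8 := (P.reg_iff h1).1 (hPQ _ h3)
  have h9 := (P.reg_iff (inv_ne_zero h1)).1 (hPQ _ h4)
  rw [P.ord_inv] at h9
  have h10 : P.ord (val T R E1) = 0 := by omega
  have h11 := h7 h6
  rw [h10] at h11
  push_cast at h11
  linarith

end

end Pool.Agent.H897
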