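import Pool.Agent.H897.QH

/-!
Orthogonalisation of the rows of a rectangular matrix.
-/

set_option autoImplicit false
set_option linter.overlappingInstances false
set_option linter.unusedSectionVars false

open MvPolynomial FF Pool.Agent.N133.TB Pool.Agent.Y174 Pool.Agent.W603.LV

namespace Pool.Agent.H897

section

variable {K : Type} [Field K] [Algebra ℂ K] {n : ℕ}

/-- **Orthogonalisation** of independent rows with respect to a norm, by a unitriangular change. -/
theorem qr_rect (P : Place ℂ K) : ∀ (r n : ℕ) (nu : Fin n → ℝ) (C : Matrix (Fin r) (Fin n) K),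
    LinearIndependent K (fun i => C i) →
    ∃ (U : Matrix (Fin r) (Fin r) K) (nk : Fin r → ℝ) (I : Fin r → Fin n), (∀ i, U i i = 1) ∧
      (∀ i j, i < j → U i j = 0) ∧ (∀ k j, GeR P (nk k - nu j) ((U * C) k j)) ∧
      ∀ (s : ℕ) (hs : s ≤ r),
        (C.submatrix (Fin.castLE hs) (fun i => I (Fin.castLE hs i))).det ≠ 0 ∧
        ∑ k : Fin s, nk (Fin.castLE hs k) =
          P.ord (C.submatrix (Fin.castLE hs) (fun i => I (Fin.castLE hs i))).det +
            ∑ k : Fin s, nu (I (Fin.castLE hs k)) := by
  intro r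
  induction r with
  | zero =>
    intro n nu C hC
    refine ⟨1, fun _ => 0, fun i => i.elim0, fun i => i.elim0, fun i => i.elim0, fun i => i.elim0,
      fun s hs => ?_⟩
    obtain rfl : s = 0 := by omega
    simp [P.ord_one]
  | succ r ih =>
    intro n' nu C hC
    classical
    have hrow : ∃ j, C 0 j ≠ 0 := by
      by_contra hcon
      push Not at hcon
      exact hC.ne_zero 0 (funext hcon)
    obtain ⟨n, rfl⟩ : ∃ n, n' = n + 1 := by
      obtain ⟨j, -⟩ := hrow
      exact ⟨n' - 1, by have := j.2; omega⟩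
    obtain ⟨j0, hj0, hmin⟩ := Finset.exists_min_image
      (Finset.univ.filter fun j => C 0 j ≠ 0) (fun j => (P.ord (C 0 j) : ℝ) + nu j) (by
        obtain ⟨j, hj⟩ := hrow
        exact ⟨j, by simp [hj]⟩)
    have hp : C 0 j0 ≠ 0 := (Finset.mem_filter.1 hj0).2
    obtain ⟨c, hc⟩ : ∃ c : Fin r → K, c = fun i => C i.succ j0 / C 0 j0 := ⟨_, rfl⟩
    obtain ⟨C', hC'⟩ : ∃ C' : Matrix (Fin r) (Fin n) K, C' = Matrix.of fun i j =>
      C i.succ (j0.succAbove j) - c i * C 0 (j0.succAbove j) := ⟨_, rfl⟩
    obtain ⟨D, hD⟩ : ∃ D : Matrix (Fin (r + 1)) (Fin (n + 1)) K, D = Matrix.of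
      (Fin.cons (C 0) fun i j => C i.succ j - c i * C 0 j) := ⟨_, rfl⟩
    have hD0 : ∀ j, D 0 j = C 0 j := fun j => by rw [hD]; rfl
    have hDs : ∀ (i : Fin r) j, D i.succ j = C i.succ j - c i * C 0 j := fun i j => by rw [hD]; rfl
    have hDz : ∀ i : Fin r, D i.succ j0 = 0 := by
      intro i
      rw [hDs, hc]
      change C i.succ j0 - C i.succ j0 / C 0 j0 * C 0 j0 = 0
      rw [div_mul_cancel₀ _ hp, sub_self]
    have hC'li : LinearIndependent K (fun i => C' i) := by
      rw [Fintype.linearIndependent_iff] at hC ⊢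
      intro g hg i
      have h1 : ∀ j, ∑ i, g i * D i.succ j = 0 := by
        intro j
        by_cases hj : j = j0
        · subst hj
          simp only [hDz, mul_zero, Finset.sum_const_zero]
        · obtain ⟨j', rfl⟩ := Fin.exists_succAbove_eq hj
          have h2 := congrFun hg j'
          rw [Finset.sum_apply, Pi.zero_apply] at h2
          simp only [Pi.smul_apply, smul_eq_mul] at h2
          rw [← h2]
          refine Finset.sum_congr rfl fun i _ => ?_
          rw [hDs, hC']
          rfl
      have h2 := hC (Fin.cons (-∑ i, g i * c i) g) (by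
        funext j
        rw [Finset.sum_apply, Fin.sum_univ_succ, Pi.zero_apply]
        simp only [Fin.cons_zero, Fin.cons_succ, Pi.smul_apply, smul_eq_mul]
        have h3 := h1 j
        simp only [hDs, mul_sub, Finset.sum_sub_distrib] at h3
        have h4 : ∑ i, g i * (c i * C 0 j) = (∑ i, g i * c i) * C 0 j := by
          rw [Finset.sum_mul]
          exact Finset.sum_congr rfl fun i _ => by ring
        rw [h4] at h3
        linear_combination h3) i.succ
      simpa using h2
    obtain ⟨U', nk', I', h1, h2, h3, h4⟩ := ih n (fun j => nu (j0.succAbove j)) C' hC'li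
    obtain ⟨U, hU⟩ : ∃ U : Matrix (Fin (r + 1)) (Fin (r + 1)) K, U = Matrix.of
      (Fin.cons (Fin.cons 1 fun _ => 0) fun i => Fin.cons (-∑ l, U' i l * c l) (U' i)) :=
      ⟨_, rfl⟩
    have hU00 : U 0 0 = 1 := by rw [hU]; rfl
    have hU0s : ∀ j : Fin r, U 0 j.succ = 0 := fun j => by rw [hU]; rfl
    have hUs0 : ∀ i : Fin r, U i.succ 0 = -∑ l, U' i l * c l := fun i => by rw [hU]; rfl
    have hUss : ∀ i j : Fin r, U i.succ j.succ = U' i j := fun i j => by rw [hU]; rfl
    have hUC0 : ∀ j, (U * C) 0 j = C 0 j := by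
      intro j
      rw [Matrix.mul_apply, Fin.sum_univ_succ, hU00, one_mul]
      simp only [hU0s, zero_mul, Finset.sum_const_zero, add_zero]
    have hUCs : ∀ i j, (U * C) i.succ j = ∑ l, U' i l * (C l.succ j - c l * C 0 j) := by
      intro i j
      rw [Matrix.mul_apply, Fin.sum_univ_succ, hUs0]
      simp only [hUss, mul_sub, Finset.sum_sub_distrib]
      rw [neg_mul, Finset.sum_mul]
      simp only [mul_assoc]
      ring
    refine ⟨U, Fin.cons ((P.ord (C 0 j0) : ℝ) + nu j0) nk',
      Fin.cons j0 fun i => j0.succAbove (I' i), fun i => ?_, fun i j hij => ?_,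
      fun k j => ?_, ?_⟩
    · refine Fin.cases hU00 (fun i => ?_) i
      rw [hUss, h1]
    · revert hij
      refine Fin.cases (fun hij => ?_) (fun i => ?_) i
      · obtain ⟨j', rfl⟩ := Fin.exists_succ_eq.2 (ne_of_gt hij)
        exact hU0s j'
      · refine Fin.cases (fun hij => absurd hij (Fin.not_lt_zero _)) (fun j hij => ?_) j
        rw [hUss]
        exact h2 _ _ (Fin.succ_lt_succ_iff.1 hij)
    · refine Fin.cases ?_ (fun i => ?_) k
      · rw [hUC0, Fin.cons_zero]
        by_cases h0 : C 0 j = 0
        · exact Or.inl h0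
        · right
          have := hmin j (by simp [h0])
          linarith
      · rw [Fin.cons_succ, hUCs]
        by_cases hj : j = j0
        · left
          subst hj
          refine Finset.sum_eq_zero fun l _ => ?_
          rw [← hDs, hDz, mul_zero]
        · obtain ⟨j', rfl⟩ := Fin.exists_succAbove_eq hj
          have h5 := h3 i j'
          rw [Matrix.mul_apply] at h5
          have h6 : ∀ l, C' l j' = C l.succ (j0.succAbove j') - c l * C 0 (j0.succAbove j') :=
            fun l => by rw [hC']; rfl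
          simp only [h6] at h5
          exact h5
    · intro s hs
      rcases Nat.eq_zero_or_pos s with rfl | hspos
      · simp [P.ord_one]
      obtain ⟨s, rfl⟩ : ∃ t, s = t + 1 := ⟨s - 1, by omega⟩
      have hs' : s ≤ r := by omega
      obtain ⟨h5, h6⟩ := h4 s hs'
      obtain ⟨J, hJ⟩ : ∃ J : Fin (s + 1) → Fin (n + 1), J = fun i =>
        (Fin.cons j0 fun i => j0.succAbove (I' i) : Fin (r + 1) → Fin (n + 1))
          (Fin.castLE hs i) := ⟨_, rfl⟩
      have hcs : ∀ i : Fin s, Fin.castLE hs i.succ = (Fin.castLE hs' i).succ := fun i => rfl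
      have hc0 : Fin.castLE hs (0 : Fin (s + 1)) = 0 := rfl
      have hJ0 : J 0 = j0 := by rw [hJ]; rfl
      have hJs : ∀ i : Fin s, J i.succ = j0.succAbove (I' (Fin.castLE hs' i)) := by
        intro i
        rw [hJ]
        simp only [hcs, Fin.cons_succ]
      have hdet1 : (D.submatrix (Fin.castLE hs) J).det = (C.submatrix (Fin.castLE hs) J).det := by
        refine Matrix.det_eq_of_forall_row_eq_smul_add_const
          (Fin.cons 0 fun i => -c (Fin.castLE hs' i)) 0 rfl ?_
        intro i j
        rw [Matrix.submatrix_apply, Matrix.submatrix_apply, Matrix.submatrix_apply]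
        refine Fin.cases ?_ (fun i => ?_) i
        · rw [hc0, hD0]
          simp
        · rw [hcs, hDs, hc0]
          simp only [Fin.cons_succ]
          ring
      have hdet2 : (D.submatrix (Fin.castLE hs) J).det = C 0 j0 *
          (C'.submatrix (Fin.castLE hs') (fun i => I' (Fin.castLE hs' i))).det := by
        rw [Matrix.det_succ_column_zero, Finset.sum_eq_single 0]
        · rw [Fin.val_zero, pow_zero, one_mul, Matrix.submatrix_apply, hc0, hJ0, hD0]
          congr 2
          ext i j
          rw [Matrix.submatrix_apply, Matrix.submatrix_apply, Matrix.submatrix_apply,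
            Fin.succAbove_zero, hcs, hDs, hJs, hC']
          rfl
        · intro i _ hi
          obtain ⟨i', rfl⟩ := Fin.exists_succ_eq.2 hi
          rw [Matrix.submatrix_apply, hcs, hJ0, hDz, mul_zero, zero_mul]
        · intro h
          exact absurd (Finset.mem_univ _) h
      have hdet : (C.submatrix (Fin.castLE hs) J).det = C 0 j0 *
          (C'.submatrix (Fin.castLE hs') (fun i => I' (Fin.castLE hs' i))).det := by
        rw [← hdet1, hdet2]
      rw [← hJ, hdet]
      refine ⟨mul_ne_zero hp h5, ?_⟩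
      rw [P.ord_mul hp h5, Fin.sum_univ_succ, Fin.sum_univ_succ, hc0]
      have h7 : ∀ i : Fin (s + 1), (Fin.cons j0 fun i => j0.succAbove (I' i) :
          Fin (r + 1) → Fin (n + 1)) (Fin.castLE hs i) = J i := fun i => by rw [hJ]
      simp only [hcs, Fin.cons_succ, Fin.cons_zero]
      rw [h6]
      push_cast
      ring

/-- the partial sums of the orthogonal norms -/
theorem qr_minor_rect {P : Place ℂ K} {r : ℕ} {nu : Fin n → ℝ} {nk : Fin r → ℝ}
    {U : Matrix (Fin r) (Fin r) K} {C : Matrix (Fin r) (Fin n) K}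
    (h1 : ∀ i, U i i = 1) (h2 : ∀ i j, i < j → U i j = 0)
    (h3 : ∀ k j, GeR P (nk k - nu j) ((U * C) k j)) {s : ℕ} (hs : s ≤ r) {I : Fin s → Fin n}
    (hI : (C.submatrix (Fin.castLE hs) I).det ≠ 0) :
    ∑ k : Fin s, nk (Fin.castLE hs k) ≤
      P.ord (C.submatrix (Fin.castLE hs) I).det + ∑ s, nu (I s) := by
  classical
  have h4 : (U * C).submatrix (Fin.castLE hs) I =
      (Matrix.of fun s s' => U (Fin.castLE hs s) (Fin.castLE hs s')) *
        C.submatrix (Fin.castLE hs) I := by
    ext k s
    rw [Matrix.submatrix_apply, Matrix.mul_apply, Matrix.mul_apply]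
    have h5 : ∀ j : Fin r, j ∉ Set.range (Fin.castLE hs : Fin _ → Fin r) →
        U (Fin.castLE hs k) j * C j (I s) = 0 := by
      intro j hj
      rw [h2, zero_mul]
      by_contra hcon
      push Not at hcon
      apply hj
      have h6 : (j : ℕ) ≤ (k : ℕ) := hcon
      exact ⟨⟨j, lt_of_le_of_lt h6 k.2⟩, rfl⟩
    rw [← Finset.sum_subset (Finset.subset_univ
      (Finset.univ.map ⟨(Fin.castLE hs : Fin _ → Fin r), Fin.castLE_injective hs⟩)) (by
        intro j _ hj
        refine h5 j fun ⟨i, hi⟩ => hj ?_
        rw [Finset.mem_map]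
        exact ⟨i, Finset.mem_univ _, hi⟩), Finset.sum_map]
    rfl
  have h5 : ((U * C).submatrix (Fin.castLE hs) I).det = (C.submatrix (Fin.castLE hs) I).det := by
    rw [h4, Matrix.det_mul, det_block h1 h2 (Fin.castLE_injective hs), one_mul]
  have h6 : GeR P (∑ k : Fin s, nk (Fin.castLE hs k) - ∑ s, nu (I s))
      ((U * C).submatrix (Fin.castLE hs) I).det := geR_det fun k s => h3 _ _
  rw [h5] at h6
  have h7 := h6.resolve_left hI
  linarith

end

end Pool.Agent.H897
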