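import Pool.Agent.H897.VA

/-!
Local orthogonalisation of independent vector fields.
-/

set_option autoImplicit false
set_option linter.overlappingInstances false
set_option linter.unusedSectionVars false

open MvPolynomial FF Pool.Agent.W602.GT Pool.Agent.Y172 Pool.Agent.NH31 Pool.Agent.W603.LV
open Pool.Agent.N133.TB Pool.Agent.Y174 Pool.Agent.TH466.QG

namespace Pool.Agent.H897

section

variable {K : Type} [Field K] [Algebra ℂ K] {N n : ℕ} {y : Fin (N + 1) → K}

/-- coordinates of vector fields -/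
theorem exists_coords {t : ℕ} {E0 : Fin n → Derivation ℂ K K} (hfr : IsFrame E0)
    (B : Fin t → Derivation ℂ K K) :
    ∃ B0 : Matrix (Fin t) (Fin n) K, ∀ k, B k = ∑ j, B0 k j • E0 j := by
  choose c hc using fun k => hfr (B k)
  exact ⟨Matrix.of c, fun k => hc k⟩

/-- the rows of the matrix of independent vector fields are independent -/
theorem rows_li {t : ℕ} {E0 : Fin n → Derivation ℂ K K}
    {B : Fin t → Derivation ℂ K K} (hB : LinearIndependent K B) {C : Matrix (Fin t) (Fin n) K}
    (hC : ∀ k, B k = ∑ j, C k j • E0 j) : LinearIndependent K (fun i => C i) := by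
  rw [Fintype.linearIndependent_iff] at hB ⊢
  intro g hg i
  refine hB g ?_ i
  simp only [hC, Finset.smul_sum, smul_smul]
  rw [Finset.sum_comm]
  refine Finset.sum_eq_zero fun j _ => ?_
  rw [← Finset.sum_smul]
  have h1 := congrFun hg j
  rw [Finset.sum_apply, Pi.zero_apply] at h1
  simp only [Pi.smul_apply, smul_eq_mul] at h1
  rw [h1, zero_smul]

/-- **The local data** of independent vector fields. -/
theorem loc_rect (hy : NormalModel y) (hn : Algebra.trdeg ℂ K = n) {x : Fin n → K}
    {E0 : Fin n → Derivation ℂ K K} (hx : IsTranscendenceBasis ℂ x)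
    (hE0 : ∀ i j, E0 i (x j) = if i = j then 1 else 0) {w : Place ℂ K → ℚ}
    (hw : ∀ P : Place ℂ K, IsPrimeDivisor y P → ∀ (m : ℕ)
      (ω : (Fin n → Derivation ℂ K K) → K) (c : ℚ), IsPluri m ω →
      (OrdGe P ω c ↔ ω E0 = 0 ∨ c - m * w P ≤ (P.ord (ω E0) : ℚ)))
    {t : ℕ} {B : Fin t → Derivation ℂ K K} (hB : LinearIndependent K B)
    {B0 : Matrix (Fin t) (Fin n) K} (hB0 : ∀ k, B k = ∑ j, B0 k j • E0 j)
    (Δ : Place ℂ K → ℚ) {P : Place ℂ K} (hP : IsPrimeDivisor y P) :
    ∃ (U : Matrix (Fin t) (Fin t) K) (nk : Fin t → ℝ),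
      (∀ i, U i i = 1) ∧ (∀ i j, i < j → U i j = 0) ∧
      (∀ (s : ℕ) (hs : s ≤ t), WedgeOrd n (Δ P) P (fun i : Fin s => B (Fin.castLE hs i))
        (∑ k : Fin s, nk (Fin.castLE hs k))) ∧
      (∀ k, ∃ e : ℝ, nk k ≤ e ∧ WedgeOrd n (Δ P) P (fun _ : Fin 1 => ∑ l, U k l • B l) e) ∧
      (FrameAt P E0 → Δ P = 0 → (∀ (s : ℕ) (hs : s ≤ t) (I : Fin s → Fin n),
        (B0.submatrix (Fin.castLE hs) I).det ≠ 0 →
          P.ord (B0.submatrix (Fin.castLE hs) I).det = 0) →
        ∀ (s : ℕ) (hs : s ≤ t), ∑ k : Fin s, nk (Fin.castLE hs k) = 0) ∧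
      (∀ hs : n ≤ t, ∑ k : Fin n, nk (Fin.castLE hs k) =
        P.ord (B0.submatrix (Fin.castLE hs) id).det - w P - Δ P) := by
  classical
  obtain ⟨E, i0, M, C, -, -, hA, hEM, hM0, hMw, hE0C, hC0, -, -, -, -, hgood⟩ :=
    loc_data hy hn hx hE0 hw (b := E0) (C0 := 1) (by rw [Matrix.det_one]; exact one_ne_zero)
      (fun k => by
        rw [Finset.sum_eq_single k]
        · rw [Matrix.one_apply_eq, one_smul]
        · intro j _ hj
          rw [Matrix.one_apply_ne (Ne.symm hj), zero_smul]
        · intro h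
          exact absurd (Finset.mem_univ _) h) Δ hP
  obtain ⟨Cp, hCp⟩ : ∃ Cp, Cp = B0 * C := ⟨_, rfl⟩
  have hBE : ∀ k, B k = ∑ j, Cp k j • E j := by
    intro k
    rw [hB0 k, hCp]
    simp only [hE0C, Finset.smul_sum, smul_smul]
    rw [Finset.sum_comm]
    refine Finset.sum_congr rfl fun j _ => ?_
    rw [← Finset.sum_smul, Matrix.mul_apply]
  have hli := rows_li hB hBE
  obtain ⟨U, nk, I, h1, h2, h3, h4⟩ := qr_rect P t n (nuf (Δ P) i0) Cp hli
  refine ⟨U, nk, h1, h2, fun s hs => ?_, fun k => ?_, fun hfr hδ hmin s hs => ?_, fun hs => ?_⟩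
  · obtain ⟨h5, h6⟩ := h4 s hs
    refine ⟨E, i0, Cp.submatrix (Fin.castLE hs) id, hA, fun k => hBE _, fun J => ?_,
      fun i => I (Fin.castLE hs i), h5, ?_⟩
    · by_cases h7 : ((Cp.submatrix (Fin.castLE hs) id).submatrix id J).det = 0
      · exact Or.inl h7
      · right
        have h8 := qr_minor_rect h1 h2 h3 hs (I := J) h7
        rw [sum_nuf, ← sub_eq_add_neg] at h8
        exact h8
    · rw [h6, sub_eq_add_neg, ← sum_nuf]
      rfl
  · -- the norm of the orthogonalised vector
    obtain ⟨c, hc⟩ : ∃ c : Matrix (Fin 1) (Fin n) K, c = Matrix.of fun _ j => (U * Cp) k j :=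
      ⟨_, rfl⟩
    have hne : ∃ J : Fin 1 → Fin n, (c.submatrix id J).det ≠ 0 := by
      by_contra hcon
      push Not at hcon
      have h5 : ∀ j, (U * Cp) k j = 0 := by
        intro j
        have h6 := hcon fun _ => j
        rw [Matrix.det_fin_one, Matrix.submatrix_apply, hc] at h6
        exact h6
      have h6 : ∑ l, U k l • (fun j => Cp l j) = 0 := by
        funext j
        rw [Finset.sum_apply, Pi.zero_apply, ← h5 j, Matrix.mul_apply]
        rfl
      have h7 := Fintype.linearIndependent_iff.1 hli (fun l => U k l) h6 k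
      rw [h1] at h7
      exact one_ne_zero h7
    obtain ⟨e, h5, J, h6, h7⟩ := exists_minOrd P (nuf (Δ P) i0) c hne
    refine ⟨e, ?_, E, i0, c, hA, fun _ => ?_, fun J => ?_, J, h6, ?_⟩
    · rw [h7]
      rw [Matrix.det_fin_one, Matrix.submatrix_apply, hc] at h6 ⊢
      have h8 := (h3 k (J 0)).resolve_left h6
      rw [Fin.sum_univ_one]
      change nk k ≤ P.ord ((U * Cp) k (J 0)) + nuf (Δ P) i0 (J 0)
      linarith
    · rw [hc]
      simp only [hBE, Finset.smul_sum, smul_smul]
      rw [Finset.sum_comm]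
      refine Finset.sum_congr rfl fun j _ => ?_
      rw [← Finset.sum_smul, Matrix.of_apply, Matrix.mul_apply]
    · rcases h5 J with h8 | h8
      · exact Or.inl h8
      · right
        rw [sum_nuf, ← sub_eq_add_neg] at h8
        exact h8
    · rw [h7, sum_nuf, ← sub_eq_add_neg]
  · have hC1 : Cp = B0 := by
      rw [hCp, hgood hfr hδ, Matrix.mul_one]
    obtain ⟨h5, h6⟩ := h4 s hs
    rw [h6, sum_nuf]
    rw [hC1] at h5 ⊢
    rw [hmin s hs _ h5, hδ]
    simp
  · have hMC : M * C = 1 := by
      have h5 : ∀ i, E i = ∑ j, (M * C) i j • E j := by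
        intro i
        conv_lhs => rw [hEM]
        simp only [hE0C, Finset.smul_sum, smul_smul]
        rw [Finset.sum_comm]
        refine Finset.sum_congr rfl fun j _ => ?_
        rw [← Finset.sum_smul, Matrix.mul_apply]
      have hEli : LinearIndependent K E := by
        have h6 := li_of_dual hE0
        rw [Fintype.linearIndependent_iff] at h6 ⊢
        intro g hg i
        have h7 : ∑ j, (∑ i, g i * M i j) • E0 j = 0 := by
          rw [← hg]
          conv_rhs => rw [hEM]
          simp only [Finset.smul_sum, smul_smul]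
          rw [Finset.sum_comm]
          exact Finset.sum_congr rfl fun j _ => Finset.sum_smul
        have h8 := h6 _ h7
        have h9 : Matrix.vecMul g M = 0 := by
          funext j
          rw [Matrix.vecMul, dotProduct, Pi.zero_apply]
          exact h8 j
        by_contra hne
        have h10 := Matrix.exists_vecMul_eq_zero_iff.1 ⟨g, fun h0 => hne (congrFun h0 i), h9⟩
        exact hM0 h10
      ext i j
      have h6 := h5 i
      have h7 : ∑ j, ((M * C) i j - (1 : Matrix (Fin n) (Fin n) K) i j) • E j = 0 := by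
        simp only [sub_smul, Finset.sum_sub_distrib]
        rw [← h6, sub_eq_zero, Finset.sum_eq_single i]
        · rw [Matrix.one_apply_eq, one_smul]
        · intro j _ hj
          rw [Matrix.one_apply_ne (Ne.symm hj), zero_smul]
        · intro h
          exact absurd (Finset.mem_univ _) h
      exact sub_eq_zero.1 (Fintype.linearIndependent_iff.1 hEli _ h7 j)
    obtain ⟨h5, h6⟩ := h4 n hs
    obtain ⟨Pm, hPm⟩ : ∃ Pm : Matrix (Fin n) (Fin n) K, Pm = Cp.submatrix (Fin.castLE hs) id :=
      ⟨_, rfl⟩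
    obtain ⟨Bm, hBm⟩ : ∃ Bm : Matrix (Fin n) (Fin n) K, Bm = B0.submatrix (Fin.castLE hs) id :=
      ⟨_, rfl⟩
    have hPB : Pm = Bm * C := by
      ext i j
      rw [hPm, hBm, hCp, Matrix.submatrix_apply, Matrix.mul_apply, Matrix.mul_apply]
      rfl
    have hI : (Cp.submatrix (Fin.castLE hs) (fun i => I (Fin.castLE hs i))) =
        Pm.submatrix id (fun i => I (Fin.castLE hs i)) := by
      rw [hPm]
      rfl
    rw [hI] at h5 h6
    have hinj : Function.Injective fun i : Fin n => I (Fin.castLE hs i) := by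
      intro a b hab
      by_contra hne
      exact h5 (Matrix.det_zero_of_column_eq hne fun k => by
        rw [Matrix.submatrix_apply, Matrix.submatrix_apply]
        change Pm _ (I (Fin.castLE hs a)) = Pm _ (I (Fin.castLE hs b))
        have h7 : I (Fin.castLE hs a) = I (Fin.castLE hs b) := hab
        rw [h7])
    obtain ⟨q, hq⟩ : ∃ q : Equiv.Perm (Fin n), ⇑q = fun i => I (Fin.castLE hs i) :=
      ⟨Equiv.ofBijective _ (Finite.injective_iff_bijective.1 hinj), rfl⟩
    rw [← hq] at h5 h6
    have h7 : ∑ k, nuf (Δ P) i0 (I (Fin.castLE hs k)) = -(Δ P : ℝ) := by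
      rw [← sum_nuf' (Δ P) i0, ← Equiv.sum_comp q (nuf (Δ P) i0)]
      refine Finset.sum_congr rfl fun k _ => ?_
      rw [hq]
    rw [h7] at h6
    have h8 : P.ord (Pm.submatrix id q).det = P.ord Pm.det := by
      rw [Matrix.det_permute']
      have h9 : P.ord (((Equiv.Perm.sign q : ℤˣ) : ℤ) : K) = 0 := by
        have h10 : (((Equiv.Perm.sign q : ℤˣ) : ℤ) : K) =
            algebraMap ℂ K (((Equiv.Perm.sign q : ℤˣ) : ℤ) : ℂ) := by rw [map_intCast]
        rw [h10]
        refine P.ord_const ?_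
        rcases Int.units_eq_one_or (Equiv.Perm.sign q) with h11 | h11
        · rw [h11]
          simp
        · rw [h11]
          simp
      rw [Matrix.det_permute'] at h5
      rw [P.ord_mul (left_ne_zero_of_mul h5) (right_ne_zero_of_mul h5), h9, zero_add]
    rw [h8] at h6
    have hPm0 : Pm.det ≠ 0 := by
      intro h0
      rw [Matrix.det_permute', h0, mul_zero] at h5
      exact h5 rfl
    have h9 : P.ord Pm.det = P.ord Bm.det + P.ord C.det := by
      rw [hPB, Matrix.det_mul] at hPm0 ⊢
      exact P.ord_mul (left_ne_zero_of_mul hPm0) hC0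
    have h10 : P.ord M.det + P.ord C.det = 0 := by
      rw [← P.ord_mul hM0 hC0, ← Matrix.det_mul, hMC, Matrix.det_one, P.ord_one]
    rw [h6, h9, ← hBm]
    have h11 : (P.ord C.det : ℝ) = -(w P : ℝ) := by
      have h12 : (P.ord C.det : ℚ) = -w P := by
        rw [← hMw]
        have : (P.ord M.det : ℚ) + P.ord C.det = 0 := by exact_mod_cast h10
        linarith
      exact_mod_cast h12
    push_cast
    rw [h11]
    ring

end

end Pool.Agent.H897
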