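import Pool.Agent.H897.VB

/-!
The order of a polyvector field does not depend on the adapted frame.
-/

set_option autoImplicit false
set_option linter.overlappingInstances false
set_option linter.unusedSectionVars false

open MvPolynomial FF Pool.Agent.W602.GT Pool.Agent.Y172 Pool.Agent.NH31 Pool.Agent.W603.LV
open Pool.Agent.N133.TB Pool.Agent.Y174 Pool.Agent.TH466.QG

namespace Pool.Agent.H897

section

variable {K : Type} [Field K] [Algebra ℂ K] {N n : ℕ} {y : Fin (N + 1) → K}

theorem reg_geR {P : Place ℂ K} {f : K} (h : P.Reg f) : GeR P 0 f := by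
  rcases h with h | h
  · exact Or.inl h
  · right
    exact_mod_cast h

/-- the transition matrices of adapted frames -/
theorem adapt_trans (hy : NormalModel y) (hn : Algebra.trdeg ℂ K = n) {P : Place ℂ K}
    (hP : IsPrimeDivisor y P) {δ : ℚ} (hδ0 : 0 ≤ δ) (hδ1 : δ ≤ 1)
    {E E' : Fin n → Derivation ℂ K K} {i0 i0' : Fin n} (hA : Adapted δ P E i0)
    (hA' : Adapted δ P E' i0') :
    ∃ A : Matrix (Fin n) (Fin n) K, (∀ j, E' j = ∑ i, A j i • E i) ∧
      ∀ j i, GeR P (nuf δ i0' j - nuf δ i0 i) (A j i) := by
  classical
  have hess := hy.ess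
  choose c hc hcE using fun j => hA.1.2 (E' j) (hA'.1.1 j)
  refine ⟨Matrix.of c, fun j => hcE j, fun j i => ?_⟩
  have hreg : GeR P 0 (c j i) := reg_geR (hc j i)
  have hδR : (0 : ℝ) ≤ δ := by exact_mod_cast hδ0
  have hδR1 : (δ : ℝ) ≤ 1 := by exact_mod_cast hδ1
  change GeR P (nuf δ i0' j - nuf δ i0 i) (c j i)
  by_cases hi : i = i0
  · by_cases hj : j = i0'
    · refine hreg.mono ?_
      unfold nuf
      rw [if_pos hi, if_pos hj]
      linarith
    · by_cases hδ : δ = 0
      · refine hreg.mono ?_
        unfold nuf
        rw [if_pos hi, if_neg hj, hδ]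
        simp
      · -- the coefficient vanishes along `P`
        obtain ⟨x', EL, l0, hL⟩ := exists_loc hn (hP.divisorial hy hn)
        have hlog : ∀ D : Derivation ℂ K K, DerLog P D → GeR P 1 (D (x' l0)) := by
          intro D hD
          have h1 := hD (x' l0)
          by_cases h0 : D (x' l0) = 0
          · exact Or.inl h0
          · right
            have hx0 : x' l0 ≠ 0 := by
              intro h
              have := hL.unif
              rw [h, P.ord_zero] at this
              exact absurd this (by norm_num)
            have h2 := (P.reg_iff (div_ne_zero h0 hx0)).1 h1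
            rw [P.ord_div h0 hx0, hL.unif] at h2
            have h3 : (1 : ℤ) ≤ P.ord (D (x' l0)) := by omega
            exact_mod_cast h3
        have hne1 : ¬ GeR P 1 (1 : K) := by
          rintro (h | h)
          · exact one_ne_zero h
          · rw [P.ord_one] at h
            norm_num at h
        -- the value of `E i0` at the uniformizer is a unit
        have hunit : ¬ GeR P 1 (E i0 (x' l0)) := by
          intro hcon
          apply hne1
          obtain ⟨d, hd, hdE⟩ := hA.1.2 (EL l0) (hL.pres l0)
          have h1 : (1 : K) = ∑ i, d i * E i (x' l0) := by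
            have h2 : EL l0 (x' l0) = (∑ i, d i • E i) (x' l0) :=
              congrArg (fun D : Derivation ℂ K K => D (x' l0)) hdE
            rw [hL.dual, if_pos rfl, sum_smul_apply] at h2
            exact h2
          rw [h1]
          refine Pool.Agent.Y174.OB.geR_sum _ _ _ fun i _ => ?_
          have h3 : GeR P 1 (E i (x' l0)) := by
            by_cases hi' : i = i0
            · rw [hi']
              exact hcon
            · exact hlog _ (hA.2 hδ i hi')
          exact ((reg_geR (hd i)).mul h3).mono (by norm_num)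
        have hE0 : E i0 (x' l0) ≠ 0 := fun h => hunit (Or.inl h)
        have hord : P.ord (E i0 (x' l0)) ≤ 0 := by
          by_contra hcon
          push Not at hcon
          apply hunit
          right
          have : (1 : ℤ) ≤ P.ord (E i0 (x' l0)) := by omega
          exact_mod_cast this
        have h1 : c j i0 * E i0 (x' l0) = E' j (x' l0) +
            ∑ i ∈ Finset.univ.erase i0, -(c j i * E i (x' l0)) := by
          have h2 : E' j (x' l0) = (∑ i, c j i • E i) (x' l0) :=
            congrArg (fun D : Derivation ℂ K K => D (x' l0)) (hcE j)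
          rw [sum_smul_apply, ← Finset.add_sum_erase _ _ (Finset.mem_univ i0)] at h2
          rw [h2, Finset.sum_neg_distrib]
          ring
        have h2 : GeR P 1 (c j i0 * E i0 (x' l0)) := by
          rw [h1]
          have h3 : GeR P 1 (E' j (x' l0)) := hlog _ (hA'.2 hδ j hj)
          have h4 : GeR P 1 (∑ i ∈ Finset.univ.erase i0, -(c j i * E i (x' l0))) := by
            refine Pool.Agent.Y174.OB.geR_sum _ _ _ fun i hi' => ?_
            have h5 : GeR P 1 (c j i * E i (x' l0)) :=
              ((reg_geR (hc j i)).mul (hlog _ (hA.2 hδ i (Finset.ne_of_mem_erase hi')))).mono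
                (by norm_num)
            rcases h5 with h5 | h5
            · left
              rw [h5, neg_zero]
            · right
              rwa [P.ord_neg]
          have h5 := Pool.Agent.Y174.OB.geR_sum (w := P) (Finset.univ : Finset (Fin 2)) 1
            ![E' j (x' l0), ∑ i ∈ Finset.univ.erase i0, -(c j i * E i (x' l0))]
            (fun i _ => by
              fin_cases i
              · exact h3
              · exact h4)
          rw [Fin.sum_univ_two] at h5
          exact h5
        rw [hi]
        by_cases h0 : c j i0 = 0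
        · exact Or.inl h0
        · right
          have h3 := h2.resolve_left (mul_ne_zero h0 hE0)
          rw [P.ord_mul h0 hE0] at h3
          push_cast at h3
          have h4 : (P.ord (E i0 (x' l0)) : ℝ) ≤ 0 := by exact_mod_cast hord
          unfold nuf
          rw [if_neg hj, if_pos rfl]
          linarith
  · refine hreg.mono ?_
    unfold nuf
    rw [if_neg hi]
    split_ifs
    · linarith
    · linarith

/-- the expansion of the minors of a product -/
theorem minor_expand {r : ℕ} (c : Matrix (Fin r) (Fin n) K) (A : Matrix (Fin n) (Fin n) K)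
    (I : Fin r → Fin n) : ((c * A).submatrix id I).det =
      ∑ J : Fin r → Fin n, (∏ s, A (J s) (I s)) * (c.submatrix id J).det := by
  classical
  obtain ⟨T, hT⟩ : ∃ T : MultilinearMap K (fun _ : Fin r => (Fin r → K)) K,
    T = (Matrix.detRowAlternating (R := K) (n := Fin r)).toMultilinearMap := ⟨_, rfl⟩
  have h1 := Sec.tens_lin T A.transpose (fun j k => c k j) I
  have h2 : T (fun s => ∑ j, A.transpose (I s) j • (fun k => c k j)) =
      ((c * A).submatrix id I).det := by
    rw [← Matrix.det_transpose, hT]
    change Matrix.det _ = _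
    congr 1
    ext s k
    change (∑ j, A.transpose (I s) j • (fun k => c k j)) k = (c * A) k (I s)
    rw [Finset.sum_apply, Matrix.mul_apply]
    refine Finset.sum_congr rfl fun j _ => ?_
    rw [Pi.smul_apply, smul_eq_mul, Matrix.transpose_apply, mul_comm]
  rw [h2] at h1
  rw [h1]
  refine Finset.sum_congr rfl fun J _ => ?_
  congr 1
  rw [← Matrix.det_transpose, hT]
  rfl

theorem wedge_le (hy : NormalModel y) (hn : Algebra.trdeg ℂ K = n) {P : Place ℂ K}
    (hP : IsPrimeDivisor y P) {δ : ℚ} (hδ0 : 0 ≤ δ) (hδ1 : δ ≤ 1) {r : ℕ}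
    {D : Fin r → Derivation ℂ K K} {e e' : ℝ} (h : WedgeOrd n δ P D e)
    (h' : WedgeOrd n δ P D e') : e' ≤ e := by
  classical
  obtain ⟨E, i0, c, hA, hD, h1, I, h2, h3⟩ := h
  obtain ⟨E', i0', c', hA', hD', h1', I', h2', h3'⟩ := h'
  obtain ⟨A, hAE, hAo⟩ := adapt_trans hy hn hP hδ0 hδ1 hA hA'
  have hess := hy.ess
  obtain ⟨x', EL, l0, hL⟩ := exists_loc hn (hP.divisorial hy hn)
  obtain ⟨hd1, hd2, hd3⟩ := det_loc hL hA.1
  have hEli : LinearIndependent K E := by
    rw [Fintype.linearIndependent_iff]
    intro g hg i
    by_contra hne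
    apply hd1
    apply Matrix.exists_vecMul_eq_zero_iff.1
    refine ⟨g, fun h0 => hne (congrFun h0 i), ?_⟩
    funext k
    rw [Matrix.vecMul, dotProduct, Pi.zero_apply]
    have h4 : (∑ i, g i • E i) (x' k) = (0 : Derivation ℂ K K) (x' k) :=
      congrArg (fun D : Derivation ℂ K K => D (x' k)) hg
    rw [sum_smul_apply] at h4
    exact h4
  have hcA : c = c' * A := by
    ext k j
    have h4 : ∑ j, (c k j - (c' * A) k j) • E j = 0 := by
      simp only [sub_smul, Finset.sum_sub_distrib]
      rw [← hD k, hD' k]
      simp only [hAE, Finset.smul_sum, smul_smul, Matrix.mul_apply, Finset.sum_smul]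
      rw [Finset.sum_comm, sub_self]
    exact sub_eq_zero.1 (Fintype.linearIndependent_iff.1 hEli _ h4 j)
  have h4 : GeR P (e' - ∑ s, nuf δ i0 (I s)) (c.submatrix id I).det := by
    rw [hcA, minor_expand]
    refine Pool.Agent.Y174.OB.geR_sum _ _ _ fun J _ => ?_
    have h5 := geR_prod' (P := P) (fun s => nuf δ i0' (J s) - nuf δ i0 (I s)) _
      (fun s => hAo (J s) (I s))
    have h6 : GeR P (e' - ∑ s, nuf δ i0' (J s)) (c'.submatrix id J).det := by
      rcases h1' J with h7 | h7
      · exact Or.inl h7
      · right
        rw [sum_nuf]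
        linarith
    refine (h5.mul h6).mono (le_of_eq ?_)
    rw [Finset.sum_sub_distrib]
    ring
  have h5 := h4.resolve_left h2
  rw [h3]
  rw [sum_nuf] at h5
  linarith

/-- **Uniqueness** of the order of a polyvector field. -/
theorem wedge_unique (hy : NormalModel y) (hn : Algebra.trdeg ℂ K = n) {P : Place ℂ K}
    (hP : IsPrimeDivisor y P) {δ : ℚ} (hδ0 : 0 ≤ δ) (hδ1 : δ ≤ 1) {r : ℕ}
    {D : Fin r → Derivation ℂ K K} {e e' : ℝ} (h : WedgeOrd n δ P D e)
    (h' : WedgeOrd n δ P D e') : e = e' :=
  le_antisymm (wedge_le hy hn hP hδ0 hδ1 h' h) (wedge_le hy hn hP hδ0 hδ1 h h')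

/-- the change of the polyvector field -/
theorem wedge_change {P : Place ℂ K} {δ : ℚ} {r : ℕ} {D D' : Fin r → Derivation ℂ K K}
    {A : Matrix (Fin r) (Fin r) K} (hA : A.det ≠ 0) (hD : ∀ k, D' k = ∑ l, A k l • D l) {e : ℝ}
    (h : WedgeOrd n δ P D e) : WedgeOrd n δ P D' (e + P.ord A.det) := by
  classical
  obtain ⟨E, i0, c, hAd, hDc, h1, I, h2, h3⟩ := h
  have hdet : ∀ J : Fin r → Fin n, ((A * c).submatrix id J).det =
      A.det * (c.submatrix id J).det := by
    intro J
    rw [← Matrix.det_mul]
    rfl
  refine ⟨E, i0, A * c, hAd, fun k => ?_, fun J => ?_, I, ?_, ?_⟩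
  · rw [hD k]
    simp only [hDc, Finset.smul_sum, smul_smul, Matrix.mul_apply, Finset.sum_smul]
    rw [Finset.sum_comm]
  · rw [hdet]
    by_cases h0 : (c.submatrix id J).det = 0
    · left
      rw [h0, mul_zero]
    · right
      have h4 := (h1 J).resolve_left h0
      rw [P.ord_mul hA h0]
      push_cast
      linarith
  · rw [hdet]
    exact mul_ne_zero hA h2
  · rw [hdet, P.ord_mul hA h2, h3]
    push_cast
    ring

end

end Pool.Agent.H897
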