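import Pool.Agent.H897.VD

/-!
Stable graded pieces of the space of the rational vector fields.
-/

set_option autoImplicit false
set_option linter.overlappingInstances false
set_option linter.unusedSectionVars false

open MvPolynomial FF Pool.Agent.W602.GT Pool.Agent.Y172 Pool.Agent.NH31 Pool.Agent.W603.LV
open Pool.Agent.N133.TB Pool.Agent.Y174 Pool.Agent.TH466.QG

namespace Pool.Agent.H897

section

variable {K M : Type} [Field K] [AddCommGroup M] [Module K M]

/-- the matrix of a change of a basis -/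
theorem basis_change {t : ℕ} {B D : Fin t → M} (hD : LinearIndependent K D)
    (h : Submodule.span K (Set.range D) = Submodule.span K (Set.range B)) :
    ∃ A : Matrix (Fin t) (Fin t) K, A.det ≠ 0 ∧ ∀ k, D k = ∑ l, A k l • B l := by
  classical
  have h1 : ∀ k, ∃ c : Fin t → K, ∑ l, c l • B l = D k := by
    intro k
    rw [← Submodule.mem_span_range_iff_exists_fun, ← h]
    exact Submodule.subset_span ⟨k, rfl⟩
  choose A hA using h1
  refine ⟨Matrix.of A, fun h0 => ?_, fun k => (hA k).symm⟩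
  obtain ⟨v, hv0, hv⟩ := Matrix.exists_vecMul_eq_zero_iff.2 h0
  apply hv0
  funext s
  refine Fintype.linearIndependent_iff.1 hD v ?_ s
  simp only [← hA, Finset.smul_sum, smul_smul]
  rw [Finset.sum_comm]
  refine Finset.sum_eq_zero fun k _ => ?_
  rw [← Finset.sum_smul]
  have h1 := congrFun hv k
  rw [Matrix.vecMul, dotProduct, Pi.zero_apply] at h1
  change (∑ i, v i * A i k) • B k = 0
  have h2 : ∑ i, v i * A i k = 0 := h1
  rw [h2, zero_smul]

theorem card_of_span {s : ℕ} {D : Fin s → M} (hD : LinearIndependent K D)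
    {F : Submodule K M} (h : Submodule.span K (Set.range D) = F) : Module.finrank K F = s := by
  rw [← h, finrank_span_eq_card hD, Fintype.card_fin]

end

section

variable {K : Type} [Field K] [Algebra ℂ K] {N n : ℕ} {y : Fin (N + 1) → K}

/-- The degree of the saturated subsheaf of the orbifold tangent sheaf of `(X, Δ)` with the generic
fibre `F`, with respect to `α`, is `d`: here `D` is a basis of `F`, and `e P` is the order of
`D 0 ∧ ⋯ ∧ D (s - 1)` along the prime divisor `P`. -/
def SubDeg (y : Fin (N + 1) → K) (n : ℕ) (Δ : Place ℂ K → ℚ) (α : Place ℂ K → ℝ)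
    (F : Submodule K (Derivation ℂ K K)) (d : ℝ) : Prop :=
  ∃ (s : ℕ) (D : Fin s → Derivation ℂ K K) (e : Place ℂ K → ℝ), LinearIndependent K D ∧
    Submodule.span K (Set.range D) = F ∧
    (∀ P, IsPrimeDivisor y P → WedgeOrd n (Δ P) P D (e P)) ∧ HasDeg y α e d

/-- **Stability of a graded piece** `V / W` with respect to `α`: for the subspaces `F` between `W`
and `V` the slope of `F / W` is smaller than the slope of `V / W`. -/
def StablePiece (y : Fin (N + 1) → K) (n : ℕ) (Δ : Place ℂ K → ℚ) (α : Place ℂ K → ℝ)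
    (W V : Submodule K (Derivation ℂ K K)) : Prop :=
  ∀ (F : Submodule K (Derivation ℂ K K)) (dW dF dV : ℝ), W < F → F < V →
    SubDeg y n Δ α W dW → SubDeg y n Δ α F dF → SubDeg y n Δ α V dV →
      ((Module.finrank K V : ℝ) - Module.finrank K W) * (dF - dW) <
        ((Module.finrank K F : ℝ) - Module.finrank K W) * (dV - dW)

/-- `T` is a section of the `m`-th tensor power of the dual of the orbifold sheaf with the generic
fibre `V`, with values in `L`, `ℓ = L P`, along the prime divisor `P` with the coefficient `δ`: the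
order of `T D` is at least the sum of the orders of the vector fields `D s`, minus `ℓ`. -/
def SubTensorAt (n : ℕ) (δ ℓ : ℚ) (P : Place ℂ K) {V : Submodule K (Derivation ℂ K K)} {m : ℕ}
    (T : MultilinearMap K (fun _ : Fin m => V) K) : Prop :=
  ∀ (D : Fin m → V) (e : Fin m → ℝ),
    (∀ s, WedgeOrd n δ P (fun _ : Fin 1 => (D s : Derivation ℂ K K)) (e s)) →
      T D = 0 ∨ ∑ s, e s - ℓ ≤ P.ord (T D)

/-- `Δ` is a boundary: a divisor with coefficients between `0` and `1` -/
def Boundary (y : Fin (N + 1) → K) (Δ : Place ℂ K → ℚ) : Prop :=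
  (∀ P, IsPrimeDivisor y P → 0 ≤ Δ P ∧ Δ P ≤ 1) ∧ {P | IsPrimeDivisor y P ∧ Δ P ≠ 0}.Finite

theorem HasDeg.unique {α e : Place ℂ K → ℝ} {s s' : ℝ} (h : HasDeg y α e s)
    (h' : HasDeg y α e s') : s = s' := by
  classical
  obtain ⟨S, h1, h2, h3⟩ := h
  rw [← h3]
  exact h'.sum_eq h1 fun P hP h0 => by
    by_contra hPS
    exact h0 (h2 P hP hPS)

/-- **The degree of a distribution is unique.** -/
theorem subDeg_unique (hy : NormalModel y) (hn : Algebra.trdeg ℂ K = n) {Δ : Place ℂ K → ℚ}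
    (hΔ : Boundary y Δ) {α : Place ℂ K → ℝ} (hα : MovableClass y α)
    {F : Submodule K (Derivation ℂ K K)} {d d' : ℝ} (h : SubDeg y n Δ α F d)
    (h' : SubDeg y n Δ α F d') : d = d' := by
  obtain ⟨s, D, e, h1, h2, h3, h4⟩ := h
  obtain ⟨s', D', e', h1', h2', h3', h4'⟩ := h'
  obtain rfl : s = s' := by
    rw [← card_of_span h1 h2, ← card_of_span h1' h2']
  obtain ⟨A, hA, hDA⟩ := basis_change (B := D) h1' (h2'.trans h2.symm)
  have h5 : HasDeg y α e' (d + 0) := (h4.add (hα.prin _ hA)).congr fun P hP =>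
    wedge_unique hy hn hP (hΔ.1 P hP).1 (hΔ.1 P hP).2 (wedge_change hA hDA (h3 P hP)) (h3' P hP)
  rw [add_zero] at h5
  exact h5.unique h4'

/-- the first vectors of a basis -/
theorem li_castLE {t s : ℕ} (hs : s ≤ t) {B : Fin t → Derivation ℂ K K}
    (hB : LinearIndependent K B) : LinearIndependent K fun i : Fin s => B (Fin.castLE hs i) :=
  hB.comp _ (Fin.castLE_injective hs)

/-- **Stable pieces.** -/
theorem piece_stable (hy : NormalModel y) (hn : Algebra.trdeg ℂ K = n)
    {Δ : Place ℂ K → ℚ} (hΔ : Boundary y Δ) {α : Place ℂ K → ℝ} (hα : MovableClass y α)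
    {W V : Submodule K (Derivation ℂ K K)} (hWV : W < V) (hst : StablePiece y n Δ α W V)
    {m : ℕ} (hm : 1 ≤ m) {T : MultilinearMap K (fun _ : Fin m => V) K} (hT0 : T ≠ 0)
    (hTW : ∀ (D : Fin m → V), (∃ s, (D s : Derivation ℂ K K) ∈ W) → T D = 0)
    {ℓ : Place ℂ K → ℚ} {lam : ℝ} (hℓ : HasDeg y α (fun P => ℓ P) lam)
    (hdeg : ∀ dW dV, SubDeg y n Δ α W dW → SubDeg y n Δ α V dV →
      ((Module.finrank K V : ℝ) - Module.finrank K W) * lam ≤ m * (dV - dW))
    (hTO : ∀ P, IsPrimeDivisor y P → SubTensorAt n (Δ P) (ℓ P) P T)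
    {q t : ℕ} {DW : Fin q → Derivation ℂ K K} {DV : Fin t → Derivation ℂ K K}
    (hDW : LinearIndependent K DW) (hDV : LinearIndependent K DV)
    (hDWs : Submodule.span K (Set.range DW) = W) (hDVs : Submodule.span K (Set.range DV) = V) :
    ∃ (N0 : ℕ) (g : K), 1 ≤ N0 ∧ g ≠ 0 ∧ ∀ P, IsPrimeDivisor y P → ∀ eW eV : ℝ,
      WedgeOrd n (Δ P) P DW eW → WedgeOrd n (Δ P) P DV eV →
        N0 * (m * (eV - eW) - ((t : ℝ) - q) * ℓ P) ≤ P.ord g := by
  classical
  obtain ⟨q', r, B, γ, rho, N0, f, ev, hr1, hB, hBW, hBV, hγ, hγ0, hrho, hN0, hf, hev, hloc⟩ :=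
    piece_flag hy hn hΔ.2 hWV hm (fun _ : Unit => T) ⟨(), hT0⟩ (fun _ => hTW)
      (ℓ := fun P => (ℓ P : ℝ)) (fun _ P hP D e he => hTO P hP D e he)
  obtain rfl : q' = q := by
    have h1 : LinearIndependent K fun i : Fin q' => B (Fin.castAdd r i) :=
      hB.comp _ (Fin.castAdd_injective q' r)
    rw [← card_of_span h1 hBW, ← card_of_span hDW hDWs]
  obtain rfl : t = q' + r := by
    rw [← card_of_span hB hBV, ← card_of_span hDV hDVs]
  have hdW : Module.finrank K W = q' := card_of_span hDW hDWs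
  have hdV : Module.finrank K V = q' + r := card_of_span hDV hDVs
  -- the degrees
  have hdg : ∀ s : ℕ, ∃ d : ℝ, s ≤ q' + r → HasDeg y α (ev s) d := by
    intro s
    by_cases hs : s ≤ q' + r
    · obtain ⟨d, hd⟩ := hasDeg_of_fin α (hev s hs).1
      exact ⟨d, fun _ => hd⟩
    · exact ⟨0, fun h => absurd h hs⟩
  choose sd hsd using hdg
  have hsubW : SubDeg y n Δ α W (sd q') := by
    refine ⟨q', fun i => B (Fin.castLE (Nat.le_add_right q' r) i), ev q',
      li_castLE _ hB, ?_, fun P hP => (hev q' (Nat.le_add_right _ _)).2 P hP,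
      hsd q' (Nat.le_add_right _ _)⟩
    rw [← hBW]
    rfl
  have hsubV : SubDeg y n Δ α V (sd (q' + r)) := by
    refine ⟨q' + r, fun i => B (Fin.castLE le_rfl i), ev (q' + r),
      li_castLE _ hB, ?_, fun P hP => (hev (q' + r) le_rfl).2 P hP, hsd (q' + r) le_rfl⟩
    rw [← hBV]
    rfl
  have hrpos : (0 : ℝ) < r := by exact_mod_cast hr1
  have hslope : (r : ℝ) * lam ≤ m * (sd (q' + r) - sd q') := by
    have h1 := hdeg _ _ hsubW hsubV
    rw [hdV, hdW] at h1
    push_cast at h1
    rw [add_sub_cancel_left] at h1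
    exact h1
  -- the numbers
  obtain ⟨l, rfl⟩ : ∃ l, r = l + 1 := ⟨r - 1, by omega⟩
  obtain ⟨g, hg⟩ : ∃ g : ℕ → ℝ, g = fun k => if h : k < l + 1 then (γ ⟨k, h⟩ : ℝ) else 0 :=
    ⟨_, rfl⟩
  have hgi : ∀ i : Fin (l + 1), g i = γ i := by
    intro i
    rw [hg]
    exact dif_pos i.2
  have hmono : ∀ k, k < l → g k ≤ g (k + 1) := by
    intro k hk
    have h1 := hgi ⟨k, by omega⟩
    have h2 := hgi ⟨k + 1, by omega⟩
    change g k = _ at h1
    change g (k + 1) = _ at h2
    rw [h1, h2]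
    have h3 : γ ⟨k, by omega⟩ ≤ γ ⟨k + 1, by omega⟩ := hγ (by
      rw [Fin.le_def]
      exact Nat.le_succ k)
    exact_mod_cast h3
  have hg0 : ∑ k ∈ Finset.range (l + 1), g k = 0 := by
    rw [Finset.sum_range]
    have : ∑ i, (γ i : ℝ) = 0 := by exact_mod_cast hγ0
    rw [← this]
    exact Finset.sum_congr rfl fun i _ => hgi i
  have hN0R : (0 : ℝ) < N0 := by exact_mod_cast hN0
  have hrhoR : (0 : ℝ) < rho := by exact_mod_cast hrho
  -- the degree of the local estimate
  have htot : N0 * ((m / (l + 1 : ℕ) : ℝ) * (sd (q' + (l + 1)) - sd q') - lam +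
      rho * ∑ k : Fin (l + 1), (γ k : ℝ) * (sd (q' + k + 1) - sd (q' + k))) ≤ 0 := by
    have h1 : HasDeg y α (fun P => ∑ k ∈ Finset.range (l + 1),
        g k * (ev (q' + k + 1) P + (-1) * ev (q' + k) P))
        (∑ k ∈ Finset.range (l + 1), g k * (sd (q' + k + 1) + (-1) * sd (q' + k))) :=
      hasDeg_sum (e := fun k P => g k * (ev (q' + k + 1) P + (-1) * ev (q' + k) P))
        (s := fun k => g k * (sd (q' + k + 1) + (-1) * sd (q' + k))) _ fun k hk => by
        have hk' := Finset.mem_range.1 hk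
        exact ((hsd _ (by omega)).add ((hsd _ (by omega)).smul _)).smul _
    have h2 : HasDeg y α (fun P => ((P.ord f : ℝ) + (-1) * (N0 * (((m / (l + 1 : ℕ) : ℝ) *
        (ev (q' + (l + 1)) P + (-1) * ev q' P) + (-1) * (ℓ P : ℝ)) + rho *
          ∑ k ∈ Finset.range (l + 1), g k * (ev (q' + k + 1) P + (-1) * ev (q' + k) P)))))
        (0 + (-1) * (N0 * (((m / (l + 1 : ℕ) : ℝ) *
        (sd (q' + (l + 1)) + (-1) * sd q') + (-1) * lam) + rho *
          ∑ k ∈ Finset.range (l + 1), g k * (sd (q' + k + 1) + (-1) * sd (q' + k))))) :=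
      (hα.prin f hf).add (((((((hsd _ le_rfl).add ((hsd _ (Nat.le_add_right _ _)).smul _)).smul
        _).add (hℓ.smul _)).add (h1.smul _)).smul _).smul _)
    have h3 := h2.nonneg hα.nonneg fun P hP => by
      have h4 := hloc P hP
      have h5 : ∑ k ∈ Finset.range (l + 1), g k * (ev (q' + k + 1) P + (-1) * ev (q' + k) P) =
          ∑ k : Fin (l + 1), (γ k : ℝ) * (ev (q' + k + 1) P - ev (q' + k) P) := by
        rw [Finset.sum_range]
        refine Finset.sum_congr rfl fun k _ => ?_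
        rw [hgi]
        ring
      rw [h5]
      linarith
    have h5 : ∑ k ∈ Finset.range (l + 1), g k * (sd (q' + k + 1) + (-1) * sd (q' + k)) =
        ∑ k : Fin (l + 1), (γ k : ℝ) * (sd (q' + k + 1) - sd (q' + k)) := by
      rw [Finset.sum_range]
      refine Finset.sum_congr rfl fun k _ => ?_
      rw [hgi]
      ring
    rw [h5] at h3
    linarith
  have hγz : ∀ k, γ k = 0 := by
    by_contra hne
    have hg2 : 0 < ∑ k ∈ Finset.range (l + 1), g k ^ 2 := by
      rw [Finset.sum_range]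
      have h1 : ∑ k : Fin (l + 1), g k ^ 2 = ∑ k : Fin (l + 1), (γ k : ℝ) ^ 2 :=
        Finset.sum_congr rfl fun k _ => by rw [hgi]
      rw [h1]
      push Not at hne
      obtain ⟨k, hk⟩ := hne
      have hk' : (γ k : ℝ) ≠ 0 := by exact_mod_cast hk
      exact Finset.sum_pos' (fun i _ => sq_nonneg _) ⟨k, Finset.mem_univ _, by positivity⟩
    have hpos := slopes_pos (l := l) (g := g) (s := fun k => sd (q' + k) - sd q')
      (c := -(sd (q' + (l + 1)) - sd q')) hmono hg0 hg2 (fun k hk => by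
        have hle : q' + (k + 1) ≤ q' + (l + 1) := by omega
        obtain ⟨F, hF⟩ : ∃ F : Submodule K (Derivation ℂ K K), F = Submodule.span K
          (Set.range fun i : Fin (q' + (k + 1)) => B (Fin.castLE hle i)) := ⟨_, rfl⟩
        have hFli := li_castLE hle hB
        have hFd : Module.finrank K F = q' + (k + 1) := card_of_span hFli hF.symm
        have hfinV : Module.Finite K V := Module.finite_of_finrank_pos (by rw [hdV]; omega)
        have hfinF : Module.Finite K F := Module.finite_of_finrank_pos (by rw [hFd]; omega)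
        have hWF : W < F := by
          refine lt_of_le_of_ne ?_ fun h => ?_
          · rw [← hBW, hF, Submodule.span_le]
            rintro _ ⟨i, rfl⟩
            exact Submodule.subset_span ⟨Fin.castLE (Nat.le_add_right _ _) i, rfl⟩
          · rw [h, hFd] at hdW
            omega
        have hFV : F < V := by
          refine lt_of_le_of_ne ?_ fun h => ?_
          · rw [← hBV, hF, Submodule.span_le]
            rintro _ ⟨i, rfl⟩
            exact Submodule.subset_span ⟨_, rfl⟩
          · rw [h, hdV] at hFd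
            omega
        have h1 := hst F _ (sd (q' + (k + 1))) _ hWF hFV hsubW
          ⟨q' + (k + 1), _, ev (q' + (k + 1)), hFli, hF.symm,
            fun P hP => (hev _ hle).2 P hP, hsd _ hle⟩ hsubV
        rw [hdV, hdW, hFd] at h1
        push_cast at h1
        linarith)
    have h1 : ∑ k : Fin (l + 1), (γ k : ℝ) * (sd (q' + k + 1) - sd (q' + k)) =
        g l * (sd (q' + (l + 1)) - sd q') -
          ∑ k ∈ Finset.range l, (g (k + 1) - g k) * (sd (q' + (k + 1)) - sd q') := by
      have h2 := abel_nat g (fun k => sd (q' + k + 1) - sd (q' + k)) l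
      have h3 : ∀ j, ∑ k ∈ Finset.range j, (sd (q' + k + 1) - sd (q' + k)) =
          sd (q' + j) - sd q' := by
        intro j
        have h4 := Finset.sum_range_sub (fun k => sd (q' + k)) j
        simpa [add_assoc] using h4
      simp only [h3] at h2
      rw [← h2, Finset.sum_range]
      exact Finset.sum_congr rfl fun k _ => by rw [hgi]
    rw [neg_neg] at hpos
    rw [h1] at htot
    have h2 : 0 ≤ (m / (l + 1 : ℕ) : ℝ) * (sd (q' + (l + 1)) - sd q') - lam := by
      have h3 : (m / (l + 1 : ℕ) : ℝ) * (sd (q' + (l + 1)) - sd q') - lam =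
          (m * (sd (q' + (l + 1)) - sd q') - (l + 1 : ℕ) * lam) / (l + 1 : ℕ) := by
        field_simp
      rw [h3]
      exact div_nonneg (by linarith) hrpos.le
    have h3 := mul_pos hrhoR hpos
    have h4 := mul_pos hN0R (add_pos_of_nonneg_of_pos h2 h3)
    linarith
  -- the change of the bases
  obtain ⟨AV, hAV, hDA⟩ := basis_change (B := B) hDV (hDVs.trans hBV.symm)
  obtain ⟨AW, hAW, hDAW⟩ := basis_change (B := fun i : Fin q' => B (Fin.castAdd (l + 1) i)) hDW
    (hDWs.trans hBW.symm)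
  obtain ⟨G, hG⟩ : ∃ G : K, G = f ^ (l + 1) * (AV.det * AW.det⁻¹) ^ (N0 * m) := ⟨_, rfl⟩
  have hG0 : G ≠ 0 := by
    rw [hG]
    exact mul_ne_zero (pow_ne_zero _ hf) (pow_ne_zero _ (mul_ne_zero hAV (inv_ne_zero hAW)))
  refine ⟨N0, G, hN0, hG0, fun P hP eW eV heW heV => ?_⟩
  have hGord : (P.ord G : ℝ) = (l + 1) * P.ord f + N0 * m * (P.ord AV.det - P.ord AW.det) := by
    rw [hG, P.ord_mul (pow_ne_zero _ hf) (pow_ne_zero _ (mul_ne_zero hAV (inv_ne_zero hAW))),
      P.ord_pow, P.ord_pow, P.ord_mul hAV (inv_ne_zero hAW), P.ord_inv]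
    push_cast
    ring
  have h1 : eV = ev (q' + (l + 1)) P + P.ord AV.det :=
    wedge_unique hy hn hP (hΔ.1 P hP).1 (hΔ.1 P hP).2 heV
      (wedge_change hAV hDA ((hev (q' + (l + 1)) le_rfl).2 P hP))
  have h2 : eW = ev q' P + P.ord AW.det :=
    wedge_unique hy hn hP (hΔ.1 P hP).1 (hΔ.1 P hP).2 heW
      (wedge_change hAW hDAW ((hev q' (Nat.le_add_right _ _)).2 P hP))
  have h3 := hloc P hP
  simp only [hγz, Rat.cast_zero, zero_mul, Finset.sum_const_zero, mul_zero, add_zero] at h3
  have h4 := mul_le_mul_of_nonneg_left h3 hrpos.le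
  have h5 : ((l + 1 : ℕ) : ℝ) * (N0 * ((m / (l + 1 : ℕ) : ℝ) * (ev (q' + (l + 1)) P - ev q' P) -
      ℓ P)) = N0 * (m * (ev (q' + (l + 1)) P - ev q' P) - (l + 1 : ℕ) * ℓ P) := by
    field_simp
  rw [h5] at h4
  rw [hGord, h1, h2]
  push_cast at h4 ⊢
  linarith

end

end Pool.Agent.H897
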