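import Pool.Agent.H897.VE

/-!
Towers of distributions whose graded pieces have an effective or a stable canonical class.
-/

set_option autoImplicit false
set_option linter.overlappingInstances false
set_option linter.unusedSectionVars false

open MvPolynomial FF Pool.Agent.W602.GT Pool.Agent.Y172 Pool.Agent.NH31 Pool.Agent.W603.LV
open Pool.Agent.N133.TB Pool.Agent.Y174 Pool.Agent.TH466.QG

namespace Pool.Agent.H897

section

variable {K : Type} [Field K] [Algebra ℂ K] {N n : ℕ} {y : Fin (N + 1) → K}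

/-- The divisor class `r L - m det (V / W)` is `ℚ`-effective, `r` the rank of `V / W`: here `DW`,
`DV` are bases of `W` and `V`, and `eV - eW` is the order of the induced section of
`det (V / W)`. -/
def PieceEff (y : Fin (N + 1) → K) (n : ℕ) (Δ : Place ℂ K → ℚ) (m : ℕ) (L : Place ℂ K → ℚ)
    (W V : Submodule K (Derivation ℂ K K)) : Prop :=
  ∃ (q t : ℕ) (DW : Fin q → Derivation ℂ K K) (DV : Fin t → Derivation ℂ K K),
    LinearIndependent K DW ∧ LinearIndependent K DV ∧ Submodule.span K (Set.range DW) = W ∧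
    Submodule.span K (Set.range DV) = V ∧ ∃ (N0 : ℕ) (g : K), 1 ≤ N0 ∧ g ≠ 0 ∧
      ∀ P, IsPrimeDivisor y P → ∀ eW eV : ℝ,
        WedgeOrd n (Δ P) P DW eW → WedgeOrd n (Δ P) P DV eV →
          N0 * (m * (eV - eW) - ((t : ℝ) - q) * L P) ≤ P.ord g

/-- `V / W` is stable for a movable class, and there is a nonzero section `T` of
`((V / W) ^ *) ^ ⊗ m ⊗ L` of slope at most `0`. -/
def PieceStable (y : Fin (N + 1) → K) (n : ℕ) (Δ : Place ℂ K → ℚ) (m : ℕ) (L : Place ℂ K → ℚ)
    (W V : Submodule K (Derivation ℂ K K)) : Prop :=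
  ∃ (α : Place ℂ K → ℝ) (lam : ℝ) (T : MultilinearMap K (fun _ : Fin m => V) K),
    MovableClass y α ∧ StablePiece y n Δ α W V ∧ HasDeg y α (fun P => L P) lam ∧
    (∀ dW dV, SubDeg y n Δ α W dW → SubDeg y n Δ α V dV →
      ((Module.finrank K V : ℝ) - Module.finrank K W) * lam ≤ m * (dV - dW)) ∧ T ≠ 0 ∧
    (∀ (D : Fin m → V), (∃ s, (D s : Derivation ℂ K K) ∈ W) → T D = 0) ∧
    ∀ P, IsPrimeDivisor y P → SubTensorAt n (Δ P) (L P) P T

/-- a wedge order exists -/
theorem wedge_exists (hy : NormalModel y) (hn : Algebra.trdeg ℂ K = n) (Δ : Place ℂ K → ℚ)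
    {t : ℕ} {B : Fin t → Derivation ℂ K K} (hB : LinearIndependent K B) {P : Place ℂ K}
    (hP : IsPrimeDivisor y P) : ∃ e : ℝ, WedgeOrd n (Δ P) P B e := by
  obtain ⟨x, E0, hx, hE0⟩ := exists_crd hn
  obtain ⟨w, hwf, hw⟩ := exists_canon hy hn hx hE0
  obtain ⟨B0, hB0⟩ := exists_coords (frame_of_dual hx hE0) B
  obtain ⟨U, nk, -, -, h3, -⟩ := loc_rect hy hn hx hE0 hw hB hB0 Δ hP
  exact ⟨_, h3 t le_rfl⟩

/-- the definition does not depend on the bases -/
theorem PieceEff.basis (hy : NormalModel y) (hn : Algebra.trdeg ℂ K = n) {Δ : Place ℂ K → ℚ}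
    (hΔ : Boundary y Δ) {m : ℕ} {L : Place ℂ K → ℚ} {W V : Submodule K (Derivation ℂ K K)}
    (h : PieceEff y n Δ m L W V) {q t : ℕ} {DW : Fin q → Derivation ℂ K K}
    {DV : Fin t → Derivation ℂ K K} (hDW : LinearIndependent K DW) (hDV : LinearIndependent K DV)
    (hDWs : Submodule.span K (Set.range DW) = W) (hDVs : Submodule.span K (Set.range DV) = V) :
    ∃ (N0 : ℕ) (g : K), 1 ≤ N0 ∧ g ≠ 0 ∧ ∀ P, IsPrimeDivisor y P → ∀ eW eV : ℝ,
      WedgeOrd n (Δ P) P DW eW → WedgeOrd n (Δ P) P DV eV →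
        N0 * (m * (eV - eW) - ((t : ℝ) - q) * L P) ≤ P.ord g := by
  obtain ⟨q', t', DW', DV', h1, h2, h3, h4, N0, g, hN0, hg, h5⟩ := h
  obtain rfl : q' = q := by rw [← card_of_span h1 h3, ← card_of_span hDW hDWs]
  obtain rfl : t' = t := by rw [← card_of_span h2 h4, ← card_of_span hDV hDVs]
  obtain ⟨AV, hAV, hDA⟩ := basis_change (B := DV') hDV (hDVs.trans h4.symm)
  obtain ⟨AW, hAW, hDAW⟩ := basis_change (B := DW') hDW (hDWs.trans h3.symm)
  have hne : AV.det * AW.det⁻¹ ≠ 0 := mul_ne_zero hAV (inv_ne_zero hAW)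
  refine ⟨N0, g * (AV.det * AW.det⁻¹) ^ (N0 * m), hN0, mul_ne_zero hg (pow_ne_zero _ hne),
    fun P hP eW eV heW heV => ?_⟩
  obtain ⟨eW', heW'⟩ := wedge_exists hy hn Δ h1 hP
  obtain ⟨eV', heV'⟩ := wedge_exists hy hn Δ h2 hP
  have h6 := h5 P hP eW' eV' heW' heV'
  have h7 : eV = eV' + P.ord AV.det := wedge_unique hy hn hP (hΔ.1 P hP).1 (hΔ.1 P hP).2 heV
    (wedge_change hAV hDA heV')
  have h8 : eW = eW' + P.ord AW.det := wedge_unique hy hn hP (hΔ.1 P hP).1 (hΔ.1 P hP).2 heW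
    (wedge_change hAW hDAW heW')
  rw [P.ord_mul hg (pow_ne_zero _ hne), P.ord_pow, P.ord_mul hAV (inv_ne_zero hAW), P.ord_inv,
    h7, h8]
  push_cast
  linarith

/-- **Stable pieces with a tensor have an effective canonical class.** -/
theorem PieceStable.eff (hy : NormalModel y) (hn : Algebra.trdeg ℂ K = n) {Δ : Place ℂ K → ℚ}
    (hΔ : Boundary y Δ) {m : ℕ} (hm : 1 ≤ m) {L : Place ℂ K → ℚ}
    {W V : Submodule K (Derivation ℂ K K)} (hWV : W < V) (h : PieceStable y n Δ m L W V) :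
    PieceEff y n Δ m L W V := by
  obtain ⟨α, lam, T, hα, hst, hL, hdeg, hT0, hTW, hTO⟩ := h
  have hess := hy.ess
  obtain ⟨x, E0, hx, hE0⟩ := exists_crd hn
  have hsp := span_of_frame (frame_of_dual hx hE0)
  have hfin0 : Module.Finite K (Derivation ℂ K K) := by
    classical
    exact ⟨⟨Finset.univ.image E0, by
      rw [Finset.coe_image, Finset.coe_univ, Set.image_univ, hsp]⟩⟩
  have hbas : ∀ F : Submodule K (Derivation ℂ K K), ∃ (s : ℕ) (D : Fin s → Derivation ℂ K K),
      LinearIndependent K D ∧ Submodule.span K (Set.range D) = F := by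
    intro F
    obtain ⟨b⟩ : Nonempty (Module.Basis (Fin (Module.finrank K F)) K F) :=
      ⟨Module.finBasis K F⟩
    refine ⟨_, fun i => (b i : Derivation ℂ K K), ?_, ?_⟩
    · exact b.linearIndependent.map' F.subtype (Submodule.ker_subtype F)
    · have h1 : Set.range (fun i => (b i : Derivation ℂ K K)) = F.subtype '' Set.range b := by
        rw [← Set.range_comp]
        rfl
      rw [h1, Submodule.span_image, b.span_eq, Submodule.map_top, Submodule.range_subtype]
  obtain ⟨q, DW, h1, h2⟩ := hbas W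
  obtain ⟨t, DV, h3, h4⟩ := hbas V
  exact ⟨q, t, DW, DV, h1, h3, h2, h4, piece_stable hy hn hΔ hα hWV hst hm hT0 hTW hL hdeg hTO
    h1 h3 h2 h4⟩

/-- bases of the subspaces -/
theorem exists_bas (hy : NormalModel y) (hn : Algebra.trdeg ℂ K = n)
    (F : Submodule K (Derivation ℂ K K)) : ∃ (D : Fin (Module.finrank K F) → Derivation ℂ K K),
      LinearIndependent K D ∧ Submodule.span K (Set.range D) = F := by
  have hess := hy.ess
  obtain ⟨x, E0, hx, hE0⟩ := exists_crd hn
  have hsp := span_of_frame (frame_of_dual hx hE0)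
  have hfin0 : Module.Finite K (Derivation ℂ K K) := by
    classical
    exact ⟨⟨Finset.univ.image E0, by
      rw [Finset.coe_image, Finset.coe_univ, Set.image_univ, hsp]⟩⟩
  obtain ⟨b⟩ : Nonempty (Module.Basis (Fin (Module.finrank K F)) K F) :=
    ⟨Module.finBasis K F⟩
  refine ⟨fun i => (b i : Derivation ℂ K K), ?_, ?_⟩
  · exact b.linearIndependent.map' F.subtype (Submodule.ker_subtype F)
  · have h1 : Set.range (fun i => (b i : Derivation ℂ K K)) = F.subtype '' Set.range b := by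
      rw [← Set.range_comp]
      rfl
    rw [h1, Submodule.span_image, b.span_eq, Submodule.map_top, Submodule.range_subtype]

theorem wedge_cast {δ : ℚ} {P : Place ℂ K} {r s : ℕ} (h : s = r)
    {B : Fin r → Derivation ℂ K K} {e : ℝ} (hB : WedgeOrd n δ P B e) :
    WedgeOrd n δ P (fun i => B (Fin.cast h i)) e := by
  subst h
  exact hB

/-- **Towers.** -/
theorem tower_sec (hy : NormalModel y) (hn : Algebra.trdeg ℂ K = n) {Δ : Place ℂ K → ℚ}
    (hΔ : Boundary y Δ) {k : ℕ} {V : ℕ → Submodule K (Derivation ℂ K K)} (hV0 : V 0 = ⊥)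
    (hVk : V k = ⊤) (m : ℕ → ℕ) (hm : ∀ i, i < k → 1 ≤ m i) (L : ℕ → Place ℂ K → ℚ)
    (hV : ∀ i, i < k → PieceEff y n Δ (m i) (L i) (V i) (V (i + 1))) :
    ∃ (M : ℕ) (ω : (Fin n → Derivation ℂ K K) → K), 1 ≤ M ∧ ω ≠ 0 ∧
      IsSection y n M (M • (fun P => Δ P + ∑ i ∈ Finset.range k,
        ((Module.finrank K (V (i + 1)) : ℚ) - Module.finrank K (V i)) / m i * L i P)) ω := by
  classical
  have hess := hy.ess
  obtain ⟨x, E0, hx, hE0⟩ := exists_crd hn
  obtain ⟨w, hwf, hw⟩ := exists_canon hy hn hx hE0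
  have hfr : IsFrame E0 := frame_of_dual hx hE0
  have hli : LinearIndependent K E0 := li_of_dual hE0
  have hsp := span_of_frame hfr
  choose D hD1 hD2 using fun i => exists_bas hy hn (V i)
  have hpiece : ∀ i, ∃ (N0 : ℕ) (g : K), i < k → (1 ≤ N0 ∧ g ≠ 0 ∧ ∀ P, IsPrimeDivisor y P →
      ∀ eW eV : ℝ, WedgeOrd n (Δ P) P (D i) eW → WedgeOrd n (Δ P) P (D (i + 1)) eV →
        N0 * (m i * (eV - eW) - ((Module.finrank K (V (i + 1)) : ℝ) -
          Module.finrank K (V i)) * L i P) ≤ P.ord g) := by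
    intro i
    by_cases hi : i < k
    · obtain ⟨N0, g, h⟩ := (hV i hi).basis hy hn hΔ (hD1 i) (hD1 (i + 1)) (hD2 i) (hD2 (i + 1))
      exact ⟨N0, g, fun _ => h⟩
    · exact ⟨0, 0, fun h => absurd h hi⟩
  choose N0 g hNg using hpiece
  -- the common multiple
  obtain ⟨M, hM⟩ : ∃ M : ℕ, M = ∏ i ∈ Finset.range k, (N0 i * m i) := ⟨_, rfl⟩
  have hNm : ∀ i ∈ Finset.range k, 1 ≤ N0 i * m i := fun i hi =>
    Nat.mul_pos (hNg i (Finset.mem_range.1 hi)).1 (hm i (Finset.mem_range.1 hi))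
  have hM1 : 1 ≤ M := by
    rw [hM]
    have h1 : 0 < ∏ i ∈ Finset.range k, (N0 i * m i) :=
      Finset.prod_pos fun i hi => Nat.lt_of_lt_of_le Nat.zero_lt_one (hNm i hi)
    exact h1
  have hc : ∀ i, ∃ c : ℕ, i < k → M = c * (N0 i * m i) := by
    intro i
    by_cases hi : i < k
    · obtain ⟨c, hc⟩ := Finset.dvd_prod_of_mem (fun i => N0 i * m i) (Finset.mem_range.2 hi)
      exact ⟨c, fun _ => by rw [hM, hc]; ring⟩
    · exact ⟨0, fun h => absurd h hi⟩
  choose c hc using hc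
  obtain ⟨G, hG⟩ : ∃ G : K, G = ∏ i ∈ Finset.range k, g i ^ c i := ⟨_, rfl⟩
  have hG0 : G ≠ 0 := by
    rw [hG]
    exact Finset.prod_ne_zero_iff.2 fun i hi => pow_ne_zero _ (hNg i (Finset.mem_range.1 hi)).2.1
  have hGord : ∀ P : Place ℂ K, (P.ord G : ℝ) =
      ∑ i ∈ Finset.range k, (c i : ℝ) * P.ord (g i) := by
    intro P
    have h1 : ∀ s : Finset ℕ, s ⊆ Finset.range k →
        (P.ord (∏ i ∈ s, g i ^ c i) : ℝ) = ∑ i ∈ s, (c i : ℝ) * P.ord (g i) := by
      intro s
      induction s using Finset.induction_on with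
      | empty => intro _; simp [P.ord_one]
      | insert a s ha ih =>
        intro hs
        have h2 := ih fun x hx => hs (Finset.mem_insert_of_mem hx)
        have h3 : ∏ i ∈ s, g i ^ c i ≠ 0 := Finset.prod_ne_zero_iff.2 fun i hi => pow_ne_zero _
          (hNg i (Finset.mem_range.1 (hs (Finset.mem_insert_of_mem hi)))).2.1
        have h4 : g a ≠ 0 := (hNg a (Finset.mem_range.1 (hs (Finset.mem_insert_self a s)))).2.1
        rw [Finset.prod_insert ha, Finset.sum_insert ha, P.ord_mul (pow_ne_zero _ h4) h3,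
          P.ord_pow]
        push_cast
        rw [h2]
    rw [hG]
    exact h1 _ (Finset.Subset.refl _)
  -- the top
  have hcard : Module.finrank K (V k) = n := by
    have h1 : Submodule.span K (Set.range E0) = V k := by rw [hVk, hsp]
    exact card_of_span hli h1
  have hrng : Submodule.span K (Set.range (D k)) =
      Submodule.span K (Set.range fun i => E0 (Fin.cast hcard i)) := by
    refine ((hD2 k).trans hVk).trans ?_
    have h1 : Set.range (fun i => E0 (Fin.cast hcard i)) = Set.range E0 := by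
      refine Set.Subset.antisymm ?_ ?_
      · rintro _ ⟨i, rfl⟩
        exact ⟨_, rfl⟩
      · rintro _ ⟨i, rfl⟩
        exact ⟨Fin.cast hcard.symm i, rfl⟩
    rw [h1, hsp]
  obtain ⟨A, hA, hDA⟩ := basis_change (B := fun i => E0 (Fin.cast hcard i)) (hD1 k) hrng
  have hwE0 : ∀ P, IsPrimeDivisor y P → ∀ e : ℝ, WedgeOrd n (Δ P) P (D k) e →
      e = P.ord A.det - w P - Δ P := by
    intro P hP e he
    have hE1 : ∀ i : Fin n, E0 i = ∑ j, (1 : Matrix (Fin n) (Fin n) K) i j • E0 j := by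
      intro i
      rw [Finset.sum_eq_single i]
      · rw [Matrix.one_apply_eq, one_smul]
      · intro j _ hj
        rw [Matrix.one_apply_ne (Ne.symm hj), zero_smul]
      · intro h
        exact absurd (Finset.mem_univ _) h
    obtain ⟨U, nk, -, -, h3, -, -, h4⟩ := loc_rect hy hn hx hE0 hw hli hE1 Δ hP
    have h5 := h3 n le_rfl
    rw [h4 le_rfl] at h5
    have h6 : ((1 : Matrix (Fin n) (Fin n) K).submatrix (Fin.castLE le_rfl) id).det = 1 := by
      have : ((1 : Matrix (Fin n) (Fin n) K).submatrix (Fin.castLE le_rfl) id) = 1 := by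
        ext i j
        rfl
      rw [this, Matrix.det_one]
    rw [h6, P.ord_one] at h5
    have h7 : WedgeOrd n (Δ P) P (fun i => E0 (Fin.cast hcard i))
        (((0 : ℤ) : ℝ) - w P - Δ P) := wedge_cast hcard h5
    have h8 := wedge_change hA hDA h7
    have h9 := wedge_unique hy hn hP (hΔ.1 P hP).1 (hΔ.1 P hP).2 he h8
    rw [h9]
    push_cast
    ring
  have hw0 : ∀ P, IsPrimeDivisor y P → ∀ e : ℝ, WedgeOrd n (Δ P) P (D 0) e → e = 0 := by
    intro P hP e he
    have h0 : Module.finrank K (V 0) = 0 := by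
      rw [hV0]
      exact finrank_bot K _
    obtain ⟨E, i0, C, h1, h2, h3, I, h4, h5⟩ := he
    have h6 : IsEmpty (Fin (Module.finrank K (V 0))) := by
      rw [h0]
      infer_instance
    rw [h5, Matrix.det_isEmpty, P.ord_one]
    simp
  -- the sum
  obtain ⟨G', hG'⟩ : ∃ G' : K, G' = G * (A.det ^ M)⁻¹ := ⟨_, rfl⟩
  have hG'0 : G' ≠ 0 := by
    rw [hG']
    exact mul_ne_zero hG0 (inv_ne_zero (pow_ne_zero _ hA))
  have hpl := frm_pluri x M G'
  refine ⟨M, frm x M G', hM1, ?_, hpl, fun P hP => (hw P hP _ _ _ hpl).2 (Or.inr ?_)⟩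
  · intro h0
    have h1 : frm x M G' E0 = G' := frm_eval hE0 _ _
    rw [h0] at h1
    exact hG'0 h1.symm
  rw [frm_eval hE0]
  have he : ∀ i, ∃ e : ℝ, WedgeOrd n (Δ P) P (D i) e := fun i => wedge_exists hy hn Δ (hD1 i) hP
  choose e he using he
  have h1 : ∀ i ∈ Finset.range k, (M : ℝ) * ((e (i + 1) - e i) -
      ((Module.finrank K (V (i + 1)) : ℝ) - Module.finrank K (V i)) / m i * L i P) ≤
        c i * P.ord (g i) := by
    intro i hi
    have hi' := Finset.mem_range.1 hi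
    have h2 := (hNg i hi').2.2 P hP (e i) (e (i + 1)) (he i) (he (i + 1))
    have h3 : (M : ℝ) = c i * (N0 i * m i) := by exact_mod_cast hc i hi'
    have h4 : (m i : ℝ) ≠ 0 := by
      have := hm i hi'
      have h5 : m i ≠ 0 := by omega
      exact_mod_cast h5
    have h5 := mul_le_mul_of_nonneg_left h2 (Nat.cast_nonneg (c i) : (0 : ℝ) ≤ c i)
    refine le_trans (le_of_eq ?_) h5
    rw [h3]
    field_simp
  have h2 := Finset.sum_le_sum h1
  rw [← hGord, ← Finset.mul_sum, Finset.sum_sub_distrib, Finset.sum_range_sub,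
    hwE0 P hP _ (he k), hw0 P hP _ (he 0)] at h2
  have h3 : (P.ord G' : ℝ) = P.ord G - M * P.ord A.det := by
    rw [hG', P.ord_mul hG0 (inv_ne_zero (pow_ne_zero _ hA)), P.ord_inv, P.ord_pow]
    push_cast
    ring
  have h4 : ((-((M • (fun P => Δ P + ∑ i ∈ Finset.range k,
        ((Module.finrank K (V (i + 1)) : ℚ) - Module.finrank K (V i)) / m i * L i P)) P) -
        (M : ℕ) * w P : ℚ) : ℝ) ≤ ((P.ord G' : ℚ) : ℝ) := by
    rw [smul_ap]
    push_cast
    rw [h3]
    linarith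
  exact_mod_cast h4

end

end Pool.Agent.H897
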