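import Pool.Agent.H897.MB

/-!
The order of the determinants of the intersection and of the sum of two distributions.
-/

set_option autoImplicit false
set_option linter.overlappingInstances false
set_option linter.unusedSectionVars false

open MvPolynomial FF Pool.Agent.W602.GT Pool.Agent.Y172 Pool.Agent.NH31 Pool.Agent.W603.LV
open Pool.Agent.N133.TB Pool.Agent.Y174 Pool.Agent.TH466.QG Pool.Agent.W619.PQ
open Pool.Agent.N133.OB Pool.Agent.Y191

namespace Pool.Agent.H897

section

variable {K : Type} [Field K] [Algebra ℂ K] {N n : ℕ} {y : Fin (N + 1) → K}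

/-- the coordinates of a vector field in an adapted frame -/
theorem single_coord (hy : NormalModel y) (hn : Algebra.trdeg ℂ K = n) {P : Place ℂ K}
    (hP : IsPrimeDivisor y P) {δ : ℚ} (hδ0 : 0 ≤ δ) (hδ1 : δ ≤ 1)
    {E : Fin n → Derivation ℂ K K} {i0 : Fin n} (hA : Adapted δ P E i0) {D : Derivation ℂ K K}
    {e : ℝ} (he : WedgeOrd n δ P (fun _ : Fin 1 => D) e) :
    ∃ c : Fin n → K, D = ∑ j, c j • E j ∧ ∀ j, GeR P (e - nuf δ i0 j) (c j) := by
  classical
  obtain ⟨E', i0', c', hA', hD', h1, -⟩ := he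
  obtain ⟨A, hAE, hAo⟩ := adapt_trans hy hn hP hδ0 hδ1 hA hA'
  refine ⟨fun j => ∑ J, c' 0 J * A J j, ?_, fun j => ?_⟩
  · have h2 := hD' 0
    change D = _ at h2
    rw [h2]
    simp only [hAE, Finset.smul_sum, smul_smul, Finset.sum_smul]
    rw [Finset.sum_comm]
  · refine Pool.Agent.Y174.OB.geR_sum _ _ _ fun J _ => ?_
    have h2 : GeR P (e - nuf δ i0' J) (c' 0 J) := by
      have h3 := h1 fun _ => J
      rw [Matrix.det_fin_one, Matrix.submatrix_apply, Fin.sum_univ_one] at h3
      rcases h3 with h3 | h3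
      · exact Or.inl h3
      · right
        change e ≤ P.ord (c' 0 J) - _ at h3
        have h4 : nuf δ i0' J = -(if J = i0' then (δ : ℝ) else 0) := by
          unfold nuf
          split_ifs <;> simp
        rw [h4]
        linarith
    refine (h2.mul (hAo J j)).mono (le_of_eq ?_)
    ring

/-- **The order of a wedge product** is at least the sum of the orders. -/
theorem wedge_ge (hy : NormalModel y) (hn : Algebra.trdeg ℂ K = n) {P : Place ℂ K}
    (hP : IsPrimeDivisor y P) {δ : ℚ} (hδ0 : 0 ≤ δ) (hδ1 : δ ≤ 1) {r : ℕ}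
    {D : Fin r → Derivation ℂ K K} {a : Fin r → ℝ}
    (ha : ∀ k, ∃ e, a k ≤ e ∧ WedgeOrd n δ P (fun _ : Fin 1 => D k) e) {e : ℝ}
    (he : WedgeOrd n δ P D e) : ∑ k, a k ≤ e := by
  classical
  obtain ⟨E, i0, c, hA, hD, h1, I, h2, h3⟩ := he
  obtain ⟨x', EL, l0, hL⟩ := by
    have hess := hy.ess
    exact exists_loc hn (hP.divisorial hy hn)
  obtain ⟨hd1, -, -⟩ := det_loc hL hA.1
  have hEli : LinearIndependent K E := by
    rw [Fintype.linearIndependent_iff]
    intro g hg i
    by_contra hne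
    apply hd1
    apply Matrix.exists_vecMul_eq_zero_iff.1
    refine ⟨g, fun h0 => hne (congrFun h0 i), ?_⟩
    funext k
    rw [Matrix.vecMul, dotProduct, Pi.zero_apply]
    have h4 : (∑ i, g i • E i) (x' k) = (0 : Derivation ℂ K K) (x' k) :=
      congrArg (fun D : Derivation ℂ K K => D (x' k)) hg
    rw [sum_smul_apply] at h4
    exact h4
  have hc : ∀ k j, GeR P (a k - nuf δ i0 j) (c k j) := by
    intro k j
    obtain ⟨e', h4, h5⟩ := ha k
    obtain ⟨c', h6, h7⟩ := single_coord hy hn hP hδ0 hδ1 hA h5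
    have h8 : c k j = c' j := by
      have h9 : ∑ j, (c k j - c' j) • E j = 0 := by
        simp only [sub_smul, Finset.sum_sub_distrib]
        rw [← hD k, ← h6, sub_self]
      exact sub_eq_zero.1 (Fintype.linearIndependent_iff.1 hEli _ h9 j)
    rw [h8]
    exact (h7 j).mono (by linarith)
  have h4 : GeR P (∑ k, a k - ∑ s, nuf δ i0 (I s)) (c.submatrix id I).det :=
    geR_det fun k s => hc k (I s)
  have h5 := h4.resolve_left h2
  rw [sum_nuf] at h5
  rw [h3]
  linarith

/-- **The modular inequality**, at a prime divisor. -/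
theorem wedge_modular (hy : NormalModel y) (hn : Algebra.trdeg ℂ K = n) {Δ : Place ℂ K → ℚ}
    (hΔ : Boundary y Δ) {P : Place ℂ K} (hP : IsPrimeDivisor y P) {q a c : ℕ}
    {W : Fin q → Derivation ℂ K K} {A : Fin a → Derivation ℂ K K} {C : Fin c → Derivation ℂ K K}
    (hli : LinearIndependent K (Fin.append (Fin.append W A) C))
    (hWC : LinearIndependent K (Fin.append W C)) {eW eA eC eS : ℝ}
    (h1 : WedgeOrd n (Δ P) P W eW) (h2 : WedgeOrd n (Δ P) P (Fin.append W A) eA)
    (h3 : WedgeOrd n (Δ P) P (Fin.append W C) eC)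
    (h4 : WedgeOrd n (Δ P) P (Fin.append (Fin.append W A) C) eS) : eA + eC ≤ eS + eW := by
  classical
  have hess := hy.ess
  obtain ⟨x, E0, hx, hE0⟩ := exists_crd hn
  obtain ⟨w, hwf, hw⟩ := exists_canon hy hn hx hE0
  have hfr : IsFrame E0 := frame_of_dual hx hE0
  have hWA : LinearIndependent K (Fin.append W A) := by
    have h5 := hli.comp _ (Fin.castAdd_injective (q + a) c)
    have h6 : (Fin.append (Fin.append W A) C) ∘ Fin.castAdd c = Fin.append W A := by
      funext i
      rw [Function.comp_apply, Fin.append_left]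
    rwa [h6] at h5
  obtain ⟨B1, hB1⟩ := exists_coords hfr (Fin.append W A)
  obtain ⟨B2, hB2⟩ := exists_coords hfr (Fin.append W C)
  obtain ⟨U1, n1, E1, i1, C1, -, -, -, hU1, hU1', hs1, hv1, -, -⟩ :=
    loc_rect2 hy hn hx hE0 hw hWA hB1 Δ hP
  obtain ⟨U2, n2, E2, i2, C2, -, -, -, hU2, hU2', hs2, hv2, -, -⟩ :=
    loc_rect2 hy hn hx hE0 hw hWC hB2 Δ hP
  have hδ := hΔ.1 P hP
  have hA' : eA = ∑ k, n1 k := wedge_unique hy hn hP hδ.1 hδ.2 h2 (hs1 (q + a) le_rfl)
  have hC' : eC = ∑ k, n2 k := wedge_unique hy hn hP hδ.1 hδ.2 h3 (hs2 (q + c) le_rfl)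
  have hW' : eW = ∑ k : Fin q, n2 (Fin.castAdd c k) := by
    refine wedge_unique hy hn hP hδ.1 hδ.2 h1 ?_
    have h5 := hs2 q (Nat.le_add_right _ _)
    have h6 : (fun i : Fin q => Fin.append W C (Fin.castLE (Nat.le_add_right q c) i)) = W := by
      funext i
      exact Fin.append_left W C i
    rw [h6] at h5
    exact h5
  -- the reduced vectors
  obtain ⟨D, hD⟩ : ∃ D : Fin ((q + a) + c) → Derivation ℂ K K,
    D = Fin.append (fun k => ∑ l, U1 k l • Fin.append W A l)
      (fun k : Fin c => ∑ l, U2 (Fin.natAdd q k) l • Fin.append W C l) := ⟨_, rfl⟩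
  obtain ⟨X, hX⟩ : ∃ X : Matrix (Fin c) (Fin (q + a)) K,
    X = Matrix.of fun k l => Fin.append (fun i : Fin q => U2 (Fin.natAdd q k) (Fin.castAdd c i))
      (fun _ : Fin a => (0 : K)) l := ⟨_, rfl⟩
  obtain ⟨U2c, hU2c⟩ : ∃ U2c : Matrix (Fin c) (Fin c) K,
    U2c = Matrix.of fun k l => U2 (Fin.natAdd q k) (Fin.natAdd q l) := ⟨_, rfl⟩
  obtain ⟨M, hM⟩ : ∃ M : Matrix (Fin ((q + a) + c)) (Fin ((q + a) + c)) K,
    M = bmat U1 0 X U2c := ⟨_, rfl⟩
  have hU1d : U1.det = 1 := by
    have h5 := det_block hU1 hU1' (f := id) Function.injective_id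
    exact h5
  have hU2d : U2c.det = 1 := by
    rw [hU2c]
    exact det_block hU2 hU2' (Fin.natAdd_injective _ q)
  have hMd : M.det = 1 := by
    rw [hM]
    unfold bmat
    rw [Matrix.det_submatrix_equiv_self, Matrix.det_fromBlocks_zero₁₂, hU1d, hU2d, mul_one]
  have hDM : ∀ k, D k = ∑ l, M k l • Fin.append (Fin.append W A) C l := by
    intro k
    rw [hD]
    refine Fin.addCases (fun i => ?_) (fun j => ?_) k
    · rw [Fin.append_left]
      conv_rhs => rw [Fin.sum_univ_add]
      have e2 : ∑ l : Fin c, M (Fin.castAdd c i) (Fin.natAdd (q + a) l) •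
          Fin.append (Fin.append W A) C (Fin.natAdd (q + a) l) = 0 :=
        Finset.sum_eq_zero fun l _ => by
          rw [hM, bmat_cn, Matrix.zero_apply, zero_smul]
      rw [e2, add_zero]
      refine Finset.sum_congr rfl fun l _ => ?_
      rw [hM, bmat_cc, Fin.append_left]
    · rw [Fin.append_right]
      conv_rhs => rw [Fin.sum_univ_add, Fin.sum_univ_add]
      have e2 : ∑ l : Fin a, M (Fin.natAdd (q + a) j) (Fin.castAdd c (Fin.natAdd q l)) •
          Fin.append (Fin.append W A) C (Fin.castAdd c (Fin.natAdd q l)) = 0 :=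
        Finset.sum_eq_zero fun l _ => by
          rw [hM, bmat_nc, hX, Matrix.of_apply, Fin.append_right, zero_smul]
      rw [e2, add_zero]
      conv_lhs => rw [Fin.sum_univ_add]
      congr 1
      · refine Finset.sum_congr rfl fun l _ => ?_
        rw [hM, bmat_nc, hX, Matrix.of_apply, Fin.append_left, Fin.append_left, Fin.append_left,
          Fin.append_left]
      · refine Finset.sum_congr rfl fun l _ => ?_
        rw [hM, bmat_nn, hU2c, Matrix.of_apply, Fin.append_right, Fin.append_right]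
  have h5 := wedge_change (A := M) (by rw [hMd]; exact one_ne_zero) hDM h4
  rw [hMd, P.ord_one, Int.cast_zero, add_zero] at h5
  have h6 := wedge_ge hy hn hP hδ.1 hδ.2 (D := D)
    (a := Fin.append n1 fun k : Fin c => n2 (Fin.natAdd q k)) (fun k => by
      refine Fin.addCases (fun i => ?_) (fun j => ?_) k
      · rw [Fin.append_left, hD, Fin.append_left]
        exact hv1 i
      · rw [Fin.append_right, hD, Fin.append_right]
        exact hv2 _) h5
  rw [Fin.sum_univ_add] at h6
  simp only [Fin.append_left, Fin.append_right] at h6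
  rw [hC', Fin.sum_univ_add, hW', hA']
  linarith

end

end Pool.Agent.H897
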