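import Pool.Agent.H897.WA

/-!
The determinants of the intersection and of the sum of two distributions of degree zero.
-/

set_option autoImplicit false
set_option linter.overlappingInstances false
set_option linter.unusedSectionVars false

open MvPolynomial FF Pool.Agent.W602.GT Pool.Agent.Y172 Pool.Agent.NH31 Pool.Agent.W603.LV
open Pool.Agent.N133.TB Pool.Agent.Y174 Pool.Agent.TH466.QG Pool.Agent.W619.PQ
open Pool.Agent.N133.OB Pool.Agent.Y191

namespace Pool.Agent.H897

section

variable {K M : Type} [Field K] [AddCommGroup M] [Module K M] [Module.Finite K M]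

/-- the extension of a basis -/
theorem ext_basis {W V : Submodule K M} (hWV : W ≤ V) {q : ℕ} {DW : Fin q → M}
    (hDW : LinearIndependent K DW) (hDWs : Submodule.span K (Set.range DW) = W) :
    ∃ (r : ℕ) (D' : Fin r → M), LinearIndependent K (Fin.append DW D') ∧
      Submodule.span K (Set.range (Fin.append DW D')) = V := by
  classical
  obtain ⟨C1, hC1⟩ := Submodule.exists_isCompl W
  obtain ⟨V', hV'⟩ : ∃ V' : Submodule K M, V' = C1 ⊓ V := ⟨_, rfl⟩
  have hV'V : V' ≤ V := by
    rw [hV']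
    exact inf_le_right
  have hsup : W ⊔ V' = V := by
    rw [hV', ← sup_inf_assoc_of_le C1 hWV, hC1.sup_eq_top, top_inf_eq]
  have hinf : W ⊓ V' = ⊥ := by
    rw [eq_bot_iff, hV', ← hC1.inf_eq_bot]
    exact inf_le_inf_left _ inf_le_left
  have hq : Module.finrank K W = q := card_of_span hDW hDWs
  obtain ⟨D', hD'⟩ : ∃ D' : Fin (Module.finrank K V') → M,
      Submodule.span K (Set.range D') = V' := by
    refine ⟨fun i => (Module.finBasis K V' i : M), ?_⟩
    have h1 := (Module.finBasis K V').span_eq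
    have h2 : Set.range (fun i => (Module.finBasis K V' i : M)) =
        V'.subtype '' Set.range (Module.finBasis K V') := by
      rw [← Set.range_comp]
      rfl
    rw [h2, Submodule.span_image, h1, Submodule.map_top, Submodule.range_subtype]
  have hspan : Submodule.span K (Set.range (Fin.append DW D')) = V := by
    apply le_antisymm
    · rw [Submodule.span_le]
      rintro _ ⟨i, rfl⟩
      refine Fin.addCases (fun i => ?_) (fun k => ?_) i
      · rw [Fin.append_left, ← hsup]
        refine Submodule.mem_sup_left ?_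
        rw [← hDWs]
        exact Submodule.subset_span ⟨i, rfl⟩
      · rw [Fin.append_right]
        refine hV'V ?_
        rw [← hD']
        exact Submodule.subset_span ⟨k, rfl⟩
    · rw [← hsup, sup_le_iff]
      constructor
      · rw [← hDWs, Submodule.span_le]
        rintro _ ⟨i, rfl⟩
        exact Submodule.subset_span ⟨Fin.castAdd _ i, by rw [Fin.append_left]⟩
      · conv_lhs => rw [← hD']
        rw [Submodule.span_le]
        rintro _ ⟨k, rfl⟩
        exact Submodule.subset_span ⟨Fin.natAdd q k, by rw [Fin.append_right]⟩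
  refine ⟨_, D', ?_, hspan⟩
  rw [linearIndependent_iff_card_eq_finrank_span, Fintype.card_fin]
  unfold Set.finrank
  rw [hspan]
  have h1 := Submodule.finrank_sup_add_finrank_inf_eq W V'
  rw [hsup, hinf, finrank_bot, add_zero] at h1
  rw [h1, hq]

/-- bases of the intersection and of the sum -/
theorem mod_basis (V1 V2 : Submodule K M) :
    ∃ (q a c : ℕ) (W : Fin q → M) (A : Fin a → M) (C : Fin c → M),
      LinearIndependent K W ∧ LinearIndependent K (Fin.append W A) ∧
      LinearIndependent K (Fin.append W C) ∧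
      LinearIndependent K (Fin.append (Fin.append W A) C) ∧
      Submodule.span K (Set.range W) = V1 ⊓ V2 ∧
      Submodule.span K (Set.range (Fin.append W A)) = V1 ∧
      Submodule.span K (Set.range (Fin.append W C)) = V2 ∧
      Submodule.span K (Set.range (Fin.append (Fin.append W A) C)) = V1 ⊔ V2 := by
  classical
  obtain ⟨W, hW, hWs⟩ : ∃ W : Fin (Module.finrank K (V1 ⊓ V2 : Submodule K M)) → M,
      LinearIndependent K W ∧ Submodule.span K (Set.range W) = V1 ⊓ V2 := by
    refine ⟨fun i => (Module.finBasis K (V1 ⊓ V2 : Submodule K M) i : M), ?_, ?_⟩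
    · exact (Module.finBasis K (V1 ⊓ V2 : Submodule K M)).linearIndependent.map'
        (V1 ⊓ V2).subtype (Submodule.ker_subtype _)
    · have h1 := (Module.finBasis K (V1 ⊓ V2 : Submodule K M)).span_eq
      have h2 : Set.range (fun i => (Module.finBasis K (V1 ⊓ V2 : Submodule K M) i : M)) =
          (V1 ⊓ V2).subtype '' Set.range (Module.finBasis K (V1 ⊓ V2 : Submodule K M)) := by
        rw [← Set.range_comp]
        rfl
      rw [h2, Submodule.span_image, h1, Submodule.map_top, Submodule.range_subtype]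
  obtain ⟨a, A, hA, hAs⟩ := ext_basis (V := V1) inf_le_left hW hWs
  obtain ⟨c, C, hC, hCs⟩ := ext_basis (V := V2) inf_le_right hW hWs
  have hspan : Submodule.span K (Set.range (Fin.append (Fin.append W A) C)) = V1 ⊔ V2 := by
    apply le_antisymm
    · rw [Submodule.span_le]
      rintro _ ⟨i, rfl⟩
      refine Fin.addCases (fun i => ?_) (fun k => ?_) i
      · rw [Fin.append_left]
        refine Submodule.mem_sup_left ?_
        conv => enter [1]; rw [← hAs]
        exact Submodule.subset_span ⟨i, rfl⟩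
      · rw [Fin.append_right]
        refine Submodule.mem_sup_right ?_
        conv => enter [1]; rw [← hCs]
        exact Submodule.subset_span ⟨Fin.natAdd _ k, by rw [Fin.append_right]⟩
    · rw [sup_le_iff]
      constructor
      · conv_lhs => rw [← hAs]
        rw [Submodule.span_le]
        rintro _ ⟨i, rfl⟩
        exact Submodule.subset_span ⟨Fin.castAdd _ i, by rw [Fin.append_left]⟩
      · conv_lhs => rw [← hCs]
        rw [Submodule.span_le]
        rintro _ ⟨i, rfl⟩
        refine Fin.addCases (fun i => ?_) (fun k => ?_) i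
        · exact Submodule.subset_span ⟨Fin.castAdd _ (Fin.castAdd _ i), by
            rw [Fin.append_left, Fin.append_left, Fin.append_left]⟩
        · exact Submodule.subset_span ⟨Fin.natAdd _ k, by
            rw [Fin.append_right, Fin.append_right]⟩
  refine ⟨_, a, c, W, A, C, hW, hA, hC, ?_, hWs, hAs, hCs, hspan⟩
  rw [linearIndependent_iff_card_eq_finrank_span, Fintype.card_fin]
  unfold Set.finrank
  rw [hspan]
  have h1 := Submodule.finrank_sup_add_finrank_inf_eq V1 V2
  have h2 := card_of_span hA hAs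
  have h3 := card_of_span hC hCs
  omega

end

section

variable {K : Type} [Field K] [Algebra ℂ K] {N n : ℕ} {y : Fin (N + 1) → K}

/-- `e` is the divisor of the determinant of a basis of `F`. -/
def OrdFun (y : Fin (N + 1) → K) (n : ℕ) (Δ : Place ℂ K → ℚ) (F : Submodule K (Derivation ℂ K K))
    (e : Place ℂ K → ℝ) : Prop :=
  ∃ (t : ℕ) (D : Fin t → Derivation ℂ K K), LinearIndependent K D ∧
    Submodule.span K (Set.range D) = F ∧ ∀ P, IsPrimeDivisor y P → WedgeOrd n (Δ P) P D (e P)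

theorem OrdFun.deg (hy : NormalModel y) (hn : Algebra.trdeg ℂ K = n) {Δ : Place ℂ K → ℚ}
    (hΔ : Boundary y Δ) {α : Place ℂ K → ℝ} (hα : MovableClass y α)
    {F : Submodule K (Derivation ℂ K K)} {e : Place ℂ K → ℝ} (h : OrdFun y n Δ F e) {d : ℝ}
    (hd : SubDeg y n Δ α F d) : HasDeg y α e d := by
  obtain ⟨t, D, h1, h2, h3⟩ := h
  obtain ⟨e', h4, h5⟩ := wedge_fun hy hn hΔ.2 h1
  have h6 : {P | IsPrimeDivisor y P ∧ e P ≠ 0}.Finite := by
    refine h5.subset ?_
    rintro P ⟨hP, h0⟩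
    refine ⟨hP, fun h7 => h0 ?_⟩
    rw [wedge_unique hy hn hP (hΔ.1 P hP).1 (hΔ.1 P hP).2 (h3 P hP) (h4 P hP), h7]
  obtain ⟨d', hd'⟩ := hasDeg_of_fin α h6
  have h7 : SubDeg y n Δ α F d' := ⟨t, D, e, h1, h2, h3, hd'⟩
  rw [subDeg_unique hy hn hΔ hα hd h7]
  exact hd'

theorem OrdFun.det {Δ L : Place ℂ K → ℚ} {F : Submodule K (Derivation ℂ K K)}
    {e : Place ℂ K → ℝ} (h : OrdFun y n Δ F e) {b : ℚ} (hb : DetMultiple y n Δ L F b) :
    QPrin y (fun P => e P - b * L P) := by
  obtain ⟨t, D, h1, h2, h3⟩ := h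
  exact det_basis hb h1 h2 h3

/-- an effective divisor which is linearly equivalent to a multiple of `L` -/
theorem qeff_of {e : Place ℂ K → ℝ} {L : Place ℂ K → ℚ} {c : ℚ}
    (h : QPrin y (fun P => e P - c * L P)) (h0 : ∀ P, IsPrimeDivisor y P → 0 ≤ e P) :
    QEff y (fun P => c * L P) := by
  obtain ⟨M, g, hM, hg, h1⟩ := h
  refine ⟨M, g, hM, hg, fun P hP => ?_⟩
  have h2 : (M : ℝ) * (e P - c * L P) = P.ord g := h1 P hP
  have h3 := mul_nonneg (Nat.cast_nonneg (α := ℝ) M) (h0 P hP)
  have h4 : (0 : ℝ) ≤ (((P.ord g : ℤ) : ℚ) + M * (c * L P) : ℚ) := by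
    push_cast
    rw [← h2]
    linarith
  exact_mod_cast h4

/-- **The modular inequality.** -/
theorem modular_ord (hy : NormalModel y) (hn : Algebra.trdeg ℂ K = n) {Δ : Place ℂ K → ℚ}
    (hΔ : Boundary y Δ) (V1 V2 : Submodule K (Derivation ℂ K K)) :
    ∃ eI e1 e2 eS : Place ℂ K → ℝ, OrdFun y n Δ (V1 ⊓ V2) eI ∧ OrdFun y n Δ V1 e1 ∧
      OrdFun y n Δ V2 e2 ∧ OrdFun y n Δ (V1 ⊔ V2) eS ∧
      ∀ P, IsPrimeDivisor y P → e1 P + e2 P ≤ eS P + eI P := by
  classical
  obtain ⟨hfin, -⟩ := fin_der hy hn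
  obtain ⟨q, a, c, W, A, C, hW, hA, hC, hS, h1, h2, h3, h4⟩ := mod_basis V1 V2
  obtain ⟨eI, hI, -⟩ := wedge_fun hy hn hΔ.2 hW
  obtain ⟨e1, he1, -⟩ := wedge_fun hy hn hΔ.2 hA
  obtain ⟨e2, he2, -⟩ := wedge_fun hy hn hΔ.2 hC
  obtain ⟨eS, hSo, -⟩ := wedge_fun hy hn hΔ.2 hS
  exact ⟨eI, e1, e2, eS, ⟨q, W, hW, h1, hI⟩, ⟨_, _, hA, h2, he1⟩, ⟨_, _, hC, h3, he2⟩,
    ⟨_, _, hS, h4, hSo⟩, fun P hP => wedge_modular hy hn hΔ hP hS hC (hI P hP) (he1 P hP)
      (he2 P hP) (hSo P hP)⟩

/-- semistability of degree zero -/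
theorem semi_nonpos (hn1 : 1 ≤ n) {Δ : Place ℂ K → ℚ} {α : Place ℂ K → ℝ}
    (hss : SemistableTangent y n Δ α 0) {F : Submodule K (Derivation ℂ K K)} {d : ℝ}
    (h : SubDeg y n Δ α F d) : d ≤ 0 := by
  have h1 := hss F d h
  rw [mul_zero, neg_zero] at h1
  have hn0 : (0 : ℝ) < n := by exact_mod_cast hn1
  by_contra hcon
  push Not at hcon
  have := mul_pos hn0 hcon
  linarith

/-- **The distributions of degree zero form a lattice.** -/
theorem zero_lattice (hy : NormalModel y) (hn : Algebra.trdeg ℂ K = n) (hn1 : 1 ≤ n)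
    {Δ : Place ℂ K → ℚ} (hΔ : Boundary y Δ) {α : Place ℂ K → ℝ} (hα : MovableClass y α)
    (hss : SemistableTangent y n Δ α 0) {V1 V2 : Submodule K (Derivation ℂ K K)}
    (h1 : SubDeg y n Δ α V1 0) (h2 : SubDeg y n Δ α V2 0) :
    SubDeg y n Δ α (V1 ⊓ V2) 0 ∧ SubDeg y n Δ α (V1 ⊔ V2) 0 := by
  obtain ⟨eI, e1, e2, eS, hI, he1, he2, hS, hle⟩ := modular_ord hy hn hΔ V1 V2
  obtain ⟨dI, hdI⟩ := subDeg_exists hy hn hΔ α (V1 ⊓ V2)
  obtain ⟨dS, hdS⟩ := subDeg_exists hy hn hΔ α (V1 ⊔ V2)
  have h3 := (((hS.deg hy hn hΔ hα hdS).add (hI.deg hy hn hΔ hα hdI)).add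
    ((((he1.deg hy hn hΔ hα h1)).add (he2.deg hy hn hΔ hα h2)).smul (-1))).nonneg hα.nonneg
      fun P hP => by
        have := hle P hP
        linarith
  have h4 := semi_nonpos hn1 hss hdI
  have h5 := semi_nonpos hn1 hss hdS
  have h6 : dI = 0 := by linarith
  have h7 : dS = 0 := by linarith
  rw [h6] at hdI
  rw [h7] at hdS
  exact ⟨hdI, hdS⟩

/-- **The modular inequality** for the multiples of `L`. -/
theorem det_modular (hy : NormalModel y) (hn : Algebra.trdeg ℂ K = n) {Δ L : Place ℂ K → ℚ}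
    (hΔ : Boundary y Δ) {V1 V2 : Submodule K (Derivation ℂ K K)} {b1 b2 bI bS : ℚ}
    (h1 : DetMultiple y n Δ L V1 b1) (h2 : DetMultiple y n Δ L V2 b2)
    (hI : DetMultiple y n Δ L (V1 ⊓ V2) bI) (hS : DetMultiple y n Δ L (V1 ⊔ V2) bS) :
    QEff y (fun P => (bS + bI - b1 - b2) * L P) := by
  obtain ⟨eI, e1, e2, eS, hI', he1, he2, hS', hle⟩ := modular_ord hy hn hΔ V1 V2
  refine qeff_of (e := fun P => (eS P + eI P) + (-1 : ℚ) * (e1 P + e2 P)) ?_ fun P hP => by
    have := hle P hP
    push_cast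
    linarith
  have h3 := ((hS'.det hS).add (hI'.det hI)).add (((he1.det h1).add (he2.det h2)).smul (-1))
  refine h3.congr fun P _ => ?_
  push_cast
  ring

end

end Pool.Agent.H897
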