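import Pool.Agent.H897.WC

/-!
The orthogonal complement of a distribution with respect to a symplectic form.
-/

set_option autoImplicit false
set_option linter.overlappingInstances false
set_option linter.unusedSectionVars false

open MvPolynomial FF Pool.Agent.W602.GT Pool.Agent.Y172 Pool.Agent.NH31 Pool.Agent.W603.LV
open Pool.Agent.N133.TB Pool.Agent.Y174 Pool.Agent.TH466.QG Pool.Agent.W619.PQ
open Pool.Agent.N133.OB Pool.Agent.Y191

namespace Pool.Agent.H897

section

variable {K : Type} [Field K] [Algebra ℂ K] {N n : ℕ} {y : Fin (N + 1) → K}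

/-- The bilinear form `σ` on the rational vector fields is regular along the prime divisor `P` with
the coefficient `δ`: the order of `σ D D'` is at least the sum of the orders of `D` and `D'`. -/
def FormAt (n : ℕ) (δ : ℚ) (P : Place ℂ K)
    (σ : LinearMap.BilinForm K (Derivation ℂ K K)) : Prop :=
  ∀ (D D' : Derivation ℂ K K) (e e' : ℝ), WedgeOrd n δ P (fun _ : Fin 1 => D) e →
    WedgeOrd n δ P (fun _ : Fin 1 => D') e' → σ D D' = 0 ∨ e + e' ≤ P.ord (σ D D')

/-- the local inequality -/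
theorem perp_local (hy : NormalModel y) (hn : Algebra.trdeg ℂ K = n) {Δ : Place ℂ K → ℚ}
    (hΔ : Boundary y Δ) {P : Place ℂ K} (hP : IsPrimeDivisor y P)
    {σ : LinearMap.BilinForm K (Derivation ℂ K K)} (hσ : FormAt n (Δ P) P σ) {q p : ℕ}
    {A : Fin q → Derivation ℂ K K} {B : Fin p → Derivation ℂ K K} {C : Fin q → Derivation ℂ K K}
    (hA : LinearIndependent K A) (hBC : LinearIndependent K (Fin.append B C))
    (hBA : ∀ i j, σ (B i) (A j) = 0) (hdet : (Matrix.of fun i j => σ (C i) (A j)).det ≠ 0)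
    {eA eB eT : ℝ} (h1 : WedgeOrd n (Δ P) P A eA) (h2 : WedgeOrd n (Δ P) P B eB)
    (h3 : WedgeOrd n (Δ P) P (Fin.append B C) eT) :
    eA + eT - eB ≤ P.ord (Matrix.of fun i j => σ (C i) (A j)).det := by
  classical
  have hess := hy.ess
  obtain ⟨x, E0, hx, hE0⟩ := exists_crd hn
  obtain ⟨w, hwf, hw⟩ := exists_canon hy hn hx hE0
  have hfr : IsFrame E0 := frame_of_dual hx hE0
  obtain ⟨B1, hB1⟩ := exists_coords hfr A
  obtain ⟨B2, hB2⟩ := exists_coords hfr (Fin.append B C)
  obtain ⟨U1, n1, E1, i1, C1, -, -, -, hU1, hU1', hs1, hv1, -, -⟩ :=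
    loc_rect2 hy hn hx hE0 hw hA hB1 Δ hP
  obtain ⟨U2, n2, E2, i2, C2, -, -, -, hU2, hU2', hs2, hv2, -, -⟩ :=
    loc_rect2 hy hn hx hE0 hw hBC hB2 Δ hP
  have hδ := hΔ.1 P hP
  have hA' : eA = ∑ k, n1 k := wedge_unique hy hn hP hδ.1 hδ.2 h1 (hs1 q le_rfl)
  have hT' : eT = ∑ k, n2 k := wedge_unique hy hn hP hδ.1 hδ.2 h3 (hs2 (p + q) le_rfl)
  have hB' : eB = ∑ k : Fin p, n2 (Fin.castAdd q k) := by
    refine wedge_unique hy hn hP hδ.1 hδ.2 h2 ?_
    have h5 := hs2 p (Nat.le_add_right _ _)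
    have h6 : (fun i : Fin p => Fin.append B C (Fin.castLE (Nat.le_add_right p q) i)) = B := by
      funext i
      exact Fin.append_left B C i
    rw [h6] at h5
    exact h5
  obtain ⟨U2c, hU2c⟩ : ∃ U2c : Matrix (Fin q) (Fin q) K,
    U2c = Matrix.of fun k l => U2 (Fin.natAdd p k) (Fin.natAdd p l) := ⟨_, rfl⟩
  have hU1d : U1.det = 1 := by
    have h5 := det_block hU1 hU1' (f := id) Function.injective_id
    exact h5
  have hU2d : U2c.det = 1 := by
    rw [hU2c]
    exact det_block hU2 hU2' (Fin.natAdd_injective _ p)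
  obtain ⟨G, hG⟩ : ∃ G : Matrix (Fin q) (Fin q) K, G = Matrix.of fun i j => σ (C i) (A j) :=
    ⟨_, rfl⟩
  obtain ⟨G', hG'⟩ : ∃ G' : Matrix (Fin q) (Fin q) K, G' = Matrix.of fun k j =>
    σ (∑ l, U2 (Fin.natAdd p k) l • Fin.append B C l) (∑ l, U1 j l • A l) := ⟨_, rfl⟩
  have hGG : G' = U2c * G * U1.transpose := by
    ext k j
    rw [hG', Matrix.of_apply, Matrix.mul_apply]
    have h5 : ∀ v : Derivation ℂ K K, σ v (∑ l, U1 j l • A l) = ∑ l, U1 j l * σ v (A l) := by
      intro v
      rw [map_sum]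
      refine Finset.sum_congr rfl fun l _ => ?_
      rw [map_smul, smul_eq_mul]
    rw [h5]
    refine Finset.sum_congr rfl fun l _ => ?_
    rw [Matrix.transpose_apply, mul_comm]
    congr 1
    rw [Fin.sum_univ_add, map_add, LinearMap.add_apply]
    have h6 : σ (∑ i : Fin p, U2 (Fin.natAdd p k) (Fin.castAdd q i) •
        Fin.append B C (Fin.castAdd q i)) (A l) = 0 := by
      rw [map_sum, LinearMap.sum_apply]
      refine Finset.sum_eq_zero fun i _ => ?_
      rw [Fin.append_left, map_smul, LinearMap.smul_apply, hBA, smul_zero]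
    rw [h6, zero_add, map_sum, LinearMap.sum_apply, Matrix.mul_apply]
    refine Finset.sum_congr rfl fun i _ => ?_
    rw [Fin.append_right, map_smul, LinearMap.smul_apply, smul_eq_mul, hU2c, hG]
    rfl
  have hdG : G'.det = G.det := by
    rw [hGG, Matrix.det_mul, Matrix.det_mul, hU2d, Matrix.det_transpose, hU1d, one_mul, mul_one]
  have h5 : GeR P (∑ k : Fin q, n2 (Fin.natAdd p k) - ∑ s, -n1 s) G'.det := by
    refine geR_det fun k s => ?_
    obtain ⟨e, he, hwe⟩ := hv2 (Fin.natAdd p k)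
    obtain ⟨e', he', hwe'⟩ := hv1 s
    rw [hG', Matrix.of_apply]
    rcases hσ _ _ e e' hwe hwe' with h6 | h6
    · exact Or.inl h6
    · right
      linarith
  rw [← hG] at hdet ⊢
  rw [hdG] at h5
  have h6 := h5.resolve_left hdet
  rw [Finset.sum_neg_distrib] at h6
  rw [hT', Fin.sum_univ_add, hB', hA']
  linarith

/-- **The duality inequality.** -/
theorem perp_ord (hy : NormalModel y) (hn : Algebra.trdeg ℂ K = n) {Δ : Place ℂ K → ℚ}
    (hΔ : Boundary y Δ) {σ : LinearMap.BilinForm K (Derivation ℂ K K)}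
    (halt : ∀ D, σ D D = 0) (hnd : ∀ D, (∀ D', σ D D' = 0) → D = 0)
    (hσ : ∀ P, IsPrimeDivisor y P → FormAt n (Δ P) P σ)
    (G : Submodule K (Derivation ℂ K K)) :
    ∃ (eG eC eT : Place ℂ K → ℝ) (g : K), g ≠ 0 ∧ OrdFun y n Δ G eG ∧
      OrdFun y n Δ (σ.orthogonal G) eC ∧ OrdFun y n Δ ⊤ eT ∧
      ∀ P, IsPrimeDivisor y P → eG P + eT P - eC P ≤ P.ord g := by
  classical
  obtain ⟨hfin, hrk⟩ := fin_der hy hn
  have hanti : ∀ D D', σ D D' = -σ D' D := by
    intro D D'
    have h1 := halt (D + D')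
    simp only [map_add, LinearMap.add_apply, halt] at h1
    linear_combination h1
  have hrefl : σ.IsRefl := by
    intro D D' h
    rw [hanti, h, neg_zero]
  have hnon : σ.Nondegenerate := by
    refine (LinearMap.BilinForm.nondegenerate_iff_ker_eq_bot).2 ?_
    rw [LinearMap.ker_eq_bot']
    intro D hD
    exact hnd D fun D' => by rw [hD]; rfl
  obtain ⟨A, hA, hAs⟩ := exists_bas hy hn G
  obtain ⟨B, hB, hBs⟩ := exists_bas hy hn (σ.orthogonal G)
  obtain ⟨r, C, hBC, hBCs⟩ := ext_basis (V := ⊤) le_top hB hBs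
  have h1 := LinearMap.BilinForm.finrank_orthogonal hnon G
  have h2 := card_of_span hBC hBCs
  rw [finrank_top] at h2
  have h3 : r = Module.finrank K G := by
    have h4 := Submodule.finrank_le G
    omega
  subst h3
  obtain ⟨eG, heG, -⟩ := wedge_fun hy hn hΔ.2 hA
  obtain ⟨eC, heC, -⟩ := wedge_fun hy hn hΔ.2 hB
  obtain ⟨eT, heT, -⟩ := wedge_fun hy hn hΔ.2 hBC
  have hBA : ∀ i j, σ (B i) (A j) = 0 := by
    intro i j
    have h5 : B i ∈ σ.orthogonal G := by
      rw [← hBs]
      exact Submodule.subset_span ⟨i, rfl⟩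
    have h6 : A j ∈ G := by
      conv => enter [1]; rw [← hAs]
      exact Submodule.subset_span ⟨j, rfl⟩
    have h7 := LinearMap.BilinForm.mem_orthogonal_iff.1 h5 _ h6
    rw [hanti, h7, neg_zero]
  have hdet : (Matrix.of fun i j => σ (C i) (A j)).det ≠ 0 := by
    intro h0
    obtain ⟨v, hv0, hv⟩ := Matrix.exists_vecMul_eq_zero_iff.2 h0
    have h5 : ∑ i, v i • C i ∈ σ.orthogonal G := by
      rw [LinearMap.BilinForm.mem_orthogonal_iff]
      intro D hD
      have h6 : D ∈ Submodule.span K (Set.range A) := by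
        rw [hAs]
        exact hD
      obtain ⟨c, rfl⟩ := (Submodule.mem_span_range_iff_exists_fun K).1 h6
      rw [hanti, LinearMap.map_sum₂, neg_eq_zero]
      have h7 : ∀ i, σ (v i • C i) (∑ j, c j • A j) = ∑ j, c j * (v i * σ (C i) (A j)) := by
        intro i
        rw [map_smul, LinearMap.smul_apply, map_sum, smul_eq_mul, Finset.mul_sum]
        refine Finset.sum_congr rfl fun j _ => ?_
        rw [map_smul, smul_eq_mul]
        ring
      simp only [h7]
      rw [Finset.sum_comm]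
      refine Finset.sum_eq_zero fun j _ => ?_
      rw [← Finset.mul_sum]
      have h8 := congrFun hv j
      rw [Matrix.vecMul, dotProduct, Pi.zero_apply] at h8
      have h9 : ∑ i, v i * σ (C i) (A j) = 0 := h8
      rw [h9, mul_zero]
    rw [← hBs] at h5
    obtain ⟨c, hc⟩ := (Submodule.mem_span_range_iff_exists_fun K).1 h5
    have h6 := Fintype.linearIndependent_iff.1 hBC
      (Fin.append (fun i => -c i) v) (by
        rw [Fin.sum_univ_add]
        simp only [Fin.append_left, Fin.append_right, neg_smul, Finset.sum_neg_distrib]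
        rw [hc, neg_add_cancel])
    apply hv0
    funext i
    have h7 := h6 (Fin.natAdd _ i)
    rw [Fin.append_right] at h7
    exact h7
  exact ⟨eG, eC, eT, _, hdet, ⟨_, A, hA, hAs, heG⟩, ⟨_, B, hB, hBs, heC⟩, ⟨_, _, hBC, hBCs, heT⟩,
    fun P hP => perp_local hy hn hΔ hP (hσ P hP) hA hBC hBA hdet (heG P hP) (heC P hP)
      (heT P hP)⟩

end

end Pool.Agent.H897
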