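import Pool.Agent.H897.WD

/-!
The least distribution with the smallest multiple of `L`.
-/

set_option autoImplicit false
set_option linter.overlappingInstances false
set_option linter.unusedSectionVars false

open MvPolynomial FF Pool.Agent.W602.GT Pool.Agent.Y172 Pool.Agent.NH31 Pool.Agent.W603.LV
open Pool.Agent.N133.TB Pool.Agent.Y174 Pool.Agent.TH466.QG Pool.Agent.W619.PQ
open Pool.Agent.N133.OB Pool.Agent.Y191

namespace Pool.Agent.H897

section

variable {K : Type} [Field K] [Algebra ℂ K] {N n : ℕ} {y : Fin (N + 1) → K}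

theorem qeff_zero {L : Place ℂ K → ℚ} (h1 : ¬ QEff y L) (h2 : ¬ QEff y (fun P => -L P)) {c : ℚ}
    (h : QEff y (fun P => c * L P)) : c = 0 := by
  by_contra hne
  rcases lt_or_gt_of_ne hne with h3 | h3
  · apply h2
    refine QEff.of_pos (c := -c) (by linarith) ?_
    obtain ⟨M, g, hM, hg, h4⟩ := h
    refine ⟨M, g, hM, hg, fun P hP => ?_⟩
    have h5 := h4 P hP
    calc (0 : ℚ) ≤ _ := h5
      _ = _ := by ring
  · exact h1 (QEff.of_pos h3 h)

theorem zero_bot (hy : NormalModel y) (hn : Algebra.trdeg ℂ K = n) {Δ : Place ℂ K → ℚ}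
    (hΔ : Boundary y Δ) (α : Place ℂ K → ℝ) :
    SubDeg y n Δ α (⊥ : Submodule K (Derivation ℂ K K)) 0 := by
  obtain ⟨d, hd⟩ := subDeg_exists hy hn hΔ α (⊥ : Submodule K (Derivation ℂ K K))
  rwa [subDeg_bot hd] at hd

theorem zero_top (hy : NormalModel y) (hn : Algebra.trdeg ℂ K = n) {Δ : Place ℂ K → ℚ}
    (hΔ : Boundary y Δ) {α : Place ℂ K → ℝ} (hα : MovableClass y α)
    (hc : LogDegree y n Δ α 0) : SubDeg y n Δ α (⊤ : Submodule K (Derivation ℂ K K)) 0 := by
  obtain ⟨d, hd⟩ := subDeg_exists hy hn hΔ α (⊤ : Submodule K (Derivation ℂ K K))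
  rwa [subDeg_top hy hn hΔ hα hc hd, neg_zero] at hd

/-- the multiple of `L` is unique -/
theorem det_unique (hy : NormalModel y) (hn : Algebra.trdeg ℂ K = n) {Δ : Place ℂ K → ℚ}
    (hΔ : Boundary y Δ) {L : Place ℂ K → ℚ} (hL1 : ¬ QEff y L) (hL2 : ¬ QEff y (fun P => -L P))
    {F : Submodule K (Derivation ℂ K K)} {b b' : ℚ} (h : DetMultiple y n Δ L F b)
    (h' : DetMultiple y n Δ L F b') : b = b' := by
  obtain ⟨D, h1, h2⟩ := exists_bas hy hn F
  obtain ⟨e, he, -⟩ := wedge_fun hy hn hΔ.2 h1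
  have h3 := det_basis h h1 h2 he
  have h4 := det_basis h' h1 h2 he
  have h5 : QPrin y (fun P => 0 - ((b - b' : ℚ) : ℝ) * L P) := by
    refine (h3.add (h4.smul (-1))).congr fun P _ => ?_
    push_cast
    ring
  have h6 := qeff_zero hL1 hL2 (qeff_of h5 fun _ _ => le_rfl)
  linarith

/-- **The lattice of the distributions of degree zero** with the modular function `b`. -/
theorem det_lattice (hy : NormalModel y) (hn : Algebra.trdeg ℂ K = n) (hn1 : 1 ≤ n)
    {Δ : Place ℂ K → ℚ} (hΔ : Boundary y Δ) {α : Place ℂ K → ℝ} (hα : MovableClass y α)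
    (hc : LogDegree y n Δ α 0) (hss : SemistableTangent y n Δ α 0) {L : Place ℂ K → ℚ}
    (hdet : ∀ F : Submodule K (Derivation ℂ K K), SubDeg y n Δ α F 0 →
      ∃ b, DetMultiple y n Δ L F b) (hL1 : ¬ QEff y L) (hL2 : ¬ QEff y (fun P => -L P)) :
    ∃ b : Submodule K (Derivation ℂ K K) → ℚ,
      (∀ F, SubDeg y n Δ α F 0 → DetMultiple y n Δ L F (b F)) ∧
      ModLat (fun F => SubDeg y n Δ α F 0) b ∧
      {x | ∃ G, SubDeg y n Δ α G 0 ∧ b G = x}.Finite ∧ b ⊥ = 0 := by
  classical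
  obtain ⟨hfin, hrk⟩ := fin_der hy hn
  have hb : ∀ F : Submodule K (Derivation ℂ K K), ∃ b : ℚ, SubDeg y n Δ α F 0 →
      DetMultiple y n Δ L F b := by
    intro F
    by_cases hF : SubDeg y n Δ α F 0
    · obtain ⟨b, hb⟩ := hdet F hF
      exact ⟨b, fun _ => hb⟩
    · exact ⟨0, fun h => absurd h hF⟩
  choose b hb using hb
  have hlat : ModLat (fun F => SubDeg y n Δ α F 0) b := by
    refine ⟨fun V W h1 h2 => (zero_lattice hy hn hn1 hΔ hα hss h1 h2).1,
      fun V W h1 h2 => (zero_lattice hy hn hn1 hΔ hα hss h1 h2).2, zero_bot hy hn hΔ α,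
      fun V W h1 h2 => ?_⟩
    have h3 := zero_lattice hy hn hn1 hΔ hα hss h1 h2
    have h4 := qeff_zero hL1 hL2 (det_modular hy hn hΔ (hb _ h1) (hb _ h2) (hb _ h3.1)
      (hb _ h3.2))
    linarith
  refine ⟨b, hb, hlat, ?_, ?_⟩
  · obtain ⟨k, V, hV0, hVk, hV, hVd⟩ := jh_exists hy hn hn1 hΔ hα hc hss
    have hn0 : (n : ℝ) ≠ 0 := by
      have : 0 < n := hn1
      positivity
    have hVZ : ∀ i, i ≤ k → SubDeg y n Δ α (V i) 0 := by
      intro i hi
      obtain ⟨d, hd⟩ := subDeg_exists hy hn hΔ α (V i)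
      have h1 := hVd i hi d hd
      rw [mul_zero, neg_zero] at h1
      have h2 : d = 0 := (mul_eq_zero.1 h1).resolve_left hn0
      rwa [h2] at hd
    refine hlat.finite hV0 hVk hVZ (fun i hi => (hV i hi).1.le) fun i hi G hG h1 h2 => ?_
    by_contra hcon
    push Not at hcon
    have h3 := (hV i hi).2 G 0 0 0 (lt_of_le_of_ne h1 (Ne.symm hcon.1))
      (lt_of_le_of_ne h2 hcon.2) (hVZ i hi.le) hG (hVZ (i + 1) hi)
    simp at h3
  · have h1 : DetMultiple y n Δ L (⊥ : Submodule K (Derivation ℂ K K)) 0 := by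
      refine ⟨0, Fin.elim0, 1, 1, linearIndependent_empty_type, ?_, le_rfl, one_ne_zero,
        fun P hP e he => ?_⟩
      · rw [Set.range_eq_empty]
        exact Submodule.span_empty
      · obtain ⟨E, i0, C, -, -, -, I, h5, h6⟩ := he
        rw [h6, Matrix.det_isEmpty, P.ord_one]
        simp
    exact det_unique hy hn hΔ hL1 hL2 (hb _ (zero_bot hy hn hΔ α)) h1

/-- **The orthogonal complement.** -/
theorem perp_zero (hy : NormalModel y) (hn : Algebra.trdeg ℂ K = n) (hn1 : 1 ≤ n)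
    {Δ : Place ℂ K → ℚ} (hΔ : Boundary y Δ) {α : Place ℂ K → ℝ} (hα : MovableClass y α)
    (hc : LogDegree y n Δ α 0) (hss : SemistableTangent y n Δ α 0) {L : Place ℂ K → ℚ}
    (hL1 : ¬ QEff y L) (hL2 : ¬ QEff y (fun P => -L P))
    {b : Submodule K (Derivation ℂ K K) → ℚ}
    (hb : ∀ F, SubDeg y n Δ α F 0 → DetMultiple y n Δ L F (b F)) (hb0 : b ⊥ = 0)
    {σ : LinearMap.BilinForm K (Derivation ℂ K K)}
    (halt : ∀ D, σ D D = 0) (hnd : ∀ D, (∀ D', σ D D' = 0) → D = 0)
    (hσ : ∀ P, IsPrimeDivisor y P → FormAt n (Δ P) P σ) :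
    b ⊤ = 0 ∧ ∀ G, SubDeg y n Δ α G 0 → SubDeg y n Δ α (σ.orthogonal G) 0 ∧
      b (σ.orthogonal G) = b G := by
  classical
  have htop := zero_top hy hn hΔ hα hc
  have key : ∀ G, SubDeg y n Δ α G 0 → SubDeg y n Δ α (σ.orthogonal G) 0 ∧
      b (σ.orthogonal G) = b G + b ⊤ := by
    intro G hG
    obtain ⟨eG, eC, eT, g, hg, h1, h2, h3, hle⟩ := perp_ord hy hn hΔ halt hnd hσ G
    obtain ⟨d, hd⟩ := subDeg_exists hy hn hΔ α (σ.orthogonal G)
    have h4 := (((hα.prin g hg).add (h2.deg hy hn hΔ hα hd)).add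
      (((h1.deg hy hn hΔ hα hG).add (h3.deg hy hn hΔ hα htop)).smul (-1))).nonneg hα.nonneg
        fun P hP => by
          have := hle P hP
          linarith
    have h5 := semi_nonpos hn1 hss hd
    have h6 : d = 0 := by linarith
    rw [h6] at hd
    refine ⟨hd, ?_⟩
    have h7 : QPrin y (fun P => (P.ord g : ℝ)) := ⟨1, g, le_rfl, hg, fun P _ => by
      push_cast
      ring⟩
    have h8 : QEff y (fun P => (b (σ.orthogonal G) - b G - b ⊤) * L P) := by
      refine qeff_of (e := fun P => (P.ord g : ℝ) + (eC P + ((-1 : ℚ) : ℝ) * (eG P + eT P))) ?_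
        fun P hP => by
          have := hle P hP
          push_cast
          linarith
      refine (h7.add ((h2.det (hb _ hd)).add
        (((h1.det (hb _ hG)).add (h3.det (hb _ htop))).smul (-1)))).congr fun P _ => ?_
      push_cast
      ring
    have h9 := qeff_zero hL1 hL2 h8
    linarith
  have h1 := (key ⊤ htop).2
  have h2 : σ.orthogonal (⊤ : Submodule K (Derivation ℂ K K)) = ⊥ := by
    rw [eq_bot_iff]
    intro D hD
    rw [Submodule.mem_bot]
    have hanti : ∀ D D', σ D D' = -σ D' D := by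
      intro D D'
      have h1 := halt (D + D')
      simp only [map_add, LinearMap.add_apply, halt] at h1
      linear_combination h1
    refine hnd D fun D' => ?_
    rw [hanti, LinearMap.BilinForm.mem_orthogonal_iff.1 hD D' Submodule.mem_top, neg_zero]
  rw [h2, hb0] at h1
  have h3 : b ⊤ = 0 := by linarith
  refine ⟨h3, fun G hG => ?_⟩
  have h4 := key G hG
  rw [h3, add_zero] at h4
  exact h4

end

end Pool.Agent.H897
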