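import Pool.Agent.H897.WF

/-!
Forms on several semistable subquotients of the space of the rational vector fields.
-/

set_option autoImplicit false
set_option linter.overlappingInstances false
set_option linter.unusedSectionVars false

open MvPolynomial FF Pool.Agent.W602.GT Pool.Agent.Y172 Pool.Agent.NH31 Pool.Agent.W603.LV
open Pool.Agent.N133.TB Pool.Agent.Y174 Pool.Agent.TH466.QG Pool.Agent.W619.PQ
open Pool.Agent.N133.OB Pool.Agent.Y191

namespace Pool.Agent.H897

section

variable {K : Type} [Field K] [Algebra ℂ K] {N n : ℕ} {y : Fin (N + 1) → K}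

/-- **Tensors on several semistable subquotients.** -/
theorem mixed_semi (hy : NormalModel y) (hn : Algebra.trdeg ℂ K = n)
    {Δ : Place ℂ K → ℚ} (hΔ : Boundary y Δ) {α : Place ℂ K → ℝ} (hα : MovableClass y α)
    (hneg : ∀ (F : Submodule K (Derivation ℂ K K)) (d : ℝ), SubDeg y n Δ α F d → d ≤ 0)
    {L : Place ℂ K → ℚ} (hL : HasDeg y α (fun P => L P) 0)
    {bf : Submodule K (Derivation ℂ K K) → ℚ}
    (hbf : ∀ F, SubDeg y n Δ α F 0 → DetMultiple y n Δ L F (bf F))
    {k m : ℕ} {W V : Fin k → Submodule K (Derivation ℂ K K)} (hWV : ∀ i, W i < V i)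
    (hZW : ∀ i, SubDeg y n Δ α (W i) 0) (hZV : ∀ i, SubDeg y n Δ α (V i) 0)
    (hst : ∀ i G, SubDeg y n Δ α G 0 → W i < G → G < V i →
      slp bf (W i) (V i) ≤ slp bf (W i) G) (hm : 1 ≤ m) {J : Fin m → Fin k}
    {T : MultilinearMap K (fun s : Fin m => V (J s)) K} (hT0 : T ≠ 0)
    (hTW : ∀ (D : (s : Fin m) → V (J s)), (∃ s, (D s : Derivation ℂ K K) ∈ W (J s)) → T D = 0)
    {a : ℚ} (hTO : ∀ P, IsPrimeDivisor y P → MixedTensorAt n (Δ P) (a * L P) P T) :
    ∃ θ : ℚ, 0 ≤ θ ∧ QEff y (fun P => (a - ∑ s, slp bf (W (J s)) (V (J s)) + θ) * L P) := by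
  classical
  have hess := hy.ess
  obtain ⟨x, E0, hx, hE0⟩ := exists_crd hn
  obtain ⟨w, hwf, hw⟩ := exists_canon hy hn hx hE0
  have hfr : IsFrame E0 := frame_of_dual hx hE0
  choose q r B hr hB hBW hBV using fun i => piece_basis hy hn (hWV i)
  have hBW' : ∀ i, LinearIndependent K fun j : Fin (q i) => B i (Fin.castAdd (r i) j) :=
    fun i => (hB i).comp _ (Fin.castAdd_injective _ _)
  have hfW : ∀ i, Module.finrank K (W i) = q i := fun i => card_of_span (hBW' i) (hBW i)
  have hfV : ∀ i, Module.finrank K (V i) = q i + r i := fun i => card_of_span (hB i) (hBV i)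
  -- the orders and the degrees
  choose eV heV heVf using fun i => wedge_fun hy hn hΔ.2 (hB i)
  choose eW heW heWf using fun i => wedge_fun hy hn hΔ.2 (hBW' i)
  have hoW : ∀ i, OrdFun y n Δ (W i) (eW i) := fun i => ⟨q i, _, hBW' i, hBW i, heW i⟩
  have hoV : ∀ i, OrdFun y n Δ (V i) (eV i) := fun i => ⟨q i + r i, _, hB i, hBV i, heV i⟩
  have hdW : ∀ i, HasDeg y α (eW i) 0 := fun i => (hoW i).deg hy hn hΔ hα (hZW i)
  have hdV : ∀ i, HasDeg y α (eV i) 0 := fun i => (hoV i).deg hy hn hΔ hα (hZV i)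
  -- the local data
  choose B0 hB0 using fun i => exists_coords hfr (B i)
  have hlocd : ∀ (i : Fin k) (P : Place ℂ K),
      ∃ (U : Matrix (Fin (q i + r i)) (Fin (q i + r i)) K) (nk : Fin (q i + r i) → ℝ)
      (E : Fin n → Derivation ℂ K K) (i0 : Fin n) (Cp : Matrix (Fin (q i + r i)) (Fin n) K),
      IsPrimeDivisor y P → (Adapted (Δ P) P E i0 ∧ (∀ k, B i k = ∑ j, Cp k j • E j) ∧
      (∀ k j, GeR P (nk k - nuf (Δ P) i0 j) ((U * Cp) k j)) ∧
      (∀ i, U i i = 1) ∧ (∀ i j, i < j → U i j = 0) ∧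
      (∀ (s : ℕ) (hs : s ≤ q i + r i), WedgeOrd n (Δ P) P
        (fun j : Fin s => B i (Fin.castLE hs j)) (∑ k : Fin s, nk (Fin.castLE hs k))) ∧
      (∀ k, ∃ e : ℝ, nk k ≤ e ∧ WedgeOrd n (Δ P) P (fun _ : Fin 1 => ∑ l, U k l • B i l) e)) := by
    intro i P
    by_cases hP : IsPrimeDivisor y P
    · obtain ⟨U, nk, E, i0, Cp, h1, h2, h3, h4, h5, h6, h7, -, -⟩ :=
        loc_rect2 hy hn hx hE0 hw (hB i) (hB0 i) Δ hP
      exact ⟨U, nk, E, i0, Cp, fun _ => ⟨h1, h2, h3, h4, h5, h6, h7⟩⟩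
    · exact ⟨1, fun _ => 0, E0, ⟨0, by
        have h1 := hr i
        have h2 := hy
        by_contra hcon
        have h3 : n = 0 := by omega
        subst h3
        have h4 := card_of_span (hB i) rfl
        have h5 : Module.finrank K (Submodule.span K (Set.range (B i))) ≤ 0 := by
          have h6 : (⊤ : Submodule K (Derivation ℂ K K)) = ⊥ := by
            rw [← span_of_frame hfr]
            rw [Set.range_eq_empty]
            exact Submodule.span_empty
          have h7 : Submodule.span K (Set.range (B i)) = ⊥ := by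
            rw [eq_bot_iff, ← h6]
            exact le_top
          rw [h7, finrank_bot]
        omega⟩, 0, fun h => absurd h hP⟩
  choose U nk Ef i0f Cp hdat using hlocd
  obtain ⟨UP, hUP⟩ : ∃ UP : Place ℂ K → (i : Fin k) → Matrix (Fin (r i)) (Fin (r i)) K,
    UP = fun P i => Matrix.of fun a b => U i P (Fin.natAdd (q i) a) (Fin.natAdd (q i) b) :=
    ⟨_, rfl⟩
  obtain ⟨nu, hnu⟩ : ∃ nu : Place ℂ K → (i : Fin k) → Fin (r i) → ℝ,
    nu = fun P i l => nk i P (Fin.natAdd (q i) l) := ⟨_, rfl⟩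
  have hUPd : ∀ P, IsPrimeDivisor y P → ∀ i, (UP P i).det = 1 := by
    intro P hP i
    rw [hUP]
    exact det_block (hdat i P hP).2.2.2.1 (hdat i P hP).2.2.2.2.1 (Fin.natAdd_injective _ _)
  have hWnk : ∀ P, IsPrimeDivisor y P → ∀ i, eW i P = ∑ j : Fin (q i), nk i P
      (Fin.castAdd (r i) j) := fun P hP i =>
    wedge_unique hy hn hP (hΔ.1 P hP).1 (hΔ.1 P hP).2 (heW i P hP)
      ((hdat i P hP).2.2.2.2.2.1 (q i) (Nat.le_add_right _ _))
  have hVnk : ∀ P, IsPrimeDivisor y P → ∀ i, eV i P = ∑ j, nk i P j := fun P hP i =>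
    wedge_unique hy hn hP (hΔ.1 P hP).1 (hΔ.1 P hP).2 (heV i P hP)
      ((hdat i P hP).2.2.2.2.2.1 (q i + r i) le_rfl)
  have hnus : ∀ P, IsPrimeDivisor y P → ∀ i, ∑ l, nu P i l = eV i P - eW i P := by
    intro P hP i
    rw [hVnk P hP i, hWnk P hP i, Fin.sum_univ_add, add_sub_cancel_left, hnu]
  -- the form on the blocks
  obtain ⟨φ, hφ⟩ : ∃ φ : (i : Fin k) → (Fin (r i) → K) →ₗ[K] V i, ∀ i v,
      (φ i v : Derivation ℂ K K) = ∑ l, v l • B i (Fin.natAdd (q i) l) := by
    have hmem : ∀ i (l : Fin (r i)), B i (Fin.natAdd (q i) l) ∈ V i := by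
      intro i l
      rw [← hBV i]
      exact Submodule.subset_span ⟨_, rfl⟩
    refine ⟨fun i => Fintype.linearCombination K fun l =>
      (⟨B i (Fin.natAdd (q i) l), hmem i l⟩ : V i), fun i v => ?_⟩
    rw [Fintype.linearCombination_apply, Submodule.coe_sum]
    rfl
  obtain ⟨TJ, hTJ⟩ : ∃ TJ : MultilinearMap K (fun s : Fin m => (Fin (r (J s)) → K)) K,
    TJ = T.compLinearMap fun s => φ (J s) := ⟨_, rfl⟩
  have hproj : ∀ (i : Fin k) (v : V i), ∃ c : Fin (r i) → K,
      (v : Derivation ℂ K K) - (φ i c : Derivation ℂ K K) ∈ W i := by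
    intro i v
    have h1 : (v : Derivation ℂ K K) ∈ Submodule.span K (Set.range (B i)) := by
      rw [hBV i]
      exact v.2
    obtain ⟨a, ha⟩ := (Submodule.mem_span_range_iff_exists_fun K).1 h1
    refine ⟨fun l => a (Fin.natAdd (q i) l), ?_⟩
    rw [← ha, hφ, Fin.sum_univ_add, add_sub_cancel_right, ← hBW i]
    exact Submodule.sum_mem _ fun l _ => Submodule.smul_mem _ _ (Submodule.subset_span ⟨l, rfl⟩)
  have hTJ0 : TJ ≠ 0 := by
    intro h0
    apply hT0
    refine MultilinearMap.ext fun D => ?_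
    choose c hc using fun s => hproj (J s) (D s)
    rw [mul_congr_dep T hTW (x' := fun s => φ (J s) (c s)) hc]
    have h1 := congrArg (fun t : MultilinearMap K (fun s : Fin m => (Fin (r (J s)) → K)) K => t c) h0
    rw [hTJ] at h1
    exact h1
  obtain ⟨θ, N0, g, hθ0, hN0, hg, hfin⟩ := block_thm' (y := y) hα (L := L) hr hm (T := TJ) hTJ0
    (U := UP) hUPd (nu := nu) (ℓ := fun P => ((a * L P : ℚ) : ℝ)) (fun P hP I => by
      have hmem : ∀ (i : Fin k) a, ∑ l, U i P a l • B i l ∈ V i := by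
        intro i a
        rw [← hBV i]
        exact Submodule.sum_mem _ fun l _ => Submodule.smul_mem _ _
          (Submodule.subset_span ⟨l, rfl⟩)
      choose e he1 he2 using fun i a => (hdat i P hP).2.2.2.2.2.2 a
      have h6 := hTO P hP (fun s => ⟨_, hmem (J s) (Fin.natAdd (q (J s)) (I s))⟩)
        (fun s => e (J s) (Fin.natAdd (q (J s)) (I s))) (fun s => he2 _ _)
      have h7 := mul_congr_dep T hTW
        (x := fun s => (⟨_, hmem (J s) (Fin.natAdd (q (J s)) (I s))⟩ : V (J s)))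
        (x' := fun s => φ (J s) (UP P (J s) (I s))) (fun s => by
          rw [hφ]
          change ∑ l, U (J s) P (Fin.natAdd (q (J s)) (I s)) l • B (J s) l -
            ∑ l, UP P (J s) (I s) l • B (J s) (Fin.natAdd (q (J s)) l) ∈ W (J s)
          rw [Fin.sum_univ_add]
          have h9 : ∑ l, UP P (J s) (I s) l • B (J s) (Fin.natAdd (q (J s)) l) =
              ∑ l, U (J s) P (Fin.natAdd (q (J s)) (I s)) (Fin.natAdd (q (J s)) l) •
                B (J s) (Fin.natAdd (q (J s)) l) := by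
            rw [hUP]
            rfl
          rw [h9, add_sub_cancel_right, ← hBW (J s)]
          exact Submodule.sum_mem _ fun l _ => Submodule.smul_mem _ _
            (Submodule.subset_span ⟨l, rfl⟩))
      have h8 : TJ (fun s => UP P (J s) (I s)) = T fun s => φ (J s) (UP P (J s) (I s)) := by
        rw [hTJ]
        rfl
      rw [h8, ← h7]
      have h9 : GeR P (∑ s, e (J s) (Fin.natAdd (q (J s)) (I s)) - ((a * L P : ℚ) : ℝ))
          (T fun s => (⟨_, hmem (J s) (Fin.natAdd (q (J s)) (I s))⟩ : V (J s))) := h6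
      refine h9.mono ?_
      have h10 : ∑ s, nu P (J s) (I s) ≤ ∑ s, e (J s) (Fin.natAdd (q (J s)) (I s)) :=
        Finset.sum_le_sum fun s _ => by
          rw [hnu]
          exact he1 _ _
      linarith) (dg := fun _ => 0 + (-1) * 0)
    (fun i => ((hdV i).add ((hdW i).smul (-1))).congr fun P hP => by
      rw [hnus P hP i]
      ring) (lam := a * 0) ((HasDeg.smul (a : ℝ) hL).congr fun P _ => by push_cast; rfl) (by
      simp) (fun i s c hs1 hsr hc => by
      obtain ⟨D, hD⟩ : ∃ D : Fin (q i + s) → Derivation ℂ K K,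
        D = Fin.append (fun j : Fin (q i) => B i (Fin.castAdd (r i) j))
          (fun j : Fin s => ∑ l, c j l • B i (Fin.natAdd (q i) l)) := ⟨_, rfl⟩
      have hDli : LinearIndependent K D := by
        rw [hD]
        exact append_li (hB i) hc
      obtain ⟨G, hG⟩ : ∃ G, G = Submodule.span K (Set.range D) := ⟨_, rfl⟩
      have hfG : Module.finrank K G = q i + s := card_of_span hDli hG.symm
      have hWG : W i < G := by
        refine lt_of_le_of_ne ?_ fun h => ?_
        · rw [← hBW i, hG, Submodule.span_le]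
          rintro _ ⟨j, rfl⟩
          refine Submodule.subset_span ⟨Fin.castAdd s j, ?_⟩
          rw [hD, Fin.append_left]
        · have h1 := hfW i
          rw [h, hfG] at h1
          omega
      have hGV : G < V i := by
        refine lt_of_le_of_ne ?_ fun h => ?_
        · rw [hG, Submodule.span_le]
          rintro _ ⟨j, rfl⟩
          change D j ∈ V i
          rw [← hBV i, hD]
          refine Fin.addCases (fun j => ?_) (fun j => ?_) j
          · rw [Fin.append_left]
            exact Submodule.subset_span ⟨_, rfl⟩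
          · rw [Fin.append_right]
            exact Submodule.sum_mem _ fun l _ => Submodule.smul_mem _ _
              (Submodule.subset_span ⟨_, rfl⟩)
        · have h1 := hfV i
          rw [← h, hfG] at h1
          omega
      obtain ⟨eG, heG, heGf⟩ := wedge_fun hy hn hΔ.2 hDli
      obtain ⟨dG, hdG⟩ := hasDeg_of_fin α heGf
      have hsG : SubDeg y n Δ α G dG := ⟨_, D, eG, hDli, hG.symm, heG, hdG⟩
      have hdG0 := hneg G dG hsG
      have hriR : (0 : ℝ) < r i := by exact_mod_cast hr i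
      refine ⟨fun P => eG P + (-1) * eW i P, dG + (-1) * 0, hdG.add ((hdW i).smul (-1)), ?_,
        fun heq => ?_, fun P hP => ?_⟩
      · have h2 := mul_nonpos_of_nonneg_of_nonpos hriR.le hdG0
        simp only [mul_zero, add_zero]
        exact h2
      · have h2 : dG = 0 := by
          simp only [mul_zero, add_zero] at heq
          exact (mul_eq_zero.1 heq).resolve_left hriR.ne'
        rw [h2] at hsG
        have hoG : OrdFun y n Δ G eG := ⟨_, D, hDli, hG.symm, heG⟩
        have h3 := hst i G hsG hWG hGV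
        unfold slp at h3
        rw [hfV, hfW, hfG] at h3
        push_cast at h3
        rw [add_sub_cancel_left, add_sub_cancel_left] at h3
        have hs0 : (0 : ℚ) < s := by exact_mod_cast hs1
        have hr0 : (0 : ℚ) < r i := by exact_mod_cast hr i
        refine ⟨(bf G - bf (W i)) - s / r i * (bf (V i) - bf (W i)), ?_, ?_⟩
        · rw [le_div_iff₀ hs0] at h3
          have h4 : (s : ℚ) / r i * (bf (V i) - bf (W i)) =
              (bf (V i) - bf (W i)) / r i * s := by ring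
          rw [h4]
          linarith
        · have h4 := hoG.det (hbf G hsG)
          have h5 := (hoW i).det (hbf _ (hZW i))
          have h6 := (hoV i).det (hbf _ (hZV i))
          refine ((h4.add (h5.smul (-1))).add ((h6.add (h5.smul (-1))).smul (-(s / r i)))).congr
            fun P hP => ?_
          rw [hnus P hP i]
          push_cast
          ring
      · have hWD := heG P hP
        rw [hD] at hWD
        obtain ⟨I, hI1, hI2⟩ := piece_minor hy hn hP (hΔ.1 P hP).1 (hΔ.1 P hP).2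
          (hdat i P hP).1 (hdat i P hP).2.1 (hdat i P hP).2.2.1 (hdat i P hP).2.2.2.1
          (hdat i P hP).2.2.2.2.1 hWD
        have h2 : UP P i = Matrix.of fun a b => U i P (Fin.natAdd (q i) a)
            (Fin.natAdd (q i) b) := by rw [hUP]
        rw [← h2] at hI1 hI2
        refine ⟨I, hI1, ?_⟩
        have h3 : ∑ j, nu P i (I j) = ∑ j, nk i P (Fin.natAdd (q i) (I j)) := by rw [hnu]
        change _ ≤ eG P + (-1) * eW i P
        rw [h3, hWnk P hP i]
        linarith)
  refine ⟨θ, hθ0, ?_⟩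
  have hN0R : (0 : ℝ) < N0 := by exact_mod_cast hN0
  refine qeff_of (e := fun P => ((a + θ : ℚ) : ℝ) * L P +
    (((-1 : ℚ) : ℝ) * ∑ s, (((r (J s) : ℚ)⁻¹ : ℚ) : ℝ) * (eV (J s) P + ((-1 : ℚ) : ℝ) *
      eW (J s) P) + (((N0 : ℚ)⁻¹ : ℚ) : ℝ) * P.ord g)) ?_ fun P hP => ?_
  · have h1 : QPrin y (fun P => ((-1 : ℚ) : ℝ) * ∑ s, (((r (J s) : ℚ)⁻¹ : ℚ) : ℝ) *
        ((eV (J s) P - bf (V (J s)) * L P) + ((-1 : ℚ) : ℝ) *
          (eW (J s) P - bf (W (J s)) * L P)) + (((N0 : ℚ)⁻¹ : ℚ) : ℝ) * P.ord g) :=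
      ((qprin_sum Finset.univ (e := fun s P => (((r (J s) : ℚ)⁻¹ : ℚ) : ℝ) *
        ((eV (J s) P - bf (V (J s)) * L P) + ((-1 : ℚ) : ℝ) *
          (eW (J s) P - bf (W (J s)) * L P))) fun s _ =>
        (((hoV (J s)).det (hbf _ (hZV (J s)))).add
          (((hoW (J s)).det (hbf _ (hZW (J s)))).smul (-1))).smul _).smul (-1)).add
        ((qprin_ord hg).smul _)
    refine h1.congr fun P _ => ?_
    have h2 : ∀ s, slp bf (W (J s)) (V (J s)) = (r (J s) : ℚ)⁻¹ *
        (bf (V (J s)) - bf (W (J s))) := by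
      intro s
      unfold slp
      rw [hfV, hfW]
      push_cast
      rw [add_sub_cancel_left, div_eq_inv_mul]
    simp only [h2]
    have h3 : ∑ s, (((r (J s) : ℚ)⁻¹ : ℚ) : ℝ) *
        ((eV (J s) P - bf (V (J s)) * L P) + ((-1 : ℚ) : ℝ) *
          (eW (J s) P - bf (W (J s)) * L P)) =
        ∑ s, (((r (J s) : ℚ)⁻¹ : ℚ) : ℝ) * (eV (J s) P + ((-1 : ℚ) : ℝ) * eW (J s) P) -
        ((∑ s, (r (J s) : ℚ)⁻¹ * (bf (V (J s)) - bf (W (J s))) : ℚ) : ℝ) * L P := by
      push_cast
      rw [Finset.sum_mul, ← Finset.sum_sub_distrib]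
      exact Finset.sum_congr rfl fun s _ => by ring
    rw [h3]
    push_cast
    ring
  · have h1 := hfin P hP
    have h2 : ∑ s, (∑ l, nu P (J s) l) / (r (J s) : ℝ) =
        ∑ s, (((r (J s) : ℚ)⁻¹ : ℚ) : ℝ) * (eV (J s) P + ((-1 : ℚ) : ℝ) * eW (J s) P) := by
      refine Finset.sum_congr rfl fun s _ => ?_
      rw [hnus P hP]
      push_cast
      rw [div_eq_inv_mul]
      ring
    rw [h2] at h1
    generalize ∑ s, (((r (J s) : ℚ)⁻¹ : ℚ) : ℝ) * (eV (J s) P + ((-1 : ℚ) : ℝ) * eW (J s) P) = S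
      at h1
    have h3 : (P.ord g : ℝ) = N0 * ((((N0 : ℚ)⁻¹ : ℚ) : ℝ) * P.ord g) := by
      push_cast
      rw [← mul_assoc, mul_inv_cancel₀ hN0R.ne', one_mul]
    rw [h3] at h1
    have h4 := le_of_mul_le_mul_left h1 hN0R
    push_cast at h4 ⊢
    linarith

end

end Pool.Agent.H897
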