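import Pool.Agent.H897.WH

/-!
The bracket of vector fields of two orthogonal distributions.
-/

set_option autoImplicit false
set_option linter.overlappingInstances false
set_option linter.unusedSectionVars false

open MvPolynomial FF Pool.Agent.W602.GT Pool.Agent.Y172 Pool.Agent.NH31 Pool.Agent.W603.LV
open Pool.Agent.N133.TB Pool.Agent.Y174 Pool.Agent.TH466.QG Pool.Agent.W619.PQ
open Pool.Agent.N133.OB Pool.Agent.Y191

namespace Pool.Agent.H897

section

variable {K : Type} [Field K] [Algebra ℂ K] {N n : ℕ} {y : Fin (N + 1) → K}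

/-- the bracket of multiples -/
theorem lie_smul_smul (f g : K) (D D' : Derivation ℂ K K) :
    ⁅f • D, g • D'⁆ = (f * g) • ⁅D, D'⁆ + ((f * D g) • D' - (g * D' f) • D) := by
  ext a
  simp only [Derivation.commutator_apply, Derivation.smul_apply, Derivation.add_apply,
    Derivation.sub_apply, smul_eq_mul, Derivation.leibniz]
  ring

/-- the form `σ ⁅D 0, D 1⁆ (D 2)` -/
noncomputable def lieForm (σ : LinearMap.BilinForm K (Derivation ℂ K K))
    (A A' : Submodule K (Derivation ℂ K K)) (hA : ∀ D ∈ A, ∀ D' ∈ A', σ D D' = 0) :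
    MultilinearMap K (fun s : Fin 3 => (![A, A, A'] s : Submodule K (Derivation ℂ K K))) K where
  toFun D := σ ⁅(D 0 : Derivation ℂ K K), (D 1 : Derivation ℂ K K)⁆ (D 2 : Derivation ℂ K K)
  map_update_add' {inst} D i x x' := by
    have hi : i = 0 ∨ i = 1 ∨ i = 2 := by
      fin_cases i
      · exact Or.inl rfl
      · exact Or.inr (Or.inl rfl)
      · exact Or.inr (Or.inr rfl)
    obtain rfl : inst = instDecidableEqFin 3 := Subsingleton.elim _ _
    rcases hi with rfl | rfl | rfl
    · rw [Function.update_self, Function.update_self, Function.update_self,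
        Function.update_of_ne (by decide), Function.update_of_ne (by decide),
        Function.update_of_ne (by decide), Function.update_of_ne (by decide),
        Function.update_of_ne (by decide), Function.update_of_ne (by decide)]
      rw [Submodule.coe_add, add_lie, map_add, LinearMap.add_apply]
    · rw [Function.update_self, Function.update_self, Function.update_self,
        Function.update_of_ne (by decide), Function.update_of_ne (by decide),
        Function.update_of_ne (by decide), Function.update_of_ne (by decide),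
        Function.update_of_ne (by decide), Function.update_of_ne (by decide)]
      rw [Submodule.coe_add, lie_add, map_add, LinearMap.add_apply]
    · rw [Function.update_self, Function.update_self, Function.update_self,
        Function.update_of_ne (by decide), Function.update_of_ne (by decide),
        Function.update_of_ne (by decide), Function.update_of_ne (by decide),
        Function.update_of_ne (by decide), Function.update_of_ne (by decide)]
      rw [Submodule.coe_add, map_add]
  map_update_smul' {inst} D i c x := by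
    have hi : i = 0 ∨ i = 1 ∨ i = 2 := by
      fin_cases i
      · exact Or.inl rfl
      · exact Or.inr (Or.inl rfl)
      · exact Or.inr (Or.inr rfl)
    obtain rfl : inst = instDecidableEqFin 3 := Subsingleton.elim _ _
    rcases hi with rfl | rfl | rfl
    · rw [Function.update_self, Function.update_self,
        Function.update_of_ne (by decide), Function.update_of_ne (by decide),
        Function.update_of_ne (by decide), Function.update_of_ne (by decide)]
      have h1 := lie_smul_smul c 1 (x : Derivation ℂ K K) (D 1 : Derivation ℂ K K)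
      have h2 := hA x x.2 (D 2) (D 2).2
      rw [one_smul, mul_one, Derivation.map_one_eq_zero, mul_zero, zero_smul, zero_sub,
        one_mul] at h1
      rw [Submodule.coe_smul, h1, map_add, LinearMap.add_apply, map_neg, LinearMap.neg_apply,
        map_smul, map_smul, LinearMap.smul_apply, LinearMap.smul_apply, h2, smul_zero, neg_zero,
        add_zero]
    · rw [Function.update_self, Function.update_self,
        Function.update_of_ne (by decide), Function.update_of_ne (by decide),
        Function.update_of_ne (by decide), Function.update_of_ne (by decide)]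
      have h1 := lie_smul_smul 1 c (D 0 : Derivation ℂ K K) (x : Derivation ℂ K K)
      have h2 := hA x x.2 (D 2) (D 2).2
      rw [one_smul, one_mul, Derivation.map_one_eq_zero, mul_zero, zero_smul, sub_zero,
        one_mul] at h1
      rw [Submodule.coe_smul, h1, map_add, LinearMap.add_apply,
        map_smul, map_smul, LinearMap.smul_apply, LinearMap.smul_apply, h2, smul_zero,
        add_zero]
    · rw [Function.update_self, Function.update_self,
        Function.update_of_ne (by decide), Function.update_of_ne (by decide),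
        Function.update_of_ne (by decide), Function.update_of_ne (by decide)]
      rw [Submodule.coe_smul, map_smul]

/-- a rational vector field is a multiple of a regular one of order `0` -/
theorem wedge_prim {P : Place ℂ K} {D : Derivation ℂ K K} {e : ℝ}
    (he : WedgeOrd n 0 P (fun _ : Fin 1 => D) e) :
    ∃ (f : K) (D0 : Derivation ℂ K K), f ≠ 0 ∧ DerReg P D0 ∧ D = f • D0 ∧ e = P.ord f := by
  obtain ⟨E, i0, c, hA, hDc, h1, I, h2, h3⟩ := he
  have h2' : c 0 (I 0) ≠ 0 := by
    rw [Matrix.det_fin_one, Matrix.submatrix_apply] at h2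
    exact h2
  have h3' : e = P.ord (c 0 (I 0)) := by
    rw [h3, Matrix.det_fin_one, Matrix.submatrix_apply]
    simp
  have hc : ∀ j, P.Reg ((c 0 (I 0))⁻¹ * c 0 j) := by
    intro j
    have h4 := h1 fun _ => j
    rw [Matrix.det_fin_one, Matrix.submatrix_apply] at h4
    by_cases h5 : c 0 j = 0
    · left
      rw [h5, mul_zero]
    · right
      have h6 := h4.resolve_left h5
      rw [h3'] at h6
      simp only [id_eq, Fin.isValue, Rat.cast_zero, ite_self, Finset.sum_const_zero, sub_zero]
        at h6
      have h7 : P.ord (c 0 (I 0)) ≤ P.ord (c 0 j) := by exact_mod_cast h6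
      rw [P.ord_mul (inv_ne_zero h2') h5, P.ord_inv]
      linarith
  refine ⟨c 0 (I 0), (c 0 (I 0))⁻¹ • D, h2', ?_, ?_, h3'⟩
  · intro f hf
    have h4 := hDc 0
    change D = _ at h4
    rw [h4, Finset.smul_sum]
    have h5 : (∑ j, (c 0 (I 0))⁻¹ • c 0 j • E j) f = ∑ j, ((c 0 (I 0))⁻¹ * c 0 j) * E j f := by
      rw [← Derivation.coeFnAddMonoidHom_apply, map_sum, Finset.sum_apply]
      refine Finset.sum_congr rfl fun j _ => ?_
      rw [Derivation.coeFnAddMonoidHom_apply, Derivation.smul_apply, Derivation.smul_apply,
        smul_eq_mul, smul_eq_mul]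
      ring
    rw [h5]
    exact sum_mem (S := P.O) fun j _ => P.reg_mul (hc j) (hA.1.1 j f hf)
  · rw [smul_smul, mul_inv_cancel₀ h2', one_smul]

/-- the bracket of regular vector fields -/
theorem lie_reg {P : Place ℂ K} {D D' : Derivation ℂ K K} (h : DerReg P D) (h' : DerReg P D') :
    DerReg P ⁅D, D'⁆ := by
  intro f hf
  rw [Derivation.commutator_apply, sub_eq_add_neg]
  exact P.reg_add (h _ (h' _ hf)) (P.reg_neg (h' _ (h _ hf)))

/-- the form `σ ⁅D 0, D 1⁆ (D 2)` is regular -/
theorem lie_ord (hy : NormalModel y) (hn : Algebra.trdeg ℂ K = n) {P : Place ℂ K}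
    (hP : IsPrimeDivisor y P) {σ : LinearMap.BilinForm K (Derivation ℂ K K)}
    (hσ : FormAt n 0 P σ) {A A' : Submodule K (Derivation ℂ K K)}
    (hA : ∀ D ∈ A, ∀ D' ∈ A', σ D D' = 0) : MixedTensorAt n 0 0 P (lieForm σ A A' hA) := by
  intro D e he
  change σ ⁅(D 0 : Derivation ℂ K K), (D 1 : Derivation ℂ K K)⁆ (D 2 : Derivation ℂ K K) = 0 ∨
    ∑ s, e s - ((0 : ℚ) : ℝ) ≤
      P.ord (σ ⁅(D 0 : Derivation ℂ K K), (D 1 : Derivation ℂ K K)⁆ (D 2 : Derivation ℂ K K))
  obtain ⟨f, D0, hf, hD0, h1, h2⟩ := wedge_prim (he 0)
  obtain ⟨g, D1, hg, hD1, h3, h4⟩ := wedge_prim (he 1)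
  have hm0 : D0 ∈ A := by
    have h5 : D0 = f⁻¹ • (D 0 : Derivation ℂ K K) := by
      rw [h1, smul_smul, inv_mul_cancel₀ hf, one_smul]
    rw [h5]
    exact A.smul_mem _ (D 0).2
  have hm1 : D1 ∈ A := by
    have h5 : D1 = g⁻¹ • (D 1 : Derivation ℂ K K) := by
      rw [h3, smul_smul, inv_mul_cancel₀ hg, one_smul]
    rw [h5]
    exact A.smul_mem _ (D 1).2
  have h5 : σ ⁅(D 0 : Derivation ℂ K K), (D 1 : Derivation ℂ K K)⁆ (D 2 : Derivation ℂ K K) =
      f * g * σ ⁅D0, D1⁆ (D 2 : Derivation ℂ K K) := by
    rw [h1, h3, lie_smul_smul, map_add, LinearMap.add_apply, map_sub, LinearMap.sub_apply,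
      map_smul, map_smul, map_smul, LinearMap.smul_apply, LinearMap.smul_apply,
      LinearMap.smul_apply, hA D0 hm0 _ (D 2).2, hA D1 hm1 _ (D 2).2, smul_zero, smul_zero,
      sub_zero, add_zero, smul_eq_mul]
  rw [h5]
  by_cases h6 : σ ⁅D0, D1⁆ (D 2 : Derivation ℂ K K) = 0
  · left
    rw [h6, mul_zero]
  · right
    have hne : ⁅D0, D1⁆ ≠ 0 := by
      intro h
      apply h6
      rw [h, map_zero, LinearMap.zero_apply]
    obtain ⟨e0, he0⟩ := wedge_exists hy hn (fun _ => (0 : ℚ)) (B := fun _ : Fin 1 => ⁅D0, D1⁆)
      (LinearIndependent.of_subsingleton 0 hne) hP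
    have h7 := (wedge_reg hy hn hP le_rfl zero_le_one (fun _ => lie_reg hD0 hD1) he0).1
    have h8 := (hσ _ _ _ _ he0 (he 2)).resolve_left h6
    rw [P.ord_mul (mul_ne_zero hf hg) h6, P.ord_mul hf hg, Fin.sum_univ_three, h2, h4]
    push_cast
    push_cast at h7
    linarith

end

end Pool.Agent.H897
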