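import Pool.Agent.H897.WI

/-!
The canonical isotropic foliation.
-/

set_option autoImplicit false
set_option linter.overlappingInstances false
set_option linter.unusedSectionVars false

open MvPolynomial FF Pool.Agent.W602.GT Pool.Agent.Y172 Pool.Agent.NH31 Pool.Agent.W603.LV
open Pool.Agent.N133.TB Pool.Agent.Y174 Pool.Agent.TH466.QG Pool.Agent.W619.PQ
open Pool.Agent.N133.OB Pool.Agent.Y191

namespace Pool.Agent.H897

section

variable {K : Type} [Field K] [Algebra ℂ K] {N n : ℕ} {y : Fin (N + 1) → K}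

theorem boundary_zero : Boundary y (fun _ => 0) :=
  ⟨fun _ _ => ⟨le_rfl, zero_le_one⟩, by simp⟩

/-- the double orthogonal complement -/
theorem perp_perp (hy : NormalModel y) (hn : Algebra.trdeg ℂ K = n)
    {σ : LinearMap.BilinForm K (Derivation ℂ K K)}
    (halt : ∀ D, σ D D = 0) (hnd : ∀ D, (∀ D', σ D D' = 0) → D = 0) :
    (∀ D D', σ D D' = -σ D' D) ∧
    (∀ G : Submodule K (Derivation ℂ K K), σ.orthogonal (σ.orthogonal G) = G) ∧
    (∀ G : Submodule K (Derivation ℂ K K), Module.finrank K (σ.orthogonal G) =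
      n - Module.finrank K G) ∧
    ∀ G G' : Submodule K (Derivation ℂ K K), G ≤ G' → σ.orthogonal G' ≤ σ.orthogonal G := by
  obtain ⟨hfin, hrk⟩ := fin_der hy hn
  have hanti : ∀ D D', σ D D' = -σ D' D := by
    intro D D'
    have h1 := halt (D + D')
    simp only [map_add, LinearMap.add_apply, halt] at h1
    linear_combination h1
  have hrefl : σ.IsRefl := by
    intro D D' h
    rw [hanti, h, neg_zero]
  have hnon : σ.Nondegenerate := by
    refine (LinearMap.BilinForm.nondegenerate_iff_ker_eq_bot).2 ?_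
    rw [LinearMap.ker_eq_bot']
    intro D hD
    exact hnd D fun D' => by rw [hD]; rfl
  refine ⟨hanti, fun G => LinearMap.BilinForm.orthogonal_orthogonal hnon hrefl G, fun G => ?_,
    fun G G' h => LinearMap.BilinForm.orthogonal_le h⟩
  rw [LinearMap.BilinForm.finrank_orthogonal hnon G, hrk]

/-- the restriction of a tensor -/
theorem restrict_ord {P : Place ℂ K} {δ ℓ : ℚ} {m : ℕ}
    {T : MultilinearMap K (fun _ : Fin m => Derivation ℂ K K) K} (h : TensorAt n δ ℓ P T)
    (A : Fin m → Submodule K (Derivation ℂ K K)) :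
    MixedTensorAt n δ ℓ P (T.compLinearMap fun s => (A s).subtype) :=
  fun D e he => h (fun s => (D s : Derivation ℂ K K)) e he

/-- **The canonical isotropic foliation.** -/
theorem isotropic_foliation (hy : NormalModel y) (hn : Algebra.trdeg ℂ K = n) (hn1 : 1 ≤ n)
    {α : Place ℂ K → ℝ} (hα : MovableClass y α) (hc : LogDegree y n (fun _ => 0) α 0)
    (hss : SemistableTangent y n (fun _ => 0) α 0) {L : Place ℂ K → ℚ}
    (hL : HasDeg y α (fun P => L P) 0)
    (hdet : ∀ G : Submodule K (Derivation ℂ K K), SubDeg y n (fun _ => 0) α G 0 →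
      ∃ b, DetMultiple y n (fun _ => 0) L G b) (hL2 : ¬ QEff y (fun P => -L P))
    {σ : LinearMap.BilinForm K (Derivation ℂ K K)}
    (halt : ∀ D, σ D D = 0) (hnd : ∀ D, (∀ D', σ D D' = 0) → D = 0)
    (hσ : ∀ P, IsPrimeDivisor y P → FormAt n 0 P σ) :
    QEff y L ∨ ∃ (F : Submodule K (Derivation ℂ K K)) (b : ℚ),
      SubDeg y n (fun _ => 0) α F 0 ∧ DetMultiple y n (fun _ => 0) L F b ∧ b ≤ 0 ∧
      (b = 0 → F = ⊥) ∧ F ≤ σ.orthogonal F ∧
      SubDeg y n (fun _ => 0) α (σ.orthogonal F) 0 ∧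
      DetMultiple y n (fun _ => 0) L (σ.orthogonal F) b ∧
      (∀ (G : Submodule K (Derivation ℂ K K)) (b' : ℚ), SubDeg y n (fun _ => 0) α G 0 →
        DetMultiple y n (fun _ => 0) L G b' → b ≤ b' ∧ (b' = b → F ≤ G ∧ G ≤ σ.orthogonal F)) ∧
      (∀ D ∈ F, ∀ D' ∈ F, ⁅D, D'⁆ ∈ F) ∧
      (∀ D ∈ σ.orthogonal F, ∀ D' ∈ σ.orthogonal F, ⁅D, D'⁆ ∈ σ.orthogonal F) ∧
      ∀ (m : ℕ) (a : ℚ) (T : MultilinearMap K (fun _ : Fin m => Derivation ℂ K K) K), 1 ≤ m →
        (∀ P, IsPrimeDivisor y P → TensorAt n 0 (a * L P) P T) →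
        (0 < a → ∀ D : Fin m → Derivation ℂ K K, (∀ s, D s ∈ σ.orthogonal F) → T D = 0) ∧
        (0 ≤ a → ∀ D : Fin m → Derivation ℂ K K, (∀ s, D s ∈ σ.orthogonal F) →
          (∃ s, D s ∈ F) → T D = 0) ∧
        (T ≠ 0 → ∃ (G : Submodule K (Derivation ℂ K K)) (b' : ℚ), G ≠ ⊥ ∧
          SubDeg y n (fun _ => 0) α G 0 ∧ DetMultiple y n (fun _ => 0) L G b' ∧
          m * b' ≤ -(a * Module.finrank K G)) := by
  classical
  by_cases hL1 : QEff y L
  · exact Or.inl hL1
  right
  have hΔ : Boundary y (fun _ => 0) := boundary_zero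
  obtain ⟨hfin, hrk⟩ := fin_der hy hn
  obtain ⟨hanti, hpp, hpr, hpa⟩ := perp_perp hy hn halt hnd
  obtain ⟨bf, hbf, hmod, hf, hb0⟩ := det_lattice hy hn hn1 hΔ hα hc hss hdet hL1 hL2
  obtain ⟨F, hF, hFmin, hFle⟩ := hmod.least hf
  obtain ⟨hbt, hperp⟩ := perp_zero hy hn hn1 hΔ hα hc hss hL1 hL2 hbf hb0 halt hnd hσ
  have hneg := fun (G : Submodule K (Derivation ℂ K K)) (d : ℝ) hG => semi_nonpos hn1 hss
    (F := G) (d := d) hG
  obtain ⟨hC, hCb⟩ := hperp F hF
  have hFC : F ≤ σ.orthogonal F := hFle _ hC hCb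
  have huni : ∀ (G : Submodule K (Derivation ℂ K K)) (b' : ℚ),
      SubDeg y n (fun _ => 0) α G 0 → DetMultiple y n (fun _ => 0) L G b' → b' = bf G :=
    fun G b' hG hb' => det_unique hy hn hΔ hL1 hL2 hb' (hbf G hG)
  -- the filtrations
  obtain ⟨c, hc0, hFc⟩ := (filt_of hy hn hmod.bot hf hF).2 fun G hG hlt => by
    refine lt_of_le_of_ne (hFmin G hG) fun h => ?_
    exact absurd (hFle G hG h.symm) (not_le_of_gt hlt)
  have hCc : FiltLe y n (fun _ => 0) α bf (σ.orthogonal F) 0 :=
    (filt_of hy hn hmod.bot hf hC).1 fun G hG => by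
      rw [hCb]
      exact hFmin G hG
  have hFCσ : ∀ D ∈ F, ∀ D' ∈ σ.orthogonal F, σ D D' = 0 := fun D hD D' hD' =>
    LinearMap.BilinForm.mem_orthogonal_iff.1 hD' D hD
  have hCFσ : ∀ D ∈ σ.orthogonal F, ∀ D' ∈ F, σ D D' = 0 := fun D hD D' hD' => by
    rw [hanti, hFCσ D' hD' D hD, neg_zero]
  have hlie : ∀ {A A' : Submodule K (Derivation ℂ K K)} (hA : ∀ D ∈ A, ∀ D' ∈ A', σ D D' = 0)
      {c1 c2 : ℚ}, FiltLe y n (fun _ => 0) α bf A c1 → FiltLe y n (fun _ => 0) α bf A' c2 →
      c1 + c1 + c2 < 0 → ∀ D ∈ A, ∀ D' ∈ A, ∀ D'' ∈ A', σ ⁅D, D'⁆ D'' = 0 := by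
    intro A A' hA c1 c2 h1 h2 h3 D hD D' hD' D'' hD''
    have h4 := multi_vanish hy hn hΔ hα hneg hL hL1 hL2 hbf (m := 3) (by norm_num)
      (A := ![A, A, A']) (c := ![c1, c1, c2]) (fun s => by
        fin_cases s
        · exact h1
        · exact h1
        · exact h2) (T := lieForm σ A A' hA) (a := 0) (by
        rw [Fin.sum_univ_three]
        exact h3) fun P hP => by
        rw [zero_mul]
        exact lie_ord hy hn hP (hσ P hP) hA
    have h5 := congrArg (fun t : MultilinearMap K
      (fun s : Fin 3 => (![A, A, A'] s : Submodule K (Derivation ℂ K K))) K =>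
        t (Fin.cons ⟨D, hD⟩ (Fin.cons ⟨D', hD'⟩ (Fin.cons ⟨D'', hD''⟩ finZeroElim)))) h4
    exact h5
  refine ⟨F, bf F, hF, hbf F hF, ?_, fun h => ?_, hFC, hC, ?_, fun G b' hG hb' => ?_, ?_, ?_, ?_⟩
  · rw [← hb0]
    exact hFmin ⊥ hmod.bot
  · exact le_bot_iff.1 (hFle ⊥ hmod.bot (by rw [hb0, h]))
  · rw [← hCb]
    exact hbf _ hC
  · rw [huni G b' hG hb']
    refine ⟨hFmin G hG, fun h => ⟨hFle G hG h, ?_⟩⟩
    obtain ⟨h1, h2⟩ := hperp G hG
    have h3 := hpa _ _ (hFle _ h1 (h2.trans h))
    rwa [hpp] at h3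
  · intro D hD D' hD'
    rw [← hpp F, LinearMap.BilinForm.mem_orthogonal_iff]
    intro D'' hD''
    change σ D'' ⁅D, D'⁆ = 0
    rw [hanti, hlie hFCσ hFc hCc (by linarith) D hD D' hD' D'' hD'', neg_zero]
  · intro D hD D' hD'
    rw [LinearMap.BilinForm.mem_orthogonal_iff]
    intro D'' hD''
    change σ D'' ⁅D, D'⁆ = 0
    rw [hanti, hlie hCFσ hCc hFc (by linarith) D hD D' hD' D'' hD'', neg_zero]
  · intro m a T hm hT
    refine ⟨fun ha D hD => ?_, fun ha D hD hs => ?_, fun hT0 => ?_⟩
    · have h4 := multi_vanish hy hn hΔ hα hneg hL hL1 hL2 hbf hm (A := fun _ => σ.orthogonal F)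
        (c := fun _ => 0) (fun _ => hCc) (T := T.compLinearMap fun s => (σ.orthogonal F).subtype)
        (a := a) (by simpa using ha) fun P hP => restrict_ord (hT P hP) _
      exact congrArg (fun t : MultilinearMap K (fun _ : Fin m => σ.orthogonal F) K =>
        t fun s => ⟨D s, hD s⟩) h4
    · obtain ⟨s0, hs0⟩ := hs
      have h4 := multi_vanish hy hn hΔ hα hneg hL hL1 hL2 hbf hm
        (A := fun s => if s = s0 then F else σ.orthogonal F)
        (c := fun s => if s = s0 then c else 0) (fun s => by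
          split_ifs with h
          · exact hFc
          · exact hCc) (T := T.compLinearMap fun s =>
            (if s = s0 then F else σ.orthogonal F).subtype)
        (a := a) (by
          rw [Finset.sum_ite_eq' Finset.univ s0 (fun _ => c), if_pos (Finset.mem_univ _)]
          linarith) fun P hP => restrict_ord (hT P hP) _
      exact congrArg (fun t : MultilinearMap K
        (fun s : Fin m => (if s = s0 then F else σ.orthogonal F : Submodule K _)) K =>
        t fun s => ⟨D s, by
          by_cases h : s = s0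
          · rw [if_pos h, h]
            exact hs0
          · rw [if_neg h]
            exact hD s⟩) h4
    · have hT1 : SubDeg y n (fun _ => 0) α (⊤ : Submodule K (Derivation ℂ K K)) 0 :=
        zero_top hy hn hΔ hα hc
      obtain ⟨l, H, h0, hl, hZ, hlt, hst, hsl⟩ := hn_exists
        (Z := fun G => SubDeg y n (fun _ => 0) α G 0) hmod.bot hf hT1
      rcases Nat.eq_zero_or_pos l with h | h
      · exfalso
        rw [h, h0] at hl
        have h1 : Module.finrank K (⊥ : Submodule K (Derivation ℂ K K)) = n := by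
          rw [hl, finrank_top, hrk]
        rw [finrank_bot] at h1
        omega
      · obtain ⟨k, rfl⟩ : ∃ k, l = k + 1 := ⟨l - 1, by omega⟩
        have h1 := hn_slope (b := bf) hsl rfl
        have h2 : H k < ⊤ := by
          rw [← hl]
          exact hlt k (Nat.lt_succ_self k)
        obtain ⟨h3, h4⟩ := hperp (H k) (hZ k (Nat.le_succ k))
        have h5 := rk_pos h2
        rw [finrank_top, hrk] at h5
        have h6 : Module.finrank K (H k) ≤ n := by
          rw [← hrk]
          exact Submodule.finrank_le _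
        have h7 : (Module.finrank K (σ.orthogonal (H k)) : ℚ) = n - Module.finrank K (H k) := by
          rw [hpr, Nat.cast_sub h6]
        refine ⟨σ.orthogonal (H k), bf (H k), fun h => ?_, h3, by rw [← h4]; exact hbf _ h3, ?_⟩
        · rw [h, finrank_bot] at h7
          rw [← h7] at h5
          simp at h5
        · by_contra hcon
          push Not at hcon
          apply hT0
          have h8 := multi_vanish hy hn hΔ hα hneg hL hL1 hL2 hbf hm
            (A := fun _ => (⊤ : Submodule K (Derivation ℂ K K)))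
            (c := fun _ => slp bf (H k) (H (k + 1)))
            (fun _ => ⟨k + 1, H, h0, hl, hZ, hlt, hst, h1⟩)
            (T := T.compLinearMap fun s => (⊤ : Submodule K (Derivation ℂ K K)).subtype)
            (a := a) (by
              rw [Finset.sum_const, Finset.card_univ, Fintype.card_fin, nsmul_eq_mul, hl]
              unfold slp
              rw [hbt, finrank_top, hrk, ← mul_div_assoc, div_lt_iff₀ h5]
              rw [h7] at hcon
              linarith) fun P hP => restrict_ord (hT P hP) _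
          refine MultilinearMap.ext fun D => ?_
          exact congrArg (fun t : MultilinearMap K
            (fun _ : Fin m => (⊤ : Submodule K (Derivation ℂ K K))) K =>
            t fun s => ⟨D s, Submodule.mem_top⟩) h8

end

end Pool.Agent.H897
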