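import Pool.Agent.H897.WI

/-!
Real modular functions on lattices of subspaces: finitely many values, the least subspace with the
smallest value, filtrations with increasing slopes.
-/

set_option autoImplicit false
set_option linter.overlappingInstances false
set_option linter.unusedSectionVars false

namespace Pool.Agent.H897

section

variable {K M : Type} [Field K] [AddCommGroup M] [Module K M]

/-- `Z` is a sublattice of the lattice of subspaces, and `b` is a modular function on `Z`. -/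
structure RLat (Z : Submodule K M → Prop) (b : Submodule K M → ℝ) : Prop where
  inf : ∀ V W, Z V → Z W → Z (V ⊓ W)
  sup : ∀ V W, Z V → Z W → Z (V ⊔ W)
  bot : Z ⊥
  mod : ∀ V W, Z V → Z W → b (V ⊓ W) + b (V ⊔ W) = b V + b W

variable {Z : Submodule K M → Prop} {b : Submodule K M → ℝ}

/-- a modular function has finitely many values -/
theorem RLat.finite (h : RLat Z b) {k : ℕ} {V : ℕ → Submodule K M} (hV0 : V 0 = ⊥)
    (hVk : V k = ⊤) (hVZ : ∀ i, i ≤ k → Z (V i)) (hVs : ∀ i, i < k → V i ≤ V (i + 1))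
    (hst : ∀ i, i < k → ∀ G, Z G → V i ≤ G → G ≤ V (i + 1) → G = V i ∨ G = V (i + 1)) :
    {x | ∃ G, Z G ∧ b G = x}.Finite := by
  classical
  have key : ∀ G, Z G → ∀ i, i ≤ k → ∃ S ⊆ Finset.range k,
      b (G ⊓ V i) = b ⊥ + ∑ j ∈ S, (b (V (j + 1)) - b (V j)) ∧ S ⊆ Finset.range i := by
    intro G hG i
    induction i with
    | zero =>
      intro _
      refine ⟨∅, Finset.empty_subset _, ?_, Finset.empty_subset _⟩
      rw [hV0, inf_bot_eq, Finset.sum_empty, add_zero]
    | succ i ih =>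
      intro hi
      obtain ⟨S, hS, hb, hSi⟩ := ih (by omega)
      have h1 := h.inf _ _ hG (hVZ (i + 1) hi)
      have h2 := hVZ i (by omega)
      have h3 := h.mod _ _ h1 h2
      have h4 : (G ⊓ V (i + 1)) ⊓ V i = G ⊓ V i := by
        rw [inf_assoc, inf_eq_right.2 (hVs i (by omega))]
      rw [h4] at h3
      rcases hst i (by omega) _ (h.sup _ _ h1 h2) le_sup_right
        (sup_le inf_le_right (hVs i (by omega))) with h5 | h5
      · rw [h5] at h3
        exact ⟨S, hS, by rw [← hb]; linarith, hSi.trans (Finset.range_mono (Nat.le_succ i))⟩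
      · rw [h5] at h3
        have hiS : i ∉ S := fun hc => absurd (Finset.mem_range.1 (hSi hc)) (lt_irrefl _)
        refine ⟨insert i S, ?_, ?_, ?_⟩
        · intro j hj
          rcases Finset.mem_insert.1 hj with rfl | hj
          · exact Finset.mem_range.2 (by omega)
          · exact hS hj
        · rw [Finset.sum_insert hiS]
          linarith
        · intro j hj
          rcases Finset.mem_insert.1 hj with rfl | hj
          · exact Finset.mem_range.2 (Nat.lt_succ_self _)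
          · exact Finset.mem_range.2 ((Finset.mem_range.1 (hSi hj)).trans (Nat.lt_succ_self _))
  refine (((Finset.range k).powerset.image fun S =>
    b ⊥ + ∑ j ∈ S, (b (V (j + 1)) - b (V j))).finite_toSet).subset ?_
  rintro x ⟨G, hG, rfl⟩
  obtain ⟨S, hS, hb, -⟩ := key G hG k le_rfl
  rw [hVk, inf_top_eq] at hb
  rw [Finset.coe_image]
  exact ⟨S, Finset.mem_coe.2 (Finset.mem_powerset.2 hS), hb.symm⟩

variable [Module.Finite K M]

/-- **The least subspace with the smallest value.** -/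
theorem RLat.least (h : RLat Z b) (hf : {x | ∃ G, Z G ∧ b G = x}.Finite) :
    ∃ F, Z F ∧ (∀ G, Z G → b F ≤ b G) ∧ ∀ G, Z G → b G = b F → F ≤ G := by
  classical
  obtain ⟨x, hx, hmin⟩ := Set.exists_min_image _ id hf ⟨_, ⊥, h.bot, rfl⟩
  obtain ⟨G0, hG0, hx0⟩ := hx
  have hex : ∃ r : ℕ, ∃ F, Z F ∧ b F = x ∧ Module.finrank K F = r := ⟨_, G0, hG0, hx0, rfl⟩
  obtain ⟨F, hF, hFx, hFr⟩ := Nat.find_spec hex
  have hle : ∀ G, Z G → x ≤ b G := fun G hG => hmin _ ⟨G, hG, rfl⟩
  refine ⟨F, hF, fun G hG => by rw [hFx]; exact hle G hG, fun G hG hGF => ?_⟩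
  have h1 := h.mod _ _ hF hG
  have h2 := hle _ (h.inf _ _ hF hG)
  have h3 := hle _ (h.sup _ _ hF hG)
  have h4 : b (F ⊓ G) = x := by linarith
  have h5 : Module.finrank K F ≤ Module.finrank K (F ⊓ G : Submodule K M) := by
    rw [hFr]
    exact Nat.find_min' hex ⟨_, h.inf _ _ hF hG, h4, rfl⟩
  have h6 : F ⊓ G = F := Submodule.eq_of_le_of_finrank_le inf_le_left h5
  exact inf_eq_left.1 h6

/-- the slope of `G / W` -/
noncomputable def rslp (b : Submodule K M → ℝ) (W G : Submodule K M) : ℝ :=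
  (b G - b W) / ((Module.finrank K G : ℝ) - Module.finrank K W)

theorem rrk_pos {W G : Submodule K M} (h : W < G) :
    (0 : ℝ) < (Module.finrank K G : ℝ) - Module.finrank K W := by
  have h1 : (Module.finrank K W : ℝ) < Module.finrank K G := by
    exact_mod_cast Submodule.finrank_lt_finrank_of_lt h
  linarith

/-- the first step of the filtration -/
theorem rhn_step (hf : {x | ∃ G, Z G ∧ b G = x}.Finite) {W V : Submodule K M} (hV : Z V)
    (hWV : W < V) : ∃ G0, Z G0 ∧ W < G0 ∧ G0 ≤ V ∧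
      (∀ G, Z G → W < G → G ≤ G0 → rslp b W G0 ≤ rslp b W G) ∧
      ∀ G, Z G → G0 < G → G ≤ V → rslp b W G0 < rslp b G0 G := by
  classical
  obtain ⟨T, hT⟩ : ∃ T : Set ℝ, T = {s | ∃ G, Z G ∧ W < G ∧ G ≤ V ∧ rslp b W G = s} := ⟨_, rfl⟩
  have hTf : T.Finite := by
    refine ((hf.prod (Set.finite_Icc 0 (Module.finrank K M))).image
      fun p : ℝ × ℕ => (p.1 - b W) / ((p.2 : ℝ) - Module.finrank K W)).subset ?_
    rw [hT]
    rintro s ⟨G, hG, -, -, rfl⟩
    exact ⟨(b G, Module.finrank K G), ⟨⟨G, hG, rfl⟩, Nat.zero_le _, Submodule.finrank_le G⟩, rfl⟩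
  obtain ⟨s0, hs0, hmin⟩ := Set.exists_min_image T id hTf
    ⟨rslp b W V, by rw [hT]; exact ⟨V, hV, hWV, le_rfl, rfl⟩⟩
  have hs0' := hs0
  rw [hT] at hs0'
  obtain ⟨G1, hG1, hWG1, hG1V, hs1⟩ := hs0'
  obtain ⟨R, hR⟩ : ∃ R : Set ℕ, R = {r | ∃ G, Z G ∧ W < G ∧ G ≤ V ∧ rslp b W G = s0 ∧
    Module.finrank K G = r} := ⟨_, rfl⟩
  have hRf : R.Finite := by
    refine (Set.finite_Icc 0 (Module.finrank K M)).subset ?_
    rw [hR]
    rintro r ⟨G, -, -, -, -, rfl⟩
    exact ⟨Nat.zero_le _, Submodule.finrank_le G⟩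
  obtain ⟨r0, hr0, hmax⟩ := Set.exists_max_image R id hRf
    ⟨_, by rw [hR]; exact ⟨G1, hG1, hWG1, hG1V, hs1, rfl⟩⟩
  rw [hR] at hr0
  obtain ⟨G0, hG0, hWG0, hG0V, hs, hr⟩ := hr0
  have hle : ∀ G, Z G → W < G → G ≤ V → s0 ≤ rslp b W G := fun G h1 h2 h3 =>
    hmin _ (by rw [hT]; exact ⟨G, h1, h2, h3, rfl⟩)
  refine ⟨G0, hG0, hWG0, hG0V, fun G h1 h2 h3 => ?_, fun G h1 h2 h3 => ?_⟩
  · rw [hs]
    exact hle G h1 h2 (h3.trans hG0V)
  · have h4 := hle G h1 (hWG0.trans h2) h3
    have h5 : s0 ≠ rslp b W G := by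
      intro h5
      have h6 := hmax (Module.finrank K G) (by
        rw [hR]
        exact ⟨G, h1, hWG0.trans h2, h3, h5.symm, rfl⟩)
      have h7 := Submodule.finrank_lt_finrank_of_lt h2
      simp only [id] at h6
      omega
    have h6 := lt_of_le_of_ne h4 h5
    have h7 := rrk_pos hWG0
    have h8 := rrk_pos h2
    have h9 := rrk_pos (hWG0.trans h2)
    rw [hs]
    unfold rslp at h6 hs ⊢
    rw [lt_div_iff₀ h9] at h6
    rw [div_eq_iff h7.ne'] at hs
    rw [lt_div_iff₀ h8]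
    linarith

/-- **The filtration with increasing slopes.** -/
theorem rhn_exists (hb0 : Z ⊥) (hf : {x | ∃ G, Z G ∧ b G = x}.Finite) {V : Submodule K M}
    (hV : Z V) : ∃ (l : ℕ) (H : ℕ → Submodule K M), H 0 = ⊥ ∧ H l = V ∧
      (∀ i, i ≤ l → Z (H i)) ∧ (∀ i, i < l → H i < H (i + 1)) ∧
      (∀ i, i < l → ∀ G, Z G → H i < G → G ≤ H (i + 1) → rslp b (H i) (H (i + 1)) ≤
        rslp b (H i) G) ∧
      ∀ i, i + 1 < l → rslp b (H i) (H (i + 1)) < rslp b (H (i + 1)) (H (i + 2)) := by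
  classical
  have hstep : ∀ W : Submodule K M, ∃ G0 : Submodule K M, W < V → (Z G0 ∧ W < G0 ∧ G0 ≤ V ∧
      (∀ G, Z G → W < G → G ≤ G0 → rslp b W G0 ≤ rslp b W G) ∧
      ∀ G, Z G → G0 < G → G ≤ V → rslp b W G0 < rslp b G0 G) := by
    intro W
    by_cases hW : W < V
    · obtain ⟨G0, h⟩ := rhn_step hf hV hW
      exact ⟨G0, fun _ => h⟩
    · exact ⟨⊥, fun h => absurd h hW⟩
  choose nx hnx using hstep
  obtain ⟨H, hH0, hHs⟩ : ∃ H : ℕ → Submodule K M, H 0 = ⊥ ∧
      ∀ i, H (i + 1) = nx (H i) := ⟨fun i => Nat.rec ⊥ (fun _ W => nx W) i, rfl, fun _ => rfl⟩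
  have hex : ∃ l, H l = V := by
    by_contra hcon
    push Not at hcon
    have h1 : ∀ i, Z (H i) ∧ H i < V ∧ i ≤ Module.finrank K (H i) := by
      intro i
      induction i with
      | zero =>
        refine ⟨by rw [hH0]; exact hb0, lt_of_le_of_ne (by rw [hH0]; exact bot_le) (hcon 0),
          Nat.zero_le _⟩
      | succ i ih =>
        obtain ⟨h2, h3, h4, -⟩ := hnx (H i) ih.2.1
        rw [← hHs i] at h2 h3 h4
        have h5 := Submodule.finrank_lt_finrank_of_lt h3
        exact ⟨h2, lt_of_le_of_ne h4 (hcon _), by omega⟩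
    have h2 := (h1 (Module.finrank K M + 1)).2.2
    have h3 := Submodule.finrank_le (H (Module.finrank K M + 1))
    omega
  obtain ⟨l, hl⟩ : ∃ l, l = Nat.find hex := ⟨_, rfl⟩
  have hHl : H l = V := by
    rw [hl]
    exact Nat.find_spec hex
  have hlt : ∀ i, i < l → H i ≠ V := fun i hi => by
    rw [hl] at hi
    exact Nat.find_min hex hi
  have hZV : ∀ i, i ≤ l → Z (H i) ∧ H i ≤ V := by
    intro i
    induction i with
    | zero =>
      intro _
      exact ⟨by rw [hH0]; exact hb0, by rw [hH0]; exact bot_le⟩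
    | succ i ih =>
      intro hi
      have h1 := ih (by omega)
      obtain ⟨h2, -, h4, -⟩ := hnx (H i) (lt_of_le_of_ne h1.2 (hlt i (by omega)))
      rw [← hHs i] at h2 h4
      exact ⟨h2, h4⟩
  have hd : ∀ i, i < l → _ := fun i hi =>
    hnx (H i) (lt_of_le_of_ne (hZV i hi.le).2 (hlt i hi))
  refine ⟨l, H, hH0, hHl, fun i hi => (hZV i hi).1, fun i hi => ?_, fun i hi G h1 h2 h3 => ?_,
    fun i hi => ?_⟩
  · have h1 := hd i hi
    rw [← hHs i] at h1
    exact h1.2.1
  · have h4 := hd i hi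
    rw [← hHs i] at h4
    exact h4.2.2.2.1 G h1 h2 h3
  · have h4 := hd i (by omega)
    have h5 := hd (i + 1) hi
    rw [← hHs i] at h4
    rw [← hHs (i + 1)] at h5
    exact h4.2.2.2.2 _ h5.1 h5.2.1 h5.2.2.1

/-- the slopes are bounded by the last slope -/
theorem rhn_slope {l : ℕ} {H : ℕ → Submodule K M}
    (h : ∀ i, i + 1 < l → rslp b (H i) (H (i + 1)) < rslp b (H (i + 1)) (H (i + 2))) {c : ℕ}
    (hc : l = c + 1) : ∀ i, i < l → rslp b (H i) (H (i + 1)) ≤ rslp b (H c) (H (c + 1)) := by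
  have key : ∀ j, ∀ i, i + j = c → rslp b (H i) (H (i + 1)) ≤ rslp b (H c) (H (c + 1)) := by
    intro j
    induction j with
    | zero =>
      intro i hi
      rw [add_zero] at hi
      rw [hi]
    | succ j ih =>
      intro i hi
      exact (h i (by omega)).le.trans (ih (i + 1) (by omega))
  intro i hi
  exact key (c - i) i (by omega)

end

end Pool.Agent.H897
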