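import Pool.Agent.H897.XA

/-!
The lattice of the distributions of degree zero for one movable class, with the degrees for another
movable class.
-/

set_option autoImplicit false
set_option linter.overlappingInstances false
set_option linter.unusedSectionVars false

open MvPolynomial FF Pool.Agent.W602.GT Pool.Agent.Y172 Pool.Agent.NH31 Pool.Agent.W603.LV
open Pool.Agent.N133.TB Pool.Agent.Y174 Pool.Agent.TH466.QG Pool.Agent.W619.PQ
open Pool.Agent.N133.OB Pool.Agent.Y191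

namespace Pool.Agent.H897

section

variable {K : Type} [Field K] [Algebra ℂ K] {N n : ℕ} {y : Fin (N + 1) → K}

/-- effective divisors of `α`-degree zero have `β`-degree zero -/
theorem eff_zero {α β e : Place ℂ K → ℝ} (hα : ∀ P, IsPrimeDivisor y P → 0 ≤ α P)
    (hαβ : ∀ P, IsPrimeDivisor y P → α P = 0 → β P = 0)
    (he : ∀ P, IsPrimeDivisor y P → 0 ≤ e P) (h : HasDeg y α e 0) {t : ℝ}
    (ht : HasDeg y β e t) : t = 0 := by
  obtain ⟨S, h1, h2, h3⟩ := h
  have h4 : ∀ P ∈ S, α P * e P = 0 :=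
    (Finset.sum_eq_zero_iff_of_nonneg fun P hP => mul_nonneg (hα P (h1 P hP)) (he P (h1 P hP))).1 h3
  have h5 : HasDeg y β e 0 := by
    refine ⟨S, h1, h2, Finset.sum_eq_zero fun P hP => ?_⟩
    rcases mul_eq_zero.1 (h4 P hP) with h6 | h6
    · rw [hαβ P (h1 P hP) h6, zero_mul]
    · rw [h6, mul_zero]
  exact ht.unique h5

/-- **The lattice of the distributions of degree zero** with the degrees for `β`. -/
theorem deg_lattice (hy : NormalModel y) (hn : Algebra.trdeg ℂ K = n) (hn1 : 1 ≤ n)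
    {Δ : Place ℂ K → ℚ} (hΔ : Boundary y Δ) {α : Place ℂ K → ℝ} (hα : MovableClass y α)
    (hc : LogDegree y n Δ α 0) (hss : SemistableTangent y n Δ α 0) {β : Place ℂ K → ℝ}
    (hβ : MovableClass y β) (hαβ : ∀ P, IsPrimeDivisor y P → α P = 0 → β P = 0) :
    ∃ b : Submodule K (Derivation ℂ K K) → ℝ,
      (∀ F, SubDeg y n Δ β F (b F)) ∧ RLat (fun F => SubDeg y n Δ α F 0) b ∧
      {x | ∃ G, SubDeg y n Δ α G 0 ∧ b G = x}.Finite ∧ b ⊥ = 0 := by
  classical
  obtain ⟨hfin, hrk⟩ := fin_der hy hn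
  choose b hb using subDeg_exists hy hn hΔ β
  have hlat : RLat (fun F => SubDeg y n Δ α F 0) b := by
    refine ⟨fun V W h1 h2 => (zero_lattice hy hn hn1 hΔ hα hss h1 h2).1,
      fun V W h1 h2 => (zero_lattice hy hn hn1 hΔ hα hss h1 h2).2, zero_bot hy hn hΔ α,
      fun V W h1 h2 => ?_⟩
    have h3 := zero_lattice hy hn hn1 hΔ hα hss h1 h2
    obtain ⟨eI, e1, e2, eS, hI, he1, he2, hS, hle⟩ := modular_ord hy hn hΔ V W
    have h4 : HasDeg y α (fun P => (eS P + eI P) + (-1) * (e1 P + e2 P)) 0 := by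
      have h5 := ((hS.deg hy hn hΔ hα h3.2).add (hI.deg hy hn hΔ hα h3.1)).add
        (((he1.deg hy hn hΔ hα h1).add (he2.deg hy hn hΔ hα h2)).smul (-1))
      have h6 : (0 : ℝ) + 0 + -1 * (0 + 0) = 0 := by norm_num
      rwa [h6] at h5
    have h5 := eff_zero hα.nonneg hαβ (fun P hP => by
      have := hle P hP
      linarith) h4 (((hS.deg hy hn hΔ hβ (hb _)).add (hI.deg hy hn hΔ hβ (hb _))).add
        (((he1.deg hy hn hΔ hβ (hb _)).add (he2.deg hy hn hΔ hβ (hb _))).smul (-1)))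
    linarith
  refine ⟨b, hb, hlat, ?_, subDeg_bot (hb ⊥)⟩
  obtain ⟨k, V, hV0, hVk, hV, hVd⟩ := jh_exists hy hn hn1 hΔ hα hc hss
  have hn0 : (n : ℝ) ≠ 0 := by
    have : 0 < n := hn1
    positivity
  have hVZ : ∀ i, i ≤ k → SubDeg y n Δ α (V i) 0 := by
    intro i hi
    obtain ⟨d, hd⟩ := subDeg_exists hy hn hΔ α (V i)
    have h1 := hVd i hi d hd
    rw [mul_zero, neg_zero] at h1
    have h2 : d = 0 := (mul_eq_zero.1 h1).resolve_left hn0
    rwa [h2] at hd
  refine hlat.finite hV0 hVk hVZ (fun i hi => (hV i hi).1.le) fun i hi G hG h1 h2 => ?_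
  by_contra hcon
  push Not at hcon
  have h3 := (hV i hi).2 G 0 0 0 (lt_of_le_of_ne h1 (Ne.symm hcon.1))
    (lt_of_le_of_ne h2 hcon.2) (hVZ i hi.le) hG (hVZ (i + 1) hi)
  simp at h3

/-- **The orthogonal complement.** -/
theorem deg_perp (hy : NormalModel y) (hn : Algebra.trdeg ℂ K = n) (hn1 : 1 ≤ n)
    {Δ : Place ℂ K → ℚ} (hΔ : Boundary y Δ) {α : Place ℂ K → ℝ} (hα : MovableClass y α)
    (hc : LogDegree y n Δ α 0) (hss : SemistableTangent y n Δ α 0) {β : Place ℂ K → ℝ}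
    (hβ : MovableClass y β) (hαβ : ∀ P, IsPrimeDivisor y P → α P = 0 → β P = 0)
    {b : Submodule K (Derivation ℂ K K) → ℝ} (hb : ∀ F, SubDeg y n Δ β F (b F)) (hb0 : b ⊥ = 0)
    {σ : LinearMap.BilinForm K (Derivation ℂ K K)}
    (halt : ∀ D, σ D D = 0) (hnd : ∀ D, (∀ D', σ D D' = 0) → D = 0)
    (hσ : ∀ P, IsPrimeDivisor y P → FormAt n (Δ P) P σ) :
    b ⊤ = 0 ∧ ∀ G, SubDeg y n Δ α G 0 → SubDeg y n Δ α (σ.orthogonal G) 0 ∧
      b (σ.orthogonal G) = b G := by
  classical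
  have htop := zero_top hy hn hΔ hα hc
  have key : ∀ G, SubDeg y n Δ α G 0 → SubDeg y n Δ α (σ.orthogonal G) 0 ∧
      b (σ.orthogonal G) = b G + b ⊤ := by
    intro G hG
    obtain ⟨eG, eC, eT, g, hg, h1, h2, h3, hle⟩ := perp_ord hy hn hΔ halt hnd hσ G
    obtain ⟨d, hd⟩ := subDeg_exists hy hn hΔ α (σ.orthogonal G)
    have hpos : ∀ P, IsPrimeDivisor y P → 0 ≤ (P.ord g + eC P) + (-1) * (eG P + eT P) :=
      fun P hP => by
        have := hle P hP
        linarith
    have h4 := ((hα.prin g hg).add (h2.deg hy hn hΔ hα hd)).add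
      (((h1.deg hy hn hΔ hα hG).add (h3.deg hy hn hΔ hα htop)).smul (-1))
    have h4' := h4.nonneg hα.nonneg hpos
    have h5 := semi_nonpos hn1 hss hd
    have h6 : d = 0 := by linarith
    rw [h6] at hd h4
    refine ⟨hd, ?_⟩
    have h7 : (0 : ℝ) + 0 + -1 * (0 + 0) = 0 := by norm_num
    rw [h7] at h4
    have h8 := eff_zero hα.nonneg hαβ hpos h4 (((hβ.prin g hg).add
      (h2.deg hy hn hΔ hβ (hb _))).add
        (((h1.deg hy hn hΔ hβ (hb _)).add (h3.deg hy hn hΔ hβ (hb _))).smul (-1)))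
    linarith
  have h1 := (key ⊤ htop).2
  have h2 : σ.orthogonal (⊤ : Submodule K (Derivation ℂ K K)) = ⊥ := by
    rw [eq_bot_iff]
    intro D hD
    rw [Submodule.mem_bot]
    have hanti : ∀ D D', σ D D' = -σ D' D := by
      intro D D'
      have h1 := halt (D + D')
      simp only [map_add, LinearMap.add_apply, halt] at h1
      linear_combination h1
    refine hnd D fun D' => ?_
    rw [hanti, LinearMap.BilinForm.mem_orthogonal_iff.1 hD D' Submodule.mem_top, neg_zero]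
  rw [h2, hb0] at h1
  have h3 : b ⊤ = 0 := by linarith
  refine ⟨h3, fun G hG => ?_⟩
  have h4 := key G hG
  rw [h3, add_zero] at h4
  exact h4

end

end Pool.Agent.H897
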