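import Pool.Agent.H897.XB
import Pool.Agent.H897.WF

/-!
Forms on several semistable blocks: two degrees.
-/

set_option autoImplicit false
set_option linter.overlappingInstances false
set_option linter.unusedSectionVars false

open MvPolynomial FF Pool.Agent.W602.GT Pool.Agent.Y172 Pool.Agent.NH31 Pool.Agent.W603.LV
open Pool.Agent.N133.TB Pool.Agent.Y174 Pool.Agent.TH466.QG

namespace Pool.Agent.H897

section

variable {K : Type} [Field K] [Algebra ℂ K] {N : ℕ} {y : Fin (N + 1) → K}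

/-- semistability of the blocks: the subspaces with the matrices `c` have small `α`-degree, and if
the `α`-degree is extremal then the `β`-degree is large -/
def BlkSemiR (y : Fin (N + 1) → K) (α β : Place ℂ K → ℝ) {k : ℕ} {r : Fin k → ℕ}
    (U : Place ℂ K → (i : Fin k) → Matrix (Fin (r i)) (Fin (r i)) K)
    (nu : Place ℂ K → (i : Fin k) → Fin (r i) → ℝ) (dg dgb : Fin k → ℝ) : Prop :=
  ∀ (i : Fin k) (s : ℕ) (c : Matrix (Fin s) (Fin (r i)) K), 1 ≤ s → s < r i →
    LinearIndependent K (fun j => c j) → ∃ (e : Place ℂ K → ℝ) (d db : ℝ), HasDeg y α e d ∧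
      HasDeg y β e db ∧ r i * d ≤ s * dg i ∧ (r i * d = s * dg i → s * dgb i ≤ r i * db) ∧
      ∀ P, IsPrimeDivisor y P → ∃ I : Fin s → Fin (r i),
        ((c * (U P i)⁻¹).submatrix id I).det ≠ 0 ∧
        P.ord ((c * (U P i)⁻¹).submatrix id I).det + ∑ j, nu P i (I j) ≤ e P

/-- all subspaces of a semistable block -/
theorem blk_allR {α β : Place ℂ K → ℝ} (hα : MovableClass y α) (hβ : MovableClass y β) {k : ℕ}
    {r : Fin k → ℕ} (hr : ∀ i, 1 ≤ r i)
    {U : Place ℂ K → (i : Fin k) → Matrix (Fin (r i)) (Fin (r i)) K}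
    (hU : ∀ P, IsPrimeDivisor y P → ∀ i, (U P i).det = 1)
    {nu : Place ℂ K → (i : Fin k) → Fin (r i) → ℝ} {dg dgb : Fin k → ℝ}
    (hdg : ∀ i, HasDeg y α (fun P => ∑ l, nu P i l) (dg i))
    (hdgb : ∀ i, HasDeg y β (fun P => ∑ l, nu P i l) (dgb i))
    (hst : BlkSemiR y α β U nu dg dgb)
    (i : Fin k) {s : ℕ} {c : Matrix (Fin s) (Fin (r i)) K}
    (hc : LinearIndependent K fun j => c j) :
    ∃ (e : Place ℂ K → ℝ) (d db : ℝ), HasDeg y α e d ∧ HasDeg y β e db ∧
      r i * d ≤ s * dg i ∧ (r i * d = s * dg i → s * dgb i ≤ r i * db) ∧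
      ∀ P, IsPrimeDivisor y P → ∃ I : Fin s → Fin (r i),
        ((c * (U P i)⁻¹).submatrix id I).det ≠ 0 ∧
        P.ord ((c * (U P i)⁻¹).submatrix id I).det + ∑ j, nu P i (I j) ≤ e P := by
  classical
  have hsr : s ≤ r i := by
    have h1 := hc.fintype_card_le_finrank
    rw [Fintype.card_fin, Module.finrank_fin_fun] at h1
    exact h1
  rcases Nat.eq_zero_or_pos s with rfl | hs
  · refine ⟨fun _ => 0, 0, 0, hasDeg_zero α, hasDeg_zero β, by simp, fun _ => by simp,
      fun P hP => ⟨fun j => j.elim0, ?_, ?_⟩⟩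
    · rw [Matrix.det_isEmpty]
      exact one_ne_zero
    · rw [Matrix.det_isEmpty, P.ord_one]
      simp
  rcases eq_or_lt_of_le hsr with h | h
  · obtain ⟨ri, hri⟩ : ∃ ri, ri = r i := ⟨_, rfl⟩
    obtain ⟨c', hc'⟩ : ∃ c' : Matrix (Fin (r i)) (Fin (r i)) K,
        c' = c.submatrix (Fin.cast h.symm) id := ⟨_, rfl⟩
    have hc'0 : c'.det ≠ 0 := by
      intro h0
      obtain ⟨v, hv0, hv⟩ := Matrix.exists_vecMul_eq_zero_iff.2 h0
      apply hv0
      funext j
      have h1 := Fintype.linearIndependent_iff.1 hc (fun j => v (Fin.cast h j)) (by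
        funext l
        rw [Finset.sum_apply, Pi.zero_apply]
        simp only [Pi.smul_apply, smul_eq_mul]
        have h2 := congrFun hv l
        rw [Matrix.vecMul, dotProduct, Pi.zero_apply] at h2
        rw [← h2, ← Equiv.sum_comp (finCongr h)]
        refine Finset.sum_congr rfl fun j _ => ?_
        rw [hc']
        rfl) (Fin.cast h.symm j)
      exact h1
    refine ⟨fun P => (P.ord c'.det : ℝ) + ∑ l, nu P i l, 0 + dg i, 0 + dgb i,
      (hα.prin _ hc'0).add (hdg i), (hβ.prin _ hc'0).add (hdgb i), ?_, fun _ => ?_,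
      fun P hP => ⟨Fin.cast h, ?_⟩⟩
    · rw [h, zero_add]
    · rw [h, zero_add]
    · have h1 : ((c * (U P i)⁻¹).submatrix id (Fin.cast h)).det = c'.det := by
        have h2 : (c * (U P i)⁻¹).submatrix id (Fin.cast h) =
            (c' * (U P i)⁻¹).submatrix (finCongr h) (finCongr h) := by
          ext a b
          rw [Matrix.submatrix_apply, Matrix.submatrix_apply, Matrix.mul_apply, Matrix.mul_apply,
            hc']
          rfl
        rw [h2, Matrix.det_submatrix_equiv_self, Matrix.det_mul, Matrix.det_nonsing_inv, hU P hP i,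
          Ring.inverse_one, mul_one]
      rw [h1]
      refine ⟨hc'0, le_of_eq ?_⟩
      congr 1
      exact Equiv.sum_comp (finCongr h) (nu P i)
  · exact hst i s c hs h hc

/-- **The degree of a sum of subspaces of semistable blocks.** -/
theorem level_boundR {α β : Place ℂ K → ℝ} (hα : MovableClass y α) (hβ : MovableClass y β)
    {k : ℕ} {r : Fin k → ℕ} (hr : ∀ i, 1 ≤ r i)
    {U : Place ℂ K → (i : Fin k) → Matrix (Fin (r i)) (Fin (r i)) K}
    (hU : ∀ P, IsPrimeDivisor y P → ∀ i, (U P i).det = 1)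
    {nu : Place ℂ K → (i : Fin k) → Fin (r i) → ℝ} {dg dgb : Fin k → ℝ}
    (hdg : ∀ i, HasDeg y α (fun P => ∑ l, nu P i l) (dg i))
    (hdgb : ∀ i, HasDeg y β (fun P => ∑ l, nu P i l) (dgb i))
    (hst : BlkSemiR y α β U nu dg dgb)
    {F : Submodule K (((i : Fin k) × Fin (r i)) → K)}
    (hF : ∀ v ∈ F, ∀ i, inc K r i (prj K r i v) ∈ F) {s : ℕ}
    {b : Fin s → (((i : Fin k) × Fin (r i)) → K)} (hb : LinearIndependent K b)
    (hbF : Submodule.span K (Set.range b) = F) :
    ∃ (e : Place ℂ K → ℝ) (d db : ℝ), HasDeg y α e d ∧ HasDeg y β e db ∧ d ≤ 0 ∧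
      (d = 0 → 0 ≤ db) ∧
      ∀ P, IsPrimeDivisor y P → ∃ x : Fin s → ((i : Fin k) × Fin (r i)),
        (Matrix.of fun a a' => ∑ z, b a z *
          Matrix.blockDiagonal' (fun i => (U P i)⁻¹) z (x a')).det ≠ 0 ∧
        P.ord (Matrix.of fun a a' => ∑ z, b a z *
          Matrix.blockDiagonal' (fun i => (U P i)⁻¹) z (x a')).det + ∑ a, nrm nu P (x a) ≤ e P := by
  classical
  have hbase : ∀ i, ∃ (sd : ℕ) (c : Matrix (Fin sd) (Fin (r i)) K),
      (LinearIndependent K fun l => c l) ∧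
      Submodule.span K (Set.range fun l => c l) = F.map (prj K r i) := by
    intro i
    refine ⟨Module.finrank K (F.map (prj K r i)), Matrix.of fun l =>
      ((Module.finBasis K (F.map (prj K r i)) l : F.map (prj K r i)) : Fin (r i) → K), ?_, ?_⟩
    · exact (Module.finBasis K (F.map (prj K r i))).linearIndependent.map'
        (F.map (prj K r i)).subtype (Submodule.ker_subtype _)
    · have h1 := congrArg (Submodule.map (F.map (prj K r i)).subtype)
        (Module.finBasis K (F.map (prj K r i))).span_eq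
      rw [Submodule.map_span, Submodule.map_subtype_top, ← Set.range_comp] at h1
      exact h1
  choose sd c hc hcF using hbase
  obtain ⟨es, g, hg, hbg⟩ := split_basis hF hb hbF hc hcF
  choose e d db he heb hd hd0 hI using fun i => blk_allR hα hβ hr hU hdg hdgb hst i (hc i)
  have hrR : ∀ i, (0 : ℝ) < r i := fun i => by exact_mod_cast hr i
  have hterm : ∀ i, d i + (-sd i) * (((r i : ℝ)⁻¹) * dg i) ≤ 0 := by
    intro i
    have h1 : d i + (-sd i) * (((r i : ℝ)⁻¹) * dg i) = (r i * d i - sd i * dg i) / r i := by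
      have := (hrR i).ne'
      field_simp
      ring
    rw [h1]
    exact div_nonpos_of_nonpos_of_nonneg (by linarith [hd i]) (hrR i).le
  refine ⟨fun P => (P.ord g.det : ℝ) + ∑ i, (e i P + (-sd i) * (((r i : ℝ)⁻¹) * ∑ l, nu P i l)),
    0 + ∑ i, (d i + (-sd i) * (((r i : ℝ)⁻¹) * dg i)),
    0 + ∑ i, (db i + (-sd i) * (((r i : ℝ)⁻¹) * dgb i)),
    (hα.prin _ hg).add (hasDeg_sum' Finset.univ
      (e := fun i P => e i P + (-sd i) * (((r i : ℝ)⁻¹) * ∑ l, nu P i l))
      (s := fun i => d i + (-sd i) * (((r i : ℝ)⁻¹) * dg i)) fun i _ =>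
      (he i).add (((hdg i).smul _).smul _)),
    (hβ.prin _ hg).add (hasDeg_sum' Finset.univ
      (e := fun i P => e i P + (-sd i) * (((r i : ℝ)⁻¹) * ∑ l, nu P i l))
      (s := fun i => db i + (-sd i) * (((r i : ℝ)⁻¹) * dgb i)) fun i _ =>
      (heb i).add (((hdgb i).smul _).smul _)), ?_, fun h0 => ?_, fun P hP => ?_⟩
  · rw [zero_add]
    exact Finset.sum_nonpos fun i _ => hterm i
  · rw [zero_add] at h0 ⊢
    have h2 : ∀ i, r i * d i = sd i * dg i := by
      intro i
      have h1 := (Finset.sum_eq_zero_iff_of_nonpos fun i _ => hterm i).1 h0 i (Finset.mem_univ i)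
      have h3 : d i + (-sd i) * (((r i : ℝ)⁻¹) * dg i) = (r i * d i - sd i * dg i) / r i := by
        have := (hrR i).ne'
        field_simp
        ring
      rw [h3, div_eq_zero_iff] at h1
      rcases h1 with h1 | h1
      · linarith
      · exact absurd h1 (hrR i).ne'
    refine Finset.sum_nonneg fun i _ => ?_
    have h3 : db i + (-sd i) * (((r i : ℝ)⁻¹) * dgb i) = (r i * db i - sd i * dgb i) / r i := by
      have := (hrR i).ne'
      field_simp
      ring
    rw [h3]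
    exact div_nonneg (by linarith [hd0 i (h2 i)]) (hrR i).le
  · choose I hI1 hI2 using fun i => hI i P hP
    have hdet := bd_minor es hbg (fun i => (U P i)⁻¹) I
    refine ⟨fun a => ⟨(es a).1, I (es a).1 (es a).2⟩, ?_, ?_⟩
    · rw [hdet]
      exact mul_ne_zero hg (Finset.prod_ne_zero_iff.2 fun i _ => hI1 i)
    · rw [hdet, P.ord_mul hg (Finset.prod_ne_zero_iff.2 fun i _ => hI1 i)]
      have h1 : (P.ord (∏ i, ((c i * (U P i)⁻¹).submatrix id (I i)).det) : ℝ) =
          ∑ i, (P.ord ((c i * (U P i)⁻¹).submatrix id (I i)).det : ℝ) := by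
        have key : ∀ S : Finset (Fin k),
            P.ord (∏ i ∈ S, ((c i * (U P i)⁻¹).submatrix id (I i)).det) =
            ∑ i ∈ S, P.ord ((c i * (U P i)⁻¹).submatrix id (I i)).det := by
          intro S
          induction S using Finset.induction_on with
          | empty => simp [P.ord_one]
          | insert i S hi ih =>
            rw [Finset.prod_insert hi, Finset.sum_insert hi, P.ord_mul (hI1 i)
              (Finset.prod_ne_zero_iff.2 fun i _ => hI1 i), ih]
        rw [key]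
        push_cast
        rfl
      have h2 : ∑ a, nrm nu P ((fun a => ⟨(es a).1, I (es a).1 (es a).2⟩ :
          Fin s → ((i : Fin k) × Fin (r i))) a) =
          ∑ i, (∑ l, nu P i (I i l) + (-sd i) * (((r i : ℝ)⁻¹) * ∑ l, nu P i l)) := by
        have h3 := Equiv.sum_comp es
          (fun z : (i : Fin k) × Fin (sd i) => nrm nu P ⟨z.1, I z.1 z.2⟩)
        refine Eq.trans h3 ?_
        rw [Fintype.sum_sigma]
        refine Finset.sum_congr rfl fun i _ => ?_
        change ∑ x : Fin (sd i), (nu P i (I i x) - (∑ l, nu P i l) / r i) = _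
        rw [Finset.sum_sub_distrib, Finset.sum_const, Finset.card_univ, Fintype.card_fin,
          nsmul_eq_mul]
        ring
      rw [h2]
      push_cast
      rw [h1]
      have h3 : ∑ i, ((P.ord ((c i * (U P i)⁻¹).submatrix id (I i)).det : ℝ) +
          (∑ l, nu P i (I i l) + (-sd i) * (((r i : ℝ)⁻¹) * ∑ l, nu P i l))) ≤
          ∑ i, (e i P + (-sd i) * (((r i : ℝ)⁻¹) * ∑ l, nu P i l)) :=
        Finset.sum_le_sum fun i _ => by linarith [hI2 i]
      rw [Finset.sum_add_distrib] at h3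
      linarith


/-- **Forms on several semistable blocks.** -/
theorem block_thmR {α β : Place ℂ K → ℝ} (hα : MovableClass y α) (hβ : MovableClass y β)
    (hαβ : ∀ P, IsPrimeDivisor y P → α P = 0 → β P = 0) {k m : ℕ} {r : Fin k → ℕ}
    (hr : ∀ i, 1 ≤ r i) (hm : 1 ≤ m) {J : Fin m → Fin k}
    {T : MultilinearMap K (fun s : Fin m => (Fin (r (J s)) → K)) K} (hT : T ≠ 0)
    {U : Place ℂ K → (i : Fin k) → Matrix (Fin (r i)) (Fin (r i)) K}
    (hU : ∀ P, IsPrimeDivisor y P → ∀ i, (U P i).det = 1)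
    {nu : Place ℂ K → (i : Fin k) → Fin (r i) → ℝ} {ℓ : Place ℂ K → ℝ}
    (hTP : ∀ P, IsPrimeDivisor y P → ∀ I : (s : Fin m) → Fin (r (J s)),
      GeR P (∑ s, nu P (J s) (I s) - ℓ P) (T fun s => U P (J s) (I s)))
    {dg dgb : Fin k → ℝ} (hdg : ∀ i, HasDeg y α (fun P => ∑ l, nu P i l) (dg i))
    (hdgb : ∀ i, HasDeg y β (fun P => ∑ l, nu P i l) (dgb i)) {lam lamb : ℝ}
    (hℓ : HasDeg y α ℓ lam) (hℓb : HasDeg y β ℓ lamb) (hlam : lam ≤ ∑ s, dg (J s) / r (J s))
    (hst : BlkSemiR y α β U nu dg dgb) : lamb ≤ ∑ s, dgb (J s) / r (J s) := by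
  classical
  have hcK : CharZero K := charZero_of_injective_algebraMap (algebraMap ℂ K).injective
  obtain ⟨q, lamN, Nf, hq, hNf⟩ := exists_exps2 r
    (fun i => (Finset.univ.filter fun s => J s = i).card) hr
  obtain ⟨n, hn⟩ : ∃ n, n = Fintype.card ((i : Fin k) × Fin (r i)) := ⟨_, rfl⟩
  obtain ⟨ne⟩ : Nonempty (((i : Fin k) × Fin (r i)) ≃ Fin n) :=
    Fintype.card_eq.1 (by rw [Fintype.card_fin]; exact hn.symm)
  have hn1 : 1 ≤ n := by
    have h1 : Nonempty (Fin n) := ⟨ne ⟨J ⟨0, hm⟩, ⟨0, hr _⟩⟩⟩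
    exact Fin.pos_iff_nonempty.2 h1
  obtain ⟨M, hM⟩ : ∃ M, M = Fintype.card ((β : Fin q ⊕ ((i : Fin k) × Fin (Nf i))) ×
    Fin (degB m q r Nf β)) := ⟨_, rfl⟩
  obtain ⟨me⟩ : Nonempty (((β : Fin q ⊕ ((i : Fin k) × Fin (Nf i))) ×
      Fin (degB m q r Nf β)) ≃ Fin M) :=
    Fintype.card_eq.1 (by rw [Fintype.card_fin]; exact hM.symm)
  have hM1 : 1 ≤ M := by
    have h1 : Nonempty (Fin M) := ⟨me ⟨.inl ⟨0, hq⟩, ⟨0, hm⟩⟩⟩
    exact Fin.pos_iff_nonempty.2 h1
  obtain ⟨t, ht⟩ : ∃ t : MultilinearMap K (fun _ : Fin M => (((i : Fin k) × Fin (r i)) → K)) K,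
    t = (prodML (gB T q Nf)).domDomCongr me := ⟨_, rfl⟩
  have hta : ∀ x, t x = prodML (gB T q Nf) fun z => x (me z) := by
    intro x
    rw [ht]
    rfl
  have htz : ∀ x : ((β : Fin q ⊕ ((i : Fin k) × Fin (Nf i))) ×
      Fin (degB m q r Nf β)) → (((i : Fin k) × Fin (r i)) → K),
      prodML (gB T q Nf) x = t fun j => x (me.symm j) := by
    intro x
    rw [hta]
    congr 1
    funext z
    rw [me.symm_apply_apply]
  have ht0 : t ≠ 0 := by
    intro h0
    apply gB_ne hT q Nf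
    refine MultilinearMap.ext fun x => ?_
    rw [htz, h0]
    rfl
  obtain ⟨b0, -⟩ : ∃ b0 : Module.Basis (Fin n) K (((i : Fin k) × Fin (r i)) → K), True :=
    ⟨(Pi.basisFun K ((i : Fin k) × Fin (r i))).reindex ne, trivial⟩
  obtain ⟨b, γ, rho, N1, f, hγ, hγ0, hrho, hN1, hf, hvan, huniq, hloc⟩ :=
    flag_thm hn1 hM1 b0.linearIndependent b0.span_eq (fun _ : Unit => t) ⟨(), ht0⟩
  obtain ⟨F, hFa⟩ : ∃ F : ℚ → Submodule K (((i : Fin k) × Fin (r i)) → K),
    ∀ a, F a = Submodule.span K {v | ∃ j, γ j ≤ a ∧ v = b j} := ⟨_, fun _ => rfl⟩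
  -- the invariance of the flag
  have hscl : ∀ (a : ℚ) (z : Fin k → K), (∀ i, z i ≠ 0) →
      ∀ v ∈ F a, scl K r z v ∈ F a := by
    intro a z hz v hv
    rw [hFa] at hv ⊢
    have hinj : Function.Injective (scl K r z) := by
      rw [← LinearMap.ker_eq_bot, LinearMap.ker_eq_bot']
      intro v hv
      funext x
      have h1 := congrFun hv x
      rw [scl_apply] at h1
      exact (mul_eq_zero.1 h1).resolve_left (hz x.1)
    have h1 := huniq (fun j => scl K r z (b j))
      (b.linearIndependent.map' _ (LinearMap.ker_eq_bot.2 hinj)) (by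
        rcases hvan with h | h
        · exact Or.inl h
        · right
          intro i I hI
          obtain ⟨χ, hχ⟩ := gB_scl T q Nf z
          change t (fun s => scl K r z (b (I s))) = 0
          rw [hta, hχ fun z => b (I (me z)), ← hta fun s => b (I s), h i I hI, mul_zero]) a
    rw [← h1]
    induction hv using Submodule.span_induction with
    | mem x hx =>
      obtain ⟨j, hj, rfl⟩ := hx
      exact Submodule.subset_span ⟨j, hj, rfl⟩
    | zero =>
      rw [map_zero]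
      exact Submodule.zero_mem _
    | add x y _ _ hx hy =>
      rw [map_add]
      exact Submodule.add_mem _ hx hy
    | smul c x _ hx =>
      rw [map_smul]
      exact Submodule.smul_mem _ _ hx
  have hsplit : ∀ (a : ℚ), ∀ v ∈ F a, ∀ i, inc K r i (prj K r i v) ∈ F a :=
    fun a v hv i => split_of_scl (hscl a) hv i
  -- the levels
  obtain ⟨l, hl⟩ : ∃ l, n = l + 1 := ⟨n - 1, by omega⟩
  have hspan : ∀ (κ : ℕ) (h : κ + 1 < n), γ ⟨κ, by omega⟩ < γ ⟨κ + 1, h⟩ →
      Submodule.span K (Set.range fun i : Fin (κ + 1) => b (Fin.castLE h.le i)) =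
        F (γ ⟨κ, by omega⟩) := by
    intro κ h hlt
    rw [hFa]
    congr 1
    ext v
    constructor
    · rintro ⟨i, rfl⟩
      refine ⟨Fin.castLE h.le i, hγ ?_, rfl⟩
      rw [Fin.le_def]
      have := i.2
      simp only [Fin.val_castLE]
      omega
    · rintro ⟨j, hj, rfl⟩
      have hjk : (j : ℕ) < κ + 1 := by
        by_contra hcon
        push Not at hcon
        have h1 : γ ⟨κ + 1, h⟩ ≤ γ j := hγ (by rw [Fin.le_def]; exact hcon)
        exact absurd (hlt.trans_le h1) (not_lt.2 hj)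
      exact ⟨⟨j, hjk⟩, rfl⟩
  have hlev : ∀ κ : ℕ, ∃ (e : Place ℂ K → ℝ) (d db : ℝ), HasDeg y α e d ∧ HasDeg y β e db ∧
      d ≤ 0 ∧ ∀ (h : κ + 1 < n), γ ⟨κ, by omega⟩ < γ ⟨κ + 1, h⟩ →
      (d = 0 → 0 ≤ db) ∧
      ∀ P, IsPrimeDivisor y P → ∃ x : Fin (κ + 1) → ((i : Fin k) × Fin (r i)),
        (Matrix.of fun (a a' : Fin (κ + 1)) => ∑ z, b (Fin.castLE h.le a) z *
          Matrix.blockDiagonal' (fun i => (U P i)⁻¹) z (x a')).det ≠ 0 ∧
        P.ord (Matrix.of fun (a a' : Fin (κ + 1)) => ∑ z, b (Fin.castLE h.le a) z *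
          Matrix.blockDiagonal' (fun i => (U P i)⁻¹) z (x a')).det +
            ∑ a, nrm nu P (x a) ≤ e P := by
    intro κ
    by_cases h : ∃ h : κ + 1 < n, γ ⟨κ, by omega⟩ < γ ⟨κ + 1, h⟩
    · obtain ⟨h, hlt⟩ := h
      obtain ⟨e, d, db, h1, h1b, h2, h3, h4⟩ := level_boundR hα hβ hr hU hdg hdgb hst
        (F := F (γ ⟨κ, by omega⟩)) (hsplit _)
        (b := fun i : Fin (κ + 1) => b (Fin.castLE h.le i))
        (b.linearIndependent.comp _ (Fin.castLE_injective h.le)) (hspan κ h hlt)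
      exact ⟨e, d, db, h1, h1b, h2, fun _ _ => ⟨h3, h4⟩⟩
    · push Not at h
      exact ⟨fun _ => 0, 0, 0, hasDeg_zero α, hasDeg_zero β, le_rfl,
        fun h' hlt => absurd hlt (not_lt.2 (h h'))⟩
  choose ev d db hev hevβ hd0 hevb using hlev
  -- the matrix of the basis
  obtain ⟨B, hB⟩ : ∃ B : Matrix (Fin n) (Fin n) K, B = Matrix.of fun j j' => b j (ne.symm j') :=
    ⟨_, rfl⟩
  have hB0 : B.det ≠ 0 := by
    intro h0
    obtain ⟨v, hv0, hv⟩ := Matrix.exists_vecMul_eq_zero_iff.2 h0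
    apply hv0
    funext j
    refine Fintype.linearIndependent_iff.1 b.linearIndependent v ?_ j
    funext x
    have h1 := congrFun hv (ne x)
    rw [Matrix.vecMul, dotProduct, Pi.zero_apply] at h1
    rw [Finset.sum_apply, Pi.zero_apply, ← h1]
    refine Finset.sum_congr rfl fun j _ => ?_
    rw [Pi.smul_apply, smul_eq_mul, hB, Matrix.of_apply, ne.symm_apply_apply]
  -- the local estimate
  obtain ⟨g, hg⟩ : ∃ g : ℕ → ℝ, g = fun k => if h : k < n then (γ ⟨k, h⟩ : ℝ) else 0 :=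
    ⟨_, rfl⟩
  have hgi : ∀ i : Fin n, g i = γ i := by
    intro i
    rw [hg]
    exact dif_pos i.2
  have hmono : ∀ κ, κ < l → g κ ≤ g (κ + 1) := by
    intro κ hk
    have h1 := hgi ⟨κ, by omega⟩
    have h2 := hgi ⟨κ + 1, by omega⟩
    change g κ = _ at h1
    change g (κ + 1) = _ at h2
    rw [h1, h2]
    have h3 : γ ⟨κ, by omega⟩ ≤ γ ⟨κ + 1, by omega⟩ := hγ (by
      rw [Fin.le_def]
      exact Nat.le_succ κ)
    exact_mod_cast h3
  have hrho' : (0 : ℝ) < rho := by exact_mod_cast hrho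
  have hN1' : (0 : ℝ) < N1 := by exact_mod_cast hN1
  have hloc2 : ∀ P, IsPrimeDivisor y P → N1 * ((M / n : ℝ) * P.ord B.det -
      q * (ℓ P - ∑ s, (∑ l, nu P (J s) l) / r (J s)) +
      rho * (g l * P.ord B.det - ∑ κ ∈ Finset.range l, (g (κ + 1) - g κ) * ev κ P)) ≤
        P.ord f := by
    intro P hP
    have hinv : ∀ i, (U P i)⁻¹ * U P i = 1 := fun i =>
      Matrix.nonsing_inv_mul _ (by rw [hU P hP i]; exact isUnit_one)
    obtain ⟨E, hE⟩ : ∃ E : Fin n → (((i : Fin k) × Fin (r i)) → K),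
      E = fun j => Matrix.blockDiagonal' (U P) (ne.symm j) := ⟨_, rfl⟩
    obtain ⟨C, hC⟩ : ∃ C : Matrix (Fin n) (Fin n) K, C = Matrix.of fun j j' =>
      ∑ z, b j z * Matrix.blockDiagonal' (fun i => (U P i)⁻¹) z (ne.symm j') := ⟨_, rfl⟩
    have hCB : C = B * (Matrix.blockDiagonal' fun i => (U P i)⁻¹).submatrix ne.symm ne.symm := by
      ext j j'
      rw [hC, hB, Matrix.of_apply, Matrix.mul_apply, ← Equiv.sum_comp ne.symm]
      rfl
    have hCdet : C.det = B.det := by
      rw [hCB, Matrix.det_mul, Matrix.det_submatrix_equiv_self, det_bd, Finset.prod_eq_one,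
        mul_one]
      intro i _
      rw [Matrix.det_nonsing_inv, hU P hP i, Ring.inverse_one]
    have hbE : ∀ j, b j = ∑ j', C j j' • E j' := by
      intro j
      funext x
      rw [Finset.sum_apply]
      have h1 : ∀ j', (C j j' • E j') x = ∑ z, b j z *
          (Matrix.blockDiagonal' (fun i => (U P i)⁻¹) z (ne.symm j') *
            Matrix.blockDiagonal' (U P) (ne.symm j') x) := by
        intro j'
        rw [Pi.smul_apply, smul_eq_mul, hC, hE, Matrix.of_apply, Finset.sum_mul]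
        exact Finset.sum_congr rfl fun z _ => mul_assoc _ _ _
      rw [Finset.sum_congr rfl fun j' _ => h1 j', Finset.sum_comm]
      have h2 : ∀ z, ∑ j', b j z * (Matrix.blockDiagonal' (fun i => (U P i)⁻¹) z (ne.symm j') *
          Matrix.blockDiagonal' (U P) (ne.symm j') x) = b j z * (if z = x then 1 else 0) := by
        intro z
        rw [← Finset.mul_sum]
        congr 1
        rw [Equiv.sum_comp ne.symm fun w => Matrix.blockDiagonal' (fun i => (U P i)⁻¹) z w *
          Matrix.blockDiagonal' (U P) w x, ← Matrix.mul_apply, ← Matrix.blockDiagonal'_mul]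
        simp only [hinv]
        have h3 : (Matrix.blockDiagonal' fun i => (1 : Matrix (Fin (r i)) (Fin (r i)) K)) = 1 :=
          Matrix.blockDiagonal'_one
        rw [h3, Matrix.one_apply]
      rw [Finset.sum_congr rfl fun z _ => h2 z]
      simp
    obtain ⟨Uq, nk, h1, h2, h3, h4⟩ := qr P n (fun j => nrm nu P (ne.symm j)) C
      (by rw [hCdet]; exact hB0)
    have h5 := hloc P E C Uq (fun j => nrm nu P (ne.symm j)) nk
      (q * (ℓ P - ∑ s, (∑ l, nu P (J s) l) / r (J s))) hbE (fun _ I => by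
        have h6 := gB_local (P := P) hr (hU P hP) (hTP P hP) (q := q) (N := Nf)
          fun z => ne.symm (I (me z))
        have h7 : t (fun s => E (I s)) = prodML (gB T q Nf)
            fun z => Matrix.blockDiagonal' (U P) (ne.symm (I (me z))) := by
          rw [hta, hE]
        change GeR P _ (t fun s => E (I s))
        rw [h7]
        refine h6.mono (le_of_eq ?_)
        congr 1
        exact (Equiv.sum_comp me fun s => nrm nu P (ne.symm (I s))).symm) h1 h2 h3
    have hnuz : ∑ j, nrm nu P (ne.symm j) = 0 := by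
      rw [Equiv.sum_comp ne.symm, Fintype.sum_sigma]
      refine Finset.sum_eq_zero fun i _ => ?_
      change ∑ l : Fin (r i), (nu P i l - (∑ l, nu P i l) / r i) = 0
      rw [Finset.sum_sub_distrib, Finset.sum_const, Finset.card_univ, Fintype.card_fin,
        nsmul_eq_mul]
      have : (r i : ℝ) ≠ 0 := by
        have h6 := hr i
        have h7 : r i ≠ 0 := by omega
        exact_mod_cast h7
      field_simp
      ring
    rw [hnuz, add_zero, hCdet] at h4
    rw [h4] at h5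
    refine le_trans ?_ h5
    refine mul_le_mul_of_nonneg_left ?_ hN1'.le
    have h6 : ∑ j, (γ j : ℝ) * nk j = g l * P.ord B.det -
        ∑ κ ∈ Finset.range l, (g (κ + 1) - g κ) *
          ∑ j ∈ Finset.range (κ + 1), (if h : j < n then nk ⟨j, h⟩ else 0) := by
      obtain ⟨X, hX⟩ : ∃ X : ℕ → ℝ, X = fun j => if h : j < n then nk ⟨j, h⟩ else 0 := ⟨_, rfl⟩
      have hXi : ∀ i : Fin n, X i = nk i := by
        intro i
        rw [hX]
        exact dif_pos i.2
      have h7 := abel_nat g X l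
      rw [← hl, Finset.sum_range, Finset.sum_range (fun k => X k)] at h7
      rw [Finset.sum_congr rfl fun (i : Fin n) _ => by rw [hgi i, hXi i],
        Finset.sum_congr rfl fun (i : Fin n) _ => hXi i, h4] at h7
      rw [h7, hX]
    rw [h6]
    have h7 : ∑ κ ∈ Finset.range l, (g (κ + 1) - g κ) *
          ∑ j ∈ Finset.range (κ + 1), (if h : j < n then nk ⟨j, h⟩ else 0) ≤
        ∑ κ ∈ Finset.range l, (g (κ + 1) - g κ) * ev κ P := by
      refine Finset.sum_le_sum fun κ hk => ?_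
      have hk' := Finset.mem_range.1 hk
      have hκn : κ + 1 < n := by omega
      rcases eq_or_lt_of_le (hmono κ hk') with h8 | h8
      · rw [h8, sub_self, zero_mul, zero_mul]
      · refine mul_le_mul_of_nonneg_left ?_ (sub_nonneg.2 h8.le)
        have h9 : γ ⟨κ, by omega⟩ < γ ⟨κ + 1, hκn⟩ := by
          have h10 := hgi ⟨κ, by omega⟩
          have h11 := hgi ⟨κ + 1, hκn⟩
          change g κ = _ at h10
          change g (κ + 1) = _ at h11
          rw [h10, h11] at h8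
          exact_mod_cast h8
        obtain ⟨x, h12, h13⟩ := (hevb κ hκn h9).2 P hP
        have h14 : (Matrix.of fun (a a' : Fin (κ + 1)) => ∑ z, b (Fin.castLE hκn.le a) z *
            Matrix.blockDiagonal' (fun i => (U P i)⁻¹) z (x a')) =
            C.submatrix (Fin.castLE hκn.le) (fun a => ne (x a)) := by
          ext a a'
          rw [Matrix.of_apply, Matrix.submatrix_apply, hC, Matrix.of_apply, ne.symm_apply_apply]
        rw [h14] at h12 h13
        refine le_trans (le_trans (le_of_eq ?_) (qr_minor h1 h2 h3 hκn.le h12)) (le_trans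
          (le_of_eq ?_) h13)
        · rw [Finset.sum_range]
          refine Finset.sum_congr rfl fun j _ => ?_
          rw [dif_pos (lt_trans j.2 hκn)]
          rfl
        · simp only [ne.symm_apply_apply]
    have h8 := mul_le_mul_of_nonneg_left h7 hrho'.le
    linarith
  -- the degree of the local estimate
  obtain ⟨sd, hsd⟩ : ∃ sd : ℝ, sd = ∑ κ ∈ Finset.range l, (g (κ + 1) - g κ) * d κ := ⟨_, rfl⟩
  have hsd0 : ∀ κ ∈ Finset.range l, (g (κ + 1) - g κ) * d κ ≤ 0 := fun κ hκ =>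
    mul_nonpos_of_nonneg_of_nonpos (sub_nonneg.2 (hmono κ (Finset.mem_range.1 hκ))) (hd0 κ)
  have hdegL : HasDeg y α (fun P => ℓ P + (-1) * ∑ s, (((r (J s) : ℝ)⁻¹) * ∑ l, nu P (J s) l))
      (lam + (-1) * ∑ s, (((r (J s) : ℝ)⁻¹) * dg (J s))) :=
    hℓ.add ((hasDeg_sum' Finset.univ (e := fun s P => ((r (J s) : ℝ)⁻¹) * ∑ l, nu P (J s) l)
      (s := fun s => ((r (J s) : ℝ)⁻¹) * dg (J s)) fun s _ => (hdg (J s)).smul _).smul _)
  have hdegLb : HasDeg y β (fun P => ℓ P + (-1) * ∑ s, (((r (J s) : ℝ)⁻¹) * ∑ l, nu P (J s) l))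
      (lamb + (-1) * ∑ s, (((r (J s) : ℝ)⁻¹) * dgb (J s))) :=
    hℓb.add ((hasDeg_sum' Finset.univ (e := fun s P => ((r (J s) : ℝ)⁻¹) * ∑ l, nu P (J s) l)
      (s := fun s => ((r (J s) : ℝ)⁻¹) * dgb (J s)) fun s _ => (hdgb (J s)).smul _).smul _)
  have hpos : ∀ P, IsPrimeDivisor y P → 0 ≤ (P.ord f : ℝ) + (-N1) * ((M / n + rho * g l : ℝ) *
      P.ord B.det + ((-q) * (ℓ P + (-1) * ∑ s, (((r (J s) : ℝ)⁻¹) * ∑ l, nu P (J s) l)) +
      (-rho) * ∑ κ ∈ Finset.range l, (g (κ + 1) - g κ) * ev κ P)) := by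
    intro P hP
    have h3 := hloc2 P hP
    have h4 : ∑ s, (((r (J s) : ℝ)⁻¹) * ∑ l, nu P (J s) l) =
        ∑ s, (∑ l, nu P (J s) l) / r (J s) :=
      Finset.sum_congr rfl fun s _ => by rw [div_eq_inv_mul]
    rw [h4]
    linarith
  have h1 : HasDeg y α (fun P => (P.ord f : ℝ) + (-N1) * ((M / n + rho * g l : ℝ) * P.ord B.det +
      ((-q) * (ℓ P + (-1) * ∑ s, (((r (J s) : ℝ)⁻¹) * ∑ l, nu P (J s) l)) +
      (-rho) * ∑ κ ∈ Finset.range l, (g (κ + 1) - g κ) * ev κ P)))
      (0 + (-N1) * ((M / n + rho * g l : ℝ) * 0 +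
      ((-q) * (lam + (-1) * ∑ s, (((r (J s) : ℝ)⁻¹) * dg (J s))) +
      (-rho) * ∑ κ ∈ Finset.range l, (g (κ + 1) - g κ) * d κ))) :=
    (hα.prin f hf).add ((((hα.prin _ hB0).smul _).add ((hdegL.smul _).add
      ((hasDeg_sum' (Finset.range l) (e := fun κ P => (g (κ + 1) - g κ) * ev κ P)
      (s := fun κ => (g (κ + 1) - g κ) * d κ) fun κ _ => (hev κ).smul _).smul _))).smul _)
  have h1b : HasDeg y β (fun P => (P.ord f : ℝ) + (-N1) * ((M / n + rho * g l : ℝ) *
      P.ord B.det + ((-q) * (ℓ P + (-1) * ∑ s, (((r (J s) : ℝ)⁻¹) * ∑ l, nu P (J s) l)) +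
      (-rho) * ∑ κ ∈ Finset.range l, (g (κ + 1) - g κ) * ev κ P)))
      (0 + (-N1) * ((M / n + rho * g l : ℝ) * 0 +
      ((-q) * (lamb + (-1) * ∑ s, (((r (J s) : ℝ)⁻¹) * dgb (J s))) +
      (-rho) * ∑ κ ∈ Finset.range l, (g (κ + 1) - g κ) * db κ))) :=
    (hβ.prin f hf).add ((((hβ.prin _ hB0).smul _).add ((hdegLb.smul _).add
      ((hasDeg_sum' (Finset.range l) (e := fun κ P => (g (κ + 1) - g κ) * ev κ P)
      (s := fun κ => (g (κ + 1) - g κ) * db κ) fun κ _ => (hevβ κ).smul _).smul _))).smul _)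
  have hs4 : ∑ s, (((r (J s) : ℝ)⁻¹) * dg (J s)) = ∑ s, dg (J s) / r (J s) :=
    Finset.sum_congr rfl fun s _ => by rw [div_eq_inv_mul]
  have hs4b : ∑ s, (((r (J s) : ℝ)⁻¹) * dgb (J s)) = ∑ s, dgb (J s) / r (J s) :=
    Finset.sum_congr rfl fun s _ => by rw [div_eq_inv_mul]
  rw [hs4, ← hsd] at h1
  rw [hs4b] at h1b
  have hq7 : (0 : ℝ) < q := by exact_mod_cast hq
  have h2 := h1.nonneg hα.nonneg hpos
  have h5 : 0 ≤ N1 * (q * (lam - ∑ s, dg (J s) / r (J s)) + rho * sd) := by linarith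
  have h6 : 0 ≤ q * (lam - ∑ s, dg (J s) / r (J s)) + rho * sd :=
    (mul_nonneg_iff_of_pos_left hN1').1 h5
  have h8 : q * (lam - ∑ s, dg (J s) / r (J s)) ≤ 0 :=
    mul_nonpos_of_nonneg_of_nonpos hq7.le (by linarith)
  have hsd2 : sd ≤ 0 := by rw [hsd]; exact Finset.sum_nonpos hsd0
  have h9 : rho * sd ≤ 0 := mul_nonpos_of_nonneg_of_nonpos hrho'.le hsd2
  have hsd1 : sd = 0 := by
    have h10 : rho * sd = 0 := by linarith
    exact (mul_eq_zero.1 h10).resolve_left hrho'.ne'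
  have h11 : q * (lam - ∑ s, dg (J s) / r (J s)) = 0 := by
    rw [hsd1] at h6
    linarith
  have h12 : (0 : ℝ) + (-N1) * ((M / n + rho * g l : ℝ) * 0 +
      ((-q) * (lam + (-1) * ∑ s, dg (J s) / r (J s)) + (-rho) * sd)) = 0 := by
    rw [hsd1]
    linear_combination (N1 : ℝ) * h11
  rw [h12] at h1
  have h13 := eff_zero hα.nonneg hαβ hpos h1 h1b
  have hdz : ∀ κ (h : κ + 1 < n), γ ⟨κ, by omega⟩ < γ ⟨κ + 1, h⟩ → d κ = 0 := by
    intro κ h hlt
    rw [hsd] at hsd1
    have h1 := (Finset.sum_eq_zero_iff_of_nonpos hsd0).1 hsd1 κ (Finset.mem_range.2 (by omega))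
    have h2 : g (κ + 1) - g κ ≠ 0 := by
      have h10 := hgi ⟨κ, by omega⟩
      have h11 := hgi ⟨κ + 1, h⟩
      change g κ = _ at h10
      change g (κ + 1) = _ at h11
      rw [h10, h11, sub_ne_zero]
      intro h12
      have h13 : γ ⟨κ + 1, h⟩ = γ ⟨κ, by omega⟩ := by exact_mod_cast h12
      exact absurd hlt (by rw [h13]; exact lt_irrefl _)
    exact (mul_eq_zero.1 h1).resolve_left h2
  have h14 : 0 ≤ ∑ κ ∈ Finset.range l, (g (κ + 1) - g κ) * db κ := by
    refine Finset.sum_nonneg fun κ hκ => ?_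
    have hk' := Finset.mem_range.1 hκ
    have hκn : κ + 1 < n := by omega
    rcases eq_or_lt_of_le (hmono κ hk') with h8 | h8
    · rw [h8, sub_self, zero_mul]
    · have h9 : γ ⟨κ, by omega⟩ < γ ⟨κ + 1, hκn⟩ := by
        have h10 := hgi ⟨κ, by omega⟩
        have h11 := hgi ⟨κ + 1, hκn⟩
        change g κ = _ at h10
        change g (κ + 1) = _ at h11
        rw [h10, h11] at h8
        exact_mod_cast h8
      exact mul_nonneg (sub_nonneg.2 h8.le) ((hevb κ hκn h9).1 (hdz κ hκn h9))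
  have h15 : N1 * (q * (lamb - ∑ s, dgb (J s) / r (J s)) +
      rho * ∑ κ ∈ Finset.range l, (g (κ + 1) - g κ) * db κ) = 0 := by linarith
  have h16 := (mul_eq_zero.1 h15).resolve_left hN1'.ne'
  have h17 := mul_nonneg hrho'.le h14
  by_contra hcon
  push Not at hcon
  have h18 := mul_pos hq7 (sub_pos.2 hcon)
  linarith

end

end Pool.Agent.H897
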