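import Pool.Agent.H897.XD

/-!
Forms on distributions with filtrations of small slopes vanish: two degrees.
-/

set_option autoImplicit false
set_option linter.overlappingInstances false
set_option linter.unusedSectionVars false

open MvPolynomial FF Pool.Agent.W602.GT Pool.Agent.Y172 Pool.Agent.NH31 Pool.Agent.W603.LV
open Pool.Agent.N133.TB Pool.Agent.Y174 Pool.Agent.TH466.QG Pool.Agent.W619.PQ
open Pool.Agent.N133.OB Pool.Agent.Y191

namespace Pool.Agent.H897

section

variable {K : Type} [Field K] [Algebra ℂ K] {N n : ℕ} {y : Fin (N + 1) → K}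

/-- a filtration of `A` with semistable steps of slopes at most `c` -/
def FiltLeR (y : Fin (N + 1) → K) (n : ℕ) (Δ : Place ℂ K → ℚ) (α : Place ℂ K → ℝ)
    (bf : Submodule K (Derivation ℂ K K) → ℝ) (A : Submodule K (Derivation ℂ K K)) (c : ℝ) :
    Prop :=
  ∃ (l : ℕ) (H : ℕ → Submodule K (Derivation ℂ K K)), H 0 = ⊥ ∧ H l = A ∧
    (∀ i, i ≤ l → SubDeg y n Δ α (H i) 0) ∧ (∀ i, i < l → H i < H (i + 1)) ∧
    (∀ i, i < l → ∀ G, SubDeg y n Δ α G 0 → H i < G → G ≤ H (i + 1) →
      rslp bf (H i) (H (i + 1)) ≤ rslp bf (H i) G) ∧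
    ∀ i, i < l → rslp bf (H i) (H (i + 1)) ≤ c

/-- **Forms on distributions with filtrations of small slopes.** -/
theorem multi_vanishR (hy : NormalModel y) (hn : Algebra.trdeg ℂ K = n)
    {Δ : Place ℂ K → ℚ} (hΔ : Boundary y Δ) {α : Place ℂ K → ℝ} (hα : MovableClass y α)
    (hneg : ∀ (F : Submodule K (Derivation ℂ K K)) (d : ℝ), SubDeg y n Δ α F d → d ≤ 0)
    {β : Place ℂ K → ℝ} (hβ : MovableClass y β)
    (hαβ : ∀ P, IsPrimeDivisor y P → α P = 0 → β P = 0)
    {M : Place ℂ K → ℚ} {mu : ℝ} (hM : HasDeg y α (fun P => M P) 0)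
    (hMb : HasDeg y β (fun P => M P) mu)
    {bf : Submodule K (Derivation ℂ K K) → ℝ} (hbf : ∀ F, SubDeg y n Δ β F (bf F))
    {m : ℕ} (hm : 1 ≤ m) {A : Fin m → Submodule K (Derivation ℂ K K)} {c : Fin m → ℝ}
    (hA : ∀ s, FiltLeR y n Δ α bf (A s) (c s))
    {T : MultilinearMap K (fun s : Fin m => A s) K} (ha : ∑ s, c s < mu)
    (hTO : ∀ P, IsPrimeDivisor y P → MixedTensorAt n (Δ P) (M P) P T) : T = 0 := by
  classical
  by_contra hT
  choose l H hH0 hHl hZ hlt hst hsl using hA
  have hmono : ∀ s i j, i ≤ j → j ≤ l s → H s i ≤ H s j := by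
    intro s i j hij
    induction j, hij using Nat.le_induction with
    | base => intro _; exact le_rfl
    | succ j hj ih => intro h; exact (ih (by omega)).trans (hlt s j (by omega)).le
  obtain ⟨NZ, hNZ⟩ : ∃ NZ : (Fin m → ℕ) → Prop, NZ = fun j => (∀ s, j s < l s) ∧
    ∃ D : (s : Fin m) → A s, (∀ s, (D s : Derivation ℂ K K) ∈ H s (j s + 1)) ∧ T D ≠ 0 := ⟨_, rfl⟩
  have hl1 : ∀ s, 1 ≤ l s := by
    intro s
    by_contra h
    have h0 : l s = 0 := by omega
    apply hT
    refine MultilinearMap.ext fun D => ?_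
    refine T.map_coord_zero s ?_
    apply Subtype.ext
    have h1 := (D s).2
    have h2 : A s = ⊥ := by rw [← hHl s, h0, hH0]
    have h3 : (D s : Derivation ℂ K K) ∈ (⊥ : Submodule K (Derivation ℂ K K)) := by
      rw [← h2]
      exact h1
    exact (Submodule.mem_bot K).1 h3
  have hex : ∃ N0 : ℕ, ∃ j, NZ j ∧ ∑ s, j s = N0 := by
    obtain ⟨D, hD⟩ : ∃ D, T D ≠ 0 := by
      by_contra hcon
      push Not at hcon
      exact hT (MultilinearMap.ext hcon)
    refine ⟨_, fun s => l s - 1, ?_, rfl⟩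
    rw [hNZ]
    refine ⟨fun s => by have := hl1 s; simp only; omega, D, fun s => ?_, hD⟩
    have h1 : l s - 1 + 1 = l s := by have := hl1 s; omega
    rw [h1, hHl s]
    exact (D s).2
  obtain ⟨j, hj, hjs⟩ := Nat.find_spec hex
  have hj' := hj
  rw [hNZ] at hj'
  obtain ⟨hjl, D0, hD0, hTD0⟩ := hj'
  have hle : ∀ s, H s (j s + 1) ≤ A s := fun s => by
    conv_rhs => rw [← hHl s]
    exact hmono s _ _ (by have := hjl s; omega) le_rfl
  obtain ⟨T', hT'⟩ : ∃ T' : MultilinearMap K (fun s : Fin m => H s (j s + 1)) K,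
    T' = T.compLinearMap fun s => Submodule.inclusion (hle s) := ⟨_, rfl⟩
  have hT'0 : T' ≠ 0 := by
    intro h
    apply hTD0
    have h1 := congrArg (fun t : MultilinearMap K (fun s : Fin m => H s (j s + 1)) K =>
      t fun s => ⟨(D0 s : Derivation ℂ K K), hD0 s⟩) h
    rw [hT'] at h1
    exact h1
  have hT'W : ∀ D : (s : Fin m) → H s (j s + 1), (∃ s, (D s : Derivation ℂ K K) ∈ H s (j s)) →
      T' D = 0 := by
    rintro D ⟨s, hs⟩
    by_contra hne
    rcases Nat.eq_zero_or_pos (j s) with h0 | h0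
    · apply hne
      refine T'.map_coord_zero s ?_
      apply Subtype.ext
      have h1 : H s (j s) = ⊥ := by
        have h2 : H s (j s) = H s 0 := congrArg (H s) h0
        rw [h2, hH0]
      have h3 : (D s : Derivation ℂ K K) ∈ (⊥ : Submodule K (Derivation ℂ K K)) := h1 ▸ hs
      exact (Submodule.mem_bot K).1 h3
    · have h1 : NZ (Function.update j s (j s - 1)) := by
        rw [hNZ]
        refine ⟨fun s' => ?_, fun s' => Submodule.inclusion (hle s') (D s'), fun s' => ?_, ?_⟩
        · by_cases h : s' = s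
          · subst h
            rw [Function.update_self]
            have := hjl s'
            omega
          · rw [Function.update_of_ne h]
            exact hjl s'
        · by_cases h : s' = s
          · subst h
            rw [Function.update_self]
            have h2 : j s' - 1 + 1 = j s' := by omega
            rw [h2]
            exact hs
          · rw [Function.update_of_ne h]
            exact (D s').2
        · rw [hT'] at hne
          exact hne
      have h2 : ∑ s', Function.update j s (j s - 1) s' < ∑ s', j s' := by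
        refine Finset.sum_lt_sum (fun s' _ => ?_) ⟨s, Finset.mem_univ _, ?_⟩
        · by_cases h : s' = s
          · subst h
            rw [Function.update_self]
            omega
          · rw [Function.update_of_ne h]
        · rw [Function.update_self]
          omega
      rw [hjs] at h2
      exact Nat.find_min hex h2 ⟨_, h1, rfl⟩
  have h1 := mixed_semiR hy hn hΔ hα hneg hβ hαβ hM hMb hbf (k := m) (m := m)
    (W := fun s => H s (j s)) (V := fun s => H s (j s + 1)) (fun s => hlt s _ (hjl s))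
    (fun s => hZ s _ (hjl s).le) (fun s => hZ s _ (hjl s))
    (fun s G h1 h2 h3 => hst s _ (hjl s) G h1 h2 h3.le) hm (J := fun s => s) (T := T') hT'0 hT'W
    (fun P hP D e he => by
      have h1 := hTO P hP (fun s => Submodule.inclusion (hle s) (D s)) e he
      rw [hT']
      exact h1)
  have h2 : ∑ s, rslp bf (H s (j s)) (H s (j s + 1)) ≤ ∑ s, c s :=
    Finset.sum_le_sum fun s _ => hsl s _ (hjl s)
  linarith

/-- the filtration of a distribution all of whose quotients are negative -/
theorem filt_ofR (hy : NormalModel y) (hn : Algebra.trdeg ℂ K = n)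
    {Δ : Place ℂ K → ℚ} {α : Place ℂ K → ℝ} {bf : Submodule K (Derivation ℂ K K) → ℝ}
    (hZ0 : SubDeg y n Δ α (⊥ : Submodule K (Derivation ℂ K K)) 0)
    (hf : {x | ∃ G, SubDeg y n Δ α G 0 ∧ bf G = x}.Finite)
    {A : Submodule K (Derivation ℂ K K)} (hA : SubDeg y n Δ α A 0) :
    ((∀ G, SubDeg y n Δ α G 0 → bf A ≤ bf G) → FiltLeR y n Δ α bf A 0) ∧
    ((∀ G, SubDeg y n Δ α G 0 → G < A → bf A < bf G) → ∃ c < 0, FiltLeR y n Δ α bf A c) := by
  classical
  obtain ⟨hfin, -⟩ := fin_der hy hn
  obtain ⟨l, H, h0, hl, hZ, hlt, hst, hsl⟩ := rhn_exists (Z := fun F => SubDeg y n Δ α F 0) hZ0 hf hA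
  rcases Nat.eq_zero_or_pos l with h | h
  · subst h
    have h1 : ∀ c : ℝ, FiltLeR y n Δ α bf A c := fun c =>
      ⟨0, H, h0, hl, hZ, fun i hi => absurd hi (Nat.not_lt_zero _),
        fun i hi => absurd hi (Nat.not_lt_zero _), fun i hi => absurd hi (Nat.not_lt_zero _)⟩
    exact ⟨fun _ => h1 0, fun _ => ⟨-1, by norm_num, h1 _⟩⟩
  · obtain ⟨c, rfl⟩ : ∃ c, l = c + 1 := ⟨l - 1, by omega⟩
    have h1 := rhn_slope (b := bf) hsl rfl
    have h2 : H c < A := by
      rw [← hl]
      exact hlt c (Nat.lt_succ_self c)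
    have h3 := rrk_pos h2
    refine ⟨fun hA' => ⟨c + 1, H, h0, hl, hZ, hlt, hst, fun i hi => (h1 i hi).trans ?_⟩,
      fun hA' => ⟨rslp bf (H c) (H (c + 1)), ?_, c + 1, H, h0, hl, hZ, hlt, hst, h1⟩⟩
    · rw [hl]
      unfold rslp
      exact div_nonpos_of_nonpos_of_nonneg (by
        have := hA' (H c) (hZ c (Nat.le_succ c))
        linarith) h3.le
    · rw [hl]
      unfold rslp
      exact div_neg_of_neg_of_pos (by
        have := hA' (H c) (hZ c (Nat.le_succ c)) h2
        linarith) h3

end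

end Pool.Agent.H897
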