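import Pool.Agent.H897.XE
import Pool.Agent.H897.WJ

/-!
The canonical isotropic foliation: varieties of any Picard number.
-/

set_option autoImplicit false
set_option linter.overlappingInstances false
set_option linter.unusedSectionVars false

open MvPolynomial FF Pool.Agent.W602.GT Pool.Agent.Y172 Pool.Agent.NH31 Pool.Agent.W603.LV
open Pool.Agent.N133.TB Pool.Agent.Y174 Pool.Agent.TH466.QG Pool.Agent.W619.PQ
open Pool.Agent.N133.OB Pool.Agent.Y191

namespace Pool.Agent.H897

section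

variable {K : Type} [Field K] [Algebra ℂ K] {N n : ℕ} {y : Fin (N + 1) → K}

/-- the bracket of vector fields of two orthogonal distributions with negative slopes -/
theorem lie_vanish (hy : NormalModel y) (hn : Algebra.trdeg ℂ K = n)
    {α : Place ℂ K → ℝ} (hα : MovableClass y α)
    (hneg : ∀ (F : Submodule K (Derivation ℂ K K)) (d : ℝ),
      SubDeg y n (fun _ => 0) α F d → d ≤ 0)
    {β : Place ℂ K → ℝ} (hβ : MovableClass y β)
    (hαβ : ∀ P, IsPrimeDivisor y P → α P = 0 → β P = 0)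
    {bf : Submodule K (Derivation ℂ K K) → ℝ} (hbf : ∀ F, SubDeg y n (fun _ => 0) β F (bf F))
    {σ : LinearMap.BilinForm K (Derivation ℂ K K)}
    (hσ : ∀ P, IsPrimeDivisor y P → FormAt n 0 P σ)
    {A A' : Submodule K (Derivation ℂ K K)} (hA : ∀ D ∈ A, ∀ D' ∈ A', σ D D' = 0)
    {c1 c2 : ℝ} (h1 : FiltLeR y n (fun _ => 0) α bf A c1)
    (h2 : FiltLeR y n (fun _ => 0) α bf A' c2) (h3 : c1 + c1 + c2 < 0) :
    ∀ D ∈ A, ∀ D' ∈ A, ∀ D'' ∈ A', σ ⁅D, D'⁆ D'' = 0 := by
  intro D hD D' hD' D'' hD''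
  have h4 := multi_vanishR hy hn boundary_zero hα hneg hβ hαβ (M := fun _ => 0) (mu := 0)
    ((hasDeg_zero α).congr fun P _ => by simp) ((hasDeg_zero β).congr fun P _ => by simp) hbf
    (m := 3) (by norm_num)
    (A := ![A, A, A']) (c := ![c1, c1, c2]) (fun s => by
      fin_cases s
      · exact h1
      · exact h1
      · exact h2) (T := lieForm σ A A' hA) (by
      rw [Fin.sum_univ_three]
      exact h3) fun P hP => lie_ord hy hn hP (hσ P hP) hA
  have h5 := congrArg (fun t : MultilinearMap K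
    (fun s : Fin 3 => (![A, A, A'] s : Submodule K (Derivation ℂ K K))) K =>
      t (Fin.cons ⟨D, hD⟩ (Fin.cons ⟨D', hD'⟩ (Fin.cons ⟨D'', hD''⟩ finZeroElim)))) h4
  exact h5

/-- **The canonical isotropic foliation.** -/
theorem isotropic_foliationR (hy : NormalModel y) (hn : Algebra.trdeg ℂ K = n) (hn1 : 1 ≤ n)
    {α β : Place ℂ K → ℝ} (hα : MovableClass y α) (hc : LogDegree y n (fun _ => 0) α 0)
    (hss : SemistableTangent y n (fun _ => 0) α 0) (hβ : MovableClass y β)
    (hαβ : ∀ P, IsPrimeDivisor y P → α P = 0 → β P = 0)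
    {σ : LinearMap.BilinForm K (Derivation ℂ K K)}
    (halt : ∀ D, σ D D = 0) (hnd : ∀ D, (∀ D', σ D D' = 0) → D = 0)
    (hσ : ∀ P, IsPrimeDivisor y P → FormAt n 0 P σ) :
    ∃ (F : Submodule K (Derivation ℂ K K)) (b : ℝ),
      SubDeg y n (fun _ => 0) α F 0 ∧ SubDeg y n (fun _ => 0) β F b ∧ b ≤ 0 ∧
      (b = 0 → F = ⊥) ∧ F ≤ σ.orthogonal F ∧
      SubDeg y n (fun _ => 0) α (σ.orthogonal F) 0 ∧
      SubDeg y n (fun _ => 0) β (σ.orthogonal F) b ∧
      (∀ (G : Submodule K (Derivation ℂ K K)) (d : ℝ), SubDeg y n (fun _ => 0) α G 0 →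
        SubDeg y n (fun _ => 0) β G d → b ≤ d ∧ (d = b → F ≤ G ∧ G ≤ σ.orthogonal F)) ∧
      (∀ D ∈ F, ∀ D' ∈ F, ⁅D, D'⁆ ∈ F) ∧
      (∀ D ∈ σ.orthogonal F, ∀ D' ∈ σ.orthogonal F, ⁅D, D'⁆ ∈ σ.orthogonal F) ∧
      ∀ (m : ℕ) (M : Place ℂ K → ℚ) (μ : ℝ)
        (T : MultilinearMap K (fun _ : Fin m => Derivation ℂ K K) K), 1 ≤ m →
        HasDeg y α (fun P => M P) 0 → HasDeg y β (fun P => M P) μ →
        (∀ P, IsPrimeDivisor y P → TensorAt n 0 (M P) P T) →
        (0 < μ → ∀ D : Fin m → Derivation ℂ K K, (∀ s, D s ∈ σ.orthogonal F) → T D = 0) ∧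
        (0 ≤ μ → ∀ D : Fin m → Derivation ℂ K K, (∀ s, D s ∈ σ.orthogonal F) →
          (∃ s, D s ∈ F) → T D = 0) ∧
        (T ≠ 0 → ∃ (G : Submodule K (Derivation ℂ K K)) (d : ℝ), G ≠ ⊥ ∧
          SubDeg y n (fun _ => 0) α G 0 ∧ SubDeg y n (fun _ => 0) β G d ∧
          m * d ≤ -(μ * Module.finrank K G)) ∧
        (T ≠ 0 → 0 < μ → F ≠ ⊥ ∧ m * b ≤ -μ) := by
  classical
  have hΔ : Boundary y (fun _ => 0) := boundary_zero
  obtain ⟨hfin, hrk⟩ := fin_der hy hn
  obtain ⟨hanti, hpp, hpr, hpa⟩ := perp_perp hy hn halt hnd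
  obtain ⟨bf, hbf, hmod, hf, hb0⟩ := deg_lattice hy hn hn1 hΔ hα hc hss hβ hαβ
  obtain ⟨F, hF, hFmin, hFle⟩ := hmod.least hf
  obtain ⟨hbt, hperp⟩ := deg_perp hy hn hn1 hΔ hα hc hss hβ hαβ hbf hb0 halt hnd hσ
  have hneg := fun (G : Submodule K (Derivation ℂ K K)) (d : ℝ) hG => semi_nonpos hn1 hss
    (F := G) (d := d) hG
  obtain ⟨hC, hCb⟩ := hperp F hF
  have hFC : F ≤ σ.orthogonal F := hFle _ hC hCb
  have huni : ∀ (G : Submodule K (Derivation ℂ K K)) (d : ℝ),
      SubDeg y n (fun _ => 0) β G d → d = bf G :=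
    fun G d hG => subDeg_unique hy hn hΔ hβ hG (hbf G)
  -- the filtrations
  obtain ⟨c, hc0, hFc⟩ := (filt_ofR hy hn hmod.bot hf hF).2 fun G hG hlt => by
    refine lt_of_le_of_ne (hFmin G hG) fun h => ?_
    exact absurd (hFle G hG h.symm) (not_le_of_gt hlt)
  have hCc : FiltLeR y n (fun _ => 0) α bf (σ.orthogonal F) 0 :=
    (filt_ofR hy hn hmod.bot hf hC).1 fun G hG => by
      rw [hCb]
      exact hFmin G hG
  have hFCσ : ∀ D ∈ F, ∀ D' ∈ σ.orthogonal F, σ D D' = 0 := fun D hD D' hD' =>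
    LinearMap.BilinForm.mem_orthogonal_iff.1 hD' D hD
  have hCFσ : ∀ D ∈ σ.orthogonal F, ∀ D' ∈ F, σ D D' = 0 := fun D hD D' hD' => by
    rw [hanti, hFCσ D' hD' D hD, neg_zero]
  have hkey : ∀ (m : ℕ) (M : Place ℂ K → ℚ) (μ : ℝ)
      (T : MultilinearMap K (fun _ : Fin m => Derivation ℂ K K) K), 1 ≤ m →
      HasDeg y α (fun P => M P) 0 → HasDeg y β (fun P => M P) μ →
      (∀ P, IsPrimeDivisor y P → TensorAt n 0 (M P) P T) → T ≠ 0 →
      ∃ (G : Submodule K (Derivation ℂ K K)), G ≠ ⊥ ∧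
        SubDeg y n (fun _ => 0) α G 0 ∧ m * bf G ≤ -(μ * Module.finrank K G) := by
    intro m M μ T hm hM hMb hT hT0
    have hT1 : SubDeg y n (fun _ => 0) α (⊤ : Submodule K (Derivation ℂ K K)) 0 :=
      zero_top hy hn hΔ hα hc
    obtain ⟨l, H, h0, hl, hZ, hlt, hst, hsl⟩ := rhn_exists
      (Z := fun G => SubDeg y n (fun _ => 0) α G 0) hmod.bot hf hT1
    rcases Nat.eq_zero_or_pos l with h | h
    · exfalso
      rw [h, h0] at hl
      have h1 : Module.finrank K (⊥ : Submodule K (Derivation ℂ K K)) = n := by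
        rw [hl, finrank_top, hrk]
      rw [finrank_bot] at h1
      omega
    · obtain ⟨k, rfl⟩ : ∃ k, l = k + 1 := ⟨l - 1, by omega⟩
      have h1 := rhn_slope (b := bf) hsl rfl
      have h2 : H k < ⊤ := by
        rw [← hl]
        exact hlt k (Nat.lt_succ_self k)
      obtain ⟨h3, h4⟩ := hperp (H k) (hZ k (Nat.le_succ k))
      have h5 := rrk_pos h2
      rw [finrank_top, hrk] at h5
      have h6 : Module.finrank K (H k) ≤ n := by
        rw [← hrk]
        exact Submodule.finrank_le _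
      have h7 : (Module.finrank K (σ.orthogonal (H k)) : ℝ) = n - Module.finrank K (H k) := by
        rw [hpr, Nat.cast_sub h6]
      refine ⟨σ.orthogonal (H k), fun h => ?_, h3, ?_⟩
      · rw [h, finrank_bot] at h7
        rw [← h7] at h5
        simp at h5
      · rw [h4]
        by_contra hcon
        push Not at hcon
        apply hT0
        have h8 := multi_vanishR hy hn hΔ hα hneg hβ hαβ hM hMb hbf hm
          (A := fun _ => (⊤ : Submodule K (Derivation ℂ K K)))
          (c := fun _ => rslp bf (H k) (H (k + 1)))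
          (fun _ => ⟨k + 1, H, h0, hl, hZ, hlt, hst, h1⟩)
          (T := T.compLinearMap fun s => (⊤ : Submodule K (Derivation ℂ K K)).subtype)
          (by
            rw [Finset.sum_const, Finset.card_univ, Fintype.card_fin, nsmul_eq_mul, hl]
            unfold rslp
            rw [hbt, finrank_top, hrk, ← mul_div_assoc, div_lt_iff₀ h5]
            rw [h7] at hcon
            linarith) fun P hP => restrict_ord (hT P hP) _
        refine MultilinearMap.ext fun D => ?_
        exact congrArg (fun t : MultilinearMap K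
          (fun _ : Fin m => (⊤ : Submodule K (Derivation ℂ K K))) K =>
          t fun s => ⟨D s, Submodule.mem_top⟩) h8
  refine ⟨F, bf F, hF, hbf F, ?_, fun h => ?_, hFC, hC, ?_, fun G b' hG hb' => ?_, ?_, ?_, ?_⟩
  · rw [← hb0]
    exact hFmin ⊥ hmod.bot
  · exact le_bot_iff.1 (hFle ⊥ hmod.bot (by rw [hb0, h]))
  · rw [← hCb]
    exact hbf _
  · rw [huni G b' hb']
    refine ⟨hFmin G hG, fun h => ⟨hFle G hG h, ?_⟩⟩
    obtain ⟨h1, h2⟩ := hperp G hG
    have h3 := hpa _ _ (hFle _ h1 (h2.trans h))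
    rwa [hpp] at h3
  · intro D hD D' hD'
    rw [← hpp F, LinearMap.BilinForm.mem_orthogonal_iff]
    intro D'' hD''
    change σ D'' ⁅D, D'⁆ = 0
    rw [hanti, lie_vanish hy hn hα hneg hβ hαβ hbf hσ hFCσ hFc hCc (by linarith) D hD D' hD' D''
      hD'', neg_zero]
  · intro D hD D' hD'
    rw [LinearMap.BilinForm.mem_orthogonal_iff]
    intro D'' hD''
    change σ D'' ⁅D, D'⁆ = 0
    rw [hanti, lie_vanish hy hn hα hneg hβ hαβ hbf hσ hCFσ hCc hFc (by linarith) D hD D' hD' D''
      hD'', neg_zero]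
  · intro m M μ T hm hM hMb hT
    refine ⟨fun ha D hD => ?_, fun ha D hD hs => ?_, fun hT0 => ?_, fun hT0 ha => ?_⟩
    · have h4 := multi_vanishR hy hn hΔ hα hneg hβ hαβ hM hMb hbf hm
        (A := fun _ => σ.orthogonal F)
        (c := fun _ => 0) (fun _ => hCc) (T := T.compLinearMap fun s => (σ.orthogonal F).subtype)
        (by simpa using ha) fun P hP => restrict_ord (hT P hP) _
      exact congrArg (fun t : MultilinearMap K (fun _ : Fin m => σ.orthogonal F) K =>
        t fun s => ⟨D s, hD s⟩) h4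
    · obtain ⟨s0, hs0⟩ := hs
      have h4 := multi_vanishR hy hn hΔ hα hneg hβ hαβ hM hMb hbf hm
        (A := fun s => if s = s0 then F else σ.orthogonal F)
        (c := fun s => if s = s0 then c else 0) (fun s => by
          split_ifs with h
          · exact hFc
          · exact hCc) (T := T.compLinearMap fun s =>
            (if s = s0 then F else σ.orthogonal F).subtype)
        (by
          rw [Finset.sum_ite_eq' Finset.univ s0 (fun _ => c), if_pos (Finset.mem_univ _)]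
          linarith) fun P hP => restrict_ord (hT P hP) _
      exact congrArg (fun t : MultilinearMap K
        (fun s : Fin m => (if s = s0 then F else σ.orthogonal F : Submodule K _)) K =>
        t fun s => ⟨D s, by
          by_cases h : s = s0
          · rw [if_pos h, h]
            exact hs0
          · rw [if_neg h]
            exact hD s⟩) h4
    · obtain ⟨G, h1, h2, h3⟩ := hkey m M μ T hm hM hMb hT hT0
      exact ⟨G, bf G, h1, h2, hbf G, h3⟩
    · obtain ⟨G, h1, h2, h3⟩ := hkey m M μ T hm hM hMb hT hT0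
      have h4 := hFmin G h2
      have hm0 : (0 : ℝ) ≤ m := Nat.cast_nonneg m
      have h5 := mul_le_mul_of_nonneg_left h4 hm0
      have h6 : (1 : ℝ) ≤ Module.finrank K G := by
        have h7 : 0 < Module.finrank K G := by
          rw [Module.finrank_pos_iff]
          exact Submodule.nontrivial_iff_ne_bot.2 h1
        exact_mod_cast h7
      have h7 := mul_le_mul_of_nonneg_left h6 ha.le
      have h8 : m * bf F ≤ -μ := by linarith
      refine ⟨fun h => ?_, h8⟩
      rw [h, hb0, mul_zero] at h8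
      linarith

end

end Pool.Agent.H897
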