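import Pool.Agent.H897.XF

/-!
The slope filtration of the tangent sheaf of a symplectic variety.
-/

set_option autoImplicit false
set_option linter.overlappingInstances false
set_option linter.unusedSectionVars false

open MvPolynomial FF Pool.Agent.W602.GT Pool.Agent.Y172 Pool.Agent.NH31 Pool.Agent.W603.LV
open Pool.Agent.N133.TB Pool.Agent.Y174 Pool.Agent.TH466.QG Pool.Agent.W619.PQ
open Pool.Agent.N133.OB Pool.Agent.Y191

namespace Pool.Agent.H897

section

variable {K : Type} [Field K] [Algebra ℂ K] {N n : ℕ} {y : Fin (N + 1) → K}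

/-- The distribution `F` has the `α`-degree `0`, and it minimises the `β`-degree minus `t` times the
rank among the distributions of `α`-degree `0`. -/
def SlopeMin (y : Fin (N + 1) → K) (n : ℕ) (α β : Place ℂ K → ℝ) (t : ℝ)
    (F : Submodule K (Derivation ℂ K K)) : Prop :=
  SubDeg y n (fun _ => 0) α F 0 ∧ ∀ (G : Submodule K (Derivation ℂ K K)) (dF dG : ℝ),
    SubDeg y n (fun _ => 0) β F dF → SubDeg y n (fun _ => 0) α G 0 →
    SubDeg y n (fun _ => 0) β G dG →
      dF - t * Module.finrank K F ≤ dG - t * Module.finrank K G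

section

variable {M : Type} [AddCommGroup M] [Module K M] {Z : Submodule K M → Prop}
  {b : Submodule K M → ℝ}

/-- the modular function `b - t rk` -/
theorem RLat.shift [Module.Finite K M] (h : RLat Z b) (t : ℝ) :
    RLat Z (fun G => b G - t * Module.finrank K G) := by
  refine ⟨h.inf, h.sup, h.bot, fun V W hV hW => ?_⟩
  have h1 := h.mod V W hV hW
  have h2 : (Module.finrank K (V ⊔ W : Submodule K M) : ℝ) + Module.finrank K
      (V ⊓ W : Submodule K M) = Module.finrank K V + Module.finrank K W := by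
    exact_mod_cast Submodule.finrank_sup_add_finrank_inf_eq V W
  linear_combination h1 - t * h2

theorem fin_shift [Module.Finite K M] (hf : {x | ∃ G, Z G ∧ b G = x}.Finite) (t : ℝ) :
    {x | ∃ G, Z G ∧ b G - t * Module.finrank K G = x}.Finite := by
  refine ((hf.prod (Set.finite_Icc 0 (Module.finrank K M))).image
    fun p : ℝ × ℕ => p.1 - t * p.2).subset ?_
  rintro s ⟨G, hG, rfl⟩
  exact ⟨(b G, Module.finrank K G), ⟨⟨G, hG, rfl⟩, Nat.zero_le _, Submodule.finrank_le G⟩, rfl⟩

end

theorem FiltLeR.shift (hy : NormalModel y) (hn : Algebra.trdeg ℂ K = n)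
    {Δ : Place ℂ K → ℚ} {α : Place ℂ K → ℝ} {b : Submodule K (Derivation ℂ K K) → ℝ} {t c : ℝ}
    {A : Submodule K (Derivation ℂ K K)}
    (h : FiltLeR y n Δ α (fun G => b G - t * Module.finrank K G) A c) :
    FiltLeR y n Δ α b A (c + t) := by
  obtain ⟨hfin, -⟩ := fin_der hy hn
  obtain ⟨l, H, h0, hl, hZ, hlt, hst, hsl⟩ := h
  have key : ∀ {W G : Submodule K (Derivation ℂ K K)}, W < G →
      rslp (fun G => b G - t * Module.finrank K G) W G = rslp b W G - t := by
    intro W G hWG
    have h1 := rrk_pos hWG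
    unfold rslp
    rw [eq_sub_iff_add_eq, div_add' _ _ _ h1.ne']
    congr 1
    ring
  refine ⟨l, H, h0, hl, hZ, hlt, fun i hi G h1 h2 h3 => ?_, fun i hi => ?_⟩
  · have h4 := hst i hi G h1 h2 h3
    rw [key h2, key (hlt i hi)] at h4
    linarith
  · have h4 := hsl i hi
    rw [key (hlt i hi)] at h4
    linarith

/-- **The slope filtration.** -/
theorem slope_filtration (hy : NormalModel y) (hn : Algebra.trdeg ℂ K = n) (hn1 : 1 ≤ n)
    {α β : Place ℂ K → ℝ} (hα : MovableClass y α) (hc : LogDegree y n (fun _ => 0) α 0)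
    (hss : SemistableTangent y n (fun _ => 0) α 0) (hβ : MovableClass y β)
    (hαβ : ∀ P, IsPrimeDivisor y P → α P = 0 → β P = 0)
    {σ : LinearMap.BilinForm K (Derivation ℂ K K)}
    (halt : ∀ D, σ D D = 0) (hnd : ∀ D, (∀ D', σ D D' = 0) → D = 0)
    (hσ : ∀ P, IsPrimeDivisor y P → FormAt n 0 P σ) :
    ∃ (E F : ℝ → Submodule K (Derivation ℂ K K)),
      (∀ t, SlopeMin y n α β t (E t) ∧ SlopeMin y n α β t (F t) ∧
        ∀ G, SlopeMin y n α β t G → E t ≤ G ∧ G ≤ F t) ∧
      (∀ s t, s < t → F s ≤ E t) ∧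
      (∃ B : ℝ, ∀ t, B < t → F (-t) = ⊥ ∧ E t = ⊤) ∧
      (∀ t, σ.orthogonal (E t) = F (-t) ∧ σ.orthogonal (F t) = E (-t)) ∧
      (∀ t, t ≤ 0 → (∀ D ∈ E t, ∀ D' ∈ E t, ⁅D, D'⁆ ∈ E t) ∧
        ∀ D ∈ F t, ∀ D' ∈ F t, ⁅D, D'⁆ ∈ F t) ∧
      (∀ (m : ℕ) (M : Place ℂ K → ℚ) (μ : ℝ)
        (T : MultilinearMap K (fun _ : Fin m => Derivation ℂ K K) K), 1 ≤ m →
        HasDeg y α (fun P => M P) 0 → HasDeg y β (fun P => M P) μ →
        (∀ P, IsPrimeDivisor y P → TensorAt n 0 (M P) P T) →
        ∀ (t : Fin m → ℝ) (D : Fin m → Derivation ℂ K K), (∀ s, D s ∈ F (t s)) →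
          (∑ s, t s < μ ∨ ∑ s, t s ≤ μ ∧ ∃ s, D s ∈ E (t s)) → T D = 0) ∧
      ((∀ (G : Submodule K (Derivation ℂ K K)) (d : ℝ), G ≠ ⊥ → G ≠ ⊤ →
        SubDeg y n (fun _ => 0) β G d → d < 0) → E 0 = ⊥ →
        ∀ G : Submodule K (Derivation ℂ K K), SubDeg y n (fun _ => 0) α G 0 → G = ⊥ ∨ G = ⊤) := by
  classical
  have hΔ : Boundary y (fun _ => 0) := boundary_zero
  obtain ⟨hfin, hrk⟩ := fin_der hy hn
  obtain ⟨hanti, hpp, hpr, hpa⟩ := perp_perp hy hn halt hnd
  obtain ⟨b, hb, hmod, hf, hb0⟩ := deg_lattice hy hn hn1 hΔ hα hc hss hβ hαβ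
  obtain ⟨hbt, hperp⟩ := deg_perp hy hn hn1 hΔ hα hc hss hβ hαβ hb hb0 halt hnd hσ
  have hneg := fun (G : Submodule K (Derivation ℂ K K)) (d : ℝ) hG => semi_nonpos hn1 hss
    (F := G) (d := d) hG
  have huni : ∀ (G : Submodule K (Derivation ℂ K K)) (d : ℝ),
      SubDeg y n (fun _ => 0) β G d → d = b G :=
    fun G d hG => subDeg_unique hy hn hΔ hβ hG (hb G)
  have hmin : ∀ t G, SlopeMin y n α β t G ↔ SubDeg y n (fun _ => 0) α G 0 ∧
      ∀ G', SubDeg y n (fun _ => 0) α G' 0 →
        b G - t * Module.finrank K G ≤ b G' - t * Module.finrank K G' := by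
    intro t G
    refine ⟨fun h => ⟨h.1, fun G' h' => h.2 G' _ _ (hb G) h' (hb G')⟩, fun h => ⟨h.1,
      fun G' dF dG h1 h2 h3 => ?_⟩⟩
    rw [huni _ _ h1, huni _ _ h3]
    exact h.2 G' h2
  choose E hE1 hE2 hE3 using fun t : ℝ => (hmod.shift t).least (fin_shift hf t)
  obtain ⟨F, hF⟩ : ∃ F : ℝ → Submodule K (Derivation ℂ K K),
    ∀ t, F t = σ.orthogonal (E (-t)) := ⟨_, fun _ => rfl⟩
  have hrkp : ∀ G : Submodule K (Derivation ℂ K K),
      (Module.finrank K (σ.orthogonal G) : ℝ) = n - Module.finrank K G := by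
    intro G
    have h6 : Module.finrank K G ≤ n := by
      rw [← hrk]
      exact Submodule.finrank_le _
    rw [hpr, Nat.cast_sub h6]
  have hdual : ∀ t G, SlopeMin y n α β t G → SlopeMin y n α β (-t) (σ.orthogonal G) := by
    intro t G hG
    rw [hmin] at hG ⊢
    obtain ⟨h1, h2⟩ := hperp G hG.1
    refine ⟨h1, fun G' hG' => ?_⟩
    obtain ⟨h3, h4⟩ := hperp G' hG'
    have h5 := hG.2 _ h3
    rw [h4, hrkp] at h5
    rw [h2, hrkp]
    linarith
  have hEm : ∀ t, SlopeMin y n α β t (E t) := fun t => (hmin t _).2 ⟨hE1 t, hE2 t⟩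
  have hEle : ∀ t G, SlopeMin y n α β t G → E t ≤ G := by
    intro t G hG
    have h1 := (hmin t G).1 hG
    exact hE3 t G h1.1 (le_antisymm (h1.2 _ (hE1 t)) (hE2 t G h1.1))
  have hFm : ∀ t, SlopeMin y n α β t (F t) := by
    intro t
    have h1 := hdual _ _ (hEm (-t))
    rw [neg_neg] at h1
    rw [hF]
    exact h1
  have hFge : ∀ t G, SlopeMin y n α β t G → G ≤ F t := by
    intro t G hG
    have h1 := hpa _ _ (hEle _ _ (hdual _ _ hG))
    rw [hpp] at h1
    rw [hF]
    exact h1
  have horE : ∀ t, σ.orthogonal (E t) = F (-t) := fun t => by rw [hF, neg_neg]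
  have horF : ∀ t, σ.orthogonal (F t) = E (-t) := fun t => by rw [hF, hpp]
  -- the filtrations
  have hEf : ∀ t, ∃ c, c < t ∧ FiltLeR y n (fun _ => 0) α b (E t) c := by
    intro t
    obtain ⟨c, hc0, h1⟩ := (filt_ofR hy hn hmod.bot (fin_shift hf t) (hE1 t)).2 fun G hG hlt => by
      refine lt_of_le_of_ne (hE2 t G hG) fun h => ?_
      exact absurd (hE3 t G hG h.symm) (not_le_of_gt hlt)
    exact ⟨c + t, by linarith, h1.shift hy hn⟩
  have hFf : ∀ t, FiltLeR y n (fun _ => 0) α b (F t) t := by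
    intro t
    have h1 := (hmin t _).1 (hFm t)
    have h2 := ((filt_ofR hy hn hmod.bot (fin_shift hf t) h1.1).1 h1.2).shift hy hn
    rwa [zero_add] at h2
  refine ⟨E, F, fun t => ⟨hEm t, hFm t, fun G hG => ⟨hEle t G hG, hFge t G hG⟩⟩, ?_, ?_,
    fun t => ⟨horE t, horF t⟩, ?_, ?_, ?_⟩
  · intro s t hst
    have h1 := (hmin s _).1 (hFm s)
    have h3 := (hmod.shift s).mod _ _ h1.1 (hE1 t)
    have h4 := h1.2 _ (hmod.inf _ _ h1.1 (hE1 t))
    have h5 := hE2 t _ (hmod.sup _ _ h1.1 (hE1 t))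
    beta_reduce at h3
    have h6 : (t - s) * ((Module.finrank K (F s ⊔ E t : Submodule K _) : ℝ) -
        Module.finrank K (E t)) ≤ 0 := by linarith
    have h7 : (Module.finrank K (F s ⊔ E t : Submodule K (Derivation ℂ K K)) : ℝ) ≤
        Module.finrank K (E t) := by
      by_contra hcon
      push Not at hcon
      have := mul_pos (sub_pos.2 hst) (sub_pos.2 hcon)
      linarith
    have h8 := Submodule.eq_of_le_of_finrank_le (le_sup_right : E t ≤ F s ⊔ E t)
      (by exact_mod_cast h7)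
    rw [h8]
    exact le_sup_left
  · obtain ⟨B, hB⟩ := hf.bddBelow
    refine ⟨-B, fun t ht => ?_⟩
    have h1 : F (-t) = ⊥ := by
      have h2 := (hmin (-t) _).1 (hFm (-t))
      have h3 := h2.2 ⊥ hmod.bot
      have h4 : B ≤ b (F (-t)) := hB ⟨_, h2.1, rfl⟩
      have h5 : B ≤ 0 := by
        rw [← hb0]
        exact hB ⟨_, hmod.bot, rfl⟩
      rw [hb0, finrank_bot] at h3
      by_contra hcon
      have h6 : 0 < Module.finrank K (F (-t)) := by
        rw [Module.finrank_pos_iff]
        exact Submodule.nontrivial_iff_ne_bot.2 hcon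
      have h7 : (1 : ℝ) ≤ Module.finrank K (F (-t)) := by exact_mod_cast h6
      have h8 : t * 1 ≤ t * Module.finrank K (F (-t)) :=
        mul_le_mul_of_nonneg_left h7 (by linarith)
      simp only [Nat.cast_zero, mul_zero, sub_zero] at h3
      linarith
    refine ⟨h1, ?_⟩
    rw [← hpp (E t), horE, h1]
    rw [eq_top_iff]
    intro D _
    rw [LinearMap.BilinForm.mem_orthogonal_iff]
    intro D' hD'
    rw [(Submodule.mem_bot K).1 hD']
    change σ 0 D = 0
    rw [map_zero, LinearMap.zero_apply]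
  · intro t ht
    obtain ⟨c, hct, hEc⟩ := hEf t
    obtain ⟨c', hct', hEc'⟩ := hEf (-t)
    constructor
    · intro D hD D' hD'
      have h1 : ∀ D ∈ E t, ∀ D' ∈ F (-t), σ D D' = 0 := fun D hD D' hD' => by
        rw [← horE] at hD'
        exact LinearMap.BilinForm.mem_orthogonal_iff.1 hD' D hD
      rw [← neg_neg t, ← horF (-t), LinearMap.BilinForm.mem_orthogonal_iff]
      intro D'' hD''
      change σ D'' ⁅D, D'⁆ = 0
      rw [hanti, lie_vanish hy hn hα hneg hβ hαβ hb hσ h1 hEc (hFf (-t)) (by linarith) D hD D' hD'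
        D'' hD'', neg_zero]
    · intro D hD D' hD'
      have h1 : ∀ D ∈ F t, ∀ D' ∈ E (-t), σ D D' = 0 := fun D hD D' hD' => by
        rw [← horF] at hD'
        exact LinearMap.BilinForm.mem_orthogonal_iff.1 hD' D hD
      rw [← neg_neg t, ← horE (-t), LinearMap.BilinForm.mem_orthogonal_iff]
      intro D'' hD''
      change σ D'' ⁅D, D'⁆ = 0
      rw [hanti, lie_vanish hy hn hα hneg hβ hαβ hb hσ h1 (hFf t) hEc' (by linarith) D hD D' hD'
        D'' hD'', neg_zero]
  · intro m M μ T hm hM hMb hT t D hD hcase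
    rcases hcase with h | ⟨h, s0, hs0⟩
    · have h4 := multi_vanishR hy hn hΔ hα hneg hβ hαβ hM hMb hb hm
        (A := fun s => F (t s)) (c := t) (fun s => hFf (t s))
        (T := T.compLinearMap fun s => (F (t s)).subtype) h
        fun P hP => restrict_ord (hT P hP) _
      exact congrArg (fun u : MultilinearMap K (fun s : Fin m => F (t s)) K =>
        u fun s => ⟨D s, hD s⟩) h4
    · obtain ⟨c, hct, hEc⟩ := hEf (t s0)
      have h4 := multi_vanishR hy hn hΔ hα hneg hβ hαβ hM hMb hb hm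
        (A := fun s => if s = s0 then E (t s0) else F (t s))
        (c := fun s => if s = s0 then c else t s) (fun s => by
          split_ifs with h
          · exact hEc
          · exact hFf (t s)) (T := T.compLinearMap fun s =>
            (if s = s0 then E (t s0) else F (t s)).subtype)
        (by
          refine lt_of_lt_of_le ?_ h
          refine Finset.sum_lt_sum (fun s _ => ?_) ⟨s0, Finset.mem_univ _, ?_⟩
          · split_ifs with h'
            · rw [h']
              exact hct.le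
            · exact le_rfl
          · rw [if_pos rfl]
            exact hct) fun P hP => restrict_ord (hT P hP) _
      exact congrArg (fun u : MultilinearMap K
        (fun s : Fin m => (if s = s0 then E (t s0) else F (t s) : Submodule K _)) K =>
        u fun s => ⟨D s, by
          by_cases h : s = s0
          · rw [if_pos h, h]
            exact hs0
          · rw [if_neg h]
            exact hD s⟩) h4
  · intro hst hE0 G hG
    by_contra hcon
    push Not at hcon
    have h1 := hst G (b G) hcon.1 hcon.2 (hb G)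
    have h2 := hE2 0 G hG
    rw [hE0, hb0, zero_mul, zero_mul] at h2
    linarith

end

end Pool.Agent.H897
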