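import Pool.Agent.H897.RJ
import Pool.Agent.H897.IC

/-!
Growth of the spaces of tensors: exterior products of tensors.
-/

set_option autoImplicit false
set_option linter.overlappingInstances false
set_option linter.unusedSectionVars false

open MvPolynomial FF Pool.Agent.W602.GT Pool.Agent.Y172 Pool.Agent.NH31 Pool.Agent.W603.LV
open Pool.Agent.N133.TB Pool.Agent.Y174

namespace Pool.Agent.H897

section

variable {K : Type} [Field K] [Algebra ℂ K] {N n : ℕ} {y : Fin (N + 1) → K}

theorem upd_col {V : Type} {r m : ℕ} (D : Fin (r * m) → V) (j0 : Fin r) (s0 : Fin m) (x : V)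
    (j : Fin r) [DecidableEq (Fin (r * m))] :
    (fun s => Function.update D (finProdFinEquiv (j0, s0)) x (finProdFinEquiv (j, s))) =
      if j = j0 then Function.update (fun s => D (finProdFinEquiv (j0, s))) s0 x
      else fun s => D (finProdFinEquiv (j, s)) := by
  funext s
  by_cases hj : j = j0
  · rw [if_pos hj, hj]
    by_cases hs : s = s0
    · rw [hs, Function.update_self, Function.update_self]
    · rw [Function.update_of_ne hs, Function.update_of_ne]
      intro h
      have := finProdFinEquiv.injective h
      exact hs (Prod.ext_iff.1 this).2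
  · rw [if_neg hj, Function.update_of_ne]
    intro h
    have := finProdFinEquiv.injective h
    exact hj (Prod.ext_iff.1 this).1

/-- the exterior product of the tensors `t i` -/
noncomputable def wdg {V : Type} [AddCommGroup V] [Module K V] {r m : ℕ}
    (t : Fin r → MultilinearMap K (fun _ : Fin m => V) K) :
    MultilinearMap K (fun _ : Fin (r * m) => V) K where
  toFun D := (Matrix.of fun i j : Fin r => t i fun s => D (finProdFinEquiv (j, s))).det
  map_update_add' := by
    intro _ D q x z
    obtain ⟨⟨j0, s0⟩, rfl⟩ := finProdFinEquiv.surjective q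
    have key : ∀ v : V, (Matrix.of fun i j : Fin r => t i fun s =>
        Function.update D (finProdFinEquiv (j0, s0)) v (finProdFinEquiv (j, s))) =
        (Matrix.of fun i j : Fin r => t i fun s => D (finProdFinEquiv (j, s))).updateCol j0
          (fun i => t i (Function.update (fun s => D (finProdFinEquiv (j0, s))) s0 v)) := by
      intro v
      ext i j
      rw [Matrix.of_apply, upd_col, Matrix.updateCol_apply]
      by_cases hj : j = j0
      · rw [if_pos hj, if_pos hj]
      · rw [if_neg hj, if_neg hj, Matrix.of_apply]
    rw [key, key, key, ← Matrix.det_updateCol_add]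
    congr 2
    funext i
    rw [MultilinearMap.map_update_add]
    rfl
  map_update_smul' := by
    intro _ D q c x
    obtain ⟨⟨j0, s0⟩, rfl⟩ := finProdFinEquiv.surjective q
    have key : ∀ v : V, (Matrix.of fun i j : Fin r => t i fun s =>
        Function.update D (finProdFinEquiv (j0, s0)) v (finProdFinEquiv (j, s))) =
        (Matrix.of fun i j : Fin r => t i fun s => D (finProdFinEquiv (j, s))).updateCol j0
          (fun i => t i (Function.update (fun s => D (finProdFinEquiv (j0, s))) s0 v)) := by
      intro v
      ext i j
      rw [Matrix.of_apply, upd_col, Matrix.updateCol_apply]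
      by_cases hj : j = j0
      · rw [if_pos hj, if_pos hj]
      · rw [if_neg hj, if_neg hj, Matrix.of_apply]
    rw [key, key, smul_eq_mul, ← Matrix.det_updateCol_smul]
    congr 2
    funext i
    rw [MultilinearMap.map_update_smul]
    rfl

theorem wdg_apply {V : Type} [AddCommGroup V] [Module K V] {r m : ℕ}
    (t : Fin r → MultilinearMap K (fun _ : Fin m => V) K) (D : Fin (r * m) → V) :
    wdg t D = (Matrix.of fun i j : Fin r => t i fun s => D (finProdFinEquiv (j, s))).det := rfl

/-- the exterior product, if one tensor is replaced by a combination -/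
theorem wdg_update {V : Type} [AddCommGroup V] [Module K V] {r m : ℕ}
    (t : Fin r → MultilinearMap K (fun _ : Fin m => V) K) (j : Fin r) (f : Fin r → K) :
    wdg (Function.update t j (∑ i, f i • t i)) = f j • wdg t := by
  ext D
  rw [MultilinearMap.smul_apply, wdg_apply, wdg_apply]
  have h1 : (Matrix.of fun i j' : Fin r => (Function.update t j (∑ i, f i • t i)) i
      fun s => D (finProdFinEquiv (j', s))) =
      (Matrix.of fun i j' : Fin r => t i fun s => D (finProdFinEquiv (j', s))).updateRow j
        (∑ k, f k • (Matrix.of fun i j' : Fin r => t i fun s => D (finProdFinEquiv (j', s))) k) := by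
    ext i j'
    rw [Matrix.of_apply, Matrix.updateRow_apply]
    by_cases hi : i = j
    · rw [if_pos hi, hi, Function.update_self, MultilinearMap.sum_apply, Finset.sum_apply]
      rfl
    · rw [if_neg hi, Function.update_of_ne hi, Matrix.of_apply]
  rw [h1, Matrix.det_updateRow_sum]

/-- the exterior product of independent tensors is not zero -/
theorem wdg_ne {V : Type} [AddCommGroup V] [Module K V] {r m : ℕ}
    {t : Fin r → MultilinearMap K (fun _ : Fin m => V) K} (ht : LinearIndependent K t) :
    wdg t ≠ 0 := by
  classical
  intro h0
  -- some maximal minor of the values is not zero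
  have key : ∀ (q : ℕ) (t : Fin q → MultilinearMap K (fun _ : Fin m => V) K),
      LinearIndependent K t → ∃ D : Fin q → Fin m → V,
        (Matrix.of fun i j : Fin q => t i (D j)).det ≠ 0 := by
    intro q
    induction q with
    | zero =>
      intro t _
      refine ⟨fun i => i.elim0, ?_⟩
      rw [Matrix.det_isEmpty]
      exact one_ne_zero
    | succ q ih =>
      intro t ht
      obtain ⟨D, hD⟩ := ih (fun i => t i.castSucc) (ht.comp _ (Fin.castSucc_injective q))
      -- the cofactors
      by_contra hcon
      push Not at hcon
      have h1 : ∀ x : Fin m → V, ∑ i : Fin (q + 1), (-1) ^ ((i : ℕ) + q) * (t i x *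
          (Matrix.of fun i' j : Fin q => t (i.succAbove i') (D j)).det) = 0 := by
        intro x
        have h2 := hcon (Fin.snoc (α := fun _ => Fin m → V) D x)
        rw [Matrix.det_succ_column _ (Fin.last q)] at h2
        rw [← h2]
        refine Finset.sum_congr rfl fun i _ => ?_
        rw [Matrix.of_apply, Fin.snoc_last, Fin.val_last, mul_assoc]
        congr 3
        ext i' j
        rw [Matrix.submatrix_apply, Matrix.of_apply, Matrix.of_apply, Fin.succAbove_last,
          Fin.snoc_castSucc]
      have h2 := Fintype.linearIndependent_iff.1 ht (fun i => (-1) ^ ((i : ℕ) + q) *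
        (Matrix.of fun i' j : Fin q => t (i.succAbove i') (D j)).det) (by
          ext x
          rw [MultilinearMap.sum_apply, MultilinearMap.zero_apply, ← h1 x]
          refine Finset.sum_congr rfl fun i _ => ?_
          rw [MultilinearMap.smul_apply, smul_eq_mul]
          ring) (Fin.last q)
      rcases mul_eq_zero.1 h2 with h3 | h3
      · exact pow_ne_zero _ (neg_ne_zero.2 one_ne_zero) h3
      · apply hD
        rw [← h3]
        congr 1
        ext i' j
        rw [Matrix.of_apply, Matrix.of_apply, Fin.succAbove_last]
  obtain ⟨D, hD⟩ := key r t ht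
  apply hD
  have h1 := congrArg (fun u => u fun q => D (finProdFinEquiv.symm q).1 (finProdFinEquiv.symm q).2) h0
  rw [MultilinearMap.zero_apply, wdg_apply] at h1
  rw [← h1]
  congr 1
  ext i j
  rw [Matrix.of_apply, Matrix.of_apply]
  congr 1
  funext s
  rw [Equiv.symm_apply_apply]

end

end Pool.Agent.H897
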