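import Pool.Agent.H897.YA

/-!
Growth of the spaces of tensors: the sections given by the exterior products.
-/

set_option autoImplicit false
set_option linter.overlappingInstances false
set_option linter.unusedSectionVars false

open MvPolynomial FF Pool.Agent.W602.GT Pool.Agent.Y172 Pool.Agent.NH31 Pool.Agent.W603.LV
open Pool.Agent.N133.TB Pool.Agent.Y174

namespace Pool.Agent.H897

section

variable {K : Type} [Field K] [Algebra ℂ K] {N n : ℕ} {y : Fin (N + 1) → K}

/-- the exterior product of twisted tensors -/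
theorem wdg_twisted {r m : ℕ} {a : ℤ} {T : Fin r → (Fin n → Derivation ℂ K K) →
    MultilinearMap K (fun _ : Fin m => Derivation ℂ K K) K} (hT : ∀ i, Twisted a (T i)) :
    Twisted (r * a) (fun E => wdg fun i => T i E) := by
  intro A E hA
  ext D
  rw [MultilinearMap.smul_apply, wdg_apply, wdg_apply]
  have h1 : (Matrix.of fun i j : Fin r => T i (fun i => ∑ j, A i j • E j)
      fun s => D (finProdFinEquiv (j, s))) =
      A.det ^ a • (Matrix.of fun i j : Fin r => T i E fun s => D (finProdFinEquiv (j, s))) := by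
    ext i j
    rw [Matrix.of_apply, Matrix.smul_apply, Matrix.of_apply, hT i A E hA]
    rfl
  rw [h1, Matrix.det_smul, Fintype.card_fin, smul_eq_mul]
  congr 1
  rw [← zpow_natCast, ← zpow_mul, mul_comm]

/-- the order of the exterior product -/
theorem wdg_orb {r m : ℕ} {a : ℤ} {δ ℓ : ℚ} {P : Place ℂ K}
    {T : Fin r → (Fin n → Derivation ℂ K K) →
      MultilinearMap K (fun _ : Fin m => Derivation ℂ K K) K}
    (hT : ∀ i, OrbAtL δ ℓ P a (T i)) :
    OrbAtL δ (r * ℓ) P (r * a) (fun E => wdg fun i => T i E) := by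
  classical
  intro E D S hE hD hS
  by_cases h0 : wdg (fun i => T i E) D = 0
  · exact Or.inl h0
  right
  have hg : GeR P (((-(δ * (S.card + ((r * a : ℤ) : ℚ)) + r * ℓ) : ℚ) : ℝ))
      (wdg (fun i => T i E) D) := by
    rw [wdg_apply, Matrix.det_apply]
    refine Pool.Agent.Y174.OB.geR_sum _ _ _ fun σ _ => ?_
    have h1 : GeR P (∑ j : Fin r, (((-(δ * ((Finset.univ.filter fun s : Fin m =>
        finProdFinEquiv (j, s) ∈ S).card + a) + ℓ) : ℚ) : ℝ)))
        (∏ j, (Matrix.of fun i j : Fin r => T i E fun s => D (finProdFinEquiv (j, s))) (σ j) j) := by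
      refine geR_prod' _ _ fun j => ?_
      rw [Matrix.of_apply]
      rcases hT (σ j) E (fun s => D (finProdFinEquiv (j, s)))
        (Finset.univ.filter fun s : Fin m => finProdFinEquiv (j, s) ∈ S) hE (fun s => hD _)
        (fun s hs => hS _ fun h => hs (by simp [h])) with h | h
      · exact Or.inl h
      · right
        exact_mod_cast h
    have h2 : ∑ j : Fin r, (((-(δ * ((Finset.univ.filter fun s : Fin m =>
        finProdFinEquiv (j, s) ∈ S).card + a) + ℓ) : ℚ) : ℝ)) =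
        ((-(δ * (S.card + ((r * a : ℤ) : ℚ)) + r * ℓ) : ℚ) : ℝ) := by
      have h3 : (S.card : ℝ) = ∑ j : Fin r, ((Finset.univ.filter fun s : Fin m =>
          finProdFinEquiv (j, s) ∈ S).card : ℝ) := by
        have h4 : S.card = ∑ q : Fin (r * m), if q ∈ S then 1 else 0 := by
          rw [Finset.sum_boole]
          simp
        rw [h4, ← Equiv.sum_comp finProdFinEquiv, Fintype.sum_prod_type]
        push_cast
        refine Finset.sum_congr rfl fun j _ => ?_
        rw [Finset.sum_boole]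
      push_cast
      rw [h3]
      simp only [neg_add_rev, Finset.sum_add_distrib, Finset.sum_neg_distrib, ← Finset.mul_sum,
        mul_add, Finset.sum_const, Finset.card_univ, Fintype.card_fin, nsmul_eq_mul]
    rw [h2] at h1
    rcases Int.units_eq_one_or (Equiv.Perm.sign σ) with h | h
    · rw [h, one_smul]
      exact h1
    · rw [h]
      have h4 : ((-1 : ℤˣ) • ∏ j, (Matrix.of fun i j : Fin r => T i E
          fun s => D (finProdFinEquiv (j, s))) (σ j) j) =
          -∏ j, (Matrix.of fun i j : Fin r => T i E fun s => D (finProdFinEquiv (j, s))) (σ j) j := by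
        rw [Units.neg_smul, one_smul]
      rw [h4]
      exact Pool.Agent.Y174.OB.geR_neg h1
  have h5 := hg.resolve_left h0
  exact_mod_cast h5

/-- **The sections.** `u` is a tensor, and `g u` satisfies the same conditions; then `g Q(u)^n` is a
section. -/
theorem sec_mul (hy : NormalModel y) (hn : Algebra.trdeg ℂ K = n) (hn1 : 1 ≤ n)
    {Δ ℓ : Place ℂ K → ℚ} {m : ℕ} (hm : 1 ≤ m) {a : ℤ} {p : ℕ} (hp : (p : ℤ) = m + n * a)
    {u u' : (Fin n → Derivation ℂ K K) → MultilinearMap K (fun _ : Fin m => Derivation ℂ K K) K}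
    (hu : Twisted a u) (hu' : Twisted a u')
    (huO : ∀ P, IsPrimeDivisor y P → OrbAtL (Δ P) (ℓ P) P a u)
    (huO' : ∀ P, IsPrimeDivisor y P → OrbAtL (Δ P) (ℓ P) P a u')
    {x : Fin n → K} {E0 : Fin n → Derivation ℂ K K} (hx : IsTranscendenceBasis ℂ x)
    (hE0 : ∀ i j, E0 i (x j) = if i = j then 1 else 0) {w : Place ℂ K → ℚ}
    (hw : ∀ P : Place ℂ K, IsPrimeDivisor y P → ∀ (m : ℕ)
      (ω : (Fin n → Derivation ℂ K K) → K) (c : ℚ), IsPluri m ω →
      (OrdGe P ω c ↔ ω E0 = 0 ∨ c - m * w P ≤ (P.ord (ω E0) : ℚ)))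
    {g : K} (hg : u' E0 = g • u E0) {W b : ℕ} (hb1 : 1 ≤ b)
    {Q : MvPolynomial (Ix (fun _ : Unit => m) n) ℂ} (hQ : SemiInv ℂ (fun _ : Unit => m) n W Q)
    (hb : m * b = n * W) (hQ0 : aeval (pt (co (fun _ : Unit => u E0) E0)) Q ≠ 0) :
    IsSection y n (b * p) ((b * p) • Δ + (b * n) • ℓ)
      (frm x (b * p) (g * aeval (pt (co (fun _ : Unit => u E0) E0)) Q ^ n)) := by
  classical
  have hess := hy.ess
  obtain ⟨f, hf⟩ : ∃ f, f = aeval (pt (co (fun _ : Unit => u E0) E0)) Q := ⟨_, rfl⟩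
  rw [← hf] at hQ0 ⊢
  have hpR : (p : ℝ) = m + n * a := by exact_mod_cast hp
  have hfn : f ^ n ≠ 0 := pow_ne_zero _ hQ0
  have hpl := frm_pluri x (b * p) (g * f ^ n)
  refine ⟨hpl, fun P hP => (hw P hP _ _ _ hpl).2 ?_⟩
  rw [frm_eval hE0]
  by_cases hg0 : g = 0
  · left
    rw [hg0, zero_mul]
  right
  obtain ⟨E', i0, M, C, U, nk, hAd, hEM, hM0, hMw, -⟩ := loc_data hy hn hx hE0 hw
    (b := E0) (C0 := 1) (by rw [Matrix.det_one]; exact one_ne_zero) (fun k => by
      rw [Finset.sum_eq_single k]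
      · rw [Matrix.one_apply_eq, one_smul]
      · intro j _ hj
        rw [Matrix.one_apply_ne (Ne.symm hj), zero_smul]
      · intro h
        exact absurd (Finset.mem_univ _) h) Δ hP
  obtain ⟨μ, hμ⟩ : ∃ μ : ℝ, μ = max 0 (-(P.ord g : ℝ)) := ⟨_, rfl⟩
  have hμ0 : 0 ≤ μ := by rw [hμ]; exact le_max_left _ _
  have hμg : -(P.ord g : ℝ) ≤ μ := by rw [hμ]; exact le_max_right _ _
  have hco : ∀ I : Fin m → Fin n, GeR P (∑ s, nuf (Δ P) i0 (I s) -
      (((ℓ P : ℝ) + a * Δ P + a * w P) - μ)) (u E0 fun s => E' (I s)) := by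
    intro I
    have h1 := orb_coef hu (huO P hP) hAd hEM hM0 hMw I
    have h2 := orb_coef hu' (huO' P hP) hAd hEM hM0 hMw I
    rcases h1 with h1 | h1
    · exact Or.inl h1
    by_cases h0 : u E0 (fun s => E' (I s)) = 0
    · exact Or.inl h0
    right
    rw [hg] at h2
    have h3 : (g • u E0) (fun s => E' (I s)) = g * u E0 (fun s => E' (I s)) := rfl
    rw [h3] at h2
    have h4 := h2.resolve_left (mul_ne_zero hg0 h0)
    rw [P.ord_mul hg0 h0] at h4
    push_cast at h4
    rw [hμ]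
    rcases max_choice (0 : ℝ) (-(P.ord g : ℝ)) with h5 | h5
    · rw [h5]
      linarith
    · rw [h5]
      linarith
  have h1 := inv_ge (P := P) hm hco hQ hb
  have h2 : aeval (pt (co (fun _ : Unit => u E0) E')) Q = M.det ^ W * f := by
    rw [hf, ← hQ K M]
    congr 2
    funext z
    rw [hEM]
    exact (act_co _ _ _ _ _).symm
  rw [h2, sum_nuf'] at h1
  have h3 := h1.resolve_left (mul_ne_zero (pow_ne_zero _ hM0) hQ0)
  rw [P.ord_mul (pow_ne_zero _ hM0) hQ0, P.ord_pow] at h3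
  have hMwR : (P.ord M.det : ℝ) = w P := by exact_mod_cast hMw
  push_cast at h3
  rw [hMwR] at h3
  have hbR : (m : ℝ) * b = n * W := by exact_mod_cast hb
  rw [P.ord_mul hg0 hfn, P.ord_pow]
  have h4 : (-((((b * p) • Δ + (b * n) • ℓ) P : ℚ) : ℝ) - ((b * p : ℕ) : ℝ) * w P) ≤
      ((P.ord g + n * P.ord f : ℤ) : ℝ) := by
    simp only [Pi.add_apply, smul_ap]
    push_cast
    rw [hpR]
    have h5 := mul_le_mul_of_nonneg_left h3 (Nat.cast_nonneg (α := ℝ) n)
    have h6 : (n : ℝ) * (W * -(Δ P : ℝ) - b * ((ℓ P + a * Δ P + a * w P) - μ)) - n * (W * w P) =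
        -(b * (m + n * a) * Δ P + b * n * ℓ P) - b * (m + n * a) * w P + n * b * μ := by
      have h7 : (n : ℝ) * W = b * m := by rw [← hbR]; ring
      calc (n : ℝ) * (W * -(Δ P : ℝ) - b * ((ℓ P + a * Δ P + a * w P) - μ)) - n * (W * w P) =
          -(n * W) * Δ P - n * b * ((ℓ P + a * Δ P + a * w P) - μ) - (n * W) * w P := by ring
        _ = _ := by
          rw [h7]
          ring
    have h8 : μ ≤ n * b * μ := by
      have h9 : (1 : ℝ) ≤ n * b := by
        have h10 : 1 ≤ n * b := Nat.mul_pos hn1 hb1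
        exact_mod_cast h10
      nlinarith
    linarith
  exact_mod_cast h4

/-- a twisted invariant of weight zero for the twist is a semi-invariant of its power -/
theorem semi_pw {m W : ℕ} {Q : MvPolynomial (Ix (fun _ : Unit => m) n) ℂ}
    (hQ : SemiInv ℂ (fun _ : Unit => m) n W Q) (k : ℕ) :
    SemiInv ℂ (fun _ : Unit => m) n (k * W) (Q ^ k) := by
  intro L _ _ A t
  rw [map_pow, map_pow, hQ L A t, mul_pow, ← pow_mul, mul_comm k W]

/-- finitely many semi-invariants of the same weight are enough -/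
theorem exists_semi_fin (m n : ℕ) : ∃ d : ℕ, 1 ≤ d ∧
    ∃ s : Finset (MvPolynomial (Ix (fun _ : Unit => m) n) ℂ),
      (∀ Q ∈ s, SemiInv ℂ (fun _ : Unit => m) n d Q) ∧
      ∀ (L : Type) [Field L] [Algebra ℂ L] (t : Fam (fun _ : Unit => m) n L),
        (∃ (e : ℕ) (Q : MvPolynomial (Ix (fun _ : Unit => m) n) ℂ), 1 ≤ e ∧
          SemiInv ℂ (fun _ : Unit => m) n e Q ∧ aeval (pt t) Q ≠ 0) →
          ∃ Q ∈ s, aeval (pt t) Q ≠ 0 := by
  classical
  obtain ⟨S, hS⟩ : ∃ S : Set (MvPolynomial (Ix (fun _ : Unit => m) n) ℂ),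
    S = {Q | ∃ d : ℕ, 1 ≤ d ∧ SemiInv ℂ (fun _ : Unit => m) n d Q} := ⟨_, rfl⟩
  have hfg : (Submodule.span (MvPolynomial (Ix (fun _ : Unit => m) n) ℂ) S).FG :=
    IsNoetherian.noetherian _
  obtain ⟨s, hsS, hs⟩ := Submodule.fg_span_iff_fg_span_finset_subset S |>.1 hfg
  have hd : ∀ Q : MvPolynomial (Ix (fun _ : Unit => m) n) ℂ, ∃ d : ℕ, 1 ≤ d ∧
      (Q ∈ s → SemiInv ℂ (fun _ : Unit => m) n d Q) := by
    intro Q
    by_cases hQ : Q ∈ s
    · have h1 : Q ∈ S := hsS hQ
      rw [hS] at h1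
      obtain ⟨d, hd, h2⟩ := h1
      exact ⟨d, hd, fun _ => h2⟩
    · exact ⟨1, le_rfl, fun h => absurd h hQ⟩
  choose d hd1 hd using hd
  obtain ⟨D, hD⟩ : ∃ D, D = ∏ Q ∈ s, d Q := ⟨_, rfl⟩
  have hD1 : 1 ≤ D := by
    rw [hD]
    exact Finset.one_le_prod' fun Q _ => hd1 Q
  have hdvd : ∀ Q ∈ s, d Q ∣ D := fun Q hQ => by
    rw [hD]
    exact Finset.dvd_prod_of_mem d hQ
  refine ⟨D, hD1, s.image fun Q => Q ^ (D / d Q), fun P hP => ?_, fun L _ _ t ht => ?_⟩
  · obtain ⟨Q, hQ, rfl⟩ := Finset.mem_image.1 hP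
    have h1 := semi_pw (hd Q hQ) (D / d Q)
    rwa [Nat.div_mul_cancel (hdvd Q hQ)] at h1
  · by_contra hcon
    push Not at hcon
    have h1 : ∀ Q ∈ s, aeval (pt t) Q = 0 := by
      intro Q hQ
      have h2 := hcon _ (Finset.mem_image_of_mem _ hQ)
      rw [map_pow] at h2
      exact eq_zero_of_pow_eq_zero h2
    have h2 : ∀ Q ∈ Submodule.span (MvPolynomial (Ix (fun _ : Unit => m) n) ℂ) S,
        aeval (pt t) Q = 0 := by
      intro Q hQ
      rw [hs] at hQ
      induction hQ using Submodule.span_induction with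
      | mem x hx => exact h1 x hx
      | zero => exact map_zero _
      | add x z _ _ hx hz => rw [map_add, hx, hz, add_zero]
      | smul c x _ hx => rw [smul_eq_mul, map_mul, hx, mul_zero]
    obtain ⟨e, Q, he, hQ, hQ0⟩ := ht
    refine hQ0 (h2 Q (Submodule.subset_span ?_))
    rw [hS]
    exact ⟨e, he, hQ⟩

end

end Pool.Agent.H897
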