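import Pool.Agent.H897.YB

/-!
Growth of the spaces of tensors: the estimate.
-/

set_option autoImplicit false
set_option linter.overlappingInstances false
set_option linter.unusedSectionVars false

open MvPolynomial FF Pool.Agent.W602.GT Pool.Agent.Y172 Pool.Agent.NH31 Pool.Agent.W603.LV
open Pool.Agent.N133.TB Pool.Agent.Y174

namespace Pool.Agent.H897

section

variable {K : Type} [Field K] [Algebra ℂ K] {N n : ℕ} {y : Fin (N + 1) → K}

/-- the number of independent tensors -/
theorem tens_card {E : Fin n → Derivation ℂ K K} (hE : IsFrame E) {r m : ℕ}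
    {t : Fin r → MultilinearMap K (fun _ : Fin m => Derivation ℂ K K) K}
    (ht : LinearIndependent K t) : r ≤ n ^ m := by
  classical
  let ev : MultilinearMap K (fun _ : Fin m => Derivation ℂ K K) K →ₗ[K]
      ((Fin m → Fin n) → K) :=
    { toFun := fun t I => t fun s => E (I s)
      map_add' := fun _ _ => rfl
      map_smul' := fun _ _ => rfl }
  have hker : LinearMap.ker ev = ⊥ := by
    rw [LinearMap.ker_eq_bot']
    intro t h0
    ext D
    choose A hA using fun s => hE (D s)
    have h1 : D = fun s => ∑ j, A s j • E j := funext hA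
    rw [h1, MultilinearMap.map_sum]
    refine Finset.sum_eq_zero fun I _ => ?_
    rw [MultilinearMap.map_smul_univ]
    have h2 : t (fun s => E (I s)) = 0 := congrFun h0 I
    rw [h2, smul_zero]
  have h1 := (ht.map' ev hker).fintype_card_le_finrank
  rw [Fintype.card_fin, Module.finrank_fintype_fun_eq_card, Fintype.card_fun, Fintype.card_fin,
    Fintype.card_fin] at h1
  exact h1

/-- linear algebra -/
theorem la_split {V : Type} [AddCommGroup V] [Module K V] [Module ℂ V] [IsScalarTower ℂ K V]
    {R : ℕ} (hR : 1 ≤ R) {v : Fin R → V} (hv : LinearIndependent ℂ v) :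
    ∃ (r : ℕ) (b : Fin r → Fin R) (f : Fin R → Fin r → K), LinearIndependent K (v ∘ b) ∧
      (∀ k, v k = ∑ i, f k i • v (b i)) ∧ ∃ (i : Fin r) (s : ℕ) (c : Fin s → Fin R → ℂ),
        LinearIndependent ℂ (fun l => ∑ k, c l k • f k i) ∧ R ≤ r * s := by
  classical
  obtain ⟨κ, a, ha, hspan, hli⟩ := exists_linearIndependent' K v
  have : Finite κ := Finite.of_injective a ha
  have : Fintype κ := Fintype.ofFinite κ
  obtain ⟨r, hr⟩ : ∃ r, r = Fintype.card κ := ⟨_, rfl⟩
  let e : Fin r ≃ κ := (Fintype.equivFinOfCardEq hr.symm).symm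
  have hmem : ∀ k, ∃ f : Fin r → K, v k = ∑ i, f i • v (a (e i)) := by
    intro k
    have h1 : v k ∈ Submodule.span K (Set.range (v ∘ a)) := by
      rw [hspan]
      exact Submodule.subset_span ⟨k, rfl⟩
    obtain ⟨g, hg⟩ := (Submodule.mem_span_range_iff_exists_fun K).1 h1
    refine ⟨fun i => g (e i), ?_⟩
    rw [← hg]
    exact (Equiv.sum_comp e fun x => g x • v (a x)).symm
  choose f hf using hmem
  refine ⟨r, fun i => a (e i), f, hli.comp e e.injective, hf, ?_⟩
  -- the spaces of the coefficients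
  let W : Fin r → Submodule ℂ K := fun i => Submodule.span ℂ (Set.range fun k => f k i)
  have hfin : ∀ i, Module.Finite ℂ (W i) := fun i =>
    Module.Finite.span_of_finite ℂ (Set.finite_range _)
  let Φ : ∀ i, (Fin R → ℂ) →ₗ[ℂ] W i := fun i =>
    LinearMap.codRestrict (W i)
      { toFun := fun c => ∑ k, c k • f k i
        map_add' := fun c d => by
          simp only [Pi.add_apply, add_smul, Finset.sum_add_distrib]
        map_smul' := fun c d => by
          simp only [Pi.smul_apply, smul_assoc, RingHom.id_apply, Finset.smul_sum] }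
      (by
        intro c
        change ∑ k, c k • f k i ∈ Submodule.span ℂ (Set.range fun k => f k i)
        exact Submodule.sum_mem _ fun k _ => Submodule.smul_mem _ _
          (Submodule.subset_span (Set.mem_range_self k)))
  have hinj : Function.Injective (LinearMap.pi Φ) := by
    rw [← LinearMap.ker_eq_bot, LinearMap.ker_eq_bot']
    intro c hc
    have h1 : ∀ i, ∑ k, c k • f k i = 0 := by
      intro i
      have h2 := congrFun hc i
      exact congrArg Subtype.val h2
    have h2 : ∑ k, c k • v k = 0 := by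
      have h3 : ∀ k, c k • v k = ∑ i, (c k • f k i) • v (a (e i)) := by
        intro k
        conv_lhs => rw [hf k]
        rw [Finset.smul_sum]
        refine Finset.sum_congr rfl fun i _ => ?_
        rw [smul_assoc]
      rw [Finset.sum_congr rfl fun k _ => h3 k, Finset.sum_comm]
      refine Finset.sum_eq_zero fun i _ => ?_
      rw [← Finset.sum_smul, h1, zero_smul]
    funext k
    exact Fintype.linearIndependent_iff.1 hv c h2 k
  have hdim : R ≤ ∑ i, Module.finrank ℂ (W i) := by
    have h1 := LinearMap.finrank_le_finrank_of_injective hinj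
    rw [Module.finrank_fintype_fun_eq_card, Fintype.card_fin, Module.finrank_pi_fintype] at h1
    exact h1
  obtain ⟨i, hi⟩ : ∃ i, R ≤ r * Module.finrank ℂ (W i) := by
    by_contra hcon
    push Not at hcon
    rcases Nat.eq_zero_or_pos r with h0 | h0
    · subst h0
      rw [Finset.univ_eq_empty, Finset.sum_empty] at hdim
      omega
    · have : Nonempty (Fin r) := ⟨⟨0, h0⟩⟩
      have h1 : ∑ i, r * Module.finrank ℂ (W i) < ∑ _i : Fin r, R :=
        Finset.sum_lt_sum_of_nonempty Finset.univ_nonempty fun i _ => hcon i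
      rw [← Finset.mul_sum, Finset.sum_const, Finset.card_univ, Fintype.card_fin,
        smul_eq_mul] at h1
      exact absurd (Nat.mul_le_mul_left r hdim) (not_le.2 h1)
  let B := Module.finBasis ℂ (W i)
  have hB : ∀ l, ∃ c : Fin R → ℂ, ∑ k, c k • f k i = (B l : K) := fun l =>
    (Submodule.mem_span_range_iff_exists_fun ℂ).1 (B l).2
  choose c hc using hB
  refine ⟨i, Module.finrank ℂ (W i), c, ?_, hi⟩
  have h1 : (fun l => ∑ k, c l k • f k i) = (W i).subtype ∘ B := by
    funext l
    exact hc l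
  rw [h1]
  exact B.linearIndependent.map' _ (Submodule.ker_subtype _)

/-- sums of twisted tensors -/
theorem twisted_sum {R m : ℕ} {a : ℤ} {T : Fin R → (Fin n → Derivation ℂ K K) →
    MultilinearMap K (fun _ : Fin m => Derivation ℂ K K) K} (hT : ∀ i, Twisted a (T i))
    (c : Fin R → ℂ) : Twisted a (fun E => ∑ k, c k • T k E) := by
  intro A E hA
  change ∑ k, c k • T k _ = A.det ^ a • ∑ k, c k • T k E
  rw [Finset.smul_sum]
  refine Finset.sum_congr rfl fun k _ => ?_
  rw [hT k A E hA]
  ext D
  rw [MultilinearMap.smul_apply, MultilinearMap.smul_apply, MultilinearMap.smul_apply,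
    MultilinearMap.smul_apply, smul_comm]

theorem orb_sum {R m : ℕ} {a : ℤ} {δ ℓ : ℚ} {P : Place ℂ K}
    {T : Fin R → (Fin n → Derivation ℂ K K) →
      MultilinearMap K (fun _ : Fin m => Derivation ℂ K K) K}
    (hT : ∀ i, OrbAtL δ ℓ P a (T i)) (c : Fin R → ℂ) :
    OrbAtL δ ℓ P a (fun E => ∑ k, c k • T k E) := by
  intro E D S hE hD hS
  by_cases h0 : (∑ k, c k • T k E) D = 0
  · exact Or.inl h0
  right
  have h1 : (∑ k, c k • T k E) D = ∑ k, algebraMap ℂ K (c k) * T k E D := by
    rw [MultilinearMap.sum_apply]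
    refine Finset.sum_congr rfl fun k _ => ?_
    rw [MultilinearMap.smul_apply, Algebra.smul_def]
  have hg : GeR P (((-(δ * (S.card + a) + ℓ) : ℚ) : ℝ)) ((∑ k, c k • T k E) D) := by
    rw [h1]
    refine Pool.Agent.Y174.OB.geR_sum _ _ _ fun k _ => ?_
    have h2 : GeR P 0 (algebraMap ℂ K (c k)) := by
      by_cases h0 : c k = 0
      · left
        rw [h0, map_zero]
      · right
        rw [P.ord_const h0]
        simp
    have h3 : GeR P (((-(δ * (S.card + a) + ℓ) : ℚ) : ℝ)) (T k E D) := by
      rcases hT k E D S hE hD hS with h | h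
      · exact Or.inl h
      · right
        exact_mod_cast h
    have h4 := h2.mul h3
    rwa [zero_add] at h4
  have h5 := hg.resolve_left h0
  exact_mod_cast h5

/-- **The estimate.** -/
theorem tens_growth (n m : ℕ) (hn1 : 1 ≤ n) (hm : 1 ≤ m) : ∃ M : ℕ, 1 ≤ M ∧
    ∀ (K : Type) [Field K] [Algebra ℂ K] (N : ℕ) (y : Fin (N + 1) → K), NormalModel y →
      Algebra.trdeg ℂ K = n → ∀ (Δ : Place ℂ K → ℚ) (α : Place ℂ K → ℝ) (c : ℝ), FinSup y Δ →
        MovableClass y α → LogDegree y n Δ α c → StableTangent y n Δ α c →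
      ∀ (a : ℤ) (p : ℕ) (L : Place ℂ K → ℚ) (lam : ℝ), (p : ℤ) = m + n * a →
        HasDeg y α (fun P => L P) lam → n * lam ≤ -(p * c) →
      ∀ (R : ℕ) (T : Fin R → (Fin n → Derivation ℂ K K) →
          MultilinearMap K (fun _ : Fin m => Derivation ℂ K K) K),
        (∀ i, Twisted a (T i)) →
        (∀ i P, IsPrimeDivisor y P → OrbAtL (Δ P) (L P) P a (T i)) →
        (∃ E, IsFrame E ∧ LinearIndependent ℂ fun i => T i E) →
        ∃ (r s : ℕ) (b : Fin r → Fin R) (ω : Fin s → (Fin n → Derivation ℂ K K) → K),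
          (∀ E, IsFrame E → LinearIndependent K fun i => T (b i) E) ∧ r ≤ n ^ m ∧ R ≤ r * s ∧
          LinearIndependent ℂ ω ∧
          ∀ i, IsSection y n (M * p) ((M * p) • Δ + (M * n) • L) (ω i) := by
  classical
  choose d hd1 S hS hSs using fun r : ℕ => exists_semi_fin (r * m) n
  obtain ⟨J, hJ⟩ : ∃ J : Finset ℕ, J = Finset.Icc 1 (n ^ m) := ⟨_, rfl⟩
  obtain ⟨M, hM⟩ : ∃ M, M = n * ∏ r ∈ J, d r := ⟨_, rfl⟩
  have hM1 : 1 ≤ M := by
    rw [hM]
    exact Nat.mul_pos hn1 (Finset.prod_pos fun r _ => hd1 r)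
  refine ⟨M, hM1, ?_⟩
  intro K _ _ N y hy hn Δ α c hΔ hα hc hst a p L lam hp hL hdeg R T hT hTO hTE
  have hess := hy.ess
  rcases Nat.eq_zero_or_pos R with hR0 | hR
  · exact ⟨0, 0, fun i => i.elim0, fun i => i.elim0, fun _ _ => linearIndependent_empty_type,
      Nat.zero_le _, by omega, linearIndependent_empty_type, fun i => i.elim0⟩
  obtain ⟨x, E0, hx, hE0⟩ := exists_crd hn
  obtain ⟨w, hwf, hw⟩ := exists_canon hy hn hx hE0
  have hfr : IsFrame E0 := frame_of_dual hx hE0
  have htow : IsScalarTower ℂ K (MultilinearMap K (fun _ : Fin m => Derivation ℂ K K) K) :=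
    ⟨fun a b t => by
      ext D
      rw [MultilinearMap.smul_apply, MultilinearMap.smul_apply, MultilinearMap.smul_apply,
        smul_assoc]⟩
  have hli : LinearIndependent ℂ fun i => T i E0 := by
    obtain ⟨E, hE, hli⟩ := hTE
    obtain ⟨A, hA, hAE⟩ := frame_change hx hE0 hE
    rw [Fintype.linearIndependent_iff] at hli ⊢
    intro g hg
    refine hli g ?_
    have h1 : ∑ i, g i • T i E = A.det ^ a • ∑ i, g i • T i E0 := by
      rw [hAE]
      exact twisted_sum hT g A E0 hA
    rw [h1, hg, smul_zero]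
  obtain ⟨r, b, f, hb, hf, i0, s, cf, hcf, hRs⟩ := la_split (K := K) hR hli
  have hr1 : 1 ≤ r := Fin.pos i0
  have hrm : r ≤ n ^ m := tens_card hfr hb
  have hrJ : r ∈ J := by
    rw [hJ]
    exact Finset.mem_Icc.2 ⟨hr1, hrm⟩
  -- the exterior product
  obtain ⟨u, hu⟩ : ∃ u : (Fin n → Derivation ℂ K K) →
      MultilinearMap K (fun _ : Fin (r * m) => Derivation ℂ K K) K,
      u = fun E => wdg fun i => T (b i) E := ⟨_, rfl⟩
  have huT : Twisted (r * a) u := by
    rw [hu]
    exact wdg_twisted fun i => hT (b i)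
  have huO : ∀ P, IsPrimeDivisor y P → OrbAtL (Δ P) (((fun P => r * L P) : Place ℂ K → ℚ) P) P
      (r * a) u := by
    intro P hP
    rw [hu]
    exact wdg_orb fun i => hTO (b i) P hP
  have hu0 : u E0 ≠ 0 := by
    rw [hu]
    exact wdg_ne hb
  have hrm1 : 1 ≤ r * m := Nat.mul_pos hr1 hm
  have hpR : (p : ℝ) = m + n * a := by exact_mod_cast hp
  have hLr : HasDeg y α (fun P => (((fun P => r * L P) : Place ℂ K → ℚ) P : ℝ)) (r * lam) := by
    obtain ⟨F, h1, h2, h3⟩ := hL
    refine ⟨F, h1, fun P hP hPF => ?_, ?_⟩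
    · have h4 : (L P : ℝ) = 0 := h2 P hP hPF
      push_cast
      rw [h4, mul_zero]
    · rw [← h3, Finset.mul_sum]
      refine Finset.sum_congr rfl fun P _ => ?_
      push_cast
      ring
  obtain ⟨W0, Q0, hW0, hQ0, hQ00⟩ := stable_inv hy hn hn1 hΔ hα hc hst hrm1 hLr (by
    have h1 : (0 : ℝ) ≤ r := Nat.cast_nonneg r
    have h2 : (((r * m : ℕ) : ℝ) + n * ((r * a : ℤ) : ℝ)) = r * p := by
      rw [hpR]
      push_cast
      ring
    rw [h2]
    nlinarith [mul_le_mul_of_nonneg_left hdeg h1]) huT huO hx hE0 hu0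
  obtain ⟨Q, hQS, hQne⟩ := hSs r K (co (fun _ : Unit => u E0) E0) ⟨W0, Q0, hW0, hQ0, hQ00⟩
  -- the exponents
  obtain ⟨k, hk⟩ : ∃ k, k = m * ∏ r' ∈ J.erase r, d r' := ⟨_, rfl⟩
  have hkM : n * (k * d r) = m * M := by
    rw [hM, hk, ← Finset.mul_prod_erase J d hrJ]
    ring
  have hQk := semi_pw (hS r Q hQS) k
  have hQk0 : aeval (pt (co (fun _ : Unit => u E0) E0)) (Q ^ k) ≠ 0 := by
    rw [map_pow]
    exact pow_ne_zero _ hQne
  have hQkne : Q ^ k ≠ 0 := by
    intro h0
    apply hQk0
    rw [h0, map_zero]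
  obtain ⟨μ, hμ⟩ := support_nonempty.2 hQkne
  obtain ⟨b1, hb1⟩ : ∃ b1, b1 = ∑ x, μ x := ⟨_, rfl⟩
  have hbd : (r * m) * b1 = n * (k * d r) := by
    rw [hb1]
    exact inv_deg hQk hμ
  have hbM : r * b1 = M := by
    have h1 : m * (r * b1) = m * M := by
      rw [← hkM, ← hbd]
      ring
    exact Nat.eq_of_mul_eq_mul_left hm h1
  have hb11 : 1 ≤ b1 := by
    rcases Nat.eq_zero_or_pos b1 with h | h
    · rw [h, mul_zero] at hbM
      omega
    · exact h
  obtain ⟨F, hF⟩ : ∃ F, F = aeval (pt (co (fun _ : Unit => u E0) E0)) (Q ^ k) ^ n := ⟨_, rfl⟩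
  have hF0 : F ≠ 0 := by
    rw [hF]
    exact pow_ne_zero _ hQk0
  obtain ⟨g, hg⟩ : ∃ g : Fin s → K, g = fun l => ∑ k, cf l k • f k i0 := ⟨_, rfl⟩
  rw [← hg] at hcf
  refine ⟨r, s, b, fun l => frm x (M * p) (g l * F), ?_, hrm, hRs, ?_, fun l => ?_⟩
  · intro E hE
    obtain ⟨A, hA, hAE⟩ := frame_change hx hE0 hE
    rw [Fintype.linearIndependent_iff]
    intro z hz
    refine Fintype.linearIndependent_iff.1 hb z ?_
    have h1 : ∑ i, z i • T (b i) E = A.det ^ a • ∑ i, z i • T (b i) E0 := by
      rw [Finset.smul_sum]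
      refine Finset.sum_congr rfl fun i _ => ?_
      rw [hAE, hT (b i) A E0 hA, smul_smul, smul_smul, mul_comm]
    rw [h1] at hz
    exact (smul_eq_zero.1 hz).resolve_left (zpow_ne_zero _ hA)
  · rw [Fintype.linearIndependent_iff]
    intro z hz
    refine Fintype.linearIndependent_iff.1 hcf z ?_
    have h1 := congrFun hz E0
    rw [Finset.sum_apply] at h1
    have h2 : ∀ l, (z l • frm x (M * p) (g l * F)) E0 = (z l • g l) * F := by
      intro l
      rw [Pi.smul_apply, frm_eval hE0, smul_mul_assoc]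
    rw [Finset.sum_congr rfl fun l _ => h2 l, ← Finset.sum_mul] at h1
    exact (mul_eq_zero.1 h1).resolve_right hF0
  · -- the tensor with the coefficient `g l`
    obtain ⟨u', hu'⟩ : ∃ u' : (Fin n → Derivation ℂ K K) →
        MultilinearMap K (fun _ : Fin (r * m) => Derivation ℂ K K) K,
        u' = fun E => wdg fun i => (Function.update (fun i => T (b i)) i0
          (fun E => ∑ k, cf l k • T k E)) i E := ⟨_, rfl⟩
    have hupd : ∀ (C : ((Fin n → Derivation ℂ K K) →
        MultilinearMap K (fun _ : Fin m => Derivation ℂ K K) K) → Prop),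
        (∀ i, C (T i)) → C (fun E => ∑ k, cf l k • T k E) → ∀ i,
        C ((Function.update (fun i => T (b i)) i0 (fun E => ∑ k, cf l k • T k E)) i) := by
      intro C h1 h2 i
      by_cases hi : i = i0
      · rw [hi, Function.update_self]
        exact h2
      · rw [Function.update_of_ne hi]
        exact h1 _
    have huT' : Twisted (r * a) u' := by
      rw [hu']
      exact wdg_twisted (hupd _ hT (twisted_sum hT _))
    have huO' : ∀ P, IsPrimeDivisor y P → OrbAtL (Δ P)
        (((fun P => r * L P) : Place ℂ K → ℚ) P) P (r * a) u' := by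
      intro P hP
      rw [hu']
      exact wdg_orb (hupd (OrbAtL (Δ P) (L P) P a) (fun i => hTO i P hP)
        (orb_sum (fun i => hTO i P hP) _))
    have hE : u' E0 = g l • u E0 := by
      rw [hu', hu]
      have h1 : (fun i => (Function.update (fun i => T (b i)) i0
          (fun E => ∑ k, cf l k • T k E)) i E0) =
          Function.update (fun i => T (b i) E0) i0 (∑ i, (∑ k, cf l k • f k i) • T (b i) E0) := by
        funext i
        by_cases hi : i = i0
        · rw [hi, Function.update_self, Function.update_self]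
          have h2 : ∀ k, cf l k • T k E0 = ∑ i, (cf l k • f k i) • T (b i) E0 := by
            intro k
            have h3 := hf k
            change T k E0 = _ at h3
            conv_lhs => rw [h3]
            rw [Finset.smul_sum]
            refine Finset.sum_congr rfl fun i _ => ?_
            rw [smul_assoc]
          rw [Finset.sum_congr rfl fun k _ => h2 k, Finset.sum_comm]
          refine Finset.sum_congr rfl fun i _ => ?_
          rw [← Finset.sum_smul]
        · rw [Function.update_of_ne hi, Function.update_of_ne hi]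
      change wdg (fun i => (Function.update (fun i => T (b i)) i0
          (fun E => ∑ k, cf l k • T k E)) i E0) = g l • wdg fun i => T (b i) E0
      rw [h1, wdg_update, hg]
    have h1 := sec_mul hy hn hn1 (Δ := Δ) (ℓ := fun P => r * L P) hrm1 (a := r * a) (p := r * p)
      (by push_cast; rw [hp]; ring) huT huT' huO huO' hx hE0 hw hE hb11 hQk hbd hQk0
    rw [← hF] at h1
    have h2 : b1 * (r * p) = M * p := by
      rw [← hbM]
      ring
    have h3 : ((b1 * (r * p)) • Δ + (b1 * n) • (fun P => (r : ℚ) * L P)) =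
        (M * p) • Δ + (M * n) • L := by
      funext P
      rw [Pi.add_apply, Pi.add_apply, smul_ap, smul_ap, smul_ap, smul_ap, ← hbM]
      push_cast
      ring
    rw [h3, h2] at h1
    exact h1

end

end Pool.Agent.H897
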