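import Pool.Agent.H897.YC
import Pool.Graph.R_seed8.Y191.CorCP
import Pool.Graph.R_pool_sql_team_seeded_3dad9d7b.NH31.M2

/-!
Growth of the spaces of tensors: Iitaka dimensions, and the independence of tensors.
-/

set_option autoImplicit false
set_option linter.overlappingInstances false
set_option linter.unusedSectionVars false

open MvPolynomial FF Pool.Agent.W602.GT Pool.Agent.Y172 Pool.Agent.NH31 Pool.Agent.W603.LV
open Pool.Agent.N133.TB Pool.Agent.Y174 Pool.Agent.Y191

namespace Pool.Agent.H897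

section

variable {K : Type} [Field K] [Algebra ℂ K] {N n : ℕ} {y : Fin (N + 1) → K}

/-- `T` is a section of the `m`-th tensor power of the orbifold cotangent sheaf `Ω¹ (X, Δ)` with
values in `a (K_X + Δ) + L`. -/
def IsTensor (y : Fin (N + 1) → K) (n : ℕ) (Δ L : Place ℂ K → ℚ) (a : ℤ) (m : ℕ)
    (T : (Fin n → Derivation ℂ K K) → MultilinearMap K (fun _ : Fin m => Derivation ℂ K K) K) :
    Prop :=
  Twisted a T ∧ ∀ P, IsPrimeDivisor y P → OrbAtL (Δ P) (L P) P a T

/-- **Growth.** -/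
theorem iitaka_growth (hy : NormalModel y) (hn : Algebra.trdeg ℂ K = n) {L : Place ℂ K → ℚ}
    (hL : FinSup y L) {B q : ℕ} (hq : 1 ≤ q) {S : ℕ → ℕ → Prop}
    (hT : ∀ k : ℕ, 1 ≤ k → ∀ R : ℕ, S k R → ∃ (s : ℕ) (h : Fin s → K), R ≤ B * s ∧
      LinearIndependent ℂ h ∧ ∀ i, Fn y ((q * k) • L) (h i)) :
    (∀ k : ℕ, 1 ≤ k → ¬ S k 1) ∨
      ∃ h C : ℕ, IitakaGe y L h ∧ ∀ k : ℕ, 1 ≤ k → ∀ R : ℕ, S k R → R ≤ C * k ^ h := by
  classical
  by_cases hex : ∀ k : ℕ, 1 ≤ k → ¬ S k 1
  · exact Or.inl hex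
  right
  push Not at hex
  obtain ⟨k0, hk0, hT0⟩ := hex
  obtain ⟨s0, h0, hs0, hh0, hh0s⟩ := hT k0 hk0 1 hT0
  have hs01 : 0 < s0 := by
    rcases Nat.eq_zero_or_pos s0 with h | h
    · rw [h, mul_zero] at hs0
      omega
    · exact h
  have ha1 : 1 ≤ q * k0 := Nat.mul_pos hq hk0
  obtain ⟨κ, m0, g, hm0, hg, hg0, hgi, C, hC⟩ :=
    iitaka_bound hy hn hL ha1 (hh0s ⟨0, hs01⟩) (hh0.ne_zero _)
  refine ⟨κ, B * C, ⟨m0, hm0, g, hg0, fun b P hP => ?_, hgi⟩, fun k hk R hR => ?_⟩
  · have h1 := hg b P hP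
    rwa [smul_ap] at h1
  · obtain ⟨s, h, hs, hh, hhs⟩ := hT k hk R hR
    have h1 : s ≤ C * k ^ κ := by
      rcases Nat.eq_zero_or_pos s with h0 | h0
      · rw [h0]
        exact Nat.zero_le _
      obtain ⟨i1, -⟩ : ∃ i1 : Fin s, i1 = ⟨0, h0⟩ := ⟨_, rfl⟩
      refine hC k hk s (fun i => h i * h i1 ^ (k0 - 1)) ?_ fun i => ?_
      · rw [Fintype.linearIndependent_iff] at hh ⊢
        intro z hz
        refine hh z ?_
        have h2 : ∀ i, z i • (h i * h i1 ^ (k0 - 1)) = (z i • h i) * h i1 ^ (k0 - 1) := fun i => by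
          rw [smul_mul_assoc]
        rw [Finset.sum_congr rfl fun i _ => h2 i, ← Finset.sum_mul] at hz
        refine (mul_eq_zero.1 hz).resolve_right (pow_ne_zero _ fun h3 => ?_)
        have h4 := hh (Pi.single i1 1) (by
          rw [Finset.sum_eq_single i1]
          · rw [h3, smul_zero]
          · intro j _ hj
            rw [Pi.single_eq_of_ne hj, zero_smul]
          · intro h
            exact absurd (Finset.mem_univ _) h) i1
        rw [Pi.single_eq_same] at h4
        exact one_ne_zero h4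
      · have h2 := (hhs i).mul ((hhs i1).pow (k0 - 1))
        have h3 : (q * k) • L + (k0 - 1) • ((q * k) • L) = ((q * k0) * k) • L := by
          rw [smul_smul, ← add_smul]
          congr 1
          obtain ⟨k', rfl⟩ : ∃ k', k0 = k' + 1 := ⟨k0 - 1, by omega⟩
          rw [Nat.add_sub_cancel]
          ring
        rwa [h3] at h2
    calc R ≤ B * s := hs
      _ ≤ B * (C * k ^ κ) := Nat.mul_le_mul_left _ h1
      _ = B * C * k ^ κ := by ring

/-- the functions given by sections of `0 K_X + U` -/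
theorem fn_of_zero (hy : NormalModel y) (hn : Algebra.trdeg ℂ K = n) {Δ U : Place ℂ K → ℚ} {s : ℕ}
    {ω : Fin s → (Fin n → Derivation ℂ K K) → K} (hω : LinearIndependent ℂ ω)
    (hs : ∀ i, IsSection y n 0 (0 • Δ + U) (ω i)) :
    ∃ h : Fin s → K, LinearIndependent ℂ h ∧ ∀ i, Fn y U (h i) := by
  classical
  have hess := hy.ess
  obtain ⟨x, E0, hx, hE0⟩ := exists_crd hn
  obtain ⟨w, hwf, hw⟩ := exists_canon hy hn hx hE0
  have hfr : IsFrame E0 := frame_of_dual hx hE0
  refine ⟨fun i => ω i E0, ?_, fun i P hP => ?_⟩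
  · rw [Fintype.linearIndependent_iff] at hω ⊢
    intro z hz
    refine hω z (pluri_zero hfr (m := 0) ?_ ?_)
    · intro A D
      rw [Finset.sum_apply, Finset.sum_apply, Finset.mul_sum]
      refine Finset.sum_congr rfl fun i _ => ?_
      rw [Pi.smul_apply, Pi.smul_apply, (hs i).1 A D, mul_smul_comm]
    · rw [Finset.sum_apply]
      exact hz
  · have h1 := (hw P hP 0 (ω i) _ (hs i).1).1 ((hs i).2 P hP)
    rcases h1 with h1 | h1
    · exact Or.inl h1
    right
    rw [zero_smul, zero_add] at h1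
    push_cast at h1
    linarith

/-- the order of the tensor `ω d η - η d ω` -/
theorem jac_orb2 {ω η : (Fin n → Derivation ℂ K K) → K} {d : ℕ} {P : Place ℂ K} {δ ℓ : ℚ}
    (hδ : 0 ≤ δ) (hω : OrdGe P ω (-(d * δ + ℓ))) (hη : OrdGe P η (-(d * δ + ℓ))) :
    OrbAtL δ (2 * ℓ) P (2 * d : ℤ) (jac ω η) := by
  intro E D S hE hD _
  by_cases h0 : jac ω η E D = 0
  · exact Or.inl h0
  right
  rw [jac_apply] at h0 ⊢
  have h1 : ω E ≠ 0 := by
    intro h
    apply h0
    rw [h, map_zero, zero_mul, mul_zero, sub_zero]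
  have h2 : η E ≠ 0 := by
    intro h
    apply h0
    rw [h, map_zero, zero_mul, mul_zero, sub_zero]
  have h3 := (hω E hE.1).resolve_left h1
  have h4 := (hη E hE.1).resolve_left h2
  have h5 : (0 : ℚ) ≤ δ * S.card := mul_nonneg hδ (Nat.cast_nonneg _)
  have key : ∀ f g : K, f ≠ 0 → g ≠ 0 → P.ord f ≤ P.ord g → -(d * δ + ℓ) ≤ (P.ord f : ℚ) →
      f * D 0 g - g * D 0 f ≠ 0 →
      -(δ * (S.card + ((2 * d : ℤ) : ℚ)) + 2 * ℓ) ≤ (P.ord (f * D 0 g - g * D 0 f) : ℚ) := by
    intro f g hf hg hle hfo hne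
    have h6 : P.Reg (g / f) := by
      right
      rw [P.ord_div hg hf]
      omega
    have h7 : f * D 0 g - g * D 0 f = f ^ 2 * D 0 (g / f) := by
      have h8 : D 0 g = f * D 0 (g / f) + (g / f) * D 0 f := by
        conv_lhs => rw [← mul_div_cancel₀ g hf]
        rw [Derivation.leibniz]
        rfl
      rw [h8]
      field_simp
      ring
    rw [h7] at hne ⊢
    have h8 := right_ne_zero_of_mul hne
    have h9 := (P.reg_iff h8).1 (hD 0 _ h6)
    rw [P.ord_mul (pow_ne_zero 2 hf) h8, P.ord_pow]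
    have h10 : (0 : ℚ) ≤ P.ord (D 0 (g / f)) := by exact_mod_cast h9
    push_cast
    linarith
  rcases le_total (P.ord (ω E)) (P.ord (η E)) with hle | hle
  · exact key _ _ h1 h2 hle h3 h0
  · have h6 : ω E * D 0 (η E) - η E * D 0 (ω E) =
        -(η E * D 0 (ω E) - ω E * D 0 (η E)) := by ring
    have h7 : η E * D 0 (ω E) - ω E * D 0 (η E) ≠ 0 := by
      intro h
      apply h0
      rw [h6, h, neg_zero]
    rw [h6, P.ord_neg]
    exact key _ _ h2 h1 hle h4 h7

theorem hasDeg_smul {α : Place ℂ K → ℝ} {L : Place ℂ K → ℚ} {lam : ℝ}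
    (hL : HasDeg y α (fun P => L P) lam) (r : ℕ) :
    HasDeg y α (fun P => ((r • L) P : ℚ)) (r * lam) := by
  obtain ⟨F, h1, h2, h3⟩ := hL
  refine ⟨F, h1, fun P hP hPF => ?_, ?_⟩
  · have h4 : (L P : ℝ) = 0 := h2 P hP hPF
    change (((r • L) P : ℚ) : ℝ) = 0
    rw [smul_ap]
    push_cast
    rw [h4, mul_zero]
  · rw [← h3, Finset.mul_sum]
    refine Finset.sum_congr rfl fun P _ => ?_
    change α P * (((r • L) P : ℚ) : ℝ) = r * (α P * (L P : ℝ))
    rw [smul_ap]
    push_cast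
    ring

/-- **Two sections are proportional**, if the degree is at most `0`. -/
theorem two_sec (hy : NormalModel y) (hn : Algebra.trdeg ℂ K = n) (hn2 : 2 ≤ n)
    {Δ : Place ℂ K → ℚ} (hΔ : Effective y Δ) {α : Place ℂ K → ℝ} (hα : MovableClass y α) {c : ℝ}
    (hc : LogDegree y n Δ α c) (hc0 : c ≤ 0) (hst : StableTangent y n Δ α c) {d : ℕ}
    {L : Place ℂ K → ℚ} {lam : ℝ} (hL : HasDeg y α (fun P => L P) lam) (hdeg : d * c + lam ≤ 0)
    {ω η : (Fin n → Derivation ℂ K K) → K} (hω : IsSection y n d (d • Δ + L) ω)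
    (hη : IsSection y n d (d • Δ + L) η) (hη0 : η ≠ 0) : ∃ z : ℂ, ω = z • η := by
  classical
  have hess := hy.ess
  obtain ⟨x, E0, hx, hE0⟩ := exists_crd hn
  have hfr : IsFrame E0 := frame_of_dual hx hE0
  have hηE : η E0 ≠ 0 := fun h => hη0 (pluri_zero hfr hη.1 h)
  have hsm : ∀ P, -((d • Δ + L) P) = -(d * Δ P + L P) := fun P => by rw [Pi.add_apply, smul_ap]
  have h0 : jac ω η E0 = 0 := by
    by_contra h0
    obtain ⟨W, Q, hW, hQ, hQ0⟩ := stable_inv hy hn (by omega) hΔ.2 hα hc hst (m := 1) le_rfl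
      (a := 2 * d) (ℓ := 2 • L) (lam := 2 * lam) (by exact_mod_cast hasDeg_smul hL 2) (by
        push_cast
        have h1 : (n : ℝ) * (d * c + lam) ≤ 0 :=
          mul_nonpos_of_nonneg_of_nonpos (Nat.cast_nonneg _) hdeg
        nlinarith) (jac_twisted hω.1 hη.1) (fun P hP => by
          have h1 := jac_orb2 (hΔ.1 P hP)
            (by rw [← hsm P]; exact hω.2 P hP) (by rw [← hsm P]; exact hη.2 P hP)
          have h2 : (2 • L) P = 2 * L P := by
            rw [smul_ap]
            norm_num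
          rw [h2]
          exact h1) hx hE0 h0
    exact hQ0 (lin_null hn2 hW hQ _)
  have h1 : ∀ D : Derivation ℂ K K, D (ω E0 / η E0) = 0 := by
    intro D
    have h2 : jac ω η E0 (fun _ => D) = 0 := by rw [h0]; rfl
    rw [jac_apply] at h2
    have h3 : D (ω E0) = η E0 * D (ω E0 / η E0) + (ω E0 / η E0) * D (η E0) := by
      conv_lhs => rw [← mul_div_cancel₀ (ω E0) hηE]
      rw [Derivation.leibniz]
      rfl
    rw [h3] at h2
    have h4 : η E0 ^ 2 * D (ω E0 / η E0) = 0 := by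
      have h5 : ω E0 * D (η E0) - η E0 * (η E0 * D (ω E0 / η E0) + ω E0 / η E0 * D (η E0)) =
          -(η E0 ^ 2 * D (ω E0 / η E0)) := by
        field_simp
        ring
      rw [h5] at h2
      exact neg_eq_zero.1 h2
    exact (mul_eq_zero.1 h4).resolve_left (pow_ne_zero 2 hηE)
  obtain ⟨z, hz⟩ := const_of_all_der h1
  refine ⟨z, ?_⟩
  have hpl : IsPluri d (ω - z • η) := by
    intro A D
    change ω _ - z • η _ = _ * (ω D - z • η D)
    rw [hω.1 A D, hη.1 A D, mul_sub, mul_smul_comm]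
  have h2 : (ω - z • η) E0 = 0 := by
    change ω E0 - z • η E0 = 0
    rw [Algebra.smul_def, ← hz, div_mul_cancel₀ _ hηE, sub_self]
  exact sub_eq_zero.1 (pluri_zero hfr hpl h2)

/-- **The dimension of the spaces of sections**, if the degrees are at most `0`. -/
theorem sec_dim (hy : NormalModel y) (hn : Algebra.trdeg ℂ K = n) (hn2 : 2 ≤ n)
    {Δ : Place ℂ K → ℚ} (hΔ : Effective y Δ) {α : Place ℂ K → ℝ} (hα : MovableClass y α) {c : ℝ}
    (hc : LogDegree y n Δ α c) (hc0 : c ≤ 0) (hst : StableTangent y n Δ α c) {q s : ℕ}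
    {L : Place ℂ K → ℚ} {lam : ℝ} (hL : HasDeg y α (fun P => L P) lam) (hdeg : q * c + lam ≤ 0)
    {ω : Fin s → (Fin n → Derivation ℂ K K) → K} (hω : LinearIndependent ℂ ω)
    (hs : ∀ i, IsSection y n q (q • Δ + L) (ω i)) : s ≤ 1 := by
  by_contra hcon
  push Not at hcon
  obtain ⟨i0, hi0⟩ : ∃ i0 : Fin s, i0 = ⟨0, by omega⟩ := ⟨_, rfl⟩
  obtain ⟨i1, hi1⟩ : ∃ i1 : Fin s, i1 = ⟨1, by omega⟩ := ⟨_, rfl⟩
  have hne : i0 ≠ i1 := by
    rw [hi0, hi1]
    intro h
    have := congrArg Fin.val h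
    simp at this
  obtain ⟨z, hz⟩ := two_sec hy hn hn2 hΔ hα hc hc0 hst hL hdeg (hs i0) (hs i1) (hω.ne_zero i1)
  have h2 := Fintype.linearIndependent_iff.1 hω (Pi.single i0 1 - z • Pi.single i1 1) (by
    simp only [Pi.sub_apply, Pi.smul_apply, sub_smul, Finset.sum_sub_distrib, smul_assoc,
      ← Finset.smul_sum]
    rw [Finset.sum_eq_single i0, Finset.sum_eq_single i1]
    · rw [Pi.single_eq_same, Pi.single_eq_same, one_smul, one_smul, hz, sub_self]
    · intro j _ hj
      rw [Pi.single_eq_of_ne hj, zero_smul]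
    · intro h
      exact absurd (Finset.mem_univ _) h
    · intro j _ hj
      rw [Pi.single_eq_of_ne hj, zero_smul]
    · intro h
      exact absurd (Finset.mem_univ _) h) i0
  rw [Pi.sub_apply, Pi.smul_apply, Pi.single_eq_same, Pi.single_eq_of_ne hne, smul_zero,
    sub_zero] at h2
  exact one_ne_zero h2

/-- independent tensors, if all are combinations of as many of them -/
theorem indep_of_card {V : Type} [AddCommGroup V] [Module K V] {r R : ℕ} {v : Fin R → V}
    {b : Fin r → Fin R} (hb : LinearIndependent K (v ∘ b)) (hR : R ≤ r) :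
    LinearIndependent K v := by
  have h1 : Function.Injective b := hb.injective.of_comp
  have h2 : r ≤ R := by
    have := Fintype.card_le_of_injective b h1
    rwa [Fintype.card_fin, Fintype.card_fin] at this
  obtain rfl : r = R := le_antisymm h2 hR
  have h3 : Function.Bijective b := Finite.injective_iff_bijective.1 h1
  have h4 := hb.comp (Equiv.ofBijective b h3).symm (Equiv.injective _)
  have h5 : (v ∘ b) ∘ (Equiv.ofBijective b h3).symm = v := by
    funext i
    change v (b ((Equiv.ofBijective b h3).symm i)) = v i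
    congr 1
    exact (Equiv.ofBijective b h3).apply_symm_apply i
  rwa [h5] at h4

end

end Pool.Agent.H897
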