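import Pool.Agent.H897.YD

/-!
Growth of the spaces of tensors: the Iitaka dimension of divisors of degree at most zero.
-/

set_option autoImplicit false
set_option linter.overlappingInstances false
set_option linter.unusedSectionVars false

open MvPolynomial FF Pool.Agent.W602.GT Pool.Agent.Y172 Pool.Agent.NH31 Pool.Agent.W603.LV
open Pool.Agent.N133.TB Pool.Agent.Y174 Pool.Agent.Y191

namespace Pool.Agent.H897

variable {K : Type} [Field K] [Algebra ℂ K] {N n : ℕ} {y : Fin (N + 1) → K}

/-- the Iitaka dimension of a divisor of degree at most `0` is at most `0` -/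
theorem not_iitaka (hy : NormalModel y) (hn : Algebra.trdeg ℂ K = n) (hn2 : 2 ≤ n)
    {Δ : Place ℂ K → ℚ} (hΔ : Effective y Δ) {α : Place ℂ K → ℝ} (hα : MovableClass y α) {c : ℝ}
    (hc : LogDegree y n Δ α c) (hc0 : c ≤ 0) (hst : StableTangent y n Δ α c)
    {L : Place ℂ K → ℚ} {lam : ℝ} (hL : HasDeg y α (fun P => L P) lam) (hlam : lam ≤ 0) :
    ¬ IitakaGe y L 1 := by
  rintro ⟨m, hm, f, hf0, hf, hind⟩
  have hess := hy.ess
  obtain ⟨x, E0, hx, hE0⟩ := exists_crd hn
  obtain ⟨w, hwf, hw⟩ := exists_canon hy hn hx hE0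
  have hpl : ∀ g : K, IsPluri 0 (fun _ : Fin n → Derivation ℂ K K => g) := by
    intro g A D
    rw [pow_zero, one_mul]
  have hsec : ∀ b, IsSection y n 0 (0 • Δ + m • L) (fun _ => f b) := fun b =>
    ⟨hpl _, fun P hP => (hw P hP 0 _ _ (hpl _)).2 (by
      rcases hf b P hP with h | h
      · left
        exact h
      · right
        rw [zero_smul, zero_add, smul_ap]
        push_cast
        linarith)⟩
  obtain ⟨z, hz⟩ := two_sec hy hn hn2 hΔ hα hc hc0 hst (d := 0) (hasDeg_smul hL m) (by
    push_cast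
    have h1 : (0 : ℝ) ≤ m := Nat.cast_nonneg m
    nlinarith) (hsec 1) (hsec 0) (fun h => hf0 (congrFun h E0))
  have h1 : f 1 = z • f 0 := congrFun hz E0
  have h2 := algebraicIndependent_unique_type_iff.1 hind
  apply h2
  have h3 : f (Fin.succ (default : Fin 1)) / f 0 = algebraMap ℂ K z := by
    have h4 : (Fin.succ (default : Fin 1) : Fin 2) = 1 := rfl
    rw [h4, h1, Algebra.smul_def, mul_div_assoc, div_self hf0, mul_one]
  change IsAlgebraic ℂ (f (Fin.succ (default : Fin 1)) / f 0)
  rw [h3]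
  exact isAlgebraic_algebraMap z

end Pool.Agent.H897
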